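import Mathlib
import Pool.Agent.Mg.Fedaf86.G6ae19f

section

namespace SJ
open Set Filter Topology MeasureTheory Metric Function
open scoped ENNReal

namespace InvX

theorem fderiv_lower {E F : Type*} [NormedAddCommGroup E] [NormedSpace ℝ E]
    [NormedAddCommGroup F] [NormedSpace ℝ F] {f : E → F} {C : ℝ} {y : E}
    (hf : DifferentiableAt ℝ f y) (h : ∀ y y', ‖y - y'‖ ≤ C * ‖f y - f y'‖) (v : E) :
    ‖v‖ ≤ C * ‖fderiv ℝ f y v‖ := by
  have h1 : HasDerivAt (fun t : ℝ => y + t • v) v 0 := by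
    simpa using ((hasDerivAt_id (0 : ℝ)).smul_const v).const_add y
  have h2 : HasFDerivAt f (fderiv ℝ f y) (y + (0 : ℝ) • v) := by
    simpa using hf.hasFDerivAt
  have h3 : HasDerivAt (fun t : ℝ => f (y + t • v)) (fderiv ℝ f y v) 0 :=
    h2.comp_hasDerivAt (0 : ℝ) h1
  rw [hasDerivAt_iff_tendsto_slope_zero] at h3
  have h4 : Tendsto (fun t : ℝ => C * ‖t⁻¹ • (f (y + (0 + t) • v) - f (y + (0 : ℝ) • v))‖)
      (𝓝[≠] 0) (𝓝 (C * ‖fderiv ℝ f y v‖)) := h3.norm.const_mul C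
  refine ge_of_tendsto h4 ?_
  filter_upwards [self_mem_nhdsWithin] with t ht
  have ht' : t ≠ 0 := ht
  have h5 := h (y + (0 + t) • v) (y + (0 : ℝ) • v)
  have h6 : y + (0 + t) • v - (y + (0 : ℝ) • v) = t • v := by simp
  rw [h6, norm_smul] at h5
  rw [norm_smul, norm_inv]
  have hp : 0 < ‖t‖ := norm_pos_iff.2 ht'
  have : C * (‖t‖⁻¹ * ‖f (y + (0 + t) • v) - f (y + (0 : ℝ) • v)‖) =
      ‖t‖⁻¹ * (C * ‖f (y + (0 + t) • v) - f (y + (0 : ℝ) • v)‖) := by ring
  rw [this, le_inv_mul_iff₀ hp]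
  exact h5

theorem fderiv_inj {E F : Type*} [NormedAddCommGroup E] [NormedSpace ℝ E]
    [NormedAddCommGroup F] [NormedSpace ℝ F] {f : E → F} {C : ℝ} {y : E}
    (hf : DifferentiableAt ℝ f y) (h : ∀ y y', ‖y - y'‖ ≤ C * ‖f y - f y'‖) :
    Injective (fderiv ℝ f y) := by
  rw [injective_iff_map_eq_zero]
  intro v hv
  have := fderiv_lower hf h v
  rw [hv, norm_zero, mul_zero] at this
  exact norm_le_zero_iff.1 this

theorem exists_equiv {E : Type*} [NormedAddCommGroup E] [NormedSpace ℝ E] [FiniteDimensional ℝ E]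
    (L : E →L[ℝ] E) (hL : Injective L) : ∃ e : E ≃L[ℝ] E, (e : E →L[ℝ] E) = L := by
  refine ⟨(LinearEquiv.ofInjectiveEndo (L : E →ₗ[ℝ] E) hL).toContinuousLinearEquiv, ?_⟩
  ext v
  rfl

end InvX

theorem inverse_c2 {E : Type*} [NormedAddCommGroup E] [NormedSpace ℝ E] [FiniteDimensional ℝ E]
    {f : E → E} {A B c : ℝ} (hf : C2B f A B) (hc : 0 < c)
    (h : ∀ y y', c * ‖y - y'‖ ≤ ‖f y - f y'‖) :
    ∃ g : E → E, LeftInverse g f ∧ RightInverse g f ∧ C2B g (1 / c) (B / c ^ 3) := by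
  have : CompleteSpace E := FiniteDimensional.complete ℝ E
  have h' : ∀ y y', ‖y - y'‖ ≤ (1 / c) * ‖f y - f y'‖ := by
    intro y y'
    rw [one_div, le_inv_mul_iff₀ hc]
    exact h y y'
  have hd : ∀ y, DifferentiableAt ℝ f y := fun y => hf.cd.differentiable (by norm_num) y
  choose e he using fun y => InvX.exists_equiv (fderiv ℝ f y) (InvX.fderiv_inj (hd y) h')
  have hs : ∀ y, HasStrictFDerivAt f (e y : E →L[ℝ] E) y := by
    intro y
    rw [he]
    exact hf.cd.contDiffAt.hasStrictFDerivAt (by norm_num)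
  have hopen : IsOpenMap f := isOpenMap_of_hasStrictFDerivAt_equiv hs
  have hanti : AntilipschitzWith (⟨1 / c, by positivity⟩ : NNReal) f := by
    apply AntilipschitzWith.of_le_mul_dist
    intro y y'
    rw [dist_eq_norm, dist_eq_norm]
    exact h' y y'
  have hlip : LipschitzWith (⟨A, hf.nonneg1⟩ : NNReal) f := by
    apply LipschitzWith.of_dist_le_mul
    intro y y'
    rw [dist_eq_norm, dist_eq_norm]
    exact hf.lip y y'
  have hclosed : IsClosed (range f) := hanti.isClosed_range hlip.uniformContinuous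
  have hsurj : Surjective f := by
    rw [← range_eq_univ]
    exact IsClopen.eq_univ ⟨hclosed, hopen.isOpen_range⟩ (range_nonempty f)
  let φ : E ≃ₜ E := (Equiv.ofBijective f ⟨hanti.injective, hsurj⟩).toHomeomorphOfContinuousOpen
    hf.cd.continuous hopen
  have hφ : (φ : E → E) = f := rfl
  have hg : ContDiff ℝ 2 (φ.symm : E → E) :=
    φ.contDiff_symm (f₀' := e) (fun a => (hs a).hasFDerivAt) hf.cd
  have hl : LeftInverse φ.symm f := fun y => φ.symm_apply_apply y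
  have hr : RightInverse φ.symm f := fun y => φ.apply_symm_apply y
  have hd1 : ∀ z, ‖fderiv ℝ (φ.symm : E → E) z‖ ≤ 1 / c := by
    intro z
    apply norm_fderiv_le_of_lip' ℝ (by positivity)
    filter_upwards with x
    have := h' (φ.symm x) (φ.symm z)
    rwa [hr x, hr z] at this
  refine ⟨φ.symm, hl, hr, hg, hd1, fun z => ?_⟩
  have hB := hf.nonneg2
  apply norm_D2_le_of_apply (by positivity)
  intro v w
  have hcomp := D2_comp_apply hf.cd hg z v w
  have hid : (fun x => f (φ.symm x)) = fun x => (ContinuousLinearMap.id ℝ E) x := by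
    funext x
    exact hr x
  rw [hid, D2_clm] at hcomp
  have h0 : fderiv ℝ f (φ.symm z) (D2 φ.symm z v w) =
      - D2 f (φ.symm z) (fderiv ℝ φ.symm z v) (fderiv ℝ φ.symm z w) := by
    rw [eq_neg_iff_add_eq_zero, add_comm]
    simpa using hcomp.symm
  have h1 := InvX.fderiv_lower (hd (φ.symm z)) h' (D2 φ.symm z v w)
  rw [h0, norm_neg] at h1
  have h2 := norm_D2_apply_le f (φ.symm z) (fderiv ℝ φ.symm z v) (fderiv ℝ φ.symm z w)
  have hv : ‖fderiv ℝ φ.symm z v‖ ≤ 1 / c * ‖v‖ :=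
    ((fderiv ℝ φ.symm z).le_opNorm v).trans (mul_le_mul_of_nonneg_right (hd1 z) (norm_nonneg _))
  have hw : ‖fderiv ℝ φ.symm z w‖ ≤ 1 / c * ‖w‖ :=
    ((fderiv ℝ φ.symm z).le_opNorm w).trans (mul_le_mul_of_nonneg_right (hd1 z) (norm_nonneg _))
  have h3 : ‖D2 f (φ.symm z)‖ * ‖fderiv ℝ φ.symm z v‖ * ‖fderiv ℝ φ.symm z w‖ ≤
      B * (1 / c * ‖v‖) * (1 / c * ‖w‖) := by
    gcongr
    exact hf.d2 _
  calc ‖D2 φ.symm z v w‖ ≤ 1 / c * (B * (1 / c * ‖v‖) * (1 / c * ‖w‖)) :=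
        h1.trans (mul_le_mul_of_nonneg_left (h2.trans h3) (by positivity))
    _ = B / c ^ 3 * ‖v‖ * ‖w‖ := by field_simp

theorem det_pos_of_antilip {E : Type*} [NormedAddCommGroup E] [NormedSpace ℝ E]
    [FiniteDimensional ℝ E] {f : E → E} {C : ℝ} (hf : ContDiff ℝ 2 f)
    (h : ∀ y y', ‖y - y'‖ ≤ C * ‖f y - f y'‖) (y0 : E) (h0 : f =ᶠ[𝓝 y0] fun y => y) (y : E) :
    0 < (fderiv ℝ f y).det := by
  have hd : ∀ y, DifferentiableAt ℝ f y := fun y => hf.differentiable (by norm_num) y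
  have hc : Continuous fun y => (fderiv ℝ f y).det :=
    ContinuousLinearMap.continuous_det.comp (hf.continuous_fderiv (by norm_num))
  have hne : ∀ y, (fderiv ℝ f y).det ≠ 0 := by
    intro y
    obtain ⟨e, he⟩ := InvX.exists_equiv (fderiv ℝ f y) (InvX.fderiv_inj (hd y) h)
    rw [← he]
    exact (LinearEquiv.isUnit_det' e.toLinearEquiv).ne_zero
  have h1 : (fderiv ℝ f y0).det = 1 := by
    rw [h0.fderiv_eq]
    simp [ContinuousLinearMap.det]
  by_contra hneg
  have hle : (fderiv ℝ f y).det ≤ 0 := not_lt.1 hneg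
  have := intermediate_value_univ y y0 hc
  obtain ⟨z, hz⟩ := this (show (0 : ℝ) ∈ Icc _ _ from ⟨hle, by rw [h1]; norm_num⟩)
  exact hne z hz

theorem det_vert {X : Type*} [NormedAddCommGroup X] [NormedSpace ℝ X] [FiniteDimensional ℝ X]
    {u : X × ℝ → ℝ} {y : X × ℝ} (hu : DifferentiableAt ℝ u y) :
    (fderiv ℝ (fun z : X × ℝ => (z.1, u z)) y).det = deriv (fun t => u (y.1, t)) y.2 := by
  have h1 : HasFDerivAt (fun z : X × ℝ => (z.1, u z))
      ((ContinuousLinearMap.fst ℝ X ℝ).prod (fderiv ℝ u y)) y :=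
    hasFDerivAt_fst.prodMk hu.hasFDerivAt
  have h2 : HasDerivAt (fun t : ℝ => u (y.1, t)) (fderiv ℝ u y (0, 1)) y.2 := by
    have h3 : HasDerivAt (fun t : ℝ => ((y.1, t) : X × ℝ)) (0, 1) y.2 :=
      (hasDerivAt_const y.2 y.1).prodMk (hasDerivAt_id y.2)
    exact hu.hasFDerivAt.comp_hasDerivAt y.2 h3
  rw [h1.fderiv, h2.deriv]
  classical
  let b := Module.finBasis ℝ X
  let b' := b.prod (Module.Basis.singleton Unit ℝ)
  rw [ContinuousLinearMap.det, ← LinearMap.det_toMatrix b']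
  have hM : LinearMap.toMatrix b' b'
      (((ContinuousLinearMap.fst ℝ X ℝ).prod (fderiv ℝ u y) : X × ℝ →L[ℝ] X × ℝ) :
        X × ℝ →ₗ[ℝ] X × ℝ) =
      Matrix.fromBlocks 1 0 (fun _ j => fderiv ℝ u y (b j, 0))
        (fun _ _ => fderiv ℝ u y (0, 1)) := by
    ext i j
    rcases i with i | i <;> rcases j with j | j <;>
      simp [LinearMap.toMatrix_apply, b', Matrix.one_apply, Finsupp.single_apply, eq_comm]
  rw [hM, Matrix.det_fromBlocks_zero₁₂]
  simp

theorem det_fderiv_comp {E : Type*} [NormedAddCommGroup E] [NormedSpace ℝ E]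
    {f g : E → E} {y : E} (hg : DifferentiableAt ℝ g (f y)) (hf : DifferentiableAt ℝ f y) :
    (fderiv ℝ (fun z => g (f z)) y).det = (fderiv ℝ g (f y)).det * (fderiv ℝ f y).det := by
  have h := fderiv_comp y hg hf
  have h' : (fun z => g (f z)) = g ∘ f := rfl
  rw [h', h, ContinuousLinearMap.det, ContinuousLinearMap.det, ContinuousLinearMap.det,
    ← LinearMap.det_comp]
  rfl

end SJ

end

section

namespace SJ
open Set Filter Topology MeasureTheory Metric Function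
open scoped ENNReal

variable {E : Type*} [NormedAddCommGroup E] [NormedSpace ℝ E]

namespace LgLibX

theorem diff_of_cd {F : Type*} [NormedAddCommGroup F] [NormedSpace ℝ F] {f : E → F}
    (hf : ContDiff ℝ 2 f) : Differentiable ℝ f :=
  hf.differentiable (by norm_num)

theorem diff_fderiv {F : Type*} [NormedAddCommGroup F] [NormedSpace ℝ F] {f : E → F}
    (hf : ContDiff ℝ 2 f) : Differentiable ℝ (fderiv ℝ f) := by
  have h1 : ContDiff ℝ 1 (fderiv ℝ f) := hf.fderiv_right (by norm_num)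
  exact h1.differentiable (by norm_num)

theorem hasFDerivAt_inv' {φ : E → ℝ} (hd : Differentiable ℝ φ) (hp : ∀ x, 0 < φ x) (x : E) :
    HasFDerivAt (fun x => (φ x)⁻¹) ((-((φ x)⁻¹ * (φ x)⁻¹)) • fderiv ℝ φ x) x := by
  have h1 : HasDerivAt (fun t : ℝ => t⁻¹) (-((φ x) ^ 2)⁻¹) (φ x) := hasDerivAt_inv (hp x).ne'
  have h2 := h1.comp_hasFDerivAt x (hd x).hasFDerivAt
  have h3 : -((φ x) ^ 2)⁻¹ = -((φ x)⁻¹ * (φ x)⁻¹) := by
    rw [pow_two, mul_inv]
  rw [h3] at h2
  exact h2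

end LgLibX

open LgLibX

theorem Lg.mono {φ : E → ℝ} {r r' : ℝ} (h : Lg φ r) (h0 : 0 < r') (hr : r' ≤ r) : Lg φ r' := by
  refine ⟨h.cd, h.pos, fun x => (h.d1 x).trans ?_, fun x => (h.d2 x).trans ?_⟩
  · exact div_le_div_of_nonneg_left (h.pos x).le h0 hr
  · exact div_le_div_of_nonneg_left (h.pos x).le (by positivity) (pow_le_pow_left₀ h0.le hr 2)

theorem Lg.const {c r : ℝ} (hc : 0 < c) (hr : 0 < r) : Lg (fun _ : E => c) r := by
  refine ⟨contDiff_const, fun _ => hc, fun x => ?_, fun x => ?_⟩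
  · rw [fderiv_fun_const]
    simp only [Pi.zero_apply, norm_zero]
    positivity
  · rw [D2_const, ContinuousLinearMap.opNorm_zero]
    positivity

theorem Lg.add {φ ψ : E → ℝ} {r : ℝ} (h : Lg φ r) (h' : Lg ψ r) :
    Lg (fun x => φ x + ψ x) r := by
  refine ⟨h.cd.add h'.cd, fun x => add_pos (h.pos x) (h'.pos x), fun x => ?_, fun x => ?_⟩
  · rw [fderiv_fun_add (diff_of_cd h.cd x) (diff_of_cd h'.cd x), add_div]
    exact (norm_add_le _ _).trans (add_le_add (h.d1 x) (h'.d1 x))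
  · rw [D2_add h.cd h'.cd, add_div]
    exact (ContinuousLinearMap.opNorm_add_le _ _).trans (add_le_add (h.d2 x) (h'.d2 x))

theorem Lg.mul {φ ψ : E → ℝ} {r : ℝ} (hr : 0 < r) (h : Lg φ (2 * r)) (h' : Lg ψ (2 * r)) :
    Lg (fun x => φ x * ψ x) r := by
  refine ⟨h.cd.mul h'.cd, fun x => mul_pos (h.pos x) (h'.pos x), fun x => ?_, fun x => ?_⟩
  · have h1 := norm_fderiv_smul_le' h.cd h'.cd x
    simp only [smul_eq_mul] at h1
    refine h1.trans ?_
    have hp := h.pos x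
    have hq := h'.pos x
    rw [Real.norm_eq_abs, abs_of_pos hp, abs_of_pos hq]
    have a1 := mul_le_mul_of_nonneg_right (h.d1 x) hq.le
    have a2 := mul_le_mul_of_nonneg_left (h'.d1 x) hp.le
    have e : φ x / (2 * r) * ψ x + φ x * (ψ x / (2 * r)) = φ x * ψ x / r := by
      field_simp
      ring
    linarith
  · have h1 := norm_D2_smul_le h.cd h'.cd x
    simp only [smul_eq_mul] at h1
    refine h1.trans ?_
    have hp := h.pos x
    have hq := h'.pos x
    rw [Real.norm_eq_abs, abs_of_pos hp, abs_of_pos hq]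
    have a1 := mul_le_mul_of_nonneg_right (h.d2 x) hq.le
    have a2 := mul_le_mul_of_nonneg_left (h'.d2 x) hp.le
    have a3 : ‖fderiv ℝ φ x‖ * ‖fderiv ℝ ψ x‖ ≤ φ x / (2 * r) * (ψ x / (2 * r)) :=
      mul_le_mul (h.d1 x) (h'.d1 x) (norm_nonneg _) (by positivity)
    have e : φ x / (2 * r) ^ 2 * ψ x + 2 * (φ x / (2 * r) * (ψ x / (2 * r)))
        + φ x * (ψ x / (2 * r) ^ 2) = φ x * ψ x / r ^ 2 := by
      field_simp
      ring
    nlinarith

theorem Lg.inv {φ : E → ℝ} {r : ℝ} (hr : 0 < r) (h : Lg φ (2 * r)) :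
    Lg (fun x => (φ x)⁻¹) r := by
  have hd := diff_of_cd h.cd
  have hfd : fderiv ℝ (fun x => (φ x)⁻¹) =
      fun x => (-((φ x)⁻¹ * (φ x)⁻¹)) • fderiv ℝ φ x := by
    funext x
    exact (hasFDerivAt_inv' hd h.pos x).fderiv
  have hn1 : ∀ x, ‖(-((φ x)⁻¹ * (φ x)⁻¹)) • fderiv ℝ φ x‖ ≤ (φ x)⁻¹ / (2 * r) := by
    intro x
    have hp := h.pos x
    rw [norm_smul, norm_neg, Real.norm_eq_abs, abs_of_pos (by positivity)]
    calc (φ x)⁻¹ * (φ x)⁻¹ * ‖fderiv ℝ φ x‖ ≤ (φ x)⁻¹ * (φ x)⁻¹ * (φ x / (2 * r)) :=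
          mul_le_mul_of_nonneg_left (h.d1 x) (by positivity)
      _ = (φ x)⁻¹ / (2 * r) := by field_simp
  refine ⟨h.cd.inv fun x => (h.pos x).ne', fun x => inv_pos.2 (h.pos x), fun x => ?_, fun x => ?_⟩
  · rw [hfd]
    refine (hn1 x).trans ?_
    have hp := h.pos x
    exact div_le_div_of_nonneg_left (by positivity) hr (by linarith)
  · have hp := h.pos x
    unfold D2
    rw [hfd]
    have i1 := hasFDerivAt_inv' hd h.pos x
    have i2 := (i1.mul i1).neg
    have i3 := (diff_fderiv h.cd x).hasFDerivAt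
    have i4 := i2.smul i3
    have i5 : fderiv ℝ (fun x => (-((φ x)⁻¹ * (φ x)⁻¹)) • fderiv ℝ φ x) x = _ := i4.fderiv
    rw [i5]
    refine (ContinuousLinearMap.opNorm_add_le _ _).trans ?_
    have b1 : ‖(-((fun x => (φ x)⁻¹) * fun x => (φ x)⁻¹)) x • fderiv ℝ (fderiv ℝ φ) x‖ ≤
        (φ x)⁻¹ / (2 * r) ^ 2 := by
      refine (ContinuousLinearMap.opNorm_smul_le _ _).trans ?_
      simp only [Pi.neg_apply, Pi.mul_apply, norm_neg, Real.norm_eq_abs]
      rw [abs_of_pos (by positivity)]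
      calc (φ x)⁻¹ * (φ x)⁻¹ * ‖fderiv ℝ (fderiv ℝ φ) x‖
          ≤ (φ x)⁻¹ * (φ x)⁻¹ * (φ x / (2 * r) ^ 2) :=
            mul_le_mul_of_nonneg_left (h.d2 x) (by positivity)
        _ = (φ x)⁻¹ / (2 * r) ^ 2 := by field_simp
    have b2 : ‖(-((φ x)⁻¹ • (-((φ x)⁻¹ * (φ x)⁻¹)) • fderiv ℝ φ x +
        (φ x)⁻¹ • (-((φ x)⁻¹ * (φ x)⁻¹)) • fderiv ℝ φ x)).smulRight (fderiv ℝ φ x)‖ ≤
        2 * ((φ x)⁻¹ / (2 * r) ^ 2) := by
      rw [ContinuousLinearMap.norm_smulRight_apply, norm_neg]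
      have c1 : ‖(φ x)⁻¹ • (-((φ x)⁻¹ * (φ x)⁻¹)) • fderiv ℝ φ x‖ ≤
          (φ x)⁻¹ * ((φ x)⁻¹ / (2 * r)) := by
        rw [norm_smul, Real.norm_eq_abs, abs_of_pos (by positivity)]
        exact mul_le_mul_of_nonneg_left (hn1 x) (by positivity)
      have c2 := (norm_add_le _ _).trans (add_le_add c1 c1)
      calc _ ≤ ((φ x)⁻¹ * ((φ x)⁻¹ / (2 * r)) + (φ x)⁻¹ * ((φ x)⁻¹ / (2 * r))) *
            (φ x / (2 * r)) := mul_le_mul c2 (h.d1 x) (norm_nonneg _) (by positivity)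
        _ = 2 * ((φ x)⁻¹ / (2 * r) ^ 2) := by
          field_simp
          ring
    have e : (φ x)⁻¹ / (2 * r) ^ 2 = (φ x)⁻¹ / r ^ 2 / 4 := by
      field_simp
      ring
    have e0 : 0 < (φ x)⁻¹ / r ^ 2 := by positivity
    linarith

theorem Lg.const_mul {φ : E → ℝ} {c r : ℝ} (hc : 0 < c) (h : Lg φ r) :
    Lg (fun x => c * φ x) r := by
  refine ⟨contDiff_const.mul h.cd, fun x => mul_pos hc (h.pos x), fun x => ?_, fun x => ?_⟩
  · have h1 := norm_fderiv_smul_le' (contDiff_const (c := c)) h.cd x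
    simp only [smul_eq_mul, fderiv_fun_const, Pi.zero_apply, norm_zero, zero_mul, zero_add] at h1
    refine h1.trans ?_
    rw [abs_of_pos hc, mul_div_assoc]
    exact mul_le_mul_of_nonneg_left (h.d1 x) hc.le
  · have h1 := norm_D2_smul_le (contDiff_const (c := c)) h.cd x
    simp only [smul_eq_mul, fderiv_fun_const, Pi.zero_apply, norm_zero, zero_mul, zero_add,
      D2_const, mul_zero, ContinuousLinearMap.opNorm_zero, add_zero] at h1
    refine h1.trans ?_
    rw [abs_of_pos hc, mul_div_assoc]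
    exact mul_le_mul_of_nonneg_left (h.d2 x) hc.le

theorem Lg.sum {α : Type*} {I : Finset α} (hI : I.Nonempty) {φ : α → E → ℝ} {r : ℝ}
    (h : ∀ a ∈ I, Lg (φ a) r) : Lg (fun x => ∑ a ∈ I, φ a x) r := by
  induction hI using Finset.Nonempty.cons_induction with
  | singleton a =>
    simp only [Finset.sum_singleton]
    exact h a (Finset.mem_singleton_self a)
  | cons a s ha _ ih =>
    simp only [Finset.sum_cons]
    exact (h a (Finset.mem_cons_self a s)).add
      (ih fun b hb => h b (Finset.mem_cons_of_mem hb))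

theorem Lg.sv {φ : E → ℝ} {r : ℝ} (hr : 0 < r) (h : Lg φ r) : SV φ r := by
  intro x x' hx
  have hd := diff_of_cd h.cd
  have hl : ∀ y, HasFDerivAt (fun y => Real.log (φ y)) ((φ y)⁻¹ • fderiv ℝ φ y) y :=
    fun y => (hd y).hasFDerivAt.log (h.pos y).ne'
  have hb : ∀ y, ‖(φ y)⁻¹ • fderiv ℝ φ y‖ ≤ 1 / r := by
    intro y
    have hp := h.pos y
    rw [norm_smul, Real.norm_eq_abs, abs_of_pos (by positivity)]
    calc (φ y)⁻¹ * ‖fderiv ℝ φ y‖ ≤ (φ y)⁻¹ * (φ y / r) :=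
          mul_le_mul_of_nonneg_left (h.d1 y) (by positivity)
      _ = 1 / r := by field_simp
  have hm := Convex.norm_image_sub_le_of_norm_hasFDerivWithin_le (s := univ)
    (f := fun y => Real.log (φ y)) (f' := fun y => (φ y)⁻¹ • fderiv ℝ φ y) (C := 1 / r)
    (fun y _ => (hl y).hasFDerivWithinAt) (fun y _ => hb y) convex_univ (mem_univ x) (mem_univ x')
  have h1 : Real.log (φ x') - Real.log (φ x) ≤ 1 := by
    refine (le_abs_self _).trans ?_
    rw [← Real.norm_eq_abs]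
    refine hm.trans ?_
    rw [norm_sub_rev]
    calc 1 / r * ‖x - x'‖ ≤ 1 / r * r := mul_le_mul_of_nonneg_left hx (by positivity)
      _ = 1 := by field_simp
  have h2 : φ x' ≤ Real.exp 1 * φ x := by
    calc φ x' = Real.exp (Real.log (φ x')) := (Real.exp_log (h.pos x')).symm
      _ ≤ Real.exp (1 + Real.log (φ x)) := Real.exp_le_exp.2 (by linarith)
      _ = Real.exp 1 * φ x := by rw [Real.exp_add, Real.exp_log (h.pos x)]
  have h3 : Real.exp 1 ≤ 3 := by
    have := Real.exp_one_lt_d9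
    linarith
  exact h2.trans (mul_le_mul_of_nonneg_right h3 (h.pos x).le)

theorem Lg.of_c2b {φ : E → ℝ} {m A B r : ℝ} (hm : 0 < m) (hr : 0 < r) (h0 : ∀ x, m ≤ φ x)
    (h : C2B φ A B) (hA : A ≤ m / r) (hB : B ≤ m / r ^ 2) : Lg φ r := by
  refine ⟨h.cd, fun x => hm.trans_le (h0 x), fun x => ?_, fun x => ?_⟩
  · exact (h.d1 x).trans (hA.trans (div_le_div_of_nonneg_right (h0 x) hr.le))
  · exact (h.d2 x).trans (hB.trans (div_le_div_of_nonneg_right (h0 x) (by positivity)))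

theorem SV.mono {φ : E → ℝ} {r r' : ℝ} (h : SV φ r) (hr : r' ≤ r) : SV φ r' :=
  fun x x' hx => h x x' (hx.trans hr)

theorem SV.add {φ ψ : E → ℝ} {r : ℝ} (h : SV φ r) (h' : SV ψ r) :
    SV (fun x => φ x + ψ x) r := by
  intro x x' hx
  have a := h x x' hx
  have b := h' x x' hx
  show φ x' + ψ x' ≤ 3 * (φ x + ψ x)
  linarith

theorem SV.const_mul {φ : E → ℝ} {c r : ℝ} (hc : 0 ≤ c) (h : SV φ r) :
    SV (fun x => c * φ x) r := by
  intro x x' hx
  have a := mul_le_mul_of_nonneg_left (h x x' hx) hc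
  show c * φ x' ≤ 3 * (c * φ x)
  linarith

end SJ

end

section

namespace SJ
open Set Filter Topology MeasureTheory Metric Function
open scoped ENNReal


theorem measurableSet_near (τ : ℝ) : MeasurableSet {v : ℝ | Near τ v} := by
  have : {v : ℝ | Near τ v} = ⋃ n : ℤ, {v : ℝ | |v - n - 1 / 2| ≤ 2 * τ} := by
    ext v; simp [Near]
  rw [this]
  exact MeasurableSet.iUnion fun n => (isClosed_le (by fun_prop) continuous_const).measurableSet

namespace AvgX

open Classical in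
theorem count (τ : ℝ) (h0 : 0 < τ) (n0 : ℕ) (hn : 1 ≤ τ * n0) (v : ℝ) :
    (((Finset.univ : Finset (Fin n0)).filter fun i : Fin n0 => Near τ (v + (i : ℕ) / n0)).card : ℝ) ≤
      10 * τ * n0 := by
  have p : (0 : ℝ) < n0 := by
    rcases Nat.eq_zero_or_pos n0 with rfl | h
    · norm_num at hn
    · exact_mod_cast h
  have pz : (0 : ℤ) < n0 := by exact_mod_cast p
  set a : ℝ := n0 * (1 / 2 - v - 2 * τ) with ha
  have key : ((Finset.univ : Finset (Fin n0)).filter fun i : Fin n0 => Near τ (v + (i : ℕ) / n0)).card ≤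
      (Finset.Icc ⌈a⌉ ⌊a + 4 * τ * n0⌋).card := by
    have ex : ∀ i : Fin n0, ∃ n : ℤ, Near τ (v + (i : ℕ) / n0) →
        |v + (i : ℕ) / n0 - n - 1 / 2| ≤ 2 * τ := fun i => by
      by_cases c : Near τ (v + (i : ℕ) / n0)
      · exact c.imp fun n hn _ => hn
      · exact ⟨0, fun k => (c k).elim⟩
    choose f hf using ex
    refine Finset.card_le_card_of_injOn (fun i : Fin n0 => ((i : ℕ) : ℤ) - f i * n0) ?_ ?_
    · intro i hi
      have := abs_le.1 (hf i (Finset.mem_filter.1 hi).2)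
      have e : (((i : ℕ) : ℝ) / n0) * n0 = (i : ℕ) := div_mul_cancel₀ _ p.ne'
      have b1 := mul_le_mul_of_nonneg_right this.1 p.le
      have b2 := mul_le_mul_of_nonneg_right this.2 p.le
      simp only [Finset.coe_Icc, mem_Icc, Int.ceil_le, Int.le_floor]
      push_cast
      constructor <;> nlinarith
    · intro i _ j _ e
      have e' : ((i : ℕ) : ℤ) % n0 = ((j : ℕ) : ℤ) % n0 := by
        have : ((i : ℕ) : ℤ) = (j : ℕ) + (f i - f j) * n0 := by
          dsimp only at e; linarith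
        rw [this, Int.add_mul_emod_self_right]
      rw [Int.emod_eq_of_lt (by positivity) (by exact_mod_cast i.2),
        Int.emod_eq_of_lt (by positivity) (by exact_mod_cast j.2)] at e'
      exact Fin.ext (by exact_mod_cast e')
  rw [Int.card_Icc] at key
  have k2 : ((⌊a + 4 * τ * n0⌋ + 1 - ⌈a⌉).toNat : ℝ) ≤ 10 * τ * n0 := by
    rcases le_total 0 (⌊a + 4 * τ * n0⌋ + 1 - ⌈a⌉) with c | c
    · have : (((⌊a + 4 * τ * n0⌋ + 1 - ⌈a⌉).toNat : ℤ) : ℝ) = ((⌊a + 4 * τ * n0⌋ + 1 - ⌈a⌉ : ℤ) : ℝ) := by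
        rw [Int.toNat_of_nonneg c]
      push_cast at this
      rw [this]
      linarith [Int.floor_le (a + 4 * τ * n0), Int.le_ceil a]
    · rw [Int.toNat_of_nonpos c]; simp only [Nat.cast_zero]; positivity
  exact (Nat.cast_le.2 key).trans k2

open Classical in
theorem count_pi {ι : Type*} [Fintype ι] (τ : ℝ) (h0 : 0 < τ) (n0 : ℕ) (hn : 1 ≤ τ * n0)
    (v : ι → ℝ) (S : Finset ι) :
    (((Finset.univ : Finset (ι → Fin n0)).filter
      fun i => ∀ k ∈ S, Near τ (v k + (i k : ℕ) / n0)).card : ℝ) ≤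
      (10 * τ) ^ S.card * (n0 : ℝ) ^ Fintype.card ι := by
  have e : ((Finset.univ : Finset (ι → Fin n0)).filter
      fun i => ∀ k ∈ S, Near τ (v k + (i k : ℕ) / n0)) =
      Fintype.piFinset fun k => (Finset.univ : Finset (Fin n0)).filter
        fun j : Fin n0 => k ∈ S → Near τ (v k + (j : ℕ) / n0) := by
    ext i; simp
  rw [e, Fintype.card_piFinset]
  push_cast
  have : ∏ k, ((((Finset.univ : Finset (Fin n0)).filter
      fun j : Fin n0 => k ∈ S → Near τ (v k + (j : ℕ) / n0)).card : ℕ) : ℝ) ≤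
      ∏ k : ι, ((if k ∈ S then 10 * τ else 1) * (n0 : ℝ)) := by
    refine Finset.prod_le_prod (fun k _ => by positivity) fun k _ => ?_
    by_cases c : k ∈ S
    · simp only [c, true_imp_iff, if_true]
      exact count τ h0 n0 hn (v k)
    · simp [c]
  refine this.trans (le_of_eq ?_)
  rw [Finset.prod_mul_distrib, Finset.prod_ite_mem, Finset.univ_inter, Finset.prod_const,
    Finset.prod_const, Finset.card_univ]

end AvgX


theorem avg_shift {ι Y α : Type*} [Fintype ι] [MeasurableSpace Y] (μ : Measure Y) (τ : ℝ)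
    (h0 : 0 < τ) (h1 : τ ≤ 1) (u : Y → ι → ℝ) (hu : Measurable u) (T : Finset α)
    (S : α → Finset ι) (w : α → Y → ℝ≥0∞) (hw : ∀ a, Measurable (w a)) :
    ∃ ω : ι → ℝ, ∑ a ∈ T, ∫⁻ y, {y | ∀ k ∈ S a, Near τ (u y k + ω k)}.indicator (w a) y ∂μ ≤
      ∑ a ∈ T, ENNReal.ofReal ((10 * τ) ^ (S a).card) * ∫⁻ y, w a y ∂μ := by
  classical
  obtain ⟨n0, hn0⟩ := exists_nat_ge (1 / τ)
  have hn : 1 ≤ τ * n0 := by rw [div_le_iff₀ h0] at hn0; linarith
  have p : 0 < n0 := by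
    rcases Nat.eq_zero_or_pos n0 with rfl | h
    · norm_num at hn
    · exact h
  have : Nonempty (Fin n0) := ⟨⟨0, p⟩⟩
  have ms : ∀ (a : α) (ω : ι → ℝ), MeasurableSet {y | ∀ k ∈ S a, Near τ (u y k + ω k)} := by
    intro a ω
    have : {y | ∀ k ∈ S a, Near τ (u y k + ω k)} =
        ⋂ k ∈ S a, (fun y => u y k + ω k) ⁻¹' {v | Near τ v} := by
      ext y; simp
    rw [this]
    exact Finset.measurableSet_biInter _ fun k _ =>
      (((measurable_pi_apply k).comp hu).add_const _) (measurableSet_near τ)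
  obtain ⟨i, -, hi⟩ := ENNReal.exists_le_of_sum_le (s := (Finset.univ : Finset (ι → Fin n0)))
    Finset.univ_nonempty
    (f := fun i => ∑ a ∈ T, ∫⁻ y, {y | ∀ k ∈ S a, Near τ (u y k + (i k : ℕ) / n0)}.indicator
      (w a) y ∂μ)
    (g := fun _ => ∑ a ∈ T, ENNReal.ofReal ((10 * τ) ^ (S a).card) * ∫⁻ y, w a y ∂μ) (by
      rw [Finset.sum_comm, Finset.sum_comm (s := Finset.univ)  (t := T)]
      refine Finset.sum_le_sum fun a _ => ?_
      rw [← lintegral_finsetSum _ fun i _ => (hw a).indicator (ms a _), Finset.sum_const,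
        nsmul_eq_mul, ← mul_assoc, ← lintegral_const_mul _ (hw a)]
      refine lintegral_mono fun y => ?_
      have e : ∑ i : ι → Fin n0, {y | ∀ k ∈ S a, Near τ (u y k + (i k : ℕ) / n0)}.indicator
          (w a) y = (((Finset.univ : Finset (ι → Fin n0)).filter
            fun i => ∀ k ∈ S a, Near τ (u y k + (i k : ℕ) / n0)).card : ℝ≥0∞) * w a y := by
        rw [← nsmul_eq_mul, ← Finset.sum_const, Finset.sum_filter]
        refine Finset.sum_congr rfl fun i _ => ?_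
        simp only [indicator, mem_ofPred_eq]
        congr
      dsimp only
      rw [e]
      refine mul_le_mul_left ?_ _
      have c := AvgX.count_pi τ h0 n0 hn (u y) (S a)
      rw [← ENNReal.ofReal_natCast, ← ENNReal.ofReal_natCast (Finset.card _),
        ← ENNReal.ofReal_mul (by positivity)]
      refine ENNReal.ofReal_le_ofReal ?_
      rw [Finset.card_univ, Fintype.card_fun, Fintype.card_fin]
      push_cast
      rw [mul_comm]
      convert c)
  exact ⟨fun k => (i k : ℕ) / n0, hi⟩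

open Classical in
theorem bad_shift {ι Y : Type*} [Fintype ι] [MeasurableSpace Y] (μ : Measure Y) (τ : ℝ)
    (h0 : 0 < τ) (h1 : τ ≤ 1) (u : Y → ι → ℝ) (hu : Measurable u) (m : ℕ) :
    ∃ ω : ι → ℝ, μ {y | m ≤ (Finset.univ.filter fun k => Near τ (u y k + ω k)).card} ≤
      ENNReal.ofReal (2 ^ Fintype.card ι * (10 * τ) ^ m) * μ univ := by
  obtain ⟨ω, hω⟩ := avg_shift μ τ h0 h1 u hu (Finset.powersetCard m (Finset.univ : Finset ι)) id
    (fun _ _ => 1) (fun _ => measurable_const)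
  refine ⟨ω, le_trans ?_ (hω.trans ?_)⟩
  · have sub : {y | m ≤ (Finset.univ.filter fun k => Near τ (u y k + ω k)).card} ⊆
        ⋃ a ∈ Finset.powersetCard m (Finset.univ : Finset ι),
          {y | ∀ k ∈ a, Near τ (u y k + ω k)} := by
      intro y hy
      obtain ⟨a, ha, hc⟩ := Finset.exists_subset_card_eq hy
      simp only [mem_iUnion]
      exact ⟨a, Finset.mem_powersetCard.2 ⟨Finset.subset_univ _, hc⟩,
        fun k hk => (Finset.mem_filter.1 (ha hk)).2⟩
    refine (measure_mono sub).trans ((measure_biUnion_finset_le _ _).trans ?_)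
    refine Finset.sum_le_sum fun a _ => ?_
    have ms : MeasurableSet {y | ∀ k ∈ a, Near τ (u y k + ω k)} := by
      have : {y | ∀ k ∈ a, Near τ (u y k + ω k)} =
          ⋂ k ∈ a, (fun y => u y k + ω k) ⁻¹' {v | Near τ v} := by
        ext y; simp
      rw [this]
      exact Finset.measurableSet_biInter _ fun k _ =>
        (((measurable_pi_apply k).comp hu).add_const _) (measurableSet_near τ)
    exact le_of_eq (lintegral_indicator_one ms).symm
  · rw [Finset.sum_congr rfl (g := fun _ => ENNReal.ofReal ((10 * τ) ^ m) * μ univ)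
      fun a ha => by rw [id, (Finset.mem_powersetCard.1 ha).2, lintegral_one],
      Finset.sum_const, nsmul_eq_mul, ← mul_assoc, Finset.card_powersetCard, Finset.card_univ]
    refine mul_le_mul_left ?_ _
    rw [ENNReal.ofReal_mul (by positivity), ← ENNReal.ofReal_natCast]
    refine mul_le_mul_left (ENNReal.ofReal_le_ofReal ?_) _
    exact_mod_cast Nat.choose_le_two_pow _ _

end SJ

end

section

namespace SJ
open Set Filter Topology MeasureTheory Metric Function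
open scoped ENNReal

namespace WLimX

/-- summable increments give a dominated almost everywhere limit -/
theorem dom {α E : Type*} [MeasurableSpace α] {μ : Measure α} [NormedAddCommGroup E]
    [CompleteSpace E] {p : ℝ≥0∞} (hp : 1 ≤ p) (u : ℕ → α → E)
    (hu : ∀ j, AEStronglyMeasurable (u j) μ) (h0 : MemLp (u 0) p μ)
    (h : ∑' j, eLpNorm (fun x => u (j + 1) x - u j x) p μ ≠ ∞) :
    ∃ (v : α → E) (G : α → ℝ), MemLp G p μ ∧
      ∀ᵐ x ∂μ, Tendsto (fun j => u j x) atTop (𝓝 (v x)) ∧ ∀ j, ‖u j x‖ ≤ G x := by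
  have hd : ∀ j, AEStronglyMeasurable (fun x => u (j + 1) x - u j x) μ :=
    fun j => (hu (j + 1)).sub (hu j)
  have hs := summable_norm_of_tsum_eLpNorm_ne_top hp hd h
  have hm : ∀ n, AEStronglyMeasurable
      (fun x => ∑ i ∈ Finset.range n, ‖u (i + 1) x - u i x‖) μ :=
    fun n => Finset.aestronglyMeasurable_fun_sum _ fun i _ => (hd i).norm
  have ht : ∀ᵐ x ∂μ, Tendsto (fun n => ∑ i ∈ Finset.range n, ‖u (i + 1) x - u i x‖) atTop
      (𝓝 (∑' i, ‖u (i + 1) x - u i x‖)) := hs.mono fun x hx => hx.hasSum.tendsto_sum_nat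
  have hG : MemLp (fun x => ∑' i, ‖u (i + 1) x - u i x‖) p μ := by
    refine ⟨aestronglyMeasurable_of_tendsto_ae atTop hm ht,
      lt_of_le_of_lt (Lp.eLpNorm_le_of_ae_tendsto (Eventually.of_forall fun n => ?_) hm ht) h.lt_top⟩
    have := eLpNorm_sum_le (μ := μ) (s := Finset.range n)
      (f := fun i x => ‖u (i + 1) x - u i x‖) (fun i _ => (hd i).norm) hp
    rw [Finset.sum_fn] at this
    refine this.trans ?_
    simp only [eLpNorm_norm]
    exact ENNReal.sum_le_tsum _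
  refine ⟨fun x => u 0 x + ∑' i, (u (i + 1) x - u i x),
    fun x => ‖u 0 x‖ + ∑' i, ‖u (i + 1) x - u i x‖, h0.norm.add hG, hs.mono fun x hx => ?_⟩
  have e : ∀ n, u n x = u 0 x + ∑ i ∈ Finset.range n, (u (i + 1) x - u i x) := fun n => by
    rw [Finset.sum_range_sub (fun i => u i x)]; abel
  refine ⟨(hx.of_norm.hasSum.tendsto_sum_nat.const_add (u 0 x)).congr fun n => (e n).symm,
    fun n => ?_⟩
  rw [e n]
  exact (norm_add_le _ _).trans (add_le_add le_rfl ((norm_sum_le _ _).trans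
    (hx.sum_le_tsum _ fun i _ => norm_nonneg _)))

variable {n : ℕ} {E : Type*} [NormedAddCommGroup E] [NormedSpace ℝ E]

theorem weak_smooth (Ω : Set (Fin n → ℝ)) (i : Fin n) {g : (Fin n → ℝ) → E} (hg : ContDiff ℝ 1 g)
    (L : E →L[ℝ] ℝ) :
    WeakPD Ω i (fun x => L (g x)) (fun x => L (fderiv ℝ g x (Pi.single i 1))) := by
  intro φ hφ hc hs
  have hd : Differentiable ℝ g := hg.differentiable one_ne_zero
  have e : ∀ x, fderiv ℝ (fun x => L (g x)) x (Pi.single i 1) =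
      L (fderiv ℝ g x (Pi.single i 1)) := fun x => by
    rw [(L.hasFDerivAt.comp x (hd x).hasFDerivAt).fderiv.symm.symm.trans rfl |> fun h =>
      (show fderiv ℝ (fun x => L (g x)) x = L.comp (fderiv ℝ g x) from h)]
    rfl
  have c1 : Continuous fun x => L (g x) := L.continuous.comp hg.continuous
  have c2 : Continuous fun x => L (fderiv ℝ g x (Pi.single i 1)) :=
    L.continuous.comp ((hg.continuous_fderiv one_ne_zero).clm_apply continuous_const)
  have c3 : Continuous fun x => fderiv ℝ φ x (Pi.single i 1) :=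
    (hφ.continuous_fderiv (by simp)).clm_apply continuous_const
  have s3 : HasCompactSupport fun x => fderiv ℝ φ x (Pi.single i 1) := hc.fderiv_apply (𝕜 := ℝ) _
  have z1 : ∀ x, x ∉ Ω → φ x = 0 := fun x hx => image_eq_zero_of_notMem_tsupport fun h => hx (hs h)
  have z2 : ∀ x, x ∉ Ω → fderiv ℝ φ x = 0 := fun x hx => by
    by_contra h
    exact hx (hs (support_fderiv_subset ℝ h))
  rw [setIntegral_eq_integral_of_forall_compl_eq_zero fun x hx => by simp [z2 x hx],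
    setIntegral_eq_integral_of_forall_compl_eq_zero fun x hx => by simp [z1 x hx],
    integral_mul_fderiv_eq_neg_fderiv_mul_of_integrable]
  · simp only [e]
  · simp only [e]
    exact (c2.mul hφ.continuous).integrable_of_hasCompactSupport hc.mul_left
  · exact (c1.mul c3).integrable_of_hasCompactSupport s3.mul_left
  · exact (c1.mul hφ.continuous).integrable_of_hasCompactSupport hc.mul_left
  · exact fun x _ => L.differentiableAt.comp x (hd x)
  · exact fun x _ => hφ.differentiable (by simp) x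

theorem lim_mul {α : Type*} [MeasurableSpace α] {μ : Measure α} {u : ℕ → α → E} {v : α → E}
    {G ψ : α → ℝ} {C : ℝ} (L : E →L[ℝ] ℝ) (hu : ∀ j, AEStronglyMeasurable (u j) μ)
    (hG : Integrable G μ)
    (h : ∀ᵐ x ∂μ, Tendsto (fun j => u j x) atTop (𝓝 (v x)) ∧ ∀ j, ‖u j x‖ ≤ G x)
    (hψ : AEStronglyMeasurable ψ μ) (hC : ∀ x, ‖ψ x‖ ≤ C) :
    Tendsto (fun j => ∫ x, L (u j x) * ψ x ∂μ) atTop (𝓝 (∫ x, L (v x) * ψ x ∂μ)) := by
  refine tendsto_integral_of_dominated_convergence (fun x => ‖L‖ * G x * C)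
    (fun j => (L.continuous.comp_aestronglyMeasurable (hu j)).mul hψ)
    ((hG.const_mul _).mul_const _) (fun j => h.mono fun x hx => ?_)
    (h.mono fun x hx => ((L.continuous.tendsto _).comp hx.1).mul_const _)
  rw [norm_mul]
  have h1 := (L.le_opNorm (u j x)).trans (mul_le_mul_of_nonneg_left (hx.2 j) (norm_nonneg L))
  exact mul_le_mul h1 (hC x) (norm_nonneg _) ((norm_nonneg _).trans h1)

theorem weak_lim (Ω : Set (Fin n → ℝ)) (i : Fin n) {g : ℕ → (Fin n → ℝ) → E}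
    (hg : ∀ j, ContDiff ℝ 1 (g j)) (L : E →L[ℝ] ℝ) {v : (Fin n → ℝ) → E}
    {w : (Fin n → ℝ) → (Fin n → ℝ) →L[ℝ] E} {G G' : (Fin n → ℝ) → ℝ}
    (hG : Integrable G (volume.restrict Ω)) (hG' : Integrable G' (volume.restrict Ω))
    (h : ∀ᵐ x ∂(volume.restrict Ω), Tendsto (fun j => g j x) atTop (𝓝 (v x)) ∧ ∀ j, ‖g j x‖ ≤ G x)
    (h' : ∀ᵐ x ∂(volume.restrict Ω), Tendsto (fun j => fderiv ℝ (g j) x) atTop (𝓝 (w x)) ∧
      ∀ j, ‖fderiv ℝ (g j) x‖ ≤ G' x) :
    WeakPD Ω i (fun x => L (v x)) (fun x => L (w x (Pi.single i 1))) := by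
  intro φ hφ hc hs
  have c3 : Continuous fun x => fderiv ℝ φ x (Pi.single i 1) :=
    (hφ.continuous_fderiv (by simp)).clm_apply continuous_const
  obtain ⟨C, hC⟩ := c3.bounded_above_of_compact_support (hc.fderiv_apply (𝕜 := ℝ) _)
  obtain ⟨C', hC'⟩ := hφ.continuous.bounded_above_of_compact_support hc
  have t1 := lim_mul L (fun j => (hg j).continuous.aestronglyMeasurable) hG h
    c3.aestronglyMeasurable hC
  have t2 := lim_mul (L.comp (ContinuousLinearMap.apply ℝ E (Pi.single i 1 : Fin n → ℝ)))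
    (fun j => ((hg j).continuous_fderiv one_ne_zero).aestronglyMeasurable) hG' h'
    hφ.continuous.aestronglyMeasurable hC'
  exact tendsto_nhds_unique t1 (t2.neg.congr fun j => (weak_smooth Ω i (hg j) L φ hφ hc hs).symm)

theorem memLp_lim {α : Type*} [MeasurableSpace α] {μ : Measure α} {p : ℝ≥0∞} {u : ℕ → α → E}
    {v : α → E} {G : α → ℝ} (L : E →L[ℝ] ℝ) (hu : ∀ j, AEStronglyMeasurable (u j) μ)
    (hG : MemLp G p μ)
    (h : ∀ᵐ x ∂μ, Tendsto (fun j => u j x) atTop (𝓝 (v x)) ∧ ∀ j, ‖u j x‖ ≤ G x) :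
    MemLp (fun x => L (v x)) p μ :=
  L.comp_memLp' (hG.mono' (aestronglyMeasurable_of_tendsto_ae atTop hu (h.mono fun _ hx => hx.1))
    (h.mono fun _ hx => le_of_tendsto' hx.1.norm hx.2))

omit [NormedSpace ℝ E] in
theorem memLp_cont {p : ℝ≥0∞} {u : (Fin n → ℝ) → E} (hu : Continuous u) :
    MemLp u p (volume.restrict (ball (0 : Fin n → ℝ) 1)) := by
  have : IsFiniteMeasure (volume.restrict (ball (0 : Fin n → ℝ) 1)) :=
    isFiniteMeasure_restrict.2 measure_ball_lt_top.ne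
  obtain ⟨C, hC⟩ := (isCompact_closedBall (0 : Fin n → ℝ) 1).exists_bound_of_continuousOn
    hu.continuousOn
  exact MemLp.of_bound hu.aestronglyMeasurable C
    ((ae_restrict_mem measurableSet_ball).mono fun x hx => hC x (ball_subset_closedBall hx))

end WLimX

open WLimX

theorem w2_limit {n : ℕ} {q : ℝ} (hq : 1 ≤ q) (F : ℕ → (Fin n → ℝ) → Fin n → ℝ)
    (f : (Fin n → ℝ) → Fin n → ℝ) (hF : ∀ j, ContDiff ℝ 2 (F j)) (hf : Continuous f)
    (hlim : ∀ x, Tendsto (fun j => F j x) atTop (𝓝 (f x))) (C : ℝ)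
    (hbd : ∀ j, ∀ x ∈ ball (0 : Fin n → ℝ) 1, ‖F j x‖ ≤ C)
    (h1 : ∑' j, eLpNorm (fun x => fderiv ℝ (F (j + 1)) x - fderiv ℝ (F j) x) (ENNReal.ofReal q)
      (volume.restrict (ball 0 1)) ≠ ∞)
    (h2 : ∑' j, eLpNorm (fun x => D2 (F (j + 1)) x - D2 (F j) x) (ENNReal.ofReal q)
      (volume.restrict (ball 0 1)) ≠ ∞) :
    ∃ Df : (Fin n → ℝ) → Matrix (Fin n) (Fin n) ℝ, W2q q (ball 0 1) f Df ∧
      ∀ᵐ x ∂(volume.restrict (ball (0 : Fin n → ℝ) 1)),
        Tendsto (fun j => (fderiv ℝ (F j) x).det) atTop (𝓝 (Df x).det) := by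
  have : IsFiniteMeasure (volume.restrict (ball (0 : Fin n → ℝ) 1)) :=
    isFiniteMeasure_restrict.2 measure_ball_lt_top.ne
  have hp : 1 ≤ ENNReal.ofReal q := ENNReal.one_le_ofReal.2 hq
  have a1 : ∀ j, ContDiff ℝ 1 (F j) := fun j => (hF j).of_le (by norm_num)
  have a2 : ∀ j, ContDiff ℝ 1 (fderiv ℝ (F j)) := fun j => (hF j).fderiv_right (by norm_num)
  have a3 : ∀ j, Continuous (D2 (F j)) := fun j => (a2 j).continuous_fderiv one_ne_zero
  obtain ⟨u, G1, g1, l1⟩ := dom hp (fun j => fderiv ℝ (F j))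
    (fun j => (a2 j).continuous.aestronglyMeasurable) (memLp_cont (a2 0).continuous) h1
  obtain ⟨w, G2, g2, l2⟩ := dom hp (fun j => D2 (F j))
    (fun j => (a3 j).aestronglyMeasurable) (memLp_cont (a3 0)) h2
  have l0 : ∀ᵐ x ∂(volume.restrict (ball (0 : Fin n → ℝ) 1)),
      Tendsto (fun j => F j x) atTop (𝓝 (f x)) ∧ ∀ j, ‖F j x‖ ≤ C :=
    (ae_restrict_mem measurableSet_ball).mono fun x hx => ⟨hlim x, fun j => hbd j x hx⟩
  refine ⟨fun x => Matrix.of fun a i => u x (Pi.single i 1) a, fun a =>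
    ⟨memLp_cont ((continuous_apply a).comp hf), fun i => ⟨?_, ?_, fun j => ⟨fun x =>
      w x (Pi.single j 1) (Pi.single i 1) a, ?_, ?_⟩⟩⟩, l1.mono fun x hx => ?_⟩
  · exact memLp_lim ((ContinuousLinearMap.proj a).comp
      (ContinuousLinearMap.apply ℝ (Fin n → ℝ) (Pi.single i 1 : Fin n → ℝ)))
      (fun j => (a2 j).continuous.aestronglyMeasurable) g1 l1
  · exact weak_lim _ i a1 (ContinuousLinearMap.proj a) (integrable_const C) (g1.integrable hp) l0 l1
  · exact memLp_lim (((ContinuousLinearMap.proj a).comp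
      (ContinuousLinearMap.apply ℝ (Fin n → ℝ) (Pi.single i 1 : Fin n → ℝ))).comp
      (ContinuousLinearMap.apply ℝ ((Fin n → ℝ) →L[ℝ] (Fin n → ℝ)) (Pi.single j 1 : Fin n → ℝ)))
      (fun j => (a3 j).aestronglyMeasurable) g2 l2
  · exact weak_lim _ j a2 ((ContinuousLinearMap.proj a).comp
      (ContinuousLinearMap.apply ℝ (Fin n → ℝ) (Pi.single i 1 : Fin n → ℝ)))
      (g1.integrable hp) (g2.integrable hp) l1 l2
  · have e : (Matrix.of fun a i => u x (Pi.single i 1) a).det = (u x).det := by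
      rw [ContinuousLinearMap.det, ← LinearMap.det_toMatrix']
      congr 1
    rw [e]
    exact (ContinuousLinearMap.continuous_det.tendsto _).comp hx.1

end SJ

end

section

namespace SJ
open Set Filter Topology MeasureTheory Metric Function
open scoped ENNReal


namespace WrapX

/-- splitting off the first coordinate -/
noncomputable def LL (N : ℕ) : (Fin (N + 1) → ℝ) ≃ₗᵢ[ℝ] (Fin N → ℝ) × ℝ where
  toFun x := (fun i => x i.succ, x 0)
  invFun y := Fin.cons y.2 y.1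
  map_add' _ _ := rfl
  map_smul' _ _ := rfl
  left_inv x := Fin.cons_self_tail x
  right_inv y := by simp
  norm_map' x := by
    refine le_antisymm (norm_prod_le_iff.2 ⟨(pi_norm_le_iff_of_nonneg (norm_nonneg _)).2
      fun i => norm_le_pi_norm x _, norm_le_pi_norm x _⟩)
      ((pi_norm_le_iff_of_nonneg (norm_nonneg _)).2 fun i => ?_)
    refine Fin.cases ?_ (fun i => ?_) i
    · exact norm_snd_le ((fun i : Fin N => x i.succ), x 0)
    · exact (norm_le_pi_norm (fun i : Fin N => x i.succ) i).trans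
        (norm_fst_le ((fun i : Fin N => x i.succ), x 0))

theorem mp_LL (N : ℕ) : MeasurePreserving (LL N) volume volume :=
  Measure.measurePreserving_swap.comp (volume_preserving_piFinSuccAbove (fun _ => ℝ) 0)

theorem pre_ball (N : ℕ) : LL N ⁻¹' ball 0 1 = ball 0 1 := by
  ext x
  simp

theorem lint_LL (N : ℕ) (g : (Fin N → ℝ) × ℝ → ℝ≥0∞) :
    ∫⁻ x in ball 0 1, g (LL N x) = ∫⁻ y in ball 0 1, g y := by
  have h := (mp_LL N).restrict_preimage (s := ball 0 1) measurableSet_ball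
  rw [pre_ball] at h
  exact h.lintegral_comp_emb (LL N).toHomeomorph.measurableEmbedding g

theorem interp {α E : Type*} [MeasurableSpace α] [NormedAddCommGroup E] (μ : Measure α)
    (u : α → E) {M e q : ℝ} (hq : 1 ≤ q) (hM : 0 ≤ M) (he : 0 ≤ e) (hb : ∀ y, ‖u y‖ ≤ M)
    (hi : ∫⁻ y, ‖u y‖ₑ ∂μ ≤ ENNReal.ofReal e) :
    eLpNorm u (ENNReal.ofReal q) μ ≤ ENNReal.ofReal ((M ^ (q - 1) * e) ^ (1 / q)) := by
  rw [eLpNorm_eq_lintegral_rpow_enorm_toReal (by simp; linarith) ENNReal.ofReal_ne_top,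
    ENNReal.toReal_ofReal (by linarith),
    ← ENNReal.ofReal_rpow_of_nonneg (by positivity) (by positivity)]
  refine ENNReal.rpow_le_rpow ?_ (by positivity)
  calc _ ≤ ∫⁻ y, ENNReal.ofReal (M ^ (q - 1)) * ‖u y‖ₑ ∂μ := by
        refine lintegral_mono fun y => ?_
        rw [← ofReal_norm_eq_enorm, ENNReal.ofReal_rpow_of_nonneg (norm_nonneg _) (by linarith),
          ← ENNReal.ofReal_mul (by positivity)]
        refine ENNReal.ofReal_le_ofReal ?_
        calc ‖u y‖ ^ q = ‖u y‖ ^ (q - 1) * ‖u y‖ := by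
              rw [← Real.rpow_add_one' (norm_nonneg _) (by linarith), sub_add_cancel]
          _ ≤ _ := mul_le_mul_of_nonneg_right
              (Real.rpow_le_rpow (norm_nonneg _) (hb y) (by linarith)) (norm_nonneg _)
    _ ≤ _ := by
        rw [lintegral_const_mul' _ _ ENNReal.ofReal_ne_top, ENNReal.ofReal_mul (by positivity)]
        gcongr

theorem summ {α E : Type*} [MeasurableSpace α] [NormedAddCommGroup E] (μ : Measure α)
    [IsFiniteMeasure μ] (u : ℕ → α → E) {x : ℕ → ℝ} {C c q : ℝ} (hx : ∀ j : ℕ, (j : ℝ) ≤ x j)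
    (hb : ∀ j y, ‖u j y‖ ≤ 2 * Real.exp (c * x (j + 1)))
    (hi : ∀ j, 1 ≤ j → ∫⁻ y, ‖u j y‖ₑ ∂μ ≤ ENNReal.ofReal (C * Real.exp (-x (j + 1))))
    (hq1 : 1 ≤ q) (hq2 : (q - 1) * c ≤ 1 / 2) :
    ∑' j, eLpNorm (u j) (ENNReal.ofReal q) μ ≠ ∞ := by
  rw [tsum_eq_zero_add' ENNReal.summable]
  refine ENNReal.add_ne_top.2 ⟨?_, ?_⟩
  · refine ((eLpNorm_le_of_ae_bound (Eventually.of_forall (hb 0))).trans_lt ?_).ne
    exact ENNReal.mul_lt_top (ENNReal.rpow_lt_top_of_nonneg (by positivity) (measure_ne_top _ _))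
      ENNReal.ofReal_lt_top
  have hr : Real.exp (-1 / 2 * (1 / q)) < 1 := Real.exp_lt_one_iff.2 (by
    have : 0 < 1 / q := by positivity
    linarith)
  have hs := (summable_geometric_of_lt_one (Real.exp_pos _).le hr).mul_left
    ((2 ^ (q - 1) * |C|) ^ (1 / q))
  refine ne_top_of_le_ne_top hs.tsum_ofReal_ne_top (ENNReal.tsum_le_tsum fun j => ?_)
  refine (interp μ _ hq1 (by positivity) (e := |C| * Real.exp (-x (j + 1 + 1))) (by positivity)
    (hb _) ((hi _ (by omega)).trans (ENNReal.ofReal_le_ofReal (by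
      gcongr
      exact le_abs_self C)))).trans (ENNReal.ofReal_le_ofReal ?_)
  rw [← Real.exp_nat_mul, ← mul_assoc (j : ℝ), Real.exp_mul _ (1 / q),
    ← Real.mul_rpow (by positivity) (by positivity)]
  refine Real.rpow_le_rpow (by positivity) ?_ (by positivity)
  rw [Real.mul_rpow (by positivity) (by positivity), ← Real.exp_mul, mul_mul_mul_comm,
    ← Real.exp_add]
  gcongr
  have h1 := hx (j + 1 + 1)
  have h2 : (0 : ℝ) ≤ j := by positivity
  push_cast at h1
  nlinarith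

section Conj

variable {E E' : Type*} [NormedAddCommGroup E] [NormedSpace ℝ E] [NormedAddCommGroup E']
  [NormedSpace ℝ E'] (L : E' ≃ₗᵢ[ℝ] E) {F G : E → E}

theorem cd_conj (hF : ContDiff ℝ 2 F) : ContDiff ℝ 2 fun x => L.symm (F (L x)) :=
  L.symm.contDiff.comp (hF.comp L.contDiff)

theorem fderiv_conj (hF : ContDiff ℝ 2 F) (x : E') : fderiv ℝ (fun x => L.symm (F (L x))) x =
    (L.symm.toContinuousLinearEquiv : E →L[ℝ] E').comp ((fderiv ℝ F (L x)).comp
      (L.toContinuousLinearEquiv : E' →L[ℝ] E)) :=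
  (L.symm.toContinuousLinearEquiv.hasFDerivAt.comp x ((Calc1X.diff1 hF (L x)).hasFDerivAt.comp x
    L.toContinuousLinearEquiv.hasFDerivAt)).fderiv

theorem D2_conj (hF : ContDiff ℝ 2 F) (x v w : E') :
    D2 (fun x => L.symm (F (L x))) x v w = L.symm (D2 F (L x) (L v) (L w)) := by
  have h1 := D2_clm_comp (L.symm.toContinuousLinearEquiv : E →L[ℝ] E') (f := fun x => F (L x))
    (hF.comp L.contDiff) x v w
  have h2 := D2_comp_apply hF (L.toContinuousLinearEquiv : E' →L[ℝ] E).contDiff x v w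
  have h3 : fderiv ℝ (fun x => (L.toContinuousLinearEquiv : E' →L[ℝ] E) x) x =
      (L.toContinuousLinearEquiv : E' →L[ℝ] E) := ContinuousLinearMap.fderiv _
  erw [D2_clm, h3] at h2
  refine h1.trans (congrArg L.symm ?_)
  simpa using h2

theorem norm1_conj (hF : ContDiff ℝ 2 F) (hG : ContDiff ℝ 2 G) (x : E') :
    ‖fderiv ℝ (fun x => L.symm (F (L x))) x - fderiv ℝ (fun x => L.symm (G (L x))) x‖ ≤
      ‖fderiv ℝ F (L x) - fderiv ℝ G (L x)‖ := by
  refine ContinuousLinearMap.opNorm_le_bound _ (norm_nonneg _) fun v => ?_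
  have := (fderiv ℝ F (L x) - fderiv ℝ G (L x)).le_opNorm (L v)
  rw [fderiv_conj L hF, fderiv_conj L hG]
  simpa [← map_sub] using this

theorem norm2_conj (hF : ContDiff ℝ 2 F) (hG : ContDiff ℝ 2 G) (x : E') :
    ‖D2 (fun x => L.symm (F (L x))) x - D2 (fun x => L.symm (G (L x))) x‖ ≤
      ‖D2 F (L x) - D2 G (L x)‖ := by
  refine ContinuousLinearMap.opNorm_le_bound₂ _ (norm_nonneg (D2 F (L x) - D2 G (L x)))
    fun v w => ?_
  have := (D2 F (L x) - D2 G (L x)).le_opNorm₂ (L v) (L w)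
  simpa [D2_conj L hF, D2_conj L hG, ← map_sub] using this

theorem det_conj (hF : ContDiff ℝ 2 F) (x : E') :
    (fderiv ℝ (fun x => L.symm (F (L x))) x).det = (fderiv ℝ F (L x)).det := by
  rw [fderiv_conj L hF]
  exact LinearMap.det_conj (fderiv ℝ F (L x) : E →ₗ[ℝ] E) L.symm.toLinearEquiv

end Conj

theorem pos_of_ae {α : Type*} [MeasurableSpace α] {μ : Measure α} {A B : Set α} {P : α → Prop}
    (hA : 0 < μ A) (hP : ∀ᵐ x ∂μ, P x) (h : ∀ x ∈ A, P x → x ∈ B) : 0 < μ B :=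
  hA.trans_le (measure_mono_ae (hP.mono fun x hx hxA => h x hxA hx))

end WrapX

open WrapX in
theorem wrap (N : ℕ) (F : ℕ → (Fin N → ℝ) × ℝ → (Fin N → ℝ) × ℝ)
    (f : (Fin N → ℝ) × ℝ → (Fin N → ℝ) × ℝ) (x : ℕ → ℝ) (C c q : ℝ)
    (hF : ∀ j, ContDiff ℝ 2 (F j)) (hf : Continuous f) (hinj : Injective f)
    (hlim : ∀ y, Tendsto (fun j => F j y) atTop (𝓝 (f y)))
    (hbd : ∀ j, ∀ y ∈ ball (0 : (Fin N → ℝ) × ℝ) 1, ‖F j y‖ ≤ C)
    (hx : ∀ j : ℕ, (j : ℝ) ≤ x j) (hmono : Monotone x) (hc : 0 ≤ c)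
    (hsup : ∀ j y, ‖fderiv ℝ (F j) y‖ ≤ Real.exp (c * x j) ∧ ‖D2 (F j) y‖ ≤ Real.exp (c * x j))
    (hint1 : ∀ j, 1 ≤ j → ∫⁻ y in ball (0 : (Fin N → ℝ) × ℝ) 1,
      ‖fderiv ℝ (F (j + 1)) y - fderiv ℝ (F j) y‖ₑ ≤ ENNReal.ofReal (C * Real.exp (-x (j + 1))))
    (hint2 : ∀ j, 1 ≤ j → ∫⁻ y in ball (0 : (Fin N → ℝ) × ℝ) 1,
      ‖D2 (F (j + 1)) y - D2 (F j) y‖ₑ ≤ ENNReal.ofReal (C * Real.exp (-x (j + 1))))
    (Pos Neg : Set ((Fin N → ℝ) × ℝ)) (hP : Pos ⊆ ball 0 1) (hN : Neg ⊆ ball 0 1)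
    (hP0 : 0 < volume Pos) (hN0 : 0 < volume Neg)
    (hPd : ∀ y ∈ Pos, 0 < (fderiv ℝ (F 0) y).det ∧ ∀ j, fderiv ℝ (F j) y = fderiv ℝ (F 0) y)
    (hNd : ∀ y ∈ Neg, (fderiv ℝ (F 0) y).det < 0 ∧ ∀ j, fderiv ℝ (F j) y = fderiv ℝ (F 0) y)
    (hq1 : 1 ≤ q) (hq2 : (q - 1) * c ≤ 1 / 2) : SignChange (N + 1) q := by
  set L := LL N with hL
  have : IsFiniteMeasure (volume.restrict (ball (0 : Fin (N + 1) → ℝ) 1)) :=
    isFiniteMeasure_restrict.2 measure_ball_lt_top.ne
  have he : ∀ j, Real.exp (c * x j) ≤ Real.exp (c * x (j + 1)) := fun j =>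
    Real.exp_le_exp.2 (mul_le_mul_of_nonneg_left (hmono j.le_succ) hc)
  have hcont : Continuous fun z => L.symm (f (L z)) :=
    L.symm.continuous.comp (hf.comp L.continuous)
  set G : ℕ → (Fin (N + 1) → ℝ) → Fin (N + 1) → ℝ := fun j z => L.symm (F j (L z)) with hG
  have n1 : ∀ j z, ‖fderiv ℝ (G (j + 1)) z - fderiv ℝ (G j) z‖ ≤
      ‖fderiv ℝ (F (j + 1)) (L z) - fderiv ℝ (F j) (L z)‖ := fun j z =>
    norm1_conj L (hF _) (hF _) z
  have n2 : ∀ j z, ‖D2 (G (j + 1)) z - D2 (G j) z‖ ≤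
      ‖D2 (F (j + 1)) (L z) - D2 (F j) (L z)‖ := fun j z => norm2_conj L (hF _) (hF _) z
  have s1 : ∑' j, eLpNorm (fun z => fderiv ℝ (G (j + 1)) z - fderiv ℝ (G j) z) (ENNReal.ofReal q)
      (volume.restrict (ball 0 1)) ≠ ∞ := by
    refine summ _ (fun j z => fderiv ℝ (G (j + 1)) z - fderiv ℝ (G j) z) hx (C := C)
      (fun j z => (n1 j z).trans ((norm_sub_le _ _).trans ?_)) (fun j hj => ?_) hq1 hq2
    · linarith [(hsup j (L z)).1, (hsup (j + 1) (L z)).1, he j]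
    · refine le_trans (lintegral_mono fun z => ?_) ((lint_LL N fun y =>
        ‖fderiv ℝ (F (j + 1)) y - fderiv ℝ (F j) y‖ₑ).trans_le (hint1 j hj))
      exact enorm_le_iff_norm_le.2 (n1 j z)
  have s2 : ∑' j, eLpNorm (fun z => D2 (G (j + 1)) z - D2 (G j) z) (ENNReal.ofReal q)
      (volume.restrict (ball 0 1)) ≠ ∞ := by
    refine summ _ (fun j z => D2 (G (j + 1)) z - D2 (G j) z) hx (C := C)
      (fun j z => (n2 j z).trans ((norm_sub_le (D2 (F (j + 1)) (L z)) (D2 (F j) (L z))).trans ?_))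
      (fun j hj => ?_) hq1 hq2
    · linarith [(hsup j (L z)).2, (hsup (j + 1) (L z)).2, he j]
    · refine le_trans (lintegral_mono fun z => ?_) ((lint_LL N fun y =>
        ‖D2 (F (j + 1)) y - D2 (F j) y‖ₑ).trans_le (hint2 j hj))
      exact enorm_le_iff_norm_le.2 (n2 j z)
  obtain ⟨Df, h1, h2⟩ := w2_limit hq1 G (fun z => L.symm (f (L z)))
    (fun j => cd_conj L (hF j)) hcont (fun z => (L.symm.continuous.tendsto _).comp (hlim (L z))) C
    (fun j z hz => (L.symm.norm_map _).trans_le (hbd j _ (by simpa using hz))) s1 s2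
  rw [ae_restrict_iff' measurableSet_ball] at h2
  have hm : ∀ A, volume (L ⁻¹' A) = volume A := fun A =>
    (mp_LL N).measure_preimage_emb (LL N).toHomeomorph.measurableEmbedding A
  have hd : ∀ z, (∀ j, fderiv ℝ (F j) (L z) = fderiv ℝ (F 0) (L z)) → Tendsto (fun j =>
      (fderiv ℝ (fun z => L.symm (F j (L z))) z).det) atTop (𝓝 (Df z).det) →
      (Df z).det = (fderiv ℝ (F 0) (L z)).det := fun z h3 h4 => by
    simp only [det_conj L (hF _), h3] at h4
    exact tendsto_nhds_unique h4 tendsto_const_nhds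
  refine ⟨ball 0 1, isOpen_ball, (convex_ball _ _).isConnected (nonempty_ball.2 one_pos),
    fun z => L.symm (f (L z)), Df, ?_, h1, pos_of_ae (hm Pos ▸ hP0) h2 fun z hz h => ?_,
    pos_of_ae (hm Neg ▸ hN0) h2 fun z hz h => ?_⟩
  · have : CompactSpace (closedBall (0 : Fin (N + 1) → ℝ) 1) :=
      isCompact_iff_compactSpace.1 (isCompact_closedBall _ _)
    have h3 : IsClosedEmbedding fun z : closedBall (0 : Fin (N + 1) → ℝ) 1 => L.symm (f (L z)) :=
      (hcont.comp continuous_subtype_val).isClosedEmbedding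
        (L.symm.injective.comp (hinj.comp (L.injective.comp Subtype.val_injective)))
    exact h3.isEmbedding.comp (IsEmbedding.inclusion ball_subset_closedBall)
  · have h3 : z ∈ ball (0 : Fin (N + 1) → ℝ) 1 := by simpa using hP hz
    exact ⟨h3, by rw [hd z (hPd _ hz).2 (h h3)]; exact (hPd _ hz).1⟩
  · have h3 : z ∈ ball (0 : Fin (N + 1) → ℝ) 1 := by simpa using hN hz
    exact ⟨h3, by rw [hd z (hNd _ hz).2 (h h3)]; exact (hNd _ hz).1⟩

end SJ

end
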