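import Mathlib
import Pool.Agent.Mg.Fedaf86.G6ae19f

section

namespace SJ
open Set Filter Topology MeasureTheory Metric Function
open scoped ENNReal


theorem st_zero {u : ℝ} (h : u ≤ 0) : st u = 0 := Real.smoothTransition.zero_of_nonpos h

theorem st_one {u : ℝ} (h : 1 ≤ u) : st u = 1 := Real.smoothTransition.one_of_one_le h

theorem st_nonneg (u : ℝ) : 0 ≤ st u := Real.smoothTransition.nonneg u

theorem st_le_one (u : ℝ) : st u ≤ 1 := Real.smoothTransition.le_one u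

theorem zeta_one {u : ℝ} (h : |u| ≤ 1) : zeta u = 1 := by
  have := abs_le.1 h
  rw [zeta, st_one (by linarith), st_one (by linarith), mul_one]

theorem zeta_zero {u : ℝ} (h : 2 ≤ |u|) : zeta u = 0 := by
  rcases le_abs.1 h with h | h
  · rw [zeta, st_zero (u := 2 - u) (by linarith), zero_mul]
  · rw [zeta, st_zero (u := 2 + u) (by linarith), mul_zero]

theorem zeta_nonneg (u : ℝ) : 0 ≤ zeta u := mul_nonneg (st_nonneg _) (st_nonneg _)

theorem zeta_le_one (u : ℝ) : zeta u ≤ 1 :=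
  mul_le_one₀ (st_le_one _) (st_nonneg _) (st_le_one _)

theorem zeta_neg (u : ℝ) : zeta (-u) = zeta u := by
  rw [zeta, zeta, sub_neg_eq_add, ← sub_eq_add_neg, mul_comm]

namespace OneD1X

theorem den_ge (q : ℝ) : 1 / 2 ≤ 1 + (q - 1) * st (2 * q - 1) ∧
    q ≤ 1 + (q - 1) * st (2 * q - 1) := by
  rcases le_total q (1 / 2) with h | h
  · rw [st_zero (by linarith)]
    constructor <;> linarith
  rcases le_total q 1 with h' | h'
  · have := mul_le_mul_of_nonpos_left (st_le_one (2 * q - 1)) (show q - 1 ≤ 0 by linarith)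
    constructor <;> linarith
  · rw [st_one (by linarith)]
    constructor <;> linarith

theorem den_pos (q : ℝ) : 0 < 1 + (q - 1) * st (2 * q - 1) := by linarith [(den_ge q).1]

theorem st_cd : ContDiff ℝ 2 st := Real.smoothTransition.contDiff (n := 2)

theorem zeta_cd : ContDiff ℝ 2 zeta :=
  (st_cd.comp (contDiff_const.sub contDiff_id)).mul (st_cd.comp (contDiff_const.add contDiff_id))

theorem inv1_cd : ContDiff ℝ 2 inv1 :=
  contDiff_const.div (contDiff_const.add ((contDiff_id.sub contDiff_const).mul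
    (st_cd.comp ((contDiff_const.mul contDiff_id).sub contDiff_const)))) fun q => (den_pos q).ne'

theorem ends {φ : ℝ → ℝ} (h : ContDiff ℝ 2 φ)
    (he : ∀ u, 3 < |u| → |deriv φ u| ≤ 1 ∧ |deriv (deriv φ) u| ≤ 1) :
    ∃ K : ℝ, 1 ≤ K ∧ C2B φ K K := by
  have h1 : ContDiff ℝ 1 (deriv φ) := ContDiff.deriv' (n := 1) (by rwa [one_add_one_eq_two])
  obtain ⟨A, hA⟩ := (isCompact_Icc (a := (-3 : ℝ)) (b := 3)).exists_bound_of_continuousOn
    h1.continuous.continuousOn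
  obtain ⟨B, hB⟩ := (isCompact_Icc (a := (-3 : ℝ)) (b := 3)).exists_bound_of_continuousOn
    (h1.continuous_deriv le_rfl).continuousOn
  refine ⟨max 1 (max A B), le_max_left _ _, C2B.of_deriv h (fun u => ?_) fun u => ?_⟩
  · rcases lt_or_ge 3 |u| with hu | hu
    · exact (he u hu).1.trans (le_max_left _ _)
    · exact (hA u (abs_le.1 hu)).trans ((le_max_left _ _).trans (le_max_right _ _))
  · rcases lt_or_ge 3 |u| with hu | hu
    · exact (he u hu).2.trans (le_max_left _ _)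
    · exact (hB u (abs_le.1 hu)).trans ((le_max_right _ _).trans (le_max_right _ _))

theorem loc_const {φ : ℝ → ℝ} {u c : ℝ} (h : φ =ᶠ[𝓝 u] fun _ => c) :
    |deriv φ u| ≤ 1 ∧ |deriv (deriv φ) u| ≤ 1 := by
  rw [h.deriv_eq, h.deriv.deriv_eq]
  simp

theorem coord {D D' w w' α α' μ c η : ℝ} (hc : c ≤ 1) (hD0 : |D'| ≤ μ / 2)
    (hD : D - D' ≤ (1 - c) * (w - w')) (h : w' ≤ w) (h0 : 0 ≤ α) (h1 : α ≤ 1)
    (hη : |α - α'| ≤ η) : c * (w - w') - η * μ / 2 ≤ (w - α * D) - (w' - α' * D') := by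
  have a1 : α * (D - D') ≤ (1 - c) * (w - w') :=
    (mul_le_mul_of_nonneg_left hD h0).trans
      (mul_le_of_le_one_left (mul_nonneg (by linarith) (by linarith)) h1)
  have a2 : (α - α') * D' ≤ η * (μ / 2) := by
    refine (le_abs_self _).trans ?_
    rw [abs_mul]
    exact mul_le_mul hη hD0 (abs_nonneg _) ((abs_nonneg _).trans hη)
  linarith

theorem phi_hasDeriv (t : ℝ) : HasDerivAt phi (1 - Real.cos t) t :=
  (hasDerivAt_id t).sub (Real.hasDerivAt_sin t)

theorem deriv_phi : deriv phi = fun t => 1 - Real.cos t := funext fun t => (phi_hasDeriv t).deriv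

theorem deriv2_phi (t : ℝ) : deriv (deriv phi) t = Real.sin t := by
  rw [deriv_phi]
  simp

end OneD1X

open OneD1X

theorem inv1_pos (q : ℝ) : 0 < inv1 q := one_div_pos.2 (den_pos q)

theorem inv1_le_two (q : ℝ) : inv1 q ≤ 2 := by
  rw [inv1, div_le_iff₀ (den_pos q)]
  linarith [(den_ge q).1]

theorem mul_inv1_le (q : ℝ) : q * inv1 q ≤ 1 := by
  rw [inv1, mul_one_div, div_le_one (den_pos q)]
  exact (den_ge q).2

theorem mul_inv1_eq {q : ℝ} (h : 1 ≤ q) : q * inv1 q = 1 := by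
  rw [inv1, st_one (by linarith), mul_one, add_sub_cancel, mul_one_div_cancel (by linarith)]

theorem exists_K0 : ∃ K0 : ℝ, 1 ≤ K0 ∧ C2B st K0 K0 ∧ C2B zeta K0 K0 ∧ C2B inv1 K0 K0 := by
  obtain ⟨A, hA, h1⟩ := ends st_cd fun u hu => by
    rcases lt_abs.1 hu with hu | hu
    · refine loc_const (c := 1) ?_
      filter_upwards [Ioi_mem_nhds hu] with v hv using st_one (by linarith [mem_Ioi.1 hv])
    · refine loc_const (c := 0) ?_
      filter_upwards [Iio_mem_nhds (show u < -3 by linarith)] with v hv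
        using st_zero (by linarith [mem_Iio.1 hv])
  obtain ⟨B, hB, h2⟩ := ends zeta_cd fun u hu => by
    refine loc_const (c := 0) ?_
    filter_upwards [continuous_abs.continuousAt.eventually (Ioi_mem_nhds hu)] with v hv
      using zeta_zero (by linarith [show 3 < |v| from hv])
  obtain ⟨C, hC, h3⟩ := ends inv1_cd fun u hu => by
    rcases lt_abs.1 hu with hu | hu
    · have e : inv1 =ᶠ[𝓝 u] fun q => q⁻¹ := by
        filter_upwards [Ioi_mem_nhds hu] with v hv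
        exact eq_inv_of_mul_eq_one_right (mul_inv1_eq (by linarith [mem_Ioi.1 hv]))
      have hd : HasDerivAt (fun x : ℝ => -(x ^ 2)⁻¹) (2 * u / (u ^ 2) ^ 2) u := by
        have := ((hasDerivAt_pow 2 u).inv (by positivity : u ^ 2 ≠ 0)).neg
        exact this.congr_deriv (by simp [neg_div])
      rw [e.deriv_eq, e.deriv.deriv_eq, deriv_inv', hd.deriv, abs_neg,
        abs_of_pos (by positivity), abs_of_pos (by positivity), div_le_one (by positivity)]
      refine ⟨inv_le_one_of_one_le₀ (by nlinarith), ?_⟩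
      have : 9 ≤ u ^ 2 := by nlinarith
      nlinarith
    · refine loc_const (c := 1) ?_
      filter_upwards [Iio_mem_nhds (show u < -3 by linarith)] with v hv
      rw [inv1, st_zero (by linarith [mem_Iio.1 hv])]
      simp
  have a1 : A ≤ max A (max B C) := le_max_left _ _
  have a2 : B ≤ max A (max B C) := (le_max_left _ _).trans (le_max_right _ _)
  have a3 : C ≤ max A (max B C) := (le_max_right _ _).trans (le_max_right _ _)
  exact ⟨max A (max B C), hA.trans a1, h1.mono a1 a1, h2.mono a2 a2, h3.mono a3 a3⟩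

theorem mono_pert {ι : Type*} [Fintype ι] (D : ι → ℝ → ℝ) (μ c η : ℝ) (hc : c ≤ 1) (hc0 : 0 ≤ c)
    (hμ : 0 ≤ μ) (hη0 : 0 ≤ η) (hD0 : ∀ k u, |D k u| ≤ μ / 2)
    (hD : ∀ k u u', u' ≤ u → D k u - D k u' ≤ (1 - c) * (u - u'))
    (α α' w w' : ι → ℝ) (hα : ∀ k, 0 ≤ α k ∧ α k ≤ 1) (hη : ∀ k, |α k - α' k| ≤ η) :
    c * ‖w - w'‖ - η * μ / 2 ≤
      ‖(fun k => w k - α k * D k (w k)) - (fun k => w' k - α' k * D k (w' k))‖ := by
  set F := (fun k => w k - α k * D k (w k)) - (fun k => w' k - α' k * D k (w' k)) with hF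
  rw [sub_le_iff_le_add, ← abs_of_nonneg hc0, ← Real.norm_eq_abs, ← norm_smul,
    pi_norm_le_iff_of_nonneg (by positivity)]
  intro k
  have h1 := abs_le.1 (norm_le_pi_norm F k)
  have e : F k = (w k - α k * D k (w k)) - (w' k - α' k * D k (w' k)) := rfl
  rw [Pi.smul_apply, Pi.sub_apply, smul_eq_mul, Real.norm_eq_abs, abs_mul, abs_of_nonneg hc0]
  rcases le_total (w' k) (w k) with h | h
  · have := coord hc (hD0 k (w' k)) (hD k _ _ h) h (hα k).1 (hα k).2 (hη k)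
    rw [abs_of_nonneg (by linarith)]
    linarith [h1.2]
  · have a1 : α k * (D k (w' k) - D k (w k)) ≤ (1 - c) * (w' k - w k) :=
      (mul_le_mul_of_nonneg_left (hD k _ _ h) (hα k).1).trans
        (mul_le_of_le_one_left (mul_nonneg (by linarith) (by linarith)) (hα k).2)
    have a2 : -((α k - α' k) * D k (w' k)) ≤ η * (μ / 2) := by
      refine (neg_le_abs _).trans ?_
      rw [abs_mul]
      exact mul_le_mul (hη k) (hD0 _ _) (abs_nonneg _) hη0
    rw [abs_of_nonpos (by linarith)]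
    linarith [h1.1]

theorem phi_c2b : C2B phi 2 1 := by
  refine C2B.of_deriv (contDiff_id.sub Real.contDiff_sin) (fun u => ?_) fun u => ?_
  · rw [deriv_phi, abs_le]
    constructor <;> linarith [Real.cos_le_one u, Real.neg_one_le_cos u]
  · rw [deriv2_phi]
    exact Real.abs_sin_le_one u

theorem phi_deriv_le (t : ℝ) : |deriv phi t| ≤ t ^ 2 / 2 := by
  rw [deriv_phi, abs_of_nonneg (by linarith [Real.cos_le_one t])]
  linarith [Real.one_sub_sq_div_two_le_cos (x := t)]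

theorem phi_deriv2_le (t : ℝ) : |deriv (deriv phi) t| ≤ |t| := by
  rw [deriv2_phi]
  exact Real.abs_sin_le_abs

theorem phi_deriv_pos {t : ℝ} (h0 : t ≠ 0) (h : |t| ≤ 2) : 0 < deriv phi t := by
  rw [deriv_phi]
  have h1 : Real.cos |t| < Real.cos 0 := Real.cos_lt_cos_of_nonneg_of_le_pi le_rfl
    (by linarith [Real.pi_gt_three]) (abs_pos.2 h0)
  rw [Real.cos_abs, Real.cos_zero] at h1
  exact sub_pos.2 h1

theorem phi_inj : Injective phi := by
  intro a b h
  by_contra hne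
  have h1 : Real.sin a - Real.sin b = a - b := by
    unfold phi at h
    linarith
  have h2 : (a - b) / 2 ≠ 0 := div_ne_zero (sub_ne_zero.2 hne) two_ne_zero
  have h3 := Real.abs_sin_lt_abs h2
  have h4 := congrArg abs h1
  rw [Real.sin_sub_sin, abs_mul, abs_mul, abs_two] at h4
  rw [abs_div, abs_two] at h3
  nlinarith [Real.abs_cos_le_one ((a + b) / 2), abs_nonneg (Real.sin ((a - b) / 2)),
    abs_nonneg (Real.cos ((a + b) / 2))]

theorem abs_phi_le (t : ℝ) : |phi t| ≤ |t| + 1 :=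
  (abs_sub _ _).trans (add_le_add_right (Real.abs_sin_le_one t) _)

theorem Phi_c2b {X : Type*} [NormedAddCommGroup X] [NormedSpace ℝ X] :
    C2B (Phi : X × ℝ → X × ℝ) 2 1 :=
  C2B.prodMk (C2B.fst'.mono (by norm_num) (by norm_num))
    ((phi_c2b.comp C2B.snd').mono (by norm_num) (by norm_num))

theorem Phi_inj {X : Type*} : Injective (Phi : X × ℝ → X × ℝ) := fun _ _ h =>
  Prod.ext (congrArg Prod.fst h :) (phi_inj (congrArg Prod.snd h))

end SJ

end

section

namespace SJ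
open Set Filter Topology MeasureTheory Metric Function
open scoped ENNReal

namespace ConjX
variable {X : Type*} [NormedAddCommGroup X] [NormedSpace ℝ X]

noncomputable def chi (q e : X × ℝ → ℝ) (κ : ℝ) (y : X × ℝ) : ℝ :=
  st (q y - 3) * zeta (e y / (16 * κ))

omit [NormedAddCommGroup X] [NormedSpace ℝ X] in
theorem chi01 (q e : X × ℝ → ℝ) (κ : ℝ) (y : X × ℝ) : 0 ≤ chi q e κ y ∧ chi q e κ y ≤ 1 :=
  ⟨mul_nonneg (st_nonneg _) (zeta_nonneg _),
    mul_le_one₀ (st_le_one _) (zeta_nonneg _) (zeta_le_one _)⟩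

omit [NormedAddCommGroup X] [NormedSpace ℝ X] in
theorem chi_abs (q e : X × ℝ → ℝ) (κ : ℝ) (y : X × ℝ) : |chi q e κ y| ≤ 1 := by
  rw [abs_of_nonneg (chi01 q e κ y).1]; exact (chi01 q e κ y).2

omit [NormedAddCommGroup X] [NormedSpace ℝ X] in
theorem chi_ne {q e : X × ℝ → ℝ} {κ : ℝ} (hκ : 0 < κ) {y : X × ℝ} (h : chi q e κ y ≠ 0) :
    3 < q y ∧ |e y| < 32 * κ := by
  obtain ⟨h1, h2⟩ := mul_ne_zero_iff.mp h
  constructor
  · by_contra hc
    exact h1 (st_zero (by linarith [not_lt.mp hc]))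
  · by_contra hc
    apply h2 (zeta_zero _)
    rw [abs_div, abs_of_pos (by positivity : (0 : ℝ) < 16 * κ), le_div_iff₀ (by positivity)]
    linarith [not_lt.mp hc]

omit [NormedAddCommGroup X] [NormedSpace ℝ X] in
theorem chi_one {q e : X × ℝ → ℝ} {κ : ℝ} (hκ : 0 < κ) {y : X × ℝ} (h1 : 4 ≤ q y)
    (h2 : |e y| ≤ 7 * κ) : chi q e κ y = 1 := by
  unfold chi
  rw [st_one (by linarith), zeta_one, one_mul]
  rw [abs_div, abs_of_pos (by positivity : (0 : ℝ) < 16 * κ), div_le_one (by positivity)]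
  linarith

theorem chi_c2b (K1 : ℝ) (hK1 : 1 ≤ K1) : ∃ K2 : ℝ, 1 ≤ K2 ∧ ∀ (q e : X × ℝ → ℝ) (κ : ℝ), 0 < κ →
    C2B q (K1 / κ) (K1 / κ ^ 2) → C2B e K1 (K1 / κ) →
    C2B (chi q e κ) (K2 / κ) (K2 / κ ^ 2) := by
  obtain ⟨K0, hK0, hst, hz, -⟩ := exists_K0
  set M : ℝ := K0 * (K1 ^ 2 + K1) with hM
  have hM1 : 1 ≤ M := by
    have : 1 ≤ K1 ^ 2 + K1 := by nlinarith
    exact one_le_mul_of_one_le_of_one_le hK0 this
  have hMK : K0 * K1 ≤ M := by
    rw [hM]; apply mul_le_mul_of_nonneg_left _ (by linarith); nlinarith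
  refine ⟨2 * M + 2 * M ^ 2, by nlinarith, fun q e κ hκ hq he => ?_⟩
  have h1 : C2B (fun y => st (q y - 3)) (M / κ) (M / κ ^ 2) := by
    refine (hst.comp (hq.sub_const 3)).mono ?_ ?_
    · rw [← mul_div_assoc]; exact div_le_div_of_nonneg_right hMK hκ.le
    · apply le_of_eq; rw [hM]; field_simp
  have h2 : C2B (fun y => zeta (e y / (16 * κ))) (M / κ) (M / κ ^ 2) := by
    refine (hz.comp (he.div_const (by positivity : (0 : ℝ) < 16 * κ))).mono ?_ ?_
    · rw [le_div_iff₀ hκ]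
      have : K0 * (K1 / (16 * κ)) * κ = K0 * K1 / 16 := by field_simp
      rw [this]
      have : 0 ≤ K0 * K1 := by positivity
      linarith
    · rw [le_div_iff₀ (by positivity)]
      have : (K0 * (K1 / (16 * κ)) ^ 2 + K0 * (K1 / κ / (16 * κ))) * κ ^ 2
          = K0 * (K1 ^ 2 / 256 + K1 / 16) := by field_simp; ring
      rw [this, hM]
      apply mul_le_mul_of_nonneg_left _ (by linarith)
      have : 0 ≤ K1 ^ 2 := by positivity
      linarith
  have h3 := C2B.mul (a0 := 1) (b0 := 1)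
    (fun y => by rw [abs_of_nonneg (st_nonneg _)]; exact st_le_one _) h1
    (fun y => by rw [abs_of_nonneg (zeta_nonneg _)]; exact zeta_le_one _) h2
  refine h3.mono ?_ ?_
  · rw [le_div_iff₀ hκ]
    have : (M / κ * 1 + 1 * (M / κ)) * κ = 2 * M := by field_simp; ring
    rw [this]; nlinarith
  · apply le_of_eq; field_simp; ring

theorem rho_c2b {e : X × ℝ → ℝ} {K1 κ : ℝ} (he : C2B e K1 (K1 / κ)) :
    C2B (rho e) (1 + 2 * K1) (2 * (K1 / κ)) := by
  have h0 := he.nonneg1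
  have h0' := he.nonneg2
  have h1 : C2B (fun y : X × ℝ => y.1) (1 + 2 * K1) (2 * (K1 / κ)) :=
    C2B.fst'.mono (by linarith) (by linarith)
  have h2 : C2B (fun y : X × ℝ => y.2 - 2 * e y) (1 + 2 * K1) (2 * (K1 / κ)) := by
    refine (C2B.snd'.sub (he.const_mul 2)).mono ?_ ?_
    · rw [abs_of_pos (by norm_num : (0 : ℝ) < 2)]
    · rw [abs_of_pos (by norm_num : (0 : ℝ) < 2)]; linarith
  exact h1.prodMk h2

omit [NormedSpace ℝ X] in
theorem sq_sub (d : X × ℝ → X) (y : X × ℝ) : y - sq d y = (d y, 0) := by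
  unfold sq; simp

omit [NormedSpace ℝ X] in
theorem A_sub {d : X × ℝ → X} {A : X × ℝ → X × ℝ} (hR : RightInverse A (sq d)) (z : X × ℝ) :
    A z - z = (d (A z), 0) := by
  have := sq_sub d (A z)
  rwa [hR z] at this

omit [NormedSpace ℝ X] in
theorem norm_pair (v : X) : ‖((v, 0) : X × ℝ)‖ = ‖v‖ := by
  simp [Prod.norm_def]

noncomputable def Ach (χ : X × ℝ → ℝ) (A : X × ℝ → X × ℝ) (z : X × ℝ) : X × ℝ :=
  z + χ z • (A z - z)

theorem Ach_inj {χ : X × ℝ → ℝ} {d : X × ℝ → X} {A : X × ℝ → X × ℝ} {μ c L Ld : ℝ}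
    (hc : 0 < c) (h01 : ∀ y, 0 ≤ χ y ∧ χ y ≤ 1) (hL0 : 0 ≤ L)
    (hL : ∀ y y', ‖χ y - χ y'‖ ≤ L * ‖y - y'‖) (hd : ∀ y y', ‖d y - d y'‖ ≤ Ld * ‖y - y'‖)
    (hmod : ModAL d μ c) (hsm : 8 * μ * (L * (1 + Ld)) ≤ c)
    (hl : LeftInverse A (sq d)) (hR : RightInverse A (sq d)) : Injective (Ach χ A) := by
  have key : ∀ y, Ach χ A (sq d y) = sq (fun z => (1 - χ (sq d z)) • d z) y := by
    intro y
    unfold Ach
    rw [hl y, sq_sub]
    unfold sq
    ext
    · simp [sub_smul]; abel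
    · simp
  have hlip : ∀ y y', |(1 - χ (sq d y)) - (1 - χ (sq d y'))| ≤ L * (1 + Ld) * ‖y - y'‖ := by
    intro y y'
    have e1 : (1 - χ (sq d y)) - (1 - χ (sq d y')) = -(χ (sq d y) - χ (sq d y')) := by ring
    rw [e1, abs_neg, ← Real.norm_eq_abs]
    refine (hL _ _).trans ?_
    rw [mul_assoc]
    apply mul_le_mul_of_nonneg_left _ hL0
    have e2 : sq d y - sq d y' = (y - y') - ((d y - d y', 0) : X × ℝ) := by
      unfold sq
      ext
      · simp; abel
      · simp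
    rw [e2]
    refine (norm_sub_le _ _).trans ?_
    rw [norm_pair]
    have := hd y y'
    linarith
  have hal := hmod (fun z => 1 - χ (sq d z)) (L * (1 + Ld))
    (fun y => ⟨by linarith [(h01 (sq d y)).2], by linarith [(h01 (sq d y)).1]⟩) hlip hsm
  intro z z' hz
  have h1 := hal (A z) (A z')
  rw [← key, ← key, hR z, hR z', hz, sub_self, norm_zero] at h1
  have h2 : ‖A z - A z'‖ ≤ 0 := by
    by_contra hh
    have : 0 < c / 8 * ‖A z - A z'‖ := mul_pos (by positivity) (not_le.mp hh)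
    linarith
  have h3 : A z = A z' := sub_eq_zero.mp (norm_le_zero_iff.mp h2)
  rw [← hR z, ← hR z', h3]

noncomputable def Gam (χ e : X × ℝ → ℝ) (A : X × ℝ → X × ℝ) (y : X × ℝ) : X × ℝ :=
  y + (rho e (rho e y + χ y • (A (rho e y) - rho e y)) - rho e (rho e y))

theorem Gam_c2b (R K2 : ℝ) (hR : 1 ≤ R) (hK2 : 1 ≤ K2) : ∃ K3 : ℝ, 1 ≤ K3 ∧
    ∀ (χ e : X × ℝ → ℝ) (A : X × ℝ → X × ℝ) (κ μ c BA : ℝ), 0 < κ → 0 < μ → μ ≤ κ → 0 < c →
      c ≤ 1 → (∀ y, |χ y| ≤ 1) → C2B χ (K2 / κ) (K2 / κ ^ 2) → C2B (rho e) R (R / κ) →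
      C2B A (8 / c) BA → (∀ z, ‖A z - z‖ ≤ μ / 2) →
      C2B (Gam χ e A) (K3 / c) (K3 * (BA + 1 / (c ^ 2 * κ))) := by
  set a : ℝ := K2 + 10 * R with ha
  set b : ℝ := K2 + 18 * K2 * R + R ^ 2 + 10 * R with hb
  have ha1 : 1 ≤ a := by rw [ha]; linarith
  have hb1 : 1 ≤ b := by
    rw [hb]
    have : 0 ≤ K2 * R := by positivity
    nlinarith
  refine ⟨1 + R * a + R ^ 2 + (R * a ^ 2 + R * b + R ^ 3 + R ^ 2), ?_, ?_⟩
  · have : 0 ≤ R * a + R ^ 2 + (R * a ^ 2 + R * b + R ^ 3 + R ^ 2) := by positivity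
    linarith
  intro χ e A κ μ c BA hκ hμ hμκ hc hc1 hχ0 hχ hρ hA hAd
  have hBA := hA.nonneg2
  obtain ⟨u, hu⟩ : ∃ u : ℝ, u = 1 / c := ⟨_, rfl⟩
  obtain ⟨v, hv⟩ : ∃ v : ℝ, v = 1 / κ := ⟨_, rfl⟩
  have hu1 : 1 ≤ u := by rw [hu, le_div_iff₀ hc]; linarith
  have hv0 : 0 < v := by rw [hv]; positivity
  have hμv : μ * v ≤ 1 := by rw [hv, mul_one_div, div_le_one hκ]; exact hμκ
  have e1 : K2 / κ = K2 * v := by rw [hv]; ring
  have e2 : K2 / κ ^ 2 = K2 * v ^ 2 := by rw [hv]; field_simp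
  have e3 : R / κ = R * v := by rw [hv]; ring
  have e4 : 8 / c = 8 * u := by rw [hu]; ring
  have e5 : 1 / (c ^ 2 * κ) = u ^ 2 * v := by rw [hu, hv]; field_simp
  rw [e1, e2] at hχ
  rw [e3] at hρ
  rw [e4] at hA
  obtain ⟨T, hT⟩ : ∃ T : ℝ, T = BA + u ^ 2 * v := ⟨_, rfl⟩
  have hvu : v ≤ u * v := by nlinarith
  have huv : u * v ≤ u ^ 2 * v := by nlinarith
  have hT1 : BA ≤ T := by rw [hT]; have : 0 ≤ u ^ 2 * v := by positivity
                          linarith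
  have hT2 : u ^ 2 * v ≤ T := by rw [hT]; linarith
  have hT3 : u * v ≤ T := huv.trans hT2
  have hT4 : v ≤ T := hvu.trans hT3
  have hT0 : 0 ≤ T := hv0.le.trans hT4
  have h1 := (hA.comp hρ).sub hρ
  have h2 := C2B.smul hχ0 hχ (fun y => hAd (rho e y)) h1
  have h3 : C2B (fun y => rho e y + χ y • (A (rho e y) - rho e y)) (a * u) (b * T) := by
    refine (hρ.add h2).mono ?_ ?_
    · have t1 : K2 * v * (μ / 2) ≤ K2 * u := by
        have : K2 * v * (μ / 2) = K2 * (μ * v / 2) := by ring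
        rw [this]; apply mul_le_mul_of_nonneg_left _ (by linarith); linarith
      have t2 : R ≤ R * u := by nlinarith
      rw [ha]; nlinarith
    · have t1 : K2 * v ^ 2 * (μ / 2) ≤ K2 * T := by
        have : K2 * v ^ 2 * (μ / 2) = K2 * (v * (μ * v) / 2) := by ring
        rw [this]; apply mul_le_mul_of_nonneg_left _ (by linarith)
        have : v * (μ * v) ≤ v * 1 := mul_le_mul_of_nonneg_left hμv hv0.le
        linarith
      have t2 : 2 * (K2 * v) * (8 * u * R + R) ≤ 18 * K2 * R * T := by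
        have : 2 * (K2 * v) * (8 * u * R + R) = K2 * R * (16 * (u * v) + 2 * v) := by ring
        rw [this]
        have : 18 * K2 * R * T = K2 * R * (18 * T) := by ring
        rw [this]
        apply mul_le_mul_of_nonneg_left _ (by positivity); linarith
      have t3 : BA * R ^ 2 ≤ R ^ 2 * T := by
        rw [mul_comm]; exact mul_le_mul_of_nonneg_left hT1 (by positivity)
      have t4 : 8 * u * (R * v) ≤ 8 * (R * T) := by
        have : 8 * u * (R * v) = 8 * (R * (u * v)) := by ring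
        rw [this]
        have := mul_le_mul_of_nonneg_left hT3 (by linarith : (0 : ℝ) ≤ R)
        linarith
      have t5 : R * v ≤ R * T := mul_le_mul_of_nonneg_left hT4 (by linarith)
      have : b * T = K2 * T + 18 * K2 * R * T + R ^ 2 * T + 10 * (R * T) := by rw [hb]; ring
      rw [this]; linarith
  have h4 := C2B.id'.add ((hρ.comp h3).sub (hρ.comp hρ))
  rw [e5, ← hT, div_eq_mul_one_div, ← hu]
  refine h4.mono ?_ ?_
  · have t1 : R * R ≤ R ^ 2 * u := by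
      have : 0 ≤ R ^ 2 := by positivity
      nlinarith
    have t2 : 0 ≤ (R * a ^ 2 + R * b + R ^ 3 + R ^ 2) * u := by positivity
    have : (1 + R * a + R ^ 2 + (R * a ^ 2 + R * b + R ^ 3 + R ^ 2)) * u
        = u + R * (a * u) + R ^ 2 * u + (R * a ^ 2 + R * b + R ^ 3 + R ^ 2) * u := by ring
    rw [this]; linarith
  · have t1 : R * v * (a * u) ^ 2 ≤ R * a ^ 2 * T := by
      have : R * v * (a * u) ^ 2 = R * a ^ 2 * (u ^ 2 * v) := by ring
      rw [this]; exact mul_le_mul_of_nonneg_left hT2 (by positivity)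
    have t2 : R * v * R ^ 2 ≤ R ^ 3 * T := by
      have : R * v * R ^ 2 = R ^ 3 * v := by ring
      rw [this]; exact mul_le_mul_of_nonneg_left hT4 (by positivity)
    have t3 : R * (R * v) ≤ R ^ 2 * T := by
      have : R * (R * v) = R ^ 2 * v := by ring
      rw [this]; exact mul_le_mul_of_nonneg_left hT4 (by positivity)
    have t4 : 0 ≤ (1 + R * a + R ^ 2) * T := by positivity
    have : (1 + R * a + R ^ 2 + (R * a ^ 2 + R * b + R ^ 3 + R ^ 2)) * T
        = (1 + R * a + R ^ 2) * T + R * a ^ 2 * T + R * (b * T) + R ^ 3 * T + R ^ 2 * T := by ring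
    rw [this]; linarith

end ConjX

open ConjX in
theorem conj_Gamma {X : Type*} [NormedAddCommGroup X] [NormedSpace ℝ X] (K1 : ℝ) (hK1 : 1 ≤ K1) :
    ∃ K : ℝ, 1 ≤ K ∧ ∀ (q e : X × ℝ → ℝ) (d : X × ℝ → X) (A : X × ℝ → X × ℝ)
      (κ h μ c τ BA : ℝ), 0 < κ → 64 * κ ≤ h → 0 < μ → 0 < c → c ≤ 1 → 0 < τ → τ ≤ 1 →
      K * μ ≤ c * τ * κ →
      C2B q (K1 / κ) (K1 / κ ^ 2) → C2B e K1 (K1 / κ) →
      (∀ y t, 1 ≤ q y → |e y| ≤ h → |t - (y.2 - e y)| ≤ 3 * h / 2 →
        q (y.1, t) = q y ∧ e (y.1, t) = e y + (t - y.2)) →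
      (∀ y, ‖d y‖ ≤ μ / 2) → (∀ y y', ‖d y - d y'‖ ≤ K1 / τ * ‖y - y'‖) → ModAL d μ c →
      LeftInverse A (sq d) → RightInverse A (sq d) → C2B A (8 / c) BA →
      ∃ Γ : X × ℝ → X × ℝ, C2B Γ (K / c) (K * (BA + 1 / (c ^ 2 * κ))) ∧ Injective Γ ∧
        (∀ y, ‖Γ y - y‖ ≤ K * μ) ∧ (∀ y, q y ≤ 3 → Γ y = y) ∧
        (∀ y, ∃ (σ t : ℝ), (Γ y).1 = y.1 + σ • d (A (y.1, t))) ∧
        ∀ y, 9 / 2 < q y → |e y| < 6 * κ → 4 ≤ q (sq d y) ∧ |e (sq d y)| ≤ 7 * κ ∧
          Γ (rho e (sq d y)) = rho e y := by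
  obtain ⟨K2, hK2, hchi⟩ := chi_c2b (X := X) K1 hK1
  have hR : 1 ≤ 1 + 2 * K1 := by linarith
  obtain ⟨K3, hK3, hGam⟩ := Gam_c2b (X := X) (1 + 2 * K1) K2 hR hK2
  have hP : 0 ≤ 8 * K2 * (1 + K1) := by positivity
  refine ⟨K3 + 8 * K2 * (1 + K1) + (1 + 2 * K1), by linarith, ?_⟩
  intro q e d A κ h μ c τ BA hκ hh hμ hc hc1 hτ hτ1 hK hq he hcov hd0 hdl hmod hl hr hA
  have hcτ : c * τ * κ ≤ κ := by
    have : c * τ ≤ 1 := mul_le_one₀ hc1 hτ.le hτ1
    nlinarith
  have hK1μ : K1 * μ ≤ κ := by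
    have : K1 * μ ≤ (K3 + 8 * K2 * (1 + K1) + (1 + 2 * K1)) * μ :=
      mul_le_mul_of_nonneg_right (by linarith) hμ.le
    linarith
  have hμκ : μ ≤ κ := by nlinarith
  have hχ := hchi q e κ hκ hq he
  have hρ : C2B (rho e) (1 + 2 * K1) ((1 + 2 * K1) / κ) := by
    refine (rho_c2b he).mono le_rfl ?_
    rw [← mul_div_assoc]
    exact div_le_div_of_nonneg_right (by linarith) hκ.le
  have hAd : ∀ z, ‖A z - z‖ ≤ μ / 2 := fun z => by
    rw [A_sub hr, norm_pair]; exact hd0 _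
  -- effect of small moves on q and e
  have hqm : ∀ y y' : X × ℝ, ‖y' - y‖ ≤ μ / 2 → q y - 1 / 2 ≤ q y' := by
    intro y y' hy
    have h1 := hq.lip y' y
    have h2 : K1 / κ * ‖y' - y‖ ≤ K1 / κ * (μ / 2) :=
      mul_le_mul_of_nonneg_left hy (by positivity)
    have h3 : K1 / κ * (μ / 2) ≤ 1 / 2 := by
      have : K1 / κ * (μ / 2) = K1 * μ / κ / 2 := by ring
      rw [this]
      have : K1 * μ / κ ≤ 1 := (div_le_one hκ).mpr hK1μ
      linarith
    rw [Real.norm_eq_abs] at h1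
    have := (abs_le.mp (h1.trans (h2.trans h3))).1
    linarith
  have hem : ∀ y y' : X × ℝ, ‖y' - y‖ ≤ μ / 2 → |e y'| ≤ |e y| + κ := by
    intro y y' hy
    have h1 := he.lip y' y
    have h2 : K1 * ‖y' - y‖ ≤ K1 * (μ / 2) := mul_le_mul_of_nonneg_left hy (by linarith)
    rw [Real.norm_eq_abs] at h1
    have h3 : |e y'| ≤ |e y| + |e y' - e y| := by
      have := abs_add_le (e y) (e y' - e y)
      simpa using this
    linarith
  -- the invariant region
  have hW : ∀ y, 1 ≤ q y → |e y| ≤ h → q (rho e y) = q y ∧ e (rho e y) = -e y := by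
    intro y h1 h2
    have h3 : |(y.2 - 2 * e y) - (y.2 - e y)| ≤ 3 * h / 2 := by
      have : (y.2 - 2 * e y) - (y.2 - e y) = -e y := by ring
      rw [this, abs_neg]; linarith
    obtain ⟨h4, h5⟩ := hcov y _ h1 h2 h3
    refine ⟨h4, ?_⟩
    unfold rho
    rw [h5]; ring
  have hWρ : ∀ y, 1 ≤ q y ∧ |e y| ≤ h → 1 ≤ q (rho e y) ∧ |e (rho e y)| ≤ h := by
    intro y hy
    obtain ⟨h1, h2⟩ := hW y hy.1 hy.2
    rw [h1, h2, abs_neg]; exact hy
  have hρρ : ∀ y, 1 ≤ q y ∧ |e y| ≤ h → rho e (rho e y) = y := by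
    intro y hy
    have h2 := (hW y hy.1 hy.2).2
    have : rho e (rho e y) = ((rho e y).1, (rho e y).2 - 2 * e (rho e y)) := rfl
    rw [this, h2]
    unfold rho
    ext
    · rfl
    · simp
  have hχρ : ∀ y, 1 ≤ q y ∧ |e y| ≤ h → chi q e κ (rho e y) = chi q e κ y := by
    intro y hy
    obtain ⟨h1, h2⟩ := hW y hy.1 hy.2
    unfold chi
    rw [h1, h2, neg_div, zeta_neg]
  have hmove : ∀ (s : ℝ) (z : X × ℝ), |s| ≤ 1 → ‖z + s • (A z - z) - z‖ ≤ μ / 2 := by
    intro s z hs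
    rw [add_sub_cancel_left, norm_smul, Real.norm_eq_abs]
    have := mul_le_mul hs (hAd z) (norm_nonneg _) zero_le_one
    linarith
  have hAW : ∀ z, 1 ≤ q z ∧ |e z| ≤ h →
      1 ≤ q (Ach (chi q e κ) A z) ∧ |e (Ach (chi q e κ) A z)| ≤ h := by
    intro z hz
    by_cases h0 : chi q e κ z = 0
    · unfold Ach; rw [h0, zero_smul, add_zero]; exact hz
    · obtain ⟨h1, h2⟩ := chi_ne hκ h0
      have h3 := hmove _ z (chi_abs q e κ z)
      have h4 := hqm _ _ h3
      have h5 := hem _ _ h3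
      unfold Ach
      constructor <;> linarith
  have hoff : ∀ y, chi q e κ y = 0 → Gam (chi q e κ) e A y = y := by
    intro y h0
    unfold Gam
    rw [h0, zero_smul, add_zero, sub_self, add_zero]
  have hoff' : ∀ y, ¬ (1 ≤ q y ∧ |e y| ≤ h) → Gam (chi q e κ) e A y = y := by
    intro y hy
    apply hoff
    by_contra h0
    obtain ⟨h1, h2⟩ := chi_ne hκ h0
    exact hy ⟨by linarith, by linarith⟩
  have hon : ∀ y, 1 ≤ q y ∧ |e y| ≤ h →
      Gam (chi q e κ) e A y = rho e (Ach (chi q e κ) A (rho e y)) := by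
    intro y hy
    unfold Gam Ach
    rw [hρρ y hy, hχρ y hy, add_sub_cancel]
  have hAinj : Injective (Ach (chi q e κ) A) := by
    refine Ach_inj (L := K2 / κ) (Ld := K1 / τ) hc (chi01 q e κ) (by positivity) hχ.lip hdl hmod
      ?_ hl hr
    have t1 : 1 + K1 / τ ≤ (1 + K1) / τ := by
      rw [add_div]
      have : 1 ≤ 1 / τ := by rw [le_div_iff₀ hτ]; linarith
      linarith
    have t2 : 8 * μ * (K2 / κ * (1 + K1 / τ)) ≤ 8 * μ * (K2 / κ * ((1 + K1) / τ)) := by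
      apply mul_le_mul_of_nonneg_left _ (by positivity)
      exact mul_le_mul_of_nonneg_left t1 (by positivity)
    refine t2.trans ?_
    have t3 : 8 * μ * (K2 / κ * ((1 + K1) / τ)) = 8 * K2 * (1 + K1) * μ / (τ * κ) := by
      field_simp
    rw [t3, div_le_iff₀ (by positivity)]
    have : 8 * K2 * (1 + K1) * μ ≤ (K3 + 8 * K2 * (1 + K1) + (1 + 2 * K1)) * μ :=
      mul_le_mul_of_nonneg_right (by linarith) hμ.le
    linarith
  refine ⟨Gam (chi q e κ) e A, ?_, ?_, ?_, ?_, ?_, ?_⟩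
  · refine (hGam _ e A κ μ c BA hκ hμ hμκ hc hc1 (chi_abs q e κ) hχ hρ hA hAd).mono ?_ ?_
    · exact div_le_div_of_nonneg_right (by linarith) hc.le
    · have := hA.nonneg2
      exact mul_le_mul_of_nonneg_right (by linarith) (by positivity)
  · intro y y' hyy
    by_cases hy : 1 ≤ q y ∧ |e y| ≤ h
    · by_cases hy' : 1 ≤ q y' ∧ |e y'| ≤ h
      · rw [hon y hy, hon y' hy'] at hyy
        have h1 := congrArg (rho e) hyy
        rw [hρρ _ (hAW _ (hWρ y hy)), hρρ _ (hAW _ (hWρ y' hy'))] at h1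
        have h2 := congrArg (rho e) (hAinj h1)
        rwa [hρρ y hy, hρρ y' hy'] at h2
      · exfalso
        rw [hon y hy, hoff' y' hy'] at hyy
        exact hy' (hyy ▸ hWρ _ (hAW _ (hWρ y hy)))
    · by_cases hy' : 1 ≤ q y' ∧ |e y'| ≤ h
      · exfalso
        rw [hon y' hy', hoff' y hy] at hyy
        exact hy (hyy ▸ hWρ _ (hAW _ (hWρ y' hy')))
      · rwa [hoff' y hy, hoff' y' hy'] at hyy
  · intro y
    unfold Gam
    rw [add_sub_cancel_left]
    refine (hρ.lip _ _).trans ?_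
    have h1 := hmove _ (rho e y) (chi_abs q e κ y)
    have h2 := mul_le_mul_of_nonneg_left h1 (by linarith : (0 : ℝ) ≤ 1 + 2 * K1)
    have h3 : (1 + 2 * K1) * μ ≤ (K3 + 8 * K2 * (1 + K1) + (1 + 2 * K1)) * μ :=
      mul_le_mul_of_nonneg_right (by linarith) hμ.le
    have h4 : 0 ≤ (1 + 2 * K1) * μ := by positivity
    linarith
  · intro y hy
    apply hoff
    by_contra h0
    linarith [(chi_ne hκ h0).1]
  · intro y
    refine ⟨chi q e κ y, y.2 - 2 * e y, ?_⟩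
    unfold Gam
    rw [A_sub hr]
    simp [rho]
  · intro y h1 h2
    have h3 : ‖sq d y - y‖ ≤ μ / 2 := by
      rw [norm_sub_rev, sq_sub, norm_pair]; exact hd0 y
    have h4 := hqm _ _ h3
    have h5 := hem _ _ h3
    have h6 : 4 ≤ q (sq d y) := by linarith
    have h7 : |e (sq d y)| ≤ 7 * κ := by linarith
    have hy' : 1 ≤ q (sq d y) ∧ |e (sq d y)| ≤ h := ⟨by linarith, by linarith⟩
    refine ⟨h6, h7, ?_⟩
    rw [hon _ (hWρ _ hy'), hρρ _ hy']
    unfold Ach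
    rw [chi_one hκ h6 h7, one_smul, add_sub_cancel, hl y]

end SJ

end

section

namespace SJ
open Set Filter Topology MeasureTheory Metric Function
open scoped ENNReal

namespace OneD2X

theorem one_le_abs {m n : ℤ} (h : m ≠ n) : (1 : ℝ) ≤ |(m : ℝ) - n| := by
  have := Int.one_le_abs (sub_ne_zero.2 h)
  exact_mod_cast this

theorem round_eq' {u : ℝ} {n : ℤ} (h : |u - n| < 1 / 2) : round u = n := by
  by_contra hc
  have h1 := one_le_abs hc
  have h2 := abs_sub_round u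
  have h3 := abs_sub_le ((round u : ℤ) : ℝ) u n
  rw [abs_sub_comm ((round u : ℤ) : ℝ) u] at h3
  linarith

theorem per_ev {f : ℝ → ℝ} {a : ℝ} (ha : a < 1 / 2) (h0 : ∀ v, a ≤ |v| → f v = 0) (u₀ : ℝ) :
    (fun u => f (u - round u)) =ᶠ[𝓝 u₀] fun u => f (u - round u₀) := by
  filter_upwards [ball_mem_nhds u₀ (show 0 < 1 / 2 - a by linarith)] with u hu
  by_cases hc : round u = round u₀
  · rw [hc]
  · have h1 := one_le_abs hc
    have h2 := abs_sub_round u
    have h3 := abs_sub_round u₀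
    have h4 : |u - u₀| < 1 / 2 - a := by simpa [Real.dist_eq] using hu
    have h5 := abs_sub_le ((round u : ℤ) : ℝ) u (round u₀ : ℤ)
    rw [abs_sub_comm ((round u : ℤ) : ℝ) u] at h5
    have h6 := abs_sub_le u u₀ (round u₀ : ℤ)
    rw [h0 _ (by linarith), h0 _ (by linarith)]

theorem per {f : ℝ → ℝ} {a A B : ℝ} (hf : C2B f A B) (ha : a < 1 / 2)
    (h0 : ∀ v, a ≤ |v| → f v = 0) : C2B (fun u => f (u - round u)) A B := by
  have h : ∀ n : ℝ, C2B (fun u => f (u - n)) A B := fun n =>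
    (hf.comp (C2B.id'.sub_const n)).mono (by simp) (by simp)
  refine ⟨contDiff_iff_contDiffAt.2 fun u => ?_, fun u => ?_, fun u => ?_⟩
  · exact (h _).cd.contDiffAt.congr_of_eventuallyEq (per_ev ha h0 u)
  · rw [(per_ev ha h0 u).fderiv_eq]
    exact (h _).d1 u
  · rw [D2_congr (per_ev ha h0 u)]
    exact (h _).d2 u

theorem per_deriv {f : ℝ → ℝ} {a : ℝ} (ha : a < 1 / 2) (h0 : ∀ v, a ≤ |v| → f v = 0) (u : ℝ) :
    deriv (fun u => f (u - round u)) u = deriv f (u - round u) := by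
  rw [(per_ev ha h0 u).deriv_eq, deriv_comp_sub_const]

theorem id_mul {χ : ℝ → ℝ} {A B : ℝ} (h : C2B χ A B) (h1 : ∀ v, |χ v| ≤ 1)
    (h0 : ∀ v, 1 / 2 ≤ |v| → χ v = 0) : C2B (fun v => v * χ v) (1 + A) (2 * A + B) := by
  have hA := h.nonneg1
  have hB := h.nonneg2
  have hi : C2B (fun x : ℝ => x) 1 0 := C2B.id'
  have ev : ∀ y : ℝ, ¬ |y| ≤ 1 → (fun v => v * χ v) =ᶠ[𝓝 y] fun _ => (0 : ℝ) := fun y hy => by
    have : ∀ᶠ v in 𝓝 y, 1 / 2 < |v| :=
      continuous_abs.continuousAt.eventually (lt_mem_nhds (by linarith [not_le.1 hy]))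
    filter_upwards [this] with v hv
    rw [h0 v hv.le, mul_zero]
  refine ⟨hi.cd.mul h.cd, fun y => ?_, fun y => ?_⟩
  · by_cases hy : |y| ≤ 1
    · refine (norm_fderiv_smul_le' hi.cd h.cd y).trans (add_le_add ?_ ?_)
      · exact mul_le_one₀ (hi.d1 y) (norm_nonneg _) (h1 y)
      · exact (mul_le_mul hy (h.d1 y) (norm_nonneg _) zero_le_one).trans_eq (one_mul A)
    · rw [(ev y hy).fderiv_eq]
      simp only [fderiv_fun_const, Pi.zero_apply, norm_zero]
      linarith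
  · by_cases hy : |y| ≤ 1
    · refine (norm_D2_smul_le hi.cd h.cd y).trans ?_
      have a1 : ‖D2 (fun x : ℝ => x) y‖ * ‖χ y‖ ≤ 0 :=
        mul_nonpos_of_nonpos_of_nonneg (hi.d2 y) (norm_nonneg _)
      have a2 := mul_le_mul (hi.d1 y) (h.d1 y) (norm_nonneg _) zero_le_one
      have a3 := mul_le_mul hy (h.d2 y) (ContinuousLinearMap.opNorm_nonneg _) zero_le_one
      linarith
    · rw [D2_congr (ev y hy), D2_const, ContinuousLinearMap.opNorm_zero]
      linarith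

/-- the cut-off of the saw -/
noncomputable def chi (τ v : ℝ) : ℝ :=
  st ((1 / 2 - τ / 2 - v) / (τ / 2)) * st ((v + (1 / 2 - τ / 2)) / (τ / 2))

theorem chi_neg (τ v : ℝ) : chi τ (-v) = chi τ v := by
  unfold chi
  rw [mul_comm]
  congr 3 <;> ring

theorem chi_nonneg (τ v : ℝ) : 0 ≤ chi τ v := mul_nonneg (st_nonneg _) (st_nonneg _)

theorem chi_le_one (τ v : ℝ) : chi τ v ≤ 1 := mul_le_one₀ (st_le_one _) (st_nonneg _) (st_le_one _)

theorem chi_abs (τ v : ℝ) : chi τ |v| = chi τ v := by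
  rcases abs_choice v with h | h <;> rw [h]
  exact chi_neg τ v

variable {τ : ℝ}

theorem chi_pos (h0 : 0 < τ) (h1 : τ ≤ 1 / 8) {v : ℝ} (hv : 0 ≤ v) :
    chi τ v = st ((1 / 2 - τ / 2 - v) / (τ / 2)) := by
  unfold chi
  rw [st_one (u := (v + (1 / 2 - τ / 2)) / (τ / 2)), mul_one]
  rw [le_div_iff₀ (by positivity)]
  linarith

theorem chi_zero (h0 : 0 < τ) (h1 : τ ≤ 1 / 8) {v : ℝ} (hv : 1 / 2 - τ / 2 ≤ |v|) :
    chi τ v = 0 := by
  rw [← chi_abs, chi_pos h0 h1 (abs_nonneg v)]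
  exact st_zero (div_nonpos_of_nonpos_of_nonneg (by linarith) (by positivity))

theorem chi_one (h0 : 0 < τ) (h1 : τ ≤ 1 / 8) {v : ℝ} (hv : |v| ≤ 1 / 2 - τ) : chi τ v = 1 := by
  rw [← chi_abs, chi_pos h0 h1 (abs_nonneg v)]
  refine st_one ?_
  rw [le_div_iff₀ (by positivity)]
  linarith

theorem chi_anti (h0 : 0 < τ) (h1 : τ ≤ 1 / 8) {v v' : ℝ} (hv : 0 ≤ v) (h : v ≤ v') :
    chi τ v' ≤ chi τ v := by
  rw [chi_pos h0 h1 hv, chi_pos h0 h1 (hv.trans h)]
  exact Real.smoothTransition.monotone (div_le_div_of_nonneg_right (by linarith) (by positivity))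

theorem mono_aux (h0 : 0 < τ) (h1 : τ ≤ 1 / 8) : Monotone fun v => v - v * chi τ v := by
  have key : ∀ v v' : ℝ, 0 ≤ v → v ≤ v' → v - v * chi τ v ≤ v' - v' * chi τ v' := fun v v' hv h => by
    have a := chi_anti h0 h1 hv h
    have b := chi_le_one τ v'
    nlinarith [mul_nonneg hv (sub_nonneg.2 a), mul_nonneg (sub_nonneg.2 h) (sub_nonneg.2 b)]
  intro v v' h
  rcases le_total 0 v with hv | hv
  · exact key v v' hv h
  · rcases le_total 0 v' with hv' | hv'
    · have a := mul_nonneg hv' (sub_nonneg.2 (chi_le_one τ v'))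
      have b := mul_nonneg (neg_nonneg.2 hv) (sub_nonneg.2 (chi_le_one τ v))
      show v - v * chi τ v ≤ v' - v' * chi τ v'
      linarith
    · have := key (-v') (-v) (neg_nonneg.2 hv') (neg_le_neg h)
      rw [chi_neg, chi_neg] at this
      show v - v * chi τ v ≤ v' - v' * chi τ v'
      linarith

theorem chi_c2b {K : ℝ} (hK : 1 ≤ K) (hs : C2B st K K) (h0 : 0 < τ) :
    C2B (chi τ) (4 * K / τ) (16 * K ^ 2 / τ ^ 2) := by
  have ht : 0 < τ / 2 := by positivity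
  have hi : C2B (fun x : ℝ => x) 1 0 := C2B.id'
  have e1 : K * (1 / (τ / 2)) ≤ 2 * K / τ := le_of_eq (by field_simp)
  have e2 : K * (1 / (τ / 2)) ^ 2 + K * (0 / (τ / 2)) ≤ 4 * K / τ ^ 2 := le_of_eq (by field_simp; ring)
  have a := (hs.comp ((hi.const_sub (1 / 2 - τ / 2)).div_const ht)).mono e1 e2
  have b := (hs.comp ((hi.add_const (1 / 2 - τ / 2)).div_const ht)).mono e1 e2
  have h01 : ∀ u, |st u| ≤ 1 := fun u => by rw [abs_of_nonneg (st_nonneg u)]; exact st_le_one u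
  refine (C2B.mul (fun y => h01 _) a (fun y => h01 _) b).mono (le_of_eq (by ring)) ?_
  have e : 4 * K / τ ^ 2 * 1 + 2 * (2 * K / τ) * (2 * K / τ) + 1 * (4 * K / τ ^ 2) =
      (8 * K + 8 * K ^ 2) / τ ^ 2 := by field_simp; ring
  rw [e]
  exact div_le_div_of_nonneg_right (by nlinarith) (by positivity)

end OneD2X

open OneD2X

theorem exists_saw : ∃ K : ℝ, 1 ≤ K ∧ ∀ c τ : ℝ, 0 < c → c ≤ 1 → 0 < τ → τ ≤ 1 / 8 →
    ∃ D : ℝ → ℝ, C2B D (K / τ) (K / τ ^ 2) ∧ (∀ u, |D u| ≤ 1 / 2) ∧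
      (∀ u u', u' ≤ u → D u - D u' ≤ (1 - c) * (u - u')) ∧ (∀ u, deriv D u ≤ 1 - c) ∧
      (∀ (u : ℝ) (n : ℤ), |u - n| ≤ 1 / 2 - τ → D u = (1 - c) * (u - n)) ∧
      (∀ u : ℝ, (∀ n : ℤ, τ < |u - n - 1 / 2|) → deriv D u = 1 - c) := by
  obtain ⟨K, hK, hs, -, -⟩ := exists_K0
  refine ⟨24 * K ^ 2, by nlinarith, fun c τ hc hc1 h0 h1 => ?_⟩
  have hχ : ∀ v, |chi τ v| ≤ 1 := fun v => by
    rw [abs_of_nonneg (chi_nonneg τ v)]; exact chi_le_one τ v
  have hg := id_mul (chi_c2b hK hs h0) hχ fun v hv => chi_zero h0 h1 (by linarith)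
  have hca : |1 - c| ≤ 1 := by rw [abs_of_nonneg (by linarith)]; linarith
  have hf : C2B (fun v => (1 - c) * (v * chi τ v)) (24 * K ^ 2 / τ) (24 * K ^ 2 / τ ^ 2) := by
    refine (hg.const_mul (1 - c)).mono ?_ ?_
    · refine (mul_le_of_le_one_left hg.nonneg1 hca).trans ?_
      rw [le_div_iff₀ h0, add_mul, div_mul_cancel₀ _ h0.ne']
      nlinarith
    · refine (mul_le_of_le_one_left hg.nonneg2 hca).trans ?_
      have e : 2 * (4 * K / τ) + 16 * K ^ 2 / τ ^ 2 = (8 * K * τ + 16 * K ^ 2) / τ ^ 2 := by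
        field_simp; ring
      rw [e]
      exact div_le_div_of_nonneg_right (by nlinarith) (by positivity)
  have ha : 1 / 2 - τ / 2 < 1 / 2 := by linarith
  have hz : ∀ v : ℝ, 1 / 2 - τ / 2 ≤ |v| → (1 - c) * (v * chi τ v) = 0 := fun v hv => by
    rw [chi_zero h0 h1 hv]; simp
  have hD := per hf ha hz
  have hd : ∀ u, deriv (fun u : ℝ => (1 - c) * ((u - round u) * chi τ (u - round u))) u ≤ 1 - c := by
    intro u
    rw [per_deriv (f := fun v => (1 - c) * (v * chi τ v)) ha hz u, deriv_const_mul_field']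
    have d1 := (mono_aux h0 h1).deriv_nonneg (x := u - round u)
    have d2 := ((hasDerivAt_id' (u - round u)).fun_sub (hg.diff (u - round u)).hasDerivAt).deriv
    rw [d2] at d1
    exact mul_le_of_le_one_right (by linarith) (by linarith)
  have he : ∀ (u : ℝ) (n : ℤ), |u - n| ≤ 1 / 2 - τ →
      (1 - c) * ((u - round u) * chi τ (u - round u)) = (1 - c) * (u - n) := fun u n h => by
    rw [round_eq' (n := n) (by linarith), chi_one h0 h1 h, mul_one]
  refine ⟨fun u => (1 - c) * ((u - round u) * chi τ (u - round u)), hD, fun u => ?_,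
    fun u u' h => image_sub_le_mul_sub_of_deriv_le hD.diff hd h, hd, he, fun u h => ?_⟩
  · rw [abs_mul, abs_mul]
    have a := mul_le_mul (abs_sub_round u) (hχ (u - round u)) (abs_nonneg _) (by norm_num)
    have b := mul_le_mul hca a (by positivity) zero_le_one
    linarith
  · have a := abs_le.1 (abs_sub_round u)
    have b := h (round u)
    have b' := h (round u - 1)
    rw [abs_of_nonpos (by linarith)] at b
    push_cast at b'
    rw [abs_of_nonneg (by linarith)] at b'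
    have o : |u - round u| < 1 / 2 - τ := by rw [abs_lt]; constructor <;> linarith
    have ev : ∀ᶠ w : ℝ in 𝓝 u, |w - round u| < 1 / 2 - τ :=
      (by fun_prop : Continuous fun w : ℝ => |w - round u|).continuousAt.eventually (gt_mem_nhds o)
    have ev' : (fun w : ℝ => (1 - c) * ((w - round w) * chi τ (w - round w))) =ᶠ[𝓝 u]
        fun w => (1 - c) * (w - round u) := ev.mono fun w hw => he w _ hw.le
    rw [ev'.deriv_eq]
    exact (((hasDerivAt_id' u).sub_const ((round u : ℤ) : ℝ)).const_mul (1 - c)).deriv.trans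
      (mul_one _)

theorem exists_bump : ∃ K : ℝ, 1 ≤ K ∧ ∀ a : ℝ, 0 < a → a ≤ 1 / 8 →
    ∃ ψ : ℝ → ℝ, C2B ψ (K / a) (K / a ^ 2) ∧ (∀ u, 0 ≤ ψ u ∧ ψ u ≤ 1) ∧
      (∀ (u : ℝ) (n : ℤ), |u - n| ≤ a → ψ u = 1) ∧ (∀ u : ℝ, ψ u ≠ 0 → ∃ n : ℤ, |u - n| ≤ 2 * a) := by
  obtain ⟨K, hK, -, hs, -⟩ := exists_K0
  refine ⟨K, hK, fun a h0 h1 => ?_⟩
  have hf : C2B (fun v : ℝ => zeta (v / a)) (K / a) (K / a ^ 2) :=
    (hs.comp (C2B.id'.div_const h0)).mono (le_of_eq (by ring)) (le_of_eq (by ring))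
  have hz : ∀ v : ℝ, 2 * a ≤ |v| → zeta (v / a) = 0 := fun v hv => by
    refine zeta_zero ?_
    rwa [abs_div, abs_of_pos h0, le_div_iff₀ h0]
  refine ⟨fun u => zeta ((u - round u) / a), per hf (a := 2 * a) (by linarith) hz,
    fun u => ⟨zeta_nonneg _, zeta_le_one _⟩, fun u n h => ?_, fun u h => ⟨round u, ?_⟩⟩
  · beta_reduce
    rw [round_eq' (u := u) (n := n) (by linarith)]
    refine zeta_one ?_
    rwa [abs_div, abs_of_pos h0, div_le_one h0]
  · by_contra hc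
    exact h (hz _ (not_le.1 hc).le)

end SJ

end

section

namespace SJ
open Set Filter Topology MeasureTheory Metric Function
open scoped ENNReal

namespace GridX

theorem sep_arith {ι : Type} (T : Finset ι) (p : ι → ℕ)
    (hcop : ∀ k l, k ≠ l → Nat.Coprime (p k) (p l)) (P u δ : ℝ) (d : ℕ) (hd : 1 ≤ d)
    (hT : d ≤ T.card) (hP : 1 ≤ P) (hp : ∀ k, P ≤ p k) (hu : 0 < u)
    (h : ∀ k ∈ T, ∃ j : ℤ, |δ - u * (((p k : ℤ) * j : ℤ) : ℝ)| ≤ u / 4) :
    |δ| ≤ u / 4 ∨ u * P ^ d - u / 4 ≤ |δ| := by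
  classical
  have hne : T.Nonempty := Finset.card_pos.mp (by omega)
  obtain ⟨k0, hk0⟩ := hne
  obtain ⟨j0, hj0⟩ := h k0 hk0
  set z : ℤ := (p k0 : ℤ) * j0 with hz
  have hdiv : ∀ k ∈ T, (p k : ℤ) ∣ z := by
    intro k hk
    obtain ⟨j, hj⟩ := h k hk
    have h1 : |(((p k : ℤ) * j : ℤ) : ℝ) - (z : ℝ)| < 1 := by
      rw [abs_le] at hj hj0
      rw [abs_lt]
      constructor
      · by_contra hc
        push Not at hc
        nlinarith [hj.1, hj.2, hj0.1, hj0.2]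
      · by_contra hc
        push Not at hc
        nlinarith [hj.1, hj.2, hj0.1, hj0.2]
    have h2 : |(p k : ℤ) * j - z| < 1 := by exact_mod_cast h1
    have h3 : (p k : ℤ) * j - z = 0 := by
      rw [abs_lt] at h2; omega
    exact ⟨j, by linarith⟩
  have hprod : (∏ k ∈ T, (p k : ℤ)) ∣ z := by
    refine Finset.prod_dvd_of_coprime ?_ hdiv
    intro k _ l _ hkl
    exact Nat.isCoprime_iff_coprime.mpr (hcop k l hkl)
  by_cases hz0 : z = 0
  · left
    rw [hz0] at hj0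
    simpa using hj0
  · right
    have h1 : (∏ k ∈ T, (p k : ℤ)) ≤ |z| := Int.le_of_dvd (abs_pos.mpr hz0) ((dvd_abs _ _).mpr hprod)
    have h2 : (∏ k ∈ T, (p k : ℝ)) ≤ |(z : ℝ)| := by exact_mod_cast h1
    have h3 : P ^ T.card ≤ ∏ k ∈ T, (p k : ℝ) := by
      rw [← Finset.prod_const]
      exact Finset.prod_le_prod (fun _ _ => by linarith) (fun k _ => hp k)
    have h4 : P ^ d ≤ P ^ T.card := pow_le_pow_right₀ hP hT
    have h5 : u * P ^ d ≤ |u * (z : ℝ)| := by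
      rw [abs_mul, abs_of_pos hu]
      exact mul_le_mul_of_nonneg_left (by linarith) hu.le
    have h6 : |u * (z : ℝ)| ≤ |δ| + |δ - u * (z : ℝ)| := by
      have := abs_sub δ (δ - u * (z : ℝ))
      simpa using this
    linarith

theorem sum_le_card {ι : Type} [Fintype ι] (f : ι → ℝ) (h : ∀ k, f k ≤ 1) [DecidablePred fun k => f k ≠ 0] :
    ∑ k, f k ≤ ((Finset.univ.filter fun k => f k ≠ 0).card : ℝ) := by
  rw [← Finset.sum_filter_ne_zero]
  calc ∑ k ∈ Finset.univ.filter fun k => f k ≠ 0, f k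
      ≤ ∑ k ∈ Finset.univ.filter fun k => f k ≠ 0, (1 : ℝ) := Finset.sum_le_sum fun k _ => h k
    _ = _ := by simp

theorem card_le_sum {ι : Type} [Fintype ι] (f : ι → ℝ) (h : ∀ k, 0 ≤ f k) (T : Finset ι)
    (hT : ∀ k ∈ T, f k = 1) : (T.card : ℝ) ≤ ∑ k, f k := by
  calc (T.card : ℝ) = ∑ k ∈ T, f k := by
        rw [Finset.sum_congr rfl hT]; simp
    _ ≤ _ := Finset.sum_le_sum_of_subset_of_nonneg (Finset.subset_univ _) fun k _ _ => h k

theorem cnt_le (I : Finset ℕ) (c u t : ℝ) (hu : 0 < u)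
    [DecidablePred fun n : ℕ => |(c - n * u / 128) - t| ≤ 4 * (u / 16)] :
    (I.filter fun n : ℕ => |(c - n * u / 128) - t| ≤ 4 * (u / 16)).card ≤ 65 := by
  set A : ℝ := (c - t - u / 4) * 128 / u with hA
  have hAu : A * u = (c - t - u / 4) * 128 := by rw [hA]; field_simp
  have hsub : (I.filter fun n : ℕ => |(c - n * u / 128) - t| ≤ 4 * (u / 16)) ⊆
      Finset.Icc ⌈A⌉₊ (⌈A⌉₊ + 64) := by
    intro n hn
    have hn' := (Finset.mem_filter.mp hn).2
    rw [abs_le] at hn'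
    have h1 : A ≤ n := by
      by_contra hc
      push Not at hc
      nlinarith [hn'.1, hn'.2]
    have h2 : (n : ℝ) ≤ A + 64 := by
      by_contra hc
      push Not at hc
      nlinarith [hn'.1, hn'.2]
    rw [Finset.mem_Icc]
    refine ⟨Nat.ceil_le.mpr h1, ?_⟩
    have h3 : A ≤ (⌈A⌉₊ : ℝ) := Nat.le_ceil A
    have h4 : (n : ℝ) ≤ ((⌈A⌉₊ + 64 : ℕ) : ℝ) := by push_cast; linarith
    exact_mod_cast h4
  have := Finset.card_le_card hsub
  rw [Nat.card_Icc] at this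
  omega

theorem summand_c2b {ι : Type} [Fintype ι] (k : ι) {ψ : ℝ → ℝ} {K q u : ℝ} (s w : ℝ) (hq : 0 < q)
    (hu : 0 < u) (h : C2B ψ (K / (1 / (16 * q))) (K / (1 / (16 * q)) ^ 2)) :
    C2B (fun x : ι → ℝ => ψ ((x k - s + w) / (q * u))) (K / (u / 16)) (K / (u / 16) ^ 2) := by
  have h1 := (((C2B.coord k).sub_const s).add_const w).div_const (mul_pos hq hu)
  have h2 := h.comp h1
  refine h2.mono (le_of_eq ?_) (le_of_eq ?_)
  · field_simp
  · field_simp
    ring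

end GridX

open Classical in
theorem grid_cs (ι : Type) [Fintype ι] (m d : ℕ) (hd : 1 ≤ d)
    (hN : 2 * m + d + 2 ≤ Fintype.card ι) : ∃ K : ℝ, 1 ≤ K ∧
    ∀ (p : ι → ℕ) (P u D : ℝ) (ω : ι → ℝ), (∀ k l, k ≠ l → Nat.Coprime (p k) (p l)) →
      1 ≤ P → (∀ k, P ≤ p k) → 0 < u → u ≤ D →
      ∃ (I : Finset ℕ) (W : ℕ → (ι → ℝ) → ℝ) (s : ℕ → ℝ),
        CS I W s (u / 16) (u * P ^ d - u / 4) K ∧ (∀ n ∈ I, s n ≤ -D / 2) ∧
        ∀ (x : ι → ℝ) (t : ℝ), -2 ≤ t → t ≤ -D →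
          Fintype.card ι ≤ m + (Finset.univ.filter fun k =>
            ∃ n : ℤ, |x k - t + ω k - p k * u * n| ≤ u / 32).card →
          ∃ J ⊆ I, 5 ≤ J.card ∧ ∀ n ∈ J, W n x = 1 ∧ |s n - t| ≤ u / 16 / 2 := by
  obtain ⟨K1, hK1, hb⟩ := exists_bump
  obtain ⟨K0, hK0, hst, -, -⟩ := exists_K0
  set N : ℝ := (Fintype.card ι : ℝ) with hNdef
  have hN0 : 0 ≤ N := Nat.cast_nonneg _
  have hNK : 0 ≤ N * K1 := by positivity
  have hA : 0 ≤ K0 * (N * K1) ^ 2 := by positivity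
  have hB : 0 ≤ K0 * (N * K1) := by positivity
  refine ⟨K0 * (N * K1) ^ 2 + K0 * (N * K1) + 65, by linarith, ?_⟩
  intro p P u D ω hcop hP hp hu huD
  have hp1 : ∀ k, (1 : ℝ) ≤ p k := fun k => hP.trans (hp k)
  have hp0 : ∀ k, (0 : ℝ) < p k := fun k => by linarith [hp1 k]
  have hex : ∀ k, ∃ ψ : ℝ → ℝ, C2B ψ (K1 / (1 / (16 * (p k : ℝ)))) (K1 / (1 / (16 * (p k : ℝ))) ^ 2) ∧
      (∀ v, 0 ≤ ψ v ∧ ψ v ≤ 1) ∧
      (∀ (v : ℝ) (n : ℤ), |v - n| ≤ 1 / (16 * (p k : ℝ)) → ψ v = 1) ∧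
      (∀ v : ℝ, ψ v ≠ 0 → ∃ n : ℤ, |v - n| ≤ 2 * (1 / (16 * (p k : ℝ)))) := by
    intro k
    have := hp0 k
    refine hb _ (by positivity) ?_
    rw [div_le_div_iff₀ (by positivity) (by norm_num)]
    linarith [hp1 k]
  choose ψ hψC hψ01 hψ1 hψ0 using hex
  let g : ℝ → ι → (ι → ℝ) → ℝ := fun s k x => ψ k ((x k - s + ω k) / (p k * u))
  let cn : ℝ → (ι → ℝ) → ℝ := fun s x => ∑ k, g s k x
  have hcn : ∀ s, C2B (cn s) (N * (K1 / (u / 16))) (N * (K1 / (u / 16) ^ 2)) := by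
    intro s
    have := C2B.sum (Finset.univ : Finset ι) (f := g s)
      (fun k _ => GridX.summand_c2b k s (ω k) (hp0 k) hu (hψC k))
    simpa only [Finset.card_univ] using this
  let s : ℕ → ℝ := fun n => -D / 2 - n * u / 128
  let W : ℕ → (ι → ℝ) → ℝ := fun n x => st (cn (s n) x - (N - m - 1))
  have hκ : 0 < u / 16 := by positivity
  have hts : ∀ n x, x ∈ tsupport (W n) →
      N - m - 1 ≤ ((Finset.univ.filter fun k => g (s n) k x ≠ 0).card : ℝ) := by
    intro n x hx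
    have hcl : IsClosed {x | N - m - 1 ≤ cn (s n) x} :=
      isClosed_le continuous_const (hcn (s n)).cont
    have hsub : support (W n) ⊆ {x | N - m - 1 ≤ cn (s n) x} := by
      intro y hy
      by_contra hc
      have hc' : cn (s n) y < N - m - 1 := not_le.mp hc
      exact hy (st_zero (by linarith))
    have h1 : N - m - 1 ≤ cn (s n) x := closure_minimal hsub hcl hx
    exact h1.trans (GridX.sum_le_card (fun k => g (s n) k x) fun k => (hψ01 k _).2)
  refine ⟨Finset.range (⌊256 / u⌋₊ + 5), W, s, ⟨hκ, fun n x => ⟨st_nonneg _, st_le_one _⟩, ?_, ?_, ?_⟩,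
    ?_, ?_⟩
  · intro n
    have h1 := hst.comp ((hcn (s n)).sub_const (N - m - 1))
    refine h1.mono ?_ ?_
    · rw [show K0 * (N * (K1 / (u / 16))) = (K0 * (N * K1)) / (u / 16) by ring]
      exact div_le_div_of_nonneg_right (by linarith) hκ.le
    · rw [show K0 * (N * (K1 / (u / 16))) ^ 2 + K0 * (N * (K1 / (u / 16) ^ 2)) =
        (K0 * (N * K1) ^ 2 + K0 * (N * K1)) / (u / 16) ^ 2 by field_simp]
      exact div_le_div_of_nonneg_right (by linarith) (by positivity)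
  · intro n _ n' _ x hx hx'
    have h1 := hts n x hx
    have h2 := hts n' x hx'
    set A := Finset.univ.filter fun k => g (s n) k x ≠ 0 with hAdef
    set A' := Finset.univ.filter fun k => g (s n') k x ≠ 0 with hA'def
    have h3 := Finset.card_inter_add_card_union A A'
    have h4 : (A ∪ A').card ≤ Fintype.card ι := Finset.card_le_univ _
    have h5 : d ≤ (A ∩ A').card := by
      have e3 : (((A ∩ A').card : ℝ) + (A ∪ A').card) = A.card + A'.card := by exact_mod_cast h3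
      have e4 : ((A ∪ A').card : ℝ) ≤ N := by rw [hNdef]; exact_mod_cast h4
      have e5 : (2 * m + d + 2 : ℝ) ≤ N := by rw [hNdef]; exact_mod_cast hN
      have e6 : (d : ℝ) ≤ (A ∩ A').card := by linarith
      exact_mod_cast e6
    have h6 := GridX.sep_arith (A ∩ A') p hcop P u (s n - s n') d hd h5 hP hp hu ?_
    · rcases h6 with h6 | h6
      · left; linarith
      · right; exact h6
    · intro k hk
      obtain ⟨hk1, hk2⟩ := Finset.mem_inter.mp hk
      obtain ⟨a, ha⟩ := hψ0 k _ (Finset.mem_filter.mp hk1).2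
      obtain ⟨b, hb'⟩ := hψ0 k _ (Finset.mem_filter.mp hk2).2
      refine ⟨b - a, ?_⟩
      have hq := hp0 k
      have hμ : 0 < (p k : ℝ) * u := mul_pos hq hu
      have e1 : s n - s n' - u * ((((p k : ℕ) : ℤ) * (b - a) : ℤ) : ℝ) =
          (p k * u) * (((x k - s n' + ω k) / (p k * u) - b) - ((x k - s n + ω k) / (p k * u) - a)) := by
        push_cast
        field_simp
        ring
      rw [e1, abs_mul, abs_of_pos hμ]
      have e2 : |((x k - s n' + ω k) / (p k * u) - b) - ((x k - s n + ω k) / (p k * u) - a)| ≤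
          4 * (1 / (16 * (p k : ℝ))) := by
        refine (abs_sub _ _).trans ?_
        linarith
      calc _ ≤ (p k * u) * (4 * (1 / (16 * (p k : ℝ)))) := mul_le_mul_of_nonneg_left e2 hμ.le
        _ = u / 4 := by field_simp; norm_num
  · intro t
    have h1 := GridX.cnt_le (Finset.range (⌊256 / u⌋₊ + 5)) (-D / 2) u t hu
    have h2 : (((Finset.range (⌊256 / u⌋₊ + 5)).filter
        fun n : ℕ => |(-D / 2 - n * u / 128) - t| ≤ 4 * (u / 16)).card : ℝ) ≤ 65 := by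
      exact_mod_cast h1
    refine le_trans (le_of_eq ?_) (h2.trans (by linarith))
    rfl
  · intro n _
    have : (0 : ℝ) ≤ n * u / 128 := by positivity
    show -D / 2 - n * u / 128 ≤ -D / 2
    linarith
  · intro x t ht1 ht2 hcard
    set B : ℝ := (-D / 2 - t) * 128 / u with hBdef
    have hBu : B * u = (-D / 2 - t) * 128 := by rw [hBdef]; field_simp
    have hB0 : 0 ≤ B := by
      rw [hBdef]
      exact div_nonneg (by linarith) hu.le
    have hB1 : B ≤ 256 / u := by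
      rw [hBdef]
      exact div_le_div_of_nonneg_right (by linarith) hu.le
    have hf := Nat.floor_le_floor hB1
    have hf1 : (⌊B⌋₊ : ℝ) ≤ B := Nat.floor_le hB0
    have hf2 : B < ⌊B⌋₊ + 1 := Nat.lt_floor_add_one B
    refine ⟨Finset.Icc ⌊B⌋₊ (⌊B⌋₊ + 4), ?_, by rw [Nat.card_Icc]; omega, ?_⟩
    · intro n hn
      rw [Finset.mem_Icc] at hn
      rw [Finset.mem_range]
      omega
    · intro n hn
      rw [Finset.mem_Icc] at hn
      have g1 : (⌊B⌋₊ : ℝ) ≤ n := by exact_mod_cast hn.1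
      have g2 : (n : ℝ) ≤ ⌊B⌋₊ + 4 := by exact_mod_cast hn.2
      have hs : |s n - t| ≤ u / 32 := by
        show |-D / 2 - n * u / 128 - t| ≤ u / 32
        rw [abs_le]
        constructor <;> nlinarith
      refine ⟨?_, by linarith⟩
      apply st_one
      have h1 := GridX.card_le_sum (fun k => g (s n) k x) (fun k => (hψ01 k _).1)
        (Finset.univ.filter fun k => ∃ n : ℤ, |x k - t + ω k - p k * u * n| ≤ u / 32) ?_
      · have h2 : N ≤ m + ((Finset.univ.filter fun k =>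
            ∃ n : ℤ, |x k - t + ω k - p k * u * n| ≤ u / 32).card : ℝ) := by
          rw [hNdef]; exact_mod_cast hcard
        show 1 ≤ (∑ k, g (s n) k x) - (N - m - 1)
        linarith
      · intro k hk
        obtain ⟨a, ha⟩ := (Finset.mem_filter.mp hk).2
        refine hψ1 k _ a ?_
        have hq := hp0 k
        have hμ : 0 < (p k : ℝ) * u := mul_pos hq hu
        have e1 : (x k - s n + ω k) / (p k * u) - a =
            ((x k - t + ω k - p k * u * a) - (s n - t)) / (p k * u) := by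
          field_simp
          ring
        rw [e1, abs_div, abs_of_pos hμ, div_le_iff₀ hμ]
        have e2 : 1 / (16 * (p k : ℝ)) * (p k * u) = u / 16 := by field_simp
        rw [e2]
        refine (abs_sub _ _).trans ?_
        linarith

theorem exists_coprime_family (ι : Type) [Fintype ι] (c : ℕ) :
    ∃ p : ι → ℕ, (∀ k l, k ≠ l → Nat.Coprime (p k) (p l)) ∧
      ∀ k, (Fintype.card ι).factorial * c + 1 ≤ p k ∧
        p k ≤ Fintype.card ι * ((Fintype.card ι).factorial * c) + 1 := by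
  let e := Fintype.equivFin ι
  refine ⟨fun k => ((e k).val + 1) * ((Fintype.card ι).factorial * c) + 1, ?_, ?_⟩
  · have key : ∀ i j : Fin (Fintype.card ι), i.val < j.val →
        Nat.Coprime ((i.val + 1) * ((Fintype.card ι).factorial * c) + 1)
          ((j.val + 1) * ((Fintype.card ι).factorial * c) + 1) := by
      intro i j hij
      refine Nat.coprime_mul_succ (Dvd.dvd.mul_right (Nat.dvd_factorial (by omega) ?_) c)
      have := j.isLt
      omega
    intro k l hkl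
    have hne : (e k).val ≠ (e l).val := fun h => hkl (e.injective (Fin.ext h))
    rcases lt_or_gt_of_ne hne with h | h
    · exact key _ _ h
    · exact (key _ _ h).symm
  · intro k
    have h := (e k).isLt
    constructor
    · have : 1 * ((Fintype.card ι).factorial * c) ≤ ((e k).val + 1) * ((Fintype.card ι).factorial * c) :=
        Nat.mul_le_mul_right _ (by omega)
      simp only
      omega
    · have : ((e k).val + 1) * ((Fintype.card ι).factorial * c) ≤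
          Fintype.card ι * ((Fintype.card ι).factorial * c) := Nat.mul_le_mul_right _ (by omega)
      simp only
      omega

end SJ

end

section

namespace SJ
open Set Filter Topology MeasureTheory Metric Function
open scoped ENNReal

namespace VertSX
variable {X : Type*} [NormedAddCommGroup X] [NormedSpace ℝ X]

/-- the vertical shift -/
noncomputable def sh (q e e2 : X × ℝ → ℝ) (h : ℝ) (y : X × ℝ) : ℝ :=
  st (q y - 1) * zeta (e y / (h / 2)) * e2 (y.1, y.2 - e y)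

theorem comp1 {E : Type*} [NormedAddCommGroup E] [NormedSpace ℝ E] {g : ℝ → ℝ} {φ : E → ℝ}
    {K0 K1 w : ℝ} (h1 : 1 ≤ K1) (hw : 0 ≤ w) (hg : C2B g K0 K0)
    (hφ : C2B φ (K1 * w) (K1 * w ^ 2)) :
    C2B (fun y => g (φ y)) (K0 * (K1 ^ 2 + K1) * w) (K0 * (K1 ^ 2 + K1) * w ^ 2) := by
  have h0 := hg.nonneg1
  refine (hg.comp hφ).mono ?_ (le_of_eq (by ring))
  have : 0 ≤ K0 * K1 ^ 2 * w := by positivity
  nlinarith

theorem sh_c2b {K0 K1 : ℝ} (h0 : 1 ≤ K0) (h1 : 1 ≤ K1) (hst : C2B st K0 K0)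
    (hz : C2B zeta K0 K0) : ∃ R : ℝ, 0 ≤ R ∧ ∀ (q e e2 : X × ℝ → ℝ) (κ w h : ℝ), 0 < κ →
      1 ≤ κ * w → 2 * κ ≤ h → C2B q (K1 * w) (K1 * w ^ 2) → C2B e K1 (K1 / κ) →
      (∀ y, |e2 y| ≤ 256 * κ) → C2B e2 (K1 * (κ * w)) (K1 * (κ * w ^ 2)) →
      C2B (sh q e e2 h) (R * (κ * w)) (R * (κ * w ^ 2)) := by
  obtain ⟨M, hM⟩ : ∃ M, M = K0 * (K1 ^ 2 + K1) := ⟨_, rfl⟩
  obtain ⟨N, hN⟩ : ∃ N, N = K1 * (1 + K1) ^ 2 + K1 ^ 2 := ⟨_, rfl⟩
  have M0 : 0 ≤ M := by rw [hM]; positivity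
  have N0 : 0 ≤ N := by rw [hN]; positivity
  refine ⟨256 * (2 * M + 2 * M ^ 2) + 2 * (2 * M + 2 * M ^ 2) * N + N, by positivity, ?_⟩
  intro q e e2 κ w h hκ hw hh hq he hb he2
  have w0 : 0 < w := by
    by_contra hn
    nlinarith [mul_nonneg hκ.le (neg_nonneg.2 (not_lt.1 hn))]
  have iw : κ⁻¹ ≤ w := by
    rw [inv_le_iff_one_le_mul₀' hκ]; exact hw
  have i0 : 0 ≤ κ⁻¹ := inv_nonneg.2 hκ.le
  have ih : (h / 2)⁻¹ ≤ w := (inv_anti₀ hκ (by linarith)).trans iw
  have a1 := comp1 h1 w0.le hst (hq.sub_const 1)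
  have a2 : C2B (fun y => e y / (h / 2)) (K1 * w) (K1 * w ^ 2) := by
    refine (he.div_const (by linarith)).mono ?_ ?_
    · rw [div_eq_mul_inv]; gcongr
    · rw [div_eq_mul_inv, div_eq_mul_inv K1, mul_assoc, pow_two]
      have : 0 ≤ (h / 2)⁻¹ := inv_nonneg.2 (by linarith)
      gcongr
  have a3 := comp1 h1 w0.le hz a2
  rw [← hM] at a1 a3
  have b1 : ∀ y, |st (q y - 1)| ≤ 1 := fun y => by
    rw [abs_of_nonneg (st_nonneg _)]; exact st_le_one _
  have b2 : ∀ y, |zeta (e y / (h / 2))| ≤ 1 := fun y => by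
    rw [abs_of_nonneg (zeta_nonneg _)]; exact zeta_le_one _
  have a4 : C2B (fun y => st (q y - 1) * zeta (e y / (h / 2))) ((2 * M + 2 * M ^ 2) * w)
      ((2 * M + 2 * M ^ 2) * w ^ 2) := by
    refine (C2B.mul b1 a1 b2 a3).mono ?_ (le_of_eq (by ring))
    have : 0 ≤ M ^ 2 * w := by positivity
    nlinarith
  have b3 : ∀ y, |st (q y - 1) * zeta (e y / (h / 2))| ≤ 1 := fun y => by
    rw [abs_mul]; exact mul_le_one₀ (b1 y) (abs_nonneg _) (b2 y)
  have k0 : 0 ≤ K1 / κ := he.nonneg2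
  have a5 : C2B (fun y : X × ℝ => (y.1, y.2 - e y)) (1 + K1) (K1 / κ) :=
    (C2B.fst'.mono (by linarith) k0).prodMk ((C2B.snd'.sub he).mono le_rfl (by linarith))
  have a6 : C2B (fun y : X × ℝ => e2 (y.1, y.2 - e y)) (N * (κ * w)) (N * (κ * w ^ 2)) := by
    refine (he2.comp a5).mono ?_ ?_
    · have : K1 * (1 + K1) ≤ N := by rw [hN]; nlinarith [mul_nonneg (by linarith : 0 ≤ K1) (by
        linarith : 0 ≤ K1), mul_nonneg (by linarith : 0 ≤ K1) (sq_nonneg K1)]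
      calc K1 * (κ * w) * (1 + K1) = K1 * (1 + K1) * (κ * w) := by ring
        _ ≤ _ := by gcongr
    · have e1 : K1 * (κ * w) * (K1 / κ) = K1 ^ 2 * w := by field_simp
      have e2 : K1 ^ 2 * w ≤ K1 ^ 2 * (κ * w ^ 2) := by
        have : w ≤ κ * w ^ 2 := by nlinarith
        gcongr
      rw [e1, hN]
      nlinarith
  refine (C2B.mul b3 a4 (fun y => hb _) a6).mono ?_ (le_of_eq (by ring))
  have : 0 ≤ 2 * (2 * M + 2 * M ^ 2) * N * (κ * w) := by positivity
  nlinarith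

theorem sh_lip {K0 κ : ℝ} (h0 : 1 ≤ K0) (hκ : 0 < κ) (hz : C2B zeta K0 K0) {q e e2 : X × ℝ → ℝ}
    (hq : Continuous q) (he : Continuous e) (hd : Differentiable ℝ (sh q e e2 (4096 * K0 * κ)))
    (hc : ∀ y t, 1 ≤ q y → |e y| ≤ 4096 * K0 * κ → |t - (y.2 - e y)| ≤ 3 * (4096 * K0 * κ) / 2 →
      q (y.1, t) = q y ∧ e (y.1, t) = e y + (t - y.2))
    (hb : ∀ y, |e2 y| ≤ 256 * κ) (z : X) (t t' : ℝ) :
    |sh q e e2 (4096 * K0 * κ) (z, t) - sh q e e2 (4096 * K0 * κ) (z, t')| ≤ 1 / 8 * |t - t'| := by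
  set h := 4096 * K0 * κ with hh
  have hp : 0 < h := by positivity
  have cz : Continuous fun s : ℝ => ((z, s) : X × ℝ) := by fun_prop
  refine convex_univ.norm_image_sub_le_of_norm_deriv_le (f := fun s => sh q e e2 h (z, s))
    (fun s _ => (hd _).comp s (by fun_prop)) (fun s _ => ?_) (mem_univ t') (mem_univ t)
  refine norm_deriv_le_of_lip' (by norm_num) ?_
  by_cases hA : 1 ≤ q (z, s) ∧ |e (z, s)| ≤ h
  · filter_upwards [closedBall_mem_nhds s (half_pos hp)] with u hu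
    rw [mem_closedBall, Real.dist_eq] at hu
    have hu2 : |u - (s - e (z, s))| ≤ 3 * h / 2 := by
      rw [show u - (s - e (z, s)) = (u - s) + e (z, s) by ring]
      linarith [abs_add_le (u - s) (e (z, s)), hA.2]
    obtain ⟨c1, c2⟩ := hc (z, s) u hA.1 hA.2 hu2
    have c3 : u - (e (z, s) + (u - s)) = s - e (z, s) := by ring
    have c4 := hz.lip ((e (z, s) + (u - s)) / (h / 2)) (e (z, s) / (h / 2))
    rw [← sub_div, add_sub_cancel_left, Real.norm_eq_abs, Real.norm_eq_abs, abs_div,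
      abs_of_pos (half_pos hp)] at c4
    simp only [sh, Real.norm_eq_abs] at c1 c2 ⊢
    rw [c1, c2, c3, ← sub_mul, ← mul_sub, abs_mul, abs_mul, abs_of_nonneg (st_nonneg _)]
    calc _ ≤ 1 * (K0 * (|u - s| / (h / 2))) * (256 * κ) := by
          have := st_le_one (q (z, s) - 1)
          have := hb (z, s - e (z, s))
          have := st_nonneg (q (z, s) - 1)
          gcongr
      _ = _ := by rw [hh]; field_simp; ring
  · have key : ∀ u, q (z, u) < 1 ∨ h < |e (z, u)| → sh q e e2 h (z, u) = 0 := by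
      rintro u (hu | hu)
      · simp only [sh]; rw [st_zero (by linarith), zero_mul, zero_mul]
      · simp only [sh]
        rw [zeta_zero, mul_zero, zero_mul]
        rw [abs_div, abs_of_pos (half_pos hp), le_div_iff₀ (half_pos hp)]
        linarith
    have hs : q (z, s) < 1 ∨ h < |e (z, s)| := by
      by_contra hn
      rw [not_or, not_lt, not_lt] at hn
      exact hA hn
    have ho : IsOpen {u : ℝ | q (z, u) < 1 ∨ h < |e (z, u)|} :=
      (isOpen_lt (hq.comp cz) continuous_const).union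
        (isOpen_lt continuous_const (he.comp cz).abs)
    filter_upwards [ho.mem_nhds hs] with u hu
    rw [key u hu, key s hs, sub_zero, norm_zero]
    positivity

end VertSX

theorem vert_S {X : Type*} [NormedAddCommGroup X] [NormedSpace ℝ X] :
    ∃ Kh : ℝ, 64 ≤ Kh ∧ ∀ K1 : ℝ, 1 ≤ K1 → ∃ K : ℝ, 1 ≤ K ∧
    ∀ (q e e2 : X × ℝ → ℝ) (κ κ' : ℝ), 0 < κ' → κ' ≤ κ →
      C2B q (K1 / κ) (K1 / κ ^ 2) → C2B e K1 (K1 / κ) →
      (∀ y t, 1 ≤ q y → |e y| ≤ Kh * κ → |t - (y.2 - e y)| ≤ 3 * (Kh * κ) / 2 →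
        q (y.1, t) = q y ∧ e (y.1, t) = e y + (t - y.2)) →
      (∀ y, |e2 y| ≤ 256 * κ) → C2B e2 (K1 * κ / κ') (K1 * κ / κ' ^ 2) →
      ∃ S : X × ℝ → X × ℝ, C2B S (K * κ / κ') (K * κ / κ' ^ 2) ∧ (∀ y, (S y).1 = y.1) ∧
        Injective S ∧ (∀ z t t', |(S (z, t)).2 - (S (z, t')).2| ≤ 2 * |t - t'|) ∧
        (∀ y, ‖S y - y‖ ≤ 512 * κ) ∧ (∀ y, q y ≤ 1 → S y = y) ∧
        ∀ y, 2 ≤ q y → |e y| ≤ 16 * κ → S y = (y.1, y.2 + 2 * e2 (y.1, y.2 - e y)) := by
  obtain ⟨K0, h0, hst, hz, -⟩ := exists_K0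
  refine ⟨4096 * K0, by linarith, fun K1 h1 => ?_⟩
  obtain ⟨R, R0, hR⟩ := VertSX.sh_c2b (X := X) h0 h1 hst hz
  refine ⟨1 + 2 * R, by linarith, fun q e e2 κ κ' k0 k1 hq he hc hb he2 => ?_⟩
  have hκ : 0 < κ := k0.trans_le k1
  have hw : 1 ≤ κ * κ'⁻¹ := by rw [← div_eq_mul_inv, le_div_iff₀ k0]; linarith
  have w0 : 0 < κ'⁻¹ := inv_pos.2 k0
  have hh : 32 * κ ≤ 4096 * K0 * κ := by nlinarith
  have hs := hR q e e2 κ κ'⁻¹ (4096 * K0 * κ) hκ hw (by linarith)
    (hq.mono (by rw [← div_eq_mul_inv]; gcongr) (by rw [inv_pow, ← div_eq_mul_inv]; gcongr)) he hb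
    (he2.mono (le_of_eq (by ring)) (le_of_eq (by ring)))
  have hl := VertSX.sh_lip h0 hκ hz hq.cont he.cont hs.diff hc hb
  set f := VertSX.sh q e e2 (4096 * K0 * κ) with hf
  refine ⟨fun y => (y.1, y.2 + 2 * f y), ?_, fun _ => rfl, ?_, fun z t t' => ?_, fun y => ?_,
    fun y hy => ?_, fun y hy hy' => ?_⟩
  · have p1 : 0 ≤ R * (κ * κ'⁻¹) := by positivity
    have p2 : 0 ≤ κ * κ'⁻¹ ^ 2 := by positivity
    have p3 : 0 ≤ R * (κ * κ'⁻¹ ^ 2) := by positivity
    have e1 : (1 + 2 * R) * κ / κ' = κ * κ'⁻¹ + 2 * (R * (κ * κ'⁻¹)) := by ring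
    have e2 : (1 + 2 * R) * κ / κ' ^ 2 = κ * κ'⁻¹ ^ 2 + 2 * (R * (κ * κ'⁻¹ ^ 2)) := by ring
    rw [e1, e2]
    refine (C2B.fst'.mono (by linarith) (by linarith)).prodMk
      ((C2B.snd'.add (hs.const_mul 2)).mono ?_ ?_) <;> rw [abs_two] <;> linarith
  · rintro ⟨z, t⟩ ⟨z', t'⟩ hy
    simp only [Prod.mk.injEq] at hy
    obtain ⟨rfl, hy⟩ := hy
    have a := hl z t t'
    rw [show f (z, t) - f (z, t') = -(1 / 2) * (t - t') by linarith, abs_mul, abs_neg,
      abs_of_pos (by norm_num : (0 : ℝ) < 1 / 2)] at a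
    have b : |t - t'| = 0 := by linarith [abs_nonneg (t - t')]
    rw [sub_eq_zero.1 (abs_eq_zero.1 b)]
  · have a := hl z t t'
    have b := abs_add_le (t - t') (2 * (f (z, t) - f (z, t')))
    rw [abs_mul, abs_two] at b
    rw [show t + 2 * f (z, t) - (t' + 2 * f (z, t')) = t - t' + 2 * (f (z, t) - f (z, t')) by ring]
    linarith [abs_nonneg (t - t')]
  · have a : |f y| ≤ 1 * 1 * (256 * κ) := by
      simp only [hf, VertSX.sh]
      rw [abs_mul, abs_mul, abs_of_nonneg (st_nonneg _), abs_of_nonneg (zeta_nonneg _)]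
      have := st_le_one (q y - 1)
      have := zeta_le_one (e y / (4096 * K0 * κ / 2))
      have := zeta_nonneg (e y / (4096 * K0 * κ / 2))
      have := hb (y.1, y.2 - e y)
      gcongr
    rw [Prod.norm_def]
    simp only [Prod.fst_sub, Prod.snd_sub, sub_self, norm_zero, add_sub_cancel_left,
      Real.norm_eq_abs, abs_mul, abs_two]
    exact max_le (by positivity) (by linarith)
  · simp only [hf, VertSX.sh]
    rw [st_zero (by linarith)]
    simp
  · simp only [hf, VertSX.sh]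
    rw [st_one (by linarith), zeta_one, one_mul, one_mul]
    rw [abs_div, abs_of_pos (by linarith : 0 < 4096 * K0 * κ / 2), div_le_one (by linarith)]
    linarith

end SJ

end
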