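import Mathlib
import Pool.Agent.Mg.Xedaf86.G910084
import Pool.Agent.Mg.Xedaf86.G39d375

section

namespace SK
open SJ Set Filter Topology MeasureTheory Metric Function
open scoped ENNReal

/-- geometric scales -/
noncomputable def el (lam : ℝ) (j : ℕ) : ℝ := lam ^ j / 4

section Imp
variable {ι : Type} [Fintype ι] {E : Type} [NormedAddCommGroup E] [NormedSpace ℝ E]

/-- the implicit relation between a point z and its image y -/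
def ImpEq (J : (ι → ℝ) →L[ℝ] E) (Λ : E →L[ℝ] ι → ℝ) (F : ι → E × ℝ → ℝ) (z y : E) : Prop :=
  y = z + J fun k => F k (y, Λ z k)

/-- slope of the one dimensional move -/
noncomputable def slp (F : E × ℝ → ℝ) (p : E × ℝ) : ℝ := 1 + fderiv ℝ F p (0, 1)

structure ImpH (J : (ι → ℝ) →L[ℝ] E) (Λ : E →L[ℝ] ι → ℝ) (F : ι → E × ℝ → ℝ) : Prop where
  jl : ∀ v, Λ (J v) = v
  jn : ‖J‖ ≤ 1
  ln : ‖Λ‖ ≤ 2
  cd : ∀ k, ContDiff ℝ 2 (F k)
  ctr : ∀ k p a, |fderiv ℝ (F k) p (a, 0)| ≤ 1 / 2 * ‖a‖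

/-- sum of products -/
noncomputable def spF {ν : Type} [Fintype ν] (Θ : ν → E → ℝ) (u : ν → ℝ → ℝ) (p : E × ℝ) : ℝ :=
  ∑ n, Θ n p.1 * u n p.2

/-- activity and requirement weights at scale ℓ with window δ -/
structure Rg (K ℓ δ : ℝ) (m2 : ℕ) (act req : ι → E → ℝ) : Prop where
  a01 : ∀ k x, 0 ≤ act k x ∧ act k x ≤ 1
  r01 : ∀ k x, 0 ≤ req k x ∧ req k x ≤ 1
  aC : ∀ k, C2B (act k) (K / ℓ) (K / ℓ ^ 2)
  rC : ∀ k, C2B (req k) (K / ℓ) (K / ℓ ^ 2)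
  ra : ∀ k x x', ‖x - x'‖ ≤ δ → req k x' ≠ 0 → act k x = 1
  many : ∀ x, ∃ T : Finset ι, m2 ≤ T.card ∧ ∀ k ∈ T, ∀ x', ‖x' - x‖ ≤ δ → req k x' = 1

end Imp

/-- one dimensional profile of period p, relative width a and phase ω -/
structure Prf (M : ℕ) (K a p ω : ℝ) (u f : ℝ → ℝ) (c : ℝ) : Prop where
  uC : C2B u (1 / a) (K / (a ^ 2 * p))
  ub : ∀ v, |u v| ≤ p
  c1 : 1 ≤ c
  c2 : c ≤ 1 / a
  du : ∀ v, deriv u v = c * f v ^ M - 1
  ddu : ∀ v ν, 0 < ν → ν * |deriv (deriv u) v| ≤ K / (a * p) * (c * f v ^ M + c * ν ^ M)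
  f01 : ∀ v, 0 ≤ f v ∧ f v ≤ 1
  fC : C2B f (K / (a * p)) (K / (a * p) ^ 2)
  fs : ∀ v, f v ≠ 0 → ∃ n : ℤ, |v + ω - p * n| ≤ a * p

section Tpart
variable {ι : Type} [Fintype ι] [DecidableEq ι]

/-- smooth version of the (r+1)-th largest value -/
noncomputable def sm (r : ℕ) (b : ι → ℝ) : ℝ :=
  ∑ S ∈ Finset.univ.powersetCard (r + 1), (∑ k ∈ S, (b k)⁻¹)⁻¹

/-- the potential -/
noncomputable def pot (r : ℕ) (ε γ : ℝ) (b : ι → ℝ) : ℝ :=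
  ∑ S ∈ Finset.univ.powersetCard r, ∑ k ∈ Sᶜ, b k ^ ε * ∏ l ∈ S, b l ^ γ

noncomputable def smf (r : ℕ) (b : ι → (ι → ℝ) → ℝ) (x : ι → ℝ) : ℝ := sm r fun k => b k x

noncomputable def potf (r : ℕ) (ε γ : ℝ) (b : ι → (ι → ℝ) → ℝ) (x : ι → ℝ) : ℝ :=
  pot r ε γ fun k => b k x

noncomputable def cc (r : ℕ) (ω : ℝ) (b : ι → (ι → ℝ) → ℝ) (n : ℕ) (k : ι) (x : ι → ℝ) : ℝ :=
  if n = 0 then 1 else st (ω ^ n * (b k x / smf r b x) - 1)

noncomputable def ct (r : ℕ) (ω : ℝ) (b : ι → (ι → ℝ) → ℝ) (n : ℕ) (k : ι) (x : ι → ℝ) : ℝ :=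
  if n = 0 then 1 else st (18 * ω ^ n * (b k x / smf r b x) - 1)

noncomputable def th (r : ℕ) (ω : ℝ) (b : ι → (ι → ℝ) → ℝ) (n : ℕ) (k : ι) (x : ι → ℝ) : ℝ :=
  cc r ω b n k x - cc r ω b (n + 1) k x

noncomputable def actT (r L : ℕ) (ω : ℝ) (b : ι → (ι → ℝ) → ℝ) (k : ι) (x : ι → ℝ) : ℝ :=
  1 - cc r ω b L k x

noncomputable def reqT (r : ℕ) (b : ι → (ι → ℝ) → ℝ) (k : ι) (x : ι → ℝ) : ℝ :=
  1 - st ((9 * ((r : ℝ) + 1))⁻¹ * (b k x / smf r b x) - 1)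

/-- facts about the class weights -/
structure TW (K : ℝ) (r L : ℕ) (ω ℓ : ℝ) (b : ι → (ι → ℝ) → ℝ) : Prop where
  sL : Lg (smf r b) (2 * ℓ)
  ccC : ∀ n k, C2B (cc r ω b n k) (K / ℓ) (K / ℓ ^ 2)
  ctC : ∀ n k, C2B (ct r ω b n k) (K / ℓ) (K / ℓ ^ 2)
  thC : ∀ n k, C2B (th r ω b n k) (K / ℓ) (K / ℓ ^ 2)
  cc01 : ∀ n k x, 0 ≤ cc r ω b n k x ∧ cc r ω b n k x ≤ 1
  ct01 : ∀ n k x, 0 ≤ ct r ω b n k x ∧ ct r ω b n k x ≤ 1
  th0 : ∀ n k x, 0 ≤ th r ω b n k x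
  thS : ∀ k x, ∑ n : Fin L, th r ω b n k x = actT r L ω b k x
  thU : ∀ n k x, x ∈ tsupport (th r ω b n k) → ω ^ (n + 1) * b k x ≤ 2 * smf r b x
  thL : ∀ n k x x', ‖x - x'‖ ≤ ℓ → x' ∈ tsupport (th r ω b n k) → ct r ω b n k x = 1
  ccL : ∀ n k x x', ‖x - x'‖ ≤ ℓ → x' ∈ tsupport (cc r ω b n k) → ct r ω b n k x = 1
  ctN : ∀ n k x, 1 ≤ n → ct r ω b n k x ≠ 0 → smf r b x ≤ 18 * ω ^ n * b k x
  actU : ∀ k x x', ‖x - x'‖ ≤ ℓ → actT r L ω b k x' ≠ 0 → ω ^ L * b k x ≤ 18 * smf r b x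
  reg : Rg K ℓ ℓ (Fintype.card ι - r) (actT r L ω b) (reqT r b)

/-- numerical parameters of the degenerating step -/
structure TPar (d r L M : ℕ) (K η ω τ : ℝ) : Prop where
  K1 : 1 ≤ K
  hz : C2B zeta K K
  L1 : 1 ≤ L
  M2 : 2 ≤ M
  e0 : 0 < η
  w0 : 0 < ω
  he : 100 * ((d : ℝ) + 1) * ((L : ℝ) + 1) * K * η ≤ 1
  hw : 1000 * ((d : ℝ) + 1) * ((r : ℝ) + 1) * ((L : ℝ) + 1) * K * ω ≤ 1
  t0 : 0 < τ
  t1 : τ ≤ 1 / 2
  n1 : 128 * (M : ℝ) * K ^ 2 * ω ≤ η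
  n2 : ((L : ℝ) + 1) * (128 * (M : ℝ) * K ^ 2 * ω / η) ^ M ≤ τ * ω ^ L

/-- the profiles of one step -/
def PrfT (L M : ℕ) (K η ω ℓ : ℝ) (φ : ι → Fin L → ℝ) (u f : ι → Fin L → ℝ → ℝ)
    (c : ι → Fin L → ℝ) : Prop :=
  ∀ k (n : Fin L), Prf M K (ω ^ (L - n)) (η * ω ^ (n : ℕ) * ℓ) (φ k n) (u k n) (f k n) (c k n)

/-- the right hand side of the implicit equation on the horizontal space -/
noncomputable def FT {L : ℕ} (τ : ℝ) (θ : ι → Fin L → (ι → ℝ) → ℝ) (u : ι → Fin L → ℝ → ℝ)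
    (k : ι) : (ι → ℝ) × ℝ → ℝ :=
  spF (fun n x => (1 - τ) * θ k n x) (u k)

/-- majorant of the slope -/
noncomputable def fT (r L M : ℕ) (ω τ : ℝ) (b : ι → (ι → ℝ) → ℝ) (f : ι → Fin L → ℝ → ℝ)
    (c : ι → Fin L → ℝ) (k : ι) (x : ι → ℝ) : ℝ :=
  τ + ct r ω b L k x ^ M + ∑ n : Fin L, c k n * (f k n (x k) * ct r ω b n k x) ^ M

/-- the new column majorants -/
noncomputable def bN (r L M : ℕ) (ω τ : ℝ) (b : ι → (ι → ℝ) → ℝ) (f : ι → Fin L → ℝ → ℝ)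
    (c : ι → Fin L → ℝ) (k : ι) (x : ι → ℝ) : ℝ :=
  36 * (b k x + smf r b x / ω) * fT r L M ω τ b f c k x

/-- state of the degenerating construction -/
structure TS2 (r L : ℕ) (ω : ℝ) (g : (ι → ℝ) → ι → ℝ) (b : ι → (ι → ℝ) → ℝ) (U : (ι → ℝ) → ℝ)
    (ℓ : ℝ) : Prop where
  cd : ContDiff ℝ 2 g
  col : ∀ x k, ‖fderiv ℝ g x (Pi.single k 1)‖ ≤ b k x
  mix : ∀ x k v, ‖D2 g x (Pi.single k 1) v‖ ≤ b k x / ℓ * ‖v‖
  d2 : ∀ x, ‖D2 g x‖ ≤ U x / ℓ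
  lg : ∀ k, Lg (b k) (8 * ℓ)
  su : ∀ x, 18 * smf r b x ≤ ω ^ L * U x
  cu : Continuous U
  sv : SV U ℓ

/-- one degenerating move -/
structure HM (lam K ℓ : ℝ) (act : ι → (ι → ℝ) → ℝ) (H : (ι → ℝ) × ℝ → (ι → ℝ) × ℝ)
    (g g' : (ι → ℝ) → ι → ℝ) : Prop where
  hC : C2B H (1 / (2 * lam)) (K / ℓ)
  h2 : ∀ y, (H y).2 = y.2
  hinj : Injective H
  hd : ∀ y, ‖H y - y‖ ≤ ℓ / 100
  hoff : ∀ y, ℓ / 4 ≤ |y.2| → H y = y
  hon : ∀ y, |y.2| ≤ ℓ / 8 → g' y.1 = g (H y).1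
  hpass : ∀ y k, (∀ x', ‖x' - y.1‖ ≤ ℓ / 50 → act k x' = 0) → (H y).1 k = y.1 k

/-- the whole degenerating sequence -/
structure PT (q lam K C : ℝ) (act : ℕ → ι → (ι → ℝ) → ℝ) (H : ℕ → (ι → ℝ) × ℝ → (ι → ℝ) × ℝ)
    (g : ℕ → (ι → ℝ) → ι → ℝ) (U : ℕ → (ι → ℝ) → ℝ) : Prop where
  hm : ∀ j, HM lam K (el lam j) (act j) (H j) (g j) (g (j + 1))
  g0 : ∀ x, g 0 x = x
  gcd : ∀ j, ContDiff ℝ 2 (g j)
  gd2 : ∀ j x, ‖D2 (g j) x‖ ≤ U j x / el lam j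
  gc1 : ∀ j k x x', ‖x - x'‖ ≤ el lam j → act j k x' ≠ 0 →
    ‖fderiv ℝ (g j) x (Pi.single k 1)‖ ≤ U j x
  gc2 : ∀ j k x x', ‖x - x'‖ ≤ el lam (j + 1) → act j k x' ≠ 0 →
    ‖fderiv ℝ (g (j + 1)) x (Pi.single k 1)‖ ≤ U (j + 1) x
  u0 : ∀ j x, 0 ≤ U j x
  uc : ∀ j, Continuous (U j)
  usv : ∀ j, SV (U j) (el lam j)
  C0 : 0 ≤ C
  uint : ∀ j, ∫⁻ x in ball (0 : ι → ℝ) 2, ENNReal.ofReal (U j x ^ q) ≤
    ENNReal.ofReal (C * el lam j ^ (q - 1) / 2 ^ j)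

end Tpart

section Vert
variable {X : Type} [NormedAddCommGroup X] [NormedSpace ℝ X]

/-- cluster weight q and signed height e above the cluster centre -/
structure QE (q e : X × ℝ → ℝ) (κ h K : ℝ) : Prop where
  qC : C2B q (K / κ) (K / κ ^ 2)
  eC : C2B e K (K / κ)
  cov : ∀ y t, 1 ≤ q y → |e y| ≤ h → |t - (y.2 - e y)| ≤ 3 * h / 2 →
    q (y.1, t) = q y ∧ e (y.1, t) = e y + (t - y.2)

/-- vertical move -/
noncomputable def vm (q e : X × ℝ → ℝ) (Z : ℝ → ℝ) (y : X × ℝ) : X × ℝ :=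
  (y.1, y.2 + st (q y - 2) * Z (e y))

/-- tube parameter -/
noncomputable def nuf (ν0 νs : ℝ) (c : X × ℝ → ℝ) (y : X × ℝ) : ℝ := ν0 + νs * (1 - c y)

/-- amplitude of the horizontal squeeze -/
noncomputable def Th (ℓ : ℝ) (M : ℕ) (A ν : X × ℝ → ℝ) (y : X × ℝ) : ℝ :=
  st (-2 / ℓ * y.2 - 1) * A y * (1 - ν y ^ M)

/-- cutoff of the good set -/
noncomputable def chi2 (q e : X × ℝ → ℝ) (κ : ℝ) (y : X × ℝ) : ℝ :=
  st (2 * q y - 9) * (st (6 - e y / κ) * st (6 + e y / κ))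

end Vert

/-- profile of the vertical squeeze -/
structure ZAh (K ε κ : ℝ) (Z : ℝ → ℝ) : Prop where
  zC : C2B Z K (K / κ)
  zb : ∀ v, |Z v| ≤ 16 * κ
  z0 : ∀ v, 16 * κ ≤ |v| → Z v = 0
  zs : ∀ v, ε ≤ 1 + deriv Z v
  zl : ∀ v, |v| ≤ 8 * κ → Z v = (ε - 1) * v

/-- profile of the vertical expansion -/
structure ZBh (K ε κ : ℝ) (Z : ℝ → ℝ) : Prop where
  zC : C2B Z (K / ε) (K / (ε ^ 2 * κ))
  zb : ∀ v, |Z v| ≤ 16 * κ
  z0 : ∀ v, K * κ ≤ |v| → Z v = 0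
  zs : ∀ v, 1 / 2 ≤ 1 + deriv Z v
  zl : ∀ v, |v| ≤ 8 * ε * κ → Z v = (1 / ε - 1) * v

/-- numerical parameters of the flips -/
structure FPar (Kb N P P' R ε lam : ℝ) : Prop where
  hN : Kb ≤ N
  P1 : 1 ≤ P
  PP : P ≤ P'
  sep : Kb * N * P' ≤ P ^ 2
  hR : Kb * N * P' * P ^ 2 ≤ R
  l0 : 0 < lam
  he : ε = lam * N * P'
  sm : ε * N * P' ≤ 1

section Fpart
variable {ι : Type} [Fintype ι] [DecidableEq ι]

/-- the implicit relation for the tilted grids -/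
def Sol (Θ : ι → (ι → ℝ) × ℝ → ℝ) (uu : ι → ℝ → ℝ) (z y : (ι → ℝ) × ℝ) : Prop :=
  y.2 = z.2 ∧ ∀ k, y.1 k = z.1 k + Θ k y * uu k (z.1 k - z.2)

/-- horizontal squeeze a and its inverse b -/
structure SqO (M : ℕ) (K P' u : ℝ) (p : ι → ℕ) (uu : ι → ℝ → ℝ) (Θ : ι → (ι → ℝ) × ℝ → ℝ)
    (ν : (ι → ℝ) × ℝ → ℝ) (a b : (ι → ℝ) × ℝ → (ι → ℝ) × ℝ) : Prop where
  li : LeftInverse a b
  ri : RightInverse a b
  aC : ContDiff ℝ 2 a
  bC : C2B b (300 * P') (K / u)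
  sol : ∀ z, Sol Θ uu z (b z)
  uniq : ∀ z y, Sol Θ uu z y → y = b z
  disp : ∀ z, ‖b z - z‖ ≤ P' * u
  a1 : ∀ y, ‖fderiv ℝ a y‖ ≤ K / ν y ^ M
  a2 : ∀ y, ‖D2 a y‖ ≤ K / ν y ^ (2 * M + 1) / u
  det1 : ∀ y, 1 ≤ K * |(fderiv ℝ a y).det|
  det2 : ∀ y (T : Finset ι), (∀ k ∈ T, Θ k y = 1 - ν y ^ M ∧
    ∀ n : ℤ, u / 32 < |(a y).1 k - (a y).2 - p k * u * n|) →
    1 ≤ K * (ν y ^ M) ^ T.card * |(fderiv ℝ a y).det|

/-- cluster functions of one level -/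
structure CLS (m : ℕ) (Kq Kr Kh : ℝ) (p : ι → ℕ) (u ℓ κs : ℝ) (Rq : ι → (ι → ℝ) × ℝ → ℝ)
    (q e e2 : (ι → ℝ) × ℝ → ℝ) : Prop where
  qe : QE q e (u / 16) (Kr * (u / 16)) Kq
  eb : ∀ y, |e y| ≤ Kr * u / 4
  top : ∀ y, -ℓ ≤ y.2 → q y = 0 ∧ e y = 0
  good : ∀ z, -2 ≤ z.2 → z.2 ≤ -2 * ℓ → (5 ≤ q z ∧ |e z| ≤ 5 * (u / 16)) ∨
    ∃ T : Finset ι, m ≤ T.card ∧ ∀ k ∈ T, (∃ y', ‖y' - z‖ ≤ u ∧ Rq k y' ≠ 0) ∧
      ∀ n : ℤ, u / 32 < |z.1 k - z.2 - p k * u * n|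
  e2b : ∀ y, |e2 y| ≤ 256 * κs
  e2C : C2B e2 (Kq * κs / (u / 16)) (Kq * κs / (u / 16) ^ 2)
  e2l : ∀ y t, 2 < q y → |e y| < Kr * (u / 16) → |t - (y.2 - e y)| < 3 * Kh * κs →
    ‖fderiv ℝ e2 (y.1, t)‖ ≤ Kq ∧ (|e y + (t - y.2)| ≤ 64 * κs → e2 (y.1, t) = e y + (t - y.2))

/-- squeeze and flip of one level -/
structure LA (lam ℓ Kw : ℝ) (M m : ℕ) (A : ι → (ι → ℝ) × ℝ → ℝ)
    (α ρ : (ι → ℝ) × ℝ → (ι → ℝ) × ℝ) (ν χ : (ι → ℝ) × ℝ → ℝ) : Prop where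
  aC : ContDiff ℝ 2 α
  aal : ∀ y y', ‖y - y'‖ ≤ 1 / (2 * lam) * ‖α y - α y'‖
  ad : ∀ y, ‖α y - y‖ ≤ ℓ / 100
  atop : ∀ y, -ℓ / 3 ≤ y.2 → α y = y
  apass : ∀ y k, A k y = 0 → (α y).1 k = y.1 k
  rC : C2B ρ Kw (Kw / ℓ)
  r1 : ∀ y, (ρ y).1 = y.1
  rd : ∀ y, ‖ρ y - y‖ ≤ ℓ / 100
  rtop : ∀ y, -ℓ / 3 ≤ y.2 → ρ y = y
  rdet : ∀ y, χ y ≠ 0 → (fderiv ℝ ρ y).det < 0
  ctop : ∀ y, χ y ≠ 0 → y.2 ≤ -ℓ
  d1 : ∀ y, ‖fderiv ℝ α y‖ ^ 2 ≤ Kw / ν y ^ (2 * M + 1)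
  d2 : ∀ y, ‖D2 α y‖ ≤ Kw / ν y ^ (2 * M + 1) / ℓ
  det1 : ∀ y, 1 ≤ Kw * |(fderiv ℝ α y).det|
  det2 : ∀ y, -2 ≤ y.2 → y.2 ≤ -2 * ℓ → χ (α y) ≠ 1 →
    1 ≤ Kw * ν y ^ (M * m) * |(fderiv ℝ α y).det|

/-- correction map of one level -/
structure LB (lam ℓ Kw : ℝ) (A : ι → (ι → ℝ) × ℝ → ℝ) (P : (ι → ℝ) × ℝ → (ι → ℝ) × ℝ) :
    Prop where
  pC : C2B P (1 / (2 * lam)) (Kw / ℓ)
  pinj : Injective P
  pd : ∀ y, ‖P y - y‖ ≤ ℓ / 100
  ptop : ∀ y, -ℓ / 3 ≤ y.2 → P y = y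
  ppass : ∀ y k, (∀ z, ‖z - y‖ ≤ ℓ / 50 → A k z = 0) → (P y).1 k = y.1 k

/-- coordinate k is silent near y for the maps of level j -/
def Sil (lam : ℝ) (act : ℕ → ι → (ι → ℝ) → ℝ) (j : ℕ) (k : ι) (y : (ι → ℝ) × ℝ) : Prop :=
  ∀ z : (ι → ℝ) × ℝ, ‖z - y‖ ≤ el lam j / 50 → ∀ i ≤ j, (i = 0 ∨ -3 * el lam i < z.2) →
    (i = j ∨ z.2 < -el lam (i + 1)) → act i k z.1 = 0

/-- the whole flip sequence -/
structure PF (q lam K Bs : ℝ) (B : ℕ → ℝ) (act : ℕ → ι → (ι → ℝ) → ℝ)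
    (α ρ P : ℕ → (ι → ℝ) × ℝ → (ι → ℝ) × ℝ) (c w : ℕ → (ι → ℝ) × ℝ → ℝ) : Prop where
  q1 : 1 ≤ q
  l0 : 0 < lam
  l1 : lam ≤ 1 / 100
  K1 : 1 / lam ≤ K
  aC : ∀ j, ContDiff ℝ 2 (α j)
  aal : ∀ j y y', ‖y - y'‖ ≤ 1 / (2 * lam) * ‖α j y - α j y'‖
  ad : ∀ j y, ‖α j y - y‖ ≤ el lam j / 100
  atop : ∀ j y, -el lam j / 3 ≤ y.2 → α j y = y
  apass : ∀ j y k, Sil lam act j k y → (α j y).1 k = y.1 k
  rC : ∀ j, C2B (ρ j) K (K / el lam j)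
  r1 : ∀ j y, (ρ j y).1 = y.1
  rd : ∀ j y, ‖ρ j y - y‖ ≤ el lam j / 100
  rtop : ∀ j y, -el lam j / 3 ≤ y.2 → ρ j y = y
  rdet : ∀ j y, c (j + 1) y ≠ 0 → (fderiv ℝ (ρ j) y).det < 0
  p0 : ∀ y, P 0 y = y
  pC : ∀ j, C2B (P j) (1 / (2 * lam)) (K / el lam j)
  pinj : ∀ j, Injective (P j)
  pd : ∀ j y, ‖P j y - y‖ ≤ el lam j / 100
  ptop : ∀ j y, -el lam j / 3 ≤ y.2 → P j y = y
  ppass : ∀ j y k, Sil lam act j k y → (P j y).1 k = y.1 k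
  ccont : ∀ j, Continuous (c j)
  c0 : ∀ y, c 0 y = 1
  ctop : ∀ j y, c (j + 1) y ≠ 0 → y.2 ≤ -el lam j
  ident : ∀ j y, c (j + 1) y ≠ 0 → c (j + 2) (α (j + 1) y) ≠ 0 →
    P (j + 1) (ρ (j + 1) (α (j + 1) y)) = ρ j y
  w1 : ∀ j y, 1 ≤ w j y
  wd1 : ∀ j y, ‖fderiv ℝ (α j) y‖ ^ 2 ≤ w j y
  wd2 : ∀ j y, ‖D2 (α j) y‖ ≤ w j y / el lam j
  B1 : ∀ j, 1 ≤ B j
  Bs1 : 1 ≤ Bs
  wall : ∀ j y, (K ^ 3 * w j y) ^ q ≤ B j * |(fderiv ℝ (α j) y).det|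
  wout : ∀ j y, c j y = 0 → (K ^ 3 * w j y) ^ q ≤ Bs * |(fderiv ℝ (α j) y).det|
  wfat : ∀ j y, -2 ≤ y.2 → y.2 ≤ -2 * el lam j → c (j + 1) (α j y) ≠ 1 →
    (K ^ 3 * w j y) ^ q ≤ 1 / 2 * |(fderiv ℝ (α j) y).det|
  wnew : ∀ j y, -2 ≤ y.2 → y.2 ≤ -2 * el lam j → c (j + 1) (α j y) ≠ 1 → c j y = 1 →
    (K ^ 3 * w j y) ^ q * ∏ k ∈ Finset.range j, B k ≤
      1 / 2 ^ (Fintype.card ι + 5) / 2 ^ j * |(fderiv ℝ (α j) y).det|

/-- the smooth approximants -/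
noncomputable def FF2 (H P ρ α : ℕ → (ι → ℝ) × ℝ → (ι → ℝ) × ℝ) (j : ℕ) (y : (ι → ℝ) × ℝ) :
    (ι → ℝ) × ℝ :=
  Phi (Fw H (j + 1) (Fw P (j + 1) (ρ j (Gs α (j + 1) y))))

/-- the part of the approximant that acts in strip i -/
def Xi2 (H P ρ α : ℕ → (ι → ℝ) × ℝ → (ι → ℝ) × ℝ) (i n : ℕ) (y : (ι → ℝ) × ℝ) : (ι → ℝ) × ℝ :=
  H i (Fw (fun k => P (i + k)) (n + 1) (ρ (i + n) (Gs (fun k => α (i + k)) (n + 1) y)))

noncomputable def Ut (lam : ℝ) (U : ℕ → (ι → ℝ) → ℝ) (j : ℕ) (x : ι → ℝ) : ℝ :=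
  U j x + el lam j ^ 2

/-- product of the weights along the orbit -/
noncomputable def Wp (K : ℝ) (w : ℕ → (ι → ℝ) × ℝ → ℝ) (α : ℕ → (ι → ℝ) × ℝ → (ι → ℝ) × ℝ)
    (i j : ℕ) (y : (ι → ℝ) × ℝ) : ℝ :=
  ∏ k ∈ Finset.Icc i j, K ^ 3 * w k (Gs α k y)

end Fpart

theorem D2_symm {E F : Type*} [NormedAddCommGroup E] [NormedSpace ℝ E] [NormedAddCommGroup F]
    [NormedSpace ℝ F] {f : E → F} (hf : ContDiff ℝ 2 f) (y v w : E) : D2 f y v w = D2 f y w v :=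
  (hf.contDiffAt.isSymmSndFDerivAt (by simp)) v w

theorem el_pos {lam : ℝ} (h : 0 < lam) (j : ℕ) : 0 < el lam j := by
  unfold el; positivity

theorem el_succ (lam : ℝ) (j : ℕ) : el lam (j + 1) = lam * el lam j := by
  unfold el; ring

theorem el_zero (lam : ℝ) : el lam 0 = 1 / 4 := by
  unfold el; norm_num

theorem Prf.mono {M : ℕ} {K K' a p ω : ℝ} {u f : ℝ → ℝ} {c : ℝ} (h : Prf M K a p ω u f c)
    (hK : K ≤ K') (ha : 0 < a) (hp : 0 < p) : Prf M K' a p ω u f c := by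
  refine ⟨h.uC.mono le_rfl (by gcongr), h.ub, h.c1, h.c2, h.du, fun v ν hν => ?_, h.f01,
    h.fC.mono (by gcongr) (by gcongr), h.fs⟩
  refine (h.ddu v ν hν).trans ?_
  have h1 := (h.f01 v).1
  have h2 : 0 ≤ c := by linarith [h.c1]
  gcongr

theorem QE.mono {X : Type} [NormedAddCommGroup X] [NormedSpace ℝ X] {q e : X × ℝ → ℝ}
    {κ h K κ' h' : ℝ} (H : QE q e κ h K) (h0 : 0 < κ') (h1 : κ' ≤ κ) (h2 : h' ≤ h) :
    QE q e κ' h' K := by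
  have hK : 0 ≤ K := H.eC.nonneg1
  refine ⟨H.qC.mono (by gcongr) (by gcongr), H.eC.mono le_rfl (by gcongr), fun y t a b c => ?_⟩
  exact H.cov y t a (b.trans h2) (c.trans (by linarith))

theorem FPar.mono {Kb Kb' N P P' R ε lam : ℝ} (h : FPar Kb N P P' R ε lam) (h1 : 1 ≤ Kb')
    (h2 : Kb' ≤ Kb) : FPar Kb' N P P' R ε lam := by
  have a : 0 ≤ N := by linarith [h.hN]
  have b : 0 ≤ P' := by linarith [h.P1, h.PP]
  exact ⟨h2.trans h.hN, h.P1, h.PP, le_trans (by gcongr) h.sep, le_trans (by gcongr) h.hR, h.l0,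
    h.he, h.sm⟩

theorem el_anti {lam : ℝ} (h0 : 0 < lam) (h1 : lam ≤ 1) {i j : ℕ} (h : i ≤ j) :
    el lam j ≤ el lam i := by
  unfold el
  have := pow_le_pow_of_le_one h0.le h1 h
  linarith

theorem el_lt {lam : ℝ} (h0 : 0 < lam) (h1 : lam ≤ 1 / 100) {i j : ℕ} (h : i < j) :
    el lam j ≤ el lam i / 100 := by
  have a := el_anti h0 (by linarith) (show i + 1 ≤ j from h)
  have b := el_pos h0 i
  rw [el_succ] at a
  nlinarith

theorem el_sum {lam : ℝ} (h0 : 0 < lam) (h1 : lam ≤ 1 / 100) (i n : ℕ) :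
    ∑ k ∈ Finset.range n, el lam (i + k) ≤ 2 * el lam i - 2 * el lam (i + n) := by
  induction n with
  | zero => simp
  | succ n ih =>
    rw [Finset.sum_range_succ, ← add_assoc]
    have a := el_lt h0 h1 (Nat.lt_succ_self (i + n))
    have b := el_pos h0 (i + n)
    linarith

end SK

end

section

namespace SK
open SJ Set Filter Topology MeasureTheory Metric Function
open scoped ENNReal

/-! ### generic tools -/

def ImpExStmt : Prop :=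
  ∀ (ι : Type) [Fintype ι] (E : Type) [NormedAddCommGroup E] [NormedSpace ℝ E]
    [FiniteDimensional ℝ E] (J : (ι → ℝ) →L[ℝ] E) (Λ : E →L[ℝ] ι → ℝ) (F : ι → E × ℝ → ℝ)
    (A B c : ℝ), ImpH J Λ F → (∀ k, C2B (F k) A B) → 0 < c → (∀ k p, c ≤ slp (F k) p) →
    ∃ a b : E → E, LeftInverse a b ∧ RightInverse a b ∧ ContDiff ℝ 2 a ∧ ContDiff ℝ 2 b ∧
      (∀ z, ImpEq J Λ F z (b z)) ∧ ∀ z y, ImpEq J Λ F z y → y = b z

def ImpFormStmt : Prop :=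
  ∀ (ι : Type) [Fintype ι] (E : Type) [NormedAddCommGroup E] [NormedSpace ℝ E]
    (J : (ι → ℝ) →L[ℝ] E) (Λ : E →L[ℝ] ι → ℝ) (F : ι → E × ℝ → ℝ), (∀ k, ContDiff ℝ 2 (F k)) →
    (∀ b : E → E, ContDiff ℝ 2 b → (∀ z, ImpEq J Λ F z (b z)) → ∀ z v w,
      (fderiv ℝ b z v = v + J fun k => fderiv ℝ (F k) (b z, Λ z k) (fderiv ℝ b z v, Λ v k)) ∧
      D2 b z v w = J fun k =>
        D2 (F k) (b z, Λ z k) (fderiv ℝ b z v, Λ v k) (fderiv ℝ b z w, Λ w k) +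
          fderiv ℝ (F k) (b z, Λ z k) (D2 b z v w, 0)) ∧
    ∀ a : E → E, ContDiff ℝ 2 a → (∀ y, ImpEq J Λ F (a y) y) → ∀ y v w,
      (v = fderiv ℝ a y v + J fun k => fderiv ℝ (F k) (y, Λ (a y) k) (v, Λ (fderiv ℝ a y v) k)) ∧
      0 = D2 a y v w + J fun k =>
        D2 (F k) (y, Λ (a y) k) (v, Λ (fderiv ℝ a y v) k) (w, Λ (fderiv ℝ a y w) k) +
          fderiv ℝ (F k) (y, Λ (a y) k) (0, Λ (D2 a y v w) k)

def ImpBStmt : Prop :=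
  ∀ (ι : Type) [Fintype ι] (E : Type) [NormedAddCommGroup E] [NormedSpace ℝ E]
    (J : (ι → ℝ) →L[ℝ] E) (Λ : E →L[ℝ] ι → ℝ) (F : ι → E × ℝ → ℝ) (b : E → E), ImpH J Λ F →
    ContDiff ℝ 2 b → (∀ z, ImpEq J Λ F z (b z)) → ∀ (z : E) (Pm B : ℝ), 0 ≤ Pm → 0 ≤ B →
    (∀ k, |slp (F k) (b z, Λ z k) - 1| ≤ Pm) → (∀ k, ‖D2 (F k) (b z, Λ z k)‖ ≤ B) →
    ‖fderiv ℝ b z‖ ≤ 2 + 4 * Pm ∧ ‖D2 b z‖ ≤ 2 * B * (2 + 4 * Pm) ^ 2

def ImpAStmt : Prop :=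
  ∀ (ι : Type) [Fintype ι] (E : Type) [NormedAddCommGroup E] [NormedSpace ℝ E]
    (J : (ι → ℝ) →L[ℝ] E) (Λ : E →L[ℝ] ι → ℝ) (F : ι → E × ℝ → ℝ) (a : E → E), ImpH J Λ F →
    ContDiff ℝ 2 a → (∀ y, ImpEq J Λ F (a y) y) → ∀ (y : E) (τ E0 E1 E2 : ℝ), 0 < τ → τ ≤ 1 →
    0 ≤ E0 → 0 ≤ E1 → 0 ≤ E2 → (∀ k, τ ≤ slp (F k) (y, Λ (a y) k)) →
    (∀ k v w, |D2 (F k) (y, Λ (a y) k) (v, 0) (w, 0)| ≤ E0 * ‖v‖ * ‖w‖) →
    (∀ k v, |D2 (F k) (y, Λ (a y) k) (v, 0) (0, 1)| ≤ E1 * ‖v‖) →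
    (∀ k, |D2 (F k) (y, Λ (a y) k) (0, 1) (0, 1)| ≤ E2 * slp (F k) (y, Λ (a y) k)) →
    ‖fderiv ℝ a y‖ ≤ 6 / τ ∧ ‖D2 a y‖ ≤ (E0 + 6 * E1 + 9 * E2) / τ ^ 2

def ImpDetStmt : Prop :=
  ∀ (ι : Type) [Fintype ι] (E : Type) [NormedAddCommGroup E] [NormedSpace ℝ E]
    [FiniteDimensional ℝ E], ∃ Kd : ℝ, 1 ≤ Kd ∧
    ∀ (J : (ι → ℝ) →L[ℝ] E) (Λ : E →L[ℝ] ι → ℝ) (F : ι → E × ℝ → ℝ) (a : E → E), ImpH J Λ F →
      ContDiff ℝ 2 a → (∀ y, ImpEq J Λ F (a y) y) → ∀ y,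
      1 ≤ Kd * |∏ k, slp (F k) (y, Λ (a y) k)| * |(fderiv ℝ a y).det|

def ProfStmt : Prop :=
  ∀ M : ℕ, 2 ≤ M → ∃ K : ℝ, 1 ≤ K ∧ ∀ a p ω : ℝ, 0 < a → a ≤ 1 / 8 → 0 < p →
    ∃ (u f : ℝ → ℝ) (c : ℝ), Prf M K a p ω u f c

def SumProdStmt : Prop :=
  ∀ (ν : Type) [Fintype ν] (E : Type) [NormedAddCommGroup E] [NormedSpace ℝ E]
    (Θ : ν → E → ℝ) (u : ν → ℝ → ℝ), (∀ n, ContDiff ℝ 2 (Θ n)) → (∀ n, ContDiff ℝ 2 (u n)) →
    ContDiff ℝ 2 (spF Θ u) ∧ ∀ (p : E × ℝ) (a b : E),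
      fderiv ℝ (spF Θ u) p (a, 0) = ∑ n, u n p.2 * fderiv ℝ (Θ n) p.1 a ∧
      fderiv ℝ (spF Θ u) p (0, 1) = ∑ n, Θ n p.1 * deriv (u n) p.2 ∧
      D2 (spF Θ u) p (a, 0) (b, 0) = ∑ n, u n p.2 * D2 (Θ n) p.1 a b ∧
      D2 (spF Θ u) p (a, 0) (0, 1) = ∑ n, deriv (u n) p.2 * fderiv ℝ (Θ n) p.1 a ∧
      D2 (spF Θ u) p (0, 1) (0, 1) = ∑ n, Θ n p.1 * deriv (deriv (u n)) p.2

def PowLgStmt : Prop :=
  ∀ (E : Type) [NormedAddCommGroup E] [NormedSpace ℝ E] (M : ℕ) (f : E → ℝ) (A r B τ r' ν : ℝ),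
    2 ≤ M → (∀ x, 0 ≤ f x ∧ f x ≤ 1) → C2B f (A / r) (A / r ^ 2) → 1 ≤ A → 0 < r → 0 ≤ B →
    0 < τ → 0 < r' → 0 < ν → ν ≤ 1 → B * ν ^ M ≤ τ → 2 * M * A * r' ≤ ν * r →
    Lg (fun x => τ + B * f x ^ M) r'

def StLgStmt : Prop :=
  ∃ K : ℝ, 1 ≤ K ∧ ∀ (E : Type) [NormedAddCommGroup E] [NormedSpace ℝ E] (φ : E → ℝ) (r c : ℝ),
    0 < r → 0 < c → Lg φ r → C2B (fun x => st (c * φ x - 1)) (K / r) (K / r ^ 2)

def Avg2Stmt : Prop :=
  ∀ (ι Y α : Type) [Fintype ι] [MeasurableSpace Y] (μ : Measure Y) (τ : ι → ℝ),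
    (∀ k, 0 < τ k) → (∀ k, τ k ≤ 1) → ∀ u : Y → ι → ℝ, Measurable u →
    ∀ (T : Finset α) (S : α → Finset ι) (w : α → Y → ℝ≥0∞), (∀ a, Measurable (w a)) →
    ∃ ω : ι → ℝ, ∑ a ∈ T, ∫⁻ y, {y | ∀ k ∈ S a, ∃ n : ℤ, |u y k + ω k - n| ≤ τ k}.indicator
        (w a) y ∂μ ≤ ∑ a ∈ T, ENNReal.ofReal (∏ k ∈ S a, 10 * τ k) * ∫⁻ y, w a y ∂μ

def PoincStmt : Prop :=
  ∀ (ι : Type) [Fintype ι] (V : Type) [NormedAddCommGroup V] [NormedSpace ℝ V] [CompleteSpace V]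
    (u : (ι → ℝ) × ℝ → V) (q : ℝ), 1 ≤ q → ContDiff ℝ 1 u → (∀ y, 1 / 2 ≤ y.2 → u y = 0) →
    eLpNorm u (ENNReal.ofReal q) (volume.restrict (ball 0 1)) ≤
      2 * eLpNorm (fderiv ℝ u) (ENNReal.ofReal q) (volume.restrict (ball 0 1))

def Wrap2Stmt : Prop :=
  ∀ (N : ℕ) (F : ℕ → (Fin N → ℝ) × ℝ → (Fin N → ℝ) × ℝ) (f : (Fin N → ℝ) × ℝ → (Fin N → ℝ) × ℝ)
    (C C' q : ℝ), 1 ≤ q → (∀ j, ContDiff ℝ 2 (F j)) → Continuous f → Injective f →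
    (∀ y, Tendsto (fun j => F j y) atTop (𝓝 (f y))) →
    (∀ j, ∀ y ∈ ball (0 : (Fin N → ℝ) × ℝ) 1, ‖F j y‖ ≤ C) →
    (∀ j y, 1 / 2 ≤ y.2 → F (j + 1) =ᶠ[𝓝 y] F j) →
    (∀ j, ∫⁻ y in ball (0 : (Fin N → ℝ) × ℝ) 1,
      ENNReal.ofReal (‖D2 (F (j + 1)) y - D2 (F j) y‖ ^ q) ≤ ENNReal.ofReal (C' * (3 / 4) ^ j)) →
    ∀ Pos Neg : Set ((Fin N → ℝ) × ℝ), Pos ⊆ ball 0 1 → Neg ⊆ ball 0 1 → 0 < volume Pos →
      0 < volume Neg →
      (∀ y ∈ Pos, 0 < (fderiv ℝ (F 0) y).det ∧ ∀ j, fderiv ℝ (F j) y = fderiv ℝ (F 0) y) →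
      (∀ y ∈ Neg, (fderiv ℝ (F 0) y).det < 0 ∧ ∀ j, fderiv ℝ (F j) y = fderiv ℝ (F 0) y) →
      SignChange (N + 1) q

/-! ### the degenerating part -/

def SmStmt : Prop :=
  ∀ (ι : Type) [Fintype ι] [DecidableEq ι] (r : ℕ), r + 1 ≤ Fintype.card ι →
    (∀ b : ι → ℝ, (∀ k, 0 < b k) → 0 < sm r b ∧
      (∀ S : Finset ι, S.card = r + 1 → ∃ l ∈ S, b l ≤ (r + 1) * sm r b) ∧
      (∃ S : Finset ι, S.card = r + 1 ∧ ∀ l ∈ S, sm r b ≤ 2 ^ Fintype.card ι * b l) ∧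
      (∃ T : Finset ι, Fintype.card ι ≤ r + T.card ∧ ∀ k ∈ T, b k ≤ (r + 1) * sm r b) ∧
      (∀ (T : Finset ι) (β : ℝ), Fintype.card ι ≤ r + T.card → (∀ k ∈ T, b k ≤ β) →
        sm r b ≤ 2 ^ Fintype.card ι * β) ∧
      ∀ ε γ : ℝ, 0 ≤ ε → 0 ≤ γ →
        sm r b ^ (ε + r * γ) ≤ (2 ^ Fintype.card ι : ℝ) ^ (ε + r * γ) * pot r ε γ b) ∧
    ∀ (b : ι → (ι → ℝ) → ℝ) (ρ : ℝ), 0 < ρ → (∀ k, Lg (b k) (4 * ρ)) → Lg (smf r b) ρ

def PotStmt : Prop :=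
  ∀ (ι : Type) [Fintype ι] [DecidableEq ι] (r L : ℕ), r + 1 ≤ Fintype.card ι → ∃ K : ℝ, 1 ≤ K ∧
    ∀ (ε γ ω τ : ℝ) (b b' : ι → ℝ) (c : ι → ℕ → ℝ) (Z : Finset (ι × Fin L)), 0 < ε → ε ≤ γ →
      γ ≤ 1 → ε + r * γ ≤ 2 → 0 < ω → 20 * ((r : ℝ) + 1) * ω ≤ 1 → 0 ≤ τ → τ ≤ 1 →
      τ ^ ε ≤ ω ^ L → (∀ l, 0 < b l) → (∀ l, 0 ≤ b' l) → (∀ l n, 0 ≤ c l n ∧ c l n ≤ 1) →
      (∀ l n, 1 ≤ n → c l n ≠ 0 → sm r b ≤ 18 * ω ^ n * b l) →
      (∀ l, b' l ≤ 36 * (b l + sm r b / ω) *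
        (τ + c l L + ∑ n : Fin L, if (l, n) ∈ Z then c l n / ω ^ (L - n) else 0)) →
      (∏ z ∈ Z, 10 * ω ^ (L - z.2)) * pot r ε γ b' ≤ K * ω ^ (L * (1 - ε) - 2) * pot r ε γ b

def TWStmt : Prop :=
  ∀ (ι : Type) [Fintype ι] [DecidableEq ι] (r : ℕ), r + 1 ≤ Fintype.card ι → ∃ K : ℝ, 1 ≤ K ∧
    ∀ (K' : ℝ) (L : ℕ) (ω ℓ : ℝ) (b : ι → (ι → ℝ) → ℝ), K ≤ K' → 1 ≤ L → 0 < ℓ → 0 < ω →
      162 * ((r : ℝ) + 1) * ω ≤ 1 → (∀ k, Lg (b k) (8 * ℓ)) → TW K' r L ω ℓ b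

def TEstStmt : Prop :=
  ∀ (ι : Type) [Fintype ι] [DecidableEq ι] (g h : (ι → ℝ) → ι → ℝ) (F : ι → (ι → ℝ) × ℝ → ℝ)
    (x : ι → ℝ) (ℓ σ Dm G : ℝ) (β c e0 e1 fk : ι → ℝ), ContDiff ℝ 2 g → ContDiff ℝ 2 h →
    (∀ k, ContDiff ℝ 2 (F k)) →
    (∀ z, ImpEq (ContinuousLinearMap.id ℝ (ι → ℝ)) (ContinuousLinearMap.id ℝ (ι → ℝ)) F z (h z)) →
    0 < ℓ → 0 ≤ σ → 0 ≤ G → ‖fderiv ℝ h x‖ ≤ Dm → Dm / ℓ ≤ G →
    (∀ i, ‖fderiv ℝ g (h x) (Pi.single i 1)‖ ≤ β i) →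
    (∀ i v, ‖D2 g (h x) (Pi.single i 1) v‖ ≤ β i / ℓ * ‖v‖) →
    (∀ i a, |fderiv ℝ (F i) (h x, x i) (a, 0)| ≤ c i * ‖a‖) → (∀ i, 0 ≤ c i ∧ c i ≤ 1 / 2) →
    ∑ i, β i * c i ≤ σ / 2 →
    (∀ k, 0 ≤ slp (F k) (h x, x k) ∧ slp (F k) (h x, x k) ≤ fk k) →
    (∀ i a b, |D2 (F i) (h x, x i) (a, 0) (b, 0)| ≤ e0 i * ‖a‖ * ‖b‖) →
    (∀ i, 0 ≤ e0 i ∧ e0 i * Dm ≤ G) → ∑ i, β i * (e0 i * Dm) ≤ σ * G →
    (∀ i a, |D2 (F i) (h x, x i) (a, 0) (0, 1)| ≤ e1 i * ‖a‖) →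
    (∀ i, 0 ≤ e1 i ∧ e1 i ≤ G ∧ e1 i * Dm ≤ fk i * G) → ∑ i, β i * e1 i ≤ σ * G →
    (∀ k, |D2 (F k) (h x, x k) (0, 1) (0, 1)| ≤ fk k * G) →
    ∀ k, ‖fderiv ℝ (fun z => g (h z)) x (Pi.single k 1)‖ ≤ fk k * (β k + σ) ∧
      ∀ v, ‖D2 (fun z => g (h z)) x (Pi.single k 1) v‖ ≤ 12 * (fk k * (β k + σ)) * G * ‖v‖

def UEstStmt : Prop :=
  ∀ (ι : Type) [Fintype ι] [DecidableEq ι] (g h : (ι → ℝ) → ι → ℝ) (x : ι → ℝ)
    (ℓ σ Dm D2m U : ℝ) (β : ι → ℝ), ContDiff ℝ 2 g → ContDiff ℝ 2 h → 0 < ℓ → 0 ≤ σ →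
    ‖fderiv ℝ h x‖ ≤ Dm → ‖D2 h x‖ ≤ D2m → ‖D2 g (h x)‖ ≤ U / ℓ →
    (∀ i, ‖fderiv ℝ g (h x) (Pi.single i 1)‖ ≤ β i) →
    (∀ i v, ‖D2 g (h x) (Pi.single i 1) v‖ ≤ β i / ℓ * ‖v‖) →
    (∀ i, β i ≤ σ ∨ (fun z => h z i) =ᶠ[𝓝 x] fun z => z i) →
    ‖D2 (fun z => g (h z)) x‖ ≤ U / ℓ + Fintype.card ι * σ * (2 * (1 + Dm) ^ 2 / ℓ + D2m)

def TMoveStmt : Prop :=
  ∀ (ι : Type) [Fintype ι] [DecidableEq ι] (r L M : ℕ) (K η ω τ : ℝ),
    TPar (Fintype.card ι) r L M K η ω τ → ∃ KH : ℝ, 1 ≤ KH ∧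
    ∀ (ℓ : ℝ) (θ : ι → Fin L → (ι → ℝ) → ℝ) (φ : ι → Fin L → ℝ) (u f : ι → Fin L → ℝ → ℝ)
      (c : ι → Fin L → ℝ), 0 < ℓ → (∀ k n x, 0 ≤ θ k n x) → (∀ k x, ∑ n, θ k n x ≤ 1) →
      (∀ k n, C2B (θ k n) (K / ℓ) (K / ℓ ^ 2)) → PrfT L M K η ω ℓ φ u f c →
      ∃ (H : (ι → ℝ) × ℝ → (ι → ℝ) × ℝ) (h : (ι → ℝ) → ι → ℝ),
        C2B H (6 / ω ^ L) (KH / ℓ) ∧ (∀ y, (H y).2 = y.2) ∧ Injective H ∧
        (∀ y, ‖H y - y‖ ≤ ℓ / 100) ∧ (∀ y, ℓ / 4 ≤ |y.2| → H y = y) ∧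
        (∀ y, |y.2| ≤ ℓ / 8 → (H y).1 = h y.1) ∧
        (∀ y k, (∀ n, θ k n (H y).1 = 0) → (H y).1 k = y.1 k) ∧
        C2B h (6 / ω ^ L) (KH / ℓ) ∧
        (∀ z, ImpEq (ContinuousLinearMap.id ℝ (ι → ℝ)) (ContinuousLinearMap.id ℝ (ι → ℝ))
          (FT τ θ u) z (h z)) ∧ ∀ x, ‖h x - x‖ ≤ ℓ / 100

def TLgStmt : Prop :=
  ∀ (ι : Type) [Fintype ι] [DecidableEq ι] (r L M : ℕ) (K η ω τ ℓ : ℝ) (b : ι → (ι → ℝ) → ℝ)
    (φ : ι → Fin L → ℝ) (u f : ι → Fin L → ℝ → ℝ) (c : ι → Fin L → ℝ),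
    r + 1 ≤ Fintype.card ι → TPar (Fintype.card ι) r L M K η ω τ → 0 < ℓ →
    (∀ k, Lg (b k) (8 * ℓ)) → TW K r L ω ℓ b → PrfT L M K η ω ℓ φ u f c →
    (∀ k, Lg (bN r L M ω τ b f c k) (8 * (ω ^ (L + 1) * ℓ))) ∧
    (∀ k x, ω ^ L * b k x ≤ 18 * smf r b x →
      ω ^ (2 * L + 1) * bN r L M ω τ b f c k x ≤ smf r b x) ∧
    ∀ x, ω ^ (2 * L + 1) * smf r (bN r L M ω τ b f c) x ≤ 2 ^ Fintype.card ι * smf r b x

def TColStmt : Prop :=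
  ∀ (ι : Type) [Fintype ι] [DecidableEq ι] (r L M : ℕ) (K η ω τ ℓ : ℝ) (g h : (ι → ℝ) → ι → ℝ)
    (b : ι → (ι → ℝ) → ℝ) (U : (ι → ℝ) → ℝ) (φ : ι → Fin L → ℝ) (u f : ι → Fin L → ℝ → ℝ)
    (c : ι → Fin L → ℝ) (B : ℝ), TPar (Fintype.card ι) r L M K η ω τ → 0 < ℓ →
    TS2 r L ω g b U ℓ → TW K r L ω ℓ b → PrfT L M K η ω ℓ φ u f c → C2B h (6 / ω ^ L) B →
    (∀ z, ImpEq (ContinuousLinearMap.id ℝ (ι → ℝ)) (ContinuousLinearMap.id ℝ (ι → ℝ))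
      (FT τ (fun k (n : Fin L) => th r ω b n k) u) z (h z)) → (∀ x, ‖h x - x‖ ≤ ℓ / 100) →
    ∀ x k, ‖fderiv ℝ (fun z => g (h z)) x (Pi.single k 1)‖ ≤ bN r L M ω τ b f c k x ∧
      ∀ v, ‖D2 (fun z => g (h z)) x (Pi.single k 1) v‖ ≤
        bN r L M ω τ b f c k x / (ω ^ (L + 1) * ℓ) * ‖v‖

def TUStmt : Prop :=
  ∀ (ι : Type) [Fintype ι] [DecidableEq ι] (r L : ℕ) (ω KH : ℝ), 0 < ω → ω ≤ 1 →
    ∃ C : ℝ, 0 ≤ C ∧
    ∀ (K τ ℓ : ℝ) (g h : (ι → ℝ) → ι → ℝ) (b : ι → (ι → ℝ) → ℝ) (U : (ι → ℝ) → ℝ)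
      (u : ι → Fin L → ℝ → ℝ), 0 < ℓ → TS2 r L ω g b U ℓ → TW K r L ω ℓ b →
      C2B h (6 / ω ^ L) (KH / ℓ) →
      (∀ z, ImpEq (ContinuousLinearMap.id ℝ (ι → ℝ)) (ContinuousLinearMap.id ℝ (ι → ℝ))
        (FT τ (fun k (n : Fin L) => th r ω b n k) u) z (h z)) → (∀ x, ‖h x - x‖ ≤ ℓ / 100) →
      ∀ x, ‖D2 (fun z => g (h z)) x‖ ≤ (3 * U x + C * smf r b x) / ℓ

def TIntStmt : Prop :=
  ∀ (ι : Type) [Fintype ι] [DecidableEq ι] (r L : ℕ), r + 1 ≤ Fintype.card ι → ∃ Kp : ℝ, 1 ≤ Kp ∧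
    ∀ (M : ℕ) (K η ω τ ε γ ℓ : ℝ) (b : ι → (ι → ℝ) → ℝ), TPar (Fintype.card ι) r L M K η ω τ →
      0 < ε → ε ≤ γ → γ ≤ 1 → ε + r * γ ≤ 2 → τ ^ ε ≤ ω ^ L → 0 < ℓ →
      (∀ k, Lg (b k) (8 * ℓ)) → TW K r L ω ℓ b →
      ∃ φ : ι → Fin L → ℝ, ∀ (u f : ι → Fin L → ℝ → ℝ) (c : ι → Fin L → ℝ),
        PrfT L M K η ω ℓ φ u f c →
        ∫⁻ x in ball (0 : ι → ℝ) 2, ENNReal.ofReal (potf r ε γ (bN r L M ω τ b f c) x) ≤
          ENNReal.ofReal (Kp * ω ^ (L * (1 - ε) - 2)) *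
            ∫⁻ x in ball (0 : ι → ℝ) 2, ENNReal.ofReal (potf r ε γ b x)

def TStepStmt : Prop :=
  ∀ (ι : Type) [Fintype ι] [DecidableEq ι] (r : ℕ) (q : ℝ), r + 1 ≤ Fintype.card ι → 1 ≤ r →
    1 ≤ q → q < 2 → 2 * q < r + 2 → ∃ K1 : ℝ, 1 ≤ K1 ∧ ∀ lam1 : ℝ, 0 < lam1 →
    ∃ (L : ℕ) (ε γ lam ω KH C : ℝ), 0 ≤ ε ∧ 0 ≤ γ ∧ 0 < lam ∧ lam ≤ lam1 ∧ 0 < ω ∧ 0 ≤ C ∧
      ∀ (ℓ : ℝ) (g : (ι → ℝ) → ι → ℝ) (b : ι → (ι → ℝ) → ℝ) (U : (ι → ℝ) → ℝ), 0 < ℓ →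
        TS2 r L ω g b U ℓ →
        ∃ (act req : ι → (ι → ℝ) → ℝ) (H : (ι → ℝ) × ℝ → (ι → ℝ) × ℝ) (g' : (ι → ℝ) → ι → ℝ)
          (b' : ι → (ι → ℝ) → ℝ) (U' : (ι → ℝ) → ℝ), TS2 r L ω g' b' U' (lam * ℓ) ∧
          Rg K1 ℓ ℓ (Fintype.card ι - r) act req ∧ HM lam KH ℓ act H g g' ∧
          (∀ k x x', ‖x - x'‖ ≤ ℓ → act k x' ≠ 0 → b k x ≤ U x ∧ b' k x ≤ U' x) ∧
          (∀ x, U' x ^ q ≤ lam ^ (q - 1) / 4 * U x ^ q + C * potf r ε γ b x) ∧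
          ∫⁻ x in ball (0 : ι → ℝ) 2, ENNReal.ofReal (potf r ε γ b' x) ≤
            ENNReal.ofReal (lam ^ (q - 1) / 4) *
              ∫⁻ x in ball (0 : ι → ℝ) 2, ENNReal.ofReal (potf r ε γ b x)

def TPackStmt : Prop :=
  ∀ (ι : Type) [Fintype ι] [DecidableEq ι] (r : ℕ) (q : ℝ), r + 1 ≤ Fintype.card ι → 1 ≤ r →
    1 ≤ q → q < 2 → 2 * q < r + 2 → ∃ K1 : ℝ, 1 ≤ K1 ∧ ∀ lam1 : ℝ, 0 < lam1 →
    ∃ lam KT C : ℝ, 0 < lam ∧ lam ≤ lam1 ∧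
      ∃ (act req : ℕ → ι → (ι → ℝ) → ℝ) (H : ℕ → (ι → ℝ) × ℝ → (ι → ℝ) × ℝ)
        (g : ℕ → (ι → ℝ) → ι → ℝ) (U : ℕ → (ι → ℝ) → ℝ),
        (∀ K, KT ≤ K → PT q lam K C act H g U) ∧
        ∀ j, Rg K1 (el lam j) (el lam j) (Fintype.card ι - r) (act j) (req j)

/-! ### the flips -/

def GlueStmt : Prop :=
  ∀ (ι : Type) [Fintype ι] (K1 : ℝ), 1 ≤ K1 → ∃ K : ℝ, 1 ≤ K ∧
    ∀ (lam : ℝ) (m2 : ℕ) (act req : ℕ → ι → (ι → ℝ) → ℝ), 0 < lam → lam ≤ 1 / 100 →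
      (∀ j, Rg K1 (el lam j) (el lam j) m2 (act j) (req j)) →
      ∃ A R : ℕ → ι → (ι → ℝ) × ℝ → ℝ, ∀ j, Rg K (el lam j) (el lam j / 16) m2 (A j) (R j) ∧
        ∀ k z, (∀ i ≤ j, (i = 0 ∨ -3 * el lam i < z.2) → (i = j ∨ z.2 < -el lam (i + 1)) →
          act i k z.1 = 0) → A j k z = 0

def Grid2Stmt : Prop :=
  ∀ (ι : Type) [Fintype ι] (m : ℕ) (K1 : ℝ), 1 ≤ K1 → ∃ K : ℝ, 1 ≤ K ∧
    ∀ (p : ι → ℕ) (P u ℓ : ℝ) (A R : ι → (ι → ℝ) × ℝ → ℝ),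
      (∀ k l, k ≠ l → Nat.Coprime (p k) (p l)) → 1 ≤ P → (∀ k, P ≤ p k) → 0 < u →
      16 * u * P ^ 2 ≤ ℓ → ℓ ≤ 1 → Rg K1 ℓ (ℓ / 16) (2 * m) A R →
      ∃ (I : Finset ℕ) (W : ℕ → (ι → ℝ) → ℝ) (s : ℕ → ℝ),
        CS I W s (u / 16) (u * P ^ 2 - u / 4) K ∧ (∀ n ∈ I, s n ≤ -(3 / 2) * ℓ) ∧
        ∀ z : (ι → ℝ) × ℝ, -2 ≤ z.2 → z.2 ≤ -2 * ℓ →
          (∃ J ⊆ I, 5 ≤ J.card ∧ ∀ n ∈ J, W n z.1 = 1 ∧ |s n - z.2| ≤ u / 16 / 2) ∨
          ∃ T : Finset ι, m ≤ T.card ∧ ∀ k ∈ T, (∃ y', ‖y' - z‖ ≤ u ∧ R k y' ≠ 0) ∧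
            ∀ n : ℤ, u / 32 < |z.1 k - z.2 - p k * u * n|

def E2Stmt : Prop :=
  ∀ (X : Type) [NormedAddCommGroup X] [NormedSpace ℝ X] (K1 Kr Kh : ℝ), 1 ≤ K1 → 16 ≤ Kr →
    1 ≤ Kh → ∃ K : ℝ, 1 ≤ K ∧ ∀ (I : Finset ℕ) (W : ℕ → X → ℝ) (s : ℕ → ℝ) (κ H κs : ℝ),
      CS I W s κ H K1 → Kr * κ ≤ κs → 20 * Kh * κs ≤ H →
      ∃ e2 : X × ℝ → ℝ, (∀ y, |e2 y| ≤ 256 * κs) ∧ C2B e2 (K * κs / κ) (K * κs / κ ^ 2) ∧
        ∀ y t, 2 < cq I W s (Kr * κ) y → |ce I W s (Kr * κ) y| < Kr * κ →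
          |t - (y.2 - ce I W s (Kr * κ) y)| < 3 * Kh * κs →
          ‖fderiv ℝ e2 (y.1, t)‖ ≤ K ∧ (|ce I W s (Kr * κ) y + (t - y.2)| ≤ 64 * κs →
            e2 (y.1, t) = ce I W s (Kr * κ) y + (t - y.2))

def ClusStmt : Prop :=
  ∀ (ι : Type) [Fintype ι] [DecidableEq ι] (m : ℕ) (K1 Kr Kh : ℝ), 1 ≤ K1 → 16 ≤ Kr → 1 ≤ Kh →
    ∃ Kq Kb : ℝ, 1 ≤ Kq ∧ 1 ≤ Kb ∧
    ∀ (N P P' R ε lam ℓ : ℝ) (p : ι → ℕ) (A Rq : ι → (ι → ℝ) × ℝ → ℝ), FPar Kb N P P' R ε lam →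
      (∀ k l, k ≠ l → Nat.Coprime (p k) (p l)) → (∀ k, P ≤ p k) → 0 < ℓ → ℓ ≤ 1 →
      Rg K1 ℓ (ℓ / 16) (2 * m) A Rq →
      ∃ q e e2, CLS m Kq Kr Kh p (ℓ / R) ℓ (N * P' * (ℓ / R / 16)) Rq q e e2

def VMoveStmt : Prop :=
  ∀ (X : Type) [NormedAddCommGroup X] [NormedSpace ℝ X] [FiniteDimensional ℝ X] (K1 : ℝ),
    1 ≤ K1 → ∃ K : ℝ, 1 ≤ K ∧ ∀ (q e : X × ℝ → ℝ) (κ h : ℝ) (Z : ℝ → ℝ) (A1 A2 c : ℝ), 0 < κ →
      0 < h → QE q e κ h K1 → C2B Z A1 A2 → 1 ≤ A1 → (∀ v, |Z v| ≤ 16 * κ) →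
      (∀ v, h / 2 ≤ |v| → Z v = 0) → 0 < c → c ≤ 1 → (∀ v, c ≤ 1 + deriv Z v) →
      C2B (vm q e Z) (K * A1) (K * (A1 / κ + A2)) ∧
      (∀ y, ‖fderiv ℝ (vm q e Z) y‖ ≤ 1 ∨ (2 < q y ∧ |e y| < h)) ∧
      (∀ y y', ‖y - y'‖ ≤ K * A1 / c * ‖vm q e Z y - vm q e Z y'‖) ∧
      ∀ y, c ≤ |(fderiv ℝ (vm q e Z) y).det|

def ZStmt : Prop :=
  ∃ K : ℝ, 1 ≤ K ∧ ∀ ε κ : ℝ, 0 < ε → ε ≤ 1 → 0 < κ →
    (∃ Z, ZAh K ε κ Z) ∧ ∃ Z, ZBh K ε κ Z

def VertS2Stmt : Prop :=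
  ∀ (X : Type) [NormedAddCommGroup X] [NormedSpace ℝ X], ∃ Kh : ℝ, 64 ≤ Kh ∧
    ∀ K1 : ℝ, 1 ≤ K1 → ∃ K : ℝ, 1 ≤ K ∧ ∀ (q e e2 : X × ℝ → ℝ) (κ κ' : ℝ), 0 < κ' → κ' ≤ κ →
      QE q e κ (Kh * κ) K1 → (∀ y, |e2 y| ≤ 256 * κ) → C2B e2 (K1 * κ / κ') (K1 * κ / κ' ^ 2) →
      ∃ S : X × ℝ → X × ℝ, C2B S (K * κ / κ') (K * κ / κ' ^ 2) ∧ (∀ y, (S y).1 = y.1) ∧
        Injective S ∧ (∀ y, ‖S y - y‖ ≤ 512 * κ) ∧ (∀ y, q y ≤ 1 → S y = y) ∧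
        (∀ y, 2 ≤ q y → |e y| ≤ 16 * κ → S y = (y.1, y.2 + 2 * e2 (y.1, y.2 - e y))) ∧
        ∀ y, (1 ≤ q y → |e y| ≤ Kh * κ → ‖fderiv ℝ e2 (y.1, y.2 - e y)‖ ≤ K1) →
          ‖fderiv ℝ S y‖ ≤ K

def Conj2Stmt : Prop :=
  ∀ (X : Type) [NormedAddCommGroup X] [NormedSpace ℝ X] (K1 : ℝ), 1 ≤ K1 → ∃ K : ℝ, 1 ≤ K ∧
    ∀ (q e : X × ℝ → ℝ) (κ : ℝ) (B : X × ℝ → X × ℝ) (A1 A2 μ : ℝ), 0 < κ →
      QE q e κ (48 * κ) K1 → C2B B A1 A2 → 1 ≤ A1 → Injective B → (∀ z, ‖B z - z‖ ≤ μ) →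
      (∀ z, B z ≠ z → 5 / 2 ≤ q z ∧ |e z| ≤ 33 * κ) →
      ∃ Γ : X × ℝ → X × ℝ, C2B Γ (K * A1) (K * (A2 + A1 ^ 2 / κ)) ∧ Injective Γ ∧
        (∀ y, ‖Γ y - y‖ ≤ K * μ) ∧ (∀ y, q y ≤ 2 → Γ y = y) ∧
        (∀ y, Γ y = y ∨ ∃ t, |t - y.2| ≤ 96 * κ ∧ (Γ y).1 = (B (y.1, t)).1) ∧
        ∀ z, 2 < q z → |e z| < 48 * κ → Γ (rho e z) = rho e (B z)

def FSqStmt : Prop :=
  ∀ (ι : Type) [Fintype ι] [DecidableEq ι] (M : ℕ) (P' : ℝ), 2 ≤ M → 1 ≤ P' → ∃ K : ℝ, 1 ≤ K ∧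
    ∀ (p : ι → ℕ) (u : ℝ), (∀ k, 1 ≤ p k ∧ (p k : ℝ) ≤ P') → 0 < u →
      ∃ uu : ι → ℝ → ℝ, ∀ (Θ : ι → (ι → ℝ) × ℝ → ℝ) (ν : (ι → ℝ) × ℝ → ℝ) (ν0 : ℝ), 0 < ν0 →
        (∀ y, ν0 ≤ ν y ∧ ν y ≤ 1) → (∀ k y, 0 ≤ Θ k y ∧ Θ k y ≤ 1 - ν y ^ M) →
        (∀ k, C2B (Θ k) (1 / (2 * (P' * u))) (1 / (P' * u) ^ 2)) →
        ∃ a b, SqO M K P' u p uu Θ ν a b

def ThCStmt : Prop :=
  ∀ (X : Type) [NormedAddCommGroup X] [NormedSpace ℝ X] (M : ℕ) (K1 Kq : ℝ), 1 ≤ K1 → 1 ≤ Kq →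
    ∃ Kc K : ℝ, 1 ≤ Kc ∧ 1 ≤ K ∧
      (∀ (q e : X × ℝ → ℝ) (κ h κs : ℝ), 0 < κs → κs ≤ κ → QE q e κ h Kq →
        C2B (chi2 q e κs) (Kc / κs) (Kc / κs ^ 2) ∧
        C2B (ConjX.chi q e κs) (Kc / κs) (Kc / κs ^ 2) ∧
        ∀ y, 0 ≤ chi2 q e κs y ∧ chi2 q e κs y ≤ 1) ∧
      ∀ (ℓ κm ν0 νs : ℝ) (A c χ : X × ℝ → ℝ), 0 < κm → κm ≤ ℓ → 0 < ν0 → ν0 ≤ νs →
        νs ≤ 1 / 4 → C2B A (K1 / ℓ) (K1 / ℓ ^ 2) → (∀ y, 0 ≤ A y ∧ A y ≤ 1) →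
        C2B c (Kc / κm) (Kc / κm ^ 2) → (∀ y, 0 ≤ c y ∧ c y ≤ 1) →
        C2B χ (Kc / κm) (Kc / κm ^ 2) → (∀ y, 0 ≤ χ y ∧ χ y ≤ 1) →
        C2B (Th ℓ M A (nuf ν0 νs c)) (K / κm) (K / κm ^ 2) ∧
        C2B (fun y => χ y * Th ℓ M A (nuf ν0 νs c) y) (K / κm) (K / κm ^ 2) ∧
        ∀ y, ν0 ≤ nuf ν0 νs c y ∧ nuf ν0 νs c y ≤ 2 * νs ∧ 0 ≤ Th ℓ M A (nuf ν0 νs c) y ∧
          Th ℓ M A (nuf ν0 νs c) y ≤ 1 - nuf ν0 νs c y ^ M

def LevAStmt : Prop :=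
  ∀ (ι : Type) [Fintype ι] [DecidableEq ι] (M : ℕ) (Kr Kq Kz : ℝ), 64 ≤ Kr → 1 ≤ Kq → 1 ≤ Kz →
    ∃ Kb : ℝ, 1 ≤ Kb ∧ ∀ N P P' R ε lam : ℝ, FPar Kb N P P' R ε lam → ∀ Ks : ℝ, 1 ≤ Ks →
    ∃ Kw : ℝ, 1 ≤ Kw ∧ ∀ (m : ℕ) (K1 Kh ℓ κs : ℝ) (p : ι → ℕ) (uu : ι → ℝ → ℝ)
      (A Rq : ι → (ι → ℝ) × ℝ → ℝ) (q e e2 ν : (ι → ℝ) × ℝ → ℝ)
      (a b : (ι → ℝ) × ℝ → (ι → ℝ) × ℝ) (Z : ℝ → ℝ), 0 < ℓ →
      Rg K1 ℓ (ℓ / 16) (2 * m) A Rq → CLS m Kq Kr Kh p (ℓ / R) ℓ κs Rq q e e2 →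
      (∀ y, 0 < ν y ∧ ν y ≤ 1) → SqO M Ks P' (ℓ / R) p uu (fun k => Th ℓ M (A k) ν) ν a b →
      ZAh Kz ε (ℓ / R / 16) Z →
      LA lam ℓ Kw M m A (fun y => vm q e Z (a y)) (rho e) ν (chi2 q e (ε * (ℓ / R / 16)))

def LevBStmt : Prop :=
  ∀ (ι : Type) [Fintype ι] [DecidableEq ι], ∃ Kh Kr0 : ℝ, 64 ≤ Kh ∧ 64 ≤ Kr0 ∧
    ∀ Kr Kq Kz : ℝ, Kr0 ≤ Kr → 1 ≤ Kq → 1 ≤ Kz →
    ∃ Kb : ℝ, 1 ≤ Kb ∧ ∀ N P P' R ε lam : ℝ, FPar Kb N P P' R ε lam → ∀ Ks : ℝ, 1 ≤ Ks →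
    ∃ Kw : ℝ, 1 ≤ Kw ∧ ∀ (M m : ℕ) (ℓ0 ℓ κ0 κs : ℝ) (p : ι → ℕ) (uu : ι → ℝ → ℝ)
      (A Θ R0 Rq : ι → (ι → ℝ) × ℝ → ℝ) (q0 e0 e20 q e e2 ν : (ι → ℝ) × ℝ → ℝ)
      (a b a' b' : (ι → ℝ) × ℝ → (ι → ℝ) × ℝ) (Z : ℝ → ℝ), 0 < ℓ0 → ℓ = lam * ℓ0 →
      κs = ε * (ℓ0 / R / 16) → CLS m Kq Kr Kh p (ℓ0 / R) ℓ0 κ0 R0 q0 e0 e20 →
      CLS m Kq Kr Kh p (ℓ / R) ℓ κs Rq q e e2 → SqO M Ks P' (ℓ / R) p uu Θ ν a b →
      SqO M Ks P' (ℓ / R) p uu (fun k y => ConjX.chi q0 e0 κs y * Θ k y) ν a' b' →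
      (∀ k y, A k y = 0 → Θ k y = 0) → ZAh Kz ε (ℓ / R / 16) Z →
      ∃ Pm : (ι → ℝ) × ℝ → (ι → ℝ) × ℝ, LB lam ℓ Kw A Pm ∧
        ∀ y, chi2 q0 e0 κs y ≠ 0 → chi2 q e (ε * (ℓ / R / 16)) (vm q e Z (a y)) ≠ 0 →
          Pm (rho e (vm q e Z (a y))) = rho e0 y

def NuStmt : Prop :=
  ∀ (q K Kw δ : ℝ) (M m : ℕ), 1 ≤ q → (2 * M + 1) * q < M * m → 1 ≤ K → 1 ≤ Kw → 0 < δ →
    ∃ (νs Bs : ℝ) (ν0 B : ℕ → ℝ), νs ≤ 1 / 4 ∧ 1 ≤ Bs ∧ (∀ j, 0 < ν0 j ∧ ν0 j ≤ νs ∧ 1 ≤ B j) ∧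
      ∀ (j : ℕ) (ν D : ℝ), 0 ≤ D → ν0 j ≤ ν →
        (1 ≤ Kw * D → (K ^ 3 * (Kw / ν ^ (2 * M + 1))) ^ q ≤ B j * D) ∧
        (νs ≤ ν → 1 ≤ Kw * D → (K ^ 3 * (Kw / ν ^ (2 * M + 1))) ^ q ≤ Bs * D) ∧
        (ν ≤ 2 * νs → 1 ≤ Kw * ν ^ (M * m) * D →
          (K ^ 3 * (Kw / ν ^ (2 * M + 1))) ^ q ≤ 1 / 2 * D) ∧
        (ν = ν0 j → 1 ≤ Kw * ν ^ (M * m) * D →
          (K ^ 3 * (Kw / ν ^ (2 * M + 1))) ^ q * ∏ k ∈ Finset.range j, B k ≤ δ / 2 ^ j * D)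

def FPackStmt : Prop :=
  ∀ (ι : Type) [Fintype ι] [DecidableEq ι] (m : ℕ) (q K1 : ℝ), 1 ≤ Fintype.card ι → 1 ≤ q →
    2 * q < m → 1 ≤ K1 → ∃ lam1 : ℝ, 0 < lam1 ∧ ∀ lam : ℝ, 0 < lam → lam ≤ lam1 →
    ∀ (KT : ℝ) (act req : ℕ → ι → (ι → ℝ) → ℝ),
      (∀ j, Rg K1 (el lam j) (el lam j) (2 * m) (act j) (req j)) →
      ∃ (K Bs : ℝ) (B : ℕ → ℝ) (α ρ P : ℕ → (ι → ℝ) × ℝ → (ι → ℝ) × ℝ)
        (c w : ℕ → (ι → ℝ) × ℝ → ℝ), KT ≤ K ∧ PF q lam K Bs B act α ρ P c w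

/-! ### the abstract part -/

/-- a statement about all pairs of packs -/
def AllP (Q : ∀ (ι : Type) [Fintype ι] [DecidableEq ι] (_ _ _ _ : ℝ) (_ : ℕ → ℝ)
    (_ : ℕ → ι → (ι → ℝ) → ℝ) (_ : ℕ → (ι → ℝ) × ℝ → (ι → ℝ) × ℝ) (_ : ℕ → (ι → ℝ) → ι → ℝ)
    (_ : ℕ → (ι → ℝ) → ℝ) (_ _ _ : ℕ → (ι → ℝ) × ℝ → (ι → ℝ) × ℝ)
    (_ _ : ℕ → (ι → ℝ) × ℝ → ℝ), Prop) : Prop :=
  ∀ (ι : Type) [Fintype ι] [DecidableEq ι] (q lam K C Bs : ℝ) (B : ℕ → ℝ)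
    (act : ℕ → ι → (ι → ℝ) → ℝ) (H : ℕ → (ι → ℝ) × ℝ → (ι → ℝ) × ℝ) (g : ℕ → (ι → ℝ) → ι → ℝ)
    (U : ℕ → (ι → ℝ) → ℝ) (α ρ P : ℕ → (ι → ℝ) × ℝ → (ι → ℝ) × ℝ) (c w : ℕ → (ι → ℝ) × ℝ → ℝ),
    PT q lam K C act H g U → PF q lam K Bs B act α ρ P c w → Q ι q lam K Bs B act H g U α ρ P c w

def LimStmt : Prop :=
  AllP fun ι _ _ _ _ _ _ _ _ H _ _ α ρ P _ _ =>
    (∀ j, ContDiff ℝ 2 (FF2 H P ρ α j)) ∧
    ∃ f : (ι → ℝ) × ℝ → (ι → ℝ) × ℝ, Continuous f ∧ Injective f ∧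
      (∀ y, Tendsto (fun j => FF2 H P ρ α j y) atTop (𝓝 (f y))) ∧
      ∀ j, ∀ y ∈ ball (0 : (ι → ℝ) × ℝ) 1, ‖FF2 H P ρ α j y‖ ≤ 10

def LocStmt : Prop :=
  AllP fun _ _ _ _ lam _ _ _ _ H _ U α ρ P c _ => ∀ j y,
    (y.2 ≤ -4 * el lam (j + 1) → c (j + 1) (Gs α (j + 1) y) ≠ 0 →
      c (j + 2) (Gs α (j + 2) y) ≠ 0 → FF2 H P ρ α (j + 1) =ᶠ[𝓝 y] FF2 H P ρ α j) ∧
    (4 * el lam (j + 1) ≤ y.2 → FF2 H P ρ α (j + 1) =ᶠ[𝓝 y] FF2 H P ρ α j) ∧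
    (|y.2| ≤ 4 * el lam (j + 1) →
      ‖D2 (FF2 H P ρ α j) y‖ ≤ 4 * (Ut lam U (j + 1) y.1 / el lam (j + 1)))

def ChainStmt : Prop :=
  ∀ (E : Type) [NormedAddCommGroup E] [NormedSpace ℝ E] (ℓ : ℕ → ℝ), (∀ k, 0 < ℓ k) →
    (∀ k, ℓ (k + 1) ≤ ℓ k / 2) →
    (∀ (α : ℕ → E → E) (w : ℕ → E → ℝ), (∀ k, ContDiff ℝ 2 (α k)) → (∀ k y, 1 ≤ w k y) →
      (∀ k y, ‖fderiv ℝ (α k) y‖ ^ 2 ≤ w k y) → (∀ k y, ‖D2 (α k) y‖ ≤ w k y / ℓ k) →
      ∀ n, ContDiff ℝ 2 (Gs α (n + 1)) ∧ ∀ y,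
        ‖fderiv ℝ (Gs α (n + 1)) y‖ ^ 2 ≤ ∏ k ∈ Finset.range (n + 1), w k (Gs α k y) ∧
        ‖D2 (Gs α (n + 1)) y‖ ≤ 2 * (∏ k ∈ Finset.range (n + 1), w k (Gs α k y)) / ℓ n) ∧
    ∀ (P : ℕ → E → E) (K : ℝ), 1 ≤ K → (∀ k, C2B (P k) K (K / ℓ k)) →
      ∀ n, C2B (Fw P (n + 1)) (K ^ (n + 1)) (2 * K ^ (2 * (n + 1)) / ℓ n)

def StripEqStmt : Prop :=
  AllP fun _ _ _ _ lam _ _ _ act H g _ α ρ P _ _ => ∀ i n y, |y.2| < 41 / 10 * el lam i →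
    (∀ k, Gs α (i + k) y = Gs (fun l => α (i + l)) k y ∧ ‖Gs α (i + k) y - y‖ ≤ el lam i / 50) ∧
    ‖Xi2 H P ρ α i n y - y‖ ≤ el lam i / 10 ∧
    ((n = 0 ∨ y.2 < -(39 / 10) * el lam (i + 1)) →
      FF2 H P ρ α (i + n) y = (g i (Xi2 H P ρ α i n y).1, phi (Xi2 H P ρ α i n y).2) ∧
      ∀ k, (∀ x', ‖x' - y.1‖ ≤ el lam i / 4 →
        act i k x' = 0 ∧ ∀ i', i = i' + 1 → act i' k x' = 0) → (Xi2 H P ρ α i n y).1 k = y.1 k)

def StripStmt : Prop :=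
  AllP fun ι _ _ _ lam K _ _ _ H _ U α ρ P _ w => ∀ i j y, i ≤ j → |y.2| ≤ 4 * el lam i →
    (i = j ∨ y.2 ≤ -4 * el lam (i + 1)) →
    ‖D2 (FF2 H P ρ α j) y‖ ≤
      100 * (Fintype.card ι + 1) * K ^ 4 * (Ut lam U i y.1 / el lam i) * Wp K w α i j y

def NIndStmt : Prop :=
  AllP fun _ _ _ q lam K Bs B _ _ _ _ α _ _ c w => ∀ i y, |y.2| ≤ 4 * el lam i →
    (∀ j, |(fderiv ℝ (Gs α (j + 1)) y).det| =
      ∏ k ∈ Finset.Icc i j, |(fderiv ℝ (α k) (Gs α k y)).det|) ∧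
    ∀ n, y.2 ≤ -4 * el lam (i + 1) → c (i + n + 1) (Gs α (i + n + 1) y) ≠ 1 →
      Wp K w α i (i + n) y ^ q ≤ (Bs + B 0) / 2 ^ n * |(fderiv ℝ (Gs α (i + n + 1)) y).det|

def CostStmt : Prop :=
  AllP fun _ _ _ q lam _ _ _ _ H _ U α ρ P _ _ => ∃ C' : ℝ, 0 ≤ C' ∧ ∀ j i y, i ≤ j + 1 →
    |y.2| ≤ 4 * el lam i → (i = j + 1 ∨ y.2 ≤ -4 * el lam (i + 1)) →
    ‖D2 (FF2 H P ρ α (j + 1)) y - D2 (FF2 H P ρ α j) y‖ ^ q ≤
      C' * (2 ^ i / 2 ^ j) * (Ut lam U i (Gs α (j + 2) y).1 / el lam i) ^ q *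
        |(fderiv ℝ (Gs α (j + 2)) y).det|

def IntStmt : Prop :=
  AllP fun ι _ _ q _ _ _ _ _ H _ _ α ρ P _ _ => ∃ C' : ℝ, ∀ j,
    ∫⁻ y in ball (0 : (ι → ℝ) × ℝ) 1,
      ENNReal.ofReal (‖D2 (FF2 H P ρ α (j + 1)) y - D2 (FF2 H P ρ α j) y‖ ^ q) ≤
        ENNReal.ofReal (C' * (3 / 4) ^ j)

def SignStmt : Prop :=
  AllP fun ι _ _ _ _ _ _ _ _ H _ _ α ρ P _ _ =>
    ∃ Pos Neg : Set ((ι → ℝ) × ℝ), Pos ⊆ ball 0 1 ∧ Neg ⊆ ball 0 1 ∧
      0 < volume Pos ∧ 0 < volume Neg ∧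
      (∀ y ∈ Pos, 0 < (fderiv ℝ (FF2 H P ρ α 0) y).det ∧
        ∀ j, fderiv ℝ (FF2 H P ρ α j) y = fderiv ℝ (FF2 H P ρ α 0) y) ∧
      ∀ y ∈ Neg, (fderiv ℝ (FF2 H P ρ α 0) y).det < 0 ∧
        ∀ j, fderiv ℝ (FF2 H P ρ α j) y = fderiv ℝ (FF2 H P ρ α 0) y

theorem main_of (hT : TPackStmt) (hF : FPackStmt) (hL : LimStmt) (hLoc : LocStmt) (hI : IntStmt)
    (hS : SignStmt) (hW : Wrap2Stmt) (r m : ℕ) (q : ℝ) (hr : 1 ≤ r) (hq1 : 1 ≤ q) (hq2 : q < 2)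
    (hqr : 2 * q < r + 2) (hqm : 2 * q < m) : SignChange (r + 2 * m + 1) q := by
  have hm : 1 ≤ m := by
    by_contra h
    have : m = 0 := by omega
    subst this
    norm_num at hqm
    linarith
  have hc : Fintype.card (Fin (r + 2 * m)) = r + 2 * m := Fintype.card_fin _
  obtain ⟨K1, hK1, hT⟩ := hT (Fin (r + 2 * m)) r q (by omega) hr hq1 hq2 hqr
  obtain ⟨lam1, hl1, hF⟩ := hF (Fin (r + 2 * m)) m q K1 (by omega) hq1 hqm hK1
  obtain ⟨lam, KT, C, l0, l1, act, req, H, g, U, hPT, hR⟩ := hT lam1 hl1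
  have e : Fintype.card (Fin (r + 2 * m)) - r = 2 * m := by omega
  rw [e] at hR
  obtain ⟨K, Bs, B, α, ρ, P, c, w, hK, hPF⟩ := hF lam l0 l1 KT act req hR
  have hPT := hPT K hK
  obtain ⟨hcd, f, f1, f2, f3, f4⟩ := hL _ q lam K C Bs B act H g U α ρ P c w hPT hPF
  obtain ⟨C', hC'⟩ := hI _ q lam K C Bs B act H g U α ρ P c w hPT hPF
  obtain ⟨Pos, Neg, s1, s2, s3, s4, s5, s6⟩ := hS _ q lam K C Bs B act H g U α ρ P c w hPT hPF
  refine hW (r + 2 * m) (FF2 H P ρ α) f 10 C' q hq1 hcd f1 f2 f3 f4 (fun j y hy => ?_) hC'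
    Pos Neg s1 s2 s3 s4 s5 s6
  refine (hLoc _ q lam K C Bs B act H g U α ρ P c w hPT hPF j y).2.1 (le_trans ?_ hy)
  have h1 : lam ^ (j + 1) ≤ lam := by
    rw [pow_succ]
    have : lam ^ j ≤ 1 := pow_le_one₀ l0.le (by linarith [hPF.l1])
    nlinarith
  unfold el
  linarith [hPF.l1]

end SK

end

section

namespace SK
open SJ Set Filter Topology MeasureTheory Metric Function
open scoped ENNReal

namespace ImpExX
variable {E : Type} [NormedAddCommGroup E] [NormedSpace ℝ E]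

theorem lipy {F : E × ℝ → ℝ} (hF : ContDiff ℝ 2 F)
    (h : ∀ p a, |fderiv ℝ F p (a, 0)| ≤ 1 / 2 * ‖a‖) (y y' : E) (v : ℝ) :
    |F (y, v) - F (y', v)| ≤ 1 / 2 * ‖y - y'‖ := by
  have hd : ∀ x : E, HasFDerivAt (fun x => F (x, v))
      ((fderiv ℝ F (x, v)).comp (ContinuousLinearMap.inl ℝ E ℝ)) x := fun x =>
    ((hF.differentiable (by norm_num) (x, v)).hasFDerivAt).comp x (hasFDerivAt_prodMk_left x v)
  exact convex_univ.norm_image_sub_le_of_norm_hasFDerivWithin_le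
    (fun x _ => (hd x).hasFDerivWithinAt)
    (fun x _ => ContinuousLinearMap.opNorm_le_bound _ (by norm_num) fun a => h (x, v) a)
    (mem_univ y') (mem_univ y)

theorem mono {F : E × ℝ → ℝ} (hF : ContDiff ℝ 2 F) {c : ℝ} (h : ∀ p, c ≤ slp F p) (y : E)
    (v v' : ℝ) : c * |v - v'| ≤ |v + F (y, v) - (v' + F (y, v'))| := by
  have hd : ∀ x : ℝ, HasDerivAt (fun x => x + F (y, x)) (slp F (y, x)) x := fun x =>
    (hasDerivAt_id x).add (((hF.differentiable (by norm_num) (y, x)).hasFDerivAt).comp_hasDerivAt x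
      ((hasDerivAt_const x y).prodMk (hasDerivAt_id x)))
  have key := mul_sub_le_image_sub_of_le_deriv (f := fun x => x + F (y, x)) (C := c)
    (fun x => (hd x).differentiableAt) (fun x => by rw [(hd x).deriv]; exact h _)
  rcases le_total v v' with hv | hv
  · rw [abs_sub_comm, abs_of_nonneg (sub_nonneg.2 hv), abs_sub_comm]
    exact (key hv).trans (le_abs_self _)
  · rw [abs_of_nonneg (sub_nonneg.2 hv)]
    exact (key hv).trans (le_abs_self _)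

end ImpExX

theorem impEx : ImpExStmt := by
  intro ι _ E _ _ _ J Λ F A B c H hF hc hs
  have hJ : ∀ v, ‖J v‖ ≤ ‖v‖ := fun v =>
    (J.le_opNorm v).trans (mul_le_of_le_one_left (norm_nonneg _) H.jn)
  have hΛ : ∀ v, ‖Λ v‖ ≤ 2 * ‖v‖ := fun v =>
    (Λ.le_opNorm v).trans (mul_le_mul_of_nonneg_right H.ln (norm_nonneg _))
  set A' := max A 0 with hA'
  set B' := max B 0 with hB'
  have hA0 : 0 ≤ A' := le_max_right _ _
  have hB0 : 0 ≤ B' := le_max_right _ _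
  have hF' : ∀ k, C2B (F k) A' B' := fun k => (hF k).mono (le_max_left _ _) (le_max_left _ _)
  let W : E × E → ι → ℝ := fun p k => F k (p.2, Λ p.1 k)
  let M : E × E → E × E := fun p => (p.1, p.2 - J (W p))
  have hin : ∀ k, C2B (fun p : E × E => (p.2, Λ p.1 k)) 2 0 := fun k => by
    have h1 : C2B (fun p : E × E => Λ p.1 k) 2 0 :=
      ((C2B.coord k).comp ((C2B.clm Λ).comp (C2B.fst' (E := E) (F := E)))).mono
        (by simpa using H.ln) (by simp)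
    exact ((C2B.snd' (E := E) (F := E)).mono one_le_two le_rfl).prodMk h1
  have hW : C2B W (A' * 2) (B' * 2 ^ 2 + A' * 0) :=
    C2B.pi (by positivity) (by positivity) fun k => (hF' k).comp (hin k)
  obtain ⟨A1, B1, hM⟩ : ∃ A1 B1, C2B M A1 B1 := by
    have h1 := (C2B.snd' (E := E) (F := E)).sub ((C2B.clm J).comp hW)
    exact ⟨_, _, ((C2B.fst' (E := E) (F := E)).mono (le_max_left _ _) (le_max_left _ _)).prodMk
      (h1.mono (le_max_right _ _) (le_max_right _ _))⟩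
  have hWl : ∀ p p' : E × E, ‖W p - W p'‖ ≤ 1 / 2 * ‖p.2 - p'.2‖ + A' * (2 * ‖p.1 - p'.1‖) := by
    intro p p'
    refine (pi_norm_le_iff_of_nonneg (by positivity)).2 fun k => ?_
    have h1 := ImpExX.lipy (H.cd k) (H.ctr k) p.2 p'.2 (Λ p.1 k)
    have h2 := (hF' k).lip (p'.2, Λ p.1 k) (p'.2, Λ p'.1 k)
    have h3 : ‖(p'.2, Λ p.1 k) - (p'.2, Λ p'.1 k)‖ ≤ 2 * ‖p.1 - p'.1‖ := by
      rw [Prod.mk_sub_mk, sub_self, Prod.norm_mk, norm_zero, max_eq_right (norm_nonneg _)]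
      refine le_trans ?_ (hΛ (p.1 - p'.1))
      rw [map_sub]
      exact norm_le_pi_norm (Λ p.1 - Λ p'.1) k
    have h4 := abs_sub_le (F k (p.2, Λ p.1 k)) (F k (p'.2, Λ p.1 k)) (F k (p'.2, Λ p'.1 k))
    have h5 := mul_le_mul_of_nonneg_left h3 hA0
    rw [Real.norm_eq_abs] at h2
    show |F k (p.2, Λ p.1 k) - F k (p'.2, Λ p'.1 k)| ≤ _
    linarith
  have hanti : ∀ p p' : E × E, 1 / (2 + 4 * A') * ‖p - p'‖ ≤ ‖M p - M p'‖ := by
    intro p p'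
    have h1 : ‖p.1 - p'.1‖ ≤ ‖M p - M p'‖ := norm_fst_le (M p - M p')
    have h2 : ‖p.2 - J (W p) - (p'.2 - J (W p'))‖ ≤ ‖M p - M p'‖ := norm_snd_le (M p - M p')
    have h3 : p.2 - p'.2 = (p.2 - J (W p) - (p'.2 - J (W p'))) + J (W p - W p') := by
      rw [map_sub]; abel
    have h4 : ‖p.2 - p'.2‖ ≤ ‖M p - M p'‖ + ‖W p - W p'‖ := by
      rw [h3]
      exact (norm_add_le _ _).trans (add_le_add h2 (hJ _))
    have h5 := hWl p p'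
    have h6 := mul_le_mul_of_nonneg_left h1 hA0
    have h7 := mul_nonneg hA0 (norm_nonneg (M p - M p'))
    have h8 := norm_nonneg (M p - M p')
    rw [one_div, inv_mul_le_iff₀ (by positivity), Prod.norm_def]
    refine max_le ?_ ?_
    · rw [Prod.fst_sub]; linarith
    · rw [Prod.snd_sub]; linarith
  obtain ⟨N, hl, hr, hN⟩ := inverse_c2 hM (by positivity) hanti
  let b : E → E := fun z => (N (z, z)).2
  have hb : ∀ z, ImpEq J Λ F z (b z) := fun z => by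
    have h := hr (z, z)
    have h1 : (N (z, z)).1 = z := congrArg Prod.fst h
    have h2 : b z - J (fun k => F k (b z, Λ (N (z, z)).1 k)) = z := congrArg Prod.snd h
    rw [h1] at h2
    exact (sub_eq_iff_eq_add.1 h2)
  have hu : ∀ z y, ImpEq J Λ F z y → y = b z := fun z y h => by
    have h1 : M (z, y) = (z, z) := Prod.ext rfl (sub_eq_iff_eq_add.2 h)
    show y = (N (z, z)).2
    rw [← h1, hl]
  have hbC := (hN.comp ((C2B.id' (E := E)).prodMk C2B.id')).snd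
  have hba : ∀ z z', c / (3 * c + 3) * ‖z - z'‖ ≤ ‖b z - b z'‖ := by
    intro z z'
    have e : ∀ z, Λ (b z) = Λ z + fun k => F k (b z, Λ z k) := fun z => by
      have h := congrArg Λ (hb z)
      rwa [map_add, H.jl] at h
    have h0 := norm_nonneg (b z - b z')
    have h1 : ‖Λ (b z) - Λ (b z')‖ ≤ 2 * ‖b z - b z'‖ := by rw [← map_sub]; exact hΛ _
    have h2 : ‖Λ z - Λ z'‖ ≤ 3 / c * ‖b z - b z'‖ := by
      refine (pi_norm_le_iff_of_nonneg (by positivity)).2 fun k => ?_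
      have k1 := ImpExX.mono (H.cd k) (hs k) (b z) (Λ z k) (Λ z' k)
      have k2 := ImpExX.lipy (H.cd k) (H.ctr k) (b z') (b z) (Λ z' k)
      have k3 : |Λ (b z) k - Λ (b z') k| ≤ 2 * ‖b z - b z'‖ :=
        (norm_le_pi_norm (Λ (b z) - Λ (b z')) k).trans h1
      rw [e z, e z', Pi.add_apply, Pi.add_apply] at k3
      rw [norm_sub_rev] at k2
      have k4 := abs_add_le (Λ z k + F k (b z, Λ z k) - (Λ z' k + F k (b z', Λ z' k)))
        (F k (b z', Λ z' k) - F k (b z, Λ z' k))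
      have k5 : Λ z k + F k (b z, Λ z k) - (Λ z' k + F k (b z', Λ z' k)) +
          (F k (b z', Λ z' k) - F k (b z, Λ z' k)) =
          Λ z k + F k (b z, Λ z k) - (Λ z' k + F k (b z, Λ z' k)) := by ring
      rw [k5] at k4
      show |Λ z k - Λ z' k| ≤ _
      rw [div_mul_eq_mul_div, le_div_iff₀ hc]
      linarith
    have e2 : ∀ z, z = b z - J (Λ (b z) - Λ z) := fun z => by
      rw [e z, add_sub_cancel_left]
      exact eq_sub_iff_add_eq.2 (hb z).symm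
    have h3 : z - z' = (b z - b z') - J ((Λ (b z) - Λ (b z')) - (Λ z - Λ z')) := by
      conv_lhs => rw [e2 z, e2 z']
      simp only [map_sub]
      abel
    have h4 : ‖z - z'‖ ≤ ‖b z - b z'‖ + (2 * ‖b z - b z'‖ + 3 / c * ‖b z - b z'‖) := by
      rw [h3]
      exact (norm_sub_le _ _).trans (add_le_add le_rfl
        ((hJ _).trans ((norm_sub_le _ _).trans (add_le_add h1 h2))))
    have h5 : ‖b z - b z'‖ + (2 * ‖b z - b z'‖ + 3 / c * ‖b z - b z'‖) =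
        (3 * c + 3) / c * ‖b z - b z'‖ := by field_simp; ring
    rw [h5, div_mul_eq_mul_div, le_div_iff₀ hc] at h4
    rw [div_mul_eq_mul_div, div_le_iff₀ (by positivity)]
    linarith
  obtain ⟨a, h1, h2, h3⟩ := inverse_c2 (f := b) hbC (by positivity) hba
  exact ⟨a, b, h1, h2, h3.cd, hbC.cd, hb, hu⟩

end SK

end

section

namespace SK
open SJ Set Filter Topology MeasureTheory Metric Function
open scoped ENNReal

namespace ImpFormX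

theorem fd_id {E : Type} [NormedAddCommGroup E] [NormedSpace ℝ E] (y v : E) :
    fderiv ℝ (fun x : E => x) y v = v := by simp

theorem d2_id {E : Type} [NormedAddCommGroup E] [NormedSpace ℝ E] (y v w : E) :
    D2 (fun x : E => x) y v w = 0 := by
  have h : D2 (fun x : E => x) y = 0 := D2_clm (ContinuousLinearMap.id ℝ E) y
  rw [h]; rfl

theorem gen {ι : Type} [Fintype ι] {E : Type} [NormedAddCommGroup E] [NormedSpace ℝ E]
    (J : (ι → ℝ) →L[ℝ] E) (Λ : E →L[ℝ] ι → ℝ) (F : ι → E × ℝ → ℝ)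
    (hF : ∀ k, ContDiff ℝ 2 (F k)) (f g : E → E) (hf : ContDiff ℝ 2 f) (hg : ContDiff ℝ 2 g)
    (h : ∀ x, ImpEq J Λ F (g x) (f x)) (x v w : E) :
    (fderiv ℝ f x v = fderiv ℝ g x v + J fun k =>
      fderiv ℝ (F k) (f x, Λ (g x) k) (fderiv ℝ f x v, Λ (fderiv ℝ g x v) k)) ∧
    D2 f x v w = D2 g x v w + J fun k =>
      D2 (F k) (f x, Λ (g x) k) (fderiv ℝ f x v, Λ (fderiv ℝ g x v) k)
          (fderiv ℝ f x w, Λ (fderiv ℝ g x w) k) +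
        fderiv ℝ (F k) (f x, Λ (g x) k) (D2 f x v w, Λ (D2 g x v w) k) := by
  let L : ι → E →L[ℝ] ℝ := fun k =>
    (ContinuousLinearMap.proj (R := ℝ) (φ := fun _ : ι => ℝ) k).comp Λ
  let m : ι → E → E × ℝ := fun k z => (f z, Λ (g z) k)
  have hL : ∀ k, ContDiff ℝ 2 fun z => L k (g z) := fun k => (L k).contDiff.comp hg
  have hm : ∀ k, ContDiff ℝ 2 (m k) := fun k => hf.prodMk (hL k)
  have m1 : ∀ k u, fderiv ℝ (m k) x u = (fderiv ℝ f x u, Λ (fderiv ℝ g x u) k) := by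
    intro k u
    refine Prod.ext ?_ ?_
    · exact (Calc2X.fderiv_clm_comp (ContinuousLinearMap.fst ℝ E ℝ) (hm k) x u).symm
    · exact (Calc2X.fderiv_clm_comp (ContinuousLinearMap.snd ℝ E ℝ) (hm k) x u).symm.trans
        (Calc2X.fderiv_clm_comp (L k) hg x u)
  have m2 : ∀ k, D2 (m k) x v w = (D2 f x v w, Λ (D2 g x v w) k) := by
    intro k
    refine Prod.ext ?_ ?_
    · exact (D2_clm_comp (ContinuousLinearMap.fst ℝ E ℝ) (hm k) x v w).symm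
    · exact (D2_clm_comp (ContinuousLinearMap.snd ℝ E ℝ) (hm k) x v w).symm.trans
        (D2_clm_comp (L k) hg x v w)
  let G : E → ι → ℝ := fun z k => F k (m k z)
  have hG : ContDiff ℝ 2 G := contDiff_pi.2 fun k => (hF k).comp (hm k)
  have hJ : ContDiff ℝ 2 fun z => J (G z) := J.contDiff.comp hG
  have e : f = fun z => g z + J (G z) := funext h
  have g1 : fderiv ℝ G x v = fun k =>
      fderiv ℝ (F k) (f x, Λ (g x) k) (fderiv ℝ f x v, Λ (fderiv ℝ g x v) k) := by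
    funext k
    have a := (Calc2X.fderiv_clm_comp
      (ContinuousLinearMap.proj (R := ℝ) (φ := fun _ : ι => ℝ) k) hG x v).symm
    have b : fderiv ℝ (fun z => F k (m k z)) x = (fderiv ℝ (F k) (m k x)).comp (fderiv ℝ (m k) x) :=
      ((Calc1X.diff1 (hF k) (m k x)).hasFDerivAt.comp x
        (Calc1X.diff1 (hm k) x).hasFDerivAt).fderiv
    refine a.trans ?_
    show fderiv ℝ (fun z => F k (m k z)) x v = _
    rw [b, ContinuousLinearMap.comp_apply, m1]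
  have g2 : D2 G x v w = fun k =>
      D2 (F k) (f x, Λ (g x) k) (fderiv ℝ f x v, Λ (fderiv ℝ g x v) k)
          (fderiv ℝ f x w, Λ (fderiv ℝ g x w) k) +
        fderiv ℝ (F k) (f x, Λ (g x) k) (D2 f x v w, Λ (D2 g x v w) k) := by
    funext k
    have a := (D2_clm_comp
      (ContinuousLinearMap.proj (R := ℝ) (φ := fun _ : ι => ℝ) k) hG x v w).symm
    refine a.trans ?_
    show D2 (fun z => F k (m k z)) x v w = _
    rw [D2_comp_apply (hF k) (hm k), m1, m1, m2]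
  constructor
  · rw [← g1, ← Calc2X.fderiv_clm_comp J hG x v]
    have a : fderiv ℝ (fun z => g z + J (G z)) x =
        fderiv ℝ g x + fderiv ℝ (fun z => J (G z)) x :=
      ((Calc1X.diff1 hg x).hasFDerivAt.add (Calc1X.diff1 hJ x).hasFDerivAt).fderiv
    rw [← e] at a
    rw [a]; rfl
  · rw [← g2, ← D2_clm_comp J hG x v w]
    have a := D2_add hg hJ x
    rw [← e] at a
    rw [a]; rfl

end ImpFormX

theorem impForm : ImpFormStmt := by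
  intro ι _ E _ _ J Λ F hF
  refine ⟨fun b hb h z v w => ?_, fun a ha h y v w => ?_⟩
  · have := ImpFormX.gen J Λ F hF b (fun x => x) hb contDiff_id h z v w
    simp only [ImpFormX.fd_id, ImpFormX.d2_id, map_zero, zero_add, Pi.zero_apply] at this
    exact this
  · have := ImpFormX.gen J Λ F hF (fun x => x) a contDiff_id ha h y v w
    simp only [ImpFormX.fd_id, ImpFormX.d2_id] at this
    exact this

end SK

end

section

namespace SK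
open SJ Set Filter Topology MeasureTheory Metric Function
open scoped ENNReal

namespace SumProdX

variable {E F G : Type} [NormedAddCommGroup E] [NormedSpace ℝ E] [NormedAddCommGroup F]
  [NormedSpace ℝ F] [NormedAddCommGroup G] [NormedSpace ℝ G]

theorem f_clm {g : F → G} (hg : ContDiff ℝ 2 g) (L : E →L[ℝ] F) (y v : E) :
    fderiv ℝ (fun x => g (L x)) y v = fderiv ℝ g (L y) (L v) := by
  have h := ((hg.differentiable (by norm_num) (L y)).hasFDerivAt.comp y L.hasFDerivAt).fderiv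
  have h' : fderiv ℝ (fun x => g (L x)) y = (fderiv ℝ g (L y)).comp L := h
  rw [h']
  rfl

theorem D_clm {g : F → G} (hg : ContDiff ℝ 2 g) (L : E →L[ℝ] F) (y v w : E) :
    D2 (fun x => g (L x)) y v w = D2 g (L y) (L v) (L w) := by
  have h := D2_comp_apply (f := fun x => L x) hg L.contDiff y v w
  have e : fderiv ℝ (fun x => L x) y = L := L.fderiv
  rw [h, D2_clm, e]
  simp

theorem D_real {φ : ℝ → ℝ} (h : ContDiff ℝ 2 φ) (u : ℝ) :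
    D2 φ u 1 1 = deriv (deriv φ) u := by
  have h1 : DifferentiableAt ℝ (fderiv ℝ φ) u :=
    (h.fderiv_right (m := 1) (by norm_num)).differentiable (by norm_num) u
  have h2 : deriv (deriv φ) u = deriv (fderiv ℝ φ) u 1 := by
    have := (h1.hasDerivAt.clm_apply (hasDerivAt_const u (1 : ℝ))).deriv
    have e : deriv φ = fun y => fderiv ℝ φ y 1 := funext fun y => rfl
    rw [e, this]
    simp
  rw [h2]
  rfl

theorem one {Θ : E → ℝ} {u : ℝ → ℝ} (hΘ : ContDiff ℝ 2 Θ) (hu : ContDiff ℝ 2 u) (p v w : E × ℝ) :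
    fderiv ℝ (fun p : E × ℝ => Θ p.1 * u p.2) p v =
      Θ p.1 * fderiv ℝ u p.2 v.2 + fderiv ℝ Θ p.1 v.1 * u p.2 ∧
    D2 (fun p : E × ℝ => Θ p.1 * u p.2) p v w =
      Θ p.1 * D2 u p.2 v.2 w.2 + fderiv ℝ Θ p.1 v.1 * fderiv ℝ u p.2 w.2 +
        (fderiv ℝ Θ p.1 w.1 * fderiv ℝ u p.2 v.2 + D2 Θ p.1 v.1 w.1 * u p.2) := by
  have c1 : ContDiff ℝ 2 fun p : E × ℝ => Θ p.1 := hΘ.comp contDiff_fst
  have c2 : ContDiff ℝ 2 fun p : E × ℝ => u p.2 := hu.comp contDiff_snd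
  have a1 : ∀ v : E × ℝ, fderiv ℝ (fun p : E × ℝ => Θ p.1) p v = fderiv ℝ Θ p.1 v.1 :=
    fun v => f_clm hΘ (ContinuousLinearMap.fst ℝ E ℝ) p v
  have a2 : ∀ v : E × ℝ, fderiv ℝ (fun p : E × ℝ => u p.2) p v = fderiv ℝ u p.2 v.2 :=
    fun v => f_clm hu (ContinuousLinearMap.snd ℝ E ℝ) p v
  have b1 : D2 (fun p : E × ℝ => Θ p.1) p v w = D2 Θ p.1 v.1 w.1 :=
    D_clm hΘ (ContinuousLinearMap.fst ℝ E ℝ) p v w
  have b2 : D2 (fun p : E × ℝ => u p.2) p v w = D2 u p.2 v.2 w.2 :=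
    D_clm hu (ContinuousLinearMap.snd ℝ E ℝ) p v w
  have h1 := Calc1X.fderiv_smul_apply c1 c2 p v
  have h2 := Calc1X.D2_smul_apply c1 c2 p v w
  simp only [smul_eq_mul, a1, a2, b1, b2] at h1 h2
  exact ⟨h1, h2⟩

end SumProdX

open SumProdX

theorem sumProd : SumProdStmt := by
  intro ν _ E _ _ Θ u hΘ hu
  have hc : ∀ n ∈ (Finset.univ : Finset ν), ContDiff ℝ 2 fun p : E × ℝ => Θ n p.1 * u n p.2 :=
    fun n _ => ((hΘ n).comp contDiff_fst).mul ((hu n).comp contDiff_snd)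
  have e : spF Θ u = fun p : E × ℝ => ∑ n, Θ n p.1 * u n p.2 := rfl
  refine ⟨ContDiff.sum hc, fun p a b => ?_⟩
  obtain ⟨s1, s2⟩ := Calc2X.sum_bound Finset.univ hc p
  have f1 : ∀ v, fderiv ℝ (spF Θ u) p v = ∑ n,
      (Θ n p.1 * fderiv ℝ (u n) p.2 v.2 + fderiv ℝ (Θ n) p.1 v.1 * u n p.2) := by
    intro v
    rw [e, s1, sum_apply]
    exact Finset.sum_congr rfl fun n _ => (one (hΘ n) (hu n) p v v).1
  have f2 : ∀ v w, D2 (spF Θ u) p v w = ∑ n,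
      (Θ n p.1 * D2 (u n) p.2 v.2 w.2 + fderiv ℝ (Θ n) p.1 v.1 * fderiv ℝ (u n) p.2 w.2 +
        (fderiv ℝ (Θ n) p.1 w.1 * fderiv ℝ (u n) p.2 v.2 + D2 (Θ n) p.1 v.1 w.1 * u n p.2)) := by
    intro v w
    rw [e, s2, sum_apply, sum_apply]
    exact Finset.sum_congr rfl fun n _ => (one (hΘ n) (hu n) p v w).2
  have d1 : ∀ n, fderiv ℝ (u n) p.2 1 = deriv (u n) p.2 := fun n => rfl
  refine ⟨?_, ?_, ?_, ?_, ?_⟩
  · rw [f1]
    refine Finset.sum_congr rfl fun n _ => ?_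
    simp only [map_zero]
    ring
  · rw [f1]
    refine Finset.sum_congr rfl fun n _ => ?_
    simp only [map_zero, d1]
    ring
  · rw [f2]
    refine Finset.sum_congr rfl fun n _ => ?_
    simp only [map_zero]
    ring
  · rw [f2]
    refine Finset.sum_congr rfl fun n _ => ?_
    simp only [map_zero, d1, zero_apply]
    ring
  · rw [f2]
    refine Finset.sum_congr rfl fun n _ => ?_
    simp only [map_zero, D_real (hu n)]
    ring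

end SK

end

section

namespace SK
open SJ Set Filter Topology MeasureTheory Metric Function
open scoped ENNReal

namespace Avg2X

open Classical in
theorem count_pi {ι : Type*} [Fintype ι] (τ : ι → ℝ) (h0 : ∀ k, 0 < τ k) (n0 : ℕ)
    (hn : ∀ k, 1 ≤ τ k * n0) (v : ι → ℝ) (S : Finset ι) :
    (((Finset.univ : Finset (ι → Fin n0)).filter
      fun i => ∀ k ∈ S, Near (τ k) (v k + (i k : ℕ) / n0)).card : ℝ) ≤
      (∏ k ∈ S, 10 * τ k) * (n0 : ℝ) ^ Fintype.card ι := by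
  have e : ((Finset.univ : Finset (ι → Fin n0)).filter
      fun i => ∀ k ∈ S, Near (τ k) (v k + (i k : ℕ) / n0)) =
      Fintype.piFinset fun k => (Finset.univ : Finset (Fin n0)).filter
        fun j : Fin n0 => k ∈ S → Near (τ k) (v k + (j : ℕ) / n0) := by
    ext i; simp
  rw [e, Fintype.card_piFinset]
  push_cast
  have : ∏ k, ((((Finset.univ : Finset (Fin n0)).filter
      fun j : Fin n0 => k ∈ S → Near (τ k) (v k + (j : ℕ) / n0)).card : ℕ) : ℝ) ≤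
      ∏ k : ι, ((if k ∈ S then 10 * τ k else 1) * (n0 : ℝ)) := by
    refine Finset.prod_le_prod (fun k _ => by positivity) fun k _ => ?_
    by_cases c : k ∈ S
    · simp only [c, true_imp_iff, if_true]
      exact AvgX.count (τ k) (h0 k) n0 (hn k) (v k)
    · simp [c]
  refine this.trans (le_of_eq ?_)
  rw [Finset.prod_mul_distrib, Finset.prod_ite_mem, Finset.univ_inter, Finset.prod_const,
    Finset.card_univ]

open Classical in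
theorem shift {ι Y α : Type*} [Fintype ι] [MeasurableSpace Y] (μ : Measure Y) (τ : ι → ℝ)
    (h0 : ∀ k, 0 < τ k) (u : Y → ι → ℝ) (hu : Measurable u) (T : Finset α)
    (S : α → Finset ι) (w : α → Y → ℝ≥0∞) (hw : ∀ a, Measurable (w a)) :
    ∃ ω : ι → ℝ, ∑ a ∈ T, ∫⁻ y, {y | ∀ k ∈ S a, Near (τ k) (u y k + ω k)}.indicator (w a) y ∂μ ≤
      ∑ a ∈ T, ENNReal.ofReal (∏ k ∈ S a, 10 * τ k) * ∫⁻ y, w a y ∂μ := by
  obtain ⟨n0, hn0⟩ := exists_nat_gt (∑ k, 1 / τ k)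
  have hs : 0 ≤ ∑ k, 1 / τ k := Finset.sum_nonneg fun k _ => by have := h0 k; positivity
  have hn : ∀ k, 1 ≤ τ k * n0 := fun k => by
    have a : 1 / τ k ≤ ∑ k, 1 / τ k :=
      Finset.single_le_sum (f := fun k => 1 / τ k) (fun k _ => by have := h0 k; positivity)
        (Finset.mem_univ k)
    have b := a.trans hn0.le
    rw [div_le_iff₀ (h0 k)] at b
    linarith
  have p : 0 < n0 := by exact_mod_cast hs.trans_lt hn0
  have : Nonempty (Fin n0) := ⟨⟨0, p⟩⟩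
  have ms : ∀ (a : α) (ω : ι → ℝ), MeasurableSet {y | ∀ k ∈ S a, Near (τ k) (u y k + ω k)} := by
    intro a ω
    have : {y | ∀ k ∈ S a, Near (τ k) (u y k + ω k)} =
        ⋂ k ∈ S a, (fun y => u y k + ω k) ⁻¹' {v | Near (τ k) v} := by
      ext y; simp
    rw [this]
    exact Finset.measurableSet_biInter _ fun k _ =>
      (((measurable_pi_apply k).comp hu).add_const _) (measurableSet_near (τ k))
  obtain ⟨i, -, hi⟩ := ENNReal.exists_le_of_sum_le (s := (Finset.univ : Finset (ι → Fin n0)))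
    Finset.univ_nonempty
    (f := fun i => ∑ a ∈ T, ∫⁻ y,
      {y | ∀ k ∈ S a, Near (τ k) (u y k + (i k : ℕ) / n0)}.indicator (w a) y ∂μ)
    (g := fun _ => ∑ a ∈ T, ENNReal.ofReal (∏ k ∈ S a, 10 * τ k) * ∫⁻ y, w a y ∂μ) (by
      rw [Finset.sum_comm, Finset.sum_comm (s := Finset.univ)  (t := T)]
      refine Finset.sum_le_sum fun a _ => ?_
      rw [← lintegral_finsetSum _ fun i _ => (hw a).indicator (ms a _), Finset.sum_const,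
        nsmul_eq_mul, ← mul_assoc, ← lintegral_const_mul _ (hw a)]
      refine lintegral_mono fun y => ?_
      have e : ∑ i : ι → Fin n0, {y | ∀ k ∈ S a, Near (τ k) (u y k + (i k : ℕ) / n0)}.indicator
          (w a) y = (((Finset.univ : Finset (ι → Fin n0)).filter
            fun i => ∀ k ∈ S a, Near (τ k) (u y k + (i k : ℕ) / n0)).card : ℝ≥0∞) * w a y := by
        rw [← nsmul_eq_mul, ← Finset.sum_const, Finset.sum_filter]
        refine Finset.sum_congr rfl fun i _ => ?_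
        by_cases c : ∀ k ∈ S a, Near (τ k) (u y k + (i k : ℕ) / n0)
        · rw [if_pos c]
          exact indicator_of_mem (s := {y | ∀ k ∈ S a, Near (τ k) (u y k + (i k : ℕ) / n0)}) c _
        · rw [if_neg c]
          exact indicator_of_notMem (s := {y | ∀ k ∈ S a, Near (τ k) (u y k + (i k : ℕ) / n0)}) c _
      dsimp only
      rw [e]
      refine mul_le_mul_left ?_ _
      have c := count_pi τ h0 n0 hn (u y) (S a)
      rw [← ENNReal.ofReal_natCast, ← ENNReal.ofReal_natCast (Finset.card _),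
        ← ENNReal.ofReal_mul (by positivity)]
      refine ENNReal.ofReal_le_ofReal ?_
      rw [Finset.card_univ, Fintype.card_fun, Fintype.card_fin]
      push_cast
      rw [mul_comm]
      exact c)
  exact ⟨fun k => (i k : ℕ) / n0, hi⟩

end Avg2X

theorem avg2 : Avg2Stmt := by
  intro ι Y α _ _ μ τ h0 _ u hu T S w hw
  obtain ⟨ω, hω⟩ := Avg2X.shift μ τ h0 u hu T S w hw
  refine ⟨fun k => ω k - 1 / 2, le_trans (Finset.sum_le_sum fun a _ => ?_) hω⟩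
  refine lintegral_mono fun y => ?_
  refine indicator_le_indicator_of_subset (fun z hz k hk => ?_) (fun _ => zero_le) y
  obtain ⟨n, hn⟩ := hz k hk
  refine ⟨n, ?_⟩
  have e : u z k + ω k - n - 1 / 2 = u z k + (ω k - 1 / 2) - n := by ring
  rw [e]
  linarith [h0 k]

end SK

end

section

namespace SK
open SJ Set Filter Topology MeasureTheory Metric Function
open scoped ENNReal

namespace SmX

variable {ι : Type} [Fintype ι] [DecidableEq ι]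

theorem h_pos {b : ι → ℝ} (hb : ∀ k, 0 < b k) {S : Finset ι} (hS : S.Nonempty) :
    0 < (∑ k ∈ S, (b k)⁻¹)⁻¹ :=
  inv_pos.2 (Finset.sum_pos (fun k _ => inv_pos.2 (hb k)) hS)

theorem h_le {b : ι → ℝ} (hb : ∀ k, 0 < b k) {S : Finset ι} {l : ι} (hl : l ∈ S) :
    (∑ k ∈ S, (b k)⁻¹)⁻¹ ≤ b l := by
  have h1 : (b l)⁻¹ ≤ ∑ k ∈ S, (b k)⁻¹ :=
    Finset.single_le_sum (f := fun k => (b k)⁻¹) (fun k _ => (inv_pos.2 (hb k)).le) hl
  have h2 := inv_anti₀ (inv_pos.2 (hb l)) h1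
  rwa [inv_inv] at h2

theorem le_h {b : ι → ℝ} (hb : ∀ k, 0 < b k) {S : Finset ι} (hS : S.Nonempty) :
    ∃ l ∈ S, b l ≤ (S.card : ℝ) * (∑ k ∈ S, (b k)⁻¹)⁻¹ := by
  obtain ⟨l, hl, hmin⟩ := Finset.exists_min_image S b hS
  refine ⟨l, hl, ?_⟩
  have hpos : 0 < ∑ k ∈ S, (b k)⁻¹ := Finset.sum_pos (fun k _ => inv_pos.2 (hb k)) hS
  have h1 : ∑ k ∈ S, (b k)⁻¹ ≤ (S.card : ℝ) * (b l)⁻¹ := by
    have := Finset.sum_le_card_nsmul S (fun k => (b k)⁻¹) (b l)⁻¹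
      (fun k hk => inv_anti₀ (hb l) (hmin k hk))
    rwa [nsmul_eq_mul] at this
  rw [← div_eq_mul_inv, le_div_iff₀ hpos]
  have h2 := mul_le_mul_of_nonneg_left h1 (hb l).le
  have h3 : b l * ((S.card : ℝ) * (b l)⁻¹) = S.card := by
    have := (hb l).ne'
    field_simp
  linarith

theorem pc_ne {r : ℕ} (hr : r + 1 ≤ Fintype.card ι) :
    ((Finset.univ : Finset ι).powersetCard (r + 1)).Nonempty :=
  Finset.powersetCard_nonempty.2 (by rwa [Finset.card_univ])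

theorem pc_card (r : ℕ) :
    (((Finset.univ : Finset ι).powersetCard (r + 1)).card : ℝ) ≤ 2 ^ Fintype.card ι := by
  have h1 : ((Finset.univ : Finset ι).powersetCard (r + 1)).card ≤
      (Finset.univ : Finset ι).powerset.card :=
    Finset.card_le_card (fun S hS => Finset.mem_powerset.2 (Finset.subset_univ S))
  rw [Finset.card_powerset, Finset.card_univ] at h1
  exact_mod_cast h1

theorem ne_of_mem {r : ℕ} {S : Finset ι}
    (hS : S ∈ (Finset.univ : Finset ι).powersetCard (r + 1)) : S.Nonempty := by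
  rw [← Finset.card_pos, (Finset.mem_powersetCard.1 hS).2]
  omega

theorem sm_pos {r : ℕ} (hr : r + 1 ≤ Fintype.card ι) {b : ι → ℝ} (hb : ∀ k, 0 < b k) :
    0 < sm r b :=
  Finset.sum_pos (fun S hS => h_pos hb (ne_of_mem hS)) (pc_ne hr)

theorem item1 {r : ℕ} {b : ι → ℝ} (hb : ∀ k, 0 < b k) (S : Finset ι) (hS : S.card = r + 1) :
    ∃ l ∈ S, b l ≤ (r + 1) * sm r b := by
  have hm : S ∈ (Finset.univ : Finset ι).powersetCard (r + 1) :=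
    Finset.mem_powersetCard.2 ⟨Finset.subset_univ S, hS⟩
  obtain ⟨l, hl, h⟩ := le_h hb (ne_of_mem hm)
  refine ⟨l, hl, h.trans ?_⟩
  have h1 : (∑ k ∈ S, (b k)⁻¹)⁻¹ ≤ sm r b :=
    Finset.single_le_sum (f := fun S : Finset ι => (∑ k ∈ S, (b k)⁻¹)⁻¹)
      (fun S hS => (h_pos hb (ne_of_mem hS)).le) hm
  rw [hS]
  push_cast
  exact mul_le_mul_of_nonneg_left h1 (by positivity)

theorem item2 {r : ℕ} (hr : r + 1 ≤ Fintype.card ι) {b : ι → ℝ} (hb : ∀ k, 0 < b k) :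
    ∃ S : Finset ι, S.card = r + 1 ∧ ∀ l ∈ S, sm r b ≤ 2 ^ Fintype.card ι * b l := by
  obtain ⟨S, hS, hmax⟩ := Finset.exists_max_image _
    (fun S : Finset ι => (∑ k ∈ S, (b k)⁻¹)⁻¹) (pc_ne hr)
  refine ⟨S, (Finset.mem_powersetCard.1 hS).2, fun l hl => ?_⟩
  have h1 := Finset.sum_le_card_nsmul _ (fun S : Finset ι => (∑ k ∈ S, (b k)⁻¹)⁻¹) _ hmax
  rw [nsmul_eq_mul] at h1
  have h2 := h_le hb hl
  have h3 := h_pos hb (ne_of_mem hS)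
  calc sm r b ≤ _ := h1
    _ ≤ 2 ^ Fintype.card ι * b l := mul_le_mul (pc_card r) h2 h3.le (by positivity)

theorem item3 {r : ℕ} {b : ι → ℝ} (hb : ∀ k, 0 < b k) :
    ∃ T : Finset ι, Fintype.card ι ≤ r + T.card ∧ ∀ k ∈ T, b k ≤ (r + 1) * sm r b := by
  classical
  refine ⟨Finset.univ.filter (fun k => b k ≤ (r + 1) * sm r b), ?_,
    fun k hk => (Finset.mem_filter.1 hk).2⟩
  by_contra hc
  have h1 := Finset.card_add_card_compl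
    (Finset.univ.filter (fun k => b k ≤ (r + 1) * sm r b))
  have h2 : r + 1 ≤ (Finset.univ.filter (fun k => b k ≤ (r + 1) * sm r b))ᶜ.card := by omega
  obtain ⟨S, hS, hc'⟩ := Finset.exists_subset_card_eq h2
  obtain ⟨l, hl, h⟩ := item1 hb S hc'
  exact (Finset.mem_compl.1 (hS hl)) (Finset.mem_filter.2 ⟨Finset.mem_univ l, h⟩)

theorem item4 {r : ℕ} (hr : r + 1 ≤ Fintype.card ι) {b : ι → ℝ} (hb : ∀ k, 0 < b k)
    (T : Finset ι) (β : ℝ) (hT : Fintype.card ι ≤ r + T.card) (hβ : ∀ k ∈ T, b k ≤ β) :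
    sm r b ≤ 2 ^ Fintype.card ι * β := by
  obtain ⟨S, hS, h⟩ := item2 hr hb
  have h1 : (S ∩ T).Nonempty := by
    rw [← Finset.card_pos]
    have h2 := Finset.card_union_add_card_inter S T
    have h3 : (S ∪ T).card ≤ Fintype.card ι := Finset.card_le_univ _
    omega
  obtain ⟨l, hl⟩ := h1
  rw [Finset.mem_inter] at hl
  exact (h l hl.1).trans (mul_le_mul_of_nonneg_left (hβ l hl.2) (by positivity))

theorem item5 {r : ℕ} (hr : r + 1 ≤ Fintype.card ι) {b : ι → ℝ} (hb : ∀ k, 0 < b k)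
    (ε γ : ℝ) (hε : 0 ≤ ε) (hγ : 0 ≤ γ) :
    sm r b ^ (ε + r * γ) ≤ (2 ^ Fintype.card ι : ℝ) ^ (ε + r * γ) * pot r ε γ b := by
  obtain ⟨S, hS, h⟩ := item2 hr hb
  have hsm := sm_pos hr hb
  obtain ⟨k, hk⟩ : S.Nonempty := by rw [← Finset.card_pos, hS]; omega
  set M : ℝ := 2 ^ Fintype.card ι with hM
  have hM0 : 0 < M := by positivity
  have hq : 0 < sm r b / M := div_pos hsm hM0
  have hle : ∀ l ∈ S, sm r b / M ≤ b l := fun l hl => by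
    rw [div_le_iff₀ hM0, mul_comm]; exact h l hl
  have hc : (S.erase k).card = r := by rw [Finset.card_erase_of_mem hk, hS]; rfl
  have hm : S.erase k ∈ (Finset.univ : Finset ι).powersetCard r :=
    Finset.mem_powersetCard.2 ⟨Finset.subset_univ _, hc⟩
  have hnn : ∀ (S : Finset ι) (k : ι), 0 ≤ b k ^ ε * ∏ l ∈ S, b l ^ γ := fun S k =>
    mul_nonneg (Real.rpow_nonneg (hb k).le _)
      (Finset.prod_nonneg fun l _ => Real.rpow_nonneg (hb l).le _)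
  have h1 : b k ^ ε * ∏ l ∈ S.erase k, b l ^ γ ≤ pot r ε γ b := by
    have ha : b k ^ ε * ∏ l ∈ S.erase k, b l ^ γ ≤
        ∑ j ∈ (S.erase k)ᶜ, b j ^ ε * ∏ l ∈ S.erase k, b l ^ γ :=
      Finset.single_le_sum (f := fun j => b j ^ ε * ∏ l ∈ S.erase k, b l ^ γ)
        (fun j _ => hnn _ j) (Finset.mem_compl.2 (Finset.notMem_erase k S))
    exact ha.trans (Finset.single_le_sum
      (f := fun T : Finset ι => ∑ j ∈ Tᶜ, b j ^ ε * ∏ l ∈ T, b l ^ γ)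
      (fun T _ => Finset.sum_nonneg fun j _ => hnn T j) hm)
  have h2 : (sm r b / M) ^ (ε + r * γ) ≤ b k ^ ε * ∏ l ∈ S.erase k, b l ^ γ := by
    rw [Real.rpow_add hq]
    refine mul_le_mul (Real.rpow_le_rpow hq.le (hle k hk) hε) ?_ (Real.rpow_nonneg hq.le _)
      (Real.rpow_nonneg (hb k).le _)
    have h3 : (sm r b / M) ^ ((r : ℝ) * γ) = ∏ _l ∈ S.erase k, (sm r b / M) ^ γ := by
      rw [Finset.prod_const, hc, mul_comm, Real.rpow_mul hq.le, Real.rpow_natCast]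
    rw [h3]
    exact Finset.prod_le_prod (fun l _ => Real.rpow_nonneg hq.le _)
      (fun l hl => Real.rpow_le_rpow hq.le (hle l (Finset.mem_of_mem_erase hl)) hγ)
  have h4 : sm r b ^ (ε + r * γ) = M ^ (ε + r * γ) * (sm r b / M) ^ (ε + r * γ) := by
    rw [← Real.mul_rpow hM0.le hq.le, mul_div_cancel₀ _ hM0.ne']
  rw [h4]
  exact mul_le_mul_of_nonneg_left (h2.trans h1) (Real.rpow_nonneg hM0.le _)

end SmX

theorem smS : SmStmt := by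
  intro ι _ _ r hr
  refine ⟨fun b hb => ⟨SmX.sm_pos hr hb, SmX.item1 hb, SmX.item2 hr hb, SmX.item3 hb,
    SmX.item4 hr hb, SmX.item5 hr hb⟩, fun b ρ hρ hb => ?_⟩
  have h1 : ∀ k, Lg (fun x => (b k x)⁻¹) (2 * ρ) := fun k =>
    Lg.inv (by positivity) (by rw [show 2 * (2 * ρ) = 4 * ρ by ring]; exact hb k)
  exact Lg.sum (φ := fun (S : Finset ι) x => (∑ k ∈ S, (b k x)⁻¹)⁻¹) (SmX.pc_ne hr)
    (fun S hS => Lg.inv hρ (Lg.sum (φ := fun k x => (b k x)⁻¹) (SmX.ne_of_mem hS)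
      (fun k _ => h1 k)))

end SK

end

section

namespace SK
open SJ Set Filter Topology MeasureTheory Metric Function
open scoped ENNReal

namespace UEstX

theorem col {ι : Type} [Fintype ι] [DecidableEq ι] {F : Type} [NormedAddCommGroup F]
    [NormedSpace ℝ F] (A : (ι → ℝ) →L[ℝ] F) (v : ι → ℝ) {c m : ℝ} (hc : 0 ≤ c) (hm : ‖v‖ ≤ m)
    (h : ∀ i, ‖A (Pi.single i 1)‖ ≤ c ∨ v i = 0) : ‖A v‖ ≤ Fintype.card ι * (m * c) := by
  have m0 := (norm_nonneg v).trans hm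
  rw [pi_eq_sum_univ' v, map_sum]
  refine (norm_sum_le _ _).trans ((Finset.sum_le_card_nsmul _ _ (m * c) fun i _ => ?_).trans_eq
    (by simp))
  rw [map_smul, norm_smul]
  rcases h i with h | h
  · exact mul_le_mul ((norm_le_pi_norm v i).trans hm) h (norm_nonneg _) m0
  · rw [h, norm_zero, zero_mul]
    positivity

end UEstX

open UEstX in
theorem uEst : UEstStmt := by
  intro ι _ _ g h x ℓ σ Dm D2m U β hg hh hℓ hσ h1 h2 h3 h4 h5 h6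
  have D0 : 0 ≤ Dm := (norm_nonneg _).trans h1
  have E0 : 0 ≤ D2m := (norm_nonneg (D2 h x)).trans h2
  have U0 : 0 ≤ U / ℓ := (norm_nonneg (D2 g (h x))).trans h3
  have k1 : ∀ a, ‖fderiv ℝ h x a‖ ≤ Dm * ‖a‖ := fun a => (fderiv ℝ h x).le_of_opNorm_le h1 a
  have k2 : ∀ a, ‖fderiv ℝ h x a - a‖ ≤ (1 + Dm) * ‖a‖ := fun a =>
    (norm_sub_le _ _).trans (by linarith [k1 a])
  have k3 : ∀ i, ((fun z => h z i) =ᶠ[𝓝 x] fun z => z i) →
      (∀ a, (fderiv ℝ h x a - a) i = 0) ∧ ∀ a b, D2 h x a b i = 0 := fun i e => by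
    let p : (ι → ℝ) →L[ℝ] ℝ := ContinuousLinearMap.proj i
    have e' : (fun z => p (h z)) =ᶠ[𝓝 x] fun z => p z := e
    refine ⟨fun a => ?_, fun a b => ?_⟩
    · have := Calc2X.fderiv_clm_comp p hh x a
      rw [e'.fderiv_eq, show (fun z => p z) = p from rfl, p.fderiv] at this
      exact sub_eq_zero.2 this.symm
    · have := D2_clm_comp p hh x a b
      rw [D2_congr e', D2_clm] at this
      exact this.symm
  have k4 : ∀ i v, β i ≤ σ → ‖D2 g (h x) (Pi.single i 1) v‖ ≤ σ / ℓ * ‖v‖ := fun i v e =>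
    (h5 i v).trans (by gcongr)
  refine norm_D2_le_of_apply (by positivity) fun a b => ?_
  have e : D2 (fun z => g (h z)) x a b = D2 g (h x) a b +
      (D2 g (h x)).flip (fderiv ℝ h x b) (fderiv ℝ h x a - a) +
      D2 g (h x) a (fderiv ℝ h x b - b) + fderiv ℝ g (h x) (D2 h x a b) := by
    rw [D2_comp_apply hg hh, ContinuousLinearMap.flip_apply, map_sub, map_sub,
      sub_apply]
    abel
  have b1 : ‖D2 g (h x) a b‖ ≤ U / ℓ * ‖a‖ * ‖b‖ := (norm_D2_apply_le _ _ _ _).trans (by gcongr)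
  have b2 := col ((D2 g (h x)).flip (fderiv ℝ h x b)) _ (c := σ / ℓ * (Dm * ‖b‖)) (by positivity)
    (k2 a) fun i => (h6 i).imp (fun e => (k4 i _ e).trans (by gcongr; exact k1 b))
      fun e => (k3 i e).1 a
  have b3 := col (D2 g (h x) a) _ (c := σ / ℓ * ‖a‖) (by positivity) (k2 b) fun i =>
    (h6 i).imp (fun e => D2_symm hg _ _ _ ▸ k4 i a e) fun e => (k3 i e).1 b
  have b4 := col (fderiv ℝ g (h x)) (D2 h x a b) hσ (m := D2m * ‖a‖ * ‖b‖)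
    ((norm_D2_apply_le _ _ _ _).trans (by gcongr)) fun i =>
    (h6 i).imp (fun e => (h4 i).trans e) fun e => (k3 i e).2 a b
  have b5 : 0 ≤ Fintype.card ι * (σ / ℓ) * (1 + Dm) ^ 2 * ‖a‖ * ‖b‖ := by positivity
  rw [e]
  refine ((norm_add_le _ _).trans (add_le_add norm_add₃_le le_rfl)).trans ?_
  refine (add_le_add (add_le_add (add_le_add b1 b2) b3) b4).trans
    ((le_add_of_nonneg_right b5).trans_eq ?_)
  ring

theorem tU (hU : UEstStmt) : TUStmt := by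
  intro ι _ _ r L ω KH w0 w1
  refine ⟨6 * Fintype.card ι / ω ^ L * (2 * (1 + 6 / ω ^ L) ^ 2 + |KH|), by positivity,
    fun K τ ℓ g h b U u hℓ S W hh hI hd x => ?_⟩
  have s0 := W.sL.pos (h x)
  have s1 := W.sL.pos x
  have hx : ‖x - h x‖ ≤ ℓ := by
    rw [norm_sub_rev]
    linarith [hd x]
  have u3 := S.sv x (h x) hx
  have s3 := W.sL.sv (by positivity) x (h x) (by linarith)
  refine (hU ι g h x ℓ (2 * smf r b (h x) / ω ^ L) _ _ (U (h x)) (fun i => b i (h x)) S.cd hh.cd hℓ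
    (by positivity) (hh.d1 x) (hh.d2 x) (S.d2 _) (S.col _) (S.mix _) fun i => ?_).trans ?_
  · by_cases e : ∃ n : Fin L, h x ∈ tsupport (th r ω b n i)
    · obtain ⟨n, e⟩ := e
      left
      rw [le_div_iff₀ (by positivity), mul_comm]
      exact (mul_le_mul_of_nonneg_right (pow_le_pow_of_le_one w0.le w1 n.2)
        ((S.lg i).pos _).le).trans (W.thU n i _ e)
    · right
      have e1 : ∀ᶠ z in 𝓝 x, ∀ n : Fin L, th r ω b n i (h z) = 0 := eventually_all.2 fun n =>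
        (hh.cont.tendsto x).eventually (notMem_tsupport_iff_eventuallyEq.1 fun k => e ⟨n, k⟩)
      filter_upwards [e1] with z hz
      have := congrFun (hI z) i
      simpa [FT, spF, hz] using this
  · have k := le_abs_self KH
    calc U (h x) / ℓ + Fintype.card ι * (2 * smf r b (h x) / ω ^ L) *
          (2 * (1 + 6 / ω ^ L) ^ 2 / ℓ + KH / ℓ)
        ≤ 3 * U x / ℓ + Fintype.card ι * (2 * (3 * smf r b x) / ω ^ L) *
          (2 * (1 + 6 / ω ^ L) ^ 2 / ℓ + |KH| / ℓ) := by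
          have := hh.nonneg2
          gcongr
      _ = _ := by ring

end SK

end

section

namespace SK
open SJ Set Filter Topology MeasureTheory Metric Function
open scoped ENNReal

namespace TIntX

variable {ι : Type} [Fintype ι] [DecidableEq ι]

theorem pot_mono (r : ℕ) {ε γ : ℝ} (hε : 0 ≤ ε) (hγ : 0 ≤ γ) {b b' : ι → ℝ} (h0 : ∀ l, 0 ≤ b l)
    (h : ∀ l, b l ≤ b' l) : pot r ε γ b ≤ pot r ε γ b' := by
  unfold pot
  refine Finset.sum_le_sum fun S _ => Finset.sum_le_sum fun k _ => ?_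
  exact mul_le_mul (Real.rpow_le_rpow (h0 k) (h k) hε)
    (Finset.prod_le_prod (fun l _ => Real.rpow_nonneg (h0 l) _)
      fun l _ => Real.rpow_le_rpow (h0 l) (h l) hγ)
    (Finset.prod_nonneg fun l _ => Real.rpow_nonneg (h0 l) _)
    (Real.rpow_nonneg ((h0 k).trans (h k)) _)

theorem pot_cont (r : ℕ) {ε γ : ℝ} (hε : 0 ≤ ε) (hγ : 0 ≤ γ) {b : (ι → ℝ) → ι → ℝ}
    (h : ∀ l, Continuous fun x => b x l) : Continuous fun x => pot r ε γ (b x) := by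
  unfold pot
  exact continuous_finsetSum _ fun S _ => continuous_finsetSum _ fun k _ =>
    ((h k).rpow_const fun _ => Or.inr hε).mul
      (continuous_finsetProd _ fun l _ => (h l).rpow_const fun _ => Or.inr hγ)

/-- the majorant attached to a set of near pairs -/
noncomputable def bZ (r L : ℕ) (ω τ : ℝ) (b : ι → (ι → ℝ) → ℝ) (Z : Finset (ι × Fin L))
    (x : ι → ℝ) (l : ι) : ℝ :=
  36 * (b l x + smf r b x / ω) * (τ + ct r ω b L l x +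
    ∑ n : Fin L, if (l, n) ∈ Z then ct r ω b n l x / ω ^ (L - n) else 0)

end TIntX

open TIntX in
theorem tInt (hA : Avg2Stmt) (hP : PotStmt) : TIntStmt := by
  classical
  intro ι _ _ r L hr
  obtain ⟨K0, hK0, hP⟩ := hP ι r L hr
  refine ⟨2 ^ Fintype.card (ι × Fin L) * K0,
    one_le_mul_of_one_le_of_one_le (one_le_pow₀ one_le_two) hK0,
    fun M K η ω τ ε γ ℓ b T hε hεγ hγ1 h2 hτ hℓ hb W => ?_⟩
  have w0 := T.w0
  have e0 := T.e0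
  have t0 := T.t0
  have hγ : 0 ≤ γ := hε.le.trans hεγ
  have h20 : 20 * ((r : ℝ) + 1) * ω ≤ 1 := by
    refine le_trans ?_ T.hw
    have a : (1 : ℝ) ≤ ((Fintype.card ι : ℝ) + 1) * (((L : ℝ) + 1) * K) :=
      one_le_mul_of_one_le_of_one_le (by simp) (one_le_mul_of_one_le_of_one_le (by simp) T.K1)
    have c : 0 ≤ ((r : ℝ) + 1) * ω := by positivity
    nlinarith [mul_le_mul_of_nonneg_left a c]
  have w1 : ω ≤ 1 := by
    have : (0 : ℝ) ≤ r * ω := by positivity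
    nlinarith
  have hpos : ∀ l x, 0 ≤ 36 * (b l x + smf r b x / ω) := fun l x => by
    have a := (hb l).pos x
    have c := W.sL.pos x
    positivity
  have hZ0 : ∀ Z x l, 0 ≤ bZ r L ω τ b Z x l := fun Z x l =>
    mul_nonneg (hpos l x) (add_nonneg (add_nonneg t0.le (W.ct01 _ _ _).1)
      (Finset.sum_nonneg fun n _ => by
        have := (W.ct01 n l x).1
        split_ifs <;> positivity))
  have hw : ∀ Z : Finset (ι × Fin L),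
      Measurable fun x => ENNReal.ofReal (pot r ε γ (bZ r L ω τ b Z x)) := fun Z => by
    refine (pot_cont r hε.le hγ fun l => ?_).measurable.ennreal_ofReal
    refine (continuous_const.mul ((hb l).cd.continuous.add (W.sL.cd.continuous.div_const _))).mul
      ((continuous_const.add (W.ctC L l).cd.continuous).add (continuous_finsetSum _ fun n _ => ?_))
    split_ifs
    · exact (W.ctC n l).cd.continuous.div_const _
    · exact continuous_const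
  have hu : Measurable fun (x : ι → ℝ) (z : ι × Fin L) => x z.1 / (η * ω ^ (z.2 : ℕ) * ℓ) :=
    measurable_pi_lambda _ fun z => (measurable_pi_apply z.1).div_const _
  obtain ⟨o, ho⟩ := hA (ι × Fin L) (ι → ℝ) (Finset (ι × Fin L)) (volume.restrict (ball 0 2))
    (fun z => ω ^ (L - z.2)) (fun z => by positivity) (fun z => pow_le_one₀ w0.le w1) _ hu
    Finset.univ id _ hw
  refine ⟨fun k n => o (k, n) * (η * ω ^ (n : ℕ) * ℓ), fun u f c hp => ?_⟩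
  refine le_trans ?_ (ho.trans ?_)
  · rw [← lintegral_finsetSum]
    · refine lintegral_mono fun x => ?_
      refine le_trans ?_ (Finset.single_le_sum (fun _ _ => zero_le)
        (Finset.mem_univ (Finset.univ.filter fun z : ι × Fin L => f z.1 z.2 (x z.1) ≠ 0)))
      rw [indicator_of_mem]
      · refine ENNReal.ofReal_le_ofReal (pot_mono r hε.le hγ (fun l => ?_) fun l => ?_)
        · refine mul_nonneg (hpos l x) (add_nonneg (add_nonneg t0.le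
            (pow_nonneg (W.ct01 _ _ _).1 _)) (Finset.sum_nonneg fun n _ => ?_))
          exact mul_nonneg (zero_le_one.trans (hp l n).c1)
            (pow_nonneg (mul_nonneg ((hp l n).f01 _).1 (W.ct01 _ _ _).1) _)
        · have M0 : M ≠ 0 := by
            have := T.M2
            omega
          refine mul_le_mul_of_nonneg_left (add_le_add (add_le_add le_rfl
            (pow_le_of_le_one (W.ct01 _ _ _).1 (W.ct01 _ _ _).2 M0))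
            (Finset.sum_le_sum fun n _ => ?_)) (hpos l x)
          have a := (hp l n).f01 (x l)
          have d := W.ct01 n l x
          split_ifs with h
          · rw [div_eq_mul_one_div, mul_comm]
            exact mul_le_mul ((pow_le_of_le_one (mul_nonneg a.1 d.1)
              (mul_le_one₀ a.2 d.1 d.2) M0).trans (mul_le_of_le_one_left d.1 a.2)) (hp l n).c2
              (zero_le_one.trans (hp l n).c1) d.1
          · have : f l n (x l) = 0 := by simpa using h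
            rw [this, zero_mul, zero_pow M0, mul_zero]
      · intro z hz
        obtain ⟨m, hm⟩ := (hp z.1 z.2).fs _ (Finset.mem_filter.1 hz).2
        have p0 : 0 < η * ω ^ (z.2 : ℕ) * ℓ := by positivity
        refine ⟨m, le_of_mul_le_mul_right (le_trans (le_of_eq ?_) hm) p0⟩
        rw [← abs_of_pos p0, ← abs_mul, abs_of_pos p0]
        congr 1
        field_simp
    · intro Z _
      refine (hw Z).indicator (measurableSet_setOfPred.2 (Measurable.forall fun z =>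
        measurable_const.imp (Measurable.exists fun m => measurableSet_setOfPred.1 ?_)))
      exact measurableSet_le ((((measurable_pi_apply z).comp hu).add_const _).sub_const _).abs
        measurable_const
  · refine (Finset.sum_le_card_nsmul _ _ (ENNReal.ofReal (K0 * ω ^ (L * (1 - ε) - 2)) *
      ∫⁻ x in ball (0 : ι → ℝ) 2, ENNReal.ofReal (potf r ε γ b x)) fun Z _ => ?_).trans_eq ?_
    · rw [← lintegral_const_mul' _ _ ENNReal.ofReal_ne_top,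
        ← lintegral_const_mul' _ _ ENNReal.ofReal_ne_top]
      refine lintegral_mono fun x => ?_
      rw [← ENNReal.ofReal_mul (Finset.prod_nonneg fun z _ => by positivity),
        ← ENNReal.ofReal_mul (by positivity)]
      exact ENNReal.ofReal_le_ofReal (hP ε γ ω τ (fun l => b l x) _ (fun l n => ct r ω b n l x) Z
        hε hεγ hγ1 h2 w0 h20 t0.le (by linarith [T.t1]) hτ (fun l => (hb l).pos x) (hZ0 Z x)
        (fun l n => W.ct01 n l x) (fun l n => W.ctN n l x) fun l => le_rfl)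
    · rw [Finset.card_univ, Fintype.card_finset, nsmul_eq_mul, ← mul_assoc, mul_assoc _ K0,
        ENNReal.ofReal_mul (p := 2 ^ _) (by positivity), ENNReal.ofReal_pow zero_le_two]
      simp

end SK

end

section

namespace SK
open SJ Set Filter Topology MeasureTheory Metric Function
open scoped ENNReal

namespace TPackX

theorem ts_zero {ι : Type} [Fintype ι] [DecidableEq ι] {r L : ℕ} {ω ℓ : ℝ} (hω : 0 < ω)
    (hl : 0 < ℓ) (hs : 0 < sm r (fun _ : ι => (1 : ℝ))) :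
    TS2 r L ω (fun x : ι → ℝ => x) (fun _ _ => 1)
      (fun _ => 18 * sm r (fun _ : ι => (1 : ℝ)) / ω ^ L) ℓ := by
  have hU : 0 ≤ 18 * sm r (fun _ : ι => (1 : ℝ)) / ω ^ L := by positivity
  refine ⟨contDiff_id, fun x k => ?_, fun x k v => ?_, fun x => ?_,
    fun k => Lg.const one_pos (by positivity), fun x => ?_, continuous_const, fun x x' _ => ?_⟩
  · simp [Pi.norm_single]
  · have h0 : D2 (fun x : ι → ℝ => x) x = 0 :=
      D2_clm (ContinuousLinearMap.id ℝ (ι → ℝ)) x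
    rw [h0, zero_apply, zero_apply, norm_zero]
    positivity
  · exact ((C2B.id' (E := ι → ℝ)).d2 x).trans (by positivity)
  · unfold smf
    rw [mul_div_cancel₀ _ (by positivity)]
  · linarith

theorem rec_bound {a v : ℕ → ℝ≥0∞} {m C : ℝ} (hm : 0 < m) (hC : 0 ≤ C) (ha0 : a 0 ≠ ∞)
    (hv0 : v 0 ≠ ∞) (hv : ∀ j, v (j + 1) ≤ ENNReal.ofReal m * v j)
    (ha : ∀ j, a (j + 1) ≤ ENNReal.ofReal m * a j + ENNReal.ofReal C * v j) :
    ∃ C' : ℝ, 0 ≤ C' ∧ ∀ j, a j ≤ ENNReal.ofReal (C' * (2 * m) ^ j) := by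
  have hV : 0 ≤ (v 0).toReal := ENNReal.toReal_nonneg
  have hA : 0 ≤ (a 0).toReal := ENNReal.toReal_nonneg
  have hv' : ∀ j, v j ≤ ENNReal.ofReal ((v 0).toReal * m ^ j) := by
    intro j
    induction j with
    | zero => rw [pow_zero, mul_one, ENNReal.ofReal_toReal hv0]
    | succ j ih =>
      refine (hv j).trans ((mul_le_mul_right ih _).trans (le_of_eq ?_))
      rw [← ENNReal.ofReal_mul hm.le]
      congr 1
      ring
  have hD : 0 ≤ C * (v 0).toReal / m := by positivity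
  refine ⟨(a 0).toReal + C * (v 0).toReal / m, by positivity, fun j => ?_⟩
  induction j with
  | zero =>
    rw [pow_zero, mul_one]
    calc a 0 = ENNReal.ofReal (a 0).toReal := (ENNReal.ofReal_toReal ha0).symm
      _ ≤ _ := ENNReal.ofReal_le_ofReal (by linarith)
  | succ j ih =>
    refine (ha j).trans ((add_le_add (mul_le_mul_right ih _) (mul_le_mul_right (hv' j) _)).trans ?_)
    rw [← ENNReal.ofReal_mul hm.le, ← ENNReal.ofReal_mul hC,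
      ← ENNReal.ofReal_add (by positivity) (by positivity)]
    refine ENNReal.ofReal_le_ofReal ?_
    have h1 : m ^ j ≤ (2 * m) ^ j := pow_le_pow_left₀ hm.le (by linarith) j
    have h2 : C * ((v 0).toReal * m ^ j) = m * (C * (v 0).toReal / m) * m ^ j := by
      field_simp
    have h3 : m * (C * (v 0).toReal / m) * m ^ j ≤
        m * ((a 0).toReal + C * (v 0).toReal / m) * (2 * m) ^ j := by
      gcongr
      linarith
    rw [h2, pow_succ]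
    nlinarith

theorem int_step {X : Type*} [MeasurableSpace X] (μ : Measure X) {f g p : X → ℝ} {m C : ℝ}
    (hm : 0 ≤ m) (hC : 0 ≤ C) (hf : Measurable f) (h : ∀ x, g x ≤ m * f x + C * p x) :
    ∫⁻ x, ENNReal.ofReal (g x) ∂μ ≤ ENNReal.ofReal m * ∫⁻ x, ENNReal.ofReal (f x) ∂μ +
      ENNReal.ofReal C * ∫⁻ x, ENNReal.ofReal (p x) ∂μ := by
  rw [← lintegral_const_mul' _ _ ENNReal.ofReal_ne_top,
    ← lintegral_const_mul' _ _ ENNReal.ofReal_ne_top,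
    ← lintegral_add_left (hf.ennreal_ofReal.const_mul _)]
  refine lintegral_mono fun x => ?_
  rw [← ENNReal.ofReal_mul hm, ← ENNReal.ofReal_mul hC]
  exact (ENNReal.ofReal_le_ofReal (h x)).trans ENNReal.ofReal_add_le

theorem const_int {ι : Type} [Fintype ι] (c : ℝ) :
    ∫⁻ _ in ball (0 : ι → ℝ) 2, ENNReal.ofReal c ≠ ∞ := by
  rw [setLIntegral_const]
  exact ENNReal.mul_ne_top ENNReal.ofReal_ne_top measure_ball_lt_top.ne

theorem el_rpow {lam q : ℝ} (h : 0 < lam) (j : ℕ) :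
    (2 * (lam ^ (q - 1) / 4)) ^ j = 4 ^ (q - 1) * el lam j ^ (q - 1) / 2 ^ j := by
  unfold el
  have h4 : (0 : ℝ) < 4 ^ (q - 1) := by positivity
  rw [Real.div_rpow (by positivity) (by norm_num), ← Real.rpow_pow_comm h.le,
    show 2 * (lam ^ (q - 1) / 4) = lam ^ (q - 1) / 2 by ring, div_pow]
  field_simp

end TPackX
open TPackX

theorem tPack (hS : SmStmt) (hT : TStepStmt) : TPackStmt := by
  intro ι _ _ r q hr hr1 hq1 hq2 hqr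
  obtain ⟨K1, hK1, hK⟩ := hT ι r q hr hr1 hq1 hq2 hqr
  refine ⟨K1, hK1, fun lam1 hl1 => ?_⟩
  obtain ⟨L, ε, γ, lam, ω, KH, C, -, -, hl0, hll, hω, hC, hst⟩ :=
    hK (min lam1 1) (lt_min hl1 one_pos)
  have hlam1 : lam ≤ 1 := hll.trans (min_le_right _ _)
  have hsm : ∀ b : ι → ℝ, (∀ k, 0 < b k) → 0 < sm r b := fun b hb => ((hS ι r hr).1 b hb).1
  let S : ℕ → Type := fun j =>
    {p : ((ι → ℝ) → ι → ℝ) × (ι → (ι → ℝ) → ℝ) × ((ι → ℝ) → ℝ) //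
      TS2 r L ω p.1 p.2.1 p.2.2 (el lam j)}
  have step : ∀ j (s : S j), ∃ (act req : ι → (ι → ℝ) → ℝ) (H : (ι → ℝ) × ℝ → (ι → ℝ) × ℝ)
      (s' : S (j + 1)), Rg K1 (el lam j) (el lam j) (Fintype.card ι - r) act req ∧
        HM lam KH (el lam j) act H s.1.1 s'.1.1 ∧
        (∀ k x x', ‖x - x'‖ ≤ el lam j → act k x' ≠ 0 →
          s.1.2.1 k x ≤ s.1.2.2 x ∧ s'.1.2.1 k x ≤ s'.1.2.2 x) ∧
        (∀ x, s'.1.2.2 x ^ q ≤ lam ^ (q - 1) / 4 * s.1.2.2 x ^ q + C * potf r ε γ s.1.2.1 x) ∧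
        ∫⁻ x in ball (0 : ι → ℝ) 2, ENNReal.ofReal (potf r ε γ s'.1.2.1 x) ≤
          ENNReal.ofReal (lam ^ (q - 1) / 4) *
            ∫⁻ x in ball (0 : ι → ℝ) 2, ENNReal.ofReal (potf r ε γ s.1.2.1 x) := by
    intro j s
    obtain ⟨act, req, H, g', b', U', h1, h2⟩ := hst _ s.1.1 s.1.2.1 s.1.2.2 (el_pos hl0 j) s.2
    rw [← el_succ] at h1
    exact ⟨act, req, H, ⟨(g', b', U'), h1⟩, h2⟩
  choose act req H nx hs using step
  let s0 : S 0 := ⟨(fun x => x, fun _ _ => 1, fun _ => 18 * sm r (fun _ : ι => (1 : ℝ)) / ω ^ L),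
    ts_zero hω (el_pos hl0 0) (hsm _ fun _ => one_pos)⟩
  let s : (j : ℕ) → S j := fun j => Nat.rec (motive := S) s0 (fun j t => nx j t) j
  have hup : ∀ j x, 0 ≤ (s j).1.2.2 x := fun j x => by
    have h1 := (s j).2.su x
    have h2 : 0 < smf r (s j).1.2.1 x := hsm _ fun k => ((s j).2.lg k).pos x
    have h3 : 0 < ω ^ L := by positivity
    exact (mul_nonneg_iff_of_pos_left h3).1 (by linarith)
  have hm : 0 < lam ^ (q - 1) / 4 := by positivity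
  obtain ⟨C', hC', hb⟩ := rec_bound
    (a := fun j => ∫⁻ x in ball (0 : ι → ℝ) 2, ENNReal.ofReal ((s j).1.2.2 x ^ q))
    (v := fun j => ∫⁻ x in ball (0 : ι → ℝ) 2, ENNReal.ofReal (potf r ε γ (s j).1.2.1 x))
    hm hC (const_int ((18 * sm r (fun _ : ι => (1 : ℝ)) / ω ^ L) ^ q))
    (const_int (pot r ε γ fun _ : ι => (1 : ℝ))) (fun j => (hs j (s j)).2.2.2.2)
    (fun j => int_step _ hm.le hC
      ((s j).2.cu.rpow_const fun _ => Or.inr (by linarith)).measurable (hs j (s j)).2.2.2.1)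
  refine ⟨lam, KH, C' * 4 ^ (q - 1), hl0, hll.trans (min_le_left _ _), fun j => act j (s j),
    fun j => req j (s j), fun j => H j (s j), fun j => (s j).1.1, fun j => (s j).1.2.2,
    fun K hKK => ⟨fun j => ?_, fun x => rfl, fun j => (s j).2.cd, fun j => (s j).2.d2,
      fun j k x x' hx h => ?_, fun j k x x' hx h => ?_, hup, fun j => (s j).2.cu,
      fun j => (s j).2.sv, by positivity, fun j => ?_⟩, fun j => (hs j (s j)).1⟩
  · have h := (hs j (s j)).2.1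
    exact ⟨h.hC.mono le_rfl (div_le_div_of_nonneg_right hKK (el_pos hl0 j).le), h.h2, h.hinj,
      h.hd, h.hoff, h.hon, h.hpass⟩
  · exact ((s j).2.col x k).trans ((hs j (s j)).2.2.1 k x x' hx h).1
  · exact ((s (j + 1)).2.col x k).trans
      ((hs j (s j)).2.2.1 k x x' (hx.trans (el_anti hl0 hlam1 (Nat.le_succ j))) h).2
  · refine (hb j).trans (le_of_eq ?_)
    rw [el_rpow hl0]
    exact congrArg ENNReal.ofReal (by ring)

end SK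

end

section

namespace SK
open SJ Set Filter Topology MeasureTheory Metric Function
open scoped ENNReal

namespace ChainX

theorem div_step {a b W : ℝ} (ha : 0 < a) (hb : 0 < b) (hab : b ≤ a / 2) (hW : 0 ≤ W) :
    2 * W / a ≤ W / b := by
  rw [div_le_div_iff₀ ha hb]
  nlinarith

theorem partA {E : Type} [NormedAddCommGroup E] [NormedSpace ℝ E] (ℓ : ℕ → ℝ)
    (hpos : ∀ k, 0 < ℓ k) (hstep : ∀ k, ℓ (k + 1) ≤ ℓ k / 2)
    (α : ℕ → E → E) (w : ℕ → E → ℝ) (hcd : ∀ k, ContDiff ℝ 2 (α k)) (hw : ∀ k y, 1 ≤ w k y)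
    (h1 : ∀ k y, ‖fderiv ℝ (α k) y‖ ^ 2 ≤ w k y) (h2 : ∀ k y, ‖D2 (α k) y‖ ≤ w k y / ℓ k)
    (n : ℕ) : ContDiff ℝ 2 (Gs α (n + 1)) ∧ ∀ y,
        ‖fderiv ℝ (Gs α (n + 1)) y‖ ^ 2 ≤ ∏ k ∈ Finset.range (n + 1), w k (Gs α k y) ∧
        ‖D2 (Gs α (n + 1)) y‖ ≤ 2 * (∏ k ∈ Finset.range (n + 1), w k (Gs α k y)) / ℓ n := by
  induction n with
  | zero =>
    have e : Gs α (0 + 1) = α 0 := rfl
    rw [e]
    refine ⟨hcd 0, fun y => ?_⟩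
    have e2 : (∏ k ∈ Finset.range (0 + 1), w k (Gs α k y)) = w 0 y := by
      rw [Finset.prod_range_succ, Finset.prod_range_zero, one_mul]; rfl
    rw [e2]
    refine ⟨h1 0 y, (h2 0 y).trans ?_⟩
    have := hw 0 y
    have := hpos 0
    gcongr
    linarith
  | succ n ih =>
    obtain ⟨icd, ih⟩ := ih
    have e : Gs α (n + 1 + 1) = fun y => α (n + 1) (Gs α (n + 1) y) := rfl
    rw [e]
    refine ⟨(hcd (n + 1)).comp icd, fun y => ?_⟩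
    obtain ⟨i1, i2⟩ := ih y
    rw [Finset.prod_range_succ _ (n + 1)]
    set W := ∏ k ∈ Finset.range (n + 1), w k (Gs α k y) with hW
    set z := Gs α (n + 1) y with hz
    have hwz := hw (n + 1) z
    have a1 := h1 (n + 1) z
    have a2 := h2 (n + 1) z
    have hW0 : 0 ≤ W := (sq_nonneg _).trans i1
    have hA0 : 0 ≤ ‖fderiv ℝ (α (n + 1)) z‖ := norm_nonneg _
    have a3 : ‖fderiv ℝ (α (n + 1)) z‖ ≤ w (n + 1) z := by nlinarith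
    constructor
    · have c := norm_fderiv_comp_le' (hcd (n + 1)) icd y
      have c2 : ‖fderiv ℝ (fun x => α (n + 1) (Gs α (n + 1) x)) y‖ ^ 2 ≤
          (‖fderiv ℝ (α (n + 1)) z‖ * ‖fderiv ℝ (Gs α (n + 1)) y‖) ^ 2 :=
        pow_le_pow_left₀ (norm_nonneg _) c 2
      refine c2.trans ?_
      rw [mul_pow, mul_comm W]
      exact mul_le_mul a1 i1 (sq_nonneg _) (by linarith)
    · have c := norm_D2_comp_le (hcd (n + 1)) icd y
      refine c.trans ?_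
      have hl := hpos (n + 1)
      have d1 : ‖D2 (α (n + 1)) z‖ * ‖fderiv ℝ (Gs α (n + 1)) y‖ ^ 2 ≤
          w (n + 1) z / ℓ (n + 1) * W :=
        mul_le_mul a2 i1 (sq_nonneg _) (by positivity)
      have d2 : ‖fderiv ℝ (α (n + 1)) z‖ * ‖D2 (Gs α (n + 1)) y‖ ≤
          w (n + 1) z * (W / ℓ (n + 1)) :=
        mul_le_mul a3 (i2.trans (div_step (hpos n) hl (hstep n) hW0))
          (norm_nonneg (D2 (Gs α (n + 1)) y))
          (by linarith)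
      have e3 : w (n + 1) z / ℓ (n + 1) * W + w (n + 1) z * (W / ℓ (n + 1)) =
          2 * (W * w (n + 1) z) / ℓ (n + 1) := by ring
      rw [← e3]
      exact add_le_add d1 d2

theorem partB {E : Type} [NormedAddCommGroup E] [NormedSpace ℝ E] (ℓ : ℕ → ℝ)
    (hpos : ∀ k, 0 < ℓ k) (hstep : ∀ k, ℓ (k + 1) ≤ ℓ k / 2)
    (P : ℕ → E → E) (K : ℝ) (hK : 1 ≤ K) (hP : ∀ k, C2B (P k) K (K / ℓ k)) (n : ℕ) :
    C2B (Fw P (n + 1)) (K ^ (n + 1)) (2 * K ^ (2 * (n + 1)) / ℓ n) := by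
  induction n with
  | zero =>
    have e : Fw P (0 + 1) = P 0 := rfl
    rw [e]
    refine (hP 0).mono (by simp) ?_
    have := hpos 0
    have h2 : K ≤ 2 * K ^ (2 * (0 + 1)) := by
      have : K ^ (2 * (0 + 1)) = K * K := by ring
      rw [this]; nlinarith
    gcongr
  | succ n ih =>
    have e : Fw P (n + 1 + 1) = fun y => Fw P (n + 1) (P (n + 1) y) := rfl
    rw [e]
    refine (ih.comp (hP (n + 1))).mono (by rw [← pow_succ]) ?_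
    have hl := hpos (n + 1)
    have hK0 : 0 ≤ K := by linarith
    have d1 : 2 * K ^ (2 * (n + 1)) / ℓ n * K ^ 2 ≤ K ^ (2 * (n + 1 + 1)) / ℓ (n + 1) := by
      have e1 : 2 * K ^ (2 * (n + 1)) / ℓ n * K ^ 2 = 2 * K ^ (2 * (n + 1 + 1)) / ℓ n := by ring
      rw [e1]
      exact div_step (hpos n) hl (hstep n) (by positivity)
    have d2 : K ^ (n + 1) * (K / ℓ (n + 1)) ≤ K ^ (2 * (n + 1 + 1)) / ℓ (n + 1) := by
      have e1 : K ^ (n + 1) * (K / ℓ (n + 1)) = K ^ (n + 1 + 1) / ℓ (n + 1) := by ring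
      rw [e1]
      have : K ^ (n + 1 + 1) ≤ K ^ (2 * (n + 1 + 1)) := pow_le_pow_right₀ hK (by omega)
      gcongr
    have e3 : 2 * K ^ (2 * (n + 1 + 1)) / ℓ (n + 1) =
        K ^ (2 * (n + 1 + 1)) / ℓ (n + 1) + K ^ (2 * (n + 1 + 1)) / ℓ (n + 1) := by ring
    rw [e3]
    exact add_le_add d1 d2

end ChainX

theorem chainS : ChainStmt := by
  intro E _ _ ℓ hpos hstep
  exact ⟨fun α w hcd hw h1 h2 n => ChainX.partA ℓ hpos hstep α w hcd hw h1 h2 n,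
    fun P K hK hP n => ChainX.partB ℓ hpos hstep P K hK hP n⟩

end SK

end

section

namespace SK
open SJ Set Filter Topology MeasureTheory Metric Function
open scoped ENNReal

namespace NIndX

theorem det_Gs {E : Type*} [NormedAddCommGroup E] [NormedSpace ℝ E] {α : ℕ → E → E}
    (h : ∀ j, Differentiable ℝ (α j)) (m : ℕ) : Differentiable ℝ (Gs α m) ∧ ∀ y,
      |(fderiv ℝ (Gs α m) y).det| = ∏ k ∈ Finset.range m, |(fderiv ℝ (α k) (Gs α k y)).det| := by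
  induction m with
  | zero =>
    refine ⟨differentiable_id, fun y => ?_⟩
    change |(fderiv ℝ id y).det| = _
    rw [fderiv_id, Finset.prod_range_zero, ContinuousLinearMap.det]
    simp
  | succ m ih =>
    refine ⟨(h m).comp ih.1, fun y => ?_⟩
    change |(fderiv ℝ (fun z => α m (Gs α m z)) y).det| = _
    rw [det_fderiv_comp (h m _) (ih.1 y), abs_mul, ih.2, Finset.prod_range_succ, mul_comm]

end NIndX

theorem nInd : NIndStmt := by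
  intro ι _ _ q lam K C Bs B act H g U α ρ P c w _ hF i y hy
  have l0 := hF.l0
  have l1 := hF.l1
  have ep := el_pos l0
  have es : ∀ j, el lam (j + 1) ≤ el lam j / 100 := fun j => el_lt l0 l1 (Nat.lt_succ_self j)
  have hy' := abs_le.1 hy
  have hlow : ∀ k < i, -el lam k / 3 < y.2 := fun k hk => by
    linarith [el_lt l0 l1 hk, ep k]
  have hfix : ∀ k ≤ i, Gs α k y = y := fun k hk => by
    induction k with
    | zero => rfl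
    | succ k ih =>
      change α k (Gs α k y) = y
      rw [ih (by omega), hF.atop k y (hlow k hk).le]
  have hone : ∀ k < i, |(fderiv ℝ (α k) (Gs α k y)).det| = 1 := fun k hk => by
    have h1 : α k =ᶠ[𝓝 y] id := by
      filter_upwards [(isOpen_lt continuous_const continuous_snd).mem_nhds (hlow k hk)] with z hz
      exact hF.atop k z (le_of_lt hz)
    rw [hfix k hk.le, h1.fderiv_eq, fderiv_id, ContinuousLinearMap.det]
    simp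
  have hdet : ∀ j, |(fderiv ℝ (Gs α (j + 1)) y).det| =
      ∏ k ∈ Finset.Icc i j, |(fderiv ℝ (α k) (Gs α k y)).det| := fun j => by
    rw [(NIndX.det_Gs (fun j => (hF.aC j).differentiable (by simp)) (j + 1)).2 y]
    refine (Finset.prod_subset (fun k hk => ?_) fun k h1 h2 => hone k ?_).symm
    · simp only [Finset.mem_Icc, Finset.mem_range] at hk ⊢
      omega
    · simp only [Finset.mem_Icc, Finset.mem_range] at h1 h2
      omega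
  refine ⟨hdet, fun n h4 hc => ?_⟩
  have mv : ∀ j z, |(α j z).2 - z.2| ≤ el lam j / 100 := fun j z =>
    (norm_snd_le (α j z - z)).trans (hF.ad j z)
  have up : ∀ m, (Gs α (i + m + 1) y).2 ≤ -3 * el lam (i + 1) - el lam (i + m + 1) := fun m => by
    induction m with
    | zero =>
      change (α i (Gs α i y)).2 ≤ -3 * el lam (i + 1) - el lam (i + 1)
      rw [hfix i le_rfl]
      rcases le_total (-el lam i / 3) y.2 with h | h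
      · rw [hF.atop i y h]
        linarith
      · linarith [(abs_le.1 (mv i y)).2, es i, ep i]
    | succ m ih =>
      change (α (i + m + 1) (Gs α (i + m + 1) y)).2 ≤ -3 * el lam (i + 1) - el lam (i + m + 1 + 1)
      linarith [(abs_le.1 (mv (i + m + 1) (Gs α (i + m + 1) y))).2, es (i + m + 1), ep (i + m + 1)]
  have lo : ∀ m, -5 * el lam i + el lam (i + m) ≤ (Gs α (i + m) y).2 := fun m => by
    induction m with
    | zero =>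
      rw [add_zero, hfix i le_rfl]
      linarith
    | succ m ih =>
      change -5 * el lam i + el lam (i + m + 1) ≤ (α (i + m) (Gs α (i + m) y)).2
      linarith [(abs_le.1 (mv (i + m) (Gs α (i + m) y))).1, es (i + m), ep (i + m)]
  have K0 : 0 ≤ K := le_trans (by positivity) hF.K1
  have w0 : ∀ k z, 0 ≤ K ^ 3 * w k z := fun k z =>
    mul_nonneg (by positivity) (zero_le_one.trans (hF.w1 k z))
  have W0 : ∀ k z, 0 ≤ (K ^ 3 * w k z) ^ q := fun k z => Real.rpow_nonneg (w0 k z) q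
  have B0 := hF.B1 0
  have Bs1 := hF.Bs1
  rw [hdet, Wp, ← Real.finsetProd_rpow _ _ fun k _ => w0 k _]
  induction n with
  | zero =>
    rw [add_zero, Finset.Icc_self, Finset.prod_singleton, Finset.prod_singleton, pow_zero, div_one]
    rcases i with _ | i
    · exact (hF.wall 0 _).trans (mul_le_mul_of_nonneg_right (by linarith) (abs_nonneg _))
    · refine (hF.wout _ _ ?_).trans (mul_le_mul_of_nonneg_right (by linarith) (abs_nonneg _))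
      rw [hfix _ le_rfl]
      by_contra h
      linarith [hF.ctop i y h, hlow i (Nat.lt_succ_self i), ep i]
  | succ n ih =>
    have z1 : -2 ≤ (Gs α (i + n + 1) y).2 := by
      have h1 := el_anti l0 (by linarith) (Nat.zero_le i)
      rw [el_zero] at h1
      linarith [lo (n + 1), ep (i + (n + 1)), show (Gs α (i + n + 1) y).2 = (Gs α (i + (n + 1)) y).2
        from rfl]
    have z2 : (Gs α (i + n + 1) y).2 ≤ -2 * el lam (i + n + 1) := by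
      linarith [up n, el_anti l0 (by linarith) (show i + 1 ≤ i + n + 1 by omega), ep (i + 1)]
    have J0 : 0 ≤ ∏ k ∈ Finset.Icc i (i + n), |(fderiv ℝ (α k) (Gs α k y)).det| :=
      Finset.prod_nonneg fun k _ => abs_nonneg _
    rw [← add_assoc, Finset.prod_Icc_succ_top (by omega), Finset.prod_Icc_succ_top (by omega)]
    by_cases h : c (i + n + 1) (Gs α (i + n + 1) y) = 1
    · have h1 := hF.wnew _ _ z1 z2 hc h
      have h2 : ∏ k ∈ Finset.Icc i (i + n), (K ^ 3 * w k (Gs α k y)) ^ q ≤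
          (∏ k ∈ Finset.range (i + n + 1), B k) *
            ∏ k ∈ Finset.Icc i (i + n), |(fderiv ℝ (α k) (Gs α k y)).det| := by
        refine (Finset.prod_le_prod (fun k _ => W0 k _) fun k _ => hF.wall k _).trans ?_
        rw [Finset.prod_mul_distrib]
        refine mul_le_mul_of_nonneg_right (Finset.prod_le_prod_of_subset_of_one_le (fun k hk => ?_)
          (fun k _ => zero_le_one.trans (hF.B1 k)) fun k _ _ => hF.B1 k) J0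
        simp only [Finset.mem_Icc, Finset.mem_range] at hk ⊢
        omega
      have h3 : (1 : ℝ) / 2 ^ (Fintype.card ι + 5) / 2 ^ (i + n + 1) ≤ (Bs + B 0) / 2 ^ (n + 1) := by
        have h5 : (1 : ℝ) / 2 ^ (Fintype.card ι + 5) ≤ 1 :=
          div_le_one_of_le₀ (one_le_pow₀ one_le_two) (by positivity)
        exact div_le_div₀ (by linarith) (by linarith) (by positivity)
          (pow_le_pow_right₀ one_le_two (by omega))
      have h5 := h1.trans (mul_le_mul_of_nonneg_right h3 (abs_nonneg _))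
      refine (mul_le_mul_of_nonneg_right h2 (W0 _ _)).trans ?_
      have h6 := mul_le_mul_of_nonneg_left h5 J0
      linarith
    · have h1 := hF.wfat _ _ z1 z2 hc
      refine (mul_le_mul (ih h) h1 (W0 _ _) (by positivity)).trans_eq ?_
      rw [pow_succ]
      ring

end SK

end

section

namespace SK
open SJ Set Filter Topology MeasureTheory Metric Function
open scoped ENNReal

namespace PoincX

theorem slice {X V : Type} [NormedAddCommGroup X] [NormedSpace ℝ X] [NormedAddCommGroup V]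
    [NormedSpace ℝ V] (u : X × ℝ → V) (hu : ContDiff ℝ 1 u) (h0 : ∀ y, 1 / 2 ≤ y.2 → u y = 0)
    (x : X) (t : ℝ) (ht : t ∈ ball (0 : ℝ) 1) :
    ‖u (x, t)‖ₑ ≤ ∫⁻ s in ball (0 : ℝ) 1, ‖fderiv ℝ u (x, s)‖ₑ := by
  by_cases h : 1 / 2 ≤ t
  · rw [h0 (x, t) h]; simp
  push Not at h
  have hc : ContDiff ℝ 1 (fun s : ℝ => u (x, s)) := hu.comp (contDiff_const.prodMk contDiff_id)
  have h1 := enorm_sub_le_lintegral_deriv_of_contDiffOn_Icc (f := fun s : ℝ => u (x, s))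
    (a := t) (b := 1 / 2) hc.contDiffOn h.le
  have h2 : u (x, 1 / 2) = 0 := h0 _ le_rfl
  simp only [h2, zero_sub, enorm_neg] at h1
  refine h1.trans ?_
  have hsub : Icc t (1 / 2) ⊆ ball (0 : ℝ) 1 := by
    intro s hs
    rw [mem_ball, dist_zero_right, Real.norm_eq_abs, abs_lt] at ht ⊢
    constructor <;> linarith [hs.1, hs.2, ht.1, ht.2]
  refine le_trans (lintegral_mono fun s => ?_) (lintegral_mono_set hsub)
  have hd : HasDerivAt (fun s : ℝ => u (x, s)) (fderiv ℝ u (x, s) ((0 : X), (1 : ℝ))) s := by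
    have h3 : HasFDerivAt u (fderiv ℝ u (x, s)) (x, s) :=
      ((hu.differentiable one_ne_zero) (x, s)).hasFDerivAt
    have h4 : HasDerivAt (fun s : ℝ => ((x, s) : X × ℝ)) ((0 : X), (1 : ℝ)) s :=
      (hasDerivAt_const s x).prodMk (hasDerivAt_id s)
    exact h3.comp_hasDerivAt s h4
  rw [hd.deriv]
  have h5 : ‖fderiv ℝ u (x, s) ((0 : X), (1 : ℝ))‖ ≤ ‖fderiv ℝ u (x, s)‖ := by
    refine ((fderiv ℝ u (x, s)).le_opNorm _).trans ?_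
    simp [Prod.norm_def]
  rw [← ofReal_norm, ← ofReal_norm]
  exact ENNReal.ofReal_le_ofReal h5

theorem holder {W : Type} [NormedAddCommGroup W] (g : ℝ → W) (hg : Continuous g) (q : ℝ)
    (hq : 1 ≤ q) :
    (∫⁻ s in ball (0 : ℝ) 1, ‖g s‖ₑ) ^ q ≤
      2 ^ (q - 1) * ∫⁻ s in ball (0 : ℝ) 1, ‖g s‖ₑ ^ q := by
  have hq0 : 0 < q := by linarith
  have h := eLpNorm'_le_eLpNorm'_mul_rpow_measure_univ (μ := volume.restrict (ball (0 : ℝ) 1))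
    (f := g) one_pos hq hg.aestronglyMeasurable
  rw [eLpNorm'_eq_lintegral_enorm, eLpNorm'_eq_lintegral_enorm] at h
  simp only [ENNReal.rpow_one, div_one] at h
  have hv : (volume.restrict (ball (0 : ℝ) 1)) univ = 2 := by
    rw [Measure.restrict_apply MeasurableSet.univ, univ_inter, Real.volume_ball]
    norm_num
  rw [hv] at h
  refine (ENNReal.rpow_le_rpow h hq0.le).trans (le_of_eq ?_)
  rw [ENNReal.mul_rpow_of_nonneg _ _ hq0.le, ← ENNReal.rpow_mul, ← ENNReal.rpow_mul,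
    one_div_mul_cancel hq0.ne', ENNReal.rpow_one, mul_comm]
  congr 2
  field_simp

end PoincX

theorem poinc : PoincStmt := by
  intro ι _ V _ _ _ u q hq hu h0
  have hq0 : 0 < q := by linarith
  have hp0 : ENNReal.ofReal q ≠ 0 := by
    simpa using hq0
  have hcD : Continuous (fderiv ℝ u) := hu.continuous_fderiv one_ne_zero
  rw [eLpNorm_eq_lintegral_rpow_enorm_toReal hp0 ENNReal.ofReal_ne_top,
    eLpNorm_eq_lintegral_rpow_enorm_toReal hp0 ENNReal.ofReal_ne_top,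
    ENNReal.toReal_ofReal hq0.le]
  have hμ : (volume : Measure ((ι → ℝ) × ℝ)).restrict (ball 0 1) =
      ((volume : Measure (ι → ℝ)).restrict (ball 0 1)).prod
        ((volume : Measure ℝ).restrict (ball 0 1)) := by
    rw [Measure.prod_restrict, ball_prod_same]
    rfl
  rw [hμ]
  have hm : Measurable fun y : (ι → ℝ) × ℝ => ‖fderiv ℝ u y‖ₑ ^ q :=
    hcD.enorm.measurable.pow_const q
  have key : ∫⁻ y, ‖u y‖ₑ ^ q ∂(((volume : Measure (ι → ℝ)).restrict (ball 0 1)).prod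
        ((volume : Measure ℝ).restrict (ball 0 1))) ≤
      2 ^ q * ∫⁻ y, ‖fderiv ℝ u y‖ₑ ^ q ∂(((volume : Measure (ι → ℝ)).restrict (ball 0 1)).prod
        ((volume : Measure ℝ).restrict (ball 0 1))) := by
    refine (lintegral_prod_le _).trans ?_
    rw [lintegral_prod _ hm.aemeasurable, ← lintegral_const_mul' _ _ (by simp)]
    refine lintegral_mono fun x => ?_
    have hs : ∀ t ∈ ball (0 : ℝ) 1, ‖u (x, t)‖ₑ ^ q ≤
        2 ^ (q - 1) * ∫⁻ s in ball (0 : ℝ) 1, ‖fderiv ℝ u (x, s)‖ₑ ^ q := by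
      intro t ht
      refine (ENNReal.rpow_le_rpow (PoincX.slice u hu h0 x t ht) hq0.le).trans ?_
      exact PoincX.holder (fun s : ℝ => fderiv ℝ u (x, s))
        (hcD.comp (continuous_const.prodMk continuous_id)) q hq
    refine (setLIntegral_mono' measurableSet_ball hs).trans (le_of_eq ?_)
    rw [setLIntegral_const, Real.volume_ball]
    have h2 : (2 : ℝ≥0∞) ^ q = 2 ^ (q - 1) * 2 := by
      have h4 := ENNReal.rpow_add (x := 2) (q - 1) 1 (by norm_num) (by norm_num)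
      rw [sub_add_cancel, ENNReal.rpow_one] at h4
      exact h4
    have h3 : ENNReal.ofReal (2 * 1) = 2 := by norm_num
    rw [h2, h3]
    ring
  refine (ENNReal.rpow_le_rpow key (by positivity)).trans (le_of_eq ?_)
  rw [ENNReal.mul_rpow_of_nonneg _ _ (by positivity), ← ENNReal.rpow_mul,
    mul_one_div_cancel hq0.ne', ENNReal.rpow_one]

end SK

end

section

namespace SK
open SJ Set Filter Topology MeasureTheory Metric Function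
open scoped ENNReal

namespace Wrap2X

theorem lp_le {α E : Type*} [MeasurableSpace α] [NormedAddCommGroup E] (μ : Measure α)
    (u : α → E) {e q : ℝ} (hq : 1 ≤ q) (he : 0 ≤ e)
    (hi : ∫⁻ y, ENNReal.ofReal (‖u y‖ ^ q) ∂μ ≤ ENNReal.ofReal e) :
    eLpNorm u (ENNReal.ofReal q) μ ≤ ENNReal.ofReal (e ^ (1 / q)) := by
  rw [eLpNorm_eq_lintegral_rpow_enorm_toReal (by simp; linarith) ENNReal.ofReal_ne_top,
    ENNReal.toReal_ofReal (by linarith),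
    ← ENNReal.ofReal_rpow_of_nonneg he (by positivity)]
  refine ENNReal.rpow_le_rpow (le_trans (le_of_eq (lintegral_congr fun y => ?_)) hi) (by positivity)
  rw [← ofReal_norm, ENNReal.ofReal_rpow_of_nonneg (norm_nonneg _) (by linarith)]

theorem geo {a : ℕ → ℝ≥0∞} {C q : ℝ} (hq : 1 ≤ q) (hC : 0 ≤ C)
    (h : ∀ j, a j ≤ ENNReal.ofReal ((C * (3 / 4) ^ j) ^ (1 / q))) : ∑' j, a j ≠ ∞ := by
  have hr : (3 / 4 : ℝ) ^ (1 / q) < 1 :=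
    Real.rpow_lt_one (by norm_num) (by norm_num) (by positivity)
  have hs := (summable_geometric_of_lt_one (by positivity) hr).mul_left (C ^ (1 / q))
  refine ne_top_of_le_ne_top hs.tsum_ofReal_ne_top (ENNReal.tsum_le_tsum fun j => (h j).trans ?_)
  rw [Real.mul_rpow hC (by positivity), Real.rpow_pow_comm (by norm_num)]

theorem tr {N : ℕ} {V W : Type*} [NormedAddCommGroup V] [NormedAddCommGroup W]
    (u : (Fin (N + 1) → ℝ) → V) (v : (Fin N → ℝ) × ℝ → W) {q : ℝ} (hq : 1 ≤ q)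
    (h : ∀ z, ‖u z‖ ≤ ‖v (WrapX.LL N z)‖) :
    eLpNorm u (ENNReal.ofReal q) (volume.restrict (ball 0 1)) ≤
      eLpNorm v (ENNReal.ofReal q) (volume.restrict (ball 0 1)) := by
  rw [eLpNorm_eq_lintegral_rpow_enorm_toReal (by simp; linarith) ENNReal.ofReal_ne_top,
    eLpNorm_eq_lintegral_rpow_enorm_toReal (by simp; linarith) ENNReal.ofReal_ne_top,
    ← WrapX.lint_LL N fun y => ‖v y‖ₑ ^ (ENNReal.ofReal q).toReal]
  refine ENNReal.rpow_le_rpow (lintegral_mono fun z => ?_) (by positivity)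
  exact ENNReal.rpow_le_rpow (enorm_le_iff_norm_le.2 (h z)) ENNReal.toReal_nonneg

theorem t1 (hP : PoincStmt) {N : ℕ} {W : Type} [NormedAddCommGroup W] [NormedSpace ℝ W]
    [CompleteSpace W] {F G : (Fin N → ℝ) × ℝ → W} {q : ℝ} (hq : 1 ≤ q) (hF : ContDiff ℝ 2 F)
    (hG : ContDiff ℝ 2 G) (h : ∀ y : (Fin N → ℝ) × ℝ, 1 / 2 ≤ y.2 → F =ᶠ[𝓝 y] G) :
    eLpNorm (fun y => fderiv ℝ F y - fderiv ℝ G y) (ENNReal.ofReal q)
      (volume.restrict (ball 0 1)) ≤ 2 * eLpNorm (fun y => D2 F y - D2 G y)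
        (ENNReal.ofReal q) (volume.restrict (ball 0 1)) := by
  have a : ContDiff ℝ 1 (fderiv ℝ F) := hF.fderiv_right (by norm_num)
  have b : ContDiff ℝ 1 (fderiv ℝ G) := hG.fderiv_right (by norm_num)
  have h1 := hP (Fin N) _ (fun y => fderiv ℝ F y - fderiv ℝ G y) q hq (a.sub b)
    fun y hy => sub_eq_zero.2 (h y hy).fderiv_eq
  have e : (fderiv ℝ fun y => fderiv ℝ F y - fderiv ℝ G y) = fun y => D2 F y - D2 G y :=
    funext fun y =>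
      fderiv_fun_sub (a.differentiable one_ne_zero y) (b.differentiable one_ne_zero y)
  rwa [e] at h1

theorem t2 {α E : Type*} [MeasurableSpace α] [NormedAddCommGroup E] (μ : Measure α)
    (u : ℕ → α → E) {C q : ℝ} (hq : 1 ≤ q)
    (hi : ∀ j, ∫⁻ y, ENNReal.ofReal (‖u j y‖ ^ q) ∂μ ≤ ENNReal.ofReal (C * (3 / 4) ^ j)) :
    ∑' j, eLpNorm (u j) (ENNReal.ofReal q) μ ≠ ∞ := by
  refine geo hq (le_max_right C 0) fun j => lp_le _ _ hq (by positivity) ((hi j).trans ?_)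
  exact ENNReal.ofReal_le_ofReal (mul_le_mul_of_nonneg_right (le_max_left _ _) (by positivity))

theorem t3 {a b : ℕ → ℝ≥0∞} (hb : ∑' j, b j ≠ ∞) (h : ∀ j, a j ≤ 2 * b j) : ∑' j, a j ≠ ∞ := by
  refine ne_top_of_le_ne_top (ENNReal.mul_ne_top ENNReal.ofNat_ne_top hb : 2 * _ ≠ ∞) ?_
  rw [← ENNReal.tsum_mul_left]
  exact ENNReal.tsum_le_tsum h

end Wrap2X

open WrapX Wrap2X in
theorem wrap2 (hP : PoincStmt) : Wrap2Stmt := by
  intro N F f C C' q hq1 hF hf hinj hlim hbd htop hint Pos Neg hPs hN hP0 hN0 hPd hNd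
  set L := LL N with hL
  have hcont : Continuous fun z => L.symm (f (L z)) :=
    L.symm.continuous.comp (hf.comp L.continuous)
  set G : ℕ → (Fin (N + 1) → ℝ) → Fin (N + 1) → ℝ := fun j z => L.symm (F j (L z)) with hG
  have n1 : ∀ j z, ‖fderiv ℝ (G (j + 1)) z - fderiv ℝ (G j) z‖ ≤
      ‖fderiv ℝ (F (j + 1)) (L z) - fderiv ℝ (F j) (L z)‖ := fun j z =>
    norm1_conj L (hF _) (hF _) z
  have n2 : ∀ j z, ‖D2 (G (j + 1)) z - D2 (G j) z‖ ≤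
      ‖D2 (F (j + 1)) (L z) - D2 (F j) (L z)‖ := fun j z => norm2_conj L (hF _) (hF _) z
  have u2 := t2 (volume.restrict (ball 0 1)) (fun j y => D2 (F (j + 1)) y - D2 (F j) y) hq1 hint
  have s1 : ∑' j, eLpNorm (fun z => fderiv ℝ (G (j + 1)) z - fderiv ℝ (G j) z) (ENNReal.ofReal q)
      (volume.restrict (ball 0 1)) ≠ ∞ :=
    t3 u2 fun j => (tr (fun z => fderiv ℝ (G (j + 1)) z - fderiv ℝ (G j) z)
      (fun y => fderiv ℝ (F (j + 1)) y - fderiv ℝ (F j) y) hq1 (n1 j)).trans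
      (t1 hP hq1 (hF _) (hF _) (htop j))
  have s2 : ∑' j, eLpNorm (fun z => D2 (G (j + 1)) z - D2 (G j) z) (ENNReal.ofReal q)
      (volume.restrict (ball 0 1)) ≠ ∞ :=
    ne_top_of_le_ne_top u2 (ENNReal.tsum_le_tsum fun j => tr (fun z => D2 (G (j + 1)) z - D2 (G j) z)
      (fun y => D2 (F (j + 1)) y - D2 (F j) y) hq1 (n2 j))
  obtain ⟨Df, h1, h2⟩ := w2_limit hq1 G (fun z => L.symm (f (L z)))
    (fun j => cd_conj L (hF j)) hcont (fun z => (L.symm.continuous.tendsto _).comp (hlim (L z))) C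
    (fun j z hz => (L.symm.norm_map _).trans_le (hbd j _ (by simpa using hz))) s1 s2
  rw [ae_restrict_iff' measurableSet_ball] at h2
  have hm : ∀ A, volume (L ⁻¹' A) = volume A := fun A =>
    (mp_LL N).measure_preimage_emb (LL N).toHomeomorph.measurableEmbedding A
  have hd : ∀ z, (∀ j, fderiv ℝ (F j) (L z) = fderiv ℝ (F 0) (L z)) → Tendsto (fun j =>
      (fderiv ℝ (fun z => L.symm (F j (L z))) z).det) atTop (𝓝 (Df z).det) →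
      (Df z).det = (fderiv ℝ (F 0) (L z)).det := fun z h3 h4 => by
    simp only [det_conj L (hF _), h3] at h4
    exact tendsto_nhds_unique h4 tendsto_const_nhds
  refine ⟨ball 0 1, isOpen_ball, (convex_ball _ _).isConnected (nonempty_ball.2 one_pos),
    fun z => L.symm (f (L z)), Df, ?_, h1, pos_of_ae (hm Pos ▸ hP0) h2 fun z hz h => ?_,
    pos_of_ae (hm Neg ▸ hN0) h2 fun z hz h => ?_⟩
  · have : CompactSpace (closedBall (0 : Fin (N + 1) → ℝ) 1) :=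
      isCompact_iff_compactSpace.1 (isCompact_closedBall _ _)
    have h3 : IsClosedEmbedding fun z : closedBall (0 : Fin (N + 1) → ℝ) 1 => L.symm (f (L z)) :=
      (hcont.comp continuous_subtype_val).isClosedEmbedding
        (L.symm.injective.comp (hinj.comp (L.injective.comp Subtype.val_injective)))
    exact h3.isEmbedding.comp (IsEmbedding.inclusion ball_subset_closedBall)
  · have h3 : z ∈ ball (0 : Fin (N + 1) → ℝ) 1 := by simpa using hPs hz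
    exact ⟨h3, by rw [hd z (hPd _ hz).2 (h h3)]; exact (hPd _ hz).1⟩
  · have h3 : z ∈ ball (0 : Fin (N + 1) → ℝ) 1 := by simpa using hN hz
    exact ⟨h3, by rw [hd z (hNd _ hz).2 (h h3)]; exact (hNd _ hz).1⟩

end SK

end

section

namespace SK
open SJ Set Filter Topology MeasureTheory Metric Function
open scoped ENNReal

section V2
variable {ι : Type} [Fintype ι] [DecidableEq ι]

/-- the grid functionals: the height and the tilted coordinates -/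
def lamF (k : Option ι) (z : (ι → ℝ) × ℝ) : ℝ :=
  match k with
  | none => z.2
  | some k => z.1 k - z.2

/-- a family of weights extended by the constant one for the height -/
def ext1 (R : ι → (ι → ℝ) × ℝ → ℝ) (k : Option ι) (y : (ι → ℝ) × ℝ) : ℝ :=
  match k with
  | none => 1
  | some k => R k y

/-- the implicit relation with a squeeze of the height -/
def Sol2 (A : ι → (ι → ℝ) × ℝ → ℝ) (Θ : Option ι → (ι → ℝ) × ℝ → ℝ) (uu : Option ι → ℝ → ℝ)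
    (z y : (ι → ℝ) × ℝ) : Prop :=
  y.2 = z.2 + Θ none y * uu none z.2 ∧ ∀ k, y.1 k = z.1 k +
    Θ (some k) y * uu (some k) (z.1 k - z.2) + A k y * (Θ none y * uu none z.2)

/-- squeeze a and its inverse b -/
structure SqO2 (M : ℕ) (K P' u : ℝ) (p : Option ι → ℕ) (uu : Option ι → ℝ → ℝ)
    (A : ι → (ι → ℝ) × ℝ → ℝ) (Θ : Option ι → (ι → ℝ) × ℝ → ℝ) (ν : (ι → ℝ) × ℝ → ℝ)
    (a b : (ι → ℝ) × ℝ → (ι → ℝ) × ℝ) : Prop where
  li : LeftInverse a b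
  ri : RightInverse a b
  aC : ContDiff ℝ 2 a
  bC : C2B b (400 * P') (K / u)
  sol : ∀ z, Sol2 A Θ uu z (b z)
  uniq : ∀ z y, Sol2 A Θ uu z y → y = b z
  disp : ∀ z, ‖b z - z‖ ≤ 2 * P' * u
  a1 : ∀ y, ‖fderiv ℝ a y‖ ≤ K / ν y ^ M
  a2 : ∀ y, ‖D2 a y‖ ≤ K / ν y ^ (2 * M + 1) / u
  det1 : ∀ y, 1 ≤ K * |(fderiv ℝ a y).det|
  det2 : ∀ y (T : Finset (Option ι)), (∀ k ∈ T, Θ k y = 1 - ν y ^ M ∧
    ∀ n : ℤ, u / 32 < |lamF k (a y) - p k * u * n|) →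
    1 ≤ K * (ν y ^ M) ^ T.card * |(fderiv ℝ a y).det|

/-- cluster functions of one level -/
structure CLS2 (m : ℕ) (Kq Kr Kh : ℝ) (p : Option ι → ℕ) (u ℓ κs : ℝ)
    (Rq : ι → (ι → ℝ) × ℝ → ℝ) (q e e2 : (ι → ℝ) × ℝ → ℝ) : Prop where
  qe : QE q e (u / 16) (Kr * (u / 16)) Kq
  eb : ∀ y, |e y| ≤ Kr * u / 4
  top : ∀ y, -ℓ ≤ y.2 → q y = 0 ∧ e y = 0
  good : ∀ z, -3 ≤ z.2 → z.2 ≤ -(7 / 4) * ℓ → (5 ≤ q z ∧ |e z| ≤ 5 * (u / 16)) ∨
    ∃ T : Finset (Option ι), m ≤ T.card ∧ ∀ k ∈ T, (∃ y', ‖y' - z‖ ≤ u ∧ ext1 Rq k y' ≠ 0) ∧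
      ∀ n : ℤ, u / 32 < |lamF k z - p k * u * n|
  e2b : ∀ y, |e2 y| ≤ 256 * κs
  e2C : C2B e2 (Kq * κs / (u / 16)) (Kq * κs / (u / 16) ^ 2)
  e2l : ∀ y t, 2 < q y → |e y| < Kr * (u / 16) → |t - (y.2 - e y)| < 3 * Kh * κs →
    ‖fderiv ℝ e2 (y.1, t)‖ ≤ Kq ∧ (|e y + (t - y.2)| ≤ 64 * κs → e2 (y.1, t) = e y + (t - y.2))

end V2

def ImpEx2Stmt : Prop :=
  ∀ (E : Type) [NormedAddCommGroup E] [NormedSpace ℝ E] [FiniteDimensional ℝ E],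
    ∃ Kd : ℝ, 1 ≤ Kd ∧ ∀ (U : E × E → E) (A B C Pm : ℝ), C2B U A B → 0 ≤ Pm →
      (∀ p a, ‖fderiv ℝ U p (a, 0)‖ ≤ 1 / 2 * ‖a‖) → (∀ p a, ‖fderiv ℝ U p (0, a)‖ ≤ Pm * ‖a‖) →
      (∀ z z' y y', y = z + U (y, z) → y' = z' + U (y', z') → ‖z - z'‖ ≤ C * ‖y - y'‖) →
      ∃ a b : E → E, LeftInverse a b ∧ RightInverse a b ∧ ContDiff ℝ 2 a ∧
        C2B b (2 + 2 * Pm) (2 * B * (2 + 2 * Pm) ^ 2) ∧ (∀ z, b z = z + U (b z, z)) ∧
        (∀ z y, y = z + U (y, z) → y = b z) ∧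
        ∀ (y : E) (L : E →L[ℝ] E), (∀ v, L v = v + fderiv ℝ U (y, a y) (0, v)) →
          1 ≤ Kd * |L.det| * |(fderiv ℝ a y).det|

def ScalStmt : Prop :=
  ∀ (E : Type) [NormedAddCommGroup E] [NormedSpace ℝ E] (G h : E → ℝ) (F : E × ℝ → ℝ),
    ContDiff ℝ 2 G → ContDiff ℝ 2 h → ContDiff ℝ 2 F → (∀ y, G y + F (y, G y) = h y) →
    ∀ (y : E) (τ H1 H2 E0 E1 E2 : ℝ), 0 < τ → τ ≤ 1 → 0 ≤ E0 → 0 ≤ E1 → 0 ≤ E2 →
      τ ≤ slp F (y, G y) → (∀ v, |fderiv ℝ F (y, G y) (v, 0)| ≤ 1 / 2 * ‖v‖) →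
      ‖fderiv ℝ h y‖ ≤ H1 / τ * slp F (y, G y) → ‖D2 h y‖ ≤ H2 / τ ^ 2 * slp F (y, G y) →
      (∀ v w, |D2 F (y, G y) (v, 0) (w, 0)| ≤ E0 * ‖v‖ * ‖w‖) →
      (∀ v, |D2 F (y, G y) (v, 0) (0, 1)| ≤ E1 * ‖v‖) →
      |D2 F (y, G y) (0, 1) (0, 1)| ≤ E2 * slp F (y, G y) →
      ‖fderiv ℝ G y‖ ≤ (H1 + 1) / τ ∧
        ‖D2 G y‖ ≤ (H2 + E0 + 2 * E1 * (H1 + 1) + E2 * (H1 + 1) ^ 2) / τ ^ 2

def FSq2Stmt : Prop :=
  ∀ (ι : Type) [Fintype ι] [DecidableEq ι] (M : ℕ) (P' : ℝ), 2 ≤ M → 1 ≤ P' → ∃ K : ℝ, 1 ≤ K ∧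
    ∀ (p : Option ι → ℕ) (u : ℝ), (∀ k, 1 ≤ p k ∧ (p k : ℝ) ≤ P') → 0 < u →
      ∃ uu : Option ι → ℝ → ℝ, ∀ (A : ι → (ι → ℝ) × ℝ → ℝ) (Θ : Option ι → (ι → ℝ) × ℝ → ℝ)
        (ν : (ι → ℝ) × ℝ → ℝ) (ν0 : ℝ), 0 < ν0 → (∀ y, ν0 ≤ ν y ∧ ν y ≤ 1) →
        (∀ k y, 0 ≤ Θ k y ∧ Θ k y ≤ 1 - ν y ^ M) → (∀ k y, Θ (some k) y ≤ A k y ∧ A k y ≤ 1) →
        (∀ k, C2B (Θ k) (1 / (8 * (P' * u))) (1 / (P' * u) ^ 2)) →
        (∀ k, C2B (A k) (1 / (8 * (P' * u))) (1 / (P' * u) ^ 2)) →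
        ∃ a b, SqO2 M K P' u p uu A Θ ν a b

def Grid3Stmt : Prop :=
  ∀ (ι : Type) [Fintype ι] [DecidableEq ι] (m : ℕ) (K1 : ℝ), 1 ≤ K1 → ∃ K : ℝ, 1 ≤ K ∧
    ∀ (p : Option ι → ℕ) (P u ℓ : ℝ) (A R : ι → (ι → ℝ) × ℝ → ℝ),
      (∀ k l, k ≠ l → Nat.Coprime (p k) (p l)) → 1 ≤ P → (∀ k, P ≤ p k) → 0 < u →
      16 * u * P ^ 2 ≤ ℓ → ℓ ≤ 1 → Rg K1 ℓ (ℓ / 16) (2 * m - 1) A R →
      ∃ (I : Finset ℕ) (W : ℕ → (ι → ℝ) → ℝ) (s : ℕ → ℝ),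
        CS I W s (u / 16) (u * P ^ 2 - u / 4) K ∧ (∀ n ∈ I, s n ≤ -(3 / 2) * ℓ) ∧
        ∀ z : (ι → ℝ) × ℝ, -3 ≤ z.2 → z.2 ≤ -(7 / 4) * ℓ →
          (∃ J ⊆ I, 5 ≤ J.card ∧ ∀ n ∈ J, W n z.1 = 1 ∧ |s n - z.2| ≤ u / 16 / 2) ∨
          ∃ T : Finset (Option ι), m ≤ T.card ∧ ∀ k ∈ T,
            (∃ y', ‖y' - z‖ ≤ u ∧ ext1 R k y' ≠ 0) ∧ ∀ n : ℤ, u / 32 < |lamF k z - p k * u * n|

def Clus2Stmt : Prop :=
  ∀ (ι : Type) [Fintype ι] [DecidableEq ι] (m : ℕ) (K1 Kr Kh : ℝ), 1 ≤ K1 → 16 ≤ Kr → 1 ≤ Kh →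
    ∃ Kq Kb : ℝ, 1 ≤ Kq ∧ 1 ≤ Kb ∧
    ∀ (N P P' R ε lam ℓ : ℝ) (p : Option ι → ℕ) (A Rq : ι → (ι → ℝ) × ℝ → ℝ),
      FPar Kb N P P' R ε lam → (∀ k l, k ≠ l → Nat.Coprime (p k) (p l)) → (∀ k, P ≤ p k) →
      0 < ℓ → ℓ ≤ 1 → Rg K1 ℓ (ℓ / 16) (2 * m - 1) A Rq →
      ∃ q e e2, CLS2 m Kq Kr Kh p (ℓ / R) ℓ (N * P' * (ℓ / R / 16)) Rq q e e2

def LevA2Stmt : Prop :=
  ∀ (ι : Type) [Fintype ι] [DecidableEq ι] (M : ℕ) (Kr Kq Kz : ℝ), 64 ≤ Kr → 1 ≤ Kq → 1 ≤ Kz →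
    ∃ Kb : ℝ, 1 ≤ Kb ∧ ∀ N P P' R ε lam : ℝ, FPar Kb N P P' R ε lam → ∀ Ks : ℝ, 1 ≤ Ks →
    ∃ Kw : ℝ, 1 ≤ Kw ∧ ∀ (m m2 : ℕ) (K1 Kh ℓ κs : ℝ) (p : Option ι → ℕ) (uu : Option ι → ℝ → ℝ)
      (A Rq : ι → (ι → ℝ) × ℝ → ℝ) (q e e2 ν : (ι → ℝ) × ℝ → ℝ)
      (a b : (ι → ℝ) × ℝ → (ι → ℝ) × ℝ) (Z : ℝ → ℝ), 0 < ℓ → ℓ ≤ 1 →
      Rg K1 ℓ (ℓ / 16) m2 A Rq → CLS2 m Kq Kr Kh p (ℓ / R) ℓ κs Rq q e e2 →
      (∀ y, 0 < ν y ∧ ν y ≤ 1) →
      SqO2 M Ks P' (ℓ / R) p uu A (fun k => Th ℓ M (ext1 A k) ν) ν a b →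
      ZAh Kz ε (ℓ / R / 16) Z →
      LA lam ℓ Kw M m A (fun y => vm q e Z (a y)) (rho e) ν (chi2 q e (ε * (ℓ / R / 16)))

def LevB2Stmt : Prop :=
  ∀ (ι : Type) [Fintype ι] [DecidableEq ι], ∃ Kh Kr0 : ℝ, 64 ≤ Kh ∧ 64 ≤ Kr0 ∧
    ∀ Kr Kq Kz : ℝ, Kr0 ≤ Kr → 1 ≤ Kq → 1 ≤ Kz →
    ∃ Kb : ℝ, 1 ≤ Kb ∧ ∀ N P P' R ε lam : ℝ, FPar Kb N P P' R ε lam → ∀ Ks : ℝ, 1 ≤ Ks →
    ∃ Kw : ℝ, 1 ≤ Kw ∧ ∀ (M m : ℕ) (ℓ0 ℓ κ0 κs : ℝ) (p : Option ι → ℕ) (uu : Option ι → ℝ → ℝ)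
      (A R0 Rq : ι → (ι → ℝ) × ℝ → ℝ) (Θ : Option ι → (ι → ℝ) × ℝ → ℝ)
      (q0 e0 e20 q e e2 ν : (ι → ℝ) × ℝ → ℝ)
      (a b a' b' : (ι → ℝ) × ℝ → (ι → ℝ) × ℝ) (Z : ℝ → ℝ), 0 < ℓ0 → ℓ = lam * ℓ0 →
      κs = ε * (ℓ0 / R / 16) → CLS2 m Kq Kr Kh p (ℓ0 / R) ℓ0 κ0 R0 q0 e0 e20 →
      CLS2 m Kq Kr Kh p (ℓ / R) ℓ κs Rq q e e2 → SqO2 M Ks P' (ℓ / R) p uu A Θ ν a b →
      SqO2 M Ks P' (ℓ / R) p uu A (fun k y => ConjX.chi q0 e0 κs y * Θ k y) ν a' b' →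
      (∀ k y, A k y = 0 → Θ (some k) y = 0) → ZAh Kz ε (ℓ / R / 16) Z →
      ∃ Pm : (ι → ℝ) × ℝ → (ι → ℝ) × ℝ, LB lam ℓ Kw A Pm ∧
        ∀ y, chi2 q0 e0 κs y ≠ 0 → chi2 q e (ε * (ℓ / R / 16)) (vm q e Z (a y)) ≠ 0 →
          Pm (rho e (vm q e Z (a y))) = rho e0 y

def FPack2Stmt : Prop :=
  ∀ (ι : Type) [Fintype ι] [DecidableEq ι] (m : ℕ) (q K1 : ℝ), 1 ≤ q →
    2 * q < m → 1 ≤ K1 → ∃ lam1 : ℝ, 0 < lam1 ∧ ∀ lam : ℝ, 0 < lam → lam ≤ lam1 →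
    ∀ (KT : ℝ) (act req : ℕ → ι → (ι → ℝ) → ℝ),
      (∀ j, Rg K1 (el lam j) (el lam j) (2 * m - 1) (act j) (req j)) →
      ∃ (K Bs : ℝ) (B : ℕ → ℝ) (α ρ P : ℕ → (ι → ℝ) × ℝ → (ι → ℝ) × ℝ)
        (c w : ℕ → (ι → ℝ) × ℝ → ℝ), KT ≤ K ∧ PF q lam K Bs B act α ρ P c w

theorem main_of2 (hT : TPackStmt) (hF : FPack2Stmt) (hL : LimStmt) (hLoc : LocStmt) (hI : IntStmt)
    (hS : SignStmt) (hW : Wrap2Stmt) (r m d : ℕ) (q : ℝ) (hr : 1 ≤ r) (hq1 : 1 ≤ q) (hq2 : q < 2)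
    (hqr : 2 * q < r + 2) (hqm : 2 * q < m) (hd : d + 1 = r + 2 * m) : SignChange (d + 1) q := by
  have hm : 2 ≤ m := by
    by_contra h
    have h1 : m ≤ 1 := by omega
    have h2 : (m : ℝ) ≤ 1 := by exact_mod_cast h1
    linarith
  have hc : Fintype.card (Fin d) = d := Fintype.card_fin _
  obtain ⟨K1, hK1, hT⟩ := hT (Fin d) r q (by omega) hr hq1 hq2 hqr
  obtain ⟨lam1, hl1, hF⟩ := hF (Fin d) m q K1 hq1 hqm hK1
  obtain ⟨lam, KT, C, l0, l1, act, req, H, g, U, hPT, hR⟩ := hT lam1 hl1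
  have e : Fintype.card (Fin d) - r = 2 * m - 1 := by omega
  rw [e] at hR
  obtain ⟨K, Bs, B, α, ρ, P, c, w, hK, hPF⟩ := hF lam l0 l1 KT act req hR
  have hPT := hPT K hK
  obtain ⟨hcd, f, f1, f2, f3, f4⟩ := hL _ q lam K C Bs B act H g U α ρ P c w hPT hPF
  obtain ⟨C', hC'⟩ := hI _ q lam K C Bs B act H g U α ρ P c w hPT hPF
  obtain ⟨Pos, Neg, s1, s2, s3, s4, s5, s6⟩ := hS _ q lam K C Bs B act H g U α ρ P c w hPT hPF
  refine hW d (FF2 H P ρ α) f 10 C' q hq1 hcd f1 f2 f3 f4 (fun j y hy => ?_) hC'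
    Pos Neg s1 s2 s3 s4 s5 s6
  refine (hLoc _ q lam K C Bs B act H g U α ρ P c w hPT hPF j y).2.1 (le_trans ?_ hy)
  have h1 : lam ^ (j + 1) ≤ lam := by
    rw [pow_succ]
    have : lam ^ j ≤ 1 := pow_le_one₀ l0.le (by linarith [hPF.l1])
    nlinarith
  unfold el
  linarith [hPF.l1]

end SK

end

section

namespace SK
open SJ Set Filter Topology MeasureTheory Metric Function
open scoped ENNReal

namespace VMoveX
variable {X : Type} [NormedAddCommGroup X] [NormedSpace ℝ X]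

theorem c2b {K0 K1 : ℝ} (h0 : 1 ≤ K0) (h1 : 1 ≤ K1) (hst : C2B st K0 K0) :
    ∃ R : ℝ, 0 ≤ R ∧ ∀ (q e : X × ℝ → ℝ) (κ : ℝ) (Z : ℝ → ℝ) (A1 A2 : ℝ), 0 < κ →
      C2B q (K1 / κ) (K1 / κ ^ 2) → C2B e K1 (K1 / κ) → C2B Z A1 A2 → 1 ≤ A1 →
      (∀ v, |Z v| ≤ 16 * κ) →
      C2B (fun y => st (q y - 2) * Z (e y)) (R * A1) (R * (A1 / κ + A2)) := by
  obtain ⟨M, hM⟩ : ∃ M, M = 16 * (K0 * K1 ^ 2 + K0 * K1) := ⟨_, rfl⟩
  have M0 : 0 ≤ M := by rw [hM]; positivity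
  have p1 : 0 ≤ K0 * K1 ^ 2 := by positivity
  refine ⟨M + 2 * (K0 * K1 ^ 2) + K1 ^ 2 + K1, by positivity, ?_⟩
  intro q e κ Z A1 A2 hκ hq he hZ hA hb
  have b1 : ∀ y, |st (q y - 2)| ≤ 1 := fun y => by
    rw [abs_of_nonneg (st_nonneg _)]; exact st_le_one _
  have A20 := hZ.nonneg2
  refine (C2B.mul b1 (hst.comp (hq.sub_const 2)) (fun y => hb _) (hZ.comp he)).mono ?_ ?_
  · have e1 : K0 * (K1 / κ) * (16 * κ) = 16 * (K0 * K1) := by field_simp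
    have e2 : 16 * (K0 * K1) ≤ M * A1 := by
      refine le_trans ?_ (le_mul_of_one_le_right M0 hA)
      rw [hM]; linarith
    have e3 : 0 ≤ (2 * (K0 * K1 ^ 2) + K1 ^ 2) * A1 := by positivity
    rw [e1]
    linarith
  · have e1 : (K0 * (K1 / κ) ^ 2 + K0 * (K1 / κ ^ 2)) * (16 * κ) = M * (1 / κ) := by
      rw [hM]; field_simp
    have e2 : M * (1 / κ) ≤ M * (A1 / κ) := by gcongr
    have e3 : 2 * (K0 * (K1 / κ)) * (A1 * K1) = 2 * (K0 * K1 ^ 2) * (A1 / κ) := by ring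
    have e4 : A1 * (K1 / κ) = K1 * (A1 / κ) := by ring
    have e5 : 0 ≤ K1 ^ 2 * (A1 / κ) := by positivity
    have e6 : 0 ≤ (M + 2 * (K0 * K1 ^ 2) + K1) * A2 := by positivity
    rw [e1, e3, e4]
    linarith

theorem slope {q e : X × ℝ → ℝ} {κ h K c : ℝ} {Z : ℝ → ℝ} (H : QE q e κ h K) (hh : 0 < h)
    (hZ : Differentiable ℝ Z) (h0 : ∀ v, h / 2 ≤ |v| → Z v = 0) (hc : c ≤ 1)
    (hs : ∀ v, c ≤ 1 + deriv Z v) (x : X) (s : ℝ) :
    c ≤ deriv (fun t => t + st (q (x, t) - 2) * Z (e (x, t))) s := by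
  have cz : Continuous fun t : ℝ => ((x, t) : X × ℝ) := by fun_prop
  by_cases hA : 1 ≤ q (x, s) ∧ |e (x, s)| ≤ h
  · have h1 : (fun t => t + st (q (x, t) - 2) * Z (e (x, t))) =ᶠ[𝓝 s]
        fun t => t + st (q (x, s) - 2) * Z (e (x, s) + (t - s)) := by
      filter_upwards [closedBall_mem_nhds s (half_pos hh)] with u hu
      rw [mem_closedBall, Real.dist_eq] at hu
      have hu2 : |u - (s - e (x, s))| ≤ 3 * h / 2 := by
        rw [show u - (s - e (x, s)) = (u - s) + e (x, s) by ring]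
        linarith [abs_add_le (u - s) (e (x, s)), hA.2]
      obtain ⟨c1, c2⟩ := H.cov (x, s) u hA.1 hA.2 hu2
      rw [c1, c2]
    have h2 : HasDerivAt (fun t => t + st (q (x, s) - 2) * Z (e (x, s) + (t - s)))
        (1 + st (q (x, s) - 2) * (deriv Z (e (x, s) + (s - s)) * 1)) s :=
      (hasDerivAt_id s).add (((hZ _).hasDerivAt.comp s
        (((hasDerivAt_id s).sub_const s).const_add (e (x, s)))).const_mul _)
    rw [h1.deriv_eq, h2.deriv, mul_one]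
    have a := hs (e (x, s) + (s - s))
    have b := st_nonneg (q (x, s) - 2)
    have d := st_le_one (q (x, s) - 2)
    nlinarith [mul_nonneg b (sub_nonneg.2 a), mul_nonneg (sub_nonneg.2 d) (sub_nonneg.2 hc)]
  · have hs' : q (x, s) < 1 ∨ h < |e (x, s)| := by
      by_contra hn
      rw [not_or, not_lt, not_lt] at hn
      exact hA hn
    have ho : IsOpen {u : ℝ | q (x, u) < 1 ∨ h < |e (x, u)|} :=
      (isOpen_lt (H.qC.cont.comp cz) continuous_const).union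
        (isOpen_lt continuous_const (H.eC.cont.comp cz).abs)
    have h1 : (fun t => t + st (q (x, t) - 2) * Z (e (x, t))) =ᶠ[𝓝 s] fun t => t := by
      filter_upwards [ho.mem_nhds hs'] with u hu
      rcases hu with hu | hu
      · rw [st_zero (by linarith), zero_mul, add_zero]
      · rw [h0 _ (by linarith), mul_zero, add_zero]
    rw [h1.deriv_eq, deriv_id'']
    exact hc

theorem flat {q e : X × ℝ → ℝ} {κ h K : ℝ} {Z : ℝ → ℝ} (H : QE q e κ h K) (hh : 0 < h)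
    (hZ : Differentiable ℝ Z) (h0 : ∀ v, h / 2 ≤ |v| → Z v = 0) (y : X × ℝ)
    (hy : q y ≤ 2 ∨ h ≤ |e y|) :
    HasFDerivAt (fun y => st (q y - 2) * Z (e y)) (0 : X × ℝ →L[ℝ] ℝ) y := by
  rcases hy with hy | hy
  · have d1 : DifferentiableAt ℝ (fun y => st (q y - 2)) y :=
      (OneD1X.st_cd.differentiable (by norm_num) _).comp y ((H.qC.diff y).sub_const 2)
    have e0 : st (q y - 2) = 0 := st_zero (by linarith)
    have h1 : IsLocalMin (fun y => st (q y - 2)) y :=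
      Eventually.of_forall fun z => e0.trans_le (st_nonneg _)
    have h2 := d1.hasFDerivAt.mul ((hZ _).comp y (H.eC.diff y)).hasFDerivAt
    rw [h1.fderiv_eq_zero, e0, zero_smul, smul_zero, add_zero] at h2
    exact h2
  · refine (hasFDerivAt_const (0 : ℝ) y).congr_of_eventuallyEq ?_
    filter_upwards [(isOpen_lt continuous_const H.eC.cont.abs).mem_nhds
      (show h / 2 < |e y| by linarith)] with z hz
    rw [h0 _ (le_of_lt hz), mul_zero]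

end VMoveX

theorem vMove : VMoveStmt := by
  intro X _ _ _ K1 h1
  obtain ⟨K0, h0, hst, -⟩ := exists_K0
  obtain ⟨R, R0, hR⟩ := VMoveX.c2b (X := X) h0 h1 hst
  refine ⟨1 + R, by linarith, fun q e κ h Z A1 A2 c hκ hh H hZ hA hb hz c0 c1 hs => ?_⟩
  have hφ := hR q e κ Z A1 A2 hκ H.qC H.eC hZ hA hb
  have hsl := VMoveX.slope H hh hZ.diff hz c1 hs
  have p0 : 0 ≤ A1 / κ + A2 := add_nonneg (by positivity) hZ.nonneg2
  have p1 : 0 ≤ R * A1 := by positivity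
  have p2 : 0 ≤ R * (A1 / κ + A2) := by positivity
  have hu : C2B (fun y : X × ℝ => y.2 + st (q y - 2) * Z (e y)) ((1 + R) * A1)
      ((1 + R) * (A1 / κ + A2)) := (C2B.snd'.add hφ).mono (by linarith) (by linarith)
  refine ⟨(C2B.fst'.mono (by linarith) (by linarith)).prodMk hu, fun y => ?_, ?_, fun y => ?_⟩
  · by_cases hy : q y ≤ 2 ∨ h ≤ |e y|
    · have h2 : HasFDerivAt (vm q e Z) _ y :=
        hasFDerivAt_fst.prodMk (hasFDerivAt_snd.add (VMoveX.flat H hh hZ.diff hz y hy))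
      rw [h2.fderiv, add_zero, ContinuousLinearMap.fst_prod_snd]
      exact Or.inl ContinuousLinearMap.norm_id_le
    · rw [not_or, not_le, not_le] at hy
      exact Or.inr hy
  · rintro ⟨x, t⟩ ⟨x', t'⟩
    have hd : Differentiable ℝ fun t => t + st (q (x, t) - 2) * Z (e (x, t)) :=
      hu.diff.comp (f := fun t : ℝ => ((x, t) : X × ℝ)) (by fun_prop)
    have a1 : ∀ s s', s ≤ s' → c * |s - s'| ≤ |s + st (q (x, s) - 2) * Z (e (x, s)) -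
        (s' + st (q (x, s') - 2) * Z (e (x, s')))| := fun s s' hss => by
      rw [abs_sub_comm, abs_sub_comm (s + _), abs_of_nonneg (sub_nonneg.2 hss)]
      exact (mul_sub_le_image_sub_of_le_deriv hd (hsl x) hss).trans (le_abs_self _)
    have a2 : c * |t - t'| ≤ |t + st (q (x, t) - 2) * Z (e (x, t)) -
        (t' + st (q (x, t') - 2) * Z (e (x, t')))| := by
      rcases le_total t t' with a | a
      · exact a1 t t' a
      · rw [abs_sub_comm, abs_sub_comm (t + _)]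
        exact a1 t' t a
    have a3 := hφ.lip (x', t') (x, t')
    have a4 := norm_fst_le (vm q e Z (x, t) - vm q e Z (x', t'))
    have a5 := norm_snd_le (vm q e Z (x, t) - vm q e Z (x', t'))
    generalize ‖vm q e Z (x, t) - vm q e Z (x', t')‖ = N at a4 a5 ⊢
    simp only [vm, Prod.mk_sub_mk, sub_self, Prod.norm_mk, norm_zero,
      Real.norm_eq_abs] at a3 a4 a5 ⊢
    rw [max_eq_left (norm_nonneg _), norm_sub_rev] at a3
    have N0 : 0 ≤ N := (norm_nonneg _).trans a4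
    have a6 := a3.trans (mul_le_mul_of_nonneg_left a4 p1)
    have a7 := abs_sub_le (t + st (q (x, t) - 2) * Z (e (x, t)))
      (t' + st (q (x', t') - 2) * Z (e (x', t'))) (t' + st (q (x, t') - 2) * Z (e (x, t')))
    rw [add_sub_add_left_eq_sub] at a7
    have a8 := mul_le_mul_of_nonneg_right hA N0
    have a9 := mul_nonneg p1 N0
    rw [div_mul_eq_mul_div, le_div_iff₀' c0, mul_max_of_nonneg _ _ c0.le]
    refine max_le ?_ (by linarith)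
    have := mul_le_mul_of_nonneg_right c1 (norm_nonneg (x - x'))
    linarith
  · have h2 : (fderiv ℝ (vm q e Z) y).det = _ := det_vert (hu.diff y)
    rw [h2]
    exact (hsl y.1 y.2).trans (le_abs_self _)

end SK

end

section

namespace SK
open SJ Set Filter Topology MeasureTheory Metric Function
open scoped ENNReal

namespace Conj2X

/-- gluing of two maps with the same bounds along an open cover by two sets -/
theorem c2b_glue {E : Type} [NormedAddCommGroup E] [NormedSpace ℝ E] {Γ f g : E → E} {A B : ℝ}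
    (hf : C2B f A B) (hg : C2B g A B) (h : ∀ y, Γ =ᶠ[𝓝 y] f ∨ Γ =ᶠ[𝓝 y] g) : C2B Γ A B := by
  refine ⟨contDiff_iff_contDiffAt.mpr fun y => ?_, fun y => ?_, fun y => ?_⟩
  · rcases h y with h1 | h1
    · exact hf.cd.contDiffAt.congr_of_eventuallyEq h1
    · exact hg.cd.contDiffAt.congr_of_eventuallyEq h1
  · rcases h y with h1 | h1
    · rw [h1.fderiv_eq]; exact hf.d1 y
    · rw [h1.fderiv_eq]; exact hg.d1 y
  · rcases h y with h1 | h1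
    · rw [D2_congr h1]; exact hf.d2 y
    · rw [D2_congr h1]; exact hg.d2 y

open Classical in
/-- the conjugated map -/
noncomputable def Gm {X : Type} (q e : X × ℝ → ℝ) (κ : ℝ) (B : X × ℝ → X × ℝ) (y : X × ℝ) :
    X × ℝ :=
  if 2 < q y ∧ |e y| < 48 * κ then rho e (B (rho e y)) else y

theorem Gm_on {X : Type} {q e : X × ℝ → ℝ} {κ : ℝ} {B : X × ℝ → X × ℝ} {y : X × ℝ}
    (h : 2 < q y ∧ |e y| < 48 * κ) : Gm q e κ B y = rho e (B (rho e y)) := by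
  unfold Gm; rw [if_pos h]

theorem Gm_off {X : Type} {q e : X × ℝ → ℝ} {κ : ℝ} {B : X × ℝ → X × ℝ} {y : X × ℝ}
    (h : ¬ (2 < q y ∧ |e y| < 48 * κ)) : Gm q e κ B y = y := by
  unfold Gm; rw [if_neg h]

end Conj2X

open Conj2X in
theorem conj2 : Conj2Stmt := by
  intro X _ _ K1 hK1
  set R : ℝ := 1 + 2 * K1 with hRdef
  have hR : 1 ≤ R := by rw [hRdef]; linarith
  have hR0 : 0 ≤ R := by linarith
  have hR2 : 1 ≤ R ^ 2 := one_le_pow₀ hR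
  have hR3 : 1 ≤ R ^ 3 := one_le_pow₀ hR
  have hR13 : R ≤ R ^ 3 := by
    have : R ^ 3 = R * R ^ 2 := by ring
    rw [this]; nlinarith
  have hR23 : R ^ 2 ≤ R ^ 3 := by
    have : R ^ 3 = R ^ 2 * R := by ring
    rw [this]; nlinarith
  refine ⟨2 * R ^ 3, by linarith, ?_⟩
  intro q e κ B A1 A2 μ hκ hQ hB hA1 hBinj hBμ hsupp
  have hA2 := hB.nonneg2
  have hμ : 0 ≤ μ := (norm_nonneg _).trans (hBμ 0)
  have hρ : C2B (rho e) R (R / κ) := by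
    refine (ConjX.rho_c2b hQ.eC).mono le_rfl ?_
    rw [← mul_div_assoc]
    exact div_le_div_of_nonneg_right (by rw [hRdef]; linarith) hκ.le
  have hW : ∀ y, 2 < q y ∧ |e y| < 48 * κ → q (rho e y) = q y ∧ e (rho e y) = -e y := by
    intro y hy
    have h3 : |(y.2 - 2 * e y) - (y.2 - e y)| ≤ 3 * (48 * κ) / 2 := by
      have : (y.2 - 2 * e y) - (y.2 - e y) = -e y := by ring
      rw [this, abs_neg]; linarith [hy.2]
    obtain ⟨h4, h5⟩ := hQ.cov y _ (by linarith [hy.1]) hy.2.le h3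
    refine ⟨h4, ?_⟩
    unfold rho
    rw [h5]; ring
  have hWρ : ∀ y, 2 < q y ∧ |e y| < 48 * κ → 2 < q (rho e y) ∧ |e (rho e y)| < 48 * κ := by
    intro y hy
    obtain ⟨h1, h2⟩ := hW y hy
    rw [h1, h2, abs_neg]; exact hy
  have hρρ : ∀ y, 2 < q y ∧ |e y| < 48 * κ → rho e (rho e y) = y := by
    intro y hy
    have h2 := (hW y hy).2
    have : rho e (rho e y) = ((rho e y).1, (rho e y).2 - 2 * e (rho e y)) := rfl
    rw [this, h2]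
    unfold rho
    ext
    · rfl
    · simp
  have hZΩ : ∀ y, 5 / 2 ≤ q y ∧ |e y| ≤ 33 * κ → 2 < q y ∧ |e y| < 48 * κ := fun y hy =>
    ⟨by linarith [hy.1], by linarith [hy.2]⟩
  have hBW : ∀ z, 2 < q z ∧ |e z| < 48 * κ → 2 < q (B z) ∧ |e (B z)| < 48 * κ := by
    intro z hz
    by_cases h0 : B z = z
    · rw [h0]; exact hz
    · exact hZΩ _ (hsupp (B z) fun h1 => h0 (hBinj h1))
  have hoffZ : ∀ y, ¬ (5 / 2 ≤ q y ∧ |e y| ≤ 33 * κ) → Gm q e κ B y = y := by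
    intro y hy
    by_cases h1 : 2 < q y ∧ |e y| < 48 * κ
    · have h2 : B (rho e y) = rho e y := by
        by_contra h3
        have h4 := hsupp _ h3
        rw [(hW y h1).1, (hW y h1).2, abs_neg] at h4
        exact hy h4
      rw [Gm_on h1, h2, hρρ y h1]
    · exact Gm_off h1
  have hqc := hQ.qC.cont
  have hec := hQ.eC.cont
  have hΩo : IsOpen {y : X × ℝ | 2 < q y ∧ |e y| < 48 * κ} :=
    (isOpen_lt continuous_const hqc).inter (isOpen_lt hec.abs continuous_const)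
  have hZc : IsClosed {y : X × ℝ | 5 / 2 ≤ q y ∧ |e y| ≤ 33 * κ} :=
    (isClosed_le continuous_const hqc).inter (isClosed_le hec.abs continuous_const)
  have hT : 0 ≤ A1 ^ 2 / κ := by positivity
  have hT1 : A1 / κ ≤ A1 ^ 2 / κ := div_le_div_of_nonneg_right (by nlinarith) hκ.le
  refine ⟨Gm q e κ B, ?_, ?_, ?_, ?_, ?_, ?_⟩
  · refine c2b_glue (f := fun y => rho e (B (rho e y))) (g := fun y => y) ?_ ?_ ?_
    · refine (hρ.comp (hB.comp hρ)).mono ?_ ?_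
      · have : R * (A1 * R) = R ^ 2 * A1 := by ring
        rw [this]
        exact mul_le_mul_of_nonneg_right (by linarith) (by linarith)
      · have e1 : R / κ * (A1 * R) ^ 2 + R * (A2 * R ^ 2 + A1 * (R / κ)) =
            R ^ 3 * (A1 ^ 2 / κ) + R ^ 3 * A2 + R ^ 2 * (A1 / κ) := by ring
        have e2 : R ^ 2 * (A1 / κ) ≤ R ^ 3 * (A1 ^ 2 / κ) :=
          mul_le_mul hR23 hT1 (by positivity) (by positivity)
        have e3 : 0 ≤ R ^ 3 * A2 := by positivity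
        rw [e1]
        have e4 : 2 * R ^ 3 * (A2 + A1 ^ 2 / κ) =
            2 * (R ^ 3 * A2) + 2 * (R ^ 3 * (A1 ^ 2 / κ)) := by ring
        rw [e4]; linarith
    · refine C2B.id'.mono ?_ (by positivity)
      nlinarith
    · intro y
      by_cases hy : 2 < q y ∧ |e y| < 48 * κ
      · left
        filter_upwards [hΩo.mem_nhds hy] with z hz
        exact Gm_on hz
      · right
        have hy' : y ∈ {y : X × ℝ | 5 / 2 ≤ q y ∧ |e y| ≤ 33 * κ}ᶜ := fun h => hy (hZΩ y h)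
        filter_upwards [hZc.isOpen_compl.mem_nhds hy'] with z hz
        exact hoffZ z hz
  · intro y y' hyy
    by_cases hy : 2 < q y ∧ |e y| < 48 * κ
    · by_cases hy' : 2 < q y' ∧ |e y'| < 48 * κ
      · rw [Gm_on hy, Gm_on hy'] at hyy
        have h1 := congrArg (rho e) hyy
        rw [hρρ _ (hBW _ (hWρ y hy)), hρρ _ (hBW _ (hWρ y' hy'))] at h1
        have h2 := congrArg (rho e) (hBinj h1)
        rwa [hρρ y hy, hρρ y' hy'] at h2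
      · exfalso
        rw [Gm_on hy, Gm_off hy'] at hyy
        exact hy' (hyy ▸ hWρ _ (hBW _ (hWρ y hy)))
    · by_cases hy' : 2 < q y' ∧ |e y'| < 48 * κ
      · exfalso
        rw [Gm_off hy, Gm_on hy'] at hyy
        exact hy (hyy ▸ hWρ _ (hBW _ (hWρ y' hy')))
      · rwa [Gm_off hy, Gm_off hy'] at hyy
  · intro y
    by_cases hy : 2 < q y ∧ |e y| < 48 * κ
    · have h1 := hρ.lip (B (rho e y)) (rho e y)
      rw [hρρ y hy] at h1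
      rw [Gm_on hy]
      refine h1.trans ?_
      exact mul_le_mul (by linarith) (hBμ _) (norm_nonneg _) (by positivity)
    · rw [Gm_off hy, sub_self, norm_zero]; positivity
  · intro y hy
    exact Gm_off fun h => absurd h.1 (not_lt.mpr hy)
  · intro y
    by_cases hy : 2 < q y ∧ |e y| < 48 * κ
    · right
      refine ⟨y.2 - 2 * e y, ?_, ?_⟩
      · have : y.2 - 2 * e y - y.2 = -(2 * e y) := by ring
        rw [this, abs_neg, abs_mul, abs_of_pos (by norm_num : (0 : ℝ) < 2)]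
        linarith [hy.2]
      · rw [Gm_on hy]; rfl
    · left; exact Gm_off hy
  · intro z h1 h2
    rw [Gm_on (hWρ z ⟨h1, h2⟩), hρρ z ⟨h1, h2⟩]

end SK

end

section

namespace SK
open SJ Set Filter Topology MeasureTheory Metric Function
open scoped ENNReal

namespace ImpDetX

theorem det_comm {ι : Type} [Fintype ι] {E : Type} [AddCommGroup E] [Module ℝ E]
    [FiniteDimensional ℝ E] (A : (ι → ℝ) →ₗ[ℝ] E) (B : E →ₗ[ℝ] ι → ℝ) :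
    LinearMap.det (LinearMap.id + A ∘ₗ B) = LinearMap.det (LinearMap.id + B ∘ₗ A) := by
  classical
  let b := Module.finBasis ℝ E
  let c := Pi.basisFun ℝ ι
  rw [← LinearMap.det_toMatrix b, ← LinearMap.det_toMatrix c, map_add, map_add,
    LinearMap.toMatrix_id, LinearMap.toMatrix_id, LinearMap.toMatrix_comp b c b,
    LinearMap.toMatrix_comp c b c, Matrix.det_one_add_mul_comm]

theorem det_diag {ι : Type} [Fintype ι] {E : Type} [AddCommGroup E] [Module ℝ E]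
    [FiniteDimensional ℝ E] (J : (ι → ℝ) →ₗ[ℝ] E) (Λ : E →ₗ[ℝ] ι → ℝ) (h : ∀ v, Λ (J v) = v)
    (p : ι → ℝ) (D : E →ₗ[ℝ] E) (hD : ∀ w, D w = w + J fun k => (p k - 1) * Λ w k) :
    LinearMap.det D = ∏ k, p k := by
  classical
  let d : (ι → ℝ) →ₗ[ℝ] ι → ℝ := Matrix.toLin' (Matrix.diagonal fun k => p k - 1)
  have hd : ∀ v k, d v k = (p k - 1) * v k := by
    intro v k
    simp [d, Matrix.toLin'_apply, Matrix.mulVec_diagonal]
  have e1 : D = LinearMap.id + J ∘ₗ (d ∘ₗ Λ) := by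
    ext w
    rw [hD w]
    simp only [LinearMap.add_apply, LinearMap.id_apply, LinearMap.comp_apply]
    congr 2
    funext k
    rw [hd]
  have e2 : LinearMap.id + (d ∘ₗ Λ) ∘ₗ J = Matrix.toLin' (Matrix.diagonal p) := by
    refine LinearMap.ext fun v => funext fun k => ?_
    simp only [LinearMap.add_apply, LinearMap.id_apply, LinearMap.comp_apply, h, Pi.add_apply, hd,
      Matrix.toLin'_apply, Matrix.mulVec_diagonal]
    ring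
  rw [e1, det_comm, e2, LinearMap.det_toLin', Matrix.det_diagonal]

theorem low (E : Type) [NormedAddCommGroup E] [NormedSpace ℝ E] [FiniteDimensional ℝ E] :
    ∃ Kd : ℝ, 1 ≤ Kd ∧ ∀ C : E →L[ℝ] E, ‖C‖ ≤ 1 / 2 →
      1 ≤ Kd * |(ContinuousLinearMap.id ℝ E - C).det| := by
  have hc : Continuous fun C : E →L[ℝ] E => |(ContinuousLinearMap.id ℝ E - C).det| :=
    (ContinuousLinearMap.continuous_det.comp (continuous_const.sub continuous_id)).abs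
  obtain ⟨C0, h0, hm⟩ := (isCompact_closedBall (0 : E →L[ℝ] E) (1 / 2)).exists_isMinOn
    ⟨0, mem_closedBall_self (by norm_num)⟩ hc.continuousOn
  have hpos : 0 < |(ContinuousLinearMap.id ℝ E - C0).det| := by
    rw [abs_pos]
    intro hz
    have := LinearMap.det_eq_zero_iff_ker_ne_bot.mp hz
    obtain ⟨v, hv, hv0⟩ := (Submodule.ne_bot_iff _).mp this
    have e : v = C0 v := by
      have : v - C0 v = 0 := hv
      exact sub_eq_zero.mp this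
    have h1 : ‖C0 v‖ ≤ ‖C0‖ * ‖v‖ := C0.le_opNorm v
    rw [← e] at h1
    have h2 : ‖C0‖ ≤ 1 / 2 := by simpa using h0
    have h3 : 0 < ‖v‖ := norm_pos_iff.mpr hv0
    nlinarith
  refine ⟨max 1 (1 / |(ContinuousLinearMap.id ℝ E - C0).det|), le_max_left _ _, fun C hC => ?_⟩
  have h1 : |(ContinuousLinearMap.id ℝ E - C0).det| ≤ |(ContinuousLinearMap.id ℝ E - C).det| :=
    hm (show C ∈ closedBall (0 : E →L[ℝ] E) (1 / 2) by simpa using hC)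
  calc (1 : ℝ) = 1 / |(ContinuousLinearMap.id ℝ E - C0).det| *
        |(ContinuousLinearMap.id ℝ E - C0).det| := by field_simp
    _ ≤ _ := mul_le_mul (le_max_right _ _) h1 hpos.le (le_trans zero_le_one (le_max_left _ _))

end ImpDetX

theorem impDet (hF : ImpFormStmt) : ImpDetStmt := by
  intro ι _ E _ _ _
  obtain ⟨Kd, h1, hK⟩ := ImpDetX.low E
  refine ⟨Kd, h1, fun J Λ F a hI ha hE y => ?_⟩
  have hf := fun v => ((hF ι E J Λ F hI.cd).2 a ha hE y v v).1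
  set A := fderiv ℝ a y with hA
  let g : ι → (E × ℝ) →L[ℝ] ℝ := fun k => fderiv ℝ (F k) (y, Λ (a y) k)
  let p : ι → ℝ := fun k => slp (F k) (y, Λ (a y) k)
  let C : E →L[ℝ] E := J.comp (ContinuousLinearMap.pi fun k =>
    (g k).comp (ContinuousLinearMap.inl ℝ E ℝ))
  have hC : ∀ v, C v = J fun k => g k (v, 0) := fun v => rfl
  let D : E →L[ℝ] E := ContinuousLinearMap.id ℝ E + J.comp (ContinuousLinearMap.pi fun k =>
    (p k - 1) • (ContinuousLinearMap.proj k).comp Λ)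
  have hD : ∀ w, D w = w + J fun k => (p k - 1) * Λ w k := fun w => rfl
  have hg : ∀ k v (s : ℝ), g k (v, s) = g k (v, 0) + (p k - 1) * s := by
    intro k v s
    have e : ((v, s) : E × ℝ) = (v, 0) + s • ((0 : E), (1 : ℝ)) := by simp
    have e2 : p k - 1 = g k (0, 1) := by simp [p, g, slp]
    rw [e, map_add, map_smul, e2, smul_eq_mul, mul_comm]
  have hn : ‖C‖ ≤ 1 / 2 := by
    refine ContinuousLinearMap.opNorm_le_bound _ (by norm_num) fun v => ?_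
    rw [hC]
    have a1 : ‖(fun k => g k (v, 0))‖ ≤ 1 / 2 * ‖v‖ :=
      (pi_norm_le_iff_of_nonneg (by positivity)).mpr fun k => hI.ctr k _ v
    calc _ ≤ ‖J‖ * ‖(fun k => g k (v, 0))‖ := J.le_opNorm _
      _ ≤ 1 * (1 / 2 * ‖v‖) := mul_le_mul hI.jn a1 (norm_nonneg _) zero_le_one
      _ = _ := one_mul _
  have hcomp : D.comp A = ContinuousLinearMap.id ℝ E - C := by
    ext v
    have h2 : v = A v + J fun k => g k (v, Λ (A v) k) := hf v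
    have h3 : (fun k => g k (v, Λ (A v) k)) =
        (fun k => g k (v, 0)) + fun k => (p k - 1) * Λ (A v) k := by
      funext k
      exact hg k v _
    rw [h3, map_add] at h2
    show D (A v) = v - C v
    rw [hD, hC, eq_sub_iff_add_eq]
    conv_rhs => rw [h2]
    abel
  have hdet : D.det = ∏ k, p k :=
    ImpDetX.det_diag (J : (ι → ℝ) →ₗ[ℝ] E) (Λ : E →ₗ[ℝ] ι → ℝ) hI.jl p (D : E →ₗ[ℝ] E) hD
  have hmul : (D.comp A).det = D.det * A.det :=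
    LinearMap.det_comp (D : E →ₗ[ℝ] E) (A : E →ₗ[ℝ] E)
  have := hK C hn
  rw [← hcomp, hmul, hdet, abs_mul, ← mul_assoc] at this
  exact this

end SK

end

section

namespace SK
open SJ Set Filter Topology MeasureTheory Metric Function
open scoped ENNReal

namespace ImpEx2X
variable {E : Type} [NormedAddCommGroup E] [NormedSpace ℝ E]

theorem lipy {U : E × E → E} (hU : ContDiff ℝ 2 U)
    (h : ∀ p a, ‖fderiv ℝ U p (a, 0)‖ ≤ 1 / 2 * ‖a‖) (y y' z : E) :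
    ‖U (y, z) - U (y', z)‖ ≤ 1 / 2 * ‖y - y'‖ := by
  have hd : ∀ x : E, HasFDerivAt (fun x => U (x, z))
      ((fderiv ℝ U (x, z)).comp (ContinuousLinearMap.inl ℝ E E)) x := fun x =>
    ((hU.differentiable (by norm_num) (x, z)).hasFDerivAt).comp x (hasFDerivAt_prodMk_left x z)
  exact convex_univ.norm_image_sub_le_of_norm_hasFDerivWithin_le
    (fun x _ => (hd x).hasFDerivWithinAt)
    (fun x _ => ContinuousLinearMap.opNorm_le_bound _ (by norm_num) fun a => h (x, z) a)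
    (mem_univ y') (mem_univ y)

theorem fd_id (y v : E) : fderiv ℝ (fun x : E => x) y v = v := by simp

theorem d2_id (y v w : E) : D2 (fun x : E => x) y v w = 0 := by
  have h : D2 (fun x : E => x) y = 0 := D2_clm (ContinuousLinearMap.id ℝ E) y
  rw [h]; rfl

theorem gen {U : E × E → E} (hU : ContDiff ℝ 2 U) {f g : E → E} (hf : ContDiff ℝ 2 f)
    (hg : ContDiff ℝ 2 g) (h : ∀ x, f x = g x + U (f x, g x)) (x v w : E) :
    (fderiv ℝ f x v = fderiv ℝ g x v +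
      fderiv ℝ U (f x, g x) (fderiv ℝ f x v, fderiv ℝ g x v)) ∧
    D2 f x v w = D2 g x v w + (D2 U (f x, g x) (fderiv ℝ f x v, fderiv ℝ g x v)
      (fderiv ℝ f x w, fderiv ℝ g x w) + fderiv ℝ U (f x, g x) (D2 f x v w, D2 g x v w)) := by
  let m : E → E × E := fun z => (f z, g z)
  have hm : ContDiff ℝ 2 m := hf.prodMk hg
  have m1 : ∀ u, fderiv ℝ m x u = (fderiv ℝ f x u, fderiv ℝ g x u) := by
    intro u
    refine Prod.ext ?_ ?_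
    · exact (Calc2X.fderiv_clm_comp (ContinuousLinearMap.fst ℝ E E) hm x u).symm
    · exact (Calc2X.fderiv_clm_comp (ContinuousLinearMap.snd ℝ E E) hm x u).symm
  have m2 : D2 m x v w = (D2 f x v w, D2 g x v w) := by
    refine Prod.ext ?_ ?_
    · exact (D2_clm_comp (ContinuousLinearMap.fst ℝ E E) hm x v w).symm
    · exact (D2_clm_comp (ContinuousLinearMap.snd ℝ E E) hm x v w).symm
  have hG : ContDiff ℝ 2 fun z => U (m z) := hU.comp hm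
  have e : f = fun z => g z + U (m z) := funext h
  constructor
  · have b : fderiv ℝ (fun z => U (m z)) x = (fderiv ℝ U (m x)).comp (fderiv ℝ m x) :=
      ((Calc1X.diff1 hU (m x)).hasFDerivAt.comp x (Calc1X.diff1 hm x).hasFDerivAt).fderiv
    have a : fderiv ℝ (fun z => g z + U (m z)) x =
        fderiv ℝ g x + fderiv ℝ (fun z => U (m z)) x :=
      ((Calc1X.diff1 hg x).hasFDerivAt.add (Calc1X.diff1 hG x).hasFDerivAt).fderiv
    rw [← e, b] at a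
    rw [← m1]
    conv_lhs => rw [a]
    rfl
  · have a := D2_add hg hG x
    rw [← e] at a
    have b := D2_comp_apply hU hm x v w
    rw [m1, m1, m2] at b
    rw [← b]
    conv_lhs => rw [a]
    rfl

theorem split (L : E × E →L[ℝ] E) (u v : E) : L (u, v) = L (u, 0) + L (0, v) := by
  rw [← map_add]
  simp

end ImpEx2X

theorem impEx2 : ImpEx2Stmt := by
  intro E _ _ _
  obtain ⟨Kd, hK1, hK⟩ := ImpDetX.low E
  refine ⟨Kd, hK1, fun U A B C Pm hU hPm h1 h2 hC => ?_⟩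
  have hA0 := hU.nonneg1
  have hB0 := hU.nonneg2
  let M : E × E → E × E := fun p => (p.1, p.2 - U (p.2, p.1))
  obtain ⟨A1, B1, hM⟩ : ∃ A1 B1, C2B M A1 B1 := by
    have k1 := (C2B.snd' (E := E) (F := E)).sub
      (hU.comp ((C2B.snd' (E := E) (F := E)).prodMk (C2B.fst' (E := E) (F := E))))
    exact ⟨_, _, ((C2B.fst' (E := E) (F := E)).mono (le_max_left _ _) (le_max_left _ _)).prodMk
      (k1.mono (le_max_right _ _) (le_max_right _ _))⟩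
  have hWl : ∀ p p' : E × E,
      ‖U (p.2, p.1) - U (p'.2, p'.1)‖ ≤ 1 / 2 * ‖p.2 - p'.2‖ + A * ‖p.1 - p'.1‖ := by
    intro p p'
    have k1 := ImpEx2X.lipy hU.cd h1 p.2 p'.2 p.1
    have k2 := hU.lip (p'.2, p.1) (p'.2, p'.1)
    rw [Prod.mk_sub_mk, sub_self, Prod.norm_mk, norm_zero, max_eq_right (norm_nonneg _)] at k2
    have k3 := norm_sub_le_norm_sub_add_norm_sub (U (p.2, p.1)) (U (p'.2, p.1)) (U (p'.2, p'.1))
    linarith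
  have hanti : ∀ p p' : E × E, 1 / (2 + 2 * A) * ‖p - p'‖ ≤ ‖M p - M p'‖ := by
    intro p p'
    have k1 : ‖p.1 - p'.1‖ ≤ ‖M p - M p'‖ := norm_fst_le (M p - M p')
    have k2 : ‖p.2 - U (p.2, p.1) - (p'.2 - U (p'.2, p'.1))‖ ≤ ‖M p - M p'‖ :=
      norm_snd_le (M p - M p')
    have k3 : p.2 - p'.2 = (p.2 - U (p.2, p.1) - (p'.2 - U (p'.2, p'.1))) +
        (U (p.2, p.1) - U (p'.2, p'.1)) := by abel
    have k4 : ‖p.2 - p'.2‖ ≤ ‖M p - M p'‖ + ‖U (p.2, p.1) - U (p'.2, p'.1)‖ := by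
      rw [k3]
      exact (norm_add_le _ _).trans (add_le_add k2 le_rfl)
    have k5 := hWl p p'
    have k6 := mul_le_mul_of_nonneg_left k1 hA0
    have k7 := mul_nonneg hA0 (norm_nonneg (M p - M p'))
    have k8 := norm_nonneg (M p - M p')
    rw [one_div, inv_mul_le_iff₀ (by positivity), Prod.norm_def]
    refine max_le ?_ ?_
    · rw [Prod.fst_sub]; linarith
    · rw [Prod.snd_sub]; linarith
  obtain ⟨N, hl, hr, hN⟩ := inverse_c2 hM (by positivity) hanti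
  let b : E → E := fun z => (N (z, z)).2
  have hb : ∀ z, b z = z + U (b z, z) := fun z => by
    have h := hr (z, z)
    have k1 : (N (z, z)).1 = z := congrArg Prod.fst h
    have k2 : b z - U (b z, (N (z, z)).1) = z := congrArg Prod.snd h
    rw [k1] at k2
    exact sub_eq_iff_eq_add.1 k2
  have hu : ∀ z y, y = z + U (y, z) → y = b z := fun z y h => by
    have k1 : M (z, y) = (z, z) := Prod.ext rfl (sub_eq_iff_eq_add.2 h)
    show y = (N (z, z)).2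
    rw [← k1, hl]
  have hbC := (hN.comp ((C2B.id' (E := E)).prodMk C2B.id')).snd
  have hbc : ContDiff ℝ 2 b := hbC.cd
  have hg := fun x v w => ImpEx2X.gen hU.cd hbc contDiff_id hb x v w
  have hd1 : ∀ x v, ‖fderiv ℝ b x v‖ ≤ (2 + 2 * Pm) * ‖v‖ := by
    intro x v
    have k : fderiv ℝ b x v = fderiv ℝ (fun x : E => x) x v +
      fderiv ℝ U (b x, x) (fderiv ℝ b x v, fderiv ℝ (fun x : E => x) x v) := (hg x v v).1
    rw [ImpEx2X.fd_id, ImpEx2X.split] at k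
    have k1 := h1 (b x, x) (fderiv ℝ b x v)
    have k2 := h2 (b x, x) v
    have k3 : ‖fderiv ℝ b x v‖ ≤ ‖v‖ + (‖fderiv ℝ U (b x, x) (fderiv ℝ b x v, 0)‖ +
        ‖fderiv ℝ U (b x, x) (0, v)‖) := by
      conv_lhs => rw [k]
      exact (norm_add_le _ _).trans (add_le_add le_rfl (norm_add_le _ _))
    linarith
  have hb2 : C2B b (2 + 2 * Pm) (2 * B * (2 + 2 * Pm) ^ 2) := by
    refine ⟨hbc, fun x => ContinuousLinearMap.opNorm_le_bound _ (by positivity) (hd1 x),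
      fun x => norm_D2_le_of_apply (by positivity) fun v w => ?_⟩
    have k : D2 b x v w = D2 (fun x : E => x) x v w +
        (D2 U (b x, x) (fderiv ℝ b x v, fderiv ℝ (fun x : E => x) x v)
        (fderiv ℝ b x w, fderiv ℝ (fun x : E => x) x w) +
        fderiv ℝ U (b x, x) (D2 b x v w, D2 (fun x : E => x) x v w)) := (hg x v w).2
    rw [ImpEx2X.fd_id, ImpEx2X.fd_id, ImpEx2X.d2_id, zero_add] at k
    have n : ∀ u, ‖((fderiv ℝ b x u, u) : E × E)‖ ≤ (2 + 2 * Pm) * ‖u‖ := by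
      intro u
      rw [Prod.norm_mk]
      refine max_le (hd1 x u) ?_
      nlinarith [norm_nonneg u, mul_nonneg hPm (norm_nonneg u)]
    have k1 := h1 (b x, x) (D2 b x v w)
    have k2 : ‖D2 U (b x, x) (fderiv ℝ b x v, v) (fderiv ℝ b x w, w)‖ ≤
        B * ((2 + 2 * Pm) * ‖v‖) * ((2 + 2 * Pm) * ‖w‖) :=
      (Calc2X.d2_apply hU _ _ _).trans
        (mul_le_mul (mul_le_mul_of_nonneg_left (n v) hB0) (n w) (norm_nonneg _) (by positivity))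
    have k3 : ‖D2 b x v w‖ ≤ ‖D2 U (b x, x) (fderiv ℝ b x v, v) (fderiv ℝ b x w, w)‖ +
        ‖fderiv ℝ U (b x, x) (D2 b x v w, 0)‖ := by
      conv_lhs => rw [k]
      exact norm_add_le _ _
    have k4 : 2 * B * (2 + 2 * Pm) ^ 2 * ‖v‖ * ‖w‖ =
        2 * (B * ((2 + 2 * Pm) * ‖v‖) * ((2 + 2 * Pm) * ‖w‖)) := by ring
    linarith
  have hba : ∀ z z', 1 / max C 1 * ‖z - z'‖ ≤ ‖b z - b z'‖ := by
    intro z z'
    have k1 := hC z z' (b z) (b z') (hb z) (hb z')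
    have k2 : 0 < max C 1 := lt_of_lt_of_le one_pos (le_max_right _ _)
    rw [one_div, inv_mul_le_iff₀ k2]
    exact k1.trans (mul_le_mul_of_nonneg_right (le_max_left _ _) (norm_nonneg _))
  obtain ⟨a, a1, a2, a3⟩ := inverse_c2 (f := b) hb2
    (one_div_pos.2 (lt_of_lt_of_le one_pos (le_max_right C 1))) hba
  refine ⟨a, b, a1, a2, a3.cd, hb2, hb, hu, fun y L hL => ?_⟩
  have ha : ∀ y, y = a y + U (y, a y) := fun y => by
    have k := hb (a y)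
    rwa [a2 y] at k
  let Cy : E →L[ℝ] E := (fderiv ℝ U (y, a y)).comp (ContinuousLinearMap.inl ℝ E E)
  have hn : ‖Cy‖ ≤ 1 / 2 :=
    ContinuousLinearMap.opNorm_le_bound _ (by norm_num) fun v => h1 (y, a y) v
  have hcomp : L.comp (fderiv ℝ a y) = ContinuousLinearMap.id ℝ E - Cy := by
    ext v
    have k : fderiv ℝ (fun x : E => x) y v = fderiv ℝ a y v +
        fderiv ℝ U (y, a y) (fderiv ℝ (fun x : E => x) y v, fderiv ℝ a y v) :=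
      (ImpEx2X.gen (f := fun x : E => x) hU.cd contDiff_id a3.cd ha y v v).1
    rw [ImpEx2X.fd_id, ImpEx2X.split] at k
    show L (fderiv ℝ a y v) = v - fderiv ℝ U (y, a y) (v, 0)
    rw [hL, eq_sub_iff_add_eq]
    conv_rhs => rw [k]
    abel
  have hmul : (L.comp (fderiv ℝ a y)).det = L.det * (fderiv ℝ a y).det :=
    LinearMap.det_comp (L : E →ₗ[ℝ] E) (fderiv ℝ a y : E →ₗ[ℝ] E)
  have := hK Cy hn
  rw [← hcomp, hmul, abs_mul, ← mul_assoc] at this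
  exact this

end SK

end

section

namespace SK
open SJ Set Filter Topology MeasureTheory Metric Function
open scoped ENNReal

namespace NuX

theorem small (q K Kw : ℝ) (a b : ℕ) (hab : a * q < b) (hK : 1 ≤ K) (hKw : 1 ≤ Kw) (c : ℝ) :
    ∃ n1 : ℝ, 0 < c → 0 < n1 ∧ ∀ ν, 0 < ν → ν ≤ n1 →
      (K ^ 3 * (Kw / ν ^ a)) ^ q * (Kw * ν ^ b) ≤ c := by
  by_cases hc : 0 < c
  swap
  · exact ⟨0, fun h => absurd h hc⟩
  set A : ℝ := (K ^ 3 * Kw) ^ q * Kw with hA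
  have hA0 : 0 < A := by positivity
  have hσ : 0 < (b : ℝ) - a * q := by linarith
  refine ⟨(c / A) ^ ((b : ℝ) - a * q)⁻¹, fun _ => ⟨by positivity, fun ν h0 h1 => ?_⟩⟩
  have e : (K ^ 3 * (Kw / ν ^ a)) ^ q * (Kw * ν ^ b) = A * ν ^ ((b : ℝ) - a * q) := by
    rw [← mul_div_assoc, Real.div_rpow (by positivity) (by positivity), Real.rpow_sub h0,
      Real.rpow_natCast, Real.rpow_mul h0.le, Real.rpow_natCast, hA]
    ring
  have h2 : ν ^ ((b : ℝ) - a * q) ≤ c / A := by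
    have := Real.rpow_le_rpow h0.le h1 hσ.le
    rwa [Real.rpow_inv_rpow (by positivity) hσ.ne'] at this
  rw [e]
  calc A * ν ^ ((b : ℝ) - a * q) ≤ A * (c / A) := by gcongr
    _ = c := by field_simp

theorem anti (q K Kw : ℝ) (a : ℕ) (hq : 1 ≤ q) (hK : 1 ≤ K) (hKw : 1 ≤ Kw) {ν ν' : ℝ}
    (h0 : 0 < ν) (h1 : ν ≤ ν') : (K ^ 3 * (Kw / ν' ^ a)) ^ q ≤ (K ^ 3 * (Kw / ν ^ a)) ^ q := by
  have h2 : 0 < ν' := h0.trans_le h1
  refine Real.rpow_le_rpow (by positivity) ?_ (by linarith)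
  gcongr

theorem bnd {W W0 Kw D : ℝ} (h0 : 0 ≤ W0) (h1 : W ≤ W0) (hD : 0 ≤ D) (h2 : 1 ≤ Kw * D) :
    W ≤ max 1 (W0 * Kw) * D :=
  calc W ≤ W0 * (Kw * D) := h1.trans (le_mul_of_one_le_right h0 h2)
    _ = W0 * Kw * D := by ring
    _ ≤ max 1 (W0 * Kw) * D := mul_le_mul_of_nonneg_right (le_max_right _ _) hD

theorem bnd2 {W X D c : ℝ} (h0 : 0 ≤ W) (hD : 0 ≤ D) (h1 : W * X ≤ c) (h2 : 1 ≤ X * D) :
    W ≤ c * D :=
  calc W ≤ W * (X * D) := le_mul_of_one_le_right h0 h2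
    _ = W * X * D := by ring
    _ ≤ c * D := mul_le_mul_of_nonneg_right h1 hD

/-- the running products -/
noncomputable def pp (F : ℕ → ℝ → ℝ) : ℕ → ℝ
  | 0 => 1
  | j + 1 => pp F j * F j (pp F j)

theorem pp_prod (F : ℕ → ℝ → ℝ) (j : ℕ) : ∏ k ∈ Finset.range j, F k (pp F k) = pp F j := by
  induction j with
  | zero => simp [pp]
  | succ j ih => rw [Finset.prod_range_succ, ih, pp]

theorem pp_pos (F : ℕ → ℝ → ℝ) (h : ∀ j x, 1 ≤ F j x) (j : ℕ) : 0 < pp F j := by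
  induction j with
  | zero => simp [pp]
  | succ j ih => rw [pp]; exact mul_pos ih (one_pos.trans_le (h _ _))

end NuX

theorem nuS : NuStmt := by
  intro q K Kw δ M m hq hM hK hKw hδ
  choose f hf using NuX.small q K Kw (2 * M + 1) (M * m) (by push_cast; exact hM) hK hKw
  set νs : ℝ := min (1 / 4) (f (1 / 2) / 2) with hνs
  have hs0 : 0 < νs := lt_min (by norm_num) (half_pos (hf _ (by norm_num)).1)
  set F : ℕ → ℝ → ℝ := fun j x =>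
    max 1 ((K ^ 3 * (Kw / (min νs (f (δ / 2 ^ j / x))) ^ (2 * M + 1))) ^ q * Kw) with hF
  have hp : ∀ j, 0 < NuX.pp F j := NuX.pp_pos F fun _ _ => le_max_left _ _
  have hc : ∀ j : ℕ, 0 < δ / 2 ^ j / NuX.pp F j := fun j => by have := hp j; positivity
  have h0 : ∀ j : ℕ, 0 < min νs (f (δ / 2 ^ j / NuX.pp F j)) := fun j => lt_min hs0 (hf _ (hc j)).1
  refine ⟨νs, max 1 ((K ^ 3 * (Kw / νs ^ (2 * M + 1))) ^ q * Kw),
    fun j => min νs (f (δ / 2 ^ j / NuX.pp F j)), fun j => F j (NuX.pp F j), min_le_left _ _,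
    le_max_left _ _, fun j => ⟨h0 j, min_le_left _ _, le_max_left _ _⟩, fun j ν D hD hν => ?_⟩
  have hν0 : 0 < ν := (h0 j).trans_le hν
  have hW : 0 ≤ (K ^ 3 * (Kw / ν ^ (2 * M + 1))) ^ q := by positivity
  refine ⟨fun h => ?_, fun h1 h => ?_, fun h1 h => ?_, fun h1 h => ?_⟩
  · have := h0 j
    exact NuX.bnd (by positivity) (NuX.anti q K Kw _ hq hK hKw (h0 j) hν) hD h
  · exact NuX.bnd (by positivity) (NuX.anti q K Kw _ hq hK hKw hs0 h1) hD h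
  · refine NuX.bnd2 hW hD ((hf _ (by norm_num)).2 ν hν0 ?_) h
    have := min_le_right (1 / 4 : ℝ) (f (1 / 2) / 2)
    linarith
  · rw [NuX.pp_prod F j]
    have h2 := NuX.bnd2 hW hD ((hf _ (hc j)).2 ν hν0 (h1.le.trans (min_le_right _ _))) h
    have h3 := hp j
    calc _ ≤ δ / 2 ^ j / NuX.pp F j * D * NuX.pp F j := mul_le_mul_of_nonneg_right h2 h3.le
      _ = δ / 2 ^ j * D := by field_simp

end SK

end
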