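import Mathlib
import Pool.Agent.Mg.Xedaf86.G06b4b8
import Pool.Agent.Mg.Fedaf86.G6ae19f

section

namespace SK
open SJ Set Filter Topology MeasureTheory Metric Function
open scoped ENNReal

namespace FSqX

variable {ι : Type} [Fintype ι]

/-- the diagonal coordinates -/
noncomputable def Lm (ι : Type) [Fintype ι] : (ι → ℝ) × ℝ →L[ℝ] ι → ℝ :=
  ContinuousLinearMap.pi fun k =>
    (ContinuousLinearMap.proj (R := ℝ) (φ := fun _ : ι => ℝ) k).comp
      (ContinuousLinearMap.fst ℝ (ι → ℝ) ℝ) - ContinuousLinearMap.snd ℝ (ι → ℝ) ℝ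

theorem Lm_apply (y : (ι → ℝ) × ℝ) (k : ι) : Lm ι y k = y.1 k - y.2 := rfl

theorem Lm_norm : ‖Lm ι‖ ≤ 2 := by
  refine ContinuousLinearMap.opNorm_le_bound _ (by norm_num) fun y => ?_
  refine (pi_norm_le_iff_of_nonneg (by positivity)).2 fun k => ?_
  rw [Lm_apply]
  have h1 : ‖y.1 k‖ ≤ ‖y‖ := (norm_le_pi_norm y.1 k).trans (norm_fst_le y)
  have h2 : ‖y.2‖ ≤ ‖y‖ := norm_snd_le y
  linarith [norm_sub_le (y.1 k) y.2]

theorem spF_one {E : Type} [NormedAddCommGroup E] [NormedSpace ℝ E] (Θ : E → ℝ) (u : ℝ → ℝ)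
    (p : E × ℝ) : spF (fun _ : Unit => Θ) (fun _ => u) p = Θ p.1 * u p.2 := by
  simp [spF]

theorem imp_iff (Θ : ι → (ι → ℝ) × ℝ → ℝ) (uu : ι → ℝ → ℝ) (z y : (ι → ℝ) × ℝ) :
    ImpEq (ContinuousLinearMap.inl ℝ (ι → ℝ) ℝ) (Lm ι)
      (fun k => spF (fun _ : Unit => Θ k) (fun _ => uu k)) z y ↔ Sol Θ uu z y := by
  unfold ImpEq Sol
  simp only [spF_one, Lm_apply, ContinuousLinearMap.inl_apply]
  constructor
  · intro h
    exact ⟨by simpa using congrArg Prod.snd h, fun k => by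
      simpa using congrFun (congrArg Prod.fst h) k⟩
  · rintro ⟨h1, h2⟩
    exact Prod.ext (funext fun k => by simpa using h2 k) (by simpa using h1)

/-- the facts on one profile, in uniform form -/
structure Uf (M : ℕ) (K P' u p : ℝ) (uu f : ℝ → ℝ) (c : ℝ) : Prop where
  uC : C2B uu (64 * P') (4096 * K * P' / u)
  ub : ∀ v, |uu v| ≤ P' * u
  c0 : 0 ≤ c
  c2 : c ≤ 64 * P'
  du : ∀ v, deriv uu v = c * f v ^ M - 1
  ddu : ∀ v ν, 0 < ν → ν * |deriv (deriv uu) v| ≤ 64 * K / u * (c * f v ^ M + c * ν ^ M)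
  f01 : ∀ v, 0 ≤ f v ∧ f v ≤ 1
  fs : ∀ v, f v ≠ 0 → ∃ n : ℤ, |v - p * u * n| ≤ u / 64

theorem uf_of {M : ℕ} {K P' u p : ℝ} {uu f : ℝ → ℝ} {c : ℝ} (hK : 1 ≤ K) (hu : 0 < u)
    (h1 : 1 ≤ p) (h2 : p ≤ P') (h : Prf M K (1 / (64 * p)) (p * u) 0 uu f c) :
    Uf M K P' u p uu f c := by
  have hp : 0 < p := by linarith
  have e1 : 1 / (1 / (64 * p)) = 64 * p := by field_simp
  have e2 : 1 / (64 * p) * (p * u) = u / 64 := by field_simp
  refine ⟨h.uC.mono (by rw [e1]; linarith) ?_, fun v => (h.ub v).trans (by gcongr),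
    by linarith [h.c1], h.c2.trans (by rw [e1]; linarith), h.du, fun v ν hν => ?_, h.f01,
    fun v hv => ?_⟩
  · calc K / ((1 / (64 * p)) ^ 2 * (p * u)) = 4096 * K * p / u := by field_simp; ring
      _ ≤ _ := by gcongr
  · have := h.ddu v ν hν
    rw [e2] at this
    refine this.trans (le_of_eq ?_)
    congr 1
    field_simp
  · have := h.fs v hv
    rwa [e2, add_zero] at this

end FSqX

open FSqX

theorem fSq (hE : ImpExStmt) (hB : ImpBStmt) (hA : ImpAStmt) (hD : ImpDetStmt) (hP : ProfStmt)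
    (hS : SumProdStmt) : FSqStmt := by
  intro ι _ _ M P' hM hP'
  obtain ⟨K0, hK0, hP⟩ := hP M hM
  obtain ⟨Kd, hKd, hD⟩ := hD ι ((ι → ℝ) × ℝ)
  obtain ⟨K1, hK1⟩ : ∃ K1, K1 = 2 * (65 + 4096 * K0 * P') * (2 + 4 * (64 * P')) ^ 2 := ⟨_, rfl⟩
  obtain ⟨K2, hK2⟩ : ∃ K2, K2 = 193 + 576 * K0 * (1 + 64 * P') := ⟨_, rfl⟩
  obtain ⟨K3, hK3⟩ : ∃ K3, K3 = Kd * (1 + 64 * P') ^ Fintype.card ι := ⟨_, rfl⟩
  have p1 : 0 ≤ K1 := by rw [hK1]; positivity
  have p2 : 193 ≤ K2 := by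
    have : 0 ≤ 576 * K0 * (1 + 64 * P') := by positivity
    linarith
  have p3 : 0 ≤ K3 := by rw [hK3]; positivity
  refine ⟨K1 + K2 + K3, by linarith, fun p u hp hu => ?_⟩
  have hp1 : ∀ k, (1 : ℝ) ≤ p k := fun k => by exact_mod_cast (hp k).1
  have hex : ∀ k, ∃ (uu f : ℝ → ℝ) (c : ℝ), Uf M K0 P' u (p k) uu f c := fun k => by
    have h1 := hp1 k
    obtain ⟨uu, f, c, h⟩ := hP (1 / (64 * p k)) (p k * u) 0 (by positivity)
      (one_div_le_one_div_of_le (by norm_num) (by linarith)) (by positivity)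
    exact ⟨uu, f, c, uf_of hK0 hu h1 (hp k).2 h⟩
  choose uu f c hU using hex
  refine ⟨uu, fun Θ ν ν0 hν0 hν hΘ hΘC => ?_⟩
  have hP0 : 0 < P' := by linarith
  have hν1 : ∀ y, 0 < ν y := fun y => lt_of_lt_of_le hν0 (hν y).1
  have hτ : ∀ y, 0 < ν y ^ M := fun y => pow_pos (hν1 y) M
  have hτ1 : ∀ y, ν y ^ M ≤ 1 := fun y => pow_le_one₀ (hν1 y).le (hν y).2
  have hΘ1 : ∀ k y, Θ k y ≤ 1 := fun k y => by linarith [(hΘ k y).2, hτ y]
  have hcf : ∀ k v, 0 ≤ c k * f k v ^ M ∧ c k * f k v ^ M ≤ 64 * P' := fun k v => by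
    have h1 := (hU k).f01 v
    have h2 : f k v ^ M ≤ 1 := pow_le_one₀ h1.1 h1.2
    have h3 : 0 ≤ f k v ^ M := pow_nonneg h1.1 M
    have h4 := (hU k).c0
    exact ⟨by positivity, by nlinarith [(hU k).c2]⟩
  have hdu : ∀ k v, |deriv (uu k) v| ≤ 64 * P' := fun k v => by
    rw [(hU k).du, abs_le]
    constructor <;> linarith [(hcf k v).1, (hcf k v).2]
  set F : ι → ((ι → ℝ) × ℝ) × ℝ → ℝ := fun k => spF (fun _ : Unit => Θ k) (fun _ => uu k)
    with hF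
  have hSP := fun k => hS Unit _ (fun _ => Θ k) (fun _ => uu k) (fun _ => (hΘC k).cd)
    (fun _ => (hU k).uC.cd)
  simp only [Finset.univ_unique, Finset.sum_singleton] at hSP
  have hslp : ∀ k q, slp (F k) q = 1 + Θ k q.1 * (c k * f k q.2 ^ M - 1) := fun k q => by
    rw [slp, ((hSP k).2 q 0 0).2.1, (hU k).du]
  have s1 : ∀ k q, ν q.1 ^ M + Θ k q.1 * (c k * f k q.2 ^ M) ≤ slp (F k) q := fun k q => by
    rw [hslp]; linarith [(hΘ k q.1).2]
  have s0 : ∀ k (q : ((ι → ℝ) × ℝ) × ℝ), 0 ≤ Θ k q.1 * (c k * f k q.2 ^ M) := fun k q =>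
    mul_nonneg (hΘ k q.1).1 (hcf k q.2).1
  have s2 : ∀ k q, ν q.1 ^ M ≤ slp (F k) q := fun k q => by linarith [s1 k q, s0 k q]
  have s3 : ∀ k q, |slp (F k) q - 1| ≤ 64 * P' := fun k q => by
    rw [hslp, add_sub_cancel_left, ← (hU k).du, abs_mul, abs_of_nonneg (hΘ k q.1).1]
    calc _ ≤ 1 * (64 * P') := mul_le_mul (hΘ1 k q.1) (hdu k q.2) (abs_nonneg _) zero_le_one
      _ = _ := one_mul _
  have s4 : ∀ k q, |slp (F k) q| ≤ 1 + 64 * P' := fun k q => by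
    have := abs_le.1 (s3 k q)
    rw [abs_le]; constructor <;> linarith
  have hH : ImpH (ContinuousLinearMap.inl ℝ (ι → ℝ) ℝ) (Lm ι) F := by
    refine ⟨fun v => funext fun k => by simp [Lm_apply], ?_, Lm_norm, fun k => (hSP k).1,
      fun k q a => ?_⟩
    · exact ContinuousLinearMap.opNorm_le_bound _ zero_le_one fun v => by simp
    · rw [((hSP k).2 q a 0).1, abs_mul]
      calc _ ≤ P' * u * (1 / (2 * (P' * u)) * ‖a‖) :=
            mul_le_mul ((hU k).ub _) (Calc2X.d1_apply (hΘC k) q.1 a) (abs_nonneg _)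
              (by positivity)
        _ = _ := by field_simp
  have hFC : ∀ k, C2B (F k) (1 / 2 + 64 * P') ((65 + 4096 * K0 * P') / u) := fun k => by
    have h1 := C2B.mul (a0 := 1) (b0 := P' * u)
      (fun q : ((ι → ℝ) × ℝ) × ℝ => by rw [abs_of_nonneg (hΘ k q.1).1]; exact hΘ1 k q.1)
      ((hΘC k).comp C2B.fst') (fun q => (hU k).ub q.2) ((hU k).uC.comp C2B.snd')
    have e : F k = fun q => Θ k q.1 * uu k q.2 := funext fun q => spF_one _ _ q
    rw [e]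
    refine h1.mono (le_of_eq (by field_simp)) ?_
    calc _ = (1 / P' + 64 + 4096 * K0 * P') / u := by field_simp; ring
      _ ≤ _ := by
        gcongr
        have : 1 / P' ≤ 1 := (div_le_one hP0).2 hP'
        linarith
  obtain ⟨a, b, li, ri, aC, bC, hb, hun⟩ := hE ι _ _ _ F _ _ (ν0 ^ M) hH hFC (pow_pos hν0 M)
    fun k q => (pow_le_pow_left₀ hν0.le (hν q.1).1 M).trans (s2 k q)
  have ha : ∀ y, ImpEq (ContinuousLinearMap.inl ℝ (ι → ℝ) ℝ) (Lm ι) F (a y) y := fun y => by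
    have := hb (a y)
    rwa [ri y] at this
  have hB' := fun z => hB ι _ _ _ F b hH bC hb z (64 * P') ((65 + 4096 * K0 * P') / u)
    (by positivity) (by positivity) (fun k => s3 k _) fun k => (hFC k).d2 _
  have hA' : ∀ y, ‖fderiv ℝ a y‖ ≤ 6 / ν y ^ M ∧ ‖D2 a y‖ ≤
      (1 / (P' * u) + 6 * (32 / u) + 9 * (64 * K0 * (1 + 64 * P') / (u * ν y))) / (ν y ^ M) ^ 2 :=
    fun y => by
    have hy := hν1 y
    refine hA ι _ _ _ F a hH aC ha y _ _ _ _ (hτ y) (hτ1 y) (by positivity) (by positivity)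
      (by positivity) (fun k => s2 k (y, _)) (fun k v w => ?_) (fun k v => ?_) fun k => ?_
    · rw [((hSP k).2 _ v w).2.2.1, abs_mul]
      calc _ ≤ P' * u * (1 / (P' * u) ^ 2 * ‖v‖ * ‖w‖) :=
            mul_le_mul ((hU k).ub _) (Calc2X.d2_apply (hΘC k) _ v w) (abs_nonneg _)
              (by positivity)
        _ = _ := by field_simp
    · rw [((hSP k).2 _ v 0).2.2.2.1, abs_mul]
      calc _ ≤ 64 * P' * (1 / (2 * (P' * u)) * ‖v‖) :=
            mul_le_mul (hdu k _) (Calc2X.d1_apply (hΘC k) _ v) (abs_nonneg _) (by positivity)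
        _ = _ := by field_simp; ring
    · rw [((hSP k).2 _ 0 0).2.2.2.2, abs_mul, abs_of_nonneg (hΘ k _).1]
      have h1 := (hU k).ddu (Lm ι (a y) k) (ν y) hy
      have h2 := s1 k (y, Lm ι (a y) k)
      have h3 := s2 k (y, Lm ι (a y) k)
      have h0 := (hΘ k y).1
      have h5 := hτ y
      dsimp only at h2 h3 ⊢
      have h4 : Θ k y * (c k * ν y ^ M) ≤ 1 * (64 * P' * slp (F k) (y, Lm ι (a y) k)) :=
        mul_le_mul (hΘ1 k y) (mul_le_mul (hU k).c2 h3 h5.le (by positivity))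
          (mul_nonneg (hU k).c0 h5.le) zero_le_one
      rw [div_mul_eq_mul_div, le_div_iff₀ (by positivity)]
      calc _ = u * Θ k y * (ν y * |deriv (deriv (uu k)) (Lm ι (a y) k)|) := by ring
        _ ≤ u * Θ k y * (64 * K0 / u * (c k * f k (Lm ι (a y) k) ^ M + c k * ν y ^ M)) := by
          gcongr
        _ = 64 * K0 * (Θ k y * (c k * f k (Lm ι (a y) k) ^ M) + Θ k y * (c k * ν y ^ M)) := by
          field_simp
        _ ≤ 64 * K0 * ((1 + 64 * P') * slp (F k) (y, Lm ι (a y) k)) := by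
          gcongr
          linarith
        _ = _ := by ring
  have hdet : ∀ y (T : Finset ι), (∀ k ∈ T, slp (F k) (y, Lm ι (a y) k) = ν y ^ M) →
      1 ≤ (K1 + K2 + K3) * (ν y ^ M) ^ T.card * |(fderiv ℝ a y).det| := fun y T hT => by
    refine (hD _ _ F a hH aC ha y).trans (mul_le_mul_of_nonneg_right ?_ (abs_nonneg _))
    have h5 := hτ y
    rw [← Finset.prod_mul_prod_compl T, Finset.prod_congr rfl hT, Finset.prod_const, abs_mul,
      abs_of_nonneg (by positivity), Finset.abs_prod]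
    have h1 : ∏ k ∈ Tᶜ, |slp (F k) (y, Lm ι (a y) k)| ≤ (1 + 64 * P') ^ Fintype.card ι :=
      calc _ ≤ ∏ _k ∈ Tᶜ, (1 + 64 * P') :=
            Finset.prod_le_prod (fun _ _ => abs_nonneg _) fun k _ => s4 k _
        _ = (1 + 64 * P') ^ Tᶜ.card := Finset.prod_const _
        _ ≤ _ := pow_le_pow_right₀ (by linarith) (Finset.card_le_univ _)
    calc _ ≤ Kd * ((ν y ^ M) ^ T.card * (1 + 64 * P') ^ Fintype.card ι) := by gcongr
      _ = K3 * (ν y ^ M) ^ T.card := by rw [hK3]; ring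
      _ ≤ _ := by gcongr; linarith
  refine ⟨a, b, li, ri, aC, ⟨bC, fun z => (hB' z).1.trans (by linarith),
    fun z => (hB' z).2.trans ?_⟩, fun z => (imp_iff Θ uu z _).1 (hb z),
    fun z y h => hun z y ((imp_iff Θ uu z y).2 h), fun z => ?_, fun y => (hA' y).1.trans ?_,
    fun y => (hA' y).2.trans ?_, fun y => by simpa using hdet y ∅ (by simp),
    fun y T hT => hdet y T fun k hk => ?_⟩
  · calc _ = K1 / u := by rw [hK1]; ring
      _ ≤ _ := by gcongr; linarith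
  · obtain ⟨h1, h2⟩ := (imp_iff Θ uu z _).1 (hb z)
    rw [Prod.norm_def, max_le_iff]
    refine ⟨(pi_norm_le_iff_of_nonneg (by positivity)).2 fun k => ?_, by
      simp only [Prod.snd_sub, h1, sub_self, norm_zero]; positivity⟩
    rw [Prod.fst_sub, Pi.sub_apply, h2 k, add_sub_cancel_left, Real.norm_eq_abs, abs_mul,
      abs_of_nonneg (hΘ k _).1]
    calc _ ≤ 1 * (P' * u) := mul_le_mul (hΘ1 k _) ((hU k).ub _) (abs_nonneg _) zero_le_one
      _ = _ := one_mul _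
  · have := hτ y
    gcongr
    linarith
  · have hy := hν1 y
    have h1 : ν y / P' ≤ 1 := (div_le_one hP0).2 ((hν y).2.trans hP')
    calc _ = (ν y / P' + 192 * ν y + 576 * K0 * (1 + 64 * P')) / ν y ^ (2 * M + 1) / u := by
          field_simp; ring
      _ ≤ _ := by
        refine div_le_div_of_nonneg_right (div_le_div_of_nonneg_right ?_ (by positivity)) hu.le
        linarith [(hν y).2]
  · have h0 : f k (Lm ι (a y) k) = 0 := by
      by_contra h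
      obtain ⟨n, hn⟩ := (hU k).fs _ h
      have := (hT k hk).2 n
      rw [Lm_apply] at hn
      linarith
    rw [hslp]
    dsimp only
    rw [h0, (hT k hk).1, zero_pow (by omega)]
    ring

end SK

end

section

namespace SK
open SJ Set Filter Topology MeasureTheory Metric Function
open scoped ENNReal

namespace FSq2X

open FSqX

variable {ι : Type} [Fintype ι]

/-- the grid functionals as linear maps -/
noncomputable def lamC : Option ι → ((ι → ℝ) × ℝ →L[ℝ] ℝ)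
  | none => ContinuousLinearMap.snd ℝ (ι → ℝ) ℝ
  | some k => (ContinuousLinearMap.proj (R := ℝ) (φ := fun _ : ι => ℝ) k).comp
      (ContinuousLinearMap.fst ℝ (ι → ℝ) ℝ) - ContinuousLinearMap.snd ℝ (ι → ℝ) ℝ

theorem lamC_none (z : (ι → ℝ) × ℝ) : lamC none z = z.2 := rfl

theorem lamC_some (k : ι) (z : (ι → ℝ) × ℝ) : lamC (some k) z = z.1 k - z.2 := rfl

theorem lamC_eq (k : Option ι) (z : (ι → ℝ) × ℝ) : lamC k z = lamF k z := by
  cases k <;> rfl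

theorem abs_snd (z : (ι → ℝ) × ℝ) : |z.2| ≤ ‖z‖ := norm_snd_le z

theorem abs_fst (z : (ι → ℝ) × ℝ) (k : ι) : |z.1 k| ≤ ‖z‖ :=
  (norm_le_pi_norm z.1 k).trans (norm_fst_le z)

theorem lamC_le (k : Option ι) (z : (ι → ℝ) × ℝ) : |lamC k z| ≤ 2 * ‖z‖ := by
  have h2 := abs_snd z
  cases k with
  | none => rw [lamC_none]; linarith [norm_nonneg z]
  | some k => rw [lamC_some]; linarith [abs_sub (z.1 k) z.2, abs_fst z k]

theorem lamC_norm (k : Option ι) : ‖(lamC k : (ι → ℝ) × ℝ →L[ℝ] ℝ)‖ ≤ 2 :=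
  ContinuousLinearMap.opNorm_le_bound _ (by norm_num) (lamC_le k)

theorem norm_le_of {w : (ι → ℝ) × ℝ} {c : ℝ} (h1 : ∀ k, |w.1 k| ≤ c) (h2 : |w.2| ≤ c) :
    ‖w‖ ≤ c := by
  rw [Prod.norm_def, max_le_iff]
  exact ⟨(pi_norm_le_iff_of_nonneg ((abs_nonneg _).trans h2)).2 h1, h2⟩

theorem norm_le_lam {w : (ι → ℝ) × ℝ} {c1 c0 : ℝ} (h : 0 ≤ c1)
    (h1 : ∀ k, |lamC (some k) w| ≤ c1) (h2 : |lamC none w| ≤ c0) : ‖w‖ ≤ c1 + c0 := by
  rw [lamC_none] at h2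
  refine norm_le_of (fun k => ?_) (by linarith)
  have h3 := h1 k
  rw [lamC_some] at h3
  have h4 := abs_add_le (w.1 k - w.2) w.2
  rw [sub_add_cancel] at h4
  linarith

theorem det_tri [DecidableEq ι] (L : (ι → ℝ) × ℝ →L[ℝ] (ι → ℝ) × ℝ) (s : Option ι → ℝ) (w : ι → ℝ)
    (hL : ∀ v, L v = (fun k => s (some k) * v.1 k + w k * v.2, s none * v.2)) :
    L.det = ∏ k, s k := by
  rw [ContinuousLinearMap.det,
    ← LinearMap.det_toMatrix ((Pi.basisFun ℝ ι).prod (Module.Basis.singleton Unit ℝ))]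
  have : LinearMap.toMatrix ((Pi.basisFun ℝ ι).prod (Module.Basis.singleton Unit ℝ))
      ((Pi.basisFun ℝ ι).prod (Module.Basis.singleton Unit ℝ))
      (L : (ι → ℝ) × ℝ →ₗ[ℝ] (ι → ℝ) × ℝ) = Matrix.fromBlocks (Matrix.diagonal fun k => s (some k))
        (Matrix.of fun k _ => w k) 0 (Matrix.of fun _ _ => s none) := by
    ext (i | i) (j | j) <;>
      simp [LinearMap.toMatrix_apply, hL, Module.Basis.prod_apply, Matrix.diagonal_apply,
        Pi.single_apply]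
  rw [this, Matrix.det_fromBlocks_zero₂₁, Fintype.prod_option, Matrix.det_diagonal, mul_comm]
  simp

/-- one term of the displacement -/
noncomputable def gg (Θ : Option ι → (ι → ℝ) × ℝ → ℝ) (uu : Option ι → ℝ → ℝ) (k : Option ι)
    (p : ((ι → ℝ) × ℝ) × (ι → ℝ) × ℝ) : ℝ := Θ k p.1 * uu k (lamC k p.2)

/-- the displacement -/
noncomputable def UU (A : ι → (ι → ℝ) × ℝ → ℝ) (Θ : Option ι → (ι → ℝ) × ℝ → ℝ)
    (uu : Option ι → ℝ → ℝ) (p : ((ι → ℝ) × ℝ) × (ι → ℝ) × ℝ) : (ι → ℝ) × ℝ :=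
  (fun k => gg Θ uu (some k) p + A k p.1 * gg Θ uu none p, gg Θ uu none p)

theorem sol_iff (A : ι → (ι → ℝ) × ℝ → ℝ) (Θ : Option ι → (ι → ℝ) × ℝ → ℝ)
    (uu : Option ι → ℝ → ℝ) (z y : (ι → ℝ) × ℝ) :
    y = z + UU A Θ uu (y, z) ↔ Sol2 A Θ uu z y := by
  unfold Sol2
  constructor
  · intro h
    exact ⟨congrArg Prod.snd h, fun k => (congrFun (congrArg Prod.fst h) k).trans
      (add_assoc _ _ _).symm⟩
  · rintro ⟨h1, h2⟩
    exact Prod.ext (funext fun k => (h2 k).trans (add_assoc _ _ _)) h1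

/-- the standing assumptions -/
structure Hy (M : ℕ) (K0 P' u ν0 : ℝ) (p : Option ι → ℕ) (uu f : Option ι → ℝ → ℝ)
    (c : Option ι → ℝ) (A : ι → (ι → ℝ) × ℝ → ℝ) (Θ : Option ι → (ι → ℝ) × ℝ → ℝ)
    (ν : (ι → ℝ) × ℝ → ℝ) : Prop where
  hK : 1 ≤ K0
  hP : 1 ≤ P'
  hu : 0 < u
  n0 : 0 < ν0
  hν : ∀ y, ν0 ≤ ν y ∧ ν y ≤ 1
  hΘ : ∀ k y, 0 ≤ Θ k y ∧ Θ k y ≤ 1 - ν y ^ M
  hA : ∀ k y, Θ (some k) y ≤ A k y ∧ A k y ≤ 1
  tC : ∀ k, C2B (Θ k) (1 / (8 * (P' * u))) (1 / (P' * u) ^ 2)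
  aC : ∀ k, C2B (A k) (1 / (8 * (P' * u))) (1 / (P' * u) ^ 2)
  hU : ∀ k, Uf M K0 P' u (p k) (uu k) (f k) (c k)

namespace Hy

variable {M : ℕ} {K0 P' u ν0 : ℝ} {p : Option ι → ℕ} {uu f : Option ι → ℝ → ℝ}
  {c : Option ι → ℝ} {A : ι → (ι → ℝ) × ℝ → ℝ} {Θ : Option ι → (ι → ℝ) × ℝ → ℝ}
  {ν : (ι → ℝ) × ℝ → ℝ} (h : Hy M K0 P' u ν0 p uu f c A Θ ν)
include h

theorem P0 : 0 < P' := lt_of_lt_of_le one_pos h.hP

theorem m0 : 0 < P' * u := mul_pos h.P0 h.hu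

theorem n1 (y : (ι → ℝ) × ℝ) : 0 < ν y := lt_of_lt_of_le h.n0 (h.hν y).1

theorem t0 (y : (ι → ℝ) × ℝ) : 0 < ν y ^ M := pow_pos (h.n1 y) M

theorem t1 (y : (ι → ℝ) × ℝ) : ν y ^ M ≤ 1 := pow_le_one₀ (h.n1 y).le (h.hν y).2

theorem T1 (k : Option ι) (y : (ι → ℝ) × ℝ) : Θ k y ≤ 1 := by linarith [(h.hΘ k y).2, h.t0 y]

theorem absT (k : Option ι) (y : (ι → ℝ) × ℝ) : |Θ k y| ≤ 1 := by
  rw [abs_of_nonneg (h.hΘ k y).1]; exact h.T1 k y

theorem A0 (k : ι) (y : (ι → ℝ) × ℝ) : 0 ≤ A k y := (h.hΘ _ y).1.trans (h.hA k y).1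

theorem absA (k : ι) (y : (ι → ℝ) × ℝ) : |A k y| ≤ 1 := by
  rw [abs_of_nonneg (h.A0 k y)]; exact (h.hA k y).2

theorem cf (k : Option ι) (v : ℝ) : 0 ≤ c k * f k v ^ M ∧ c k * f k v ^ M ≤ 64 * P' := by
  have h1 := (h.hU k).f01 v
  have h2 : f k v ^ M ≤ 1 := pow_le_one₀ h1.1 h1.2
  have h3 : 0 ≤ f k v ^ M := pow_nonneg h1.1 M
  have h4 := (h.hU k).c0
  exact ⟨by positivity, by nlinarith [(h.hU k).c2]⟩

theorem du (k : Option ι) (v : ℝ) : |deriv (uu k) v| ≤ 64 * P' := by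
  rw [(h.hU k).du, abs_le]
  constructor <;> linarith [(h.cf k v).1, (h.cf k v).2, h.hP]

theorem absg (k : Option ι) (y : (ι → ℝ) × ℝ) (v : ℝ) : |Θ k y * uu k v| ≤ P' * u := by
  rw [abs_mul]
  exact (mul_le_mul (h.absT k y) ((h.hU k).ub v) (abs_nonneg _) zero_le_one).trans_eq (one_mul _)

theorem gC (k : Option ι) : C2B (gg Θ uu k) (1 / 8 + 128 * P') ((33 + 16384 * K0 * P') / u) := by
  have hu := h.hu
  have hP := h.P0
  have h0 : C2B (fun q : ((ι → ℝ) × ℝ) × (ι → ℝ) × ℝ => lamC k q.2) 2 0 :=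
    (((C2B.clm (lamC k)).mono (lamC_norm k) le_rfl).comp C2B.snd').mono (by norm_num) (by norm_num)
  have h1 := C2B.mul (fun q : ((ι → ℝ) × ℝ) × (ι → ℝ) × ℝ => h.absT k q.1)
    ((h.tC k).comp C2B.fst') (fun q => (h.hU k).ub (lamC k q.2)) ((h.hU k).uC.comp h0)
  refine h1.mono (le_of_eq (by field_simp; ring)) ?_
  calc _ = (1 / P' + 32 + 16384 * K0 * P') / u := by field_simp; ring
    _ ≤ _ := by
      gcongr
      have : 1 / P' ≤ 1 := (div_le_one hP).2 h.hP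
      linarith

theorem UC : C2B (UU A Θ uu) (1 + 256 * P') ((100 + 32768 * K0 * P') / u) := by
  have hu := h.hu
  have hP := h.P0
  have hK := h.hK
  have h2 : 1 / P' ≤ 1 := (div_le_one hP).2 h.hP
  refine C2B.prodMk (C2B.pi (by positivity) (by positivity) fun k => ?_)
    ((h.gC none).mono (by linarith) (by gcongr <;> norm_num))
  have h1 := (h.gC (some k)).add (C2B.mul (fun q : ((ι → ℝ) × ℝ) × (ι → ℝ) × ℝ => h.absA k q.1)
    ((h.aC k).comp C2B.fst') (fun q => h.absg none q.1 (lamC none q.2)) (h.gC none))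
  refine h1.mono ?_ ?_
  · calc _ = 3 / 8 + 256 * P' := by field_simp; ring
      _ ≤ _ := by linarith
  · calc _ = (33 / 32 * (1 / P') + 98 + 32768 * K0 * P') / u := by field_simp; ring
      _ ≤ _ := by gcongr; linarith

theorem dg (k : Option ι) (q v : ((ι → ℝ) × ℝ) × (ι → ℝ) × ℝ) :
    fderiv ℝ (gg Θ uu k) q v = uu k (lamC k q.2) * fderiv ℝ (Θ k) q.1 v.1 +
      Θ k q.1 * (deriv (uu k) (lamC k q.2) * lamC k v.2) := by
  have h1 := ((h.tC k).diff q.1).hasFDerivAt.comp q (hasFDerivAt_fst (𝕜 := ℝ) (p := q))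
  have h2 := ((h.hU k).uC.diff (lamC k q.2)).hasDerivAt.comp_hasFDerivAt q
    ((lamC k).hasFDerivAt.comp q (hasFDerivAt_snd (𝕜 := ℝ) (p := q)))
  have h3 : HasFDerivAt (gg Θ uu k) _ q := h1.mul h2
  rw [h3.fderiv]
  simp
  ring

theorem dU (q v : ((ι → ℝ) × ℝ) × (ι → ℝ) × ℝ) :
    fderiv ℝ (UU A Θ uu) q v = (fun k => fderiv ℝ (gg Θ uu (some k)) q v +
      (A k q.1 * fderiv ℝ (gg Θ uu none) q v + gg Θ uu none q * fderiv ℝ (A k) q.1 v.1),
      fderiv ℝ (gg Θ uu none) q v) := by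
  have h0 := fun k => ((h.gC k).diff q).hasFDerivAt
  have h1 := fun k => (h0 (some k)).add
    ((((h.aC k).diff q.1).hasFDerivAt.comp q (hasFDerivAt_fst (𝕜 := ℝ) (p := q))).mul (h0 none))
  have h3 : HasFDerivAt (UU A Θ uu) _ q := (hasFDerivAt_pi.2 h1).prodMk (h0 none)
  rw [h3.fderiv]
  simp

theorem dU1 (q : ((ι → ℝ) × ℝ) × (ι → ℝ) × ℝ) (a : (ι → ℝ) × ℝ) :
    ‖fderiv ℝ (UU A Θ uu) q (a, 0)‖ ≤ 1 / 2 * ‖a‖ := by
  have hm := h.m0
  have hP0 := h.P0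
  have hu0 := h.hu
  have e : P' * u * (1 / (8 * (P' * u)) * ‖a‖) = ‖a‖ / 8 := by field_simp
  have h1 : ∀ k, |fderiv ℝ (gg Θ uu k) q (a, 0)| ≤ ‖a‖ / 8 := fun k => by
    rw [h.dg, map_zero, mul_zero, mul_zero, add_zero, abs_mul, ← e]
    exact mul_le_mul ((h.hU k).ub _) (Calc2X.d1_apply (h.tC k) q.1 a) (abs_nonneg _) hm.le
  have ha := norm_nonneg a
  rw [h.dU]
  refine norm_le_of (fun k => ?_) ((h1 none).trans (by linarith))
  have h2 : |A k q.1 * fderiv ℝ (gg Θ uu none) q (a, 0)| ≤ 1 * (‖a‖ / 8) := by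
    rw [abs_mul]
    exact mul_le_mul (h.absA k _) (h1 none) (abs_nonneg _) zero_le_one
  have h3 : |gg Θ uu none q * fderiv ℝ (A k) q.1 a| ≤ ‖a‖ / 8 := by
    rw [abs_mul, ← e]
    exact mul_le_mul (h.absg _ _ _) (Calc2X.d1_apply (h.aC k) q.1 a) (abs_nonneg _) hm.le
  refine (abs_add_le _ _).trans ((add_le_add (h1 _) ((abs_add_le _ _).trans
    (add_le_add h2 h3))).trans (by linarith))

theorem dU2 (q : ((ι → ℝ) × ℝ) × (ι → ℝ) × ℝ) (a : (ι → ℝ) × ℝ) :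
    ‖fderiv ℝ (UU A Θ uu) q (0, a)‖ ≤ 192 * P' * ‖a‖ := by
  have hP := h.P0
  have ha := norm_nonneg a
  have h1 : ∀ k (r : ℝ), |lamC k a| ≤ r → |fderiv ℝ (gg Θ uu k) q (0, a)| ≤ 1 * (64 * P' * r) :=
    fun k r hr => by
    rw [h.dg, map_zero, mul_zero, zero_add, abs_mul, abs_mul]
    exact mul_le_mul (h.absT k _) (mul_le_mul (h.du k _) hr (abs_nonneg _) (by positivity))
      (by positivity) zero_le_one
  have h0 := h1 none _ (abs_snd a)
  have h4 : 0 ≤ P' * ‖a‖ := by positivity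
  rw [h.dU]
  refine norm_le_of (fun k => ?_) (h0.trans (by linarith))
  have h2 : |A k q.1 * fderiv ℝ (gg Θ uu none) q (0, a)| ≤ 1 * (1 * (64 * P' * ‖a‖)) := by
    rw [abs_mul]
    exact mul_le_mul (h.absA k _) h0 (abs_nonneg _) zero_le_one
  simp only [map_zero, mul_zero, add_zero]
  exact (abs_add_le _ _).trans ((add_le_add (h1 _ _ (lamC_le _ a)) h2).trans (by linarith))

theorem detL [DecidableEq ι] (y z : (ι → ℝ) × ℝ) (L : (ι → ℝ) × ℝ →L[ℝ] (ι → ℝ) × ℝ)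
    (hL : ∀ v, L v = v + fderiv ℝ (UU A Θ uu) (y, z) (0, v)) :
    L.det = ∏ k, (1 + Θ k y * deriv (uu k) (lamC k z)) := by
  refine det_tri L _ (fun k => A k y * (Θ none y * deriv (uu none) (lamC none z)) -
    Θ (some k) y * deriv (uu (some k)) (lamC (some k) z)) fun v => ?_
  rw [hL, h.dU]
  simp only [h.dg, map_zero, mul_zero, zero_add, add_zero]
  refine Prod.ext (funext fun k => ?_) ?_
  · simp only [Prod.fst_add, Pi.add_apply, lamC_none v, lamC_some k v]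
    ring
  · simp only [Prod.snd_add, lamC_none v]
    ring

theorem slope (k : Option ι) {y y' : (ι → ℝ) × ℝ} {v v' r r' : ℝ} (h1 : v + Θ k y * uu k v = r)
    (h2 : v' + Θ k y' * uu k v' = r') : ν0 ^ M * |v - v'| ≤ |r - r'| + ‖y - y'‖ / 8 := by
  have hm := h.m0
  have hP0 := h.P0
  have hu0 := h.hu
  have hd : ∀ t, HasDerivAt (fun t => t + Θ k y * uu k t - ν0 ^ M * t)
      (1 + Θ k y * deriv (uu k) t - ν0 ^ M * 1) t := fun t =>
    ((hasDerivAt_id t).add (((h.hU k).uC.diff t).hasDerivAt.const_mul _)).sub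
      ((hasDerivAt_id t).const_mul _)
  have hmono : Monotone fun t => t + Θ k y * uu k t - ν0 ^ M * t :=
    monotone_of_hasDerivAt_nonneg hd fun t => by
      have a1 := pow_le_pow_left₀ h.n0.le (h.hν y).1 M
      have a2 := (h.hΘ k y).2
      have a3 := mul_nonneg (h.hΘ k y).1 (h.cf k t).1
      simp only [(h.hU k).du, Pi.zero_apply]
      linarith
  have h3 : ν0 ^ M * |v - v'| ≤ |v + Θ k y * uu k v - (v' + Θ k y * uu k v')| := by
    rcases le_total v v' with hv | hv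
    · have := hmono hv
      rw [abs_of_nonpos (sub_nonpos.2 hv)]
      refine le_trans ?_ (neg_le_abs _)
      simp only at this
      linarith
    · have := hmono hv
      rw [abs_of_nonneg (sub_nonneg.2 hv)]
      refine le_trans ?_ (le_abs_self _)
      simp only at this
      linarith
  have h4 : |(Θ k y - Θ k y') * uu k v'| ≤ ‖y - y'‖ / 8 := by
    rw [abs_mul]
    calc _ ≤ 1 / (8 * (P' * u)) * ‖y - y'‖ * (P' * u) :=
          mul_le_mul ((h.tC k).lip y y') ((h.hU k).ub _) (abs_nonneg _) (by positivity)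
      _ = _ := by field_simp
  have e : v + Θ k y * uu k v - (v' + Θ k y * uu k v') =
      r - r' - (Θ k y - Θ k y') * uu k v' := by rw [← h1, ← h2]; ring
  rw [e] at h3
  linarith [abs_sub (r - r') ((Θ k y - Θ k y') * uu k v')]

theorem anti (z z' y y' : (ι → ℝ) × ℝ) (h1 : y = z + UU A Θ uu (y, z))
    (h2 : y' = z' + UU A Θ uu (y', z')) : ‖z - z'‖ ≤ 10 / (ν0 ^ M) ^ 2 * ‖y - y'‖ := by
  rw [sol_iff] at h1 h2
  have hm := h.m0
  have hP0 := h.P0
  have hu0 := h.hu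
  have t0 : 0 < ν0 ^ M := pow_pos h.n0 M
  have t1 : ν0 ^ M ≤ 1 := pow_le_one₀ h.n0.le ((h.hν y).1.trans (h.hν y).2)
  obtain ⟨τ, hτ⟩ : ∃ τ, τ = ν0 ^ M := ⟨_, rfl⟩
  obtain ⟨d, hd⟩ : ∃ d, d = ‖y - y'‖ := ⟨_, rfl⟩
  have d0 : 0 ≤ d := hd ▸ norm_nonneg _
  have a2 : |y.2 - y'.2| ≤ d := hd ▸ abs_snd (y - y')
  have a0 := h.slope none h1.1.symm h2.1.symm
  rw [← hτ, ← hd] at a0
  rw [← hτ] at t0 t1
  have b0 : τ * |z.2 - z'.2| ≤ 2 * d := by linarith
  have key : ∀ k, τ * |z.1 k - z.2 - (z'.1 k - z'.2)| ≤ 3 * d + 2 * |z.2 - z'.2| := fun k => by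
    have e1 : z.1 k - z.2 + Θ (some k) y * uu (some k) (z.1 k - z.2) =
        y.1 k - z.2 - A k y * (y.2 - z.2) := by rw [h1.2 k, h1.1]; ring
    have e2 : z'.1 k - z'.2 + Θ (some k) y' * uu (some k) (z'.1 k - z'.2) =
        y'.1 k - z'.2 - A k y' * (y'.2 - z'.2) := by rw [h2.2 k, h2.1]; ring
    have a1 := h.slope (some k) e1 e2
    rw [← hτ, ← hd] at a1
    have a3 : |y.1 k - y'.1 k| ≤ d := hd ▸ abs_fst (y - y') k
    have a4 : |A k y * (y.2 - y'.2 - (z.2 - z'.2))| ≤ 1 * (d + |z.2 - z'.2|) := by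
      rw [abs_mul]
      exact mul_le_mul (h.absA k y) ((abs_sub _ _).trans (by linarith)) (abs_nonneg _) zero_le_one
    have a5 : |(A k y - A k y') * (y'.2 - z'.2)| ≤ d / 8 := by
      have a6 : |y'.2 - z'.2| ≤ P' * u := by
        rw [h2.1, add_sub_cancel_left]; exact h.absg _ _ _
      rw [abs_mul, hd]
      calc _ ≤ 1 / (8 * (P' * u)) * ‖y - y'‖ * (P' * u) :=
            mul_le_mul ((h.aC k).lip y y') a6 (abs_nonneg _) (by positivity)
        _ = _ := by field_simp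
    have e3 : y.1 k - z.2 - A k y * (y.2 - z.2) - (y'.1 k - z'.2 - A k y' * (y'.2 - z'.2)) =
        y.1 k - y'.1 k - (z.2 - z'.2) - (A k y * (y.2 - y'.2 - (z.2 - z'.2)) +
          (A k y - A k y') * (y'.2 - z'.2)) := by ring
    rw [e3] at a1
    linarith [abs_sub (y.1 k - y'.1 k - (z.2 - z'.2)) (A k y * (y.2 - y'.2 - (z.2 - z'.2)) +
      (A k y - A k y') * (y'.2 - z'.2)), abs_sub (y.1 k - y'.1 k) (z.2 - z'.2),
      abs_add_le (A k y * (y.2 - y'.2 - (z.2 - z'.2))) ((A k y - A k y') * (y'.2 - z'.2))]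
  have t2 : 0 < τ ^ 2 := by positivity
  have c0 : |z.2 - z'.2| ≤ 2 * d / τ ^ 2 := by
    rw [le_div_iff₀ t2]
    nlinarith [mul_le_mul_of_nonneg_left b0 t0.le, mul_le_mul_of_nonneg_left t1 d0]
  have c1 : ∀ k, |z.1 k - z.2 - (z'.1 k - z'.2)| ≤ 7 * d / τ ^ 2 := fun k => by
    rw [le_div_iff₀ t2]
    nlinarith [mul_le_mul_of_nonneg_left (key k) t0.le, mul_le_mul_of_nonneg_left t1 d0]
  have c2 := norm_le_lam (w := z - z') (c1 := 7 * d / τ ^ 2) (c0 := 2 * d / τ ^ 2) (by positivity)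
    (fun k => by rw [map_sub]; exact c1 k) c0
  rw [← hτ, ← hd]
  refine c2.trans ?_
  have : 0 ≤ d / τ ^ 2 := by positivity
  calc _ = 9 * (d / τ ^ 2) := by ring
    _ ≤ 10 * (d / τ ^ 2) := by linarith
    _ = _ := by ring

end Hy

end FSq2X

end SK

end

section

namespace SK
open SJ Set Filter Topology MeasureTheory Metric Function
open scoped ENNReal

namespace FSq2X

open FSqX

variable {ι : Type} [Fintype ι]

theorem clm_add {E : Type} [NormedAddCommGroup E] [NormedSpace ℝ E] (L : E →L[ℝ] ℝ) {ψ : E → ℝ}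
    (hψ : ContDiff ℝ 2 ψ) (y : E) :
    ‖fderiv ℝ (fun x => L x + ψ x) y‖ ≤ ‖L‖ + ‖fderiv ℝ ψ y‖ ∧
      ‖D2 (fun x => L x + ψ x) y‖ = ‖D2 ψ y‖ := by
  constructor
  · rw [(L.hasFDerivAt.fun_add (Calc1X.diff1 hψ y).hasFDerivAt).fderiv]
    exact norm_add_le _ _
  · rw [D2_add (f := fun x => L x) L.contDiff hψ, D2_clm, zero_add]

theorem clm_sub {E : Type} [NormedAddCommGroup E] [NormedSpace ℝ E] (L : E →L[ℝ] ℝ) {ψ : E → ℝ}
    (hψ : ContDiff ℝ 2 ψ) (y : E) :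
    ‖fderiv ℝ (fun x => L x - ψ x) y‖ ≤ ‖L‖ + ‖fderiv ℝ ψ y‖ ∧
      ‖D2 (fun x => L x - ψ x) y‖ = ‖D2 ψ y‖ := by
  constructor
  · rw [(L.hasFDerivAt.fun_sub (Calc1X.diff1 hψ y).hasFDerivAt).fderiv]
    exact norm_sub_le _ _
  · rw [D2_sub (f := fun x => L x) L.contDiff hψ, D2_clm, zero_sub]
    exact ContinuousLinearMap.opNorm_neg _

theorem join {a : (ι → ℝ) × ℝ → (ι → ℝ) × ℝ} (ha : ContDiff ℝ 2 a) (y : (ι → ℝ) × ℝ)
    {c1 c0 d1 d0 : ℝ} (p1 : 0 ≤ c1) (p2 : 0 ≤ d1)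
    (h1 : ∀ k, ‖fderiv ℝ (fun x => lamC (some k) (a x)) y‖ ≤ c1 ∧
      ‖D2 (fun x => lamC (some k) (a x)) y‖ ≤ d1)
    (h0 : ‖fderiv ℝ (fun x => lamC none (a x)) y‖ ≤ c0 ∧ ‖D2 (fun x => lamC none (a x)) y‖ ≤ d0) :
    ‖fderiv ℝ a y‖ ≤ c1 + c0 ∧ ‖D2 a y‖ ≤ d1 + d0 := by
  have p3 : 0 ≤ c0 := (norm_nonneg _).trans h0.1
  have p4 : 0 ≤ d0 := (norm_nonneg (D2 (fun x => lamC none (a x)) y)).trans h0.2
  have k1 : ∀ k c v, ‖fderiv ℝ (fun x => lamC k (a x)) y‖ ≤ c →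
      |lamC k (fderiv ℝ a y v)| ≤ c * ‖v‖ := fun k c v hc => by
    rw [← Calc2X.fderiv_clm_comp (lamC k) ha]
    exact (ContinuousLinearMap.le_opNorm _ v).trans (mul_le_mul_of_nonneg_right hc (norm_nonneg _))
  have k2 : ∀ k c v w, ‖D2 (fun x => lamC k (a x)) y‖ ≤ c →
      |lamC k (D2 a y v w)| ≤ c * ‖v‖ * ‖w‖ := fun k c v w hc => by
    rw [← D2_clm_comp (lamC k) ha]
    exact (norm_D2_apply_le (fun x => lamC k (a x)) y v w).trans (by gcongr)
  constructor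
  · refine ContinuousLinearMap.opNorm_le_bound _ (by positivity) fun v => ?_
    rw [add_mul]
    exact norm_le_lam (by positivity) (fun k => k1 _ _ v (h1 k).1) (k1 _ _ v h0.1)
  · refine norm_D2_le_of_apply (by positivity) fun v w => ?_
    rw [add_mul, add_mul]
    exact norm_le_lam (by positivity) (fun k => k2 _ _ v w (h1 k).2) (k2 _ _ v w h0.2)

namespace Hy

variable {M : ℕ} {K0 P' u ν0 : ℝ} {p : Option ι → ℕ} {uu f : Option ι → ℝ → ℝ}
  {c : Option ι → ℝ} {A : ι → (ι → ℝ) × ℝ → ℝ} {Θ : Option ι → (ι → ℝ) × ℝ → ℝ}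
  {ν : (ι → ℝ) × ℝ → ℝ} (h : Hy M K0 P' u ν0 p uu f c A Θ ν)
include h

theorem s0 (k : Option ι) (y : (ι → ℝ) × ℝ) (v : ℝ) :
    1 - Θ k y + Θ k y * (c k * f k v ^ M) = 1 + Θ k y * deriv (uu k) v := by
  rw [(h.hU k).du]; ring

theorem s1 (k : Option ι) (y : (ι → ℝ) × ℝ) (v : ℝ) : 1 - Θ k y ≤ 1 + Θ k y * deriv (uu k) v := by
  rw [← h.s0]; linarith [mul_nonneg (h.hΘ k y).1 (h.cf k v).1]

theorem s2 (k : Option ι) (y : (ι → ℝ) × ℝ) (v : ℝ) : ν y ^ M ≤ 1 + Θ k y * deriv (uu k) v := by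
  linarith [h.s1 k y v, (h.hΘ k y).2]

theorem s4 (k : Option ι) (y : (ι → ℝ) × ℝ) (v : ℝ) :
    |1 + Θ k y * deriv (uu k) v| ≤ 1 + 64 * P' := by
  refine (abs_add_le _ _).trans (add_le_add abs_one.le ?_)
  rw [abs_mul]
  exact (mul_le_mul (h.absT k y) (h.du k v) (abs_nonneg _) zero_le_one).trans_eq (one_mul _)

theorem e1 (y : (ι → ℝ) × ℝ) : 1 / u ≤ 1 / (u * ν y) :=
  one_div_le_one_div_of_le (mul_pos h.hu (h.n1 y)) (mul_le_of_le_one_right h.hu.le (h.hν y).2)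

theorem e0 (y : (ι → ℝ) × ℝ) : 1 / (P' * u) ≤ 1 / (u * ν y) :=
  (one_div_le_one_div_of_le h.hu (le_mul_of_one_le_left h.hu.le h.hP)).trans (h.e1 y)

theorem scal (hC : ScalStmt) (hS : SumProdStmt) (k : Option ι) {G r : (ι → ℝ) × ℝ → ℝ}
    (hG : ContDiff ℝ 2 G) (hr : ContDiff ℝ 2 r) (he : ∀ y, G y + Θ k y * uu k (G y) = r y)
    (y : (ι → ℝ) × ℝ) {H1 H2 : ℝ}
    (h1 : ‖fderiv ℝ r y‖ ≤ H1 / ν y ^ M * (1 + Θ k y * deriv (uu k) (G y)))
    (h2 : ‖D2 r y‖ ≤ H2 / (ν y ^ M) ^ 2 * (1 + Θ k y * deriv (uu k) (G y))) :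
    ‖fderiv ℝ G y‖ ≤ (H1 + 1) / ν y ^ M ∧
      ‖D2 G y‖ ≤ (H2 + 1 / (u * ν y) + 2 * (8 * (1 / (u * ν y))) * (H1 + 1) +
        64 * K0 * (1 + 64 * P') * (1 / (u * ν y)) * (H1 + 1) ^ 2) / (ν y ^ M) ^ 2 := by
  have hP0 := h.P0
  have hu := h.hu
  have hK := h.hK
  have hy := h.n1 y
  have hSP := hS Unit _ (fun _ => Θ k) (fun _ => uu k) (fun _ => (h.tC k).cd)
    (fun _ => (h.hU k).uC.cd)
  simp only [Finset.univ_unique, Finset.sum_singleton] at hSP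
  have hslp : slp (spF (fun _ : Unit => Θ k) fun _ => uu k) (y, G y) =
      1 + Θ k y * deriv (uu k) (G y) := by rw [slp, (hSP.2 _ 0 0).2.1]
  refine hC _ G r _ hG hr hSP.1 (fun y => by rw [spF_one]; exact he y) y _ _ _ _ _ _ (h.t0 y)
    (h.t1 y) (by positivity) (by positivity) (by positivity) (hslp ▸ h.s2 k y _) (fun v => ?_)
    (hslp ▸ h1) (hslp ▸ h2) (fun v w => ?_) (fun v => ?_) ?_
  · rw [(hSP.2 _ v 0).1, abs_mul]
    have := norm_nonneg v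
    calc _ ≤ P' * u * (1 / (8 * (P' * u)) * ‖v‖) :=
          mul_le_mul ((h.hU k).ub _) (Calc2X.d1_apply (h.tC k) y v) (abs_nonneg _) (by positivity)
      _ = ‖v‖ / 8 := by field_simp
      _ ≤ _ := by linarith
  · rw [(hSP.2 _ v w).2.2.1, abs_mul]
    calc _ ≤ P' * u * (1 / (P' * u) ^ 2 * ‖v‖ * ‖w‖) :=
          mul_le_mul ((h.hU k).ub _) (Calc2X.d2_apply (h.tC k) _ v w) (abs_nonneg _)
            (by positivity)
      _ = 1 / (P' * u) * ‖v‖ * ‖w‖ := by field_simp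
      _ ≤ _ := by gcongr ?_ * _ * _; exact h.e0 y
  · rw [(hSP.2 _ v 0).2.2.2.1, abs_mul]
    calc _ ≤ 64 * P' * (1 / (8 * (P' * u)) * ‖v‖) :=
          mul_le_mul (h.du k _) (Calc2X.d1_apply (h.tC k) _ v) (abs_nonneg _) (by positivity)
      _ = 8 * (1 / u) * ‖v‖ := by field_simp; ring
      _ ≤ _ := by gcongr 8 * ?_ * _; exact h.e1 y
  · rw [(hSP.2 _ 0 0).2.2.2.2, abs_mul, abs_of_nonneg (h.hΘ k _).1, hslp]
    have a1 := (h.hU k).ddu (G y) (ν y) hy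
    have a2 := h.s0 k y (G y)
    have a3 := h.s2 k y (G y)
    have a0 := (h.hΘ k y).1
    have a5 := h.t0 y
    have a6 := h.T1 k y
    have a4 : Θ k y * (c k * ν y ^ M) ≤ 1 * (64 * P' * (1 + Θ k y * deriv (uu k) (G y))) :=
      mul_le_mul a6 (mul_le_mul (h.hU k).c2 a3 a5.le (by positivity))
        (mul_nonneg (h.hU k).c0 a5.le) zero_le_one
    dsimp only
    rw [mul_one_div, div_mul_eq_mul_div, le_div_iff₀ (by positivity)]
    calc _ = u * Θ k y * (ν y * |deriv (deriv (uu k)) (G y)|) := by ring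
      _ ≤ u * Θ k y * (64 * K0 / u * (c k * f k (G y) ^ M + c k * ν y ^ M)) := by gcongr
      _ = 64 * K0 * (Θ k y * (c k * f k (G y) ^ M) + Θ k y * (c k * ν y ^ M)) := by field_simp
      _ ≤ 64 * K0 * ((1 + 64 * P') * (1 + Θ k y * deriv (uu k) (G y))) := by
        gcongr
        linarith
      _ = _ := by ring

theorem bndA (hC : ScalStmt) (hS : SumProdStmt) {a : (ι → ℝ) × ℝ → (ι → ℝ) × ℝ}
    (ha : ContDiff ℝ 2 a) (hs : ∀ y, Sol2 A Θ uu (a y) y) (y : (ι → ℝ) × ℝ) :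
    ‖fderiv ℝ a y‖ ≤ 9 / ν y ^ M ∧
      ‖D2 a y‖ ≤ (181 + 57 * (64 * K0 * (1 + 64 * P'))) / ν y ^ (2 * M + 1) / u := by
  have hP0 := h.P0
  have hu := h.hu
  have hK := h.hK
  have hy := h.n1 y
  have t0 := h.t0 y
  have t1 := h.t1 y
  have cG : ∀ k, ContDiff ℝ 2 fun x => lamC k (a x) := fun k => (lamC k).contDiff.comp ha
  have cL : ∀ k : Option ι, ContDiff ℝ 2 fun x => lamC k x := fun k => (lamC k).contDiff
  have g0 := h.scal hC hS none (cG none) (cL none)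
    (fun y => (hs y).1.symm) y (H1 := 1) (H2 := 0) (by
      rw [ContinuousLinearMap.fderiv]
      refine (ContinuousLinearMap.norm_snd_le ..).trans ?_
      rw [div_mul_eq_mul_div, one_mul, one_le_div t0]
      exact h.s2 _ _ _) (by
      rw [D2_clm, zero_div, zero_mul]
      exact ContinuousLinearMap.opNorm_zero.le)
  obtain ⟨e, he⟩ : ∃ e, e = 1 / (u * ν y) := ⟨_, rfl⟩
  obtain ⟨W, hW⟩ : ∃ W, W = 64 * K0 * (1 + 64 * P') := ⟨_, rfl⟩
  obtain ⟨τ, hτ⟩ : ∃ τ, τ = ν y ^ M := ⟨_, rfl⟩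
  have e0 := h.e0 y
  rw [← he, ← hW, ← hτ] at g0
  rw [← hτ] at t0 t1
  rw [← he] at e0
  have ep : 0 < e := by rw [he]; positivity
  have Wp : 0 < W := by rw [hW]; positivity
  have g1 : ∀ k, ‖fderiv ℝ (fun x => lamC (some k) (a x)) y‖ ≤ (6 + 1) / τ ∧
      ‖D2 (fun x => lamC (some k) (a x)) y‖ ≤
        ((35 + 4 * W) * e + e + 2 * (8 * e) * (6 + 1) + W * e * (6 + 1) ^ 2) / τ ^ 2 := fun k => by
    have cφ := (h.aC k).const_sub 1
    have cψ : ContDiff ℝ 2 fun x => lamC none x - lamC none (a x) :=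
      (cL none).sub (cG none)
    have b0 : ‖lamC none y - lamC none (a y)‖ ≤ P' * u := by
      rw [lamC_none, lamC_none, (hs y).1, add_sub_cancel_left]
      exact h.absg _ _ _
    obtain ⟨b1, b2⟩ := clm_sub (lamC none) (cG none) y
    have b3 : ‖(lamC none : (ι → ℝ) × ℝ →L[ℝ] ℝ)‖ ≤ 1 := ContinuousLinearMap.norm_snd_le ..
    have cχ : ContDiff ℝ 2 fun x => (1 - A k x) • (lamC none x - lamC none (a x)) :=
      cφ.cd.smul cψ
    obtain ⟨b4, b5⟩ := clm_add (lamC (some k)) cχ y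
    have b6 := norm_fderiv_smul_le' cφ.cd cψ y
    have b7 := norm_D2_smul_le cφ.cd cψ y
    have b8 := cφ.d1 y
    have b9 := cφ.d2 y
    have c0 : 0 ≤ 1 - A k y := sub_nonneg.2 (h.hA k y).2
    have c1 : 1 - A k y ≤ 1 + Θ (some k) y * deriv (uu (some k)) (lamC (some k) (a y)) := by
      linarith [h.s1 (some k) y (lamC (some k) (a y)), (h.hA k y).1]
    have c2 := h.s2 (some k) y (lamC (some k) (a y))
    have c3 := lamC_norm (some k)
    rw [abs_of_nonneg c0] at b6 b7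
    rw [he, hW, hτ]
    refine h.scal hC hS (some k) (cG _)
      (r := fun x => lamC (some k) x + (1 - A k x) • (lamC none x - lamC none (a x)))
      ((cL _).add cχ) (fun y => ?_) y ?_ ?_
    · simp only [lamC_some, lamC_none, smul_eq_mul]
      have q1 := (hs y).1
      have q2 := (hs y).2 k
      linear_combination (1 - A k y - 1) * q1 * (-1) - q2
    all_goals
      simp only [← he, ← hW, ← hτ] at c2 ⊢
      generalize 1 + Θ (some k) y * deriv (uu (some k)) (lamC (some k) (a y)) = s at *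
      have i1 : 1 ≤ 1 / τ := (one_le_div t0).2 t1
      have i2 : 1 ≤ s / τ := (one_le_div t0).2 c2
      have i3 : ‖fderiv ℝ (fun x => lamC none x - lamC none (a x)) y‖ ≤ 3 / τ := by
        have := g0.1
        calc _ ≤ 1 / τ + (1 + 1) / τ := by linarith
          _ = _ := by ring
    · have j1 : ‖fderiv ℝ (fun y => 1 - A k y) y‖ * ‖lamC none y - lamC none (a y)‖ ≤ 1 / 8 :=
        calc _ ≤ 1 / (8 * (P' * u)) * (P' * u) := by gcongr
          _ = _ := by field_simp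
      have j2 : (1 - A k y) * ‖fderiv ℝ (fun x => lamC none x - lamC none (a x)) y‖ ≤
          s * (3 / τ) := mul_le_mul c1 i3 (norm_nonneg _) (c0.trans c1)
      calc _ ≤ 3 * (s / τ) + s * (3 / τ) := by linarith
        _ = _ := by ring
    · have sp : 0 ≤ s := c0.trans c1
      have i4 : 1 ≤ s / τ ^ 2 := by
        rw [one_le_div (by positivity)]
        nlinarith
      have i5 : 1 / τ ≤ s / τ ^ 2 := by
        rw [div_le_div_iff₀ t0 (by positivity)]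
        nlinarith
      have j1 : ‖D2 (fun y => 1 - A k y) y‖ * ‖lamC none y - lamC none (a y)‖ ≤ e * (s / τ ^ 2) :=
        calc _ ≤ 1 / (P' * u) ^ 2 * (P' * u) := by gcongr
          _ = 1 / (P' * u) * 1 := by field_simp
          _ ≤ _ := by gcongr ?_ * ?_
      have j2 : 2 * ‖fderiv ℝ (fun y => 1 - A k y) y‖ *
          ‖fderiv ℝ (fun x => lamC none x - lamC none (a x)) y‖ ≤ e * (s / τ ^ 2) :=
        calc _ ≤ 2 * (1 / (8 * (P' * u))) * (4 / τ) := by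
              gcongr
              exact i3.trans (by gcongr; norm_num)
          _ = 1 / (P' * u) * (1 / τ) := by field_simp; ring
          _ ≤ _ := by gcongr ?_ * ?_
      have j3 : (1 - A k y) * ‖D2 (fun x => lamC none x - lamC none (a x)) y‖ ≤
          s * ((0 + e + 2 * (8 * e) * (1 + 1) + W * e * (1 + 1) ^ 2) / τ ^ 2) :=
        mul_le_mul c1 (b2.trans_le g0.2)
          (norm_nonneg (D2 (fun x => lamC none x - lamC none (a x)) y)) sp
      calc _ ≤ e * (s / τ ^ 2) + e * (s / τ ^ 2) +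
            s * ((0 + e + 2 * (8 * e) * (1 + 1) + W * e * (1 + 1) ^ 2) / τ ^ 2) := by
            rw [b5]; linarith
        _ = _ := by ring
  obtain ⟨r1, r2⟩ := join ha y (by positivity) (by positivity) g1 g0
  refine ⟨r1.trans_eq (by rw [hτ]; ring), r2.trans_eq ?_⟩
  rw [← hW, he, hτ]
  field_simp
  ring

end Hy

end FSq2X

open FSqX FSq2X

theorem fSq2 (hE : ImpEx2Stmt) (hC : ScalStmt) (hP : ProfStmt) (hS : SumProdStmt) : FSq2Stmt := by
  intro ι _ _ M P' hM hP'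
  obtain ⟨K0, hK0, hP⟩ := hP M hM
  obtain ⟨Kd, hKd, hE⟩ := hE ((ι → ℝ) × ℝ)
  obtain ⟨K1, hK1⟩ : ∃ K1, K1 = 2 * (100 + 32768 * K0 * P') * (2 + 2 * (192 * P')) ^ 2 := ⟨_, rfl⟩
  obtain ⟨K2, hK2⟩ : ∃ K2, K2 = 181 + 57 * (64 * K0 * (1 + 64 * P')) := ⟨_, rfl⟩
  obtain ⟨K3, hK3⟩ : ∃ K3, K3 = Kd * (1 + 64 * P') ^ Fintype.card (Option ι) := ⟨_, rfl⟩
  have p1 : 0 ≤ K1 := by rw [hK1]; positivity
  have p2 : 181 ≤ K2 := by
    have : 0 ≤ 57 * (64 * K0 * (1 + 64 * P')) := by positivity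
    linarith
  have p3 : 0 ≤ K3 := by rw [hK3]; positivity
  refine ⟨K1 + K2 + K3, by linarith, fun p u hp hu => ?_⟩
  have hp1 : ∀ k, (1 : ℝ) ≤ p k := fun k => by exact_mod_cast (hp k).1
  have hex : ∀ k, ∃ (uu f : ℝ → ℝ) (c : ℝ), Uf M K0 P' u (p k) uu f c := fun k => by
    have h1 := hp1 k
    obtain ⟨uu, f, c, h⟩ := hP (1 / (64 * p k)) (p k * u) 0 (by positivity)
      (one_div_le_one_div_of_le (by norm_num) (by linarith)) (by positivity)
    exact ⟨uu, f, c, uf_of hK0 hu h1 (hp k).2 h⟩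
  choose uu f c hU using hex
  refine ⟨uu, fun A Θ ν ν0 hν0 hν hΘ hA hΘC hAC => ?_⟩
  have h : Hy M K0 P' u ν0 p uu f c A Θ ν := ⟨hK0, hP', hu, hν0, hν, hΘ, hA, hΘC, hAC, hU⟩
  have hP0 := h.P0
  obtain ⟨a, b, li, ri, aC, bC, hb, hun, hdet0⟩ := hE (UU A Θ uu) _ _ _ (192 * P') h.UC
    (by positivity) h.dU1 h.dU2 h.anti
  have hs : ∀ z, Sol2 A Θ uu z (b z) := fun z => (sol_iff A Θ uu z _).1 (hb z)
  have ha : ∀ y, Sol2 A Θ uu (a y) y := fun y => by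
    have := hs (a y)
    rwa [ri y] at this
  have hA' := h.bndA hC hS aC ha
  have hdet : ∀ y (T : Finset (Option ι)),
      (∀ k ∈ T, 1 + Θ k y * deriv (uu k) (lamC k (a y)) = ν y ^ M) →
      1 ≤ (K1 + K2 + K3) * (ν y ^ M) ^ T.card * |(fderiv ℝ a y).det| := fun y T hT => by
    have h0 := hdet0 y (ContinuousLinearMap.id ℝ _ +
      (fderiv ℝ (UU A Θ uu) (y, a y)).comp (ContinuousLinearMap.inr ℝ _ _)) fun v => rfl
    rw [h.detL y (a y) _ fun v => rfl] at h0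
    refine h0.trans (mul_le_mul_of_nonneg_right ?_ (abs_nonneg _))
    have h5 := h.t0 y
    rw [← Finset.prod_mul_prod_compl T, Finset.prod_congr rfl hT, Finset.prod_const, abs_mul,
      abs_of_nonneg (by positivity), Finset.abs_prod]
    have h1 : ∏ k ∈ Tᶜ, |1 + Θ k y * deriv (uu k) (lamC k (a y))| ≤
        (1 + 64 * P') ^ Fintype.card (Option ι) :=
      calc _ ≤ ∏ _k ∈ Tᶜ, (1 + 64 * P') :=
            Finset.prod_le_prod (fun _ _ => abs_nonneg _) fun k _ => h.s4 k _ _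
        _ = (1 + 64 * P') ^ Tᶜ.card := Finset.prod_const _
        _ ≤ _ := pow_le_pow_right₀ (by linarith) (Finset.card_le_univ _)
    calc _ ≤ Kd * ((ν y ^ M) ^ T.card * (1 + 64 * P') ^ Fintype.card (Option ι)) := by gcongr
      _ = K3 * (ν y ^ M) ^ T.card := by rw [hK3]; ring
      _ ≤ _ := by gcongr; linarith
  refine ⟨a, b, li, ri, aC, bC.mono (by linarith) ?_, hs,
    fun z y hy => hun z y ((sol_iff A Θ uu z y).2 hy), fun z => ?_, fun y => (hA' y).1.trans ?_,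
    fun y => (hA' y).2.trans ?_, fun y => by simpa using hdet y ∅ (by simp),
    fun y T hT => hdet y T fun k hk => ?_⟩
  · calc _ = K1 / u := by rw [hK1]; ring
      _ ≤ _ := by gcongr; linarith
  · obtain ⟨h1, h2⟩ := hs z
    have m0 := h.m0
    have h3 := h.absg none (b z) z.2
    refine norm_le_of (fun k => ?_) ?_
    · rw [Prod.fst_sub, Pi.sub_apply, h2 k, add_assoc, add_sub_cancel_left]
      have h4 : |A k (b z) * (Θ none (b z) * uu none z.2)| ≤ 1 * (P' * u) := by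
        rw [abs_mul]
        exact mul_le_mul (h.absA k _) h3 (abs_nonneg _) zero_le_one
      exact (abs_add_le _ _).trans ((add_le_add (h.absg _ _ _) h4).trans (by linarith))
    · rw [Prod.snd_sub, h1, add_sub_cancel_left]
      linarith
  · have := h.t0 y
    gcongr
    linarith
  · have hy := h.n1 y
    rw [← hK2]
    gcongr
    linarith
  · have h0 : f k (lamC k (a y)) = 0 := by
      by_contra h0
      obtain ⟨n, hn⟩ := (hU k).fs _ h0
      have := (hT k hk).2 n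
      rw [lamC_eq] at hn
      linarith
    rw [(hU k).du, h0, (hT k hk).1, zero_pow (by omega)]
    ring

end SK

end
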