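import Mathlib
import Pool.Agent.Mg.Fedaf86.G6ae19f
import Pool.Agent.Mg.Xedaf86.G910084
import Pool.Agent.Mg.Xedaf86.G06b4b8
import Pool.Agent.Mg.Xedaf86.G39d375

section

namespace SJ
open Set Filter Topology

theorem Lam_pos (x : ℝ) : 0 < Lam x := Real.exp_pos _
theorem ell_pos (x : ℝ) : 0 < ell x := Real.exp_pos _
theorem mu_pos (x : ℝ) : 0 < mu x := div_pos (ell_pos x) (pow_pos (Lam_pos x) 2)
theorem exp_pow' (x : ℝ) (n : ℕ) : Real.exp x ^ n = Real.exp (n * x) := (Real.exp_nat_mul x n).symm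
theorem Lam_eq (x : ℝ) : Lam x = Real.exp (2800 * x) := rfl
theorem ell_eq (x : ℝ) : ell x = Real.exp (-(16800000 * x)) := rfl
theorem Lam_pow (x : ℝ) (n : ℕ) : Lam x ^ n = Real.exp (n * (2800 * x)) := exp_pow' _ n
theorem mu_eq (x : ℝ) : mu x = Real.exp (-(16805600 * x)) := by
  unfold mu
  rw [Lam_pow, ell_eq, ← Real.exp_sub]
  congr 1
  push_cast
  ring
theorem ell_div_Lam_pow (x : ℝ) (n : ℕ) :
    ell x / Lam x ^ n = Real.exp (-((16800000 + 2800 * n) * x)) := by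
  rw [Lam_pow, ell_eq, ← Real.exp_sub]
  congr 1
  ring
theorem ell_div_Lam (x : ℝ) : ell x / Lam x = Real.exp (-(16802800 * x)) := by
  rw [Lam_eq, ell_eq, ← Real.exp_sub]
  congr 1
  ring
theorem Lam_pow_div_ell (x : ℝ) (n : ℕ) :
    Lam x ^ n / ell x = Real.exp ((16800000 + 2800 * n) * x) := by
  rw [Lam_pow, ell_eq, ← Real.exp_sub]
  congr 1
  ring
theorem ell_next (x : ℝ) : ell (401 / 400 * x) = ell x / Lam x ^ 15 := by
  rw [ell_div_Lam_pow, ell_eq]
  congr 1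
  push_cast
  ring
/-- a constant is below the exponential once x exceeds it -/
theorem le_exp_of_le {K x : ℝ} (h : K ≤ x) : K ≤ Real.exp x := by
  have := Real.add_one_le_exp x
  linarith
/-- absorb a constant factor into an exponential -/
theorem mul_exp_le {K x s t : ℝ} (hK : K ≤ Real.exp x) (h : x + s ≤ t) :
    K * Real.exp s ≤ Real.exp t :=
  calc K * Real.exp s ≤ Real.exp x * Real.exp s :=
        mul_le_mul_of_nonneg_right hK (Real.exp_pos s).le
    _ = Real.exp (x + s) := (Real.exp_add x s).symm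
    _ ≤ Real.exp t := Real.exp_le_exp.2 h

theorem Geo.ge {lam : ℕ → ℝ} (h : Geo lam) (j : ℕ) : 400 + (j : ℝ) ≤ lam j := by
  induction j with
  | zero => simpa using h.zero
  | succ j ih =>
    rw [h.succ]
    have h0 : (0 : ℝ) ≤ j := Nat.cast_nonneg j
    push_cast
    linarith

theorem Geo.ge400 {lam : ℕ → ℝ} (h : Geo lam) (j : ℕ) : 400 ≤ lam j := by
  have := h.ge j
  have h0 : (0 : ℝ) ≤ j := Nat.cast_nonneg j
  linarith

theorem Geo.mono {lam : ℕ → ℝ} (h : Geo lam) : Monotone lam := by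
  refine monotone_nat_of_le_succ fun j => ?_
  rw [h.succ]
  have := h.ge400 j
  linarith

theorem Geo.ell_succ {lam : ℕ → ℝ} (h : Geo lam) (j : ℕ) :
    ell (lam (j + 1)) = ell (lam j) / Lam (lam j) ^ 15 := by
  rw [h.succ, ell_next]

theorem Geo.exp_le {lam : ℕ → ℝ} (h : Geo lam) {c : ℝ} (hc : 0 < c) (j : ℕ) :
    Real.exp (-(c * lam j)) ≤ Real.exp (-(400 * c)) * Real.exp (-c) ^ j := by
  rw [exp_pow', ← Real.exp_add]
  refine Real.exp_le_exp.2 ?_
  have := mul_le_mul_of_nonneg_left (h.ge j) hc.le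
  linarith

theorem Geo.summable_exp {lam : ℕ → ℝ} (h : Geo lam) {c : ℝ} (hc : 0 < c) :
    Summable fun j => Real.exp (-(c * lam j)) := by
  refine Summable.of_nonneg_of_le (fun j => (Real.exp_pos _).le) (h.exp_le hc) ?_
  refine Summable.mul_left _ (summable_geometric_of_lt_one (Real.exp_pos _).le ?_)
  exact Real.exp_lt_one_iff.2 (by linarith) 

theorem Geo.tendsto_exp {lam : ℕ → ℝ} (h : Geo lam) {c : ℝ} (hc : 0 < c) :
    Tendsto (fun j => Real.exp (-(c * lam j))) atTop (𝓝 0) :=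
  (h.summable_exp hc).tendsto_atTop_zero

/-- every finite sum of the small exponentials is at most 1/100 -/
theorem Geo.sum_exp_le {lam : ℕ → ℝ} (h : Geo lam) {c : ℝ} (hc : 1 ≤ c) (n : ℕ) :
    ∑ j ∈ Finset.range n, Real.exp (-(c * lam j)) ≤ 1 / 100 := by
  have key : ∀ j : ℕ, Real.exp (-(c * lam j)) ≤ 1 / 200 * (1 / 2) ^ j := by
    intro j
    have h1 : Real.exp (-(c * lam j)) ≤ Real.exp (-400) * Real.exp (-1) ^ j := by
      rw [exp_pow', ← Real.exp_add]
      refine Real.exp_le_exp.2 ?_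
      have h2 := h.ge j
      have h3 := h.ge400 j
      nlinarith
    have h4 : Real.exp (-400) ≤ 1 / 200 := by
      rw [Real.exp_neg, ← one_div]
      refine one_div_le_one_div_of_le (by norm_num) ?_
      have := Real.add_one_le_exp (400 : ℝ)
      linarith
    have h5 : Real.exp (-1) ≤ 1 / 2 := by
      rw [Real.exp_neg, ← one_div]
      refine one_div_le_one_div_of_le (by norm_num) ?_
      have := Real.add_one_le_exp (1 : ℝ)
      linarith
    calc _ ≤ _ := h1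
      _ ≤ 1 / 200 * (1 / 2) ^ j :=
        mul_le_mul h4 (pow_le_pow_left₀ (Real.exp_pos _).le h5 j) (by positivity) (by norm_num)
  calc _ ≤ ∑ j ∈ Finset.range n, (1 / 200 * (1 / 2 : ℝ) ^ j) := Finset.sum_le_sum fun j _ => key j
    _ = 1 / 200 * ∑ j ∈ Finset.range n, (1 / 2 : ℝ) ^ j := by rw [Finset.mul_sum]
    _ ≤ 1 / 200 * 2 := by
      refine mul_le_mul_of_nonneg_left ?_ (by norm_num)
      exact sum_geometric_two_le n
    _ = 1 / 100 := by norm_num

theorem exists_geo (x0 : ℝ) : ∃ lam : ℕ → ℝ, Geo lam ∧ x0 ≤ lam 0 := by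
  refine ⟨fun j => (401 / 400) ^ j * max x0 400, ⟨fun j => ?_, ?_⟩, ?_⟩
  · ring
  · simp
  · simp

end SJ

end

section

namespace SJ
open Set Filter Topology MeasureTheory Metric Function
open scoped ENNReal

variable {E : Type*} [NormedAddCommGroup E] [NormedSpace ℝ E]

namespace LimsX

omit [NormedSpace ℝ E] in
theorem exists_unif_limit [CompleteSpace E] (u : ℕ → E → E) (ε : ℕ → ℝ)
    (hd : ∀ j y, ‖u (j + 1) y - u j y‖ ≤ ε j) (hε : Summable ε) :
    ∃ Ψ : E → E, TendstoUniformly u Ψ atTop := by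
  have h := tendstoUniformly_tsum_nat (f := fun n y => u (n + 1) y - u n y) hε hd
  refine ⟨fun y => u 0 y + ∑' n, (u (n + 1) y - u n y), ?_⟩
  rw [Metric.tendstoUniformly_iff] at h ⊢
  intro δ hδ
  filter_upwards [h δ hδ] with N hN y
  have h1 := hN y
  rw [Finset.sum_range_sub (fun n => u n y)] at h1
  rw [dist_eq_norm] at h1 ⊢
  have : u 0 y + ∑' n, (u (n + 1) y - u n y) - u N y
      = ∑' n, (u (n + 1) y - u n y) - (u N y - u 0 y) := by abel
  rw [this]
  exact h1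

theorem fw_add {X : Type*} (P : ℕ → X → X) (j k : ℕ) (y : X) :
    Fw P (j + k) y = Fw P j (Fw (fun i => P (j + i)) k y) := by
  induction k generalizing y with
  | zero => rfl
  | succ k ih => exact ih (P (j + k) y)

theorem fw_cont {X : Type*} [TopologicalSpace X] (P : ℕ → X → X) (hc : ∀ j, Continuous (P j))
    (j : ℕ) : Continuous (Fw P j) := by
  induction j with
  | zero => exact continuous_id
  | succ j ih => exact ih.comp (hc j)

theorem fw_inj {X : Type*} (P : ℕ → X → X) (hi : ∀ j, Injective (P j)) (j : ℕ) :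
    Injective (Fw P j) := by
  induction j with
  | zero => exact injective_id
  | succ j ih => exact ih.comp (hi j)

theorem gs_cont {X : Type*} [TopologicalSpace X] (a : ℕ → X → X) (hc : ∀ j, Continuous (a j))
    (j : ℕ) : Continuous (Gs a j) := by
  induction j with
  | zero => exact continuous_id
  | succ j ih => exact (hc j).comp ih

theorem nonneg_of_rec (Z Y : ℕ → ℝ) (hY0 : 1 ≤ Y 0) (hZ : ∀ j, 0 ≤ Z j)
    (hY : ∀ j, Y j * Z j ≤ Y (j + 1)) (j : ℕ) : 0 ≤ Y j := by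
  induction j with
  | zero => linarith
  | succ j ih => exact (mul_nonneg ih (hZ j)).trans (hY j)

theorem one_le_of_rec (Z Y : ℕ → ℝ) (hZ : ∀ j, 2 ≤ Z j) (hY0 : 1 ≤ Y 0)
    (hY : ∀ j, Y (j + 1) = Y j * Z j) (j : ℕ) : 1 ≤ Y j := by
  induction j with
  | zero => exact hY0
  | succ j ih =>
    rw [hY]
    nlinarith [hZ j]

theorem ineq1 {Y Z : ℝ} (hY : 1 ≤ Y) (hZ : 2 ≤ Z) :
    Y ^ 4 * Z ^ 2 + Y * (Y * Z) ≤ (Y * Z) ^ 4 := by
  have h1 : Y ^ 2 ≤ Y ^ 4 := pow_le_pow_right₀ hY (by norm_num)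
  have h2 : Z ≤ Z ^ 2 := by nlinarith
  have h3 : 4 ≤ Z ^ 2 := by nlinarith
  have h4 : Y * (Y * Z) ≤ Y ^ 4 * Z ^ 2 := by
    have : Y * (Y * Z) = Y ^ 2 * Z := by ring
    rw [this]
    exact mul_le_mul h1 h2 (by linarith) (by positivity)
  have h5 : (Y * Z) ^ 4 = (Y ^ 4 * Z ^ 2) * Z ^ 2 := by ring
  have h6 : 0 ≤ Y ^ 4 * Z ^ 2 := by positivity
  rw [h5]
  nlinarith

theorem ineq2 {Y Z : ℝ} (hY : 1 ≤ Y) (hZ : 2 ≤ Z) :
    Y * Z * Y ^ 2 + Z * Y ^ 4 ≤ (Y * Z) ^ 4 := by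
  have h1 : Y ^ 3 ≤ Y ^ 4 := pow_le_pow_right₀ hY (by norm_num)
  have h3 : 2 ≤ Z ^ 3 := by
    have : (2 : ℝ) ^ 3 ≤ Z ^ 3 := pow_le_pow_left₀ (by norm_num) hZ 3
    linarith
  have h4 : Y * Z * Y ^ 2 ≤ Z * Y ^ 4 := by
    have : Y * Z * Y ^ 2 = Z * Y ^ 3 := by ring
    rw [this]
    exact mul_le_mul_of_nonneg_left h1 (by linarith)
  have h5 : (Y * Z) ^ 4 = (Z * Y ^ 4) * Z ^ 3 := by ring
  have h6 : 0 ≤ Z * Y ^ 4 := mul_nonneg (by linarith) (by positivity)
  rw [h5]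
  nlinarith

end LimsX

open LimsX

omit [NormedSpace ℝ E] in
theorem fw_disp' (P : ℕ → E → E) (ε : ℕ → ℝ) (hd : ∀ j y, ‖P j y - y‖ ≤ ε j) (j : ℕ) (y : E) :
    ‖Fw P j y - y‖ ≤ ∑ i ∈ Finset.range j, ε i := by
  induction j generalizing y with
  | zero => simp [Fw]
  | succ j ih =>
    rw [Finset.sum_range_succ]
    have h1 := ih (P j y)
    have h2 := hd j y
    calc ‖Fw P (j + 1) y - y‖ = ‖(Fw P j (P j y) - P j y) + (P j y - y)‖ := by
          congr 1
          simp [Fw]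
      _ ≤ ‖Fw P j (P j y) - P j y‖ + ‖P j y - y‖ := norm_add_le _ _
      _ ≤ _ := add_le_add h1 h2

theorem fw_disp (P : ℕ → E → E) (ε : ℕ → ℝ) (hd : ∀ j y, ‖P j y - y‖ ≤ ε j) (j : ℕ) (y : E) :
    ‖Fw P j y - y‖ ≤ ∑ i ∈ Finset.range j, ε i := fw_disp' P ε hd j y

theorem gs_disp (a : ℕ → E → E) (ε : ℕ → ℝ) (hd : ∀ j y, ‖a j y - y‖ ≤ ε j) (j : ℕ) (y : E) :
    ‖Gs a j y - y‖ ≤ ∑ i ∈ Finset.range j, ε i := by
  induction j with
  | zero => simp [Gs]
  | succ j ih =>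
    rw [Finset.sum_range_succ]
    have h2 := hd j (Gs a j y)
    calc ‖Gs a (j + 1) y - y‖ = ‖(Gs a j y - y) + (a j (Gs a j y) - Gs a j y)‖ := by
          congr 1
          simp [Gs]
      _ ≤ ‖Gs a j y - y‖ + ‖a j (Gs a j y) - Gs a j y‖ := norm_add_le _ _
      _ ≤ _ := add_le_add ih h2

theorem fw_lip (P : ℕ → E → E) (Z Y : ℕ → ℝ) (hY0 : 1 ≤ Y 0) (hZ : ∀ j, 0 ≤ Z j)
    (hY : ∀ j, Y j * Z j ≤ Y (j + 1)) (h : ∀ j y y', ‖P j y - P j y'‖ ≤ Z j * ‖y - y'‖)
    (j : ℕ) (y y' : E) : ‖Fw P j y - Fw P j y'‖ ≤ Y j * ‖y - y'‖ := by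
  induction j generalizing y y' with
  | zero =>
    have := norm_nonneg (y - y')
    show ‖y - y'‖ ≤ Y 0 * ‖y - y'‖
    nlinarith
  | succ j ih =>
    have hYj := nonneg_of_rec Z Y hY0 hZ hY j
    calc ‖Fw P (j + 1) y - Fw P (j + 1) y'‖ = ‖Fw P j (P j y) - Fw P j (P j y')‖ := rfl
      _ ≤ Y j * ‖P j y - P j y'‖ := ih _ _
      _ ≤ Y j * (Z j * ‖y - y'‖) := mul_le_mul_of_nonneg_left (h j y y') hYj
      _ = (Y j * Z j) * ‖y - y'‖ := by ring
      _ ≤ Y (j + 1) * ‖y - y'‖ := mul_le_mul_of_nonneg_right (hY j) (norm_nonneg _)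

theorem gs_antilip (a : ℕ → E → E) (Z Y : ℕ → ℝ) (hY0 : 1 ≤ Y 0) (hZ : ∀ j, 0 ≤ Z j)
    (hY : ∀ j, Y j * Z j ≤ Y (j + 1)) (h : ∀ j y y', ‖y - y'‖ ≤ Z j * ‖a j y - a j y'‖)
    (j : ℕ) (y y' : E) : ‖y - y'‖ ≤ Y j * ‖Gs a j y - Gs a j y'‖ := by
  induction j with
  | zero =>
    have := norm_nonneg (y - y')
    show ‖y - y'‖ ≤ Y 0 * ‖y - y'‖
    nlinarith
  | succ j ih =>
    have hYj := nonneg_of_rec Z Y hY0 hZ hY j
    calc ‖y - y'‖ ≤ Y j * ‖Gs a j y - Gs a j y'‖ := ih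
      _ ≤ Y j * (Z j * ‖a j (Gs a j y) - a j (Gs a j y')‖) :=
          mul_le_mul_of_nonneg_left (h j _ _) hYj
      _ = (Y j * Z j) * ‖Gs a (j + 1) y - Gs a (j + 1) y'‖ := by
          rw [mul_assoc]
          rfl
      _ ≤ Y (j + 1) * ‖Gs a (j + 1) y - Gs a (j + 1) y'‖ :=
          mul_le_mul_of_nonneg_right (hY j) (norm_nonneg _)

theorem fw_limit [ProperSpace E] (P : ℕ → E → E) (ε ε' : ℕ → ℝ) (hc : ∀ j, Continuous (P j))
    (hi : ∀ j, Injective (P j)) (hd : ∀ j y, ‖P j y - y‖ ≤ ε j) (hε : Summable ε)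
    (hd' : ∀ j y, ‖Fw P (j + 1) y - Fw P j y‖ ≤ ε' j) (hε' : Summable ε') :
    ∃ Ψ : E → E, Continuous Ψ ∧ Injective Ψ ∧ TendstoUniformly (Fw P) Ψ atTop := by
  obtain ⟨Ψ, hΨ⟩ := exists_unif_limit (Fw P) ε' hd' hε'
  refine ⟨Ψ, hΨ.continuous (Frequently.of_forall (fw_cont P hc)), ?_, hΨ⟩
  intro y y' hyy
  have hε0 : ∀ j, 0 ≤ ε j := fun j => (norm_nonneg _).trans (hd j y)
  have hz : ∀ j k (x : E), ‖Fw (fun i => P (j + i)) k x - x‖ ≤ ∑' i, ε (i + j) := by
    intro j k x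
    refine (fw_disp' (fun i => P (j + i)) (fun i => ε (i + j)) (fun i w => ?_) k x).trans ?_
    · rw [add_comm i j]
      exact hd _ _
    · exact ((summable_nat_add_iff j).2 hε).sum_le_tsum _ fun i _ => hε0 _
  have key : ∀ j, ‖y - y'‖ ≤ 2 * ∑' i, ε (i + j) := by
    intro j
    set T := ∑' i, ε (i + j) with hT
    have hK : IsCompact (closedBall y T ×ˢ closedBall y' T) :=
      (isCompact_closedBall y T).prod (isCompact_closedBall y' T)
    obtain ⟨w, hw, φ, hφ, hlim⟩ := hK.tendsto_subseq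
      (x := fun k => (Fw (fun i => P (j + i)) k y, Fw (fun i => P (j + i)) k y'))
      (fun k => ⟨mem_closedBall_iff_norm.2 (hz j k y), mem_closedBall_iff_norm.2 (hz j k y')⟩)
    have hφ' : Tendsto (fun k => j + φ k) atTop atTop :=
      tendsto_atTop_mono (fun k => Nat.le_add_left (φ k) j) hφ.tendsto_atTop
    have e1 : Fw P j w.1 = Ψ y := by
      have h1 : Tendsto (fun k => Fw P j (Fw (fun i => P (j + i)) (φ k) y)) atTop
          (𝓝 (Fw P j w.1)) :=
        ((fw_cont P hc j).tendsto _).comp ((continuous_fst.tendsto w).comp hlim)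
      have h2 : Tendsto (fun k => Fw P (j + φ k) y) atTop (𝓝 (Ψ y)) :=
        (hΨ.tendsto_at y).comp hφ'
      simp only [fw_add] at h2
      exact tendsto_nhds_unique h1 h2
    have e2 : Fw P j w.2 = Ψ y' := by
      have h1 : Tendsto (fun k => Fw P j (Fw (fun i => P (j + i)) (φ k) y')) atTop
          (𝓝 (Fw P j w.2)) :=
        ((fw_cont P hc j).tendsto _).comp ((continuous_snd.tendsto w).comp hlim)
      have h2 : Tendsto (fun k => Fw P (j + φ k) y') atTop (𝓝 (Ψ y')) :=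
        (hΨ.tendsto_at y').comp hφ'
      simp only [fw_add] at h2
      exact tendsto_nhds_unique h1 h2
    have e3 : w.1 = w.2 := fw_inj P hi j (by rw [e1, e2, hyy])
    have b1 : ‖w.1 - y‖ ≤ T := mem_closedBall_iff_norm.1 hw.1
    have b2 : ‖w.2 - y'‖ ≤ T := mem_closedBall_iff_norm.1 hw.2
    calc ‖y - y'‖ = ‖(w.2 - y') - (w.1 - y)‖ := by
          rw [e3]
          congr 1
          abel
      _ ≤ ‖w.2 - y'‖ + ‖w.1 - y‖ := norm_sub_le _ _
      _ ≤ 2 * T := by linarith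
  have hlim : Tendsto (fun j => 2 * ∑' i, ε (i + j)) atTop (𝓝 (2 * 0)) :=
    (tendsto_sum_nat_add ε).const_mul 2
  have h0 : ‖y - y'‖ ≤ 2 * 0 := ge_of_tendsto' hlim key
  rw [mul_zero] at h0
  exact sub_eq_zero.1 (norm_le_zero_iff.1 h0)

theorem gs_limit [CompleteSpace E] (a : ℕ → E → E) (ε Y : ℕ → ℝ) (hc : ∀ j, Continuous (a j))
    (hd : ∀ j y, ‖a j y - y‖ ≤ ε j) (hε : ∀ j, ε (j + 1) ≤ ε j / 2) (hY0 : ∀ j, 0 ≤ Y j)
    (hY : ∀ j y y', ‖y - y'‖ ≤ Y j * ‖Gs a j y - Gs a j y'‖)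
    (hlim : Tendsto (fun j => Y j * ε j) atTop (𝓝 0)) :
    ∃ G : E → E, Continuous G ∧ Injective G ∧ TendstoUniformly (Gs a) G atTop := by
  have hε0 : ∀ j, 0 ≤ ε j := fun j => (norm_nonneg _).trans (hd j 0)
  have hgeo : ∀ j, ε j ≤ ε 0 * (1 / 2) ^ j := by
    intro j
    induction j with
    | zero => simp
    | succ j ih =>
      have := hε j
      rw [pow_succ]
      linarith
  have hsum : Summable ε :=
    Summable.of_nonneg_of_le hε0 hgeo (summable_geometric_two.mul_left _)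
  obtain ⟨G, hG⟩ := exists_unif_limit (Gs a) ε (fun j y => hd j (Gs a j y)) hsum
  refine ⟨G, hG.continuous (Frequently.of_forall (gs_cont a hc)), ?_, hG⟩
  have tail : ∀ j k (y : E), ‖Gs a (j + k) y - Gs a j y‖ ≤ 2 * ε j - 2 * ε (j + k) := by
    intro j k y
    induction k with
    | zero => simp
    | succ k ih =>
      have h1 := hd (j + k) (Gs a (j + k) y)
      have h2 := hε (j + k)
      calc ‖Gs a (j + (k + 1)) y - Gs a j y‖
          = ‖(a (j + k) (Gs a (j + k) y) - Gs a (j + k) y) + (Gs a (j + k) y - Gs a j y)‖ := by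
            congr 1
            rw [sub_add_sub_cancel]
            rfl
        _ ≤ ‖a (j + k) (Gs a (j + k) y) - Gs a (j + k) y‖ + ‖Gs a (j + k) y - Gs a j y‖ :=
            norm_add_le _ _
        _ ≤ 2 * ε j - 2 * ε (j + (k + 1)) := by
            rw [← add_assoc]
            linarith
  have tail' : ∀ j (y : E), ‖G y - Gs a j y‖ ≤ 2 * ε j := by
    intro j y
    have h1 : Tendsto (fun k => Gs a (j + k) y) atTop (𝓝 (G y)) :=
      (hG.tendsto_at y).comp (f := fun k => j + k)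
        (tendsto_atTop_mono (fun k => Nat.le_add_left k j) tendsto_id)
    have h2 : Tendsto (fun k => ‖Gs a (j + k) y - Gs a j y‖) atTop (𝓝 ‖G y - Gs a j y‖) :=
      (h1.sub_const _).norm
    refine le_of_tendsto' h2 fun k => (tail j k y).trans ?_
    have := hε0 (j + k)
    linarith
  intro y y' hyy
  have key : ∀ j, ‖y - y'‖ ≤ 4 * (Y j * ε j) := by
    intro j
    have h1 : ‖Gs a j y - Gs a j y'‖ ≤ 4 * ε j := by
      calc ‖Gs a j y - Gs a j y'‖ = ‖(G y' - Gs a j y') - (G y - Gs a j y)‖ := by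
            rw [hyy]
            congr 1
            abel
        _ ≤ ‖G y' - Gs a j y'‖ + ‖G y - Gs a j y‖ := norm_sub_le _ _
        _ ≤ 4 * ε j := by
            have := tail' j y
            have := tail' j y'
            linarith
    calc ‖y - y'‖ ≤ Y j * ‖Gs a j y - Gs a j y'‖ := hY j y y'
      _ ≤ Y j * (4 * ε j) := mul_le_mul_of_nonneg_left h1 (hY0 j)
      _ = 4 * (Y j * ε j) := by ring
  have h0 : ‖y - y'‖ ≤ 4 * 0 := ge_of_tendsto' (hlim.const_mul 4) key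
  rw [mul_zero] at h0
  exact sub_eq_zero.1 (norm_le_zero_iff.1 h0)

theorem fw_c2b (P : ℕ → E → E) (Z Y : ℕ → ℝ) (hZ : ∀ j, 2 ≤ Z j) (hY0 : 1 ≤ Y 0)
    (hY : ∀ j, Y (j + 1) = Y j * Z j) (h : ∀ j, C2B (P j) (Z j) (Y (j + 1))) (j : ℕ) :
    C2B (Fw P j) (Y j) (Y j ^ 4) := by
  induction j with
  | zero => exact C2B.id'.mono hY0 (by positivity)
  | succ j ih =>
    have h1 := ih.comp (h j)
    refine h1.mono (hY j).ge ?_
    rw [hY j]
    exact ineq1 (one_le_of_rec Z Y hZ hY0 hY j) (hZ j)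

theorem gs_c2b (a : ℕ → E → E) (Z Y : ℕ → ℝ) (hZ : ∀ j, 2 ≤ Z j) (hY0 : 1 ≤ Y 0)
    (hY : ∀ j, Y (j + 1) = Y j * Z j) (h : ∀ j, C2B (a j) (Z j) (Y (j + 1))) (j : ℕ) :
    C2B (Gs a j) (Y j) (Y j ^ 4) := by
  induction j with
  | zero => exact C2B.id'.mono hY0 (by positivity)
  | succ j ih =>
    have h1 := (h j).comp ih
    refine h1.mono (by rw [hY j, mul_comm]) ?_
    rw [hY j]
    exact ineq2 (one_le_of_rec Z Y hZ hY0 hY j) (hZ j)

end SJ

end

section

namespace SJ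
open Set Filter Topology MeasureTheory Metric Function
open scoped ENNReal

variable {X : Type*} [NormedAddCommGroup X] [NormedSpace ℝ X]

theorem cq_nonneg {I : Finset ℕ} {W : ℕ → X → ℝ} {s : ℕ → ℝ} {κ H K : ℝ} (hcs : CS I W s κ H K)
    (h : ℝ) (y : X × ℝ) : 0 ≤ cq I W s h y :=
  Finset.sum_nonneg fun n _ => mul_nonneg (hcs.w01 n _).1 (zeta_nonneg _)

namespace Cluster1X

theorem zeta_one' {u h : ℝ} (h0 : 0 < h) (hu : |u| ≤ 2 * h) : zeta (u / (2 * h)) = 1 := by
  apply zeta_one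
  rw [abs_div, abs_of_pos (by positivity : 0 < 2 * h), div_le_one (by positivity)]
  exact hu

theorem zeta_zero' {u h : ℝ} (h0 : 0 < h) (hu : 4 * h ≤ |u|) : zeta (u / (2 * h)) = 0 := by
  apply zeta_zero
  rw [abs_div, abs_of_pos (by positivity : 0 < 2 * h), le_div_iff₀ (by positivity)]
  linarith

theorem mean {I : Finset ℕ} {W : ℕ → X → ℝ} {s : ℕ → ℝ} {κ H K h : ℝ}
    (hcs : CS I W s κ H K) (y : X × ℝ) (hq : 1 ≤ cq I W s h y) (a r : ℝ)
    (hr : ∀ n ∈ I, W n y.1 * zeta ((y.2 - s n) / (2 * h)) ≠ 0 → |y.2 - s n - a| ≤ r) :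
    |ce I W s h y - a| ≤ r := by
  have e1 := mul_inv1_eq hq
  have p := inv1_pos (cq I W s h y)
  have e2 : ce I W s h y - a = (∑ n ∈ I, W n y.1 * zeta ((y.2 - s n) / (2 * h)) *
      (y.2 - s n - a)) * inv1 (cq I W s h y) := by
    have : ∑ n ∈ I, W n y.1 * zeta ((y.2 - s n) / (2 * h)) * (y.2 - s n - a) =
        cm I W s h y - a * cq I W s h y := by
      unfold cm cq
      rw [Finset.mul_sum, ← Finset.sum_sub_distrib]
      exact Finset.sum_congr rfl fun n _ => by ring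
    rw [this, sub_mul, mul_assoc, e1, mul_one]; rfl
  have e3 : |∑ n ∈ I, W n y.1 * zeta ((y.2 - s n) / (2 * h)) * (y.2 - s n - a)| ≤
      r * cq I W s h y := by
    refine (Finset.abs_sum_le_sum_abs _ _).trans ?_
    unfold cq
    rw [Finset.mul_sum]
    refine Finset.sum_le_sum fun n hn => ?_
    have w0 : 0 ≤ W n y.1 * zeta ((y.2 - s n) / (2 * h)) :=
      mul_nonneg (hcs.w01 n _).1 (zeta_nonneg _)
    rw [abs_mul, abs_of_nonneg w0]
    by_cases c : W n y.1 * zeta ((y.2 - s n) / (2 * h)) = 0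
    · rw [c]; simp
    · rw [mul_comm r]; exact mul_le_mul_of_nonneg_left (hr n hn c) w0
  rw [e2, abs_mul, abs_of_pos p]
  calc _ ≤ r * cq I W s h y * inv1 (cq I W s h y) := mul_le_mul_of_nonneg_right e3 p.le
    _ = r := by rw [mul_assoc, e1, mul_one]

theorem near {u h c : ℝ} (h0 : 0 < h) (hu : c * zeta (u / (2 * h)) ≠ 0) : |u| < 4 * h := by
  by_contra k
  exact hu (by rw [zeta_zero' h0 (not_lt.1 k), mul_zero])

end Cluster1X


theorem cluster_cov {I : Finset ℕ} {W : ℕ → X → ℝ} {s : ℕ → ℝ} {κ H K h h' : ℝ}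
    (hcs : CS I W s κ H K) (h1 : 16 * κ ≤ h) (h2 : h ≤ h') (h3 : 10 * h' ≤ H) (y : X × ℝ) (t : ℝ)
    (hq : 1 ≤ cq I W s h y) (he : |ce I W s h y| ≤ h)
    (ht : |t - (y.2 - ce I W s h y)| ≤ 3 * h' / 2) :
    cq I W s h' (y.1, t) = cq I W s h y ∧ ce I W s h' (y.1, t) = ce I W s h y + (t - y.2) := by
  have k0 := hcs.kpos
  have h0 : 0 < h := by linarith
  have h0' : 0 < h' := by linarith
  obtain ⟨n0, hn0, w0⟩ : ∃ n0 ∈ I, W n0 y.1 * zeta ((y.2 - s n0) / (2 * h)) ≠ 0 := by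
    by_contra k
    push Not at k
    have : cq I W s h y = 0 := Finset.sum_eq_zero k
    linarith
  have sp : ∀ n ∈ I, W n y.1 ≠ 0 → |s n - s n0| ≤ 4 * κ ∨ H ≤ |s n - s n0| := fun n hn hw =>
    hcs.sep n hn n0 hn0 y.1 (subset_tsupport _ hw) (subset_tsupport _ (left_ne_zero_of_mul w0))
  have m := Cluster1X.mean hcs y hq (y.2 - s n0) (4 * κ) fun n hn hw => by
    have a1 := abs_lt.1 (Cluster1X.near h0 hw)
    have a2 := abs_lt.1 (Cluster1X.near h0 w0)
    rw [show y.2 - s n - (y.2 - s n0) = -(s n - s n0) by ring, abs_neg]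
    refine (sp n hn (left_ne_zero_of_mul hw)).resolve_right (not_le.2 (abs_lt.2 ⟨?_, ?_⟩)) <;>
      linarith [a1.1, a1.2, a2.1, a2.2]
  have m' := abs_le.1 m
  have he' := abs_le.1 he
  have ht' := abs_le.1 ht
  have term : ∀ n ∈ I, W n y.1 * zeta ((t - s n) / (2 * h')) =
      W n y.1 * zeta ((y.2 - s n) / (2 * h)) := by
    intro n hn
    by_cases c : W n y.1 = 0
    · rw [c, zero_mul, zero_mul]
    rcases sp n hn c with k | k
    · have k' := abs_le.1 k
      rw [Cluster1X.zeta_one' h0' (abs_le.2 ⟨by linarith [k'.1, k'.2], by linarith [k'.1, k'.2]⟩),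
        Cluster1X.zeta_one' h0 (abs_le.2 ⟨by linarith [k'.1, k'.2], by linarith [k'.1, k'.2]⟩)]
    · rcases le_abs.1 k with k | k
      · rw [Cluster1X.zeta_zero' h0' (le_abs.2 (Or.inr (by linarith))),
          Cluster1X.zeta_zero' h0 (le_abs.2 (Or.inr (by linarith)))]
      · rw [Cluster1X.zeta_zero' h0' (le_abs.2 (Or.inl (by linarith))),
          Cluster1X.zeta_zero' h0 (le_abs.2 (Or.inl (by linarith)))]
  have e1 : cq I W s h' (y.1, t) = cq I W s h y := Finset.sum_congr rfl term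
  refine ⟨e1, ?_⟩
  have e2 : cm I W s h' (y.1, t) = cm I W s h y + cq I W s h y * (t - y.2) := by
    unfold cm cq
    rw [Finset.sum_mul, ← Finset.sum_add_distrib]
    refine Finset.sum_congr rfl fun n hn => ?_
    have := term n hn
    dsimp only
    rw [← mul_assoc, this]; ring
  have e3 := mul_inv1_eq hq
  unfold ce
  rw [e1, e2, add_mul, mul_right_comm, e3, one_mul]

theorem cluster_top {I : Finset ℕ} {W : ℕ → X → ℝ} {s : ℕ → ℝ} {h z : ℝ} (h0 : 0 < h)
    (hs : ∀ n ∈ I, s n ≤ z) (y : X × ℝ) (hy : z + 4 * h ≤ y.2) :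
    cq I W s h y = 0 ∧ ce I W s h y = 0 := by
  have z0 : ∀ n ∈ I, zeta ((y.2 - s n) / (2 * h)) = 0 := fun n hn =>
    Cluster1X.zeta_zero' h0 (le_abs.2 (Or.inl (by linarith [hs n hn])))
  refine ⟨Finset.sum_eq_zero fun n hn => by rw [z0 n hn, mul_zero], ?_⟩
  have : cm I W s h y = 0 := Finset.sum_eq_zero fun n hn => by rw [z0 n hn, zero_mul, mul_zero]
  unfold ce
  rw [this, zero_mul]

theorem cluster_good {I : Finset ℕ} {W : ℕ → X → ℝ} {s : ℕ → ℝ} {κ H K h : ℝ}
    (hcs : CS I W s κ H K) (h1 : 16 * κ ≤ h) (h3 : 10 * h ≤ H) (y : X × ℝ) (J : Finset ℕ)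
    (hJ : J ⊆ I) (h5 : 5 ≤ J.card) (hW : ∀ n ∈ J, W n y.1 = 1 ∧ |s n - y.2| ≤ κ / 2) :
    5 ≤ cq I W s h y ∧ |ce I W s h y| ≤ 5 * κ := by
  have k0 := hcs.kpos
  have h0 : 0 < h := by linarith
  have q5 : 5 ≤ cq I W s h y := by
    have a1 : ∑ n ∈ J, W n y.1 * zeta ((y.2 - s n) / (2 * h)) ≤ cq I W s h y :=
      Finset.sum_le_sum_of_subset_of_nonneg hJ fun n _ _ =>
        mul_nonneg (hcs.w01 n _).1 (zeta_nonneg _)
    have a2 : ∑ n ∈ J, W n y.1 * zeta ((y.2 - s n) / (2 * h)) = ∑ n ∈ J, (1 : ℝ) :=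
      Finset.sum_congr rfl fun n hn => by
        rw [(hW n hn).1, Cluster1X.zeta_one' h0 (by
          rw [abs_sub_comm]; linarith [(hW n hn).2]), one_mul]
    rw [a2, Finset.sum_const, nsmul_eq_mul, mul_one] at a1
    have : (5 : ℝ) ≤ J.card := by exact_mod_cast h5
    linarith
  refine ⟨q5, ?_⟩
  obtain ⟨n0, hn0⟩ : J.Nonempty := Finset.card_pos.1 (by omega)
  have b := abs_le.1 (hW n0 hn0).2
  have m := Cluster1X.mean hcs y (h := h) (by linarith) 0 (5 * κ) fun n hn hw => by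
    have a1 := abs_lt.1 (Cluster1X.near h0 hw)
    have sp := hcs.sep n hn n0 (hJ hn0) y.1 (subset_tsupport _ (left_ne_zero_of_mul hw))
      (subset_tsupport _ (by rw [mem_support, (hW n0 hn0).1]; exact one_ne_zero))
    have := abs_le.1 (sp.resolve_right (not_le.2 (abs_lt.2
      ⟨by linarith [a1.1, a1.2, b.1, b.2], by linarith [a1.1, a1.2, b.1, b.2]⟩)))
    exact abs_le.2 ⟨by linarith [this.1, this.2, b.1, b.2], by linarith [this.1, this.2, b.1, b.2]⟩
  simpa using m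

end SJ

end

section

namespace SJ
open Set Filter Topology MeasureTheory Metric Function
open scoped ENNReal

variable {X : Type*} [NormedAddCommGroup X] [NormedSpace ℝ X]

namespace Cluster2X

theorem abs_zeta_le (u : ℝ) : |zeta u| ≤ 1 := by
  rw [abs_of_nonneg (zeta_nonneg u)]; exact zeta_le_one u

theorem g_zero {u : ℝ} (h : 2 ≤ |u|) : zeta u * u = 0 := by rw [zeta_zero h, zero_mul]

theorem abs_g_le (u : ℝ) : |zeta u * u| ≤ 2 * zeta u := by
  by_cases h : 2 ≤ |u|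
  · rw [zeta_zero h]; simp
  · push Not at h
    rw [abs_mul, abs_of_nonneg (zeta_nonneg u)]
    nlinarith [zeta_nonneg u, abs_nonneg u]

theorem g_c2b {K0 : ℝ} (hz : C2B zeta K0 K0) :
    C2B (fun u : ℝ => zeta u * u) (2 * K0 + 1) (4 * K0) := by
  have hK0 : 0 ≤ K0 := hz.nonneg1
  have hid : C2B (fun x : ℝ => x) 1 0 := C2B.id'
  have hloc : ∀ u : ℝ, 2 < |u| → (fun u : ℝ => zeta u * u) =ᶠ[𝓝 u] fun _ => (0 : ℝ) := by
    intro u hu
    have ho : IsOpen {v : ℝ | 2 < |v|} := isOpen_lt continuous_const continuous_abs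
    filter_upwards [ho.mem_nhds hu] with v hv
    exact g_zero (le_of_lt hv)
  refine ⟨hz.cd.mul contDiff_id, fun u => ?_, fun u => ?_⟩
  · by_cases h : 2 < |u|
    · rw [(hloc u h).fderiv_eq]; simp; positivity
    · push Not at h
      have h1 := norm_fderiv_smul_le' (φ := zeta) (f := fun x : ℝ => x) hz.cd hid.cd u
      simp only [smul_eq_mul] at h1
      refine h1.trans ?_
      have a1 := hz.d1 u
      have a2 := hid.d1 u
      have a3 := abs_zeta_le u
      have a4 : ‖u‖ ≤ 2 := h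
      have b1 : ‖fderiv ℝ zeta u‖ * ‖u‖ ≤ K0 * 2 :=
        mul_le_mul a1 a4 (norm_nonneg _) hK0
      have b2 : |zeta u| * ‖fderiv ℝ (fun x : ℝ => x) u‖ ≤ 1 * 1 :=
        mul_le_mul a3 a2 (norm_nonneg _) zero_le_one
      linarith
  · by_cases h : 2 < |u|
    · refine norm_D2_le_of_apply (by positivity) fun v w => ?_
      rw [D2_congr (hloc u h), D2_const]; simp; positivity
    · push Not at h
      have h1 := norm_D2_smul_le (φ := zeta) (f := fun x : ℝ => x) hz.cd hid.cd u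
      simp only [smul_eq_mul] at h1
      refine h1.trans ?_
      have a1 := hz.d1 u
      have a1' := hz.d2 u
      have a2 := hid.d1 u
      have a2' := hid.d2 u
      have a3 := abs_zeta_le u
      have a4 : ‖u‖ ≤ 2 := h
      have b1 : ‖D2 zeta u‖ * ‖u‖ ≤ K0 * 2 :=
        mul_le_mul a1' a4 (norm_nonneg _) hK0
      have b2 : ‖fderiv ℝ zeta u‖ * ‖fderiv ℝ (fun x : ℝ => x) u‖ ≤ K0 * 1 :=
        mul_le_mul a1 a2 (norm_nonneg _) hK0
      have b3 : |zeta u| * ‖D2 (fun x : ℝ => x) u‖ ≤ 1 * 0 :=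
        mul_le_mul a3 a2' (ContinuousLinearMap.opNorm_nonneg _) zero_le_one
      nlinarith

open Classical in
theorem cnt {I : Finset ℕ} {W : ℕ → X → ℝ} {s : ℕ → ℝ} {κ H K h : ℝ} (hK : 1 ≤ K)
    (cs : CS I W s κ H K) (h1 : 16 * κ ≤ h) (h2 : 10 * h ≤ H) (y : X × ℝ) :
    ((I.filter fun n => y.1 ∈ tsupport (W n) ∧ |y.2 - s n| ≤ 4 * h).card : ℝ) ≤ K := by
  have hκ := cs.kpos
  rcases (I.filter fun n => y.1 ∈ tsupport (W n) ∧ |y.2 - s n| ≤ 4 * h).eq_empty_or_nonempty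
    with he | ⟨n0, hn0⟩
  · rw [he]; simp; linarith
  · refine le_trans ?_ (cs.cnt (s n0))
    rw [Finset.mem_filter] at hn0
    have hsub : (I.filter fun n => y.1 ∈ tsupport (W n) ∧ |y.2 - s n| ≤ 4 * h) ⊆
        I.filter fun n => |s n - s n0| ≤ 4 * κ := by
      intro n hn
      rw [Finset.mem_filter] at hn ⊢
      refine ⟨hn.1, ?_⟩
      rcases cs.sep n hn.1 n0 hn0.1 y.1 hn.2.1 hn0.2.1 with h3 | h3
      · exact h3
      · exfalso
        have e1 := abs_le.mp hn.2.2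
        have e2 := abs_le.mp hn0.2.2
        have : |s n - s n0| ≤ 8 * h := abs_le.mpr ⟨by linarith, by linarith⟩
        linarith
    exact_mod_cast Finset.card_le_card hsub

omit [NormedSpace ℝ X] in
theorem tsupp_sub {W : X → ℝ} {t h : ℝ} (hh : 0 < h) {p : ℝ → ℝ}
    (hp0 : ∀ u, 2 ≤ |u| → p u = 0) {y : X × ℝ}
    (hy : y ∈ tsupport fun y : X × ℝ => W y.1 * p ((y.2 - t) / (2 * h))) :
    y.1 ∈ tsupport W ∧ |y.2 - t| ≤ 4 * h := by
  have hcl : IsClosed {y : X × ℝ | y.1 ∈ tsupport W ∧ |y.2 - t| ≤ 4 * h} := by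
    have c1 : IsClosed {y : X × ℝ | y.1 ∈ tsupport W} :=
      (isClosed_tsupport W).preimage continuous_fst
    have c2 : IsClosed {y : X × ℝ | |y.2 - t| ≤ 4 * h} :=
      isClosed_le (by fun_prop) continuous_const
    exact c1.inter c2
  refine closure_minimal (fun z hz => ?_) hcl hy
  rw [mem_support] at hz
  refine ⟨subset_tsupport _ (left_ne_zero_of_mul hz), ?_⟩
  by_contra hc
  push Not at hc
  apply right_ne_zero_of_mul hz
  apply hp0
  rw [abs_div, abs_of_pos (by positivity : (0 : ℝ) < 2 * h), le_div_iff₀ (by positivity)]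
  linarith

theorem sum_c2b {I : Finset ℕ} {W : ℕ → X → ℝ} {s : ℕ → ℝ} {κ H K h : ℝ} (hK : 1 ≤ K)
    (cs : CS I W s κ H K) (h1 : 16 * κ ≤ h) (h2 : 10 * h ≤ H) {p : ℝ → ℝ} {P : ℝ}
    (hp : C2B p P P) (hpb : ∀ u, |p u| ≤ P) (hp0 : ∀ u, 2 ≤ |u| → p u = 0) :
    C2B (fun y : X × ℝ => ∑ n ∈ I, W n y.1 * p ((y.2 - s n) / (2 * h)))
      (K * (3 * K * P + P) / κ) (K * (3 * K * P + P) / κ ^ 2) := by
  classical
  have hκ := cs.kpos
  have hh : 0 < h := by linarith
  have hP : 0 ≤ P := hp.nonneg1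
  have hterm : ∀ n ∈ I, C2B (fun y : X × ℝ => W n y.1 * p ((y.2 - s n) / (2 * h)))
      ((3 * K * P + P) / κ) ((3 * K * P + P) / κ ^ 2) := by
    intro n _
    have w1 : C2B (fun y : X × ℝ => W n y.1) (K / κ) (K / κ ^ 2) :=
      ((cs.wb n).comp (C2B.fst' (E := X) (F := ℝ))).mono (by simp) (by simp)
    have v1 : C2B (fun y : X × ℝ => (y.2 - s n) / (2 * h)) (1 / κ) 0 := by
      refine (C2B.div_const (by positivity : (0 : ℝ) < 2 * h)
        ((C2B.snd' (E := X) (F := ℝ)).sub_const (s n))).mono ?_ (by simp)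
      exact one_div_le_one_div_of_le hκ (by linarith)
    have p1 : C2B (fun y : X × ℝ => p ((y.2 - s n) / (2 * h))) (P / κ) (P / κ ^ 2) :=
      (hp.comp v1).mono (le_of_eq (by ring)) (le_of_eq (by field_simp; ring))
    have w0 : ∀ y : X × ℝ, |W n y.1| ≤ 1 := fun y => by
      rw [abs_of_nonneg (cs.w01 n y.1).1]; exact (cs.w01 n y.1).2
    refine (C2B.mul w0 w1 (fun y => hpb _) p1).mono ?_ (le_of_eq (by field_simp; ring))
    have : K / κ * P + 1 * (P / κ) = (K * P + P) / κ := by field_simp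
    rw [this]
    have : 0 ≤ K * P := by positivity
    gcongr
    linarith
  have hcard : ∀ y : X × ℝ, ((I.filter fun n => y ∈ tsupport
      (fun y : X × ℝ => W n y.1 * p ((y.2 - s n) / (2 * h)))).card : ℝ) ≤ K := by
    intro y
    refine le_trans ?_ (cnt hK cs h1 h2 y)
    have hsub : (I.filter fun n => y ∈ tsupport
        (fun y : X × ℝ => W n y.1 * p ((y.2 - s n) / (2 * h)))) ⊆
        I.filter fun n => y.1 ∈ tsupport (W n) ∧ |y.2 - s n| ≤ 4 * h := by
      intro n hn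
      rw [Finset.mem_filter] at hn ⊢
      exact ⟨hn.1, tsupp_sub hh hp0 hn.2⟩
    exact_mod_cast Finset.card_le_card hsub
  have := C2B.sum_few I (f := fun n (y : X × ℝ) => W n y.1 * p ((y.2 - s n) / (2 * h)))
    (by positivity) (by positivity) hterm (fun y => by convert hcard y)
  exact this.mono (le_of_eq (by ring)) (le_of_eq (by ring))

theorem cq_le {I : Finset ℕ} {W : ℕ → X → ℝ} {s : ℕ → ℝ} {κ H K h : ℝ} (hK : 1 ≤ K)
    (cs : CS I W s κ H K) (h1 : 16 * κ ≤ h) (h2 : 10 * h ≤ H) (y : X × ℝ) :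
    cq I W s h y ≤ K := by
  classical
  have hκ := cs.kpos
  have hh : 0 < h := by linarith
  refine le_trans ?_ (cnt hK cs h1 h2 y)
  unfold cq
  rw [Finset.card_filter]
  push_cast
  refine Finset.sum_le_sum fun n _ => ?_
  split_ifs with hc
  · have := (cs.w01 n y.1)
    have a := zeta_nonneg ((y.2 - s n) / (2 * h))
    have b := zeta_le_one ((y.2 - s n) / (2 * h))
    nlinarith
  · by_contra hne
    apply hc
    refine tsupp_sub (W := W n) (t := s n) hh (p := zeta) (fun u hu => zeta_zero hu) ?_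
    apply subset_tsupport
    rw [mem_support]
    intro h0
    exact hne (le_of_eq h0)

omit [NormedAddCommGroup X] [NormedSpace ℝ X] in
theorem cm_eq (I : Finset ℕ) (W : ℕ → X → ℝ) (s : ℕ → ℝ) {h : ℝ} (hh : 0 < h) (y : X × ℝ) :
    cm I W s h y = 2 * h * ∑ n ∈ I, W n y.1 *
      (zeta ((y.2 - s n) / (2 * h)) * ((y.2 - s n) / (2 * h))) := by
  unfold cm
  rw [Finset.mul_sum]
  refine Finset.sum_congr rfl fun n _ => ?_
  field_simp

theorem abs_cm_le {I : Finset ℕ} {W : ℕ → X → ℝ} {s : ℕ → ℝ} {κ H K h : ℝ}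
    (cs : CS I W s κ H K) (hh : 0 < h) (y : X × ℝ) :
    |cm I W s h y| ≤ 4 * h * cq I W s h y := by
  rw [cm_eq I W s hh y, abs_mul, abs_of_pos (by positivity : (0 : ℝ) < 2 * h)]
  have : |∑ n ∈ I, W n y.1 * (zeta ((y.2 - s n) / (2 * h)) * ((y.2 - s n) / (2 * h)))| ≤
      2 * cq I W s h y := by
    refine (Finset.abs_sum_le_sum_abs _ _).trans ?_
    unfold cq
    rw [Finset.mul_sum]
    refine Finset.sum_le_sum fun n _ => ?_
    rw [abs_mul, abs_of_nonneg (cs.w01 n y.1).1]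
    have := mul_le_mul_of_nonneg_left (abs_g_le ((y.2 - s n) / (2 * h))) (cs.w01 n y.1).1
    linarith
  nlinarith

end Cluster2X

open Cluster2X in
theorem cluster_bounds (K : ℝ) (hK : 1 ≤ K) : ∃ K' : ℝ, 1 ≤ K' ∧
    ∀ (I : Finset ℕ) (W : ℕ → X → ℝ) (s : ℕ → ℝ) (κ H h : ℝ), CS I W s κ H K → 16 * κ ≤ h →
      10 * h ≤ H → C2B (cq I W s h) (K' / κ) (K' / κ ^ 2) ∧ (∀ y, |ce I W s h y| ≤ 4 * h) ∧
        C2B (ce I W s h) (K' * h / κ) (K' * h / κ ^ 2) := by
  obtain ⟨K0, hK0, -, hz, hi⟩ := exists_K0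
  obtain ⟨P, hP⟩ : ∃ P : ℝ, P = 4 * K0 + 2 := ⟨_, rfl⟩
  obtain ⟨N, hN⟩ : ∃ N : ℝ, N = K * (3 * K * P + P) := ⟨_, rfl⟩
  have hP1 : 1 ≤ P := by linarith
  have hN1 : 1 ≤ N := by
    have : 1 ≤ 3 * K * P + P := by nlinarith
    rw [hN]; nlinarith
  have hKK : 0 ≤ K * K0 := by positivity
  have t1 : 0 ≤ N ^ 2 * K0 := by positivity
  have t2 : 0 ≤ K * K0 * N ^ 2 := by positivity
  have t3 : 0 ≤ K * K0 * N := by positivity
  refine ⟨4 * N + 4 * (N ^ 2 * K0) + 4 * (K * K0 * N ^ 2) + 4 * (K * K0 * N), by linarith, ?_⟩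
  intro I W s κ H h cs h1 h2
  have hκ := cs.kpos
  have hh : 0 < h := by linarith
  have hq : C2B (cq I W s h) (N / κ) (N / κ ^ 2) := by
    rw [hN]
    exact sum_c2b hK cs h1 h2 (p := zeta) (hz.mono (by linarith) (by linarith))
      (fun u => (abs_zeta_le u).trans hP1) (fun u hu => zeta_zero hu)
  have hm : C2B (cm I W s h) (2 * h * (N / κ)) (2 * h * (N / κ ^ 2)) := by
    have a := sum_c2b hK cs h1 h2 (p := fun u => zeta u * u) (P := P)
      ((g_c2b hz).mono (by linarith) (by linarith))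
      (fun u => (abs_g_le u).trans (by linarith [zeta_le_one u])) (fun u hu => g_zero hu)
    rw [← hN] at a
    have b := a.const_mul (2 * h)
    rw [abs_of_pos (by positivity : (0 : ℝ) < 2 * h)] at b
    have e : cm I W s h = fun y => 2 * h * ∑ n ∈ I, W n y.1 *
        (zeta ((y.2 - s n) / (2 * h)) * ((y.2 - s n) / (2 * h))) := by
      funext y; exact cm_eq I W s hh y
    rw [e]; exact b
  have hm0 : ∀ y, |cm I W s h y| ≤ 4 * h * K := fun y =>
    (abs_cm_le cs hh y).trans (mul_le_mul_of_nonneg_left (cq_le hK cs h1 h2 y) (by positivity))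
  have hi0 : ∀ y, |inv1 (cq I W s h y)| ≤ 2 := fun y => by
    rw [abs_of_pos (inv1_pos _)]; exact inv1_le_two _
  refine ⟨hq.mono ?_ ?_, fun y => ?_, ?_⟩
  · gcongr; linarith
  · gcongr; linarith
  · unfold ce
    rw [abs_mul, abs_of_pos (inv1_pos _)]
    have a := mul_le_mul_of_nonneg_right (abs_cm_le cs hh y) (inv1_pos (cq I W s h y)).le
    have b := mul_le_mul_of_nonneg_left (mul_inv1_le (cq I W s h y)) (by positivity : 0 ≤ 4 * h)
    nlinarith
  · have a := C2B.mul hm0 hm hi0 (hi.comp hq)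
    refine a.mono ?_ (le_of_eq (by field_simp; ring))
    have : 2 * h * (N / κ) * 2 + 4 * h * K * (K0 * (N / κ)) =
        (4 * N + 4 * (K * K0 * N)) * h / κ := by field_simp; ring
    rw [this]
    gcongr
    linarith

end SJ

end

section

namespace SK
open SJ Set Filter Topology MeasureTheory Metric Function
open scoped ENNReal

namespace ClusX

theorem num {Kr Kh N P P' R ε lam : ℝ} (hr : 16 ≤ Kr) (hh : 1 ≤ Kh)
    (h : FPar (Kr + 2 * Kh) N P P' R ε lam) :
    0 < R ∧ 16 * P ^ 2 ≤ R ∧ Kr ≤ N * P' ∧ 16 * Kr ≤ P ^ 2 ∧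
      2 * (Kh * (N * P')) + 1 ≤ P ^ 2 ∧ Kr ≤ R := by
  have h1 := h.hN
  have h2 := h.P1
  have h3 := h.PP
  have h4 := h.sep
  have h5 := h.hR
  have a : N ≤ N * P' := le_mul_of_one_le_right (by linarith) (by linarith)
  obtain ⟨M, hM⟩ : ∃ M, M = N * P' := ⟨_, rfl⟩
  rw [mul_assoc, ← hM] at h4
  rw [mul_assoc (Kr + 2 * Kh), ← hM] at h5
  rw [← hM] at a ⊢
  have b : 16 * Kr ≤ Kr * M := by nlinarith
  have c : 0 ≤ Kh * M := by nlinarith
  have d : 1 ≤ P ^ 2 := by nlinarith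
  have e : 16 * P ^ 2 ≤ R := by nlinarith
  refine ⟨by linarith, e, by linarith, by nlinarith, by nlinarith, by nlinarith⟩

end ClusX

theorem clus (hG : Grid2Stmt) (hE : E2Stmt) : ClusStmt := by
  intro ι _ _ m K1 Kr Kh hK1 hr hh
  obtain ⟨K, hK, hg⟩ := hG ι m K1 hK1
  obtain ⟨K', hK', hb⟩ := cluster_bounds (X := ι → ℝ) K hK
  obtain ⟨Ke, hKe, he⟩ := hE (ι → ℝ) K Kr Kh hK hr hh
  have a0 : K' ≤ K' * Kr := le_mul_of_one_le_right (by linarith) (by linarith)
  refine ⟨K' * Kr + Ke, Kr + 2 * Kh, by linarith, by linarith, ?_⟩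
  intro N P P' R ε lam ℓ p A Rq hF hc hp l0 l1 hR
  obtain ⟨n0, n1, n2, n3, n4, n5⟩ := ClusX.num hr hh hF
  obtain ⟨u, hu⟩ : ∃ u, u = ℓ / R := ⟨_, rfl⟩
  have u0 : 0 < u := by rw [hu]; positivity
  have u1 : ℓ = u * R := by rw [hu]; field_simp
  rw [← hu]
  obtain ⟨I, W, s, cs, hs, hz⟩ := hg p P u ℓ A Rq hc hF.P1 hp u0 (by rw [u1]; nlinarith) l1 hR
  have b1 : 16 * (u / 16) ≤ Kr * (u / 16) := by gcongr
  have b2 : 10 * (Kr * (u / 16)) ≤ u * P ^ 2 - u / 4 := by nlinarith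
  have b3 : 0 < Kr * (u / 16) := by linarith
  have b4 : 0 ≤ N * P' * (u / 16) := mul_nonneg (by linarith) (by linarith)
  obtain ⟨c1, c2, c3⟩ := hb I W s _ _ _ cs b1 b2
  obtain ⟨e2, d1, d2, d3⟩ := he I W s _ _ (N * P' * (u / 16)) cs (by gcongr) (by
    have : 0 ≤ Kh * (N * P') := mul_nonneg (by linarith) (by linarith)
    nlinarith)
  refine ⟨cq I W s (Kr * (u / 16)), ce I W s (Kr * (u / 16)), e2,
    ⟨c1.mono (by gcongr; linarith) (by gcongr; linarith), c3.mono ?_ ?_,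
      fun y t => cluster_cov cs b1 le_rfl b2 y t⟩, fun y => (c2 y).trans_eq (by ring),
    fun y hy => cluster_top b3 hs y ?_, fun z z1 z2 => ?_, d1,
    d2.mono (by gcongr; linarith) (by gcongr; linarith), fun y t k1 k2 k3 => ?_⟩
  · rw [← mul_assoc, mul_div_assoc, div_self (by positivity), mul_one]
    linarith
  · rw [show K' * (Kr * (u / 16)) / (u / 16) ^ 2 = K' * Kr / (u / 16) by field_simp]
    gcongr
    linarith
  · have : Kr * u ≤ ℓ := by rw [u1, mul_comm]; gcongr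
    linarith
  · rcases hz z z1 z2 with ⟨J, j1, j2, j3⟩ | k
    · exact Or.inl (cluster_good cs b1 b2 z J j1 j2 j3)
    · exact Or.inr k
  · obtain ⟨k4, k5⟩ := d3 y t k1 k2 k3
    exact ⟨k4.trans (by linarith), k5⟩

end SK

end

section

namespace SK
open SJ Set Filter Topology MeasureTheory Metric Function
open scoped ENNReal

theorem clus2 (hG : Grid3Stmt) (hE : E2Stmt) : Clus2Stmt := by
  intro ι _ _ m K1 Kr Kh hK1 hr hh
  obtain ⟨K, hK, hg⟩ := hG ι m K1 hK1
  obtain ⟨K', hK', hb⟩ := cluster_bounds (X := ι → ℝ) K hK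
  obtain ⟨Ke, hKe, he⟩ := hE (ι → ℝ) K Kr Kh hK hr hh
  have a0 : K' ≤ K' * Kr := le_mul_of_one_le_right (by linarith) (by linarith)
  refine ⟨K' * Kr + Ke, Kr + 2 * Kh, by linarith, by linarith, ?_⟩
  intro N P P' R ε lam ℓ p A Rq hF hc hp l0 l1 hR
  obtain ⟨n0, n1, n2, n3, n4, n5⟩ := ClusX.num hr hh hF
  obtain ⟨u, hu⟩ : ∃ u, u = ℓ / R := ⟨_, rfl⟩
  have u0 : 0 < u := by rw [hu]; positivity
  have u1 : ℓ = u * R := by rw [hu]; field_simp
  rw [← hu]
  obtain ⟨I, W, s, cs, hs, hz⟩ := hg p P u ℓ A Rq hc hF.P1 hp u0 (by rw [u1]; nlinarith) l1 hR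
  have b1 : 16 * (u / 16) ≤ Kr * (u / 16) := by gcongr
  have b2 : 10 * (Kr * (u / 16)) ≤ u * P ^ 2 - u / 4 := by nlinarith
  have b3 : 0 < Kr * (u / 16) := by linarith
  have b4 : 0 ≤ N * P' * (u / 16) := mul_nonneg (by linarith) (by linarith)
  obtain ⟨c1, c2, c3⟩ := hb I W s _ _ _ cs b1 b2
  obtain ⟨e2, d1, d2, d3⟩ := he I W s _ _ (N * P' * (u / 16)) cs (by gcongr) (by
    have : 0 ≤ Kh * (N * P') := mul_nonneg (by linarith) (by linarith)
    nlinarith)
  refine ⟨cq I W s (Kr * (u / 16)), ce I W s (Kr * (u / 16)), e2,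
    ⟨c1.mono (by gcongr; linarith) (by gcongr; linarith), c3.mono ?_ ?_,
      fun y t => cluster_cov cs b1 le_rfl b2 y t⟩, fun y => (c2 y).trans_eq (by ring),
    fun y hy => cluster_top b3 hs y ?_, fun z z1 z2 => ?_, d1,
    d2.mono (by gcongr; linarith) (by gcongr; linarith), fun y t k1 k2 k3 => ?_⟩
  · rw [← mul_assoc, mul_div_assoc, div_self (by positivity), mul_one]
    linarith
  · rw [show K' * (Kr * (u / 16)) / (u / 16) ^ 2 = K' * Kr / (u / 16) by field_simp]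
    gcongr
    linarith
  · have : Kr * u ≤ ℓ := by rw [u1, mul_comm]; gcongr
    linarith
  · rcases hz z z1 z2 with ⟨J, j1, j2, j3⟩ | k
    · exact Or.inl (cluster_good cs b1 b2 z J j1 j2 j3)
    · exact Or.inr k
  · obtain ⟨k4, k5⟩ := d3 y t k1 k2 k3
    exact ⟨k4.trans (by linarith), k5⟩

end SK

end

section

namespace SJ
open Set Filter Topology MeasureTheory Metric Function
open scoped ENNReal

namespace LevOneX

theorem sq_snd {X : Type*} [NormedAddCommGroup X] (d : X × ℝ → X) (y : X × ℝ) :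
    (sq d y).2 = y.2 := by simp [sq]

theorem norm_sq_sub {X : Type*} [NormedAddCommGroup X] (d : X × ℝ → X) (y : X × ℝ) :
    ‖sq d y - y‖ = ‖d y‖ := by simp [sq]

theorem norm_rho_sub {X : Type*} [NormedAddCommGroup X] (e : X × ℝ → ℝ) (y : X × ℝ) :
    ‖rho e y - y‖ = 2 * |e y| := by
  have : rho e y - y = (0, -(2 * e y)) := by
    ext
    · simp [rho]
    · simp [rho]
  rw [this, Prod.norm_mk, norm_zero, norm_neg, max_eq_right (norm_nonneg _), Real.norm_eq_abs,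
    abs_mul, abs_two]

theorem sq_c2b {X : Type*} [NormedAddCommGroup X] [NormedSpace ℝ X] {d : X × ℝ → X} {A B : ℝ}
    (h : C2B d A B) : C2B (sq d) (1 + A) (0 + B) :=
  C2B.sub C2B.id' (h.prodMk ((C2B.const (0 : ℝ)).mono h.nonneg1 h.nonneg2))

theorem rho_c2b {X : Type*} [NormedAddCommGroup X] [NormedSpace ℝ X] {e : X × ℝ → ℝ} {A B : ℝ}
    (h : C2B e A B) : C2B (rho e) (1 + 2 * A) (0 + 2 * B) := by
  have h2 := h.const_mul 2
  rw [abs_two] at h2
  exact (C2B.fst'.mono (by linarith [h.nonneg1]) (by linarith [h.nonneg2])).prodMk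
    (C2B.sub C2B.snd' h2)

theorem det_neg {X : Type*} [NormedAddCommGroup X] [NormedSpace ℝ X] [FiniteDimensional ℝ X]
    {e : X × ℝ → ℝ} {y : X × ℝ} (he : Differentiable ℝ e) {r : ℝ} (hr : 0 < r)
    (h : ∀ t, |t - y.2| ≤ r → e (y.1, t) = e y + (t - y.2)) : (fderiv ℝ (rho e) y).det < 0 := by
  have h1 := det_vert (u := fun z : X × ℝ => z.2 - 2 * e z) (y := y)
    (differentiableAt_snd.sub ((he y).const_mul 2))
  have h2 : (fun t => t - 2 * e (y.1, t)) =ᶠ[𝓝 y.2] fun t => -t + (2 * y.2 - 2 * e y) := by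
    filter_upwards [closedBall_mem_nhds y.2 hr] with t ht
    rw [h t (by simpa [Real.dist_eq] using ht)]
    ring
  have h3 : deriv (fun t : ℝ => -t + (2 * y.2 - 2 * e y)) y.2 = -1 :=
    ((hasDerivAt_neg y.2).add_const _).deriv
  have h4 : (fderiv ℝ (rho e) y).det = -1 := by
    rw [← h3, ← h2.deriv_eq]
    exact h1
  rw [h4]
  norm_num

end LevOneX

open LevOneX

variable {ι : Type} [Fintype ι] [DecidableEq ι]

theorem lev_one (K Kh : ℝ) (hK : 1 ≤ K) (hKh : 64 ≤ Kh) : ∃ x0 : ℝ, ∀ x : ℝ, x0 ≤ x →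
    ∀ (θ : ι → (ι → ℝ) → ℝ) G I W s κ H d A Bad, Lev K x θ G I W s κ H d A Bad →
      Lev1 x θ κ (sq d) (rho (ce I W s (Kh * κ)))
        {y | 9 / 2 < cq I W s (Kh * κ) y ∧ |ce I W s (Kh * κ) y| < 6 * κ} ∧
      ∀ y, y ∉ Bad → -2 ≤ (G y).2 → (G y).2 ≤ -ell x →
        sq d (G y) ∈ {y | 9 / 2 < cq I W s (Kh * κ) y ∧ |ce I W s (Kh * κ) y| < 6 * κ} := by
  obtain ⟨K', hK', hcl⟩ := cluster_bounds (X := ι → ℝ) K hK
  refine ⟨2 * K + 24 * (K' * Kh), fun x hx θ G I W s κ H d A Bad L => ?_⟩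
  have hKK : Kh ≤ K' * Kh := le_mul_of_one_le_left (by linarith) hK'
  have hx0 : 0 ≤ x := by linarith
  have hκ := L.cs.kpos
  have hE := Real.exp_pos x
  have hμ := mu_pos x
  have hl := ell_pos x
  have hL1 : 1 ≤ Lam x := Real.one_le_exp (by linarith)
  have e1 : 24 * (K' * Kh) ≤ Real.exp x := le_exp_of_le (by linarith)
  have e2 : 2 * K ≤ Real.exp x := le_exp_of_le (by linarith)
  have hEL : Real.exp x ≤ Lam x := Real.exp_le_exp.2 (by linarith)
  have hμl : mu x ≤ ell x / Lam x := by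
    rw [mu_eq, ell_div_Lam]
    exact Real.exp_le_exp.2 (by linarith)
  have hll : ell x / Lam x ≤ ell x := div_le_self hl.le hL1
  have hh : 24 * (Kh * κ) ≤ mu x := by
    have := L.k2
    nlinarith
  have hk64 : 64 * κ ≤ Kh * κ := mul_le_mul_of_nonneg_right hKh hκ.le
  have h16 : 16 * κ ≤ Kh * κ := by linarith
  have h10 : 10 * (Kh * κ) ≤ H := by
    have h1 : ell x * 1 ≤ ell x * Lam x ^ 15 := mul_le_mul_of_nonneg_left (one_le_pow₀ hL1) hl.le
    have := L.hH
    linarith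
  obtain ⟨hq, he0, he⟩ := hcl I W s κ H (Kh * κ) L.cs h16 h10
  have hκl : Real.exp (-(16805604 * x)) ≤ κ := by
    have h1 := L.k1
    rw [mu_eq, exp_pow'] at h1
    refine le_of_mul_le_mul_right (le_trans (le_of_eq ?_) h1) (Real.exp_pos _)
    rw [← Real.exp_add]
    congr 1
    push_cast
    ring
  have hL2 : Lam x * Lam x ≤ Lam x ^ 20 := by
    rw [← pow_two]
    exact pow_le_pow_right₀ hL1 (by norm_num)
  refine ⟨⟨?_, ?_, ?_, sq_snd d, fun y => ?_, fun y y' => ?_, fun y hy => ?_, fun y k hk => ?_, ?_,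
    fun y => rfl, fun y => ?_, fun y hy => ?_, ?_, fun y hy => ?_⟩, fun y hy h1 h2 => ?_⟩
  · refine le_trans ?_ hκl
    rw [ell_div_Lam_pow]
    refine Real.exp_le_exp.2 ?_
    push_cast
    linarith
  · change κ ≤ mu x
    linarith
  · refine (sq_c2b L.dC).mono (by nlinarith) ?_
    rw [zero_add, mul_div_assoc, Lam_pow_div_ell, Lam_pow, mu_eq, ← Real.exp_sub]
    refine mul_exp_le (x := x) (by linarith) ?_
    push_cast
    linarith
  · rw [norm_sq_sub]
    linarith [L.d0 y]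
  · have h1 := L.dmod (fun _ => 1) 0 (fun _ => ⟨zero_le_one, le_rfl⟩) (fun _ _ => by simp)
      (by rw [mul_zero]; positivity) y y'
    simp only [one_smul] at h1
    have h2 : 1 ≤ Real.exp x ^ 5 * (κ / mu x / 8) := by
      have h3 : mu x * 8 ≤ κ * Real.exp x ^ 4 * Real.exp x :=
        mul_le_mul L.k1 (by linarith) (by norm_num) (by positivity)
      rw [div_div, ← mul_div_assoc, le_div_iff₀ (by positivity)]
      linarith
    calc ‖y - y'‖ ≤ Real.exp x ^ 5 * (κ / mu x / 8) * ‖y - y'‖ :=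
          le_mul_of_one_le_left (norm_nonneg _) h2
      _ ≤ _ := by
          rw [mul_assoc]
          exact mul_le_mul_of_nonneg_left h1 (by positivity)
  · simp [sq, L.dtop y (by linarith)]
  · simp [sq, L.dpass y k hk]
  · have e3 : K' * (Kh * κ) / κ = K' * Kh := by field_simp
    have e4 : K' * (Kh * κ) / κ ^ 2 = K' * Kh / κ := by field_simp
    rw [e3, e4] at he
    refine (rho_c2b he).mono (by nlinarith) ?_
    rw [zero_add, Lam_pow_div_ell, ← mul_div_assoc, div_le_iff₀ hκ]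
    refine le_trans ?_ (mul_le_mul_of_nonneg_left hκl (Real.exp_pos _).le)
    rw [← Real.exp_add]
    refine le_trans (by linarith : _ ≤ Real.exp x) (Real.exp_le_exp.2 ?_)
    push_cast
    linarith
  · rw [norm_rho_sub]
    linarith [he0 y]
  · have := (cluster_top (W := W) (h := Kh * κ) (by linarith) L.top y (by linarith)).2
    simp [rho, this]
  · exact (isOpen_lt continuous_const hq.cont).inter (isOpen_lt he.cont.abs continuous_const)
  · refine det_neg he.diff (r := Kh * κ / 2) (by linarith) fun t ht => ?_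
    refine (cluster_cov L.cs h16 le_rfl h10 y t (by linarith [hy.1]) (by linarith [hy.2]) ?_).2
    have h1 := abs_le.1 ht
    have h2 := abs_lt.1 hy.2
    rw [abs_le]
    constructor <;> linarith
  · obtain ⟨J, hJ, h5, hW⟩ := L.good y hy h1 h2
    have := cluster_good L.cs h16 h10 (sq d (G y)) J hJ h5 fun n hn => by
      rw [sq_snd]
      exact hW n hn
    exact ⟨by linarith [this.1], by linarith [this.2]⟩

end SJ

end

section

namespace SK
open SJ Set Filter Topology MeasureTheory Metric Function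
open scoped ENNReal

namespace LevAX

theorem st_pos {u : ℝ} (h : st u ≠ 0) : 0 < u := by
  by_contra h1
  exact h (st_zero (not_lt.1 h1))

theorem norm_vm_sub {X : Type} [NormedAddCommGroup X] [NormedSpace ℝ X] (q e : X × ℝ → ℝ)
    {Z : ℝ → ℝ} {c : ℝ} (h : ∀ v, |Z v| ≤ c) (y : X × ℝ) : ‖vm q e Z y - y‖ ≤ c := by
  have h1 : vm q e Z y - y = (0, st (q y - 2) * Z (e y)) := by
    ext
    · simp [vm]
    · simp [vm]
  rw [h1, Prod.norm_mk, norm_zero, max_eq_right (norm_nonneg _), Real.norm_eq_abs, abs_mul,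
    abs_of_nonneg (st_nonneg _)]
  exact (mul_le_of_le_one_left (abs_nonneg _) (st_le_one _)).trans (h _)

theorem chi2_ne {X : Type} [NormedAddCommGroup X] [NormedSpace ℝ X] {q e : X × ℝ → ℝ} {κ : ℝ}
    (hκ : 0 < κ) {y : X × ℝ} (h : chi2 q e κ y ≠ 0) : 9 / 2 < q y ∧ |e y| < 6 * κ := by
  unfold chi2 at h
  have h1 := st_pos (left_ne_zero_of_mul h)
  have h2 := st_pos (left_ne_zero_of_mul (right_ne_zero_of_mul h))
  have h3 := st_pos (right_ne_zero_of_mul (right_ne_zero_of_mul h))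
  have h4 : e y / κ < 6 := by linarith
  have h5 : -6 < e y / κ := by linarith
  rw [div_lt_iff₀ hκ] at h4
  rw [lt_div_iff₀ hκ] at h5
  exact ⟨by linarith, abs_lt.2 ⟨by linarith, h4⟩⟩

theorem chi2_one {X : Type} [NormedAddCommGroup X] [NormedSpace ℝ X] {q e : X × ℝ → ℝ} {κ : ℝ}
    (hκ : 0 < κ) {y : X × ℝ} (h1 : 5 ≤ q y) (h2 : |e y| ≤ 5 * κ) : chi2 q e κ y = 1 := by
  have h3 := abs_le.1 h2
  have h4 : e y / κ ≤ 5 := by rw [div_le_iff₀ hκ]; exact h3.2
  have h5 : -5 ≤ e y / κ := by rw [le_div_iff₀ hκ]; linarith [h3.1]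
  unfold chi2
  rw [st_one (by linarith), st_one (by linarith), st_one (by linarith)]
  norm_num

theorem num {Kb N P P' R ε lam : ℝ} (h : FPar Kb N P P' R ε lam) (hb : 200 ≤ Kb) :
    0 < ε ∧ ε ≤ 1 ∧ Kb ≤ R ∧ 100 * (P' + 1) ≤ R := by
  have hN : 200 ≤ N := hb.trans h.hN
  have hP := h.P1
  have hP' : 1 ≤ P' := hP.trans h.PP
  have hl := h.l0
  have he : 0 < ε := by rw [h.he]; positivity
  have h1 : 1 ≤ N * P' := one_le_mul_of_one_le_of_one_le (by linarith) hP'
  have h2 : 1 ≤ P ^ 2 := one_le_pow₀ hP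
  have h3 : Kb * N * P' ≤ R :=
    (le_mul_of_one_le_right (by positivity) h2).trans h.hR
  have h4 : Kb * P' ≤ Kb * N * P' := by
    have : Kb ≤ Kb * N := le_mul_of_one_le_right (by linarith) (by linarith)
    exact mul_le_mul_of_nonneg_right this (by linarith)
  have h5 : Kb ≤ Kb * P' := le_mul_of_one_le_right (by linarith) hP'
  have h6 : 200 * P' ≤ Kb * P' := mul_le_mul_of_nonneg_right hb (by linarith)
  refine ⟨he, ?_, by linarith, by linarith⟩
  have h7 := h.sm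
  rw [mul_assoc] at h7
  exact (le_mul_of_one_le_right he.le h1).trans h7

end LevAX

open LevAX

theorem levA (hV : VMoveStmt) : LevAStmt := by
  intro ι _ _ M Kr Kq Kz hKr hKq hKz
  obtain ⟨Kv, hKv, hV⟩ := hV (ι → ℝ) Kq hKq
  have hvz : 1 ≤ Kv * Kz := one_le_mul_of_one_le_of_one_le hKv hKz
  refine ⟨600 * (Kv * Kz) + 200 + 50 * Kr, by linarith, fun N P P' R ε lam F Ks hKs => ?_⟩
  obtain ⟨he0, he1, hR1, hR2⟩ := num F (by linarith)
  have hP' : 1 ≤ P' := F.P1.trans F.PP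
  have hN := F.hN
  have hl := F.l0
  have hR0 : 0 < R := by linarith
  have hv0 : 0 < Kv * Kz := by linarith
  have hKs0 : 0 < Ks := by linarith
  have p1 : 0 ≤ 32 * R * Kq := by positivity
  have p2 : 0 ≤ (Kv * Kz * Ks) ^ 2 := by positivity
  have p3 : 0 ≤ 33 * R * (Kv * Kz) * Ks ^ 2 := by positivity
  have p4 : 0 ≤ Ks / ε := by positivity
  obtain ⟨Kw, hKw⟩ : ∃ Kw, Kw = 1 + 2 * Kq + 32 * R * Kq + (Kv * Kz * Ks) ^ 2 +
    33 * R * (Kv * Kz) * Ks ^ 2 + Ks / ε := ⟨_, rfl⟩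
  refine ⟨Kw, by linarith, fun m K1 Kh ℓ κs p uu A Rq q e e2 ν a b Z hℓ G C hν S hZ => ?_⟩
  have hu : 0 < ℓ / R := by positivity
  have huR : ℓ / R * R = ℓ := by field_simp
  obtain ⟨u, hU⟩ : ∃ u, u = ℓ / R := ⟨_, rfl⟩
  rw [← hU] at C S hZ hu huR ⊢
  have hκ : 0 < u / 16 := by positivity
  have hh : 64 * (u / 16) ≤ Kr * (u / 16) := mul_le_mul_of_nonneg_right hKr hκ.le
  have hd : 100 * (P' * u + u) ≤ ℓ := by
    have := mul_le_mul_of_nonneg_left hR2 hu.le
    linarith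
  have hr : 50 * (Kr * u) ≤ ℓ := by
    have := mul_le_mul_of_nonneg_left (show 50 * Kr ≤ R by linarith) hu.le
    linarith
  obtain ⟨vC, -, val, vdet⟩ := hV q e (u / 16) (Kr * (u / 16)) Z Kz (Kz / (u / 16)) ε hκ
    (by linarith) C.qe hZ.zC hKz hZ.zb (fun v hv => hZ.z0 v (by linarith)) he0 he1 hZ.zs
  have hsol : ∀ y, Sol (fun k => Th ℓ M (A k) ν) uu (a y) y := fun y => by
    have := S.sol (a y)
    rwa [S.ri y] at this
  have hay : ∀ y, ‖y - a y‖ ≤ P' * u := fun y => by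
    have := S.disp (a y)
    rwa [S.ri y] at this
  have hdet : ∀ y, ε * |(fderiv ℝ a y).det| ≤ |(fderiv ℝ (fun y => vm q e Z (a y)) y).det| :=
    fun y => by
      rw [det_fderiv_comp (vC.diff _) (S.aC.differentiable (by norm_num) y), abs_mul]
      exact mul_le_mul_of_nonneg_right (vdet _) (abs_nonneg _)
  have hfin : ∀ y (s : ℝ), 0 ≤ s → 1 ≤ Ks * s * |(fderiv ℝ a y).det| →
      1 ≤ Kw * s * |(fderiv ℝ (fun y => vm q e Z (a y)) y).det| := fun y s hs h => by
    calc (1 : ℝ) ≤ Ks * s * |(fderiv ℝ a y).det| := h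
      _ = Ks / ε * s * (ε * |(fderiv ℝ a y).det|) := by field_simp
      _ ≤ _ := mul_le_mul (mul_le_mul_of_nonneg_right (by linarith) hs) (hdet y) (by positivity)
          (mul_nonneg (by linarith) hs)
  refine ⟨vC.cd.comp S.aC, fun y y' => ?_, fun y => ?_, fun y hy => ?_, fun y k hk => ?_, ?_,
    fun y => rfl, fun y => ?_, fun y hy => ?_, fun y hy => ?_, fun y hy => ?_, fun y => ?_,
    fun y => ?_, fun y => ?_, fun y h1 h2 hy => ?_⟩
  · have h1 := S.bC.lip (a y) (a y')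
    rw [S.ri y, S.ri y'] at h1
    have h2 := mul_le_mul_of_nonneg_left (val (a y) (a y')) (show 0 ≤ 300 * P' by linarith)
    refine (h1.trans h2).trans ?_
    rw [← mul_assoc]
    refine mul_le_mul_of_nonneg_right ?_ (norm_nonneg _)
    have hN0 : 0 < N := by linarith
    have h3 : 300 * P' * (Kv * Kz / ε) = 600 * (Kv * Kz) / N * (1 / (2 * lam)) := by
      rw [F.he]
      field_simp
      norm_num
    rw [h3]
    refine mul_le_of_le_one_left (by positivity) ?_
    rw [div_le_one hN0]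
    linarith
  · have h1 := norm_vm_sub q e hZ.zb (a y)
    have h2 := norm_sub_le_norm_sub_add_norm_sub (vm q e Z (a y)) (a y) y
    have h3 := hay y
    rw [norm_sub_rev] at h3
    linarith
  · have h0 : st (-2 / ℓ * y.2 - 1) = 0 := by
      refine st_zero ?_
      have : -2 / ℓ * y.2 ≤ 1 := by
        rw [div_mul_eq_mul_div, div_le_one hℓ]
        linarith
      linarith
    have h1 : y = b y := S.uniq y y ⟨rfl, fun k => by simp [Th, h0]⟩
    have h2 : a y = y := by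
      conv_lhs => rw [h1]
      exact S.li y
    have h3 := (C.top y (by linarith)).1
    have h4 : st (q y - 2) = 0 := st_zero (by linarith)
    simp [h2, vm, h4]
  · have h1 := (hsol y).2 k
    simp only [Th, hk, mul_zero, zero_mul, add_zero] at h1
    exact h1.symm
  · refine (LevOneX.rho_c2b C.qe.eC).mono (by linarith) ?_
    have h1 : 0 + 2 * (Kq / (u / 16)) = 32 * R * Kq / ℓ := by
      rw [← huR]
      field_simp
      ring
    rw [h1]
    exact div_le_div_of_nonneg_right (by linarith) hℓ.le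
  · rw [LevOneX.norm_rho_sub]
    linarith [C.eb y]
  · simp [rho, (C.top y (by linarith)).2]
  · obtain ⟨h1, h2⟩ := chi2_ne (mul_pos he0 hκ) hy
    have h3 : ε * (u / 16) ≤ u / 16 := mul_le_of_le_one_left hκ.le he1
    refine LevOneX.det_neg C.qe.eC.diff (r := Kr * (u / 16) / 2) (by linarith) fun t ht => ?_
    refine (C.qe.cov y t (by linarith) (by linarith) ?_).2
    have h4 := abs_le.1 ht
    have h5 := abs_lt.1 h2
    rw [abs_le]
    constructor <;> linarith
  · by_contra h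
    have h1 := (chi2_ne (mul_pos he0 hκ) hy).1
    have h2 := (C.top y (not_le.1 h).le).1
    linarith
  · obtain ⟨n0, n1⟩ := hν y
    have h1 : ‖fderiv ℝ (fun y => vm q e Z (a y)) y‖ ≤ Kv * Kz * (Ks / ν y ^ M) :=
      (norm_fderiv_comp_le' vC.cd S.aC y).trans
        (mul_le_mul (vC.d1 _) (S.a1 y) (norm_nonneg _) hv0.le)
    refine (pow_le_pow_left₀ (norm_nonneg _) h1 2).trans ?_
    have h2 : (Kv * Kz * (Ks / ν y ^ M)) ^ 2 = (Kv * Kz * Ks) ^ 2 * ν y / ν y ^ (2 * M + 1) := by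
      field_simp
      ring
    rw [h2]
    refine div_le_div_of_nonneg_right ?_ (by positivity)
    have := mul_le_of_le_one_right p2 n1
    linarith
  · obtain ⟨n0, n1⟩ := hν y
    have h1 : ‖D2 (fun y => vm q e Z (a y)) y‖ ≤
        Kv * (Kz / (u / 16) + Kz / (u / 16)) * (Ks / ν y ^ M) ^ 2 +
          Kv * Kz * (Ks / ν y ^ (2 * M + 1) / u) :=
      (norm_D2_comp_le vC.cd S.aC y).trans (add_le_add
        (mul_le_mul (vC.d2 _) (pow_le_pow_left₀ (norm_nonneg _) (S.a1 y) 2) (by positivity)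
          vC.nonneg2)
        (mul_le_mul (vC.d1 _) (S.a2 y) (ContinuousLinearMap.opNorm_nonneg _) hv0.le))
    refine h1.trans ?_
    have h2 : Kv * (Kz / (u / 16) + Kz / (u / 16)) * (Ks / ν y ^ M) ^ 2 +
        Kv * Kz * (Ks / ν y ^ (2 * M + 1) / u) =
        (32 * (R * (Kv * Kz) * Ks ^ 2 * ν y) + R * (Kv * Kz) * Ks) / ν y ^ (2 * M + 1) / ℓ := by
      rw [← huR]
      field_simp
      ring
    rw [h2]
    refine div_le_div_of_nonneg_right (div_le_div_of_nonneg_right ?_ (by positivity)) hℓ.le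
    have h3 : R * (Kv * Kz) * Ks ^ 2 * ν y ≤ R * (Kv * Kz) * Ks ^ 2 :=
      mul_le_of_le_one_right (by positivity) n1
    have h4 : R * (Kv * Kz) * Ks ≤ R * (Kv * Kz) * Ks ^ 2 :=
      mul_le_mul_of_nonneg_left (le_self_pow₀ hKs (by norm_num)) (by positivity)
    linarith
  · have := hfin y 1 zero_le_one (by rw [mul_one]; exact S.det1 y)
    rwa [mul_one] at this
  · obtain ⟨n0, n1⟩ := hν y
    have hz : y.2 = (a y).2 := (hsol y).1
    rcases C.good (a y) (hz ▸ h1) (hz ▸ h2) with ⟨g1, g2⟩ | ⟨T, hT, g⟩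
    · refine absurd ?_ hy
      have h3 : vm q e Z (a y) = ((a y).1, (a y).2 + (ε - 1) * e (a y)) := by
        unfold vm
        rw [st_one (by linarith), one_mul, hZ.zl _ (by linarith)]
      have h4 : |ε * e (a y)| ≤ 5 * (ε * (u / 16)) := by
        rw [abs_mul, abs_of_pos he0]
        have := mul_le_mul_of_nonneg_left g2 he0.le
        linarith
      have h5 : ε * (u / 16) ≤ u / 16 := mul_le_of_le_one_left hκ.le he1
      obtain ⟨c1, c2⟩ := C.qe.cov (a y) ((a y).2 + (ε - 1) * e (a y)) (by linarith) (by linarith)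
        (by
          rw [show (a y).2 + (ε - 1) * e (a y) - ((a y).2 - e (a y)) = ε * e (a y) by ring]
          linarith)
      show chi2 q e (ε * (u / 16)) (vm q e Z (a y)) = 1
      rw [h3]
      refine chi2_one (mul_pos he0 hκ) (by rw [c1]; exact g1) ?_
      rw [c2, show e (a y) + ((a y).2 + (ε - 1) * e (a y) - (a y).2) = ε * e (a y) by ring]
      exact h4
    · have h0 : st (-2 / ℓ * y.2 - 1) = 1 := by
        refine st_one ?_
        have : 2 ≤ -2 / ℓ * y.2 := by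
          rw [div_mul_eq_mul_div, le_div_iff₀ hℓ]
          linarith
        linarith
      have h3 := S.det2 y T fun k hk => by
        obtain ⟨⟨y', g1, g2⟩, g3⟩ := g k hk
        refine ⟨?_, g3⟩
        have h4 := norm_sub_le_norm_sub_add_norm_sub y (a y) y'
        rw [norm_sub_rev] at g1
        have h5 : A k y = 1 := G.ra k y y' (by linarith [hay y]) g2
        simp [Th, h0, h5]
      refine hfin y _ (by positivity) (h3.trans ?_)
      refine mul_le_mul_of_nonneg_right (mul_le_mul_of_nonneg_left ?_ hKs0.le) (abs_nonneg _)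
      rw [pow_mul]
      exact pow_le_pow_of_le_one (by positivity) (pow_le_one₀ n0.le n1) hT

end SK

end

section

namespace SK
open SJ Set Filter Topology MeasureTheory Metric Function
open scoped ENNReal

namespace LevA2X

theorem num2 {Kb N P P' R ε lam : ℝ} (h : FPar Kb N P P' R ε lam) (hb : 300 ≤ Kb) :
    100 * (2 * P' + 1) ≤ R := by
  have hN : 300 ≤ N := hb.trans h.hN
  have hP := h.P1
  have hP' : 1 ≤ P' := hP.trans h.PP
  have h2 : 1 ≤ P ^ 2 := one_le_pow₀ hP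
  have h3 : Kb * N * P' ≤ R :=
    (le_mul_of_one_le_right (by positivity) h2).trans h.hR
  have h4 : Kb * P' ≤ Kb * N * P' := by
    have : Kb ≤ Kb * N := le_mul_of_one_le_right (by linarith) (by linarith)
    exact mul_le_mul_of_nonneg_right this (by linarith)
  have h6 : 300 * P' ≤ Kb * P' := mul_le_mul_of_nonneg_right hb (by linarith)
  linarith

end LevA2X

open LevAX

theorem levA2 (hV : VMoveStmt) : LevA2Stmt := by
  intro ι _ _ M Kr Kq Kz hKr hKq hKz
  obtain ⟨Kv, hKv, hV⟩ := hV (ι → ℝ) Kq hKq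
  have hvz : 1 ≤ Kv * Kz := one_le_mul_of_one_le_of_one_le hKv hKz
  refine ⟨800 * (Kv * Kz) + 300 + 50 * Kr, by linarith, fun N P P' R ε lam F Ks hKs => ?_⟩
  obtain ⟨he0, he1, hR1, -⟩ := num F (by linarith)
  have hR2 := LevA2X.num2 F (by linarith)
  have hP' : 1 ≤ P' := F.P1.trans F.PP
  have hN := F.hN
  have hl := F.l0
  have hR0 : 0 < R := by linarith
  have hv0 : 0 < Kv * Kz := by linarith
  have hKs0 : 0 < Ks := by linarith
  have p1 : 0 ≤ 32 * R * Kq := by positivity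
  have p2 : 0 ≤ (Kv * Kz * Ks) ^ 2 := by positivity
  have p3 : 0 ≤ 33 * R * (Kv * Kz) * Ks ^ 2 := by positivity
  have p4 : 0 ≤ Ks / ε := by positivity
  obtain ⟨Kw, hKw⟩ : ∃ Kw, Kw = 1 + 2 * Kq + 32 * R * Kq + (Kv * Kz * Ks) ^ 2 +
    33 * R * (Kv * Kz) * Ks ^ 2 + Ks / ε := ⟨_, rfl⟩
  refine ⟨Kw, by linarith, fun m m2 K1 Kh ℓ κs p uu A Rq q e e2 ν a b Z hℓ hℓ1 G C hν S hZ => ?_⟩
  have hu : 0 < ℓ / R := by positivity
  have huR : ℓ / R * R = ℓ := by field_simp
  obtain ⟨u, hU⟩ : ∃ u, u = ℓ / R := ⟨_, rfl⟩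
  rw [← hU] at C S hZ hu huR ⊢
  have hκ : 0 < u / 16 := by positivity
  have hh : 64 * (u / 16) ≤ Kr * (u / 16) := mul_le_mul_of_nonneg_right hKr hκ.le
  have hd : 100 * (2 * P' * u + u) ≤ ℓ := by
    have := mul_le_mul_of_nonneg_left hR2 hu.le
    linarith
  have hr : 50 * (Kr * u) ≤ ℓ := by
    have := mul_le_mul_of_nonneg_left (show 50 * Kr ≤ R by linarith) hu.le
    linarith
  obtain ⟨vC, -, val, vdet⟩ := hV q e (u / 16) (Kr * (u / 16)) Z Kz (Kz / (u / 16)) ε hκ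
    (by linarith) C.qe hZ.zC hKz hZ.zb (fun v hv => hZ.z0 v (by linarith)) he0 he1 hZ.zs
  have hsol : ∀ y, Sol2 A (fun k => Th ℓ M (ext1 A k) ν) uu (a y) y := fun y => by
    have := S.sol (a y)
    rwa [S.ri y] at this
  have hay : ∀ y, ‖y - a y‖ ≤ 2 * P' * u := fun y => by
    have := S.disp (a y)
    rwa [S.ri y] at this
  have hdet : ∀ y, ε * |(fderiv ℝ a y).det| ≤ |(fderiv ℝ (fun y => vm q e Z (a y)) y).det| :=
    fun y => by
      rw [det_fderiv_comp (vC.diff _) (S.aC.differentiable (by norm_num) y), abs_mul]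
      exact mul_le_mul_of_nonneg_right (vdet _) (abs_nonneg _)
  have hfin : ∀ y (s : ℝ), 0 ≤ s → 1 ≤ Ks * s * |(fderiv ℝ a y).det| →
      1 ≤ Kw * s * |(fderiv ℝ (fun y => vm q e Z (a y)) y).det| := fun y s hs h => by
    calc (1 : ℝ) ≤ Ks * s * |(fderiv ℝ a y).det| := h
      _ = Ks / ε * s * (ε * |(fderiv ℝ a y).det|) := by field_simp
      _ ≤ _ := mul_le_mul (mul_le_mul_of_nonneg_right (by linarith) hs) (hdet y) (by positivity)
          (mul_nonneg (by linarith) hs)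
  refine ⟨vC.cd.comp S.aC, fun y y' => ?_, fun y => ?_, fun y hy => ?_, fun y k hk => ?_, ?_,
    fun y => rfl, fun y => ?_, fun y hy => ?_, fun y hy => ?_, fun y hy => ?_, fun y => ?_,
    fun y => ?_, fun y => ?_, fun y h1 h2 hy => ?_⟩
  · have h1 := S.bC.lip (a y) (a y')
    rw [S.ri y, S.ri y'] at h1
    have h2 := mul_le_mul_of_nonneg_left (val (a y) (a y')) (show 0 ≤ 400 * P' by linarith)
    refine (h1.trans h2).trans ?_
    rw [← mul_assoc]
    refine mul_le_mul_of_nonneg_right ?_ (norm_nonneg _)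
    have hN0 : 0 < N := by linarith
    have h3 : 400 * P' * (Kv * Kz / ε) = 800 * (Kv * Kz) / N * (1 / (2 * lam)) := by
      rw [F.he]
      field_simp
      norm_num
    rw [h3]
    refine mul_le_of_le_one_left (by positivity) ?_
    rw [div_le_one hN0]
    linarith
  · have h1 := norm_vm_sub q e hZ.zb (a y)
    have h2 := norm_sub_le_norm_sub_add_norm_sub (vm q e Z (a y)) (a y) y
    have h3 := hay y
    rw [norm_sub_rev] at h3
    linarith
  · have h0 : st (-2 / ℓ * y.2 - 1) = 0 := by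
      refine st_zero ?_
      have : -2 / ℓ * y.2 ≤ 1 := by
        rw [div_mul_eq_mul_div, div_le_one hℓ]
        linarith
      linarith
    have h1 : y = b y := S.uniq y y ⟨by simp [Th, h0], fun k => by simp [Th, h0]⟩
    have h2 : a y = y := by
      conv_lhs => rw [h1]
      exact S.li y
    have h3 := (C.top y (by linarith)).1
    have h4 : st (q y - 2) = 0 := st_zero (by linarith)
    simp [h2, vm, h4]
  · have h1 := (hsol y).2 k
    simp only [Th, ext1, hk, mul_zero, zero_mul, add_zero] at h1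
    exact h1.symm
  · refine (LevOneX.rho_c2b C.qe.eC).mono (by linarith) ?_
    have h1 : 0 + 2 * (Kq / (u / 16)) = 32 * R * Kq / ℓ := by
      rw [← huR]
      field_simp
      ring
    rw [h1]
    exact div_le_div_of_nonneg_right (by linarith) hℓ.le
  · rw [LevOneX.norm_rho_sub]
    linarith [C.eb y]
  · simp [rho, (C.top y (by linarith)).2]
  · obtain ⟨h1, h2⟩ := chi2_ne (mul_pos he0 hκ) hy
    have h3 : ε * (u / 16) ≤ u / 16 := mul_le_of_le_one_left hκ.le he1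
    refine LevOneX.det_neg C.qe.eC.diff (r := Kr * (u / 16) / 2) (by linarith) fun t ht => ?_
    refine (C.qe.cov y t (by linarith) (by linarith) ?_).2
    have h4 := abs_le.1 ht
    have h5 := abs_lt.1 h2
    rw [abs_le]
    constructor <;> linarith
  · by_contra h
    have h1 := (chi2_ne (mul_pos he0 hκ) hy).1
    have h2 := (C.top y (not_le.1 h).le).1
    linarith
  · obtain ⟨n0, n1⟩ := hν y
    have h1 : ‖fderiv ℝ (fun y => vm q e Z (a y)) y‖ ≤ Kv * Kz * (Ks / ν y ^ M) :=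
      (norm_fderiv_comp_le' vC.cd S.aC y).trans
        (mul_le_mul (vC.d1 _) (S.a1 y) (norm_nonneg _) hv0.le)
    refine (pow_le_pow_left₀ (norm_nonneg _) h1 2).trans ?_
    have h2 : (Kv * Kz * (Ks / ν y ^ M)) ^ 2 = (Kv * Kz * Ks) ^ 2 * ν y / ν y ^ (2 * M + 1) := by
      field_simp
      ring
    rw [h2]
    refine div_le_div_of_nonneg_right ?_ (by positivity)
    have := mul_le_of_le_one_right p2 n1
    linarith
  · obtain ⟨n0, n1⟩ := hν y
    have h1 : ‖D2 (fun y => vm q e Z (a y)) y‖ ≤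
        Kv * (Kz / (u / 16) + Kz / (u / 16)) * (Ks / ν y ^ M) ^ 2 +
          Kv * Kz * (Ks / ν y ^ (2 * M + 1) / u) :=
      (norm_D2_comp_le vC.cd S.aC y).trans (add_le_add
        (mul_le_mul (vC.d2 _) (pow_le_pow_left₀ (norm_nonneg _) (S.a1 y) 2) (by positivity)
          vC.nonneg2)
        (mul_le_mul (vC.d1 _) (S.a2 y) (ContinuousLinearMap.opNorm_nonneg _) hv0.le))
    refine h1.trans ?_
    have h2 : Kv * (Kz / (u / 16) + Kz / (u / 16)) * (Ks / ν y ^ M) ^ 2 +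
        Kv * Kz * (Ks / ν y ^ (2 * M + 1) / u) =
        (32 * (R * (Kv * Kz) * Ks ^ 2 * ν y) + R * (Kv * Kz) * Ks) / ν y ^ (2 * M + 1) / ℓ := by
      rw [← huR]
      field_simp
      ring
    rw [h2]
    refine div_le_div_of_nonneg_right (div_le_div_of_nonneg_right ?_ (by positivity)) hℓ.le
    have h3 : R * (Kv * Kz) * Ks ^ 2 * ν y ≤ R * (Kv * Kz) * Ks ^ 2 :=
      mul_le_of_le_one_right (by positivity) n1
    have h4 : R * (Kv * Kz) * Ks ≤ R * (Kv * Kz) * Ks ^ 2 :=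
      mul_le_mul_of_nonneg_left (le_self_pow₀ hKs (by norm_num)) (by positivity)
    linarith
  · have := hfin y 1 zero_le_one (by rw [mul_one]; exact S.det1 y)
    rwa [mul_one] at this
  · obtain ⟨n0, n1⟩ := hν y
    have hz := abs_le.1 ((norm_snd_le (y - a y)).trans (hay y))
    rw [Prod.snd_sub] at hz
    rcases C.good (a y) (by linarith [hz.2]) (by linarith [hz.1]) with ⟨g1, g2⟩ | ⟨T, hT, g⟩
    · refine absurd ?_ hy
      have h3 : vm q e Z (a y) = ((a y).1, (a y).2 + (ε - 1) * e (a y)) := by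
        unfold vm
        rw [st_one (by linarith), one_mul, hZ.zl _ (by linarith)]
      have h4 : |ε * e (a y)| ≤ 5 * (ε * (u / 16)) := by
        rw [abs_mul, abs_of_pos he0]
        have := mul_le_mul_of_nonneg_left g2 he0.le
        linarith
      have h5 : ε * (u / 16) ≤ u / 16 := mul_le_of_le_one_left hκ.le he1
      obtain ⟨c1, c2⟩ := C.qe.cov (a y) ((a y).2 + (ε - 1) * e (a y)) (by linarith) (by linarith)
        (by
          rw [show (a y).2 + (ε - 1) * e (a y) - ((a y).2 - e (a y)) = ε * e (a y) by ring]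
          linarith)
      show chi2 q e (ε * (u / 16)) (vm q e Z (a y)) = 1
      rw [h3]
      refine chi2_one (mul_pos he0 hκ) (by rw [c1]; exact g1) ?_
      rw [c2, show e (a y) + ((a y).2 + (ε - 1) * e (a y) - (a y).2) = ε * e (a y) by ring]
      exact h4
    · have h0 : st (-2 / ℓ * y.2 - 1) = 1 := by
        refine st_one ?_
        have : 2 ≤ -2 / ℓ * y.2 := by
          rw [div_mul_eq_mul_div, le_div_iff₀ hℓ]
          linarith
        linarith
      have h3 := S.det2 y T fun k hk => by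
        obtain ⟨⟨y', g1, g2⟩, g3⟩ := g k hk
        refine ⟨?_, g3⟩
        have h4 := norm_sub_le_norm_sub_add_norm_sub y (a y) y'
        rw [norm_sub_rev] at g1
        have h5 : ext1 A k y = 1 := by
          cases k with
          | none => rfl
          | some k => exact G.ra k y y' (by linarith [hay y]) g2
        simp [Th, h0, h5]
      refine hfin y _ (by positivity) (h3.trans ?_)
      refine mul_le_mul_of_nonneg_right (mul_le_mul_of_nonneg_left ?_ hKs0.le) (abs_nonneg _)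
      rw [pow_mul]
      exact pow_le_pow_of_le_one (by positivity) (pow_le_one₀ n0.le n1) hT

end SK

end
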