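import Mathlib
import Pool.Agent.Mg.Xedaf86.G06b4b8
import Pool.Agent.Mg.Xedaf86.G79f2d5
import Pool.Agent.Mg.Xedaf86.G910084

section

namespace SK
open SJ Set Filter Topology MeasureTheory Metric Function
open scoped ENNReal

namespace StripEqX

theorem gs_fix {X : Type} (a : ℕ → X → X) (y : X) (i : ℕ) (h : ∀ k < i, a k y = y) :
    Gs a i y = y := by
  induction i with
  | zero => rfl
  | succ i ih =>
    have h1 : Gs a i y = y := ih fun k hk => h k (Nat.lt_succ_of_lt hk)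
    show a i (Gs a i y) = y
    rw [h1]
    exact h i (Nat.lt_succ_self i)

theorem fw_fix {X : Type} (a : ℕ → X → X) (y : X) (i : ℕ) (h : ∀ k < i, a k y = y) :
    Fw a i y = y := by
  induction i with
  | zero => rfl
  | succ i ih =>
    show Fw a i (a i y) = y
    rw [h i (Nat.lt_succ_self i)]
    exact ih fun k hk => h k (Nat.lt_succ_of_lt hk)

theorem fw_ind {X : Type} (a : ℕ → X → X) (I : ℕ → X → Prop)
    (h : ∀ j v, I (j + 1) v → I j (a j v)) (j : ℕ) (v : X) (hv : I j v) : I 0 (Fw a j v) := by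
  induction j generalizing v with
  | zero => exact hv
  | succ j ih => exact ih (a j v) (h j v hv)

theorem snd_le {ι : Type} [Fintype ι] (z y : (ι → ℝ) × ℝ) : |z.2 - y.2| ≤ ‖z - y‖ := by
  have h := norm_snd_le (z - y)
  rwa [Prod.snd_sub, Real.norm_eq_abs] at h

theorem fst_le {ι : Type} [Fintype ι] (z y : (ι → ℝ) × ℝ) : ‖z.1 - y.1‖ ≤ ‖z - y‖ := by
  have h := norm_fst_le (z - y)
  rwa [Prod.fst_sub] at h

theorem tri {X : Type} [NormedAddCommGroup X] (a b c : X) : ‖a - c‖ ≤ ‖a - b‖ + ‖b - c‖ := by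
  have h := norm_add_le (a - b) (b - c)
  rwa [sub_add_sub_cancel] at h

theorem keep {ι : Type} [Fintype ι] {ℓ τ : ℝ} (f : (ι → ℝ) × ℝ → (ι → ℝ) × ℝ)
    (hd : ∀ y, ‖f y - y‖ ≤ ℓ / 100) (ht : ∀ y, -ℓ / 3 ≤ y.2 → f y = y) (h0 : 0 < ℓ)
    (hτ : τ ≤ ℓ / 4) (y : (ι → ℝ) × ℝ) (hy : y.2 ≤ -τ) : (f y).2 ≤ -τ := by
  by_cases h : -ℓ / 3 ≤ y.2
  · rw [ht y h]; exact hy
  · have h1 := (abs_le.1 ((snd_le (f y) y).trans (hd y))).2
    have h2 := not_le.1 h
    linarith

theorem sil {ι : Type} [Fintype ι] {lam : ℝ} (h0 : 0 < lam) (h1 : lam ≤ 1 / 100)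
    (act : ℕ → ι → (ι → ℝ) → ℝ) (i l : ℕ) (k : ι) (y z : (ι → ℝ) × ℝ)
    (hy : |y.2| < 41 / 10 * el lam i)
    (hk : ∀ x', ‖x' - y.1‖ ≤ el lam i / 4 →
      act i k x' = 0 ∧ ∀ i', i = i' + 1 → act i' k x' = 0)
    (hz : ‖z - y‖ ≤ el lam i / 10) (hl : l = 0 ∨ z.2 ≤ -(38 / 10) * el lam (i + 1)) :
    Sil lam act (i + l) k z := by
  intro z' hz' i' hi' ha hb
  have p0 := el_pos h0 i
  have p1 := el_pos h0 (i + 1)
  have e1 : el lam (i + l) ≤ el lam i := el_anti h0 (by linarith) (Nat.le_add_right i l)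
  have d1 : ‖z' - y‖ ≤ el lam i / 4 := by
    have := tri z' z y
    linarith
  have hx := hk z'.1 ((fst_le z' y).trans d1)
  have c1 : i' ≤ i := by
    by_contra hc
    have hc' : i + 1 ≤ i' := by omega
    have hl1 : 1 ≤ l := by omega
    have hz2 : z.2 ≤ -(38 / 10) * el lam (i + 1) := hl.resolve_left (by omega)
    have ha2 : -3 * el lam i' < z'.2 := ha.resolve_left (by omega)
    have e2 : el lam i' ≤ el lam (i + 1) := el_anti h0 (by linarith) hc'
    have e3 : el lam (i + l) ≤ el lam (i + 1) := el_anti h0 (by linarith) (by omega)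
    have d2 := (abs_le.1 ((snd_le z' z).trans hz')).2
    linarith
  have c2 : i ≤ i' + 1 := by
    by_contra hc
    have hc' : i' + 1 < i := by omega
    have hb2 : z'.2 < -el lam (i' + 1) := hb.resolve_left (by omega)
    have e2 := el_lt h0 h1 hc'
    have d2 := (abs_le.1 ((snd_le z' y).trans d1)).1
    have d3 := (abs_lt.1 hy).1
    linarith
  rcases Nat.eq_or_lt_of_le c1 with h | h
  · rw [h]; exact hx.1
  · exact hx.2 i' (by omega)

theorem disp {lam : ℝ} (h0 : 0 < lam) (h1 : lam ≤ 1 / 100)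
    (i k : ℕ) : ∑ l ∈ Finset.range k, el lam (i + l) / 100 ≤ el lam i / 50 := by
  rw [← Finset.sum_div]
  have a := el_sum h0 h1 i k
  have b := el_pos h0 (i + k)
  linarith

theorem fwH {ι : Type} [Fintype ι] [DecidableEq ι] {q lam K C : ℝ}
    {act : ℕ → ι → (ι → ℝ) → ℝ} {H : ℕ → (ι → ℝ) × ℝ → (ι → ℝ) × ℝ}
    {g : ℕ → (ι → ℝ) → ι → ℝ} {U : ℕ → (ι → ℝ) → ℝ} (hT : PT q lam K C act H g U)
    (h0 : 0 < lam) (h1 : lam ≤ 1 / 100) (i j : ℕ) (hj : j ≤ i) (v : (ι → ℝ) × ℝ)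
    (hv : |v.2| ≤ 5 * el lam i) : Fw H j v = (g j v.1, v.2) := by
  induction j generalizing v with
  | zero =>
    show v = (g 0 v.1, v.2)
    rw [hT.g0]
  | succ j ih =>
    show Fw H j (H j v) = _
    have e1 := el_lt h0 h1 (show j < i from hj)
    have p := el_pos h0 j
    have h2 := (hT.hm j).h2 v
    rw [ih (Nat.le_of_succ_le hj) (H j v) (by rw [h2]; exact hv), h2,
      (hT.hm j).hon v (by linarith)]

end StripEqX

open StripEqX

theorem stripEq : StripEqStmt := by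
  intro ι _ _ q lam K C Bs B act H g U α ρ P c w hT hF i n y hy
  have h0 := hF.l0
  have h1 := hF.l1
  have p0 := el_pos h0 i
  have p1 := el_pos h0 (i + 1)
  have e01 := el_lt h0 h1 (Nat.lt_succ_self i)
  have low : ∀ k < i, ∀ z : (ι → ℝ) × ℝ, |z.2| ≤ 5 * el lam i → -el lam k / 3 ≤ z.2 := by
    intro k hk z hz
    have a := el_lt h0 h1 hk
    have b := (abs_le.1 hz).1
    linarith
  have g0 : Gs α i y = y := gs_fix α y i fun k hk => hF.atop k y (low k hk y (by linarith))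
  have gE : ∀ k, Gs α (i + k) y = Gs (fun l => α (i + l)) k y := by
    intro k
    induction k with
    | zero => exact g0
    | succ k ih =>
      show α (i + k) (Gs α (i + k) y) = α (i + k) (Gs (fun l => α (i + l)) k y)
      rw [ih]
  have gD : ∀ k, ‖Gs (fun l => α (i + l)) k y - y‖ ≤ el lam i / 50 := fun k =>
    (gs_disp (fun l => α (i + l)) (fun l => el lam (i + l) / 100) (fun l z => hF.ad (i + l) z)
      k y).trans (disp h0 h1 i k)
  have gH : y.2 < -(39 / 10) * el lam (i + 1) → ∀ m, (Gs (fun l => α (i + l)) (m + 1) y).2 ≤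
      -(39 / 10) * el lam (i + 1) + (2 * el lam (i + 1) - 2 * el lam (i + (m + 1))) / 100 := by
    intro hA m
    induction m with
    | zero =>
      have := keep (τ := 39 / 10 * el lam (i + 1)) (α i) (hF.ad i) (hF.atop i) p0 (by linarith) y
        (by linarith)
      show (α i y).2 ≤ _
      simp only [zero_add]
      linarith
    | succ m ih =>
      have a := (abs_le.1 ((snd_le _ _).trans
        (hF.ad (i + (m + 1)) (Gs (fun l => α (i + l)) (m + 1) y)))).2
      have b := el_lt h0 h1 (show i + (m + 1) < i + (m + 1 + 1) by omega)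
      have b' := el_pos h0 (i + (m + 1))
      show (α (i + (m + 1)) (Gs (fun l => α (i + l)) (m + 1) y)).2 ≤ _
      linarith
  set y1 := Gs (fun l => α (i + l)) (n + 1) y with hy1
  set y2 := ρ (i + n) y1 with hy2
  set y3 := Fw (fun k => P (i + k)) (n + 1) y2 with hy3
  have en : el lam (i + n) ≤ el lam i := el_anti h0 (by linarith) (Nat.le_add_right i n)
  have d1 : ‖y1 - y‖ ≤ el lam i / 50 := gD (n + 1)
  have d2 : ‖y2 - y‖ ≤ 3 * el lam i / 100 := by
    have a := tri y2 y1 y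
    have b := hF.rd (i + n) y1
    linarith
  have d3 : ‖y3 - y‖ ≤ 5 * el lam i / 100 := by
    have a := tri y3 y2 y
    have b := (fw_disp (fun l => P (i + l)) (fun l => el lam (i + l) / 100)
      (fun l z => hF.pd (i + l) z) (n + 1) y2).trans (disp h0 h1 i (n + 1))
    linarith
  have hX : Xi2 H P ρ α i n y = H i y3 := rfl
  have h3 : |y3.2| ≤ 5 * el lam i := by
    have a := abs_le.1 ((snd_le y3 y).trans d3)
    have b := abs_lt.1 hy
    rw [abs_le]
    constructor <;> linarith [a.1, a.2, b.1, b.2]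
  refine ⟨fun k => ⟨gE k, by rw [gE k]; exact gD k⟩, ?_, fun hn => ?_⟩
  · have a := tri (H i y3) y3 y
    have b := (hT.hm i).hd y3
    rw [hX]
    linarith
  have hA : 1 ≤ n → y.2 < -(39 / 10) * el lam (i + 1) := fun h => hn.resolve_left (by omega)
  have t2 : 1 ≤ n → y2.2 ≤ -(387 / 100) * el lam (i + 1) := by
    intro h
    have a := gH (hA h) n
    have b := (abs_le.1 ((snd_le _ _).trans (hF.rd (i + n) y1))).2
    have b' : el lam (i + n) ≤ el lam (i + 1) := el_anti h0 (by linarith) (by omega)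
    have b'' := el_pos h0 (i + (n + 1))
    linarith
  have inv : ∀ (S : Set ι), (∀ k ∈ S, ∀ x', ‖x' - y.1‖ ≤ el lam i / 4 →
      act i k x' = 0 ∧ ∀ i', i = i' + 1 → act i' k x' = 0) → (∀ k ∈ S, y2.1 k = y.1 k) →
      (1 ≤ n → y3.2 ≤ -(385 / 100) * el lam (i + 1)) ∧ ∀ k ∈ S, y3.1 k = y.1 k := by
    intro S hS hS2
    have key := fw_ind (fun k => P (i + k)) (fun j v => j ≤ n + 1 ∧
      ‖v - y‖ ≤ 3 * el lam i / 100 + 2 * el lam (i + j) / 100 ∧
      (1 ≤ n → v.2 ≤ -(385 / 100) * el lam (i + 1)) ∧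
      (1 ≤ n → 1 ≤ j → v.2 ≤ -(387 / 100) * el lam (i + 1) + 2 * el lam (i + j) / 100) ∧
      ∀ k ∈ S, v.1 k = y.1 k) ?_ (n + 1) y2 ?_
    · exact ⟨key.2.2.1, key.2.2.2.2⟩
    · rintro j v ⟨a1, a2, a3, a4, a5⟩
      have b1 := hF.pd (i + j) v
      have b2 := el_lt h0 h1 (show i + j < i + (j + 1) by omega)
      have b3 := el_pos h0 (i + j)
      have b4 : el lam (i + j) ≤ el lam i := el_anti h0 (by linarith) (Nat.le_add_right i j)
      have b5 := (abs_le.1 ((snd_le _ _).trans b1)).2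
      have c4 : 1 ≤ n → 1 ≤ j → (P (i + j) v).2 ≤
          -(387 / 100) * el lam (i + 1) + 2 * el lam (i + j) / 100 := by
        intro h h'
        have := a4 h (by omega)
        linarith
      refine ⟨by omega, ?_, fun h => ?_, c4, fun k hk => ?_⟩
      · have := tri (P (i + j) v) v y
        linarith
      · rcases Nat.eq_zero_or_pos j with hj | hj
        · subst hj
          have := keep (τ := 385 / 100 * el lam (i + 1)) (P i) (hF.pd i) (hF.ptop i) p0
            (by linarith) v (by linarith [a3 h])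
          show (P i v).2 ≤ _
          linarith
        · have a := c4 h hj
          have b : el lam (i + j) ≤ el lam (i + 1) := el_anti h0 (by linarith) (by omega)
          linarith
      · rw [← a5 k hk]
        refine hF.ppass (i + j) v k (sil h0 h1 act i j k y v hy (hS k hk) (by linarith) ?_)
        rcases Nat.eq_zero_or_pos j with hj | hj
        · exact Or.inl hj
        · have := a3 (by omega)
          exact Or.inr (by linarith)
    · have b := el_pos h0 (i + (n + 1))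
      refine ⟨le_rfl, by linarith, fun h => ?_, fun h _ => ?_, hS2⟩
      · have := t2 h
        linarith
      · have := t2 h
        linarith
  constructor
  · have f1 : Gs α (i + n + 1) y = y1 := gE (n + 1)
    have f2 : Fw P (i + n + 1) y2 = y3 := by
      have a := LimsX.fw_add P i (n + 1) y2
      rw [← hy3, fw_fix P y3 i fun k hk => hF.ptop k y3 (low k hk y3 h3)] at a
      exact a
    have f3 : Fw H (i + n + 1) y3 = Fw H i (H i y3) := by
      have a := LimsX.fw_add H (i + 1) n y3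
      have b : Fw (fun l => H (i + 1 + l)) n y3 = y3 := by
        refine fw_fix _ y3 n fun l hl => (hT.hm (i + 1 + l)).hoff y3 ?_
        have t3 := (inv ∅ (by simp) (by simp)).1 (by omega)
        have e : el lam (i + 1 + l) ≤ el lam (i + 1) :=
          el_anti h0 (by linarith) (Nat.le_add_right _ l)
        have := neg_le_abs y3.2
        linarith
      rw [b, show i + 1 + n = i + n + 1 by omega] at a
      exact a
    have f4 := fwH hT h0 h1 i i le_rfl (H i y3) (by rw [(hT.hm i).h2]; exact h3)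
    unfold FF2
    rw [f1, ← hy2, f2, f3, f4, hX]
    rfl
  · intro k hk
    have s1 : ∀ m, m ≤ n + 1 → (Gs (fun l => α (i + l)) m y).1 k = y.1 k := by
      intro m
      induction m with
      | zero => intro _; rfl
      | succ m ih =>
        intro hm
        rw [← ih (by omega)]
        refine hF.apass (i + m) _ k (sil h0 h1 act i m k y _ hy hk (by linarith [gD m]) ?_)
        rcases m with _ | m
        · exact Or.inl rfl
        · have a := gH (hA (by omega)) m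
          have b := el_pos h0 (i + (m + 1))
          exact Or.inr (by linarith)
    have s2 : y2.1 k = y.1 k := by
      rw [hy2, hF.r1]
      exact s1 (n + 1) le_rfl
    have s3 : y3.1 k = y.1 k := (inv {k} (by
      intro k' hk'
      rw [mem_singleton_iff.1 hk']
      exact hk) (by
      intro k' hk'
      rw [mem_singleton_iff.1 hk']
      exact s2)).2 k rfl
    rw [hX, ← s3]
    refine (hT.hm i).hpass y3 k fun x' hx' => (hk x' ?_).1
    have a := tri x' y3.1 y.1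
    have b := fst_le y3 y
    linarith

end SK

end

section

namespace SK
open SJ Set Filter Topology MeasureTheory Metric Function
open scoped ENNReal

namespace StripX

variable {ι : Type} [Fintype ι] [DecidableEq ι]

omit [DecidableEq ι] in
theorem snd_le {z y : (ι → ℝ) × ℝ} {d : ℝ} (h : ‖z - y‖ ≤ d) : |z.2 - y.2| ≤ d :=
  (norm_snd_le (z - y)).trans h

omit [DecidableEq ι] in
theorem fst_le {z y : (ι → ℝ) × ℝ} {d : ℝ} (h : ‖z - y‖ ≤ d) : ‖z.1 - y.1‖ ≤ d :=
  (norm_fst_le (z - y)).trans h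

omit [DecidableEq ι] in
theorem parts {X : (ι → ℝ) × ℝ → (ι → ℝ) × ℝ} (hX : ContDiff ℝ 2 X) (y : (ι → ℝ) × ℝ) :
    (‖fderiv ℝ (fun z => (X z).1) y‖ ≤ ‖fderiv ℝ X y‖ ∧ ‖D2 (fun z => (X z).1) y‖ ≤ ‖D2 X y‖) ∧
    ‖fderiv ℝ (fun z => (X z).2) y‖ ≤ ‖fderiv ℝ X y‖ ∧ ‖D2 (fun z => (X z).2) y‖ ≤ ‖D2 X y‖ := by
  have c1 := C2B.fst' (E := ι → ℝ) (F := ℝ)
  have c2 := C2B.snd' (E := ι → ℝ) (F := ℝ)
  have n1 := norm_nonneg (fderiv ℝ X y)
  have n2 := norm_nonneg (D2 X y)
  refine ⟨⟨(norm_fderiv_comp_le' c1.cd hX y).trans ?_, (norm_D2_comp_le c1.cd hX y).trans ?_⟩,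
    (norm_fderiv_comp_le' c2.cd hX y).trans ?_, (norm_D2_comp_le c2.cd hX y).trans ?_⟩
  · have := c1.d1 (X y)
    nlinarith
  · have a := c1.d1 (X y)
    have b := c1.d2 (X y)
    have c := sq_nonneg ‖fderiv ℝ X y‖
    nlinarith
  · have := c2.d1 (X y)
    nlinarith
  · have a := c2.d1 (X y)
    have b := c2.d2 (X y)
    have c := sq_nonneg ‖fderiv ℝ X y‖
    nlinarith

theorem comp1 {X : (ι → ℝ) × ℝ → (ι → ℝ) × ℝ} (hX : ContDiff ℝ 2 X) {g : (ι → ℝ) → ι → ℝ}
    (hg : ContDiff ℝ 2 g) (y : (ι → ℝ) × ℝ) {A B u D : ℝ} (hA : ‖fderiv ℝ X y‖ ^ 2 ≤ A)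
    (hB : ‖D2 X y‖ ≤ B) (hu : 0 ≤ u) (hD : ‖D2 g (X y).1‖ ≤ D)
    (hk : ∀ k, ((fun z => (X z).1 k) =ᶠ[𝓝 y] fun z => z.1 k) ∨
      ‖fderiv ℝ g (X y).1 (Pi.single k 1)‖ ≤ u) :
    ‖D2 (fun z => g (X z).1) y‖ ≤ D * A + Fintype.card ι * (B * u) := by
  have cd : ContDiff ℝ 2 fun z => (X z).1 := hX.fst
  obtain ⟨⟨p1, p2⟩, -⟩ := parts hX y
  have A0 : 0 ≤ A := (sq_nonneg _).trans hA
  have B0 : 0 ≤ B := (norm_nonneg (D2 X y)).trans hB
  have D0 : 0 ≤ D := (norm_nonneg (D2 g (X y).1)).trans hD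
  refine norm_D2_le_of_apply (by positivity) fun v w => ?_
  rw [D2_comp_apply hg cd]
  have a2 : ∀ s, ‖fderiv ℝ (fun z => (X z).1) y s‖ ≤ ‖fderiv ℝ X y‖ * ‖s‖ := fun s =>
    (ContinuousLinearMap.le_opNorm _ _).trans (by gcongr)
  have a3 := (norm_D2_apply_le g (X y).1 _ _).trans
    (mul_le_mul (mul_le_mul hD (a2 v) (norm_nonneg _) D0) (a2 w) (norm_nonneg _)
      (by positivity))
  have a3' : D * (‖fderiv ℝ X y‖ * ‖v‖) * (‖fderiv ℝ X y‖ * ‖w‖) ≤ D * A * ‖v‖ * ‖w‖ := by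
    calc _ = D * ‖fderiv ℝ X y‖ ^ 2 * ‖v‖ * ‖w‖ := by ring
      _ ≤ _ := by gcongr
  have col : ∀ k, ‖D2 (fun z => (X z).1) y v w k • fderiv ℝ g (X y).1 (Pi.single k 1)‖ ≤
      B * ‖v‖ * ‖w‖ * u := by
    intro k
    rcases hk k with h | h
    · let L : (ι → ℝ) →L[ℝ] ℝ := ContinuousLinearMap.proj k
      have e1 := D2_clm_comp L cd y v w
      have e2 : (fun z => L (X z).1) =ᶠ[𝓝 y]
          fun z => (L.comp (ContinuousLinearMap.fst ℝ (ι → ℝ) ℝ)) z := h
      rw [D2_congr e2, D2_clm] at e1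
      have e3 : D2 (fun z => (X z).1) y v w k = 0 := e1.symm
      rw [e3, zero_smul, norm_zero]
      positivity
    · have h7 := (norm_le_pi_norm (D2 (fun z => (X z).1) y v w) k).trans
        (norm_D2_apply_le _ y v w)
      have h8 := p2.trans hB
      rw [norm_smul]
      exact mul_le_mul (h7.trans (by gcongr)) h (norm_nonneg _) (by positivity)
  set s := D2 (fun z => (X z).1) y v w with hs
  have a4 : fderiv ℝ g (X y).1 s = ∑ k, s k • fderiv ℝ g (X y).1 (Pi.single k 1) := by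
    conv_lhs => rw [pi_eq_sum_univ' s]
    simp only [map_sum, map_smul]
  have a5 := (norm_sum_le _ _).trans (Finset.sum_le_sum (s := Finset.univ) fun k _ => col k)
  rw [← a4, Finset.sum_const, Finset.card_univ, nsmul_eq_mul] at a5
  refine (norm_add_le _ _).trans ((add_le_add (a3.trans a3') a5).trans (le_of_eq ?_))
  ring

omit [DecidableEq ι] in
theorem comp2 {X : (ι → ℝ) × ℝ → (ι → ℝ) × ℝ} (hX : ContDiff ℝ 2 X) (y : (ι → ℝ) × ℝ)
    {A B t : ℝ} (hA : ‖fderiv ℝ X y‖ ^ 2 ≤ A) (hB : ‖D2 X y‖ ≤ B) (ht : |(X y).2| ≤ t) :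
    ‖D2 (fun z => phi (X z).2) y‖ ≤ t * A + t ^ 2 / 2 * B := by
  have cd : ContDiff ℝ 2 fun z => (X z).2 := hX.snd
  obtain ⟨-, p1, p2⟩ := parts hX y
  have t0 : 0 ≤ t := (abs_nonneg _).trans ht
  have a1 := (phi_deriv2_le (X y).2).trans ht
  have a2 : |deriv phi (X y).2| ≤ t ^ 2 / 2 := by
    refine (phi_deriv_le _).trans ?_
    rw [← sq_abs]
    gcongr
  refine (norm_D2_comp_le phi_c2b.cd cd y).trans ?_
  rw [norm_D2_real phi_c2b.cd, norm_fderiv_real]
  have a3 : ‖fderiv ℝ (fun z => (X z).2) y‖ ^ 2 ≤ A := le_trans (by gcongr) hA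
  have a4 := p2.trans hB
  gcongr

omit [DecidableEq ι] in
theorem pair {a : (ι → ℝ) × ℝ → ι → ℝ} {b : (ι → ℝ) × ℝ → ℝ} (ha : ContDiff ℝ 2 a)
    (hb : ContDiff ℝ 2 b) (y : (ι → ℝ) × ℝ) {C : ℝ} (h1 : ‖D2 a y‖ ≤ C) (h2 : ‖D2 b y‖ ≤ C) :
    ‖D2 (fun z => (a z, b z)) y‖ ≤ C := by
  have cd : ContDiff ℝ 2 fun z => (a z, b z) := ha.prodMk hb
  refine norm_D2_le_of_apply ((norm_nonneg (D2 a y)).trans h1) fun v w => ?_
  have e1 := D2_clm_comp (ContinuousLinearMap.fst ℝ (ι → ℝ) ℝ) cd y v w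
  have e2 := D2_clm_comp (ContinuousLinearMap.snd ℝ (ι → ℝ) ℝ) cd y v w
  simp only [ContinuousLinearMap.coe_fst', ContinuousLinearMap.coe_snd'] at e1 e2
  rw [Prod.norm_def, ← e1, ← e2]
  exact max_le ((norm_D2_apply_le _ y v w).trans (by gcongr))
    ((norm_D2_apply_le _ y v w).trans (by gcongr))

theorem el_le {lam K : ℝ} (h0 : 0 < lam) (hK : 1 / lam ≤ K) (i n : ℕ) :
    1 / el lam (i + n) ≤ K ^ n / el lam i := by
  have a := el_pos h0 i
  have e : el lam (i + n) = lam ^ n * el lam i := by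
    unfold el
    ring
  have K0 : 0 ≤ 1 / lam := by positivity
  calc _ = (1 / lam) ^ n / el lam i := by
        rw [e, one_div_pow]
        field_simp
    _ ≤ _ := by gcongr

variable {q lam K C Bs : ℝ} {B : ℕ → ℝ} {act : ℕ → ι → (ι → ℝ) → ℝ}
  {H : ℕ → (ι → ℝ) × ℝ → (ι → ℝ) × ℝ} {g : ℕ → (ι → ℝ) → ι → ℝ} {U : ℕ → (ι → ℝ) → ℝ}
  {α ρ P : ℕ → (ι → ℝ) × ℝ → (ι → ℝ) × ℝ} {c w : ℕ → (ι → ℝ) × ℝ → ℝ}

omit [DecidableEq ι] in
theorem K_ge (hF : PF q lam K Bs B act α ρ P c w) : 100 ≤ K ∧ 1 / (2 * lam) ≤ K := by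
  have l0 := hF.l0
  have a : 100 ≤ 1 / lam := by
    rw [le_div_iff₀ l0]
    linarith [hF.l1]
  have b : 1 / (2 * lam) ≤ 1 / lam := by
    gcongr
    linarith
  exact ⟨a.trans hF.K1, b.trans hF.K1⟩

theorem xi_bound (hC : ChainStmt) (hT : PT q lam K C act H g U)
    (hF : PF q lam K Bs B act α ρ P c w) (i n : ℕ) :
    ContDiff ℝ 2 (Xi2 H P ρ α i n) ∧ ∀ y,
      ‖fderiv ℝ (Xi2 H P ρ α i n) y‖ ^ 2 ≤ K ^ 4 *
        ∏ k ∈ Finset.range (n + 1), K ^ 3 * w (i + k) (Gs (fun l => α (i + l)) k y) ∧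
      ‖D2 (Xi2 H P ρ α i n) y‖ ≤ 6 * (K ^ 4 *
        ∏ k ∈ Finset.range (n + 1), K ^ 3 * w (i + k) (Gs (fun l => α (i + l)) k y)) /
          el lam i := by
  obtain ⟨K100, K2⟩ := K_ge hF
  have K1 : 1 ≤ K := by linarith
  have l0 := hF.l0
  have li := el_pos l0 i
  have lj := el_pos l0 (i + n)
  have lji : el lam (i + n) ≤ el lam i := el_anti l0 (by linarith [hF.l1]) (Nat.le_add_right i n)
  obtain ⟨h1, h2⟩ := hC ((ι → ℝ) × ℝ) (fun k => el lam (i + k)) (fun k => el_pos l0 _) (fun k => by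
    have a := el_lt l0 hF.l1 (show i + k < i + (k + 1) by omega)
    have b := el_pos l0 (i + k)
    linarith)
  obtain ⟨gc, gb⟩ := h1 (fun k => α (i + k)) (fun k => w (i + k)) (fun k => hF.aC _)
    (fun k => hF.w1 _) (fun k => hF.wd1 _) (fun k => hF.wd2 _) n
  have fc := h2 (fun k => P (i + k)) K K1 (fun k => (hF.pC _).mono K2 le_rfl) n
  have hH : C2B (H i) K (K / el lam (i + n)) := (hT.hm i).hC.mono K2 (by gcongr)
  have qc : C2B (fun z => H i (Fw (fun k => P (i + k)) (n + 1) (ρ (i + n) z))) (K ^ (n + 3))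
      (4 * K ^ (2 * n + 5) / el lam (i + n)) := by
    refine (hH.comp (fc.comp (hF.rC (i + n)))).mono (le_of_eq (by ring)) ?_
    have a : K ^ (n + 3) ≤ K ^ (2 * n + 5) := pow_le_pow_right₀ K1 (by omega)
    calc _ = (3 * K ^ (2 * n + 5) + K ^ (n + 3)) / el lam (i + n) := by ring
      _ ≤ _ := by
        gcongr
        linarith
  refine ⟨qc.cd.comp gc, fun y => ?_⟩
  obtain ⟨b1, b2⟩ := gb y
  rw [Finset.prod_mul_distrib, Finset.prod_const, Finset.card_range]
  set W := ∏ k ∈ Finset.range (n + 1), w (i + k) (Gs (fun l => α (i + l)) k y) with hW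
  have W0 : 0 ≤ W := (sq_nonneg _).trans b1
  have q1 := qc.d1 (Gs (fun k => α (i + k)) (n + 1) y)
  have q2 := qc.d2 (Gs (fun k => α (i + k)) (n + 1) y)
  constructor
  · have a := norm_fderiv_comp_le' qc.cd gc y
    have a2 : K ^ (2 * n + 6) ≤ K ^ (3 * n + 7) := pow_le_pow_right₀ K1 (by omega)
    calc _ ≤ (K ^ (n + 3) * ‖fderiv ℝ (Gs (fun k => α (i + k)) (n + 1)) y‖) ^ 2 := by
          gcongr
          exact a.trans (by gcongr)
      _ = K ^ (2 * n + 6) * ‖fderiv ℝ (Gs (fun k => α (i + k)) (n + 1)) y‖ ^ 2 := by ring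
      _ ≤ K ^ (3 * n + 7) * W := by gcongr
      _ = _ := by ring
  · have a := norm_D2_comp_le qc.cd gc y
    have a2 : K ^ (n + 3) ≤ K ^ (2 * n + 5) := pow_le_pow_right₀ K1 (by omega)
    have a3 : K ^ (3 * n + 5) ≤ K ^ (3 * n + 7) := pow_le_pow_right₀ K1 (by omega)
    have a4 := el_le l0 hF.K1 i n
    calc _ ≤ _ := a
      _ ≤ 4 * K ^ (2 * n + 5) / el lam (i + n) * W +
            K ^ (2 * n + 5) * (2 * W / el lam (i + n)) := by
          gcongr
          exact q1.trans a2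
      _ = 6 * K ^ (2 * n + 5) * W * (1 / el lam (i + n)) := by ring
      _ ≤ 6 * K ^ (2 * n + 5) * W * (K ^ n / el lam i) := by gcongr
      _ = 6 * (K ^ (3 * n + 5) * W) / el lam i := by ring
      _ ≤ 6 * (K ^ (3 * n + 7) * W) / el lam i := by gcongr
      _ = _ := by ring

end StripX

open StripX

theorem stripS (hC : ChainStmt) (hE : StripEqStmt) : StripStmt := by
  intro ι _ _ q lam K C Bs B act H g U α ρ P c w hT hF i j y hij hy hside
  obtain ⟨n, rfl⟩ := Nat.exists_eq_add_of_le hij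
  have hE' := hE ι q lam K C Bs B act H g U α ρ P c w hT hF i n
  have l0 := hF.l0
  have li := el_pos l0 i
  have li1 := el_pos l0 (i + 1)
  have ll := el_lt l0 hF.l1 (Nat.lt_succ_self i)
  obtain ⟨e1, e2, -⟩ := hE' y (by linarith)
  obtain ⟨xc, xb⟩ := xi_bound hC hT hF i n
  obtain ⟨b1, b2⟩ := xb y
  have eW : ∏ k ∈ Finset.range (n + 1), K ^ 3 * w (i + k) (Gs (fun l => α (i + l)) k y) =
      Wp K w α i (i + n) y := by
    unfold Wp
    rw [← Finset.Ico_add_one_right_eq_Icc, Finset.prod_Ico_eq_prod_range,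
      show i + n + 1 - i = n + 1 by omega]
    exact Finset.prod_congr rfl fun k _ => by rw [(e1 k).1]
  rw [eW] at b1 b2
  set W := K ^ 4 * Wp K w α i (i + n) y with hW
  have W0 : 0 ≤ W := (sq_nonneg _).trans b1
  have nb : ∀ᶠ z in 𝓝 y, ‖z - y‖ ≤ el lam (i + 1) / 20 := by
    filter_upwards [closedBall_mem_nhds y (by linarith : 0 < el lam (i + 1) / 20)] with z hz
    exact mem_closedBall_iff_norm.1 hz
  have key : ∀ z : (ι → ℝ) × ℝ, ‖z - y‖ ≤ el lam (i + 1) / 20 →
      FF2 H P ρ α (i + n) z = (g i (Xi2 H P ρ α i n z).1, phi (Xi2 H P ρ α i n z).2) ∧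
      ∀ k, (∀ x', ‖x' - z.1‖ ≤ el lam i / 4 →
        act i k x' = 0 ∧ ∀ i', i = i' + 1 → act i' k x' = 0) →
          (Xi2 H P ρ α i n z).1 k = z.1 k := by
    intro z hz
    have a := abs_le.1 (snd_le hz)
    have b := abs_le.1 hy
    refine (hE' z (abs_lt.2 ⟨by linarith, by linarith⟩)).2.2 ?_
    rcases hside with h | h
    · exact Or.inl (by omega)
    · exact Or.inr (by linarith)
  have e : FF2 H P ρ α (i + n) =ᶠ[𝓝 y]
      fun z => (g i (Xi2 H P ρ α i n z).1, phi (Xi2 H P ρ α i n z).2) := by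
    filter_upwards [nb] with z hz
    exact (key z hz).1
  have U0 := hT.u0 i y.1
  have U3 := hT.usv i y.1 (Xi2 H P ρ α i n y).1 (by
    rw [norm_sub_rev]
    linarith [fst_le e2])
  have c1 := comp1 xc (hT.gcd i) y b1 b2 (u := 3 * U i y.1) (D := 3 * U i y.1 / el lam i)
    (by linarith) ((hT.gd2 i _).trans (by gcongr)) (fun k => by
      by_cases h : ∀ x', ‖x' - y.1‖ ≤ el lam i / 2 →
          act i k x' = 0 ∧ ∀ i', i = i' + 1 → act i' k x' = 0
      · left
        filter_upwards [nb] with z hz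
        refine (key z hz).2 k fun x' hx => h x' ?_
        have := norm_sub_le_norm_sub_add_norm_sub x' z.1 y.1
        linarith [fst_le hz]
      · right
        push Not at h
        obtain ⟨x', h1, h2⟩ := h
        have h3 : ‖(Xi2 H P ρ α i n y).1 - x'‖ ≤ el lam i := by
          have := norm_sub_le_norm_sub_add_norm_sub (Xi2 H P ρ α i n y).1 y.1 x'
          rw [norm_sub_rev y.1] at this
          linarith [fst_le e2]
        refine le_trans ?_ U3
        by_cases h0 : act i k x' = 0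
        · obtain ⟨i', hi, h4⟩ := h2 h0
          subst hi
          exact hT.gc2 i' k _ x' h3 h4
        · exact hT.gc1 i k _ x' h3 h0)
  have c2 := comp2 xc y b1 b2 (t := 5 * el lam i) (by
    have a := abs_le.1 (snd_le e2)
    have b := abs_le.1 hy
    exact abs_le.2 ⟨by linarith, by linarith⟩)
  have N0 : (0 : ℝ) ≤ Fintype.card ι := Nat.cast_nonneg _
  have r0 : 0 ≤ U i y.1 / el lam i := by positivity
  have eU : Ut lam U i y.1 / el lam i = U i y.1 / el lam i + el lam i := by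
    unfold Ut
    field_simp
  rw [D2_congr e, eU]
  have eR : 100 * ((Fintype.card ι : ℝ) + 1) * K ^ 4 * (U i y.1 / el lam i + el lam i) *
      Wp K w α i (i + n) y =
      100 * ((Fintype.card ι : ℝ) + 1) * ((U i y.1 / el lam i + el lam i) * W) := by
    rw [hW]
    ring
  rw [eR]
  have m1 : 0 ≤ U i y.1 / el lam i * W := by positivity
  have m2 : 0 ≤ el lam i * W := by positivity
  have m3 := mul_nonneg N0 m1
  have m4 := mul_nonneg N0 m2
  refine pair ((hT.gcd i).comp xc.fst) (phi_c2b.cd.comp xc.snd) y (c1.trans ?_) (c2.trans ?_)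
  · calc _ = 3 * (U i y.1 / el lam i * W) +
          18 * ((Fintype.card ι : ℝ) * (U i y.1 / el lam i * W)) := by ring
      _ ≤ _ := by nlinarith
  · calc _ = 80 * (el lam i * W) := by
          field_simp
          ring
      _ ≤ _ := by nlinarith

end SK

end
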