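import Mathlib
import Pool.Agent.Mg.Xedaf86.G06b4b8
import Pool.Agent.Mg.Xedaf86.G39d375

section

namespace SK
open SJ Set Filter Topology MeasureTheory Metric Function
open scoped ENNReal

namespace TColX
section
variable {E : Type} [NormedAddCommGroup E] [NormedSpace ℝ E]

theorem off {φ : E → ℝ} {y : E} (h : y ∉ tsupport φ) :
    φ y = 0 ∧ fderiv ℝ φ y = 0 ∧ D2 φ y = 0 := by
  have h1 : φ =ᶠ[𝓝 y] fun _ => 0 := notMem_tsupport_iff_eventuallyEq.1 h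
  refine ⟨h1.eq_of_nhds, ?_, ?_⟩
  · rw [h1.fderiv_eq]; simp
  · rw [D2_congr h1, D2_const]

theorem pt {φ : E → ℝ} {y : E} {A B T β σ : ℝ} (M : ℕ) (h : C2B φ A B) (h1 : φ y ≤ 1)
    (hT : 0 ≤ T) (hσ : 0 ≤ σ) (hs : y ∈ tsupport φ → β ≤ σ ∧ T = 1) :
    φ y ≤ T ^ M ∧ ‖fderiv ℝ φ y‖ ≤ A * T ^ M ∧ β * ‖fderiv ℝ φ y‖ ≤ σ * A ∧
      β * ‖D2 φ y‖ ≤ σ * B := by
  have hA := h.nonneg1
  have hB := h.nonneg2
  by_cases hy : y ∈ tsupport φ
  · obtain ⟨a, b⟩ := hs hy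
    subst b
    refine ⟨by simpa using h1, by simpa using h.d1 y, ?_, ?_⟩
    · exact mul_le_mul a (h.d1 y) (norm_nonneg _) hσ
    · exact mul_le_mul a (h.d2 y) (norm_nonneg (D2 φ y)) hσ
  · obtain ⟨a, b, c⟩ := off hy
    rw [a, b, c, ContinuousLinearMap.opNorm_zero, ContinuousLinearMap.opNorm_zero, mul_zero]
    refine ⟨by positivity, by positivity, by positivity, by positivity⟩

theorem sumle {L : ℕ} {w : Fin L → ℝ} {W : ℝ} (h : ∀ n, w n ≤ W) : ∑ n, w n ≤ L * W := by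
  have := Finset.sum_le_card_nsmul Finset.univ w W fun n _ => h n
  simpa using this

/-- the first order term -/
theorem t0 {L : ℕ} {D : Fin L → E →L[ℝ] ℝ} {u : Fin L → ℝ} {η ω ℓ A β σ : ℝ} (hη : 0 < η)
    (hω : 0 < ω) (hω1 : ω ≤ 1) (hℓ : 0 < ℓ) (hu : ∀ n, |u n| ≤ η * ω ^ (n : ℕ) * ℓ)
    (h1 : ∀ n, ‖D n‖ ≤ A) (h2 : ∀ n : Fin L, ω ^ (n : ℕ) * β * ‖D n‖ ≤ σ * A) :
    ∃ c0 : ℝ, (∀ a, |∑ n, u n * D n a| ≤ c0 * ‖a‖) ∧ 0 ≤ c0 ∧ c0 ≤ L * (η * ℓ * A) ∧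
      β * c0 ≤ L * (η * ℓ * (σ * A)) := by
  refine ⟨∑ n : Fin L, η * ω ^ (n : ℕ) * ℓ * ‖D n‖, fun a => ?_, by positivity,
    sumle fun n => ?_, ?_⟩
  · rw [Finset.sum_mul]
    refine (Finset.abs_sum_le_sum_abs _ _).trans (Finset.sum_le_sum fun n _ => ?_)
    rw [abs_mul, mul_assoc]
    exact mul_le_mul (hu n) ((D n).le_opNorm a) (abs_nonneg _) (by positivity)
  · have a : ω ^ (n : ℕ) ≤ 1 := pow_le_one₀ hω.le hω1
    have b : η * ω ^ (n : ℕ) * ℓ ≤ η * ℓ := by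
      have : η * ω ^ (n : ℕ) ≤ η := mul_le_of_le_one_right hη.le a
      exact mul_le_mul_of_nonneg_right this hℓ.le
    exact mul_le_mul b (h1 n) (norm_nonneg _) (by positivity)
  · rw [Finset.mul_sum]
    refine sumle fun n => ?_
    have := mul_le_mul_of_nonneg_left (h2 n) (mul_pos hη hℓ).le
    linarith

/-- the second order term -/
theorem t2 {L : ℕ} {D : Fin L → E →L[ℝ] E →L[ℝ] ℝ} {u : Fin L → ℝ} {η ω ℓ A β σ : ℝ}
    (hη : 0 < η) (hω : 0 < ω) (hω1 : ω ≤ 1) (hℓ : 0 < ℓ)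
    (hu : ∀ n, |u n| ≤ η * ω ^ (n : ℕ) * ℓ)
    (h1 : ∀ n, ‖D n‖ ≤ A) (h2 : ∀ n : Fin L, ω ^ (n : ℕ) * β * ‖D n‖ ≤ σ * A) :
    ∃ c0 : ℝ, (∀ a b, |∑ n, u n * D n a b| ≤ c0 * ‖a‖ * ‖b‖) ∧ 0 ≤ c0 ∧
      c0 ≤ L * (η * ℓ * A) ∧ β * c0 ≤ L * (η * ℓ * (σ * A)) := by
  have hn : ∀ n, 0 ≤ ‖D n‖ := fun n => norm_nonneg (D n)
  refine ⟨∑ n : Fin L, η * ω ^ (n : ℕ) * ℓ * ‖D n‖, fun a b => ?_,
    Finset.sum_nonneg fun n _ => mul_nonneg (by positivity) (hn n), sumle fun n => ?_, ?_⟩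
  · rw [Finset.sum_mul, Finset.sum_mul]
    refine (Finset.abs_sum_le_sum_abs _ _).trans (Finset.sum_le_sum fun n _ => ?_)
    rw [abs_mul, mul_assoc, mul_assoc, ← mul_assoc ‖D n‖]
    exact mul_le_mul (hu n) ((D n).le_opNorm₂ a b) (abs_nonneg _) (by positivity)
  · have a : ω ^ (n : ℕ) ≤ 1 := pow_le_one₀ hω.le hω1
    have b : η * ω ^ (n : ℕ) * ℓ ≤ η * ℓ := by
      have : η * ω ^ (n : ℕ) ≤ η := mul_le_of_le_one_right hη.le a
      exact mul_le_mul_of_nonneg_right this hℓ.le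
    exact mul_le_mul b (h1 n) (hn n) (by positivity)
  · rw [Finset.mul_sum]
    refine sumle fun n => ?_
    have := mul_le_mul_of_nonneg_left (h2 n) (mul_pos hη hℓ).le
    linarith

/-- the mixed term -/
theorem t1 {L : ℕ} {D : Fin L → E →L[ℝ] ℝ} {DL : E →L[ℝ] ℝ} {du g T : Fin L → ℝ}
    {ω A β σ TL : ℝ} (hω : 0 < ω) (hω1 : ω ≤ 1) (hβ : 0 ≤ β)
    (hu : ∀ n, |du n| ≤ 1 / ω ^ (L - n)) (hg : ∀ n, du n = g n - 1) (g0 : ∀ n, 0 ≤ g n)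
    (hs : ∑ n, D n = -DL) (h1 : ∀ n, ‖D n‖ ≤ A)
    (h2 : ∀ n : Fin L, ω ^ (n : ℕ) * β * ‖D n‖ ≤ σ * A) (h3 : ∀ n, ‖D n‖ ≤ A * T n)
    (h4 : ‖DL‖ ≤ A * TL) :
    ∃ e1 : ℝ, (∀ a, |∑ n, du n * D n a| ≤ e1 * ‖a‖) ∧ 0 ≤ e1 ∧ e1 ≤ L * (A / ω ^ L) ∧
      e1 ≤ A * (TL + ∑ n, g n * T n) ∧ β * e1 ≤ L * (σ * A / ω ^ L) := by
  have hL : 0 < ω ^ L := by positivity
  have k0 : ‖∑ n, du n • D n‖ ≤ ∑ n, |du n| * ‖D n‖ := by
    refine (norm_sum_le _ _).trans (Finset.sum_le_sum fun n _ => ?_)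
    rw [norm_smul, Real.norm_eq_abs]
  have k1 : ∀ n : Fin L, 1 / ω ^ (L - n) = ω ^ (n : ℕ) / ω ^ L := fun n => by
    have : ω ^ L = ω ^ (L - n) * ω ^ (n : ℕ) := by
      rw [← pow_add, Nat.sub_add_cancel n.2.le]
    rw [this]
    field_simp
  refine ⟨‖∑ n, du n • D n‖, fun a => ?_, norm_nonneg _, k0.trans (sumle fun n => ?_), ?_, ?_⟩
  · have := (∑ n, du n • D n).le_opNorm a
    simpa using this
  · have a : ω ^ (n : ℕ) ≤ 1 := pow_le_one₀ hω.le hω1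
    have b : |du n| ≤ 1 / ω ^ L := (hu n).trans (by rw [k1]; gcongr)
    calc |du n| * ‖D n‖ ≤ 1 / ω ^ L * A := mul_le_mul b (h1 n) (norm_nonneg _) (by positivity)
      _ = A / ω ^ L := by ring
  · have e : ∑ n, du n • D n = DL + ∑ n, g n • D n := by
      have e1 : ∀ n, du n • D n = g n • D n - D n := fun n => by
        ext a
        simp [hg, sub_mul]
      simp only [e1, Finset.sum_sub_distrib, hs]
      abel
    rw [e, mul_add, Finset.mul_sum]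
    refine (norm_add_le _ _).trans (add_le_add h4 ((norm_sum_le _ _).trans
      (Finset.sum_le_sum fun n _ => ?_)))
    rw [norm_smul, Real.norm_eq_abs, abs_of_nonneg (g0 n)]
    have := mul_le_mul_of_nonneg_left (h3 n) (g0 n)
    linarith
  · refine (mul_le_mul_of_nonneg_left k0 hβ).trans ?_
    rw [Finset.mul_sum]
    refine sumle fun n => ?_
    have a : |du n| ≤ ω ^ (n : ℕ) / ω ^ L := (hu n).trans (k1 n).le
    calc β * (|du n| * ‖D n‖) ≤ β * (ω ^ (n : ℕ) / ω ^ L * ‖D n‖) := by gcongr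
      _ = ω ^ (n : ℕ) * β * ‖D n‖ / ω ^ L := by ring
      _ ≤ σ * A / ω ^ L := div_le_div_of_nonneg_right (h2 n) hL.le

/-- the slope -/
theorem t3 {L : ℕ} {θ du g T : Fin L → ℝ} {τ cL TL : ℝ} (hτ : 0 ≤ τ) (hc : 0 ≤ cL)
    (hg : ∀ n, du n = g n - 1) (g0 : ∀ n, 0 ≤ g n) (θ0 : ∀ n, 0 ≤ θ n)
    (hs : ∑ n, θ n = 1 - τ - cL) (h3 : ∀ n, θ n ≤ T n) (h4 : cL ≤ TL) :
    0 ≤ 1 + ∑ n, θ n * du n ∧ 1 + ∑ n, θ n * du n ≤ τ + TL + ∑ n, g n * T n := by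
  have e : ∑ n, θ n * du n = ∑ n, θ n * g n - (1 - τ - cL) := by
    simp only [hg, mul_sub, mul_one, Finset.sum_sub_distrib, hs]
  have a : 0 ≤ ∑ n, θ n * g n := Finset.sum_nonneg fun n _ => mul_nonneg (θ0 n) (g0 n)
  have b : ∑ n, θ n * g n ≤ ∑ n, g n * T n := Finset.sum_le_sum fun n _ => by
    rw [mul_comm]; exact mul_le_mul_of_nonneg_left (h3 n) (g0 n)
  rw [e]
  constructor <;> linarith

/-- the pure second derivative in the last variable -/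
theorem t4 {L : ℕ} {θ ddu g T : Fin L → ℝ} {τ TL G : ℝ} (hτ : 0 ≤ τ) (hT : 0 ≤ TL) (hG : 0 ≤ G)
    (g0 : ∀ n, 0 ≤ g n) (θ0 : ∀ n, 0 ≤ θ n) (θ1 : ∀ n, θ n ≤ 1) (h3 : ∀ n, θ n ≤ T n)
    (hd : ∀ n, |ddu n| ≤ G * (g n + τ / (L + 1))) :
    |∑ n, θ n * ddu n| ≤ (τ + TL + ∑ n, g n * T n) * G := by
  have a : ∀ n, |θ n * ddu n| ≤ g n * T n * G + τ / (L + 1) * G := fun n => by
    rw [abs_mul, abs_of_nonneg (θ0 n)]
    have b := mul_le_mul_of_nonneg_left (hd n) (θ0 n)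
    have c := mul_le_mul_of_nonneg_left (h3 n) (mul_nonneg (g0 n) hG)
    have d := mul_le_mul_of_nonneg_left (θ1 n)
      (show 0 ≤ τ / (L + 1) * G by positivity)
    linarith
  refine (Finset.abs_sum_le_sum_abs _ _).trans ((Finset.sum_le_sum fun n _ => a n).trans ?_)
  rw [Finset.sum_add_distrib, ← Finset.sum_mul]
  have b : ∑ _n : Fin L, τ / (L + 1) * G ≤ L * (τ / (L + 1) * G) := sumle fun _ => le_rfl
  have c : (L : ℝ) * (τ / (L + 1) * G) ≤ τ * G := by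
    have : (L : ℝ) * (τ / (L + 1) * G) = L / (L + 1) * (τ * G) := by ring
    rw [this]
    refine mul_le_of_le_one_left (by positivity) ?_
    rw [div_le_one (by positivity)]
    linarith
  have d := mul_nonneg hT hG
  linarith

end
end TColX
end SK

end

section

namespace SK
open SJ Set Filter Topology MeasureTheory Metric Function
open scoped ENNReal

namespace TColX

theorem sumd {ι : Type} [Fintype ι] {w : ι → ℝ} {S : ℝ} (hS : 0 ≤ S)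
    (h : ∀ i, ((Fintype.card ι : ℝ) + 1) * w i ≤ S) : ∑ i, w i ≤ S := by
  have hd : (0 : ℝ) < (Fintype.card ι : ℝ) + 1 := by positivity
  have a := Finset.sum_le_card_nsmul Finset.univ w (S / ((Fintype.card ι : ℝ) + 1)) fun i _ => by
    rw [le_div_iff₀ hd, mul_comm]; exact h i
  rw [Finset.card_univ, nsmul_eq_mul] at a
  refine a.trans ?_
  rw [mul_div_assoc', div_le_iff₀ hd]
  nlinarith

theorem nums {d r L M : ℕ} {K η ω τ : ℝ} (h : TPar d r L M K η ω τ) :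
    ((d : ℝ) + 1) * L * K * η ≤ 1 / 100 ∧ ((d : ℝ) + 1) * L * K * ω ≤ 1 / 1000 ∧
      (L : ℝ) * K * η ≤ 1 / 100 ∧ (L : ℝ) * K * ω ≤ 1 / 1000 ∧ K * ω ≤ 1 / 1000 ∧
      ω ≤ 1 / 1000 := by
  have k := h.K1
  have e := h.e0
  have w := h.w0
  have d0 : (0 : ℝ) ≤ d := Nat.cast_nonneg _
  have r0 : (0 : ℝ) ≤ r := Nat.cast_nonneg _
  have L1 : (1 : ℝ) ≤ L := by exact_mod_cast h.L1
  have a1 : ((d : ℝ) + 1) * L * K * η ≤ 1 / 100 := by
    have : ((d : ℝ) + 1) * L * K * η ≤ ((d : ℝ) + 1) * ((L : ℝ) + 1) * K * η := by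
      gcongr; linarith
    linarith [h.he]
  have a2 : ((d : ℝ) + 1) * L * K * ω ≤ 1 / 1000 := by
    have : ((d : ℝ) + 1) * 1 * L * K * ω ≤
        ((d : ℝ) + 1) * ((r : ℝ) + 1) * ((L : ℝ) + 1) * K * ω := by
      gcongr <;> linarith
    linarith [h.hw]
  have a3 : 0 ≤ (d : ℝ) * (L * K * η) := by positivity
  have a4 : 0 ≤ (d : ℝ) * (L * K * ω) := by positivity
  have a5 : (L : ℝ) * K * ω ≤ 1 / 1000 := by linarith
  have a6 : 1 * (K * ω) ≤ L * (K * ω) := by gcongr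
  have a7 : 1 * ω ≤ K * ω := by gcongr
  exact ⟨a1, a2, by linarith, a5, by linarith, by linarith⟩

theorem leG {ω ℓ t : ℝ} (L : ℕ) (hω : 0 < ω) (hℓ : 0 < ℓ) (h : t * ω ≤ 1) :
    t / (ω ^ L * ℓ) ≤ 1 / (ω ^ (L + 1) * ℓ) := by
  have : t / (ω ^ L * ℓ) = t * ω / (ω ^ (L + 1) * ℓ) := by
    field_simp
    ring
  rw [this]
  gcongr

theorem dd {d r L M : ℕ} {K η ω τ ℓ φ c : ℝ} {u f : ℝ → ℝ} (h : TPar d r L M K η ω τ)
    (hℓ : 0 < ℓ) (n : Fin L) (hp : Prf M K (ω ^ (L - n)) (η * ω ^ (n : ℕ) * ℓ) φ u f c) (v : ℝ) :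
    |deriv (deriv u) v| ≤ 1 / (ω ^ (L + 1) * ℓ) * (c * f v ^ M + τ / (L + 1)) := by
  have k := h.K1
  have e := h.e0
  have w := h.w0
  have M2 : (2 : ℝ) ≤ M := by exact_mod_cast h.M2
  have w1 : ω ≤ 1 := by linarith [(nums h).2.2.2.2.2]
  have c0 : 0 ≤ c := by linarith [hp.c1]
  have f0 := (hp.f01 v).1
  have hν : 0 < 128 * (M : ℝ) * K ^ 2 * ω / η := by positivity
  have a := hp.ddu v _ hν
  have e1 : ω ^ (L - n) * ω ^ (n : ℕ) = ω ^ L := by rw [← pow_add, Nat.sub_add_cancel n.2.le]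
  have e2 : ω ^ (L - n) * (η * ω ^ (n : ℕ) * ℓ) = η * ω ^ L * ℓ := by rw [← e1]; ring
  rw [e2] at a
  have b : c * (128 * (M : ℝ) * K ^ 2 * ω / η) ^ M ≤ τ / (L + 1) := by
    have b1 : ω ^ L ≤ ω ^ (L - n) := pow_le_pow_of_le_one w.le w1 (Nat.sub_le _ _)
    have b2 : c ≤ 1 / ω ^ L := hp.c2.trans (by gcongr)
    have b3 : c * ω ^ L ≤ 1 := by rwa [le_div_iff₀ (by positivity)] at b2
    rw [le_div_iff₀ (by positivity)]
    have b4 := mul_le_mul_of_nonneg_left h.n2 c0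
    have b5 := mul_le_mul_of_nonneg_left b3 h.t0.le
    linarith
  have g0 : 0 ≤ c * f v ^ M := by positivity
  have t0 := h.t0
  have s : K / (η * ω ^ L * ℓ) ≤ 128 * (M : ℝ) * K ^ 2 * ω / η * (1 / (ω ^ (L + 1) * ℓ)) := by
    have : 128 * (M : ℝ) * K ^ 2 * ω / η * (1 / (ω ^ (L + 1) * ℓ)) =
        128 * (M : ℝ) * K * K / (η * ω ^ L * ℓ) := by
      field_simp
      ring
    rw [this]
    refine div_le_div_of_nonneg_right ?_ (by positivity)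
    have : (1 : ℝ) ≤ 128 * (M : ℝ) * K := by nlinarith
    nlinarith
  refine le_of_mul_le_mul_left (a.trans ?_) hν
  rw [← mul_assoc]
  exact mul_le_mul s (by linarith) (by positivity) (by positivity)

theorem one (hS : SumProdStmt) {ι : Type} [Fintype ι] [DecidableEq ι] {r L M : ℕ}
    {K η ω τ ℓ : ℝ} {b : ι → (ι → ℝ) → ℝ} {φ : ι → Fin L → ℝ} {u f : ι → Fin L → ℝ → ℝ}
    {c : ι → Fin L → ℝ} (hP : TPar (Fintype.card ι) r L M K η ω τ) (hℓ : 0 < ℓ)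
    (hW : TW K r L ω ℓ b) (hp : PrfT L M K η ω ℓ φ u f c) (x y : ι → ℝ) (hxy : ‖x - y‖ ≤ ℓ)
    (i : ι) (hb : 0 ≤ b i y) (F : (ι → ℝ) × ℝ → ℝ)
    (hF : F = FT τ (fun k (n : Fin L) => th r ω b n k) u i) (σ G fk : ℝ)
    (hσ : σ = smf r b y / ω) (hG : G = 1 / (ω ^ (L + 1) * ℓ))
    (hf : fk = fT r L M ω τ b f c i x) :
    ContDiff ℝ 2 F ∧ ∃ c0 e0 e1 : ℝ,
      (∀ a, |fderiv ℝ F (y, x i) (a, 0)| ≤ c0 * ‖a‖) ∧ (0 ≤ c0 ∧ c0 ≤ 1 / 2) ∧
      ((Fintype.card ι : ℝ) + 1) * (b i y * c0) ≤ σ / 2 ∧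
      (0 ≤ slp F (y, x i) ∧ slp F (y, x i) ≤ fk) ∧
      (∀ a a', |D2 F (y, x i) (a, 0) (a', 0)| ≤ e0 * ‖a‖ * ‖a'‖) ∧
      (0 ≤ e0 ∧ e0 * (6 / ω ^ L) ≤ G) ∧
      ((Fintype.card ι : ℝ) + 1) * (b i y * (e0 * (6 / ω ^ L))) ≤ σ * G ∧
      (∀ a, |D2 F (y, x i) (a, 0) (0, 1)| ≤ e1 * ‖a‖) ∧
      (0 ≤ e1 ∧ e1 ≤ G ∧ e1 * (6 / ω ^ L) ≤ fk * G) ∧
      ((Fintype.card ι : ℝ) + 1) * (b i y * e1) ≤ σ * G ∧
      |D2 F (y, x i) (0, 1) (0, 1)| ≤ fk * G := by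
  obtain ⟨n1, n2, n3, n4, n5, n6⟩ := nums hP
  have k := hP.K1
  have e := hP.e0
  have w := hP.w0
  have τ0 := hP.t0
  have τ1 := hP.t1
  have w1 : ω ≤ 1 := by linarith
  have s0 := hW.sL.pos y
  have σ0 : 0 ≤ σ := by rw [hσ]; positivity
  have G0 : 0 ≤ G := by rw [hG]; positivity
  have d0 : (0 : ℝ) < (Fintype.card ι : ℝ) + 1 := by positivity
  have ab : |1 - τ| ≤ 1 := by rw [abs_le]; constructor <;> linarith
  have sc : ∀ ψ : (ι → ℝ) → ℝ, C2B ψ (K / ℓ) (K / ℓ ^ 2) →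
      C2B (fun z => (1 - τ) * ψ z) (K / ℓ) (K / ℓ ^ 2) := fun ψ hψ =>
    (hψ.const_mul (1 - τ)).mono (mul_le_of_le_one_left (by positivity) ab)
      (mul_le_of_le_one_left (by positivity) ab)
  have su : ∀ ψ : (ι → ℝ) → ℝ, y ∈ tsupport (fun z => (1 - τ) * ψ z) → y ∈ tsupport ψ :=
    fun ψ hy => tsupport_mul_subset_right hy
  have s1 : ∀ t : ℝ, 0 ≤ t → t ≤ 1 → 0 ≤ (1 - τ) * t ∧ (1 - τ) * t ≤ 1 := fun t a a' => by
    constructor <;> nlinarith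
  obtain ⟨Θ, hΘ⟩ : ∃ Θ : Fin L → (ι → ℝ) → ℝ, Θ = fun (n : Fin L) z => (1 - τ) * th r ω b n i z :=
    ⟨_, rfl⟩
  obtain ⟨CL, hCL⟩ : ∃ CL : (ι → ℝ) → ℝ, CL = fun z => (1 - τ) * cc r ω b L i z := ⟨_, rfl⟩
  have hF' : F = spF Θ (u i) := by rw [hF, hΘ]; rfl
  have ΘC : ∀ n, C2B (Θ n) (K / ℓ) (K / ℓ ^ 2) := fun n => by
    rw [hΘ]; exact sc _ (hW.thC n i)
  have CC : C2B CL (K / ℓ) (K / ℓ ^ 2) := by rw [hCL]; exact sc _ (hW.ccC L i)
  have Θ1 : ∀ n, 0 ≤ Θ n y ∧ Θ n y ≤ 1 := fun n => by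
    rw [hΘ]
    refine s1 _ (hW.th0 n i y) ?_
    unfold th
    linarith [(hW.cc01 n i y).2, (hW.cc01 (n + 1) i y).1]
  have C1 : 0 ≤ CL y ∧ CL y ≤ 1 := by
    rw [hCL]; exact s1 _ (hW.cc01 L i y).1 (hW.cc01 L i y).2
  have ΘS : ∀ z, ∑ n, Θ n z = 1 - τ - CL z := fun z => by
    rw [hΘ, hCL]
    simp only [← Finset.mul_sum, hW.thS, actT]
    ring
  have DS : ∑ n, fderiv ℝ (Θ n) y = -fderiv ℝ CL y := by
    rw [← fderiv_fun_sum fun n _ => (ΘC n).diff y, funext ΘS]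
    exact fderiv_const_sub _
  have PΘ := fun n : Fin L => pt (y := y) (T := ct r ω b n i x) (β := ω ^ (n : ℕ) * b i y)
    (σ := 2 * σ) M (ΘC n) (Θ1 n).2 (hW.ct01 n i x).1 (by positivity) fun hy => by
      rw [hΘ] at hy
      have hy' := su _ hy
      refine ⟨?_, hW.thL n i x y hxy hy'⟩
      have := hW.thU n i y hy'
      rw [hσ, ← mul_div_assoc, le_div_iff₀ w]
      rw [pow_succ] at this
      linarith
  have PC := pt (y := y) (T := ct r ω b L i x) (β := 0) (σ := 0) M CC C1.2 (hW.ct01 L i x).1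
    le_rfl fun hy => by
      rw [hCL] at hy
      exact ⟨le_rfl, hW.ccL L i x y hxy (su _ hy)⟩
  obtain ⟨hcd, hS⟩ := hS (Fin L) (ι → ℝ) Θ (u i) (fun n => (ΘC n).cd) fun n => (hp i n).uC.cd
  have g0 : ∀ n, 0 ≤ c i n * f i n (x i) ^ M := fun n =>
    mul_nonneg (by linarith [(hp i n).c1]) (pow_nonneg ((hp i n).f01 _).1 _)
  have fe : fk = τ + ct r ω b L i x ^ M +
      ∑ n : Fin L, c i n * f i n (x i) ^ M * ct r ω b n i x ^ M := by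
    rw [hf]
    unfold fT
    simp only [mul_pow, mul_assoc]
  have T0 : 0 ≤ ct r ω b L i x ^ M := pow_nonneg (hW.ct01 L i x).1 _
  obtain ⟨c0, a1, a2, a3, a4⟩ := t0 (D := fun n => fderiv ℝ (Θ n) y) (u := fun n => u i n (x i))
    e w w1 hℓ (fun n => (hp i n).ub _) (fun n => (ΘC n).d1 y) fun n => (PΘ n).2.2.1
  obtain ⟨e0, b1, b2, b3, b4⟩ := t2 (D := fun n => D2 (Θ n) y) (u := fun n => u i n (x i))
    e w w1 hℓ (fun n => (hp i n).ub _) (fun n => (ΘC n).d2 y) fun n => (PΘ n).2.2.2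
  obtain ⟨e1, c1, c2, c3, c4, c5⟩ := t1 (D := fun n => fderiv ℝ (Θ n) y)
    (du := fun n => deriv (u i n) (x i)) (g := fun n => c i n * f i n (x i) ^ M)
    (T := fun n => ct r ω b n i x ^ M) w w1 hb
    (fun n => (norm_fderiv_real _ _).symm.trans_le ((hp i n).uC.d1 _)) (fun n => (hp i n).du _) g0
    DS (fun n => (ΘC n).d1 y) (fun n => (PΘ n).2.2.1) (fun n => (PΘ n).2.1) PC.2.1
  have d1 := t3 (θ := fun n => Θ n y) (du := fun n => deriv (u i n) (x i))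
    (g := fun n => c i n * f i n (x i) ^ M) (T := fun n => ct r ω b n i x ^ M) τ0.le C1.1
    (fun n => (hp i n).du _) g0 (fun n => (Θ1 n).1) (ΘS y) (fun n => (PΘ n).1) PC.1
  have d2 := t4 (θ := fun n => Θ n y) (ddu := fun n => deriv (deriv (u i n)) (x i))
    (g := fun n => c i n * f i n (x i) ^ M) (T := fun n => ct r ω b n i x ^ M) τ0.le T0 G0 g0
    (fun n => (Θ1 n).1) (fun n => (Θ1 n).2) (fun n => (PΘ n).1) fun n => by
      rw [hG]; exact dd hP hℓ n (hp i n) _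
  rw [← fe] at d1 d2
  have c4' : e1 ≤ K / ℓ * fk := by
    refine c4.trans (mul_le_mul_of_nonneg_left ?_ (by positivity))
    rw [fe]
    linarith
  have fk0 : 0 ≤ fk := d1.1.trans d1.2
  have W0 : 0 < ω ^ L := by positivity
  have lg : ∀ t : ℝ, t * ω ≤ 1 → t / (ω ^ L * ℓ) ≤ G := fun t ht => by
    rw [hG]; exact leG L w hℓ ht
  subst hF'
  refine ⟨hcd, c0, e0, e1, fun a => ?_, ⟨a2, a3.trans ?_⟩, ?_, ?_, fun a a' => ?_, ⟨b2, ?_⟩, ?_,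
    fun a => ?_, ⟨c2, c3.trans ?_, ?_⟩, ?_, ?_⟩
  · rw [(hS (y, x i) a a).1]; exact a1 a
  · have : (L : ℝ) * (η * ℓ * (K / ℓ)) = L * K * η := by field_simp
    linarith
  · refine (mul_le_mul_of_nonneg_left a4 d0.le).trans ?_
    have : ((Fintype.card ι : ℝ) + 1) * (L * (η * ℓ * (2 * σ * (K / ℓ)))) =
        2 * σ * (((Fintype.card ι : ℝ) + 1) * L * K * η) := by field_simp
    rw [this]
    nlinarith
  · unfold slp
    rw [(hS (y, x i) 0 0).2.1]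
    exact d1
  · rw [(hS (y, x i) a a').2.2.1]; exact b1 a a'
  · refine (mul_le_mul_of_nonneg_right b3 (by positivity)).trans ?_
    have : (L : ℝ) * (η * ℓ * (K / ℓ ^ 2)) * (6 / ω ^ L) = 6 * (L * K * η) / (ω ^ L * ℓ) := by
      field_simp
    rw [this]
    exact lg _ (by nlinarith)
  · rw [← mul_assoc (b i y)]
    refine (mul_le_mul_of_nonneg_left (mul_le_mul_of_nonneg_right b4 (by positivity))
      d0.le).trans ?_
    have : ((Fintype.card ι : ℝ) + 1) * (L * (η * ℓ * (2 * σ * (K / ℓ ^ 2))) * (6 / ω ^ L)) =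
        σ * (12 * (((Fintype.card ι : ℝ) + 1) * L * K * η) / (ω ^ L * ℓ)) := by
      field_simp
      ring
    rw [this]
    exact mul_le_mul_of_nonneg_left (lg _ (by nlinarith)) σ0
  · rw [(hS (y, x i) a a).2.2.2.1]; exact c1 a
  · have : (L : ℝ) * (K / ℓ / ω ^ L) = L * K / (ω ^ L * ℓ) := by field_simp
    rw [this]
    exact lg _ (by linarith)
  · refine (mul_le_mul_of_nonneg_right c4' (by positivity)).trans ?_
    have : K / ℓ * fk * (6 / ω ^ L) = fk * (6 * K / (ω ^ L * ℓ)) := by field_simp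
    rw [this]
    exact mul_le_mul_of_nonneg_left (lg _ (by linarith)) fk0
  · refine (mul_le_mul_of_nonneg_left c5 d0.le).trans ?_
    have : ((Fintype.card ι : ℝ) + 1) * (L * (2 * σ * (K / ℓ) / ω ^ L)) =
        σ * (2 * (((Fintype.card ι : ℝ) + 1) * L * K) / (ω ^ L * ℓ)) := by
      field_simp
    rw [this]
    exact mul_le_mul_of_nonneg_left (lg _ (by linarith)) σ0
  · rw [(hS (y, x i) 0 0).2.2.2.2]; exact d2

end TColX

theorem tCol (hE : TEstStmt) (hS : SumProdStmt) : TColStmt := by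
  intro ι _ _ r L M K η ω τ ℓ g h b U φ u f c B hP hℓ hT hW hp hC hI hd x k
  have w := hP.w0
  have n6 := (TColX.nums hP).2.2.2.2.2
  have hxy : ‖x - h x‖ ≤ ℓ := by
    rw [norm_sub_rev]
    linarith [hd x]
  have b0 : ∀ i z, 0 < b i z := fun i z => (hT.lg i).pos z
  have s0 := hW.sL.pos
  have H := fun i => TColX.one hS hP hℓ hW hp x (h x) hxy i (b0 i _).le _ rfl _ _ _ rfl rfl rfl
  have σ0 : 0 ≤ smf r b (h x) / ω := (div_pos (s0 _) w).le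
  have G0 : 0 ≤ 1 / (ω ^ (L + 1) * ℓ) := by positivity
  choose c0 e0 e1 p1 p2 p3 p4 p5 p6 p7 p8 p9 p10 p11 using fun i => (H i).2
  have key := hE ι g h (FT τ (fun k (n : Fin L) => th r ω b n k) u) x ℓ (smf r b (h x) / ω)
    (6 / ω ^ L) (1 / (ω ^ (L + 1) * ℓ)) (fun i => b i (h x)) c0 e0 e1
    (fun i => fT r L M ω τ b f c i x) hT.cd hC.cd (fun i => (H i).1) hI hℓ σ0 G0 (hC.d1 x)
    (by rw [div_div]; exact TColX.leG L w hℓ (by linarith)) (fun i => hT.col _ i)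
    (fun i v => hT.mix _ i v) p1 p2 (TColX.sumd (by positivity) p3) p4 p5 p6
    (TColX.sumd (mul_nonneg σ0 G0) p7) p8 p9 (TColX.sumd (mul_nonneg σ0 G0) p10) p11 k
  have f0 : 0 ≤ fT r L M ω τ b f c k x := (p4 k).1.trans (p4 k).2
  have v1 : b k (h x) ≤ 3 * b k x :=
    (hT.lg k).sv (by positivity) x (h x) (hxy.trans (by linarith))
  have v2 : smf r b (h x) ≤ 3 * smf r b x :=
    hW.sL.sv (by positivity) x (h x) (hxy.trans (by linarith))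
  have v3 : smf r b (h x) / ω ≤ 3 * (smf r b x / ω) := by
    rw [← mul_div_assoc]
    exact div_le_div_of_nonneg_right v2 w.le
  have v4 : 12 * (fT r L M ω τ b f c k x * (b k (h x) + smf r b (h x) / ω)) ≤
      bN r L M ω τ b f c k x := by
    have := mul_le_mul_of_nonneg_left (add_le_add v1 v3) f0
    unfold bN
    linarith
  have v5 : 0 ≤ fT r L M ω τ b f c k x * (b k (h x) + smf r b (h x) / ω) :=
    mul_nonneg f0 (add_nonneg (b0 _ _).le σ0)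
  refine ⟨key.1.trans (by linarith), fun v => (key.2 v).trans ?_⟩
  rw [div_eq_mul_one_div (bN r L M ω τ b f c k x)]
  exact mul_le_mul_of_nonneg_right (mul_le_mul_of_nonneg_right v4 G0) (norm_nonneg _)

end SK

end
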