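import Mathlib
import Pool.Agent.Mg.Xedaf86.G06b4b8
import Pool.Agent.Mg.Xedaf86.G910084

section

namespace SK
open SJ Set Filter Topology MeasureTheory Metric Function
open scoped ENNReal

namespace FPackX

theorem exM {q : ℝ} {m : ℕ} (h2 : 2 * q < m) :
    ∃ M : ℕ, 2 ≤ M ∧ (2 * M + 1) * q < M * m := by
  obtain ⟨M, hM⟩ := exists_nat_gt (q / (m - 2 * q))
  have h3 : 0 < (m : ℝ) - 2 * q := by linarith
  rw [div_lt_iff₀ h3] at hM
  refine ⟨M + 2, by omega, ?_⟩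
  push_cast
  nlinarith

theorem exP (ι : Type) [Fintype ι] (hd : 1 ≤ Fintype.card ι) (Kb : ℝ) (hK : 1 ≤ Kb) :
    ∃ (p : ι → ℕ) (P P' R : ℝ), (∀ k l, k ≠ l → Nat.Coprime (p k) (p l)) ∧ (∀ k, P ≤ p k) ∧
      (∀ k, 1 ≤ p k ∧ (p k : ℝ) ≤ P') ∧ 1 ≤ P' ∧
      ∀ lam : ℝ, 0 < lam → lam ≤ 1 / (Kb * P') ^ 2 → FPar Kb Kb P P' R (lam * Kb * P') lam := by
  obtain ⟨c, hc⟩ := exists_nat_ge (Kb * Kb * Fintype.card ι)
  obtain ⟨p, hp, hp'⟩ := exists_coprime_family ι c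
  have hf : (1 : ℝ) ≤ (Fintype.card ι).factorial := by
    exact_mod_cast Nat.succ_le_of_lt (Nat.factorial_pos _)
  have hd' : (1 : ℝ) ≤ Fintype.card ι := by exact_mod_cast hd
  have c0 : (0 : ℝ) ≤ c := Nat.cast_nonneg c
  set F : ℝ := ((Fintype.card ι).factorial : ℝ) with hF
  set D : ℝ := (Fintype.card ι : ℝ) with hD
  have e0 : 0 ≤ F * c := by positivity
  have e1 : c ≤ F * c := by nlinarith
  have e2 : F * c ≤ D * (F * c) := by nlinarith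
  refine ⟨p, F * c + 1, D * (F * c) + 1, Kb * Kb * (D * (F * c) + 1) * (F * c + 1) ^ 2, hp,
    fun k => ?_, fun k => ⟨by have := (hp' k).1; omega, ?_⟩, by linarith, fun lam l0 l1 => ?_⟩
  · rw [hF]; exact_mod_cast (hp' k).1
  · rw [hF, hD]; exact_mod_cast (hp' k).2
  · refine ⟨le_rfl, by linarith, by linarith, ?_, le_rfl, l0, rfl, ?_⟩
    · have a1 : D * (F * c) + 1 ≤ D * (F * c + 1) := by nlinarith
      calc Kb * Kb * (D * (F * c) + 1) ≤ Kb * Kb * (D * (F * c + 1)) := by gcongr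
        _ = Kb * Kb * D * (F * c + 1) := by ring
        _ ≤ (F * c + 1) * (F * c + 1) := by gcongr; linarith
        _ = _ := by ring
    · have a2 : 0 < (Kb * (D * (F * c) + 1)) ^ 2 := by positivity
      rw [le_div_iff₀ a2] at l1
      nlinarith

variable {ι : Type} [Fintype ι] [DecidableEq ι]

omit [DecidableEq ι] in
theorem laMono {lam ℓ Kw Kw' : ℝ} {M m : ℕ} {A : ι → (ι → ℝ) × ℝ → ℝ}
    {α ρ : (ι → ℝ) × ℝ → (ι → ℝ) × ℝ} {ν χ : (ι → ℝ) × ℝ → ℝ} (h : LA lam ℓ Kw M m A α ρ ν χ)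
    (hK : Kw ≤ Kw') (hl : 0 < ℓ) (hν : ∀ y, 0 < ν y) : LA lam ℓ Kw' M m A α ρ ν χ := by
  refine ⟨h.aC, h.aal, h.ad, h.atop, h.apass, h.rC.mono hK (by gcongr), h.r1, h.rd, h.rtop,
    h.rdet, h.ctop, fun y => (h.d1 y).trans ?_, fun y => (h.d2 y).trans ?_,
    fun y => (h.det1 y).trans ?_, fun y a b c => (h.det2 y a b c).trans ?_⟩ <;>
  · have := hν y
    gcongr

omit [DecidableEq ι] in
theorem lbMono {lam ℓ Kw Kw' : ℝ} {A : ι → (ι → ℝ) × ℝ → ℝ} {P : (ι → ℝ) × ℝ → (ι → ℝ) × ℝ}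
    (h : LB lam ℓ Kw A P) (hK : Kw ≤ Kw') (hl : 0 < ℓ) : LB lam ℓ Kw' A P :=
  ⟨h.pC.mono le_rfl (by gcongr), h.pinj, h.pd, h.ptop, h.ppass⟩

theorem num {Kb P P' R ε lam KΘ ℓ : ℝ} (h : FPar Kb Kb P P' R ε lam) (h1 : 1 ≤ KΘ)
    (h2 : 256 * KΘ ≤ Kb) (hl : 0 < ℓ) :
    0 < ℓ / R ∧ 0 < ε ∧ ε ≤ 1 ∧ 0 < Kb * P' * (ℓ / R / 16) ∧ Kb * P' * (ℓ / R / 16) ≤ ℓ ∧
      KΘ / (Kb * P' * (ℓ / R / 16)) ≤ 1 / (2 * (P' * (ℓ / R))) ∧
      KΘ / (Kb * P' * (ℓ / R / 16)) ^ 2 ≤ 1 / (P' * (ℓ / R)) ^ 2 := by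
  have a1 := h.P1
  have a2 := h.PP
  have a3 : 1 ≤ Kb := by linarith
  have a4 : 1 ≤ P' := by linarith
  have a5 : 1 ≤ Kb * P' := by nlinarith
  have a6 : Kb * P' ≤ R := by
    refine le_trans ?_ h.hR
    have : 1 ≤ Kb * P ^ 2 := by nlinarith
    nlinarith
  have a7 : 0 < R := by linarith
  have a8 : 0 < ε := by rw [h.he]; have := h.l0; positivity
  have a9 : 0 < ℓ / R := by positivity
  refine ⟨a9, a8, by nlinarith [h.sm], by positivity, ?_, ?_, ?_⟩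
  · have : Kb * P' * (ℓ / R / 16) = ℓ * (Kb * P' / R / 16) := by ring
    rw [this]
    have : Kb * P' / R ≤ 1 := by rw [div_le_one a7]; exact a6
    nlinarith
  · rw [div_le_div_iff₀ (by positivity) (by positivity)]
    have : 0 < P' * (ℓ / R) := by positivity
    nlinarith
  · rw [div_le_div_iff₀ (by positivity) (by positivity)]
    have b1 : 0 < (P' * (ℓ / R)) ^ 2 := by positivity
    have b2 : 256 * KΘ ≤ Kb ^ 2 := by nlinarith
    have : (Kb * P' * (ℓ / R / 16)) ^ 2 = Kb ^ 2 / 256 * (P' * (ℓ / R)) ^ 2 := by ring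
    rw [this]
    nlinarith

end FPackX

open FPackX in
theorem fPack (hG : GlueStmt) (hC : ClusStmt) (hZ : ZStmt) (hF : FSqStmt) (hT : ThCStmt) (hA : LevAStmt) (hB : LevBStmt) (hN : NuStmt) : FPackStmt := by
  intro ι _ _ m q K1 hd hq hqm hK1
  obtain ⟨KG, hKG, hG⟩ := hG ι K1 hK1
  obtain ⟨M, hM, hMq⟩ := exM hqm
  obtain ⟨Kh, Kr, hKh, hKr, hB⟩ := hB ι
  obtain ⟨Kz, hKz, hZ⟩ := hZ
  obtain ⟨Kq, Kb1, hKq, hKb1, hC⟩ := hC ι m KG Kr Kh hKG (by linarith) (by linarith)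
  obtain ⟨Kc, KΘ, hKc, hKΘ, hT1, hT2⟩ := hT (ι → ℝ) M KG Kq hKG hKq
  obtain ⟨Kb2, hKb2, hA⟩ := hA ι M Kr Kq Kz hKr hKq hKz
  obtain ⟨Kb3, hKb3, hB⟩ := hB Kr Kq Kz le_rfl hKq hKz
  obtain ⟨Kb, k1, k2, k3, k4⟩ : ∃ Kb : ℝ, Kb1 ≤ Kb ∧ Kb2 ≤ Kb ∧ Kb3 ≤ Kb ∧ 256 * KΘ ≤ Kb :=
    ⟨Kb1 + Kb2 + Kb3 + 256 * KΘ, by linarith, by linarith, by linarith, by linarith⟩
  obtain ⟨p, P, P', R, p1, p2, p3, p4, hpar⟩ := exP ι hd Kb (by linarith)
  have hKb0 : 0 < Kb := by linarith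
  refine ⟨min (1 / 100) (1 / (Kb * P') ^ 2), lt_min (by norm_num) (by positivity),
    fun lam l0 l1 KT act req hR => ?_⟩
  have l2 : lam ≤ 1 / 100 := l1.trans (min_le_left _ _)
  have par := hpar lam l0 (l1.trans (min_le_right _ _))
  set ε := lam * Kb * P' with hε
  obtain ⟨Ks, hKs, hF⟩ := hF ι M P' hM p4
  obtain ⟨KwA, hKwA, hA⟩ := hA Kb P P' R ε lam (par.mono hKb2 k2) Ks hKs
  obtain ⟨KwB, hKwB, hB⟩ := hB Kb P P' R ε lam (par.mono hKb3 k3) Ks hKs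
  obtain ⟨Kw, w1, w2⟩ : ∃ Kw : ℝ, KwA ≤ Kw ∧ KwB ≤ Kw := ⟨KwA + KwB, by linarith, by linarith⟩
  obtain ⟨K, j1, j2, j3⟩ : ∃ K : ℝ, KT ≤ K ∧ Kw ≤ K ∧ 1 / lam ≤ K :=
    ⟨max KT (max Kw (1 / lam)), le_max_left _ _, le_max_of_le_right (le_max_left _ _),
      le_max_of_le_right (le_max_right _ _)⟩
  obtain ⟨νs, Bs, ν0, B, n1, n2, n3, n4⟩ := hN q K Kw (1 / 2 ^ (Fintype.card ι + 5)) M m hq hMq
    (by linarith) (by linarith) (by positivity)
  obtain ⟨A, Rq, hAR⟩ := hG lam (2 * m) act req l0 l2 hR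
  have e0 := el_pos l0
  have e1 : ∀ j, el lam j ≤ 1 := fun j => by
    have := el_anti l0 (by linarith) (Nat.zero_le j)
    rw [el_zero] at this
    linarith
  have nu := fun j => num par hKΘ k4 (e0 j)
  choose qq ee e2 hcl using fun j =>
    hC Kb P P' R ε lam (el lam j) p (A j) (Rq j) (par.mono hKb1 k1) p1 p2 (e0 j) (e1 j) (hAR j).1
  choose Z hZ using fun j =>
    (hZ ε (el lam j / R / 16) (nu j).2.1 (nu j).2.2.1 (by linarith [(nu j).1])).1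
  choose uu hF using fun j => hF p (el lam j / R) p3 (nu j).1
  have km : ∀ j, Kb * P' * (el lam (j + 1) / R / 16) = ε * (el lam j / R / 16) := fun j => by
    rw [el_succ, hε]; ring
  have hch := fun j => hT1 (qq j) (ee j) (el lam j / R / 16) _ (ε * (el lam j / R / 16))
    (by rw [← km]; exact (nu (j + 1)).2.2.2.1)
    (by nlinarith [(nu j).1, (nu j).2.1, (nu j).2.2.1]) (hcl j).qe
  obtain ⟨c, c0, c1⟩ : ∃ c : ℕ → (ι → ℝ) × ℝ → ℝ, c 0 = (fun _ => 1) ∧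
      ∀ j, c (j + 1) = chi2 (qq j) (ee j) (ε * (el lam j / R / 16)) :=
    ⟨fun j => Nat.casesOn j (fun _ => 1) fun j => chi2 (qq j) (ee j) (ε * (el lam j / R / 16)),
      rfl, fun _ => rfl⟩
  have hc : ∀ j, C2B (c j) (Kc / (Kb * P' * (el lam j / R / 16)))
      (Kc / (Kb * P' * (el lam j / R / 16)) ^ 2) ∧ ∀ y, 0 ≤ c j y ∧ c j y ≤ 1 := fun j => by
    cases j with
    | zero =>
      have := (nu 0).2.2.2.1
      rw [c0]
      exact ⟨(C2B.const _).mono (by positivity) (by positivity), fun _ => by norm_num⟩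
    | succ j => rw [c1, km]; exact ⟨(hch j).1, (hch j).2.2⟩
  have hth := fun j k χ h1 h2 => hT2 (el lam j) (Kb * P' * (el lam j / R / 16)) (ν0 j) νs (A j k)
    (c j) χ (nu j).2.2.2.1 (nu j).2.2.2.2.1 (n3 j).1 (n3 j).2.1 n1 ((hAR j).1.aC k)
    ((hAR j).1.a01 k) (hc j).1 (hc j).2 h1 h2
  have hν : ∀ j y, ν0 j ≤ nuf (ν0 j) νs (c j) y ∧ nuf (ν0 j) νs (c j) y ≤ 2 * νs := fun j y => by
    have a := (hc j).2 y
    have b := n3 j
    unfold nuf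
    constructor <;> nlinarith [a.1, a.2, b.1, b.2.1]
  have hν0 : ∀ j y, 0 < nuf (ν0 j) νs (c j) y := fun j y => (n3 j).1.trans_le (hν j y).1
  have hν1 : ∀ j y, nuf (ν0 j) νs (c j) y ≤ 1 := fun j y => by linarith [(hν j y).2]
  choose a b hab using fun j => hF j (fun k => Th (el lam j) M (A j k) (nuf (ν0 j) νs (c j)))
    (nuf (ν0 j) νs (c j)) (ν0 j) (n3 j).1 (fun y => ⟨(hν j y).1, hν1 j y⟩)
    (fun k y => ((hth j k (c j) (hc j).1 (hc j).2).2.2 y).2.2)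
    (fun k => (hth j k (c j) (hc j).1 (hc j).2).1.mono (nu j).2.2.2.2.2.1 (nu j).2.2.2.2.2.2)
  have hχ : ∀ j, C2B (ConjX.chi (qq j) (ee j) (Kb * P' * (el lam (j + 1) / R / 16)))
      (Kc / (Kb * P' * (el lam (j + 1) / R / 16))) (Kc / (Kb * P' * (el lam (j + 1) / R / 16)) ^ 2) :=
    fun j => by rw [km]; exact (hch j).2.1
  choose a' b' hab' using fun j => hF (j + 1)
    (fun k y => ConjX.chi (qq j) (ee j) (Kb * P' * (el lam (j + 1) / R / 16)) y *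
      Th (el lam (j + 1)) M (A (j + 1) k) (nuf (ν0 (j + 1)) νs (c (j + 1))) y)
    (nuf (ν0 (j + 1)) νs (c (j + 1))) (ν0 (j + 1)) (n3 (j + 1)).1
    (fun y => ⟨(hν (j + 1) y).1, hν1 (j + 1) y⟩)
    (fun k y => by
      have t := ((hth (j + 1) k _ (hχ j) (ConjX.chi01 _ _ _)).2.2 y).2.2
      have s := ConjX.chi01 (qq j) (ee j) (Kb * P' * (el lam (j + 1) / R / 16)) y
      exact ⟨mul_nonneg s.1 t.1, le_trans (mul_le_of_le_one_left t.1 s.2) t.2⟩)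
    (fun k => (hth (j + 1) k _ (hχ j) (ConjX.chi01 _ _ _)).2.1.mono (nu (j + 1)).2.2.2.2.2.1
      (nu (j + 1)).2.2.2.2.2.2)
  have hLA := fun j => laMono (hA m KG Kh (el lam j) _ p (uu j) (A j) (Rq j) (qq j) (ee j) (e2 j)
    (nuf (ν0 j) νs (c j)) (a j) (b j) (Z j) (e0 j) (hAR j).1 (hcl j) (fun y => ⟨hν0 j y, hν1 j y⟩)
    (hab j) (hZ j)) w1 (e0 j) (hν0 j)
  choose Pm hPm hid using fun j => hB M m (el lam j) (el lam (j + 1)) _ _ p (uu (j + 1)) (A (j + 1))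
    (fun k => Th (el lam (j + 1)) M (A (j + 1) k) (nuf (ν0 (j + 1)) νs (c (j + 1)))) (Rq j)
    (Rq (j + 1)) (qq j) (ee j) (e2 j) (qq (j + 1)) (ee (j + 1)) (e2 (j + 1))
    (nuf (ν0 (j + 1)) νs (c (j + 1))) (a (j + 1)) (b (j + 1)) (a' j) (b' j) (Z (j + 1)) (e0 j)
    (el_succ lam j) (km j) (hcl j) (hcl (j + 1)) (hab (j + 1)) (hab' j)
    (fun k y h => by simp only [Th, h, mul_zero, zero_mul]) (hZ (j + 1))
  obtain ⟨PP, q0, q1⟩ : ∃ PP : ℕ → (ι → ℝ) × ℝ → (ι → ℝ) × ℝ, PP 0 = (fun y => y) ∧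
      ∀ j, PP (j + 1) = Pm j := ⟨fun j => Nat.casesOn j (fun y => y) Pm, rfl, fun _ => rfl⟩
  have hLB : ∀ j, LB lam (el lam j) K (A j) (PP j) := fun j => by
    cases j with
    | zero =>
      have := e0 0
      have h2 : 0 ≤ K := by linarith
      rw [q0]
      refine ⟨C2B.id'.mono ?_ (by positivity), fun _ _ h => h, fun y => ?_, fun _ _ => rfl,
        fun _ _ _ => rfl⟩
      · rw [le_div_iff₀ (by positivity)]; linarith
      · rw [sub_self, norm_zero]; positivity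
    | succ j => rw [q1]; exact lbMono (hPm j) (w2.trans j2) (e0 _)
  have hsil : ∀ j y k, Sil lam act j k y → ∀ z, ‖z - y‖ ≤ el lam j / 50 → A j k z = 0 :=
    fun j y k h z hz => (hAR j).2 k z (h z hz)
  refine ⟨K, Bs, B, fun j y => vm (qq j) (ee j) (Z j) (a j y), fun j => rho (ee j), PP, c,
    fun j y => Kw / nuf (ν0 j) νs (c j) y ^ (2 * M + 1), j1, hq, l0, l2, j3,
    fun j => (hLA j).aC, fun j => (hLA j).aal, fun j => (hLA j).ad, fun j => (hLA j).atop,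
    fun j y k h => (hLA j).apass y k (hsil j y k h y ?_),
    fun j => (hLA j).rC.mono j2 ?_, fun j => (hLA j).r1, fun j => (hLA j).rd,
    fun j => (hLA j).rtop, fun j y h => (hLA j).rdet y (by rwa [c1] at h), fun y => by rw [q0],
    fun j => (hLB j).pC, fun j => (hLB j).pinj, fun j => (hLB j).pd, fun j => (hLB j).ptop,
    fun j y k h => (hLB j).ppass y k (hsil j y k h), fun j => (hc j).1.cont, fun y => by rw [c0],
    fun j y h => (hLA j).ctop y (by rwa [c1] at h), fun j y h1 h2 => ?_, fun j y => ?_,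
    fun j => (hLA j).d1, fun j => (hLA j).d2, fun j => (n3 j).2.2, n2, fun j y => ?_,
    fun j y h => ?_, fun j y h1 h2 h3 => ?_, fun j y h1 h2 h3 h4 => ?_⟩
  · rw [sub_self, norm_zero]
    linarith [e0 j]
  · have := e0 j
    gcongr
  · rw [q1]
    rw [c1] at h1 h2
    exact hid j y (by rwa [km]) h2
  · rw [le_div_iff₀ (pow_pos (hν0 j y) _)]
    have := pow_le_one₀ (n := 2 * M + 1) (hν0 j y).le (hν1 j y)
    linarith
  · exact (n4 j _ _ (abs_nonneg _) (hν j y).1).1 ((hLA j).det1 y)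
  · refine (n4 j _ _ (abs_nonneg _) (hν j y).1).2.1 ?_ ((hLA j).det1 y)
    unfold nuf
    rw [h]
    linarith [(n3 j).1]
  · rw [c1] at h3
    exact (n4 j _ _ (abs_nonneg _) (hν j y).1).2.2.1 (hν j y).2 ((hLA j).det2 y h1 h2 h3)
  · rw [c1] at h3
    refine (n4 j _ _ (abs_nonneg _) (hν j y).1).2.2.2 ?_ ((hLA j).det2 y h1 h2 h3)
    unfold nuf
    rw [h4]
    ring

end SK

end

section

namespace SK
open SJ Set Filter Topology MeasureTheory Metric Function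
open scoped ENNReal

namespace FPack2X

theorem num2 {Kb P P' R ε lam KΘ KG ℓ : ℝ} (h : FPar Kb Kb P P' R ε lam) (h1 : 1 ≤ KΘ)
    (h2 : 256 * KΘ ≤ Kb) (h3 : 1 ≤ KG) (h4 : 8 * KG ≤ Kb) (hl : 0 < ℓ) :
    KΘ / (Kb * P' * (ℓ / R / 16)) ≤ 1 / (8 * (P' * (ℓ / R))) ∧
      KG / ℓ ≤ 1 / (8 * (P' * (ℓ / R))) ∧ KG / ℓ ^ 2 ≤ 1 / (P' * (ℓ / R)) ^ 2 := by
  have a1 := h.P1
  have a2 := h.PP
  have a3 : 1 ≤ Kb := by linarith
  have a4 : 1 ≤ P' := by linarith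
  have a6 : Kb * P' ≤ R := by
    refine le_trans ?_ h.hR
    have : 1 ≤ Kb * P ^ 2 := by nlinarith
    have : 0 < Kb * P' := by positivity
    nlinarith
  have a5 : 8 * KG * P' ≤ R := by nlinarith
  have a7 : 0 < R := by nlinarith
  have a9 : 0 < P' * (ℓ / R) := by positivity
  have b1 : 8 * KG * (P' * (ℓ / R)) ≤ ℓ := by
    have : 8 * KG * (P' * (ℓ / R)) = ℓ * (8 * KG * P' / R) := by ring
    rw [this]
    have : 8 * KG * P' / R ≤ 1 := by rw [div_le_one a7]; exact a5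
    nlinarith
  refine ⟨?_, ?_, ?_⟩
  · rw [div_le_div_iff₀ (by positivity) (by positivity)]
    nlinarith
  · rw [div_le_div_iff₀ (by positivity) (by positivity)]
    nlinarith
  · rw [div_le_div_iff₀ (by positivity) (by positivity)]
    have b2 : (8 * KG * (P' * (ℓ / R))) ^ 2 ≤ ℓ ^ 2 := by gcongr
    have b3 : 0 < (P' * (ℓ / R)) ^ 2 := by positivity
    have b4 : KG ≤ (8 * KG) ^ 2 := by nlinarith
    calc KG * (P' * (ℓ / R)) ^ 2 ≤ (8 * KG) ^ 2 * (P' * (ℓ / R)) ^ 2 := by gcongr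
      _ = (8 * KG * (P' * (ℓ / R))) ^ 2 := by ring
      _ ≤ 1 * ℓ ^ 2 := by linarith

theorem th_le {X : Type} [NormedAddCommGroup X] [NormedSpace ℝ X] {ℓ : ℝ} {M : ℕ}
    {A ν : X × ℝ → ℝ} {y : X × ℝ} (h : 0 ≤ A y) (h0 : 0 ≤ ν y) (h1 : ν y ≤ 1) :
    Th ℓ M A ν y ≤ A y := by
  have a := st_nonneg (-2 / ℓ * y.2 - 1)
  have b := st_le_one (-2 / ℓ * y.2 - 1)
  have c := pow_nonneg h0 M
  have d := pow_le_one₀ (n := M) h0 h1
  unfold Th
  calc _ ≤ 1 * A y * 1 := by gcongr; linarith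
    _ = _ := by ring

end FPack2X

open FPackX FPack2X in
theorem fPack2 (hG : GlueStmt) (hC : Clus2Stmt) (hZ : ZStmt) (hF : FSq2Stmt) (hT : ThCStmt)
    (hA : LevA2Stmt) (hB : LevB2Stmt) (hN : NuStmt) : FPack2Stmt := by
  intro ι _ _ m q K1 hq hqm hK1
  obtain ⟨KG, hKG, hG⟩ := hG ι K1 hK1
  obtain ⟨M, hM, hMq⟩ := exM hqm
  obtain ⟨Kh, Kr, hKh, hKr, hB⟩ := hB ι
  obtain ⟨Kz, hKz, hZ⟩ := hZ
  obtain ⟨Kq, Kb1, hKq, hKb1, hC⟩ := hC ι m KG Kr Kh hKG (by linarith) (by linarith)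
  obtain ⟨Kc, KΘ, hKc, hKΘ, hT1, hT2⟩ := hT (ι → ℝ) M KG Kq hKG hKq
  obtain ⟨Kb2, hKb2, hA⟩ := hA ι M Kr Kq Kz hKr hKq hKz
  obtain ⟨Kb3, hKb3, hB⟩ := hB Kr Kq Kz le_rfl hKq hKz
  obtain ⟨Kb, k1, k2, k3, k4, k5⟩ :
      ∃ Kb : ℝ, Kb1 ≤ Kb ∧ Kb2 ≤ Kb ∧ Kb3 ≤ Kb ∧ 256 * KΘ ≤ Kb ∧ 8 * KG ≤ Kb :=
    ⟨Kb1 + Kb2 + Kb3 + 256 * KΘ + 8 * KG, by linarith, by linarith, by linarith, by linarith,
      by linarith⟩
  obtain ⟨p, P, P', R, p1, p2, p3, p4, hpar⟩ := exP (Option ι) (by simp) Kb (by linarith)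
  have hKb0 : 0 < Kb := by linarith
  refine ⟨min (1 / 100) (1 / (Kb * P') ^ 2), lt_min (by norm_num) (by positivity),
    fun lam l0 l1 KT act req hR => ?_⟩
  have l2 : lam ≤ 1 / 100 := l1.trans (min_le_left _ _)
  have par := hpar lam l0 (l1.trans (min_le_right _ _))
  set ε := lam * Kb * P' with hε
  obtain ⟨Ks, hKs, hF⟩ := hF ι M P' hM p4
  obtain ⟨KwA, hKwA, hA⟩ := hA Kb P P' R ε lam (par.mono hKb2 k2) Ks hKs
  obtain ⟨KwB, hKwB, hB⟩ := hB Kb P P' R ε lam (par.mono hKb3 k3) Ks hKs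
  obtain ⟨Kw, w1, w2⟩ : ∃ Kw : ℝ, KwA ≤ Kw ∧ KwB ≤ Kw := ⟨KwA + KwB, by linarith, by linarith⟩
  obtain ⟨K, j1, j2, j3⟩ : ∃ K : ℝ, KT ≤ K ∧ Kw ≤ K ∧ 1 / lam ≤ K :=
    ⟨max KT (max Kw (1 / lam)), le_max_left _ _, le_max_of_le_right (le_max_left _ _),
      le_max_of_le_right (le_max_right _ _)⟩
  obtain ⟨νs, Bs, ν0, B, n1, n2, n3, n4⟩ := hN q K Kw (1 / 2 ^ (Fintype.card ι + 5)) M m hq hMq
    (by linarith) (by linarith) (by positivity)
  obtain ⟨A, Rq, hAR⟩ := hG lam (2 * m - 1) act req l0 l2 hR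
  have e0 := el_pos l0
  have e1 : ∀ j, el lam j ≤ 1 := fun j => by
    have := el_anti l0 (by linarith) (Nat.zero_le j)
    rw [el_zero] at this
    linarith
  have nu := fun j => num par hKΘ k4 (e0 j)
  have nv := fun j => num2 par hKΘ k4 hKG k5 (e0 j)
  have hA1 : ∀ j k, C2B (ext1 (A j) k) (KG / el lam j) (KG / el lam j ^ 2) ∧
      ∀ y, 0 ≤ ext1 (A j) k y ∧ ext1 (A j) k y ≤ 1 := fun j k => by
    cases k with
    | none =>
      have := e0 j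
      exact ⟨(C2B.const (1 : ℝ)).mono (by positivity) (by positivity),
        fun _ => ⟨zero_le_one, le_rfl⟩⟩
    | some k => exact ⟨(hAR j).1.aC k, (hAR j).1.a01 k⟩
  choose qq ee e2 hcl using fun j =>
    hC Kb P P' R ε lam (el lam j) p (A j) (Rq j) (par.mono hKb1 k1) p1 p2 (e0 j) (e1 j) (hAR j).1
  choose Z hZ using fun j =>
    (hZ ε (el lam j / R / 16) (nu j).2.1 (nu j).2.2.1 (by linarith [(nu j).1])).1
  choose uu hF using fun j => hF p (el lam j / R) p3 (nu j).1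
  have km : ∀ j, Kb * P' * (el lam (j + 1) / R / 16) = ε * (el lam j / R / 16) := fun j => by
    rw [el_succ, hε]; ring
  have hch := fun j => hT1 (qq j) (ee j) (el lam j / R / 16) _ (ε * (el lam j / R / 16))
    (by rw [← km]; exact (nu (j + 1)).2.2.2.1)
    (by nlinarith [(nu j).1, (nu j).2.1, (nu j).2.2.1]) (hcl j).qe
  obtain ⟨c, c0, c1⟩ : ∃ c : ℕ → (ι → ℝ) × ℝ → ℝ, c 0 = (fun _ => 1) ∧
      ∀ j, c (j + 1) = chi2 (qq j) (ee j) (ε * (el lam j / R / 16)) :=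
    ⟨fun j => Nat.casesOn j (fun _ => 1) fun j => chi2 (qq j) (ee j) (ε * (el lam j / R / 16)),
      rfl, fun _ => rfl⟩
  have hc : ∀ j, C2B (c j) (Kc / (Kb * P' * (el lam j / R / 16)))
      (Kc / (Kb * P' * (el lam j / R / 16)) ^ 2) ∧ ∀ y, 0 ≤ c j y ∧ c j y ≤ 1 := fun j => by
    cases j with
    | zero =>
      have := (nu 0).2.2.2.1
      rw [c0]
      exact ⟨(C2B.const _).mono (by positivity) (by positivity), fun _ => by norm_num⟩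
    | succ j => rw [c1, km]; exact ⟨(hch j).1, (hch j).2.2⟩
  have hth := fun j k χ h1 h2 => hT2 (el lam j) (Kb * P' * (el lam j / R / 16)) (ν0 j) νs
    (ext1 (A j) k) (c j) χ (nu j).2.2.2.1 (nu j).2.2.2.2.1 (n3 j).1 (n3 j).2.1 n1 (hA1 j k).1
    (hA1 j k).2 (hc j).1 (hc j).2 h1 h2
  have hν : ∀ j y, ν0 j ≤ nuf (ν0 j) νs (c j) y ∧ nuf (ν0 j) νs (c j) y ≤ 2 * νs := fun j y => by
    have a := (hc j).2 y
    have b := n3 j
    unfold nuf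
    constructor <;> nlinarith [a.1, a.2, b.1, b.2.1]
  have hν0 : ∀ j y, 0 < nuf (ν0 j) νs (c j) y := fun j y => (n3 j).1.trans_le (hν j y).1
  have hν1 : ∀ j y, nuf (ν0 j) νs (c j) y ≤ 1 := fun j y => by linarith [(hν j y).2]
  have hTA : ∀ j k y, Th (el lam j) M (A j k) (nuf (ν0 j) νs (c j)) y ≤ A j k y := fun j k y =>
    th_le ((hAR j).1.a01 k y).1 (hν0 j y).le (hν1 j y)
  have hAC := fun j k => ((hAR j).1.aC k).mono (nv j).2.1 (nv j).2.2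
  choose a b hab using fun j => hF j (A j)
    (fun k => Th (el lam j) M (ext1 (A j) k) (nuf (ν0 j) νs (c j)))
    (nuf (ν0 j) νs (c j)) (ν0 j) (n3 j).1 (fun y => ⟨(hν j y).1, hν1 j y⟩)
    (fun k y => ((hth j k (c j) (hc j).1 (hc j).2).2.2 y).2.2)
    (fun k y => ⟨hTA j k y, ((hAR j).1.a01 k y).2⟩)
    (fun k => (hth j k (c j) (hc j).1 (hc j).2).1.mono (nv j).1 (nu j).2.2.2.2.2.2) (hAC j)
  have hχ : ∀ j, C2B (ConjX.chi (qq j) (ee j) (Kb * P' * (el lam (j + 1) / R / 16)))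
      (Kc / (Kb * P' * (el lam (j + 1) / R / 16))) (Kc / (Kb * P' * (el lam (j + 1) / R / 16)) ^ 2) :=
    fun j => by rw [km]; exact (hch j).2.1
  choose a' b' hab' using fun j => hF (j + 1) (A (j + 1))
    (fun k y => ConjX.chi (qq j) (ee j) (Kb * P' * (el lam (j + 1) / R / 16)) y *
      Th (el lam (j + 1)) M (ext1 (A (j + 1)) k) (nuf (ν0 (j + 1)) νs (c (j + 1))) y)
    (nuf (ν0 (j + 1)) νs (c (j + 1))) (ν0 (j + 1)) (n3 (j + 1)).1
    (fun y => ⟨(hν (j + 1) y).1, hν1 (j + 1) y⟩)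
    (fun k y => by
      have t := ((hth (j + 1) k _ (hχ j) (ConjX.chi01 _ _ _)).2.2 y).2.2
      have s := ConjX.chi01 (qq j) (ee j) (Kb * P' * (el lam (j + 1) / R / 16)) y
      exact ⟨mul_nonneg s.1 t.1, le_trans (mul_le_of_le_one_left t.1 s.2) t.2⟩)
    (fun k y => by
      have t := ((hth (j + 1) (some k) _ (hχ j) (ConjX.chi01 _ _ _)).2.2 y).2.2
      have s := ConjX.chi01 (qq j) (ee j) (Kb * P' * (el lam (j + 1) / R / 16)) y
      exact ⟨le_trans (mul_le_of_le_one_left t.1 s.2) (hTA (j + 1) k y),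
        ((hAR (j + 1)).1.a01 k y).2⟩)
    (fun k => (hth (j + 1) k _ (hχ j) (ConjX.chi01 _ _ _)).2.1.mono (nv (j + 1)).1
      (nu (j + 1)).2.2.2.2.2.2) (hAC (j + 1))
  have hLA := fun j => laMono (hA m _ KG Kh (el lam j) _ p (uu j) (A j) (Rq j) (qq j) (ee j) (e2 j)
    (nuf (ν0 j) νs (c j)) (a j) (b j) (Z j) (e0 j) (e1 j) (hAR j).1 (hcl j) (fun y => ⟨hν0 j y, hν1 j y⟩)
    (hab j) (hZ j)) w1 (e0 j) (hν0 j)
  choose Pm hPm hid using fun j => hB M m (el lam j) (el lam (j + 1)) _ _ p (uu (j + 1)) (A (j + 1))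
    (Rq j) (Rq (j + 1))
    (fun k => Th (el lam (j + 1)) M (ext1 (A (j + 1)) k) (nuf (ν0 (j + 1)) νs (c (j + 1)))) (qq j) (ee j) (e2 j) (qq (j + 1)) (ee (j + 1)) (e2 (j + 1))
    (nuf (ν0 (j + 1)) νs (c (j + 1))) (a (j + 1)) (b (j + 1)) (a' j) (b' j) (Z (j + 1)) (e0 j)
    (el_succ lam j) (km j) (hcl j) (hcl (j + 1)) (hab (j + 1)) (hab' j)
    (fun k y h => by simp only [Th, ext1, h, mul_zero, zero_mul]) (hZ (j + 1))
  obtain ⟨PP, q0, q1⟩ : ∃ PP : ℕ → (ι → ℝ) × ℝ → (ι → ℝ) × ℝ, PP 0 = (fun y => y) ∧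
      ∀ j, PP (j + 1) = Pm j := ⟨fun j => Nat.casesOn j (fun y => y) Pm, rfl, fun _ => rfl⟩
  have hLB : ∀ j, LB lam (el lam j) K (A j) (PP j) := fun j => by
    cases j with
    | zero =>
      have := e0 0
      have h2 : 0 ≤ K := by linarith
      rw [q0]
      refine ⟨C2B.id'.mono ?_ (by positivity), fun _ _ h => h, fun y => ?_, fun _ _ => rfl,
        fun _ _ _ => rfl⟩
      · rw [le_div_iff₀ (by positivity)]; linarith
      · rw [sub_self, norm_zero]; positivity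
    | succ j => rw [q1]; exact lbMono (hPm j) (w2.trans j2) (e0 _)
  have hsil : ∀ j y k, Sil lam act j k y → ∀ z, ‖z - y‖ ≤ el lam j / 50 → A j k z = 0 :=
    fun j y k h z hz => (hAR j).2 k z (h z hz)
  refine ⟨K, Bs, B, fun j y => vm (qq j) (ee j) (Z j) (a j y), fun j => rho (ee j), PP, c,
    fun j y => Kw / nuf (ν0 j) νs (c j) y ^ (2 * M + 1), j1, hq, l0, l2, j3,
    fun j => (hLA j).aC, fun j => (hLA j).aal, fun j => (hLA j).ad, fun j => (hLA j).atop,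
    fun j y k h => (hLA j).apass y k (hsil j y k h y ?_),
    fun j => (hLA j).rC.mono j2 ?_, fun j => (hLA j).r1, fun j => (hLA j).rd,
    fun j => (hLA j).rtop, fun j y h => (hLA j).rdet y (by rwa [c1] at h), fun y => by rw [q0],
    fun j => (hLB j).pC, fun j => (hLB j).pinj, fun j => (hLB j).pd, fun j => (hLB j).ptop,
    fun j y k h => (hLB j).ppass y k (hsil j y k h), fun j => (hc j).1.cont, fun y => by rw [c0],
    fun j y h => (hLA j).ctop y (by rwa [c1] at h), fun j y h1 h2 => ?_, fun j y => ?_,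
    fun j => (hLA j).d1, fun j => (hLA j).d2, fun j => (n3 j).2.2, n2, fun j y => ?_,
    fun j y h => ?_, fun j y h1 h2 h3 => ?_, fun j y h1 h2 h3 h4 => ?_⟩
  · rw [sub_self, norm_zero]
    linarith [e0 j]
  · have := e0 j
    gcongr
  · rw [q1]
    rw [c1] at h1 h2
    exact hid j y (by rwa [km]) h2
  · rw [le_div_iff₀ (pow_pos (hν0 j y) _)]
    have := pow_le_one₀ (n := 2 * M + 1) (hν0 j y).le (hν1 j y)
    linarith
  · exact (n4 j _ _ (abs_nonneg _) (hν j y).1).1 ((hLA j).det1 y)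
  · refine (n4 j _ _ (abs_nonneg _) (hν j y).1).2.1 ?_ ((hLA j).det1 y)
    unfold nuf
    rw [h]
    linarith [(n3 j).1]
  · rw [c1] at h3
    exact (n4 j _ _ (abs_nonneg _) (hν j y).1).2.2.1 (hν j y).2 ((hLA j).det2 y h1 h2 h3)
  · rw [c1] at h3
    refine (n4 j _ _ (abs_nonneg _) (hν j y).1).2.2.2 ?_ ((hLA j).det2 y h1 h2 h3)
    unfold nuf
    rw [h4]
    ring

end SK

end
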