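import Mathlib
import Pool.Agent.Mg.Xedaf86.G06b4b8
import Pool.Agent.Mg.Xedaf86.G39d375
import Pool.Agent.Mg.Xedaf86.G910084

section

namespace SK
open SJ Set Filter Topology MeasureTheory Metric Function
open scoped ENNReal

namespace TStepX

theorem expo (r : ℕ) (q : ℝ) (hr : 1 ≤ r) (h1 : 1 ≤ q) (h2 : q < 2) (h3 : 2 * q < r + 2) :
    ∃ ε γ : ℝ, 0 < ε ∧ ε ≤ γ ∧ γ ≤ 1 ∧ ε + r * γ = q ∧ ε < 2 - q := by
  have hr' : (1 : ℝ) ≤ r := by exact_mod_cast hr
  have hr0 : (0 : ℝ) < r := by linarith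
  obtain ⟨ε, a1, a2, a3, a4⟩ : ∃ ε : ℝ, 0 < ε ∧ q - r ≤ ε ∧ ε ≤ q / (r + 1) ∧ ε < 2 - q := by
    refine ⟨max (q - r) (min ((2 - q) / 2) (q / (r + 1))), ?_, le_max_left _ _, ?_, ?_⟩
    · refine lt_max_of_lt_right (lt_min (by linarith) (by positivity))
    · refine max_le ?_ (min_le_right _ _)
      rw [le_div_iff₀ (by linarith)]
      nlinarith
    · refine max_lt (by linarith) ((min_le_left _ _).trans_lt (by linarith))
  refine ⟨ε, (q - ε) / r, a1, ?_, ?_, ?_, a4⟩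
  · rw [le_div_iff₀ (by linarith)] at a3
    rw [le_div_iff₀ hr0]
    linarith
  · rw [div_le_one hr0]
    linarith
  · field_simp
    ring

theorem small (A lam1 : ℝ) (hA : 0 ≤ A) (h : 0 < lam1) :
    ∃ ω : ℝ, 0 < ω ∧ ω ≤ lam1 ∧ A * ω ≤ 1 := by
  refine ⟨min lam1 (1 / (A + 1)), lt_min h (by positivity), min_le_left _ _, ?_⟩
  calc A * min lam1 (1 / (A + 1)) ≤ A * (1 / (A + 1)) :=
        mul_le_mul_of_nonneg_left (min_le_right _ _) hA
    _ ≤ 1 := by
        rw [mul_one_div, div_le_one (by linarith)]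
        linarith

theorem par (d r L M1 : ℕ) (K Kp lam1 : ℝ) (hK : 1 ≤ K) (hz : C2B zeta K K) (hL : 1 ≤ L)
    (hM : 1 ≤ M1) (hKp : 1 ≤ Kp) (hl : 0 < lam1) :
    ∃ η ω : ℝ, TPar d r L (L + M1 + 1) K η ω (ω ^ M1) ∧ ω ≤ lam1 ∧ 4 * Kp * ω ≤ 1 ∧
      162 * ((r : ℝ) + 1) * ω ≤ 1 := by
  obtain ⟨η, hη⟩ : ∃ η : ℝ, η = 1 / (100 * ((d : ℝ) + 1) * ((L : ℝ) + 1) * K) := ⟨_, rfl⟩
  have η0 : 0 < η := by rw [hη]; positivity
  obtain ⟨M, hMe⟩ : ∃ M : ℕ, M = L + M1 + 1 := ⟨_, rfl⟩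
  obtain ⟨A1, e1⟩ : ∃ A : ℝ, A = 1000 * ((d : ℝ) + 1) * ((r : ℝ) + 1) * ((L : ℝ) + 1) * K :=
    ⟨_, rfl⟩
  obtain ⟨A2, e2⟩ : ∃ A : ℝ, A = 128 * (M : ℝ) * K ^ 2 / η := ⟨_, rfl⟩
  obtain ⟨A3, e3⟩ : ∃ A : ℝ, A = ((L : ℝ) + 1) * A2 ^ M := ⟨_, rfl⟩
  have p1 : 0 ≤ A1 := by rw [e1]; positivity
  have p2 : 0 ≤ A2 := by rw [e2]; positivity
  have p3 : 0 ≤ A3 := by rw [e3]; positivity
  have p5 : 0 ≤ 162 * ((r : ℝ) + 1) := by positivity
  obtain ⟨ω, w0, w1, w2⟩ := small (A1 + A2 + A3 + 4 * Kp + 162 * ((r : ℝ) + 1)) lam1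
    (by positivity) hl
  have q1 := mul_nonneg p1 w0.le
  have q2 := mul_nonneg p2 w0.le
  have q3 := mul_nonneg p3 w0.le
  have q4 : 0 ≤ 4 * Kp * ω := by positivity
  have q5 := mul_nonneg p5 w0.le
  have s1 : A1 * ω ≤ 1 := by linarith
  have s2 : A2 * ω ≤ 1 := by linarith
  have s3 : A3 * ω ≤ 1 := by linarith
  have s4 : 4 * Kp * ω ≤ 1 := by linarith
  have s5 : 162 * ((r : ℝ) + 1) * ω ≤ 1 := by linarith
  have w4 : 4 * ω ≤ 1 := by nlinarith
  refine ⟨η, ω, ⟨hK, hz, hL, by omega, η0, w0, ?_, by rw [← e1]; exact s1, by positivity, ?_,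
    ?_, ?_⟩, w1, s4, s5⟩
  · rw [hη, mul_one_div, div_self (by positivity)]
  · have := pow_le_pow_of_le_one w0.le (by linarith) hM
    rw [pow_one] at this
    linarith
  · rw [← hMe]
    have : 128 * (M : ℝ) * K ^ 2 = A2 * η := by rw [e2]; field_simp
    rw [this]
    nlinarith
  · rw [← hMe]
    have e : 128 * (M : ℝ) * K ^ 2 * ω / η = A2 * ω := by rw [e2]; ring
    rw [e, mul_pow, ← mul_assoc, ← e3]
    have e' : ω ^ M = ω * (ω ^ M1 * ω ^ L) := by rw [hMe]; ring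
    rw [e', ← mul_assoc]
    exact mul_le_of_le_one_left (by positivity) s3

theorem add_rpow {a b q : ℝ} (ha : 0 ≤ a) (hb : 0 ≤ b) (hq : 0 ≤ q) :
    (a + b) ^ q ≤ (2 * a) ^ q + (2 * b) ^ q := by
  have h1 : 0 ≤ (2 * a) ^ q := by positivity
  have h2 : 0 ≤ (2 * b) ^ q := by positivity
  rcases le_total a b with h | h
  · have := Real.rpow_le_rpow (by positivity : 0 ≤ a + b) (by linarith : a + b ≤ 2 * b) hq
    linarith
  · have := Real.rpow_le_rpow (by positivity : 0 ≤ a + b) (by linarith : a + b ≤ 2 * a) hq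
    linarith

theorem upow {lam U C s q D P : ℝ} (l0 : 0 < lam) (l1 : 144 * lam ≤ 1) (hU : 0 ≤ U) (hC : 0 ≤ C)
    (hs : 0 ≤ s) (h1 : 1 ≤ q) (h2 : q < 2) (hP : s ^ q ≤ D * P) :
    (3 * lam * U + C * s) ^ q ≤ lam ^ (q - 1) / 4 * U ^ q + (2 * C) ^ q * D * P := by
  refine (add_rpow (by positivity) (by positivity) (by linarith)).trans (add_le_add ?_ ?_)
  · have e : 2 * (3 * lam * U) = 6 * lam * U := by ring
    rw [e, Real.mul_rpow (by positivity) hU, Real.mul_rpow (by norm_num) l0.le]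
    refine mul_le_mul_of_nonneg_right ?_ (by positivity)
    have a : (6 : ℝ) ^ q ≤ 6 ^ (2 : ℝ) := Real.rpow_le_rpow_of_exponent_le (by norm_num) h2.le
    have b : (6 : ℝ) ^ (2 : ℝ) = 36 := by
      rw [Real.rpow_two]; norm_num
    have c : lam ^ q = lam ^ (q - 1) * lam := by
      rw [Real.rpow_sub_one l0.ne']; field_simp
    have p : 0 < lam ^ (q - 1) := by positivity
    rw [c]
    calc (6 : ℝ) ^ q * (lam ^ (q - 1) * lam) ≤ 36 * (lam ^ (q - 1) * lam) := by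
          rw [← b]; gcongr
      _ = lam ^ (q - 1) / 4 * (144 * lam) := by ring
      _ ≤ lam ^ (q - 1) / 4 := mul_le_of_le_one_right (by positivity) l1
  · rw [← mul_assoc, Real.mul_rpow (by positivity) hs, mul_assoc]
    exact mul_le_mul_of_nonneg_left hP (by positivity)

theorem kp {Kp ω ε q : ℝ} {L : ℕ} (w0 : 0 < ω) (w1 : ω ≤ 1) (hK : 1 ≤ Kp) (h : 4 * Kp * ω ≤ 1)
    (h2 : q < 2) (hL : 4 ≤ L * (2 - q - ε)) :
    Kp * ω ^ (L * (1 - ε) - 2) ≤ (ω ^ (L + 1)) ^ (q - 1) / 4 := by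
  have e : (ω ^ (L + 1)) ^ (q - 1) = ω ^ (((L : ℝ) + 1) * (q - 1)) := by
    rw [Real.rpow_mul w0.le, ← Real.rpow_natCast]
    push_cast
    rfl
  have a : ω ^ (L * (1 - ε) - 2) ≤ ω ^ (((L : ℝ) + 1) * (q - 1) + 1) :=
    Real.rpow_le_rpow_of_exponent_ge w0 w1 (by nlinarith)
  rw [Real.rpow_add w0, Real.rpow_one] at a
  rw [e]
  have p : 0 < ω ^ (((L : ℝ) + 1) * (q - 1)) := by positivity
  calc Kp * ω ^ (L * (1 - ε) - 2) ≤ Kp * (ω ^ (((L : ℝ) + 1) * (q - 1)) * ω) := by gcongr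
    _ = ω ^ (((L : ℝ) + 1) * (q - 1)) / 4 * (4 * Kp * ω) := by ring
    _ ≤ _ := mul_le_of_le_one_right (by positivity) h

end TStepX

open TStepX in
theorem tStep (hS : SmStmt) (hW : TWStmt) (hP : ProfStmt) (hM : TMoveStmt) (hL : TLgStmt)
    (hC : TColStmt) (hU : TUStmt) (hI : TIntStmt) : TStepStmt := by
  intro ι _ _ r q hcard hr hq1 hq2 hqr
  obtain ⟨ε, γ, e0, e1, e2, e3, e4⟩ := expo r q hr hq1 hq2 hqr
  obtain ⟨L, hL4⟩ : ∃ L : ℕ, 4 ≤ L * (2 - q - ε) := by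
    obtain ⟨L, h⟩ := exists_nat_ge (4 / (2 - q - ε))
    exact ⟨L, by rwa [div_le_iff₀ (by linarith)] at h⟩
  have hL1 : 1 ≤ L := by
    rcases Nat.eq_zero_or_pos L with h | h
    · subst h
      norm_num at hL4
    · exact h
  obtain ⟨M1, hM1, hM2⟩ : ∃ M1 : ℕ, 1 ≤ M1 ∧ (L : ℝ) ≤ M1 * ε := by
    obtain ⟨M1, h⟩ := exists_nat_ge (L / ε)
    rw [div_le_iff₀ e0] at h
    refine ⟨M1 + 1, by omega, ?_⟩
    push_cast
    linarith
  obtain ⟨KW, KW1, hW⟩ := hW ι r hcard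
  obtain ⟨KP, KP1, hP⟩ := hP (L + M1 + 1) (by omega)
  obtain ⟨K0, K01, -, hz, -⟩ := exists_K0
  obtain ⟨Kp, Kp1, hI⟩ := hI ι r L hcard
  obtain ⟨K, k1, k2, k3⟩ : ∃ K : ℝ, KW ≤ K ∧ KP ≤ K ∧ K0 ≤ K :=
    ⟨KW + KP + K0, by linarith, by linarith, by linarith⟩
  refine ⟨K, by linarith, fun lam1 hl1 => ?_⟩
  obtain ⟨η, ω, tp, w1, w2, w3⟩ := par (Fintype.card ι) r L M1 K Kp lam1 (by linarith)
    (hz.mono k3 k3) hL1 hM1 Kp1 hl1
  have w0 := tp.w0
  have η0 := tp.e0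
  have r0 : (0 : ℝ) ≤ r := Nat.cast_nonneg r
  have w4 : 162 * ω ≤ 1 := by nlinarith
  have w5 : ω ≤ 1 := by linarith
  have lw : ω ^ (L + 1) ≤ ω := by
    have := pow_le_pow_of_le_one w0.le w5 (show 1 ≤ L + 1 by omega)
    rwa [pow_one] at this
  have l0 : 0 < ω ^ (L + 1) := by positivity
  have hτ : (ω ^ M1) ^ ε ≤ ω ^ L := by
    rw [← Real.rpow_natCast, ← Real.rpow_mul w0.le, ← Real.rpow_natCast]
    exact Real.rpow_le_rpow_of_exponent_ge w0 w5 hM2
  obtain ⟨KH, KH1, hM⟩ := hM ι r L (L + M1 + 1) K η ω (ω ^ M1) tp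
  obtain ⟨CU, CU0, hU⟩ := hU ι r L ω KH w0 w5
  obtain ⟨C1, c1, c2, c3⟩ : ∃ C1 : ℝ, CU ≤ C1 ∧ 18 * 2 ^ Fintype.card ι ≤ ω ^ (3 * L + 1) * C1 ∧
      1 ≤ ω ^ (2 * L + 1) * C1 := by
    have a : 0 ≤ (18 * 2 ^ Fintype.card ι : ℝ) / ω ^ (3 * L + 1) := by positivity
    have b : 0 ≤ (1 : ℝ) / ω ^ (2 * L + 1) := by positivity
    refine ⟨CU + 18 * 2 ^ Fintype.card ι / ω ^ (3 * L + 1) + 1 / ω ^ (2 * L + 1),
      by linarith, ?_, ?_⟩
    · rw [← div_le_iff₀' (by positivity)]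
      linarith
    · rw [← div_le_iff₀' (by positivity)]
      linarith
  have C0 : 0 ≤ C1 := CU0.trans c1
  refine ⟨L, ε, γ, ω ^ (L + 1), ω, KH, (2 * C1) ^ q * (2 ^ Fintype.card ι : ℝ) ^ q, e0.le,
    by linarith, l0, lw.trans w1, w0, by positivity, fun ℓ g b U hℓ ts => ?_⟩
  have tw := hW K L ω ℓ b k1 hL1 hℓ w0 w3 ts.lg
  obtain ⟨φ, hφ⟩ := hI (L + M1 + 1) K η ω (ω ^ M1) ε γ ℓ b tp e0 e1 e2 (by linarith) hτ hℓ ts.lg tw
  have hpr : ∀ (k : ι) (n : Fin L), ∃ (u f : ℝ → ℝ) (c : ℝ),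
      Prf (L + M1 + 1) K (ω ^ (L - n)) (η * ω ^ (n : ℕ) * ℓ) (φ k n) u f c := by
    intro k n
    have a0 : 0 < ω ^ (L - n) := by positivity
    have p0 : 0 < η * ω ^ (n : ℕ) * ℓ := by positivity
    have a1 : ω ^ (L - n) ≤ 1 / 8 := by
      have := pow_le_pow_of_le_one w0.le w5 (show 1 ≤ L - n by have := n.2; omega)
      rw [pow_one] at this
      linarith
    obtain ⟨u, f, c, h⟩ := hP _ _ (φ k n) a0 a1 p0
    exact ⟨u, f, c, h.mono k2 a0 p0⟩
  choose u f c hufc using hpr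
  have pt : PrfT L (L + M1 + 1) K η ω ℓ φ u f c := hufc
  obtain ⟨H, h, H1, H2, H3, H4, H5, H6, H7, h1, h2, h3⟩ :=
    hM ℓ (fun k (n : Fin L) => th r ω b n k) φ u f c hℓ (fun k n x => tw.th0 n k x)
      (fun k x => (tw.thS k x).le.trans (tw.reg.a01 k x).2) (fun k n => tw.thC n k) pt
  obtain ⟨L1, L2, L3⟩ := hL ι r L (L + M1 + 1) K η ω (ω ^ M1) ℓ b φ u f c hcard tp hℓ ts.lg tw pt
  have hcol := hC ι r L (L + M1 + 1) K η ω (ω ^ M1) ℓ g h b U φ u f c _ tp hℓ ts tw pt h1 h2 h3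
  have hd2 := hU K (ω ^ M1) ℓ g h b U u hℓ ts tw h1 h2 h3
  have s0 : ∀ x, 0 < smf r b x := tw.sL.pos
  have wL : 0 < ω ^ L := by positivity
  have U0 : ∀ x, 0 ≤ U x := fun x => by
    have a := ts.su x
    have a' := s0 x
    exact le_of_mul_le_mul_left (by linarith) wL
  have ll : ω ^ (L + 1) * ℓ ≤ ℓ := mul_le_of_le_one_left hℓ.le (lw.trans w5)
  refine ⟨actT r L ω b, reqT r b, H, fun z => g (h z), bN r L (L + M1 + 1) ω (ω ^ M1) b f c,
    fun x => 3 * ω ^ (L + 1) * U x + C1 * smf r b x,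
    ⟨ts.cd.comp h1.cd, fun x k => (hcol x k).1, fun x k v => (hcol x k).2 v, fun x => ?_, L1,
      fun x => ?_, ?_, ?_⟩, tw.reg,
    ⟨H1.mono ?_ le_rfl, H2, H3, H4, H5, fun y hy => by rw [H6 y hy], fun y k hy => ?_⟩,
    fun k x x' hx ha => ⟨?_, ?_⟩, fun x => ?_, (hφ u f c pt).trans ?_⟩
  · refine (hd2 x).trans ?_
    have a := s0 x
    have e : (3 * U x + CU * smf r b x) / ℓ =
        (3 * ω ^ (L + 1) * U x + ω ^ (L + 1) * CU * smf r b x) / (ω ^ (L + 1) * ℓ) := by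
      field_simp
    rw [e]
    have : ω ^ (L + 1) * CU ≤ C1 := (mul_le_of_le_one_left CU0 (lw.trans w5)).trans c1
    gcongr
  · have a := s0 x
    have a' := U0 x
    have w2L : 0 < ω ^ (2 * L + 1) := by positivity
    refine le_of_mul_le_mul_left ?_ w2L
    have b1 := L3 x
    have b2 : 18 * 2 ^ Fintype.card ι * smf r b x ≤ ω ^ (3 * L + 1) * C1 * smf r b x := by gcongr
    have b3 : 0 ≤ ω ^ (2 * L + 1) * (ω ^ L * (3 * ω ^ (L + 1) * U x)) := by positivity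
    have e : ω ^ (2 * L + 1) * (ω ^ L * (3 * ω ^ (L + 1) * U x + C1 * smf r b x)) =
        ω ^ (2 * L + 1) * (ω ^ L * (3 * ω ^ (L + 1) * U x)) +
          ω ^ (3 * L + 1) * C1 * smf r b x := by ring
    rw [e]
    linarith
  · exact (continuous_const.mul ts.cu).add (continuous_const.mul tw.sL.cd.continuous)
  · exact (SV.const_mul (by positivity) (ts.sv.mono ll)).add
      (SV.const_mul C0 ((tw.sL.sv (by positivity)).mono (by linarith)))
  · rw [div_le_div_iff₀ wL (by positivity), pow_succ]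
    nlinarith
  · refine H7 y k fun n => ?_
    have a : ‖(H y).1 - y.1‖ ≤ ℓ / 50 :=
      (norm_fst_le (H y - y)).trans ((H4 y).trans (by linarith))
    have b0 := hy _ a
    rw [← tw.thS] at b0
    exact (Finset.sum_eq_zero_iff_of_nonneg fun (n : Fin L) _ => tw.th0 n k _).1 b0 n
      (Finset.mem_univ _)
  · exact le_of_mul_le_mul_left ((tw.actU k x x' hx ha).trans (ts.su x)) wL
  · have a := s0 x
    have a' := U0 x
    have w2L : 0 < ω ^ (2 * L + 1) := by positivity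
    refine le_of_mul_le_mul_left ?_ w2L
    have b1 := L2 k x (tw.actU k x x' hx ha)
    have b2 : 1 * smf r b x ≤ ω ^ (2 * L + 1) * C1 * smf r b x := by gcongr
    have b3 : 0 ≤ ω ^ (2 * L + 1) * (3 * ω ^ (L + 1) * U x) := by positivity
    have e : ω ^ (2 * L + 1) * (3 * ω ^ (L + 1) * U x + C1 * smf r b x) =
        ω ^ (2 * L + 1) * (3 * ω ^ (L + 1) * U x) + ω ^ (2 * L + 1) * C1 * smf r b x := by ring
    rw [e]
    linarith
  · have a := ((hS ι r hcard).1 (fun k => b k x) fun k => (ts.lg k).pos x).2.2.2.2.2 ε γ e0.le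
      (by linarith)
    rw [e3] at a
    exact upow l0 (by linarith) (U0 x) C0 (s0 x).le hq1 hq2 a
  · exact mul_le_mul_left (ENNReal.ofReal_le_ofReal (kp w0 w5 Kp1 w2 hq2 hL4)) _

end SK

end

section

namespace SK
open SJ Set Filter Topology MeasureTheory Metric Function
open scoped ENNReal

namespace Grid2X

theorem term_c2b {ι : Type} [Fintype ι] {r : (ι → ℝ) × ℝ → ℝ} {g : (ι → ℝ) → ℝ}
    {K1 K2 ℓ κ : ℝ} (s : ℝ) (hκ : 0 < κ) (hℓ : κ ≤ ℓ) (hK1 : 1 ≤ K1) (hK2 : 1 ≤ K2)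
    (r01 : ∀ y, 0 ≤ r y ∧ r y ≤ 1) (rC : C2B r (K1 / ℓ) (K1 / ℓ ^ 2))
    (g01 : ∀ x, 0 ≤ g x ∧ g x ≤ 1) (gC : C2B g (K2 / κ) (K2 / κ ^ 2)) :
    C2B (fun x => r (x, s) * (1 - g x)) ((K1 + 2 * K1 * K2 + K2) / κ)
      ((K1 + 2 * K1 * K2 + K2) / κ ^ 2) := by
  have h0 : C2B (fun x : ι → ℝ => (x, s)) 1 0 :=
    C2B.id'.prodMk ((C2B.const s).mono zero_le_one le_rfl)
  have h1 : C2B (fun x : ι → ℝ => r (x, s)) (K1 / κ) (K1 / κ ^ 2) := by
    refine (rC.comp h0).mono ?_ ?_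
    · rw [mul_one]; gcongr
    · rw [mul_zero, add_zero, one_pow, mul_one]; gcongr
  have h2 := C2B.mul (a0 := 1) (b0 := 1)
    (fun x => abs_le.2 ⟨by linarith [(r01 (x, s)).1], (r01 (x, s)).2⟩) h1
    (fun x => abs_le.2 ⟨by linarith [(g01 x).2], by linarith [(g01 x).1]⟩) (gC.const_sub 1)
  refine h2.mono ?_ (le_of_eq ?_)
  · rw [mul_one, one_mul, ← add_div]
    have : 0 ≤ 2 * K1 * K2 := by positivity
    gcongr
    linarith
  · field_simp

end Grid2X

open Classical in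
theorem grid2 : Grid2Stmt := by
  intro ι _ m Kr hKr
  obtain ⟨K1, hK1, hb⟩ := exists_bump
  obtain ⟨K0, hK0, hst, -, -⟩ := exists_K0
  set N : ℝ := (Fintype.card ι : ℝ) with hNdef
  set K2 : ℝ := Kr + 2 * Kr * K1 + K1 with hK2
  have hN0 : 0 ≤ N := Nat.cast_nonneg _
  have hK20 : 0 ≤ K2 := by positivity
  have hA : 0 ≤ K0 * (2 * (N * K2)) ^ 2 := by positivity
  have hB : 0 ≤ K0 * (2 * (N * K2)) := by positivity
  refine ⟨K0 * (2 * (N * K2)) ^ 2 + K0 * (2 * (N * K2)) + 65, by linarith, ?_⟩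
  intro p P u ℓ A R hcop hP hp hu huℓ hℓ1 hR
  have hP2 : 1 ≤ P ^ 2 := one_le_pow₀ hP
  have huℓ' : 16 * u ≤ ℓ := by nlinarith
  have hp1 : ∀ k, (1 : ℝ) ≤ p k := fun k => hP.trans (hp k)
  have hp0 : ∀ k, (0 : ℝ) < p k := fun k => by linarith [hp1 k]
  have hex : ∀ k, ∃ ψ : ℝ → ℝ,
      C2B ψ (K1 / (1 / (16 * (p k : ℝ)))) (K1 / (1 / (16 * (p k : ℝ))) ^ 2) ∧
      (∀ v, 0 ≤ ψ v ∧ ψ v ≤ 1) ∧
      (∀ (v : ℝ) (n : ℤ), |v - n| ≤ 1 / (16 * (p k : ℝ)) → ψ v = 1) ∧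
      (∀ v : ℝ, ψ v ≠ 0 → ∃ n : ℤ, |v - n| ≤ 2 * (1 / (16 * (p k : ℝ)))) := by
    intro k
    have := hp0 k
    refine hb _ (by positivity) ?_
    rw [div_le_div_iff₀ (by positivity) (by norm_num)]
    linarith [hp1 k]
  choose ψ hψC hψ01 hψ1 hψ0 using hex
  have hκ : 0 < u / 16 := by positivity
  let g : ℝ → ι → (ι → ℝ) → ℝ := fun s k x => ψ k ((x k - s + 0) / (p k * u))
  let f : ℝ → ι → (ι → ℝ) → ℝ := fun s k x => R k (x, s) * (1 - g s k x)
  let cn : ℝ → (ι → ℝ) → ℝ := fun s x => ∑ k, f s k x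
  have hf01 : ∀ s k x, 0 ≤ f s k x ∧ f s k x ≤ 1 := fun s k x => by
    have h1 := hR.r01 k (x, s)
    have h2 : 0 ≤ g s k x ∧ g s k x ≤ 1 := hψ01 k _
    exact ⟨mul_nonneg h1.1 (by linarith [h2.2]), mul_le_one₀ h1.2 (by linarith [h2.2])
      (by linarith [h2.1])⟩
  have hcn : ∀ s, C2B (cn s) (N * (K2 / (u / 16))) (N * (K2 / (u / 16) ^ 2)) := by
    intro s
    have := C2B.sum (Finset.univ : Finset ι) (f := f s)
      (fun k _ => Grid2X.term_c2b s hκ (by linarith) hKr hK1 (hR.r01 k) (hR.rC k)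
        (fun x => hψ01 k _) (GridX.summand_c2b k s 0 (hp0 k) hu (hψC k)))
    simpa only [Finset.card_univ] using this
  let s : ℕ → ℝ := fun n => -(3 / 2) * ℓ - n * u / 128
  let W : ℕ → (ι → ℝ) → ℝ := fun n x => st (2 * m - 1 - 2 * cn (s n) x)
  have hts : ∀ n x, x ∈ tsupport (W n) → ∀ T : Finset ι, (∀ k ∈ T, R k (x, s n) = 1) →
      (T.filter fun k => g (s n) k x = 0).card < m := by
    intro n x hx T hT
    have hcl : IsClosed {x | 2 * cn (s n) x ≤ 2 * m - 1} :=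
      isClosed_le (continuous_const.mul (hcn (s n)).cont) continuous_const
    have hsub : support (W n) ⊆ {x | 2 * cn (s n) x ≤ 2 * m - 1} := by
      intro y hy
      by_contra hc
      have hc' : 2 * m - 1 < 2 * cn (s n) y := not_le.mp hc
      exact hy (st_zero (by linarith))
    have h1 : 2 * cn (s n) x ≤ 2 * m - 1 := closure_minimal hsub hcl hx
    have h2 := GridX.card_le_sum (fun k => f (s n) k x) (fun k => (hf01 _ k x).1)
      (T.filter fun k => g (s n) k x = 0) fun k hk => by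
        obtain ⟨a, b⟩ := Finset.mem_filter.1 hk
        show R k (x, s n) * (1 - g (s n) k x) = 1
        rw [hT k a, b]; norm_num
    have h3 : ((T.filter fun k => g (s n) k x = 0).card : ℝ) < m := by
      have : cn (s n) x = ∑ k, f (s n) k x := rfl
      linarith
    exact_mod_cast h3
  refine ⟨Finset.range (⌊256 / u⌋₊ + 5), W, s,
    ⟨hκ, fun n x => ⟨st_nonneg _, st_le_one _⟩, ?_, ?_, ?_⟩, ?_, ?_⟩
  · intro n
    have h1 := hst.comp (((hcn (s n)).const_mul 2).const_sub (2 * m - 1 : ℝ))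
    rw [abs_two] at h1
    refine h1.mono ?_ ?_
    · rw [show K0 * (2 * (N * (K2 / (u / 16)))) = (K0 * (2 * (N * K2))) / (u / 16) by ring]
      exact div_le_div_of_nonneg_right (by linarith) hκ.le
    · rw [show K0 * (2 * (N * (K2 / (u / 16)))) ^ 2 + K0 * (2 * (N * (K2 / (u / 16) ^ 2))) =
        (K0 * (2 * (N * K2)) ^ 2 + K0 * (2 * (N * K2))) / (u / 16) ^ 2 by field_simp]
      exact div_le_div_of_nonneg_right (by linarith) (by positivity)
  · intro n _ n' _ x hx hx'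
    by_cases hH : u * P ^ 2 - u / 4 ≤ |s n - s n'|
    · exact Or.inr hH
    obtain ⟨T, hT, hT1⟩ := hR.many (x, s n)
    have h1 := hts n x hx T fun k hk => hT1 k hk _ (by rw [sub_self, norm_zero]; linarith)
    have h2 := hts n' x hx' T fun k hk => hT1 k hk _ (by
      rw [Prod.mk_sub_mk, sub_self, Prod.norm_mk, norm_zero, Real.norm_eq_abs, abs_sub_comm]
      exact max_le (by linarith) (by linarith [not_le.1 hH]))
    set A0 := T.filter fun k => g (s n) k x = 0 with hAdef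
    set A1 := T.filter fun k => g (s n') k x = 0 with hA'def
    have h3 := Finset.le_card_sdiff (A0 ∪ A1) T
    have h4 := Finset.card_union_le A0 A1
    have h5 : 2 ≤ (T \ (A0 ∪ A1)).card := by omega
    have h6 := GridX.sep_arith _ p hcop P u (s n - s n') 2 (by norm_num) h5 hP hp hu ?_
    · rcases h6 with h6 | h6
      · left; linarith
      · right; exact h6
    · intro k hk
      obtain ⟨hk0, hk1⟩ := Finset.mem_sdiff.mp hk
      rw [Finset.mem_union, not_or] at hk1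
      obtain ⟨a, ha⟩ := hψ0 k _ fun h => hk1.1 (Finset.mem_filter.mpr ⟨hk0, h⟩)
      obtain ⟨b, hb'⟩ := hψ0 k _ fun h => hk1.2 (Finset.mem_filter.mpr ⟨hk0, h⟩)
      refine ⟨b - a, ?_⟩
      have hq := hp0 k
      have hμ : 0 < (p k : ℝ) * u := mul_pos hq hu
      have e1 : s n - s n' - u * ((((p k : ℕ) : ℤ) * (b - a) : ℤ) : ℝ) =
          (p k * u) * (((x k - s n' + 0) / (p k * u) - b) - ((x k - s n + 0) / (p k * u) - a)) := by
        push_cast
        field_simp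
        ring
      rw [e1, abs_mul, abs_of_pos hμ]
      have e2 : |((x k - s n' + 0) / (p k * u) - b) - ((x k - s n + 0) / (p k * u) - a)| ≤
          4 * (1 / (16 * (p k : ℝ))) := by
        refine (abs_sub _ _).trans ?_
        linarith
      calc _ ≤ (p k * u) * (4 * (1 / (16 * (p k : ℝ)))) := mul_le_mul_of_nonneg_left e2 hμ.le
        _ = u / 4 := by field_simp; norm_num
  · intro t
    have h1 := GridX.cnt_le (Finset.range (⌊256 / u⌋₊ + 5)) (-(3 / 2) * ℓ) u t hu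
    have h2 : (((Finset.range (⌊256 / u⌋₊ + 5)).filter
        fun n : ℕ => |(-(3 / 2) * ℓ - n * u / 128) - t| ≤ 4 * (u / 16)).card : ℝ) ≤ 65 := by
      exact_mod_cast h1
    refine le_trans (le_of_eq ?_) (h2.trans (by linarith))
    rfl
  · intro n _
    have : (0 : ℝ) ≤ n * u / 128 := by positivity
    show -(3 / 2) * ℓ - n * u / 128 ≤ -(3 / 2) * ℓ
    linarith
  · rintro ⟨x, t⟩ ht1 ht2
    simp only at ht1 ht2 ⊢
    set T0 : Finset ι := Finset.univ.filter fun k =>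
      (∃ y', ‖y' - (x, t)‖ ≤ u ∧ R k y' ≠ 0) ∧ ∀ n : ℤ, u / 32 < |x k - t - p k * u * n|
      with hT0
    by_cases hcard : m ≤ T0.card
    · exact Or.inr ⟨T0, hcard, fun k hk => (Finset.mem_filter.1 hk).2⟩
    left
    set B : ℝ := (-(3 / 2) * ℓ - t) * 128 / u with hBdef
    have hBu : B * u = (-(3 / 2) * ℓ - t) * 128 := by rw [hBdef]; field_simp
    have hB0 : 0 ≤ B := by
      rw [hBdef]
      exact div_nonneg (by linarith) hu.le
    have hB1 : B ≤ 256 / u := by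
      rw [hBdef]
      exact div_le_div_of_nonneg_right (by linarith) hu.le
    have hf := Nat.floor_le_floor hB1
    have hf1 : (⌊B⌋₊ : ℝ) ≤ B := Nat.floor_le hB0
    have hf2 : B < ⌊B⌋₊ + 1 := Nat.lt_floor_add_one B
    refine ⟨Finset.Icc ⌊B⌋₊ (⌊B⌋₊ + 4), ?_, by rw [Nat.card_Icc]; omega, ?_⟩
    · intro n hn
      rw [Finset.mem_Icc] at hn
      rw [Finset.mem_range]
      omega
    · intro n hn
      rw [Finset.mem_Icc] at hn
      have g1 : (⌊B⌋₊ : ℝ) ≤ n := by exact_mod_cast hn.1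
      have g2 : (n : ℝ) ≤ ⌊B⌋₊ + 4 := by exact_mod_cast hn.2
      have hs : |s n - t| ≤ u / 32 := by
        show |-(3 / 2) * ℓ - n * u / 128 - t| ≤ u / 32
        rw [abs_le]
        constructor <;> nlinarith
      refine ⟨?_, by linarith⟩
      apply st_one
      have h1 := GridX.sum_le_card (fun k => f (s n) k x) fun k => (hf01 _ k x).2
      have h2 : (Finset.univ.filter fun k => f (s n) k x ≠ 0) ⊆ T0 := by
        intro k hk
        have hk' : R k (x, s n) * (1 - g (s n) k x) ≠ 0 := (Finset.mem_filter.1 hk).2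
        refine Finset.mem_filter.2 ⟨Finset.mem_univ _, ⟨(x, s n), ?_, left_ne_zero_of_mul hk'⟩,
          fun a => ?_⟩
        · rw [Prod.mk_sub_mk, sub_self, Prod.norm_mk, norm_zero, Real.norm_eq_abs]
          exact max_le hu.le (by linarith)
        · by_contra ha
          rw [not_lt] at ha
          refine right_ne_zero_of_mul hk' (sub_eq_zero.2 (hψ1 k _ a ?_).symm)
          have hq := hp0 k
          have hμ : 0 < (p k : ℝ) * u := mul_pos hq hu
          have e1 : (x k - s n + 0) / (p k * u) - a =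
              ((x k - t - p k * u * a) - (s n - t)) / (p k * u) := by
            field_simp
            ring
          rw [e1, abs_div, abs_of_pos hμ, div_le_iff₀ hμ]
          have e2 : 1 / (16 * (p k : ℝ)) * (p k * u) = u / 16 := by field_simp
          rw [e2]
          refine (abs_sub _ _).trans ?_
          linarith
      have h3 : ((Finset.univ.filter fun k => f (s n) k x ≠ 0).card : ℝ) + 1 ≤ m := by
        have := Finset.card_le_card h2
        exact_mod_cast (by omega : (Finset.univ.filter fun k => f (s n) k x ≠ 0).card + 1 ≤ m)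
      show 1 ≤ 2 * m - 1 - 2 * ∑ k, f (s n) k x
      linarith

end SK

end

section

namespace SK
open SJ Set Filter Topology MeasureTheory Metric Function
open scoped ENNReal

namespace Grid3X

theorem near {v v' q u : ℝ} {a b : ℤ} (hq : 0 < q) (hu : 0 < u)
    (ha : |v / (q * u) - a| ≤ 2 * (1 / (16 * q))) (hb : |v' / (q * u) - b| ≤ 2 * (1 / (16 * q))) :
    |v' - v - u * (q * (b - a))| ≤ u / 4 := by
  have hμ : 0 < q * u := mul_pos hq hu
  have e1 : v' - v - u * (q * (b - a)) = (q * u) * ((v' / (q * u) - b) - (v / (q * u) - a)) := by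
    field_simp
    ring
  rw [e1, abs_mul, abs_of_pos hμ]
  have e2 : |(v' / (q * u) - b) - (v / (q * u) - a)| ≤ 4 * (1 / (16 * q)) := by
    refine (abs_sub _ _).trans ?_
    linarith
  calc _ ≤ (q * u) * (4 * (1 / (16 * q))) := mul_le_mul_of_nonneg_left e2 hμ.le
    _ = u / 4 := by field_simp; norm_num

theorem lam_sub {ι : Type} (k : Option ι) (x : ι → ℝ) (t t' : ℝ) :
    |lamF k (x, t) - lamF k (x, t')| = |t - t'| := by
  cases k with
  | none => rfl
  | some k =>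
    rw [abs_sub_comm]
    congr 1
    show x k - t' - (x k - t) = t - t'
    ring

end Grid3X

open Classical in
theorem grid3 : Grid3Stmt := by
  intro ι _ _ m Kr hKr
  obtain ⟨K1, hK1, hb⟩ := exists_bump
  obtain ⟨K0, hK0, hst, -, -⟩ := exists_K0
  set N : ℝ := (Fintype.card (Option ι) : ℝ) with hNdef
  set K2 : ℝ := Kr + 2 * Kr * K1 + K1 with hK2
  have hN0 : 0 ≤ N := Nat.cast_nonneg _
  have hK20 : 0 ≤ K2 := by positivity
  have hA : 0 ≤ K0 * (2 * (N * K2)) ^ 2 := by positivity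
  have hB : 0 ≤ K0 * (2 * (N * K2)) := by positivity
  refine ⟨K0 * (2 * (N * K2)) ^ 2 + K0 * (2 * (N * K2)) + 65, by linarith, ?_⟩
  intro p P u ℓ A R hcop hP hp hu huℓ hℓ1 hR
  have hP2 : 1 ≤ P ^ 2 := one_le_pow₀ hP
  have huℓ' : 16 * u ≤ ℓ := by nlinarith
  have hp1 : ∀ k, (1 : ℝ) ≤ p k := fun k => hP.trans (hp k)
  have hp0 : ∀ k, (0 : ℝ) < p k := fun k => by linarith [hp1 k]
  have hex : ∀ k, ∃ ψ : ℝ → ℝ,
      C2B ψ (K1 / (1 / (16 * (p k : ℝ)))) (K1 / (1 / (16 * (p k : ℝ))) ^ 2) ∧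
      (∀ v, 0 ≤ ψ v ∧ ψ v ≤ 1) ∧
      (∀ (v : ℝ) (n : ℤ), |v - n| ≤ 1 / (16 * (p k : ℝ)) → ψ v = 1) ∧
      (∀ v : ℝ, ψ v ≠ 0 → ∃ n : ℤ, |v - n| ≤ 2 * (1 / (16 * (p k : ℝ)))) := by
    intro k
    have := hp0 k
    refine hb _ (by positivity) ?_
    rw [div_le_div_iff₀ (by positivity) (by norm_num)]
    linarith [hp1 k]
  choose ψ hψC hψ01 hψ1 hψ0 using hex
  have hκ : 0 < u / 16 := by positivity
  have hℓ0 : 0 < ℓ := by linarith
  have e01 : ∀ k y, 0 ≤ ext1 R k y ∧ ext1 R k y ≤ 1 := fun k y => by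
    cases k with
    | none => exact ⟨zero_le_one, le_rfl⟩
    | some k => exact hR.r01 k y
  have eC : ∀ k, C2B (ext1 R k) (Kr / ℓ) (Kr / ℓ ^ 2) := fun k => by
    cases k with
    | none => exact (C2B.const (1 : ℝ)).mono (by positivity) (by positivity)
    | some k => exact hR.rC k
  let g : ℝ → Option ι → (ι → ℝ) → ℝ := fun s k x => ψ k (lamF k (x, s) / (p k * u))
  have gC : ∀ s k, C2B (g s k) (K1 / (u / 16)) (K1 / (u / 16) ^ 2) := fun s k => by
    cases k with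
    | none =>
      exact (C2B.const (ψ none (s / (p none * u)))).mono (by positivity) (by positivity)
    | some k =>
      have := GridX.summand_c2b k s 0 (hp0 (some k)) hu (hψC (some k))
      simp only [add_zero] at this
      exact this
  let f : ℝ → Option ι → (ι → ℝ) → ℝ := fun s k x => ext1 R k (x, s) * (1 - g s k x)
  let cn : ℝ → (ι → ℝ) → ℝ := fun s x => ∑ k, f s k x
  have hf01 : ∀ s k x, 0 ≤ f s k x ∧ f s k x ≤ 1 := fun s k x => by
    have h1 := e01 k (x, s)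
    have h2 : 0 ≤ g s k x ∧ g s k x ≤ 1 := hψ01 k _
    exact ⟨mul_nonneg h1.1 (by linarith [h2.2]), mul_le_one₀ h1.2 (by linarith [h2.2])
      (by linarith [h2.1])⟩
  have hcn : ∀ s, C2B (cn s) (N * (K2 / (u / 16))) (N * (K2 / (u / 16) ^ 2)) := by
    intro s
    have := C2B.sum (Finset.univ : Finset (Option ι)) (f := f s)
      (fun k _ => Grid2X.term_c2b s hκ (by linarith) hKr hK1 (e01 k) (eC k)
        (fun x => hψ01 k _) (gC s k))
    simpa only [Finset.card_univ] using this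
  let s : ℕ → ℝ := fun n => -(3 / 2) * ℓ - n * u / 128
  let W : ℕ → (ι → ℝ) → ℝ := fun n x => st (2 * m - 1 - 2 * cn (s n) x)
  have hts : ∀ n x, x ∈ tsupport (W n) → ∀ T : Finset (Option ι),
      (∀ k ∈ T, ext1 R k (x, s n) = 1) →
      (T.filter fun k => g (s n) k x = 0).card < m := by
    intro n x hx T hT
    have hcl : IsClosed {x | 2 * cn (s n) x ≤ 2 * m - 1} :=
      isClosed_le (continuous_const.mul (hcn (s n)).cont) continuous_const
    have hsub : support (W n) ⊆ {x | 2 * cn (s n) x ≤ 2 * m - 1} := by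
      intro y hy
      by_contra hc
      have hc' : 2 * m - 1 < 2 * cn (s n) y := not_le.mp hc
      exact hy (st_zero (by linarith))
    have h1 : 2 * cn (s n) x ≤ 2 * m - 1 := closure_minimal hsub hcl hx
    have h2 := GridX.card_le_sum (fun k => f (s n) k x) (fun k => (hf01 _ k x).1)
      (T.filter fun k => g (s n) k x = 0) fun k hk => by
        obtain ⟨a, b⟩ := Finset.mem_filter.1 hk
        show ext1 R k (x, s n) * (1 - g (s n) k x) = 1
        rw [hT k a, b]; norm_num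
    have h3 : ((T.filter fun k => g (s n) k x = 0).card : ℝ) < m := by
      have : cn (s n) x = ∑ k, f (s n) k x := rfl
      linarith
    exact_mod_cast h3
  refine ⟨Finset.range (⌊384 / u⌋₊ + 5), W, s,
    ⟨hκ, fun n x => ⟨st_nonneg _, st_le_one _⟩, ?_, ?_, ?_⟩, ?_, ?_⟩
  · intro n
    have h1 := hst.comp (((hcn (s n)).const_mul 2).const_sub (2 * m - 1 : ℝ))
    rw [abs_two] at h1
    refine h1.mono ?_ ?_
    · rw [show K0 * (2 * (N * (K2 / (u / 16)))) = (K0 * (2 * (N * K2))) / (u / 16) by ring]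
      exact div_le_div_of_nonneg_right (by linarith) hκ.le
    · rw [show K0 * (2 * (N * (K2 / (u / 16)))) ^ 2 + K0 * (2 * (N * (K2 / (u / 16) ^ 2))) =
        (K0 * (2 * (N * K2)) ^ 2 + K0 * (2 * (N * K2))) / (u / 16) ^ 2 by field_simp]
      exact div_le_div_of_nonneg_right (by linarith) (by positivity)
  · intro n _ n' _ x hx hx'
    by_cases hH : u * P ^ 2 - u / 4 ≤ |s n - s n'|
    · exact Or.inr hH
    obtain ⟨T', hT', hT1'⟩ := hR.many (x, s n)
    obtain ⟨T, hT, hT1⟩ : ∃ T : Finset (Option ι), 2 * m ≤ T.card ∧ ∀ k ∈ T, ∀ y,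
        ‖y - (x, s n)‖ ≤ ℓ / 16 → ext1 R k y = 1 := by
      refine ⟨Finset.insertNone T', by rw [Finset.card_insertNone]; omega, fun k hk y hy => ?_⟩
      cases k with
      | none => rfl
      | some k => exact hT1' k (Finset.some_mem_insertNone.1 hk) y hy
    have h1 := hts n x hx T fun k hk => hT1 k hk _ (by rw [sub_self, norm_zero]; linarith)
    have h2 := hts n' x hx' T fun k hk => hT1 k hk _ (by
      rw [Prod.mk_sub_mk, sub_self, Prod.norm_mk, norm_zero, Real.norm_eq_abs, abs_sub_comm]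
      exact max_le (by linarith) (by linarith [not_le.1 hH]))
    set A0 := T.filter fun k => g (s n) k x = 0 with hAdef
    set A1 := T.filter fun k => g (s n') k x = 0 with hA'def
    have h3 := Finset.le_card_sdiff (A0 ∪ A1) T
    have h4 := Finset.card_union_le A0 A1
    have h5 : 2 ≤ (T \ (A0 ∪ A1)).card := by omega
    have h6 := GridX.sep_arith _ p hcop P u (s n - s n') 2 (by norm_num) h5 hP hp hu ?_
    · rcases h6 with h6 | h6
      · left; linarith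
      · right; exact h6
    · intro k hk
      obtain ⟨hk0, hk1⟩ := Finset.mem_sdiff.mp hk
      rw [Finset.mem_union, not_or] at hk1
      obtain ⟨a, ha⟩ := hψ0 k _ fun h => hk1.1 (Finset.mem_filter.mpr ⟨hk0, h⟩)
      obtain ⟨b, hb'⟩ := hψ0 k _ fun h => hk1.2 (Finset.mem_filter.mpr ⟨hk0, h⟩)
      cases k with
      | none =>
        refine ⟨a - b, ?_⟩
        push_cast
        exact Grid3X.near (hp0 none) hu hb' ha
      | some k =>
        refine ⟨b - a, ?_⟩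
        push_cast
        have := Grid3X.near (hp0 (some k)) hu ha hb'
        rwa [show lamF (some k) (x, s n') - lamF (some k) (x, s n) = s n - s n' from
          sub_sub_sub_cancel_left _ _ _] at this
  · intro t
    have h1 := GridX.cnt_le (Finset.range (⌊384 / u⌋₊ + 5)) (-(3 / 2) * ℓ) u t hu
    have h2 : (((Finset.range (⌊384 / u⌋₊ + 5)).filter
        fun n : ℕ => |(-(3 / 2) * ℓ - n * u / 128) - t| ≤ 4 * (u / 16)).card : ℝ) ≤ 65 := by
      exact_mod_cast h1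
    refine le_trans (le_of_eq ?_) (h2.trans (by linarith))
    rfl
  · intro n _
    have : (0 : ℝ) ≤ n * u / 128 := by positivity
    show -(3 / 2) * ℓ - n * u / 128 ≤ -(3 / 2) * ℓ
    linarith
  · rintro ⟨x, t⟩ ht1 ht2
    simp only at ht1 ht2 ⊢
    set T0 : Finset (Option ι) := Finset.univ.filter fun k =>
      (∃ y', ‖y' - (x, t)‖ ≤ u ∧ ext1 R k y' ≠ 0) ∧
        ∀ n : ℤ, u / 32 < |lamF k (x, t) - p k * u * n|
      with hT0
    by_cases hcard : m ≤ T0.card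
    · exact Or.inr ⟨T0, hcard, fun k hk => (Finset.mem_filter.1 hk).2⟩
    left
    set B : ℝ := (-(3 / 2) * ℓ - t) * 128 / u with hBdef
    have hBu : B * u = (-(3 / 2) * ℓ - t) * 128 := by rw [hBdef]; field_simp
    have hB0 : 0 ≤ B := by
      rw [hBdef]
      exact div_nonneg (by linarith) hu.le
    have hB1 : B ≤ 384 / u := by
      rw [hBdef]
      exact div_le_div_of_nonneg_right (by linarith) hu.le
    have hf := Nat.floor_le_floor hB1
    have hf1 : (⌊B⌋₊ : ℝ) ≤ B := Nat.floor_le hB0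
    have hf2 : B < ⌊B⌋₊ + 1 := Nat.lt_floor_add_one B
    refine ⟨Finset.Icc ⌊B⌋₊ (⌊B⌋₊ + 4), ?_, by rw [Nat.card_Icc]; omega, ?_⟩
    · intro n hn
      rw [Finset.mem_Icc] at hn
      rw [Finset.mem_range]
      omega
    · intro n hn
      rw [Finset.mem_Icc] at hn
      have g1 : (⌊B⌋₊ : ℝ) ≤ n := by exact_mod_cast hn.1
      have g2 : (n : ℝ) ≤ ⌊B⌋₊ + 4 := by exact_mod_cast hn.2
      have hs : |s n - t| ≤ u / 32 := by
        show |-(3 / 2) * ℓ - n * u / 128 - t| ≤ u / 32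
        rw [abs_le]
        constructor <;> nlinarith
      refine ⟨?_, by linarith⟩
      apply st_one
      have h1 := GridX.sum_le_card (fun k => f (s n) k x) fun k => (hf01 _ k x).2
      have h2 : (Finset.univ.filter fun k => f (s n) k x ≠ 0) ⊆ T0 := by
        intro k hk
        have hk' : ext1 R k (x, s n) * (1 - g (s n) k x) ≠ 0 := (Finset.mem_filter.1 hk).2
        refine Finset.mem_filter.2 ⟨Finset.mem_univ _, ⟨(x, s n), ?_, left_ne_zero_of_mul hk'⟩,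
          fun a => ?_⟩
        · rw [Prod.mk_sub_mk, sub_self, Prod.norm_mk, norm_zero, Real.norm_eq_abs]
          exact max_le hu.le (by linarith)
        · by_contra ha
          rw [not_lt] at ha
          refine right_ne_zero_of_mul hk' (sub_eq_zero.2 (hψ1 k _ a ?_).symm)
          have hq := hp0 k
          have hμ : 0 < (p k : ℝ) * u := mul_pos hq hu
          have e1 : lamF k (x, s n) / (p k * u) - a =
              ((lamF k (x, t) - p k * u * a) + (lamF k (x, s n) - lamF k (x, t))) / (p k * u) := by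
            field_simp
            ring
          rw [e1, abs_div, abs_of_pos hμ, div_le_iff₀ hμ]
          have e2 : 1 / (16 * (p k : ℝ)) * (p k * u) = u / 16 := by field_simp
          rw [e2]
          refine (abs_add_le _ _).trans ?_
          rw [Grid3X.lam_sub]
          linarith
      have h3 : ((Finset.univ.filter fun k => f (s n) k x ≠ 0).card : ℝ) + 1 ≤ m := by
        have := Finset.card_le_card h2
        exact_mod_cast (by omega : (Finset.univ.filter fun k => f (s n) k x ≠ 0).card + 1 ≤ m)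
      show 1 ≤ 2 * m - 1 - 2 * ∑ k, f (s n) k x
      linarith

end SK

end

section

namespace SK
open SJ Set Filter Topology MeasureTheory Metric Function
open scoped ENNReal

namespace ThCX
variable {E : Type} [NormedAddCommGroup E] [NormedSpace ℝ E]

theorem nn {f : E → ℝ} {a κ : ℝ} (hκ : 0 < κ) (h : C2B f (a / κ) (a / κ ^ 2)) : 0 ≤ a := by
  have := mul_nonneg h.nonneg1 hκ.le
  rwa [div_mul_cancel₀ _ hκ.ne'] at this

theorem smono {f : E → ℝ} {a b κ κ' : ℝ} (hκ : 0 < κ') (h1 : κ' ≤ κ) (h2 : a ≤ b)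
    (h : C2B f (a / κ) (a / κ ^ 2)) : C2B f (b / κ') (b / κ' ^ 2) := by
  have := nn (hκ.trans_le h1) h
  have : 0 ≤ b := this.trans h2
  exact h.mono (by gcongr) (by gcongr)

theorem smul {f g : E → ℝ} {a b κ : ℝ} (hκ : 0 < κ) (f1 : ∀ y, 0 ≤ f y ∧ f y ≤ 1)
    (g1 : ∀ y, 0 ≤ g y ∧ g y ≤ 1) (hf : C2B f (a / κ) (a / κ ^ 2))
    (hg : C2B g (b / κ) (b / κ ^ 2)) :
    C2B (fun y => f y * g y) ((a + b + 2 * a * b) / κ) ((a + b + 2 * a * b) / κ ^ 2) := by
  have ha := nn hκ hf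
  have hb := nn hκ hg
  refine (C2B.mul (a0 := 1) (b0 := 1) (fun y => by rw [abs_of_nonneg (f1 y).1]; exact (f1 y).2) hf
    (fun y => by rw [abs_of_nonneg (g1 y).1]; exact (g1 y).2) hg).mono ?_ ?_
  · rw [mul_one, one_mul, ← add_div]
    have : 0 ≤ 2 * a * b := by positivity
    exact div_le_div_of_nonneg_right (by linarith) hκ.le
  · apply le_of_eq; field_simp; ring

theorem scomp {f : E → ℝ} {K a κ : ℝ} (hκ : 0 < κ) (hs : C2B st K K)
    (hf : C2B f (a / κ) (a / κ ^ 2)) :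
    C2B (fun y => st (f y)) (K * (a ^ 2 + a) / κ) (K * (a ^ 2 + a) / κ ^ 2) := by
  have ha := nn hκ hf
  have hK := hs.nonneg1
  refine (hs.comp hf).mono ?_ ?_
  · rw [← mul_div_assoc]
    gcongr
    nlinarith
  · apply le_of_eq; field_simp

theorem spow (M : ℕ) {a : ℝ} (ha : 0 ≤ a) : ∃ K : ℝ, 0 ≤ K ∧ ∀ (f : E → ℝ) (κ : ℝ), 0 < κ →
    (∀ y, 0 ≤ f y ∧ f y ≤ 1) → C2B f (a / κ) (a / κ ^ 2) →
    C2B (fun y => f y ^ M) (K / κ) (K / κ ^ 2) := by
  induction M with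
  | zero => exact ⟨0, le_rfl, fun f κ _ _ _ => by simpa using C2B.const (E := E) (1 : ℝ)⟩
  | succ M ih =>
    obtain ⟨K, hK, h⟩ := ih
    refine ⟨K + a + 2 * K * a, by positivity, fun f κ hκ f1 hf => ?_⟩
    simp only [pow_succ (f _)]
    exact smul hκ (fun y => ⟨pow_nonneg (f1 y).1 _, pow_le_one₀ (f1 y).1 (f1 y).2⟩) f1
      (h f κ hκ f1 hf) hf

theorem st01 (u : ℝ) : 0 ≤ st u ∧ st u ≤ 1 := ⟨st_nonneg u, st_le_one u⟩

theorem mul01 {a b : ℝ} (ha : 0 ≤ a ∧ a ≤ 1) (hb : 0 ≤ b ∧ b ≤ 1) : 0 ≤ a * b ∧ a * b ≤ 1 :=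
  ⟨mul_nonneg ha.1 hb.1, mul_le_one₀ ha.2 hb.1 hb.2⟩

end ThCX

open ThCX

theorem thC : ThCStmt := by
  intro X _ _ M K1 Kq hK1 hKq
  obtain ⟨K0, hK0, hst, -, -⟩ := exists_K0
  obtain ⟨K2, hK2, hchi⟩ := ConjX.chi_c2b (X := X) Kq hKq
  set a : ℝ := K0 * ((2 * Kq) ^ 2 + 2 * Kq) with ha
  set b : ℝ := K0 * (Kq ^ 2 + Kq) with hb
  have ha0 : 0 ≤ a := by positivity
  have hb0 : 0 ≤ b := by positivity
  set c2 : ℝ := a + (b + b + 2 * b * b) + 2 * a * (b + b + 2 * b * b) with hc2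
  have hc0 : 0 ≤ c2 := by positivity
  set Kc : ℝ := K2 + c2 with hKc
  have hKc1 : 1 ≤ Kc := by linarith
  obtain ⟨Kp, hKp, hpow⟩ := spow (E := X × ℝ) M (a := Kc) (by linarith)
  set d : ℝ := K0 * (2 ^ 2 + 2) with hd
  have hd0 : 0 ≤ d := by positivity
  set d1 : ℝ := d + K1 + 2 * d * K1 with hd1
  have hd10 : 0 ≤ d1 := by positivity
  set d2 : ℝ := d1 + Kp + 2 * d1 * Kp with hd2
  have hd20 : 0 ≤ d2 := by positivity
  have hd3 : 0 ≤ 2 * Kc * d2 := by positivity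
  refine ⟨Kc, Kc + d2 + 2 * Kc * d2, hKc1, by linarith, ?_, ?_⟩
  · intro q e κ h κs h0 h1 H
    have H' := H.mono h0 h1 le_rfl
    refine ⟨?_, smono h0 le_rfl (by linarith) (hchi q e κs h0 H'.qC H'.eC),
      fun y => mul01 (st01 _) (mul01 (st01 _) (st01 _))⟩
    have q1 : C2B (fun y => 2 * q y - 9) (2 * Kq / κs) (2 * Kq / κs ^ 2) := by
      have := (H'.qC.const_mul 2).sub_const 9
      rwa [abs_two, ← mul_div_assoc, ← mul_div_assoc] at this
    have e1 : C2B (fun y => e y / κs) (Kq / κs) (Kq / κs ^ 2) := by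
      have := H'.eC.div_const h0
      rwa [div_div, ← pow_two] at this
    have e2 : C2B (fun y => 6 + e y / κs) (Kq / κs) (Kq / κs ^ 2) := by
      simpa only [add_comm] using e1.add_const 6
    exact smono h0 le_rfl (by linarith) (smul h0 (fun _ => st01 _)
      (fun _ => mul01 (st01 _) (st01 _)) (scomp h0 hst q1)
      (smul h0 (fun _ => st01 _) (fun _ => st01 _) (scomp h0 hst (e1.const_sub 6))
        (scomp h0 hst e2)))
  · intro ℓ κm ν0 νs A c χ h0 h1 n0 n1 n2 hA A1 hc c1 hχ χ1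
    have hℓ : 0 < ℓ := h0.trans_le h1
    have v1 : ∀ y, ν0 ≤ nuf ν0 νs c y ∧ nuf ν0 νs c y ≤ 2 * νs := fun y => by
      have := c1 y
      unfold nuf
      constructor <;> nlinarith
    have v2 : ∀ y, 0 ≤ nuf ν0 νs c y ∧ nuf ν0 νs c y ≤ 1 := fun y =>
      ⟨by linarith [(v1 y).1], by linarith [(v1 y).2]⟩
    have v3 : ∀ y, 0 ≤ 1 - nuf ν0 νs c y ^ M ∧ 1 - nuf ν0 νs c y ^ M ≤ 1 := fun y =>
      ⟨sub_nonneg.2 (pow_le_one₀ (v2 y).1 (v2 y).2), sub_le_self _ (pow_nonneg (v2 y).1 _)⟩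
    have hν : C2B (nuf ν0 νs c) (Kc / κm) (Kc / κm ^ 2) := by
      have := ((hc.const_sub 1).const_mul νs).add_const ν0
      rw [abs_of_pos (n0.trans_le n1)] at this
      have p1 := hc.nonneg1
      have p2 := hc.nonneg2
      simp only [add_comm _ ν0] at this
      exact C2B.mono (f := nuf ν0 νs c) this
        (mul_le_of_le_one_left p1 (by linarith)) (mul_le_of_le_one_left p2 (by linarith))
    have s1 : C2B (fun y : X × ℝ => -2 / ℓ * y.2 - 1) (2 / ℓ) (2 / ℓ ^ 2) := by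
      refine (((C2B.snd' (E := X) (F := ℝ)).const_mul (-2 / ℓ)).sub_const 1).mono ?_ ?_
      · rw [mul_one, abs_div, abs_neg, abs_two, abs_of_pos hℓ]
      · rw [mul_zero]; positivity
    have t1 : C2B (Th ℓ M A (nuf ν0 νs c)) (d2 / κm) (d2 / κm ^ 2) :=
      smul h0 (fun y => mul01 (st01 _) (A1 y)) v3
        (smono h0 h1 le_rfl (smul hℓ (fun _ => st01 _) A1 (scomp hℓ hst s1) hA))
        ((hpow _ κm h0 v2 hν).const_sub 1)
    have t2 : ∀ y, 0 ≤ Th ℓ M A (nuf ν0 νs c) y ∧ Th ℓ M A (nuf ν0 νs c) y ≤ 1 := fun y =>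
      mul01 (mul01 (st01 _) (A1 y)) (v3 y)
    refine ⟨smono h0 le_rfl (by linarith) t1, smul h0 χ1 t2 hχ t1, fun y =>
      ⟨(v1 y).1, (v1 y).2, (t2 y).1, ?_⟩⟩
    exact mul_le_of_le_one_left (v3 y).1 (mul01 (st01 _) (A1 y)).2

end SK

end
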