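import Mathlib
import Pool.Agent.Mg.Xedaf86.G06b4b8

section

namespace SK
open SJ Set Filter Topology MeasureTheory Metric Function
open scoped ENNReal

namespace ImpABX

variable {ι : Type} [Fintype ι] {E : Type} [NormedAddCommGroup E] [NormedSpace ℝ E]

theorem pair (v : E) (s : ℝ) : ((v, s) : E × ℝ) = (v, 0) + s • ((0 : E), (1 : ℝ)) := by simp

theorem split (F : E × ℝ → ℝ) (p : E × ℝ) (v : E) (s : ℝ) :
    fderiv ℝ F p (v, s) = fderiv ℝ F p (v, 0) + (slp F p - 1) * s := by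
  have e2 : slp F p - 1 = fderiv ℝ F p (0, 1) := by simp [slp]
  rw [pair v s, map_add, map_smul, e2, smul_eq_mul, mul_comm]

theorem split0 (F : E × ℝ → ℝ) (p : E × ℝ) (s : ℝ) :
    fderiv ℝ F p (0, s) = (slp F p - 1) * s := by
  rw [split F p 0 s]
  have : (((0 : E), (0 : ℝ)) : E × ℝ) = 0 := rfl
  rw [this, map_zero, zero_add]

theorem split2 {F : E × ℝ → ℝ} (hF : ContDiff ℝ 2 F) (p : E × ℝ) (v w : E) (s t : ℝ) :
    D2 F p (v, s) (w, t) = D2 F p (v, 0) (w, 0) + t * D2 F p (v, 0) (0, 1) +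
      s * D2 F p (w, 0) (0, 1) + s * t * D2 F p (0, 1) (0, 1) := by
  rw [pair v s, pair w t, D2_symm hF p (w, 0) (0, 1)]
  simp only [map_add, map_smul, ContinuousLinearMap.add_apply, ContinuousLinearMap.smul_apply,
    smul_eq_mul]
  ring

theorem normJ {J : (ι → ℝ) →L[ℝ] E} (hJ : ‖J‖ ≤ 1) {x : ι → ℝ} {c : ℝ} (hc : 0 ≤ c)
    (h : ∀ k, |x k| ≤ c) : ‖J x‖ ≤ c := by
  have a : ‖x‖ ≤ c := (pi_norm_le_iff_of_nonneg hc).mpr h
  calc _ ≤ ‖J‖ * ‖x‖ := J.le_opNorm _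
    _ ≤ 1 * c := mul_le_mul hJ a (norm_nonneg _) zero_le_one
    _ = _ := one_mul _

theorem normL {Λ : E →L[ℝ] ι → ℝ} (hΛ : ‖Λ‖ ≤ 2) (v : E) (k : ι) : |Λ v k| ≤ 2 * ‖v‖ :=
  (norm_le_pi_norm (Λ v) k).trans
    ((Λ.le_opNorm v).trans (mul_le_mul_of_nonneg_right hΛ (norm_nonneg _)))

theorem num {p τ E0 E1 E2 a b s t q0 q1 q2 q3 η : ℝ} (h0 : 0 < τ) (h1 : τ ≤ 1) (hp : τ ≤ p)
    (e0 : 0 ≤ E0) (e1 : 0 ≤ E1) (e2 : 0 ≤ E2) (ha : 0 ≤ a) (hb : 0 ≤ b)
    (hs : p * |s| ≤ 3 * a) (ht : p * |t| ≤ 3 * b) (k0 : |q0| ≤ E0 * a * b) (k1 : |q1| ≤ E1 * a)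
    (k2 : |q2| ≤ E1 * b) (k3 : |q3| ≤ E2 * p)
    (h : p * η = -(q0 + t * q1 + s * q2 + s * t * q3)) :
    |η| ≤ (E0 + 6 * E1 + 9 * E2) / τ ^ 2 * a * b := by
  have hp0 : 0 < p := h0.trans_le hp
  have s1 : |s| ≤ 3 * a / p := by rw [le_div_iff₀ hp0]; linarith
  have t1 : |t| ≤ 3 * b / p := by rw [le_div_iff₀ hp0]; linarith
  have i1 : 1 / p ≤ 1 / τ := one_div_le_one_div_of_le h0 hp
  have i2 : 1 ≤ 1 / τ := by rw [le_div_iff₀ h0]; linarith
  have b1 : |t * q1| ≤ 3 * E1 * a * b * (1 / τ) := by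
    rw [abs_mul]
    calc _ ≤ 3 * b / p * (E1 * a) := by gcongr
      _ = 3 * E1 * a * b * (1 / p) := by ring
      _ ≤ _ := by gcongr
  have b2 : |s * q2| ≤ 3 * E1 * a * b * (1 / τ) := by
    rw [abs_mul]
    calc _ ≤ 3 * a / p * (E1 * b) := by gcongr
      _ = 3 * E1 * a * b * (1 / p) := by ring
      _ ≤ _ := by gcongr
  have b3 : |s * t * q3| ≤ 9 * E2 * a * b * (1 / τ) := by
    rw [abs_mul, abs_mul]
    calc _ ≤ 3 * a / p * (3 * b / p) * (E2 * p) := by gcongr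
      _ = 9 * E2 * a * b * (1 / p) := by field_simp; ring
      _ ≤ _ := by gcongr
  have b0 : |q0| ≤ E0 * a * b * (1 / τ) :=
    k0.trans (le_mul_of_one_le_right (by positivity) i2)
  have c : p * |η| ≤ (E0 + 6 * E1 + 9 * E2) * a * b * (1 / τ) := by
    have : p * |η| = |q0 + t * q1 + s * q2 + s * t * q3| := by
      rw [← abs_neg (q0 + _ + _ + _), ← h, abs_mul, abs_of_pos hp0]
    rw [this]
    have u1 := abs_add_le (q0 + t * q1 + s * q2) (s * t * q3)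
    have u2 := abs_add_le (q0 + t * q1) (s * q2)
    have u3 := abs_add_le q0 (t * q1)
    linarith
  have d : τ * |η| ≤ (E0 + 6 * E1 + 9 * E2) * a * b * (1 / τ) :=
    (mul_le_mul_of_nonneg_right hp (abs_nonneg _)).trans c
  have e : (E0 + 6 * E1 + 9 * E2) / τ ^ 2 * a * b =
      (E0 + 6 * E1 + 9 * E2) * a * b * (1 / τ) / τ := by field_simp
  rw [e, le_div_iff₀ h0]
  linarith

end ImpABX

open ImpABX in
theorem impB (hF : ImpFormStmt) : ImpBStmt := by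
  intro ι _ E _ _ J Λ F b hI hb hE z Pm B hP hB hs hd
  have hf := (hF ι E J Λ F hI.cd).1 b hb hE z
  have d1 : ∀ v, ‖fderiv ℝ b z v‖ ≤ (2 + 4 * Pm) * ‖v‖ := by
    intro v
    have a : ‖J fun k => fderiv ℝ (F k) (b z, Λ z k) (fderiv ℝ b z v, Λ v k)‖ ≤
        1 / 2 * ‖fderiv ℝ b z v‖ + Pm * (2 * ‖v‖) := by
      refine normJ hI.jn (by positivity) fun k => ?_
      rw [split]
      refine (abs_add_le _ _).trans (add_le_add (hI.ctr k _ _) ?_)
      rw [abs_mul]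
      exact mul_le_mul (hs k) (normL hI.ln v k) (abs_nonneg _) hP
    have c := norm_add_le v (J fun k => fderiv ℝ (F k) (b z, Λ z k) (fderiv ℝ b z v, Λ v k))
    rw [← (hf v v).1] at c
    linarith
  have d3 : ∀ v k, ‖((fderiv ℝ b z v, Λ v k) : E × ℝ)‖ ≤ (2 + 4 * Pm) * ‖v‖ := by
    intro v k
    rw [Prod.norm_def]
    refine max_le (d1 v) ((normL hI.ln v k).trans ?_)
    have := norm_nonneg v
    nlinarith
  refine ⟨ContinuousLinearMap.opNorm_le_bound _ (by positivity) d1,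
    norm_D2_le_of_apply (by positivity) fun v w => ?_⟩
  have a : ‖D2 b z v w‖ ≤
      B * ((2 + 4 * Pm) * ‖v‖) * ((2 + 4 * Pm) * ‖w‖) + 1 / 2 * ‖D2 b z v w‖ := by
    conv_lhs => rw [(hf v w).2]
    refine normJ hI.jn (by positivity) fun k => ?_
    refine (abs_add_le _ _).trans (add_le_add ?_ (hI.ctr k _ _))
    refine (norm_D2_apply_le (F k) _ _ _).trans ?_
    have h1 := hd k
    have h2 := d3 v k
    have h3 := d3 w k
    gcongr
  nlinarith

open ImpABX in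
theorem impA (hF : ImpFormStmt) : ImpAStmt := by
  intro ι _ E _ _ J Λ F a hI ha hE y τ E0 E1 E2 h0 h1 e0 e1 e2 hp k0 k1 k2
  have hf := (hF ι E J Λ F hI.cd).2 a ha hE y
  have x1 : ∀ v k, fderiv ℝ (F k) (y, Λ (a y) k) (v, Λ (fderiv ℝ a y v) k) =
      Λ v k - Λ (fderiv ℝ a y v) k := by
    intro v k
    have := congrFun (congrArg Λ (hf v v).1) k
    rw [map_add, hI.jl, Pi.add_apply] at this
    linarith
  have x2 : ∀ v k, slp (F k) (y, Λ (a y) k) * |Λ (fderiv ℝ a y v) k| ≤ 3 * ‖v‖ := by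
    intro v k
    have h2 := x1 v k
    rw [split] at h2
    have h3 : slp (F k) (y, Λ (a y) k) * Λ (fderiv ℝ a y v) k =
        Λ v k - fderiv ℝ (F k) (y, Λ (a y) k) (v, 0) := by linarith
    have h4 := hI.ctr k (y, Λ (a y) k) v
    have h5 := normL hI.ln v k
    rw [← abs_of_pos (h0.trans_le (hp k)), ← abs_mul, h3]
    have := abs_sub (Λ v k) (fderiv ℝ (F k) (y, Λ (a y) k) (v, 0))
    have := norm_nonneg v
    linarith
  have i2 : 1 ≤ 1 / τ := by rw [le_div_iff₀ h0]; linarith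
  constructor
  · refine ContinuousLinearMap.opNorm_le_bound _ (by positivity) fun v => ?_
    have hv := norm_nonneg v
    have b : ‖J fun k => fderiv ℝ (F k) (y, Λ (a y) k) (v, Λ (fderiv ℝ a y v) k)‖ ≤
        2 * ‖v‖ + 3 * ‖v‖ / τ := by
      refine normJ hI.jn (by positivity) fun k => ?_
      rw [x1]
      refine (abs_sub _ _).trans (add_le_add (normL hI.ln v k) ?_)
      rw [le_div_iff₀ h0, mul_comm]
      exact (mul_le_mul_of_nonneg_right (hp k) (abs_nonneg _)).trans (x2 v k)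
    have c := eq_sub_of_add_eq (hf v v).1.symm
    have d := norm_sub_le v (J fun k => fderiv ℝ (F k) (y, Λ (a y) k) (v, Λ (fderiv ℝ a y v) k))
    rw [← c] at d
    have e : 3 * ‖v‖ / τ = 3 * (1 / τ * ‖v‖) := by ring
    have e' : 6 / τ * ‖v‖ = 6 * (1 / τ * ‖v‖) := by ring
    have g : ‖v‖ ≤ 1 / τ * ‖v‖ := le_mul_of_one_le_left hv i2
    linarith
  · refine norm_D2_le_of_apply (by positivity) fun v w => ?_
    have y1 : ∀ k, D2 (F k) (y, Λ (a y) k) (v, Λ (fderiv ℝ a y v) k) (w, Λ (fderiv ℝ a y w) k) +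
        fderiv ℝ (F k) (y, Λ (a y) k) (0, Λ (D2 a y v w) k) = -Λ (D2 a y v w) k := by
      intro k
      have := congrFun (congrArg Λ (hf v w).2) k
      rw [map_add, hI.jl, Pi.add_apply, map_zero, Pi.zero_apply] at this
      linarith
    have c := eq_neg_of_add_eq_zero_left (hf v w).2.symm
    have d : ‖D2 a y v w‖ = ‖J fun k =>
        D2 (F k) (y, Λ (a y) k) (v, Λ (fderiv ℝ a y v) k) (w, Λ (fderiv ℝ a y w) k) +
          fderiv ℝ (F k) (y, Λ (a y) k) (0, Λ (D2 a y v w) k)‖ := by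
      conv_lhs => rw [c]
      exact norm_neg _
    rw [d]
    refine normJ hI.jn (by positivity) fun k => ?_
    rw [y1, abs_neg]
    refine num h0 h1 (hp k) e0 e1 e2 (norm_nonneg v) (norm_nonneg w) (x2 v k) (x2 w k)
      (k0 k v w) (k1 k v) (k1 k w) (k2 k) ?_
    have h2 := y1 k
    rw [split0, split2 (hI.cd k)] at h2
    linarith

end SK

end

section

namespace SK
open SJ Set Filter Topology MeasureTheory Metric Function
open scoped ENNReal

namespace TEstX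

theorem colsum {ι : Type} [Fintype ι] [DecidableEq ι] {V : Type} [NormedAddCommGroup V]
    [NormedSpace ℝ V] (T : (ι → ℝ) →L[ℝ] V) (β : ι → ℝ)
    (hβ : ∀ i, ‖T (Pi.single i 1)‖ ≤ β i) (u : ι → ℝ) : ‖T u‖ ≤ ∑ i, |u i| * β i := by
  have e : T u = ∑ i, u i • T (Pi.single i 1) := by
    conv_lhs => rw [pi_eq_sum_univ' u]
    rw [map_sum]
    exact Finset.sum_congr rfl fun i _ => map_smul T _ _
  rw [e]
  refine (norm_sum_le _ _).trans (Finset.sum_le_sum fun i _ => ?_)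
  rw [norm_smul, Real.norm_eq_abs]
  exact mul_le_mul_of_nonneg_left (hβ i) (abs_nonneg _)

theorem fixb {ι : Type} [Fintype ι] (u : ι → ℝ) (a : ℝ) (ha : 0 ≤ a)
    (h : ∀ i, |u i| ≤ a + 1 / 2 * ‖u‖) : ‖u‖ ≤ 2 * a := by
  have : ‖u‖ ≤ a + 1 / 2 * ‖u‖ :=
    (pi_norm_le_iff_of_nonneg (by positivity)).2 fun i => by
      rw [Real.norm_eq_abs]; exact h i
  linarith

theorem split1 {E : Type} [NormedAddCommGroup E] [NormedSpace ℝ E] (L : E × ℝ →L[ℝ] ℝ)
    (a : E) (s : ℝ) : L (a, s) = L (a, 0) + s * L (0, 1) := by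
  have : ((a, s) : E × ℝ) = (a, 0) + s • ((0 : E), (1 : ℝ)) := by simp
  rw [this, map_add, map_smul, smul_eq_mul]

theorem split2 {E : Type} [NormedAddCommGroup E] [NormedSpace ℝ E]
    (Q : E × ℝ →L[ℝ] E × ℝ →L[ℝ] ℝ) (hQ : ∀ v w, Q v w = Q w v) (a b : E) (s t : ℝ) :
    Q (a, s) (b, t) = Q (a, 0) (b, 0) + t * Q (a, 0) (0, 1) +
      s * (Q (b, 0) (0, 1) + t * Q (0, 1) (0, 1)) := by
  rw [split1 (Q (a, s)) b t, hQ (a, s) (b, 0), hQ (a, s) (0, 1), split1 (Q (b, 0)) a s,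
    split1 (Q (0, 1)) a s, hQ (b, 0) (a, 0), hQ (0, 1) (a, 0)]
  ring

theorem sum_ite {ι : Type} [Fintype ι] [DecidableEq ι] (k : ι) (β : ι → ℝ) (a : ℝ) :
    ∑ i, (Pi.single k (1 : ℝ) : ι → ℝ) i * a * β i = a * β k := by
  rw [Finset.sum_eq_single k]
  · simp
  · intro i _ hi; simp [Pi.single_eq_of_ne hi]
  · simp

theorem single01 {ι : Type} [DecidableEq ι] (k i : ι) :
    0 ≤ (Pi.single k (1 : ℝ) : ι → ℝ) i ∧ (Pi.single k (1 : ℝ) : ι → ℝ) i ≤ 1 := by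
  by_cases h : i = k
  · subst h; simp
  · simp [Pi.single_eq_of_ne h]

/-- the column of the derivative -/
theorem colw {ι : Type} [Fintype ι] [DecidableEq ι] (L : ι → (ι → ℝ) × ℝ →L[ℝ] ℝ) (k : ι)
    (w β c : ι → ℝ) (σ f : ℝ)
    (hw : ∀ i, w i = (Pi.single k (1 : ℝ) : ι → ℝ) i +
      L i (w, (Pi.single k (1 : ℝ) : ι → ℝ) i))
    (hβ : ∀ i, 0 ≤ β i) (hL : ∀ i a, |L i (a, 0)| ≤ c i * ‖a‖) (hc : ∀ i, 0 ≤ c i ∧ c i ≤ 1 / 2)
    (hs : ∑ i, β i * c i ≤ σ / 2) (hp0 : 0 ≤ 1 + L k (0, 1)) (hp1 : 1 + L k (0, 1) ≤ f) :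
    ‖w‖ ≤ 2 * f ∧ ∑ i, |w i| * β i ≤ f * (β k + σ) := by
  have hf : 0 ≤ f := hp0.trans hp1
  have h1 : ∀ i, |w i| ≤ (Pi.single k (1 : ℝ) : ι → ℝ) i * f + c i * ‖w‖ := by
    intro i
    have e := hw i
    rw [split1 (L i)] at e
    have b := hL i w
    by_cases h : i = k
    · subst h
      simp only [Pi.single_eq_same, one_mul] at e ⊢
      rw [e, abs_le]
      have := abs_le.1 b
      constructor <;> linarith [this.1, this.2]
    · simp only [Pi.single_eq_of_ne h, zero_mul, zero_add, add_zero] at e ⊢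
      rw [e]; exact b
  have h2 : ‖w‖ ≤ 2 * f := by
    refine fixb w f hf fun i => (h1 i).trans ?_
    have := single01 k i
    have := hc i
    have := norm_nonneg w
    nlinarith
  refine ⟨h2, ?_⟩
  have h3 : ∑ i, |w i| * β i ≤
      ∑ i, ((Pi.single k (1 : ℝ) : ι → ℝ) i * f * β i + 2 * f * (β i * c i)) := by
    refine Finset.sum_le_sum fun i _ => ?_
    have a1 := h1 i
    have a2 : c i * ‖w‖ ≤ c i * (2 * f) := mul_le_mul_of_nonneg_left h2 (hc i).1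
    have a3 := mul_le_mul_of_nonneg_right (a1.trans (add_le_add le_rfl a2)) (hβ i)
    linarith
  rw [Finset.sum_add_distrib, sum_ite, ← Finset.mul_sum] at h3
  have := mul_le_mul_of_nonneg_left hs (show 0 ≤ 2 * f by linarith)
  linarith

/-- the second order column -/
theorem colx {ι : Type} [Fintype ι] [DecidableEq ι] (L : ι → (ι → ℝ) × ℝ →L[ℝ] ℝ)
    (Q : ι → (ι → ℝ) × ℝ →L[ℝ] (ι → ℝ) × ℝ →L[ℝ] ℝ) (hQ : ∀ i v w, Q i v w = Q i w v) (k : ι)
    (w u v ξ β c e0 e1 : ι → ℝ) (σ f Dm G : ℝ)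
    (hξ : ∀ i, ξ i = Q i (w, (Pi.single k (1 : ℝ) : ι → ℝ) i) (u, v i) + L i (ξ, 0))
    (hf : 0 ≤ f) (hσ : 0 ≤ σ) (hG : 0 ≤ G) (hD : 0 ≤ Dm)
    (hw : ‖w‖ ≤ 2 * f) (hu : ‖u‖ ≤ Dm * ‖v‖)
    (hβ : ∀ i, 0 ≤ β i) (hL : ∀ i a, |L i (a, 0)| ≤ c i * ‖a‖) (hc : ∀ i, 0 ≤ c i ∧ c i ≤ 1 / 2)
    (hs : ∑ i, β i * c i ≤ σ / 2)
    (q0 : ∀ i a b, |Q i (a, 0) (b, 0)| ≤ e0 i * ‖a‖ * ‖b‖)
    (h0 : ∀ i, 0 ≤ e0 i ∧ e0 i * Dm ≤ G) (s0 : ∑ i, β i * (e0 i * Dm) ≤ σ * G)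
    (q1 : ∀ i a, |Q i (a, 0) (0, 1)| ≤ e1 i * ‖a‖)
    (h1 : ∀ i, 0 ≤ e1 i ∧ e1 i ≤ G) (h1k : e1 k * Dm ≤ f * G) (s1 : ∑ i, β i * e1 i ≤ σ * G)
    (q2 : |Q k (0, 1) (0, 1)| ≤ f * G) :
    ∑ i, |ξ i| * β i ≤ 10 * (f * (β k + σ)) * G * ‖v‖ := by
  have nv := norm_nonneg v
  have hv : ∀ i, |v i| ≤ ‖v‖ := fun i => by
    have := norm_le_pi_norm v i
    rwa [Real.norm_eq_abs] at this
  have hE : ∀ i, |Q i (w, (Pi.single k (1 : ℝ) : ι → ℝ) i) (u, v i)| ≤
      2 * f * ‖v‖ * (e0 i * Dm) + 2 * f * ‖v‖ * e1 i +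
        (Pi.single k (1 : ℝ) : ι → ℝ) i * (2 * f * G * ‖v‖) := by
    intro i
    rw [split2 (Q i) (hQ i)]
    have a0 : |Q i (w, 0) (u, 0)| ≤ 2 * f * ‖v‖ * (e0 i * Dm) := by
      refine (q0 i w u).trans ?_
      have := (h0 i).1
      calc e0 i * ‖w‖ * ‖u‖ ≤ e0 i * (2 * f) * (Dm * ‖v‖) := by gcongr
        _ = _ := by ring
    have a1 : |v i * Q i (w, 0) (0, 1)| ≤ 2 * f * ‖v‖ * e1 i := by
      rw [abs_mul]
      have := (h1 i).1
      have b1 := hv i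
      have b2 := q1 i w
      calc |v i| * |Q i (w, 0) (0, 1)| ≤ ‖v‖ * (e1 i * ‖w‖) := by gcongr
        _ ≤ ‖v‖ * (e1 i * (2 * f)) := by gcongr
        _ = _ := by ring
    have a2 : |(Pi.single k (1 : ℝ) : ι → ℝ) i * (Q i (u, 0) (0, 1) + v i * Q i (0, 1) (0, 1))| ≤
        (Pi.single k (1 : ℝ) : ι → ℝ) i * (2 * f * G * ‖v‖) := by
      by_cases h : i = k
      · subst h
        simp only [Pi.single_eq_same, one_mul]
        refine (abs_add_le _ _).trans ?_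
        rw [abs_mul]
        have := (h1 i).1
        have b1 := hv i
        have b2 : |Q i (u, 0) (0, 1)| ≤ f * G * ‖v‖ :=
          calc |Q i (u, 0) (0, 1)| ≤ e1 i * ‖u‖ := q1 i u
            _ ≤ e1 i * (Dm * ‖v‖) := by gcongr
            _ = e1 i * Dm * ‖v‖ := by ring
            _ ≤ f * G * ‖v‖ := by gcongr
        have b3 : |v i| * |Q i (0, 1) (0, 1)| ≤ ‖v‖ * (f * G) := by gcongr
        linarith
      · simp [Pi.single_eq_of_ne h]
    have a3 := abs_add_le (Q i (w, 0) (u, 0) + v i * Q i (w, 0) (0, 1))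
      ((Pi.single k (1 : ℝ) : ι → ℝ) i * (Q i (u, 0) (0, 1) + v i * Q i (0, 1) (0, 1)))
    have a4 := abs_add_le (Q i (w, 0) (u, 0)) (v i * Q i (w, 0) (0, 1))
    linarith
  have hX : ∀ i, |ξ i| ≤ 2 * f * ‖v‖ * (e0 i * Dm) + 2 * f * ‖v‖ * e1 i +
      (Pi.single k (1 : ℝ) : ι → ℝ) i * (2 * f * G * ‖v‖) + c i * ‖ξ‖ := by
    intro i
    have a := abs_add_le (Q i (w, (Pi.single k (1 : ℝ) : ι → ℝ) i) (u, v i)) (L i (ξ, 0))
    rw [← hξ i] at a
    linarith [hE i, hL i ξ]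
  have p0 : 0 ≤ 2 * f * ‖v‖ := by positivity
  have p1 : 0 ≤ 2 * f * G * ‖v‖ := by positivity
  have hn : ‖ξ‖ ≤ 2 * (6 * f * G * ‖v‖) := by
    refine fixb ξ _ (by positivity) fun i => (hX i).trans ?_
    have b0 := mul_le_mul_of_nonneg_left (h0 i).2 p0
    have b1 := mul_le_mul_of_nonneg_left (h1 i).2 p0
    have b2 := mul_le_mul_of_nonneg_right (single01 k i).2 p1
    have b3 := mul_le_mul_of_nonneg_right (hc i).2 (norm_nonneg ξ)
    linarith
  have h3 : ∑ i, |ξ i| * β i ≤ ∑ i, (2 * f * ‖v‖ * (β i * (e0 i * Dm)) +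
      2 * f * ‖v‖ * (β i * e1 i) +
      (Pi.single k (1 : ℝ) : ι → ℝ) i * (2 * f * G * ‖v‖) * β i +
      12 * f * G * ‖v‖ * (β i * c i)) := by
    refine Finset.sum_le_sum fun i _ => ?_
    have a2 : c i * ‖ξ‖ ≤ c i * (2 * (6 * f * G * ‖v‖)) := mul_le_mul_of_nonneg_left hn (hc i).1
    have a3 := mul_le_mul_of_nonneg_right ((hX i).trans (add_le_add le_rfl a2)) (hβ i)
    linarith
  rw [Finset.sum_add_distrib, Finset.sum_add_distrib, Finset.sum_add_distrib, sum_ite,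
    ← Finset.mul_sum, ← Finset.mul_sum, ← Finset.mul_sum] at h3
  have c0 := mul_le_mul_of_nonneg_left s0 p0
  have c1 := mul_le_mul_of_nonneg_left s1 p0
  have c2 := mul_le_mul_of_nonneg_left hs (show 0 ≤ 12 * f * G * ‖v‖ by positivity)
  have c3 := mul_nonneg p1 (hβ k)
  linarith

end TEstX
open TEstX

theorem tEst (hF : ImpFormStmt) : TEstStmt := by
  intro ι _ _ g h F x ℓ σ Dm G β c e0 e1 fk hg hh hFc himp hℓ hσ hG hDm hDG hβ1 hβ2 hL hc hs
    hp q0 h0 s0 q1 h1 s1 q2 k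
  have key := (hF ι (ι → ℝ) (ContinuousLinearMap.id ℝ (ι → ℝ)) (ContinuousLinearMap.id ℝ (ι → ℝ))
    F hFc).1 h hh himp x
  simp only [ContinuousLinearMap.id_apply] at key
  have hβ : ∀ i, 0 ≤ β i := fun i => (norm_nonneg _).trans (hβ1 i)
  have hD : 0 ≤ Dm := (norm_nonneg _).trans hDm
  have hf : 0 ≤ fk k := (hp k).1.trans (hp k).2
  obtain ⟨w1, w2⟩ := colw (fun i => fderiv ℝ (F i) (h x, x i)) k
    (fderiv ℝ h x (Pi.single k 1)) β c σ (fk k)
    (fun i => congrFun (key (Pi.single k 1) 0).1 i) hβ hL hc hs (hp k).1 (hp k).2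
  constructor
  · have e : fderiv ℝ (fun z => g (h z)) x = (fderiv ℝ g (h x)).comp (fderiv ℝ h x) :=
      ((Calc1X.diff1 hg (h x)).hasFDerivAt.comp x (Calc1X.diff1 hh x).hasFDerivAt).fderiv
    rw [e, ContinuousLinearMap.comp_apply]
    exact (colsum _ β hβ1 _).trans w2
  · intro v
    have nv := norm_nonneg v
    have hu : ‖fderiv ℝ h x v‖ ≤ Dm * ‖v‖ :=
      ((fderiv ℝ h x).le_opNorm v).trans (mul_le_mul_of_nonneg_right hDm nv)
    have x1 := colx (fun i => fderiv ℝ (F i) (h x, x i)) (fun i => D2 (F i) (h x, x i))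
      (fun i => D2_symm (hFc i) _) k (fderiv ℝ h x (Pi.single k 1)) (fderiv ℝ h x v) v
      (D2 h x (Pi.single k 1) v) β c e0 e1 σ (fk k) Dm G
      (fun i => congrFun (key (Pi.single k 1) v).2 i) hf hσ hG hD w1 hu hβ hL hc hs q0 h0 s0 q1
      (fun i => ⟨(h1 i).1, (h1 i).2.1⟩) (h1 k).2.2 s1 (q2 k)
    rw [D2_comp_apply hg hh]
    have x2 := (colsum _ β hβ1 (D2 h x (Pi.single k 1) v)).trans x1
    have x3 := colsum ((D2 g (h x)).flip (fderiv ℝ h x v)) (fun i => β i * (G * ‖v‖))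
      (fun i => by
        rw [ContinuousLinearMap.flip_apply]
        refine (hβ2 i _).trans ?_
        have := hβ i
        calc β i / ℓ * ‖fderiv ℝ h x v‖ ≤ β i / ℓ * (Dm * ‖v‖) := by gcongr
          _ = β i * (Dm / ℓ * ‖v‖) := by ring
          _ ≤ β i * (G * ‖v‖) := by gcongr) (fderiv ℝ h x (Pi.single k 1))
    rw [ContinuousLinearMap.flip_apply] at x3
    have e3 : ∑ i, |fderiv ℝ h x (Pi.single k 1) i| * (β i * (G * ‖v‖)) =
        (∑ i, |fderiv ℝ h x (Pi.single k 1) i| * β i) * (G * ‖v‖) := by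
      rw [Finset.sum_mul]
      exact Finset.sum_congr rfl fun i _ => by ring
    rw [e3] at x3
    have x4 := mul_le_mul_of_nonneg_right w2 (show 0 ≤ G * ‖v‖ by positivity)
    have x5 : 0 ≤ fk k * (β k + σ) * (G * ‖v‖) := by
      have := hβ k
      positivity
    refine (norm_add_le _ _).trans ?_
    linarith

end SK

end

section

namespace SK
open SJ Set Filter Topology MeasureTheory Metric Function
open scoped ENNReal

namespace ScalX

theorem form {E : Type} [NormedAddCommGroup E] [NormedSpace ℝ E] {G h : E → ℝ} {F : E × ℝ → ℝ}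
    (hG : ContDiff ℝ 2 G) (hF : ContDiff ℝ 2 F) (e : ∀ y, G y + F (y, G y) = h y) (y v w : E) :
    fderiv ℝ h y v = fderiv ℝ G y v + fderiv ℝ F (y, G y) (v, fderiv ℝ G y v) ∧
    D2 h y v w = D2 G y v w + (D2 F (y, G y) (v, fderiv ℝ G y v) (w, fderiv ℝ G y w) +
      fderiv ℝ F (y, G y) (0, D2 G y v w)) := by
  let m : E → E × ℝ := fun z => (z, G z)
  have hm : ContDiff ℝ 2 m := contDiff_id.prodMk hG
  have m1 : ∀ u, fderiv ℝ m y u = (u, fderiv ℝ G y u) := by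
    intro u
    refine Prod.ext ?_ ?_
    · refine (Calc2X.fderiv_clm_comp (ContinuousLinearMap.fst ℝ E ℝ) hm y u).symm.trans ?_
      show fderiv ℝ (fun x : E => x) y u = u
      simp
    · exact (Calc2X.fderiv_clm_comp (ContinuousLinearMap.snd ℝ E ℝ) hm y u).symm
  have m2 : D2 m y v w = (0, D2 G y v w) := by
    refine Prod.ext ?_ ?_
    · refine (D2_clm_comp (ContinuousLinearMap.fst ℝ E ℝ) hm y v w).symm.trans ?_
      have h0 : D2 (fun x : E => x) y = 0 := D2_clm (ContinuousLinearMap.id ℝ E) y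
      show D2 (fun x : E => x) y v w = 0
      rw [h0]
      rfl
    · exact (D2_clm_comp (ContinuousLinearMap.snd ℝ E ℝ) hm y v w).symm
  have hc : ContDiff ℝ 2 fun z => F (m z) := hF.comp hm
  have e' : h = fun z => G z + F (m z) := funext fun z => (e z).symm
  have b : HasFDerivAt (fun z => F (m z)) ((fderiv ℝ F (m y)).comp (fderiv ℝ m y)) y :=
    (Calc1X.diff1 hF (m y)).hasFDerivAt.comp y (Calc1X.diff1 hm y).hasFDerivAt
  constructor
  · have c : HasFDerivAt (fun z => G z + F (m z)) _ y := (Calc1X.diff1 hG y).hasFDerivAt.add b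
    rw [e', c.fderiv, add_apply, ContinuousLinearMap.comp_apply, m1]
  · rw [e', D2_add hG hc, add_apply, add_apply,
      D2_comp_apply hF hm, m1, m1, m2]

theorem num {p τ H H2 E0 E1 E2 a b s t q0 q1 q2 q3 d η : ℝ} (h0 : 0 < τ) (h1 : τ ≤ 1) (hp : τ ≤ p)
    (hH : 0 ≤ H) (e0 : 0 ≤ E0) (e1 : 0 ≤ E1) (e2 : 0 ≤ E2) (ha : 0 ≤ a) (hb : 0 ≤ b)
    (hs : |s| ≤ H / τ * a) (ht : |t| ≤ H / τ * b) (k0 : |q0| ≤ E0 * a * b) (k1 : |q1| ≤ E1 * a)
    (k2 : |q2| ≤ E1 * b) (k3 : |q3| ≤ E2 * p) (kd : |d| ≤ H2 / τ ^ 2 * p * a * b)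
    (h : p * η = d - (q0 + t * q1 + s * q2 + s * t * q3)) :
    |η| ≤ (H2 + E0 + 2 * E1 * H + E2 * H ^ 2) / τ ^ 2 * a * b := by
  have hp0 : 0 < p := h0.trans_le hp
  have i1 : 1 ≤ p / τ := (one_le_div h0).2 hp
  have i2 : 1 ≤ p / τ ^ 2 := (one_le_div (by positivity)).2 (by nlinarith)
  have b0 : |q0| ≤ E0 * a * b * (p / τ ^ 2) := k0.trans (le_mul_of_one_le_right (by positivity) i2)
  have b1 : |t * q1| ≤ E1 * H * a * b * (p / τ ^ 2) := by
    rw [abs_mul]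
    calc _ ≤ H / τ * b * (E1 * a) := by gcongr
      _ ≤ H / τ * b * (E1 * a) * (p / τ) := le_mul_of_one_le_right (by positivity) i1
      _ = _ := by field_simp
  have b2 : |s * q2| ≤ E1 * H * a * b * (p / τ ^ 2) := by
    rw [abs_mul]
    calc _ ≤ H / τ * a * (E1 * b) := by gcongr
      _ ≤ H / τ * a * (E1 * b) * (p / τ) := le_mul_of_one_le_right (by positivity) i1
      _ = _ := by field_simp
  have b3 : |s * t * q3| ≤ E2 * H ^ 2 * a * b * (p / τ ^ 2) := by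
    rw [abs_mul, abs_mul]
    calc _ ≤ H / τ * a * (H / τ * b) * (E2 * p) := by gcongr
      _ = _ := by field_simp
  have bd : |d| ≤ H2 * a * b * (p / τ ^ 2) := kd.trans_eq (by ring)
  refine le_of_mul_le_mul_left ?_ hp0
  have e : p * ((H2 + E0 + 2 * E1 * H + E2 * H ^ 2) / τ ^ 2 * a * b) =
      (H2 + E0 + 2 * E1 * H + E2 * H ^ 2) * a * b * (p / τ ^ 2) := by ring
  have e' : p * |η| = |d - (q0 + t * q1 + s * q2 + s * t * q3)| := by
    rw [← h, abs_mul, abs_of_pos hp0]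
  rw [e, e']
  have u0 := abs_sub d (q0 + t * q1 + s * q2 + s * t * q3)
  have u1 := abs_add_le (q0 + t * q1 + s * q2) (s * t * q3)
  have u2 := abs_add_le (q0 + t * q1) (s * q2)
  have u3 := abs_add_le q0 (t * q1)
  linarith

end ScalX

open ScalX ImpABX in
theorem scal : ScalStmt := by
  intro E _ _ G h F hG _ hF e y τ H1 H2 E0 E1 E2 h0 h1 e0 e1 e2 hp c1 d1 d2 k0 k1 k2
  have hp0 : 0 < slp F (y, G y) := h0.trans_le hp
  have hH1 : 0 ≤ H1 := by
    have a := nonneg_of_mul_nonneg_left ((norm_nonneg _).trans d1) hp0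
    exact (div_nonneg_iff.1 a).elim (fun b => b.1) fun b => absurd b.2 (not_le.2 h0)
  have hH2 : 0 ≤ H2 := by
    have a := nonneg_of_mul_nonneg_left ((ContinuousLinearMap.opNorm_nonneg _).trans d2) hp0
    exact (div_nonneg_iff.1 a).elim (fun b => b.1) fun b => absurd b.2 (not_le.2 (by positivity))
  have x : ∀ v, |fderiv ℝ G y v| ≤ (H1 + 1) / τ * ‖v‖ := by
    intro v
    have a := (form hG hF e y v v).1
    rw [split] at a
    have a1 : slp F (y, G y) * fderiv ℝ G y v = fderiv ℝ h y v - fderiv ℝ F (y, G y) (v, 0) := by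
      linarith
    have a2 : |fderiv ℝ h y v| ≤ H1 / τ * slp F (y, G y) * ‖v‖ :=
      ((fderiv ℝ h y).le_opNorm v).trans (mul_le_mul_of_nonneg_right d1 (norm_nonneg _))
    have a3 := c1 v
    have a4 := abs_sub (fderiv ℝ h y v) (fderiv ℝ F (y, G y) (v, 0))
    have a5 : ‖v‖ ≤ ‖v‖ * (slp F (y, G y) / τ) :=
      le_mul_of_one_le_right (norm_nonneg _) ((one_le_div h0).2 hp)
    refine le_of_mul_le_mul_left ?_ hp0
    have a6 : slp F (y, G y) * ((H1 + 1) / τ * ‖v‖) =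
        H1 / τ * slp F (y, G y) * ‖v‖ + ‖v‖ * (slp F (y, G y) / τ) := by ring
    rw [← a1, abs_mul, abs_of_pos hp0] at a4
    rw [a6]
    linarith [norm_nonneg v]
  refine ⟨ContinuousLinearMap.opNorm_le_bound _ (by positivity) x,
    norm_D2_le_of_apply (by positivity) fun v w => ?_⟩
  have a := (form hG hF e y v w).2
  rw [split0, split2 hF] at a
  refine ScalX.num h0 h1 hp (by linarith) e0 e1 e2 (norm_nonneg v) (norm_nonneg w) (x v) (x w)
    (k0 v w) (k1 v) (k1 w) k2 (d := D2 h y v w) ((norm_D2_apply_le h y v w).trans ?_) (by linarith)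
  gcongr

end SK

end

section

namespace SK
open SJ Set Filter Topology MeasureTheory Metric Function
open scoped ENNReal

namespace LevB2X

section Gen
variable {X : Type} [NormedAddCommGroup X] [NormedSpace ℝ X]

omit [NormedAddCommGroup X] [NormedSpace ℝ X] in
theorem chi2_ne {q e : X × ℝ → ℝ} {κ : ℝ} (hκ : 0 < κ) {y : X × ℝ} (h : chi2 q e κ y ≠ 0) :
    9 / 2 < q y ∧ |e y| < 6 * κ := by
  obtain ⟨h1, h2⟩ := mul_ne_zero_iff.1 h
  obtain ⟨h2, h3⟩ := mul_ne_zero_iff.1 h2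
  have a1 := lt_of_not_ge (mt st_zero h1)
  have a2 := lt_of_not_ge (mt st_zero h2)
  have a3 := lt_of_not_ge (mt st_zero h3)
  have a4 : |e y / κ| < 6 := abs_lt.2 ⟨by linarith, by linarith⟩
  rw [abs_div, abs_of_pos hκ, div_lt_iff₀ hκ] at a4
  exact ⟨by linarith, a4⟩

omit [NormedSpace ℝ X] in
theorem vm_disp {q e : X × ℝ → ℝ} {Z : ℝ → ℝ} {c : ℝ} (h : ∀ v, |Z v| ≤ c) (y : X × ℝ) :
    |(vm q e Z y).2 - y.2| ≤ c ∧ ‖vm q e Z y - y‖ ≤ c := by
  have h1 : |(vm q e Z y).2 - y.2| ≤ c := by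
    simp only [vm, add_sub_cancel_left, abs_mul, abs_of_nonneg (st_nonneg _)]
    exact (mul_le_of_le_one_left (abs_nonneg _) (st_le_one _)).trans (h _)
  refine ⟨h1, norm_prod_le_iff.2 ⟨?_, h1⟩⟩
  simpa [vm] using (abs_nonneg _).trans (h 0)

theorem comp_div {E : Type} [NormedAddCommGroup E] [NormedSpace ℝ E] {g f : E → E}
    {A B A' B' ℓ : ℝ} (hg : C2B g A' (B' / ℓ)) (hf : C2B f A (B / ℓ)) :
    C2B (fun x => g (f x)) (A' * A) ((B' * A ^ 2 + A' * B) / ℓ) :=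
  (hg.comp hf).mono le_rfl (le_of_eq (by ring))

theorem inj_of {E : Type} [NormedAddCommGroup E] {f : E → E} {c : ℝ}
    (h : ∀ y y', ‖y - y'‖ ≤ c * ‖f y - f y'‖) : Injective f := fun y y' e => by
  have := h y y'
  rw [e, sub_self, norm_zero, mul_zero] at this
  exact sub_eq_zero.1 (norm_le_zero_iff.1 this)

/-- the expansion undoes the squeeze -/
theorem undo {q e : X × ℝ → ℝ} {Z ZB : ℝ → ℝ} {κ h K Kz KZ ε : ℝ} (Q : QE q e κ h K) (hκ : 0 < κ)
    (hh : 6 * κ ≤ h) (e0 : 0 < ε) (e1 : ε ≤ 1) (hZ : ZAh Kz ε κ Z) (hB : ZBh KZ ε κ ZB)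
    (hi : Injective (vm q e Z)) {z : X × ℝ} (hc : chi2 q e (ε * κ) (vm q e Z z) ≠ 0) :
    9 / 2 < q z ∧ |e z| < 6 * κ ∧ vm q e ZB (rho e (vm q e Z z)) = rho e z := by
  obtain ⟨w, hw⟩ : ∃ w, w = vm q e Z z := ⟨_, rfl⟩
  rw [← hw] at hc ⊢
  obtain ⟨a1, a2⟩ := chi2_ne (mul_pos e0 hκ) hc
  have a3 : |e w / ε| < 6 * κ := by
    rw [abs_div, abs_of_pos e0, div_lt_iff₀ e0]
    linarith
  have a4 : ε * κ ≤ κ := mul_le_of_le_one_left hκ.le e1
  have a5 := mul_pos e0 hκ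
  obtain ⟨b1, b2⟩ := Q.cov w (w.2 - e w + e w / ε) (by linarith) (by linarith)
    (by rw [add_sub_cancel_left]; linarith)
  have b3 : e (w.1, w.2 - e w + e w / ε) = e w / ε := by rw [b2]; ring
  have b4 : z = (w.1, w.2 - e w + e w / ε) := hi <| by
    rw [← hw, vm, b1, b3, st_one (by linarith), hZ.zl _ (by linarith)]
    refine Prod.ext rfl ?_
    simp only
    field_simp
    ring
  obtain ⟨c1, c2⟩ := Q.cov w (w.2 - 2 * e w) (by linarith) (by linarith)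
    (by rw [show w.2 - 2 * e w - (w.2 - e w) = -e w by ring, abs_neg]; linarith)
  have c3 : e (w.1, w.2 - 2 * e w) = -e w := by rw [c2]; ring
  refine ⟨by rw [b4, b1]; exact a1, by rw [b4, b3]; exact a3, ?_⟩
  rw [b4, rho, rho, vm, c1, c3, b3, st_one (by linarith), hB.zl _ (by rw [abs_neg]; linarith)]
  refine Prod.ext rfl ?_
  simp only
  ring

theorem near {q e : X × ℝ → ℝ} {κ h K : ℝ} (Q : QE q e κ h K) (hκ : 0 < κ) {y z : X × ℝ}
    (hd : 2 * K * ‖y - z‖ ≤ κ) : q y - 1 / 2 ≤ q z ∧ |e z| ≤ |e y| + κ / 2 := by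
  have a := Q.qC.lip y z
  have b := Q.eC.lip z y
  rw [Real.norm_eq_abs] at a b
  rw [norm_sub_rev] at b
  have c : K / κ * ‖y - z‖ ≤ 1 / 2 := by
    rw [div_mul_eq_mul_div, div_le_iff₀ hκ]
    linarith
  exact ⟨by linarith [le_abs_self (q y - q z)], by linarith [abs_sub_abs_le_abs_sub (e z) (e y)]⟩

end Gen

end LevB2X

open LevB2X in
theorem levB2 (hV : VMoveStmt) (hZ : ZStmt) (hS : VertS2Stmt) (hC : Conj2Stmt) : LevB2Stmt := by
  intro ι _ _
  obtain ⟨Kh, hKh, hS⟩ := hS (ι → ℝ)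
  obtain ⟨KZ, hKZ, hZ⟩ := hZ
  refine ⟨Kh, Kh + 2 * KZ, hKh, by linarith, fun Kr Kq Kz hKr hKq hKz => ?_⟩
  obtain ⟨KV, hKV, hV⟩ := hV (ι → ℝ) Kq hKq
  obtain ⟨KS, hKS, hS⟩ := hS Kq hKq
  obtain ⟨KG, hKG, hC⟩ := hC (ι → ℝ) Kq hKq
  have T0 : 0 < KG * KS * KV * KZ := by positivity
  refine ⟨800 * (KG * KS * KV * KZ) + 64 * Kq + Kr + 200 * KG + 3300, by linarith,
    fun N P P' R ε lam F Ks hKs => ?_⟩
  have hN := F.hN
  have l0 := F.l0
  have P1 : 1 ≤ P' := F.P1.trans F.PP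
  have N1 : 1 ≤ N := by linarith
  have NP : N ≤ N * P' := le_mul_of_one_le_right (by linarith) P1
  have PN : P' ≤ N * P' := le_mul_of_one_le_left (by linarith) N1
  have hR : (200 * KG + 3300) * (N * P') ≤ R := by
    have : 0 < Kr := by linarith
    refine le_trans ?_ F.hR
    rw [mul_assoc _ N]
    exact (mul_le_mul_of_nonneg_right (by linarith) (by positivity)).trans
      (le_mul_of_one_le_right (by positivity) (one_le_pow₀ F.P1))
  have R0 : 0 < R := lt_of_lt_of_le (by positivity) hR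
  have he : ε = lam * (N * P') := by rw [F.he, mul_assoc]
  have e0 : 0 < ε := by rw [he]; positivity
  have hs : ε * (N * P') ≤ 1 := by rw [← mul_assoc]; exact F.sm
  have e1 : ε ≤ 1 := (le_mul_of_one_le_right e0.le (by linarith)).trans hs
  have l1 : lam ≤ 1 := (le_mul_of_one_le_right l0.le (by linarith)).trans (he ▸ e1)
  refine ⟨1 + (KG * (Ks * R + (400 * P') ^ 2 * (16 * R) / (N * P')) *
    (KS * (N * P') * (KV * (KZ / ε))) ^ 2 + KG * (400 * P') * (KS * (N * P') * (16 * R) *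
      (KV * (KZ / ε)) ^ 2 + KS * (N * P') * (KV * (KZ / ε + KZ / ε ^ 2) * (16 * R)))),
    le_add_of_nonneg_right (by positivity),
    fun M m ℓ0 ℓ κ0 κs p uu A R0' Rq Θ q0 e0' e20 q e e2 ν a b a' b' Z h0 hl hκ C0 C1 S0 S1 hA
      hZA => ?_⟩
  have ℓp : 0 < ℓ := by rw [hl]; positivity
  have ℓl : ℓ ≤ ℓ0 := hl ▸ mul_le_of_le_one_left h0.le l1
  obtain ⟨κ, hk⟩ : ∃ κ, κ = ℓ / R / 16 := ⟨_, rfl⟩
  have k0 : 0 < κ := by rw [hk]; positivity
  have k1 : κs = N * P' * κ := by rw [hκ, hk, hl, he]; ring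
  have k2 : ℓ / R = 16 * κ := by rw [hk]; ring
  have k3 : ℓ = 16 * R * κ := by rw [hk]; field_simp
  have k4 : N * κ ≤ κs := k1 ▸ mul_le_mul_of_nonneg_right NP k0.le
  have k5 : P' * κ ≤ κs := k1 ▸ mul_le_mul_of_nonneg_right PN k0.le
  have k6 : (Kr + 3300) * κ ≤ κs := (mul_le_mul_of_nonneg_right (by linarith) k0.le).trans k4
  have k7 : 64 * κ ≤ Kr * κ := mul_le_mul_of_nonneg_right (by linarith) k0.le
  have k8 : 16 * ((200 * KG + 3300) * κs) ≤ ℓ := by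
    rw [k1, k3]
    nlinarith [mul_le_mul_of_nonneg_right hR k0.le]
  have s0 : 0 < κs := by rw [k1]; positivity
  have k9 : 64 * κs ≤ Kh * κs := mul_le_mul_of_nonneg_right hKh s0.le
  have k10 : κs ≤ KG * κs := le_mul_of_one_le_left s0.le hKG
  have k11 : 2 * P' * (ℓ / R) ≤ 32 * κs := by rw [k2]; linarith
  have k12 : ∀ d, d ≤ 2 * P' * (ℓ / R) → 2 * Kq * d ≤ κs := fun d hd => by
    refine (mul_le_mul_of_nonneg_left hd (by positivity)).trans ?_
    rw [k1, k2]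
    nlinarith [mul_le_mul_of_nonneg_right (show 64 * Kq ≤ N by linarith)
      (show 0 ≤ P' * κ by positivity)]
  have s1 : κs ≤ ℓ0 / R / 16 := hκ ▸ mul_le_of_le_one_left (by positivity) e1
  have Q0 : QE q0 e0' κs (Kh * κs) Kq :=
    C0.qe.mono s0 s1 (mul_le_mul (by linarith) s1 s0.le (by linarith))
  have Q1 := C1.qe
  have L2 := C1.e2l
  have E2 := C1.e2C
  rw [← hk] at Q1 L2 E2 hZA ⊢
  obtain ⟨-, ZB, hB⟩ := hZ ε κ e0 e1 k0
  obtain ⟨v1, v2, v3, -⟩ := hV q e κ (Kr * κ) ZB _ _ (1 / 2) k0 (by linarith) Q1 hB.zC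
    (by rw [le_div_iff₀ e0]; linarith) hB.zb (fun v hv => hB.z0 v (by nlinarith)) one_half_pos
    (by norm_num) hB.zs
  obtain ⟨-, -, v4, -⟩ := hV q e κ (Kr * κ) Z _ _ ε k0 (by linarith) Q1 hZA.zC hKz hZA.zb
    (fun v hv => hZA.z0 v (by linarith)) e0 e1 hZA.zs
  obtain ⟨S, t1, t2, t3, t4, t5, t6, t7⟩ := hS q0 e0' e2 κs κ k0 (by linarith) Q0 C1.e2b E2
  obtain ⟨Γ, g1, g2, g3, g4, g5, g6⟩ := hC q0 e0' κs b' _ _ _ s0 (Q0.mono s0 le_rfl (by linarith))
    S1.bC (by linarith) S1.li.injective S1.disp fun z hz => by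
      have h1 : ConjX.chi q0 e0' κs (b' z) ≠ 0 := fun h => hz <| by
        obtain ⟨h2, h3⟩ := S1.sol z
        simp only [h, zero_mul, mul_zero, add_zero] at h2 h3
        exact Prod.ext (funext h3) h2
      obtain ⟨h2, h3⟩ := ConjX.chi_ne s0 h1
      obtain ⟨h4, h5⟩ := near Q0 s0 (k12 _ (S1.disp z))
      exact ⟨by linarith, by linarith⟩
  have d1 := vm_disp (q := q) (e := e) hB.zb
  have d2 : ∀ y, ‖S (vm q e ZB y) - y‖ ≤ 528 * κs := fun y =>
    (norm_sub_le_norm_sub_add_norm_sub _ (vm q e ZB y) _).trans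
      (by linarith [t4 (vm q e ZB y), (d1 y).2])
  have t1' : C2B S (KS * (N * P')) (KS * (N * P') * (16 * R) / ℓ) :=
    t1.mono (le_of_eq (by rw [k1]; field_simp)) (le_of_eq (by rw [k1, k3]; field_simp))
  have cc := comp_div (g1.mono le_rfl (le_of_eq (show _ =
      KG * (Ks * R + (400 * P') ^ 2 * (16 * R) / (N * P')) / ℓ by rw [k2, k1, k3]; field_simp)))
    (comp_div t1' (v1.mono le_rfl (le_of_eq (show _ =
      KV * (KZ / ε + KZ / ε ^ 2) * (16 * R) / ℓ by rw [k3]; field_simp))))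
  refine ⟨fun y => Γ (S (vm q e ZB y)), ⟨⟨cc.cd, fun y => ?_, fun y => (cc.d2 y).trans
    (div_le_div_of_nonneg_right (le_add_of_nonneg_left zero_le_one) ℓp.le)⟩,
    g2.comp (t3.comp (inj_of v3)), fun y => ?_, fun y hy => ?_, fun y k hy => ?_⟩,
    fun y c0 c1 => ?_⟩
  · have a1 : ‖fderiv ℝ (fun y => S (vm q e ZB y)) y‖ ≤ KS * (KV * (KZ / ε)) := by
      refine (norm_fderiv_comp_le' t1.cd v1.cd y).trans ?_
      rcases v2 y with h | ⟨h, h'⟩
      · refine (mul_le_of_le_one_right (norm_nonneg _) h).trans ((t1'.d1 _).trans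
          (mul_le_mul_of_nonneg_left ?_ (by positivity)))
        refine le_trans ?_ (le_mul_of_one_le_left (by positivity) hKV)
        rw [le_div_iff₀' e0]
        linarith
      · refine mul_le_mul (t7 _ fun _ h2 => (L2 y _ h h' ?_).1) (v1.d1 y) (norm_nonneg _)
          (by positivity)
        have h3 := abs_le.1 (d1 y).1
        have h4 := abs_le.1 h2
        have h5 := abs_lt.1 h'
        exact abs_lt.2 ⟨by linarith, by linarith⟩
    refine (norm_fderiv_comp_le' g1.cd (t1.cd.comp v1.cd) y).trans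
      ((mul_le_mul (g1.d1 _) a1 (norm_nonneg _) (by positivity)).trans ?_)
    rw [he, show KG * (400 * P') * (KS * (KV * (KZ / (lam * (N * P'))))) =
      800 * (KG * KS * KV * KZ) / N / (2 * lam) by field_simp; ring]
    exact div_le_div_of_nonneg_right ((div_le_one (by linarith)).2 (by linarith)) (by positivity)
  · refine (norm_sub_le_norm_sub_add_norm_sub _ (S (vm q e ZB y)) _).trans ?_
    linarith [d2 y, g3 (S (vm q e ZB y)), mul_le_mul_of_nonneg_left k11 (zero_le_one.trans hKG)]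
  · have a1 : vm q e ZB y = y := by
      rw [vm, (C1.top y (by linarith)).1, st_zero (by norm_num), zero_mul, add_zero]
    have a2 := (C0.top y (by linarith)).1
    simp only [a1, t5 y (by linarith), g4 y (by linarith)]
  · have a1 : (S (vm q e ZB y)).1 = y.1 := t2 _
    rcases g5 (S (vm q e ZB y)) with h | ⟨t, h, h'⟩
    · simp only [h, a1]
    · have a2 : A k (b' ((S (vm q e ZB y)).1, t)) = 0 := hy _ <| by
        have a3 := norm_sub_le_norm_sub_add_norm_sub (b' ((S (vm q e ZB y)).1, t))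
          ((S (vm q e ZB y)).1, t) y
        have a4 := norm_sub_le_norm_sub_add_norm_sub ((S (vm q e ZB y)).1, t) (S (vm q e ZB y)) y
        have a5 : ‖((S (vm q e ZB y)).1, t) - S (vm q e ZB y)‖ ≤ 96 * κs :=
          norm_prod_le_iff.2 ⟨by simpa using s0.le, h⟩
        linarith [d2 y, S1.disp ((S (vm q e ZB y)).1, t)]
      simp only [h', (S1.sol _).2 k, a2, hA k _ a2, zero_mul, mul_zero, add_zero]
      rw [a1]
  · obtain ⟨a1, a2⟩ := chi2_ne s0 c0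
    obtain ⟨b1, b2, b3⟩ := undo Q1 k0 (by linarith) e0 e1 hZA hB (inj_of v4) c1
    have y1 : y = b' (a y) := S1.uniq _ _ <| by
      have h := S0.sol (a y)
      rw [S0.ri y] at h
      simpa only [Sol2, ConjX.chi_one s0 (by linarith : 4 ≤ q0 y) (by linarith), one_mul] using h
    obtain ⟨z, hz⟩ : ∃ z, z = a y := ⟨_, rfl⟩
    rw [← hz] at y1 b1 b2 b3 ⊢
    obtain ⟨f1, f2⟩ := near Q0 s0 (k12 _ (S1.disp z))
    rw [← y1] at f1 f2
    have f3 := abs_le.1 (show |e0' z| ≤ 7 * κs by linarith)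
    have f4 := abs_lt.1 b2
    obtain ⟨f5, f6⟩ := Q0.cov z (z.2 - 2 * e z) (by linarith) (by linarith)
      (abs_le.2 ⟨by linarith, by linarith⟩)
    have f7 := (L2 z (z.2 - e0' z) (by linarith) (by linarith)
      (abs_lt.2 ⟨by linarith, by linarith⟩)).2 (abs_le.2 ⟨by linarith, by linarith⟩)
    have f8 : S (rho e z) = rho e0' z := by
      rw [rho, t6 _ (by linarith) (by rw [f6]; exact abs_le.2 ⟨by linarith, by linarith⟩), f6]
      simp only
      rw [show z.2 - 2 * e z - (e0' z + (z.2 - 2 * e z - z.2)) = z.2 - e0' z by ring, f7, rho]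
      refine Prod.ext rfl ?_
      simp only
      ring
    simp only [b3, f8]
    rw [g6 z (by linarith) (by linarith), ← y1]

end SK

end
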