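import Mathlib
import Pool.Agent.Mg.Xedaf86.G06b4b8
import Pool.Agent.Mg.Xedaf86.G39d375

namespace SK
open SJ Set Filter Topology MeasureTheory Metric Function
open scoped ENNReal

namespace TLgX

theorem prod_c2b {ι : Type} [Fintype ι] (k : ι) {f : ℝ → ℝ} {g : (ι → ℝ) → ℝ} {K w : ℝ}
    (hK : 1 ≤ K) (hw : 0 < w) (f01 : ∀ v, 0 ≤ f v ∧ f v ≤ 1) (fC : C2B f (K / w) (K / w ^ 2))
    (g01 : ∀ x, 0 ≤ g x ∧ g x ≤ 1) (gC : C2B g (K / w) (K / w ^ 2)) :
    C2B (fun x => f (x k) * g x) (4 * K ^ 2 / w) (4 * K ^ 2 / w ^ 2) := by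
  have h1 : C2B (fun x : ι → ℝ => f (x k)) (K / w) (K / w ^ 2) :=
    (fC.comp (C2B.coord k)).mono (le_of_eq (by ring)) (le_of_eq (by ring))
  have h2 := C2B.mul (a0 := 1) (b0 := 1)
    (fun x => abs_le.2 ⟨by linarith [(f01 (x k)).1], (f01 (x k)).2⟩) h1
    (fun x => abs_le.2 ⟨by linarith [(g01 x).1], (g01 x).2⟩) gC
  refine h2.mono ?_ ?_
  · rw [mul_one, one_mul, ← add_div]
    gcongr
    nlinarith
  · rw [show K / w ^ 2 * 1 + 2 * (K / w) * (K / w) + 1 * (K / w ^ 2) =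
      (2 * K + 2 * K ^ 2) / w ^ 2 by field_simp; ring]
    gcongr
    nlinarith

end TLgX

theorem tLg (hS : SmStmt) (hP : PowLgStmt) : TLgStmt := by
  intro ι _ _ r L M K η ω τ ℓ b φ u f c hr hT hℓ hb hW hF
  obtain ⟨hK, -, hL, hM, hη, hω, he, hw, hτ, hτ1, n1, n2⟩ := hT
  obtain ⟨hS1, -⟩ := hS ι r hr
  have hd : (1 : ℝ) ≤ Fintype.card ι := by exact_mod_cast (by omega : 1 ≤ Fintype.card ι)
  have hr0 : (0 : ℝ) ≤ r := Nat.cast_nonneg _
  have hL0 : (1 : ℝ) ≤ L := by exact_mod_cast hL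
  have hM0 : (2 : ℝ) ≤ M := by exact_mod_cast hM
  have hη1 : η ≤ 1 := by
    have : (1 : ℝ) ≤ 100 * ((Fintype.card ι : ℝ) + 1) * ((L : ℝ) + 1) * K := by
      have : (1 : ℝ) ≤ 100 * ((Fintype.card ι : ℝ) + 1) := by linarith
      exact one_le_mul_of_one_le_of_one_le (one_le_mul_of_one_le_of_one_le this (by linarith)) hK
    nlinarith
  have hw1 : 2000 * (((r : ℝ) + 1) * ((L : ℝ) + 1)) * ω ≤ 1 := by
    refine le_trans ?_ hw
    have h1 : (2 : ℝ) ≤ ((Fintype.card ι : ℝ) + 1) * K := by nlinarith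
    have h2 : 0 ≤ ((r : ℝ) + 1) * ((L : ℝ) + 1) * ω := by positivity
    nlinarith
  have hw2 : 2000 * ((L : ℝ) + 1) * ω ≤ 1 := by
    have : 0 ≤ (r : ℝ) * (((L : ℝ) + 1) * ω) := by positivity
    nlinarith
  have hw3 : 2000 * ((r : ℝ) + 1) * ω ≤ 1 := by
    have : 0 ≤ (L : ℝ) * (((r : ℝ) + 1) * ω) := by positivity
    nlinarith
  have hω1 : ω ≤ 1 / 8 := by nlinarith
  have hΩ : 0 < ω ^ L := pow_pos hω L
  have hΩ1 : ω ^ L ≤ ω := pow_le_of_le_one hω.le (by linarith) (by omega)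
  set w : ℝ := η * ω ^ L * ℓ with hwdef
  have hw0 : 0 < w := by positivity
  have hwℓ : w ≤ ℓ := by
    have : η * ω ^ L ≤ 1 := mul_le_one₀ hη1 hΩ.le (by linarith)
    nlinarith
  have hap : ∀ n : Fin L, ω ^ (L - n) * (η * ω ^ (n : ℕ) * ℓ) = w := fun n => by
    have : ω ^ L = ω ^ (L - n) * ω ^ (n : ℕ) := by
      rw [← pow_add, Nat.sub_add_cancel n.2.le]
    rw [hwdef, this]; ring
  have hc : ∀ k n, 0 ≤ c k n ∧ c k n * ω ^ L ≤ 1 := fun k n => by
    have h1 := (hF k n).c1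
    have h2 := (hF k n).c2
    have h3 : ω ^ L ≤ ω ^ (L - n) := pow_le_pow_of_le_one hω.le (by linarith) (Nat.sub_le _ _)
    rw [le_div_iff₀ (pow_pos hω _)] at h2
    exact ⟨by linarith, le_trans (by gcongr) h2⟩
  set ν : ℝ := 128 * (M : ℝ) * K ^ 2 * ω / η with hν
  have hν0 : 0 < ν := by positivity
  have hν1 : ν ≤ 1 := (div_le_one hη).2 n1
  have hct : ∀ n k, C2B (ct r ω b n k) (K / w) (K / w ^ 2) := fun n k =>
    (hW.ctC n k).mono (by gcongr) (by gcongr)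
  have key : ∀ (g : (ι → ℝ) → ℝ) (B : ℝ), (∀ x, 0 ≤ g x ∧ g x ≤ 1) →
      C2B g (4 * K ^ 2 / w) (4 * K ^ 2 / w ^ 2) → 0 ≤ B → B * ω ^ L ≤ 1 →
      Lg (fun x => τ / (L + 1) + B * g x ^ M) (2 * (8 * (ω ^ (L + 1) * ℓ))) := by
    intro g B g01 gC hB hB1
    refine hP _ M g (4 * K ^ 2) w B _ _ ν hM g01 gC (by nlinarith) hw0 hB (by positivity)
      (by positivity) hν0 hν1 ?_ (le_of_eq ?_)
    · rw [le_div_iff₀ (by positivity)]
      have h1 : B * (((L : ℝ) + 1) * ν ^ M) ≤ B * (τ * ω ^ L) := mul_le_mul_of_nonneg_left n2 hB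
      have h2 : τ * (B * ω ^ L) ≤ τ * 1 := mul_le_mul_of_nonneg_left hB1 hτ.le
      nlinarith
    · rw [hν, hwdef]; field_simp; ring
  have hfg : ∀ k n x, 0 ≤ f k n (x k) * ct r ω b n k x ∧ f k n (x k) * ct r ω b n k x ≤ 1 :=
    fun k n x => ⟨mul_nonneg ((hF k n).f01 _).1 (hW.ct01 _ _ _).1,
      mul_le_one₀ ((hF k n).f01 _).2 (hW.ct01 _ _ _).1 (hW.ct01 _ _ _).2⟩
  have hfT : ∀ k, Lg (fT r L M ω τ b f c k) (2 * (8 * (ω ^ (L + 1) * ℓ))) := fun k => by
    have h1 := key (ct r ω b L k) 1 (hW.ct01 L k)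
      ((hct L k).mono (by gcongr; nlinarith) (by gcongr; nlinarith)) zero_le_one (by linarith)
    have h2 := Lg.sum (I := (Finset.univ : Finset (Fin L))) ⟨⟨0, hL⟩, Finset.mem_univ _⟩
      (φ := fun n x => τ / (L + 1) + c k n * (f k n (x k) * ct r ω b n k x) ^ M)
      fun n _ => key _ _ (hfg k n) (TLgX.prod_c2b k hK hw0 (hF k n).f01
        (by have := (hF k n).fC; rwa [hap n] at this) (hW.ct01 n k) (hct n k)) (hc k n).1 (hc k n).2
    have h3 := h1.add h2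
    have e : fT r L M ω τ b f c k = fun x => (τ / (L + 1) + 1 * ct r ω b L k x ^ M) +
        ∑ n : Fin L, (τ / (L + 1) + c k n * (f k n (x k) * ct r ω b n k x) ^ M) := by
      funext x
      rw [fT, Finset.sum_add_distrib, Finset.sum_const, Finset.card_univ, Fintype.card_fin,
        nsmul_eq_mul]
      have e0 : τ = τ / (L + 1) + L * (τ / (L + 1)) := by field_simp; ring
      linarith
    rw [e]
    exact h3
  have h16 : 2 * (8 * (ω ^ (L + 1) * ℓ)) ≤ 2 * ℓ := by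
    have : ω ^ (L + 1) ≤ ω := pow_le_of_le_one hω.le (by linarith) (by omega)
    nlinarith
  have P1 : ∀ k, Lg (bN r L M ω τ b f c k) (8 * (ω ^ (L + 1) * ℓ)) := fun k => by
    have h1 := (hb k).mono (by positivity) (h16.trans (by linarith))
    have h2 := (hW.sL.mono (by positivity) h16).const_mul (inv_pos.2 hω)
    have h3 := Lg.mul (by positivity) ((h1.add h2).const_mul (c := 36) (by norm_num)) (hfT k)
    have e : bN r L M ω τ b f c k =
        fun x => 36 * (b k x + ω⁻¹ * smf r b x) * fT r L M ω τ b f c k x := by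
      funext x
      rw [bN, div_eq_inv_mul]
    rw [e]
    exact h3
  have P2 : ∀ k x, ω ^ L * b k x ≤ 18 * smf r b x →
      ω ^ (2 * L + 1) * bN r L M ω τ b f c k x ≤ smf r b x := fun k x h => by
    have hs := hW.sL.pos x
    have hb0 := (hb k).pos x
    have h1 : ω ^ L * (b k x + smf r b x / ω) ≤ 19 * smf r b x := by
      have : ω ^ L * (smf r b x / ω) ≤ smf r b x := by
        rw [mul_div_left_comm]
        exact mul_le_of_le_one_right hs.le ((div_le_one hω).2 hΩ1)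
      linarith
    have h2 : ω ^ L * fT r L M ω τ b f c k x ≤ L + 2 := by
      have a1 : ω ^ L * τ ≤ 1 := mul_le_one₀ (by linarith) hτ.le (by linarith)
      have a2 : ω ^ L * ct r ω b L k x ^ M ≤ 1 := mul_le_one₀ (by linarith)
        (pow_nonneg (hW.ct01 _ _ _).1 _) (pow_le_one₀ (hW.ct01 _ _ _).1 (hW.ct01 _ _ _).2)
      have a3 : ∑ n : Fin L, ω ^ L * (c k n * (f k n (x k) * ct r ω b n k x) ^ M) ≤
          ∑ _n : Fin L, (1 : ℝ) := Finset.sum_le_sum fun n _ => by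
        rw [← mul_assoc, mul_comm (ω ^ L)]
        exact mul_le_one₀ (hc k n).2 (pow_nonneg (hfg k n x).1 _)
          (pow_le_one₀ (hfg k n x).1 (hfg k n x).2)
      rw [Finset.sum_const, Finset.card_univ, Fintype.card_fin, nsmul_eq_mul, mul_one] at a3
      rw [fT, mul_add, mul_add, Finset.mul_sum]
      linarith
    have h3 : 0 ≤ ω ^ L * fT r L M ω τ b f c k x := mul_nonneg hΩ.le ((hfT k).pos x).le
    have h4 := mul_le_mul h1 h2 h3 (by positivity)
    have e : ω ^ (2 * L + 1) * bN r L M ω τ b f c k x =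
        36 * ω * (ω ^ L * (b k x + smf r b x / ω) * (ω ^ L * fT r L M ω τ b f c k x)) := by
      rw [bN]; ring
    rw [e]
    have h5 : 36 * ω * (19 * (L + 2)) ≤ 1 := by nlinarith
    calc _ ≤ 36 * ω * (19 * smf r b x * (L + 2)) := by gcongr
      _ = 36 * ω * (19 * (L + 2)) * smf r b x := by ring
      _ ≤ _ := mul_le_of_le_one_left hs.le h5
  refine ⟨P1, P2, fun x => ?_⟩
  obtain ⟨-, -, -, ⟨T, hT1, hT2⟩, -⟩ := hS1 (fun k => b k x) fun k => (hb k).pos x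
  obtain ⟨-, -, -, -, h5, -⟩ := hS1 (fun k => bN r L M ω τ b f c k x) fun k => (P1 k).pos x
  have hs := hW.sL.pos x
  have hq : 0 < ω ^ (2 * L + 1) := pow_pos hω _
  have h6 := h5 T (smf r b x / ω ^ (2 * L + 1)) hT1 fun k hk => by
    rw [le_div_iff₀' hq]
    refine P2 k x ?_
    have a1 : b k x ≤ (r + 1) * smf r b x := hT2 k hk
    have a2 : ω ^ L * ((r : ℝ) + 1) ≤ 18 := by nlinarith
    calc _ ≤ ω ^ L * ((r + 1) * smf r b x) := by gcongr
      _ = ω ^ L * ((r : ℝ) + 1) * smf r b x := by ring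
      _ ≤ _ := by gcongr
  rw [← mul_div_assoc, le_div_iff₀' hq] at h6
  exact h6

end SK
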