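import Mathlib
import Pool.Agent.Mg.Xedaf86.G06b4b8
import Pool.Agent.Mg.Xedaf86.G39d375

section

namespace SK
open SJ Set Filter Topology MeasureTheory Metric Function
open scoped ENNReal

namespace PotX

/-- the estimate of one slot -/
theorem slot (L : ℕ) (ε ω τ p : ℝ) (c : ℕ → ℝ) (P : Fin L → Prop) [DecidablePred P]
    (he : 0 < ε) (hω : 0 < ω) (hω1 : ω ≤ 1) (hτ : 0 ≤ τ) (hτ1 : τ ≤ 1) (hτε : τ ^ ε ≤ ω ^ L)
    (hc : ∀ n, 0 ≤ c n ∧ c n ≤ 1) (hp1 : p ≤ 1)
    (hp : ∀ m : Fin L, P m → p ≤ 10 * ω ^ (L - m)) :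
    ∃ n : ℕ, n ≤ L ∧ (n = 0 ∨ c n ≠ 0) ∧ ∀ e : ℝ, ε ≤ e → e ≤ 1 →
      p * (τ + c L + ∑ m : Fin L, if P m then c m / ω ^ (L - m) else 0) ^ e
        ≤ 10 * (L + 2) * ω ^ (((L : ℝ) - n) * (1 - e)) := by
  classical
  have hL : (0 : ℝ) ≤ L := Nat.cast_nonneg L
  by_cases hA : ∃ m : Fin L, P m ∧ c m ≠ 0
  · obtain ⟨n, hn, hmin⟩ := (Finset.univ.filter fun m : Fin L => P m ∧ c m ≠ 0).exists_min_image
      (fun m => (m : ℕ)) (by
        obtain ⟨m, hm⟩ := hA
        exact ⟨m, by simpa using hm⟩)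
    simp only [Finset.mem_filter, Finset.mem_univ, true_and] at hn hmin
    refine ⟨n, n.2.le, Or.inr hn.2, fun e h1 h2 => ?_⟩
    set x : ℝ := ω ^ (L - n) with hx
    have x0 : 0 < x := pow_pos hω _
    have x1 : x ≤ 1 := pow_le_one₀ hω.le hω1
    have hi : 1 ≤ 1 / x := by rw [le_div_iff₀ x0]; linarith
    have hs : (∑ m : Fin L, if P m then c m / ω ^ (L - m) else 0) ≤ L * (1 / x) := by
      have : ∀ m ∈ (Finset.univ : Finset (Fin L)),
          (if P m then c m / ω ^ (L - m) else 0) ≤ 1 / x := by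
        intro m _
        split_ifs with hm
        · by_cases h0 : c m = 0
          · rw [h0, zero_div]; positivity
          · have h3 := hmin m ⟨hm, h0⟩
            have h4 : x ≤ ω ^ (L - m) := pow_le_pow_of_le_one hω.le hω1 (by omega)
            exact div_le_div₀ zero_le_one (hc m).2 x0 h4
        · positivity
      have := Finset.sum_le_card_nsmul _ _ _ this
      simpa using this
    have hs0 : 0 ≤ (∑ m : Fin L, if P m then c m / ω ^ (L - m) else 0) := by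
      refine Finset.sum_nonneg fun m _ => ?_
      split_ifs
      · exact div_nonneg (hc m).1 (pow_pos hω _).le
      · exact le_rfl
    have hφ : τ + c L + (∑ m : Fin L, if P m then c m / ω ^ (L - m) else 0) ≤ (L + 2) / x := by
      have : ((L : ℝ) + 2) / x = L * (1 / x) + 1 / x + 1 / x := by ring
      rw [this]
      linarith [(hc L).2]
    have hφ0 : 0 ≤ τ + c L + (∑ m : Fin L, if P m then c m / ω ^ (L - m) else 0) := by
      linarith [(hc L).1]
    have e0 : 0 ≤ e := by linarith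
    have h5 := Real.rpow_le_rpow hφ0 hφ e0
    rw [Real.div_rpow (by linarith) x0.le] at h5
    have h6 : ((L : ℝ) + 2) ^ e ≤ L + 2 := by
      have := Real.rpow_le_rpow_of_exponent_le (x := (L : ℝ) + 2) (by linarith) h2
      rwa [Real.rpow_one] at this
    have xe : 0 < x ^ e := Real.rpow_pos_of_pos x0 e
    have h7 : ((L : ℝ) + 2) ^ e / x ^ e ≤ (L + 2) / x ^ e := div_le_div_of_nonneg_right h6 xe.le
    have h8 : ω ^ (((L : ℝ) - n) * (1 - e)) = x / x ^ e := by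
      rw [Real.rpow_mul hω.le, ← Nat.cast_sub n.2.le, Real.rpow_natCast, ← hx,
        Real.rpow_sub x0, Real.rpow_one]
    rw [h8]
    calc p * (τ + c L + ∑ m : Fin L, if P m then c m / ω ^ (L - m) else 0) ^ e
        ≤ (10 * x) * (((L : ℝ) + 2) / x ^ e) :=
          mul_le_mul (hp n hn.1) (h5.trans h7) (Real.rpow_nonneg hφ0 e) (by positivity)
      _ = 10 * (L + 2) * (x / x ^ e) := by ring
  · have hs : (∑ m : Fin L, if P m then c m / ω ^ (L - m) else 0) = 0 := by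
      refine Finset.sum_eq_zero fun m _ => ?_
      split_ifs with hm
      · have : c m = 0 := by
          by_contra h
          exact hA ⟨m, hm, h⟩
        rw [this, zero_div]
      · rfl
    rw [hs, add_zero]
    by_cases h0 : c L = 0
    · refine ⟨0, Nat.zero_le _, Or.inl rfl, fun e h1 h2 => ?_⟩
      rw [h0, add_zero]
      have h3 : τ ^ e ≤ τ ^ ε := Real.rpow_le_rpow_of_exponent_ge' hτ hτ1 he.le h1
      have h4 : ω ^ L ≤ ω ^ (((L : ℝ) - (0 : ℕ)) * (1 - e)) := by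
        rw [← Real.rpow_natCast]
        refine Real.rpow_le_rpow_of_exponent_ge hω hω1 ?_
        push_cast
        nlinarith
      have h5 : 0 ≤ τ ^ e := Real.rpow_nonneg hτ e
      have h6 : 0 ≤ ω ^ (((L : ℝ) - (0 : ℕ)) * (1 - e)) := Real.rpow_nonneg hω.le _
      nlinarith
    · refine ⟨L, le_rfl, Or.inr h0, fun e h1 h2 => ?_⟩
      rw [sub_self, zero_mul, Real.rpow_zero]
      have h3 : 0 ≤ τ + c L := by linarith [(hc L).1]
      have h4 : (τ + c L) ^ e ≤ 2 ^ e :=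
        Real.rpow_le_rpow h3 (by linarith [(hc L).2]) (by linarith)
      have h5 : (2 : ℝ) ^ e ≤ 2 := by
        have := Real.rpow_le_rpow_of_exponent_le (x := (2 : ℝ)) (by norm_num) h2
        rwa [Real.rpow_one] at this
      have h6 : 0 ≤ (τ + c L) ^ e := Real.rpow_nonneg h3 e
      nlinarith

variable {ι : Type} [Fintype ι] [DecidableEq ι]

theorem term_le (r : ℕ) (ε γ : ℝ) (b : ι → ℝ) (hb : ∀ l, 0 ≤ b l) (S : Finset ι) (k : ι)
    (hS : S.card = r) (hk : k ∉ S) : b k ^ ε * ∏ l ∈ S, b l ^ γ ≤ pot r ε γ b := by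
  have h0 : ∀ (S : Finset ι) (k : ι), 0 ≤ b k ^ ε * ∏ l ∈ S, b l ^ γ := fun S k =>
    mul_nonneg (Real.rpow_nonneg (hb k) _)
      (Finset.prod_nonneg fun l _ => Real.rpow_nonneg (hb l) _)
  unfold pot
  refine le_trans ?_ (Finset.single_le_sum
    (f := fun S : Finset ι => ∑ k ∈ Sᶜ, b k ^ ε * ∏ l ∈ S, b l ^ γ)
    (fun S _ => Finset.sum_nonneg fun k _ => h0 S k) (a := S) (by simp [hS]))
  exact Finset.single_le_sum (f := fun k => b k ^ ε * ∏ l ∈ S, b l ^ γ)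
    (fun k _ => h0 S k) (by simpa using hk)

omit [Fintype ι] in
theorem exists_inj (T G : Finset ι) (h : T.card ≤ G.card) :
    ∃ σ : ι → ι, Set.InjOn σ T ∧ (∀ l ∈ T, σ l ∈ G) ∧ ∀ l ∈ G, σ l = l := by
  have h1 : Fintype.card (T \ G : Finset ι) ≤ (G \ T).card := by
    rw [Fintype.card_coe]
    have a := Finset.card_sdiff_add_card_inter T G
    have b := Finset.card_sdiff_add_card_inter G T
    rw [Finset.inter_comm] at b
    omega
  obtain ⟨f, hf⟩ := Function.Embedding.exists_of_card_le_finset h1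
  have hf' : ∀ x, f x ∈ G ∧ f x ∉ T := fun x => by
    have := hf (Set.mem_range_self x)
    simpa using this
  refine ⟨fun l => if h : l ∈ T \ G then f ⟨l, h⟩ else l, ?_, ?_, ?_⟩
  · intro x hx y hy hxy
    have hx' : x ∈ T := hx
    have hy' : y ∈ T := hy
    simp only at hxy
    split_ifs at hxy with a b b
    · exact congrArg Subtype.val (f.injective hxy)
    · exact absurd (hxy ▸ hy') (hf' _).2
    · exact absurd (hxy ▸ hx') (hf' _).2
    · exact hxy
  · intro l hl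
    simp only
    split_ifs with a
    · exact (hf' _).1
    · by_contra hG
      exact a (Finset.mem_sdiff.2 ⟨hl, hG⟩)
  · intro l hl
    simp only
    rw [dif_neg]
    simp [hl]

theorem scale (r : ℕ) (ε γ A : ℝ) (x y : ι → ℝ) (S : Finset ι) (k : ι) (hS : S.card = r)
    (he : 0 ≤ ε) (hg : 0 ≤ γ) (h2 : ε + r * γ ≤ 2) (hA : 1 ≤ A) (hx : ∀ l, 0 ≤ x l)
    (hy : ∀ l, 0 ≤ y l) (hk : x k ≤ A * y k) (hl : ∀ l ∈ S, x l ≤ A * y l) :
    x k ^ ε * ∏ l ∈ S, x l ^ γ ≤ A ^ 2 * (y k ^ ε * ∏ l ∈ S, y l ^ γ) := by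
  have A0 : 0 < A := by linarith
  have h1 : x k ^ ε ≤ A ^ ε * y k ^ ε := by
    rw [← Real.mul_rpow A0.le (hy k)]
    exact Real.rpow_le_rpow (hx k) hk he
  have h3 : ∏ l ∈ S, x l ^ γ ≤ A ^ (r * γ) * ∏ l ∈ S, y l ^ γ := by
    have : A ^ (r * γ) = ∏ _l ∈ S, A ^ γ := by
      rw [Finset.prod_const, hS, mul_comm, Real.rpow_mul A0.le, Real.rpow_natCast]
    rw [this, ← Finset.prod_mul_distrib]
    refine Finset.prod_le_prod (fun l _ => Real.rpow_nonneg (hx l) _) fun l h => ?_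
    rw [← Real.mul_rpow A0.le (hy l)]
    exact Real.rpow_le_rpow (hx l) (hl l h) hg
  have h4 : A ^ ε * A ^ (r * γ) ≤ A ^ 2 := by
    rw [← Real.rpow_add A0, ← Real.rpow_two]
    exact Real.rpow_le_rpow_of_exponent_le hA h2
  have h5 : 0 ≤ y k ^ ε * ∏ l ∈ S, y l ^ γ :=
    mul_nonneg (Real.rpow_nonneg (hy k) _)
      (Finset.prod_nonneg fun l _ => Real.rpow_nonneg (hy l) _)
  calc x k ^ ε * ∏ l ∈ S, x l ^ γ
      ≤ (A ^ ε * y k ^ ε) * (A ^ (r * γ) * ∏ l ∈ S, y l ^ γ) :=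
        mul_le_mul h1 h3 (Finset.prod_nonneg fun l _ => Real.rpow_nonneg (hx l) _)
          (mul_nonneg (Real.rpow_nonneg A0.le _) (Real.rpow_nonneg (hy k) _))
    _ = (A ^ ε * A ^ (r * γ)) * (y k ^ ε * ∏ l ∈ S, y l ^ γ) := by ring
    _ ≤ _ := mul_le_mul_of_nonneg_right h4 h5

/-- the rearrangement -/
theorem rearr (r : ℕ) (ε γ s D : ℝ) (b : ι → ℝ) (hb : ∀ l, 0 < b l) (hs : 0 ≤ s) (hD : 1 ≤ D)
    (he : 0 ≤ ε) (hg : 0 ≤ γ) (h2 : ε + r * γ ≤ 2)
    (hG : ∃ S : Finset ι, S.card = r + 1 ∧ ∀ l ∈ S, s ≤ D * b l) (S : Finset ι) (k : ι)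
    (hS : S.card = r) (hk : k ∉ S) :
    (b k + s) ^ ε * ∏ l ∈ S, (b l + s) ^ γ ≤ (2 * D) ^ 2 * pot r ε γ b := by
  obtain ⟨S0, c0, h0⟩ := hG
  set G : Finset ι := Finset.univ.filter fun l => s ≤ D * b l with hGd
  have hsub : S0 ⊆ G := fun l hl => by simpa [hGd] using h0 l hl
  obtain ⟨σ, i1, i2, i3⟩ := exists_inj (insert k S) G (by
    rw [Finset.card_insert_of_notMem hk, hS, ← c0]; exact Finset.card_le_card hsub)
  have key : ∀ l ∈ insert k S, b l + s ≤ 2 * D * b (σ l) := by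
    intro l hl
    have a : s ≤ D * b (σ l) := by simpa [hGd] using i2 l hl
    by_cases hG : l ∈ G
    · rw [i3 l hG] at a ⊢
      nlinarith [hb l]
    · have : D * b l < s := by simpa [hGd] using hG
      nlinarith [hb l]
  have iS : Set.InjOn σ S := i1.mono (by simp)
  have h1 := scale r ε γ (2 * D) (fun l => b l + s) (fun l => b (σ l)) S k hS he hg h2
    (by linarith) (fun l => by linarith [hb l]) (fun l => (hb _).le)
    (key k (Finset.mem_insert_self _ _)) fun l hl => key l (Finset.mem_insert_of_mem hl)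
  refine h1.trans (mul_le_mul_of_nonneg_left ?_ (by positivity))
  have h3 := term_le r ε γ b (fun l => (hb l).le) (S.image σ) (σ k)
    (by rw [Finset.card_image_of_injOn iS, hS]) (by
      intro h
      obtain ⟨l, hl, e⟩ := Finset.mem_image.1 h
      have := i1 (Finset.mem_coe.2 (Finset.mem_insert_of_mem hl))
        (Finset.mem_coe.2 (Finset.mem_insert_self k S)) e
      exact hk (this ▸ hl))
  rwa [Finset.prod_image iS] at h3

theorem swap (ε γ ω C x y : ℝ) (n : ℕ) (h1 : ε ≤ γ) (h2 : γ ≤ ε + 1) (hω : 0 < ω) (hC : 1 ≤ C)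
    (hx : 0 < x) (hy : 0 < y) (h : y ≤ C * ω ^ n * x) :
    x ^ ε * y ^ γ ≤ C * ω ^ ((n : ℝ) * (γ - ε)) * (y ^ ε * x ^ γ) := by
  have C0 : 0 < C := by linarith
  have a : y ^ γ = y ^ ε * y ^ (γ - ε) := by rw [← Real.rpow_add hy]; congr 1; ring
  have b : x ^ γ = x ^ ε * x ^ (γ - ε) := by rw [← Real.rpow_add hx]; congr 1; ring
  have c : y ^ (γ - ε) ≤ (C * ω ^ n * x) ^ (γ - ε) := Real.rpow_le_rpow hy.le h (by linarith)
  rw [Real.mul_rpow (by positivity) hx.le, Real.mul_rpow C0.le (by positivity),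
    ← Real.rpow_natCast, ← Real.rpow_mul hω.le] at c
  have d : C ^ (γ - ε) ≤ C := by
    have := Real.rpow_le_rpow_of_exponent_le (y := γ - ε) (z := 1) hC (by linarith)
    rwa [Real.rpow_one] at this
  have e : y ^ (γ - ε) ≤ C * ω ^ ((n : ℝ) * (γ - ε)) * x ^ (γ - ε) :=
    c.trans (by gcongr)
  rw [a, b]
  calc x ^ ε * (y ^ ε * y ^ (γ - ε)) = (x ^ ε * y ^ ε) * y ^ (γ - ε) := by ring
    _ ≤ (x ^ ε * y ^ ε) * (C * ω ^ ((n : ℝ) * (γ - ε)) * x ^ (γ - ε)) :=
        mul_le_mul_of_nonneg_left e (by positivity)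
    _ = _ := by ring

omit [Fintype ι] in
theorem term (r L : ℕ) (ε γ ω A C R : ℝ) (β φ p : ι → ℝ) (n : ι → ℕ) (he : 0 < ε) (h1 : ε ≤ γ)
    (h2 : γ ≤ 1) (hω : 0 < ω) (hω1 : ω ≤ 1) (hA : 1 ≤ A) (hC : 1 ≤ C) (hβ : ∀ l, 0 < β l)
    (hφ : ∀ l, 0 ≤ φ l) (hp : ∀ l, 0 ≤ p l) (hn : ∀ l, n l ≤ L)
    (hs : ∀ l e, ε ≤ e → e ≤ 1 → p l * φ l ^ e ≤ A * ω ^ (((L : ℝ) - n l) * (1 - e)))
    (hR : ∀ (S : Finset ι) (k : ι), S.card = r → k ∉ S → β k ^ ε * ∏ l ∈ S, β l ^ γ ≤ R)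
    (S : Finset ι) (k : ι) (hS : S.card = r) (hk : k ∉ S) (l0 : ι) (hl : l0 ∈ insert k S)
    (n0 : n l0 = 0) (hb : β l0 ≤ C * ω ^ n k * β k) :
    (∏ l ∈ insert k S, p l) * ((β k * φ k) ^ ε * ∏ l ∈ S, (β l * φ l) ^ γ) ≤
      A ^ (r + 1) * C * ω ^ ((L : ℝ) * (1 - ε)) * R := by
  have e1 : (∏ l ∈ insert k S, p l) * ((β k * φ k) ^ ε * ∏ l ∈ S, (β l * φ l) ^ γ) =
      (p k * φ k ^ ε) * (∏ l ∈ S, p l * φ l ^ γ) * (β k ^ ε * ∏ l ∈ S, β l ^ γ) := by
    rw [Finset.prod_insert hk, Real.mul_rpow (hβ k).le (hφ k),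
      Finset.prod_congr rfl fun l _ => Real.mul_rpow (hβ l).le (hφ l), Finset.prod_mul_distrib,
      Finset.prod_mul_distrib]
    ring
  have A0 : 0 < A := by linarith
  have nn : ∀ l (e : ℝ), 0 ≤ p l * φ l ^ e := fun l e =>
    mul_nonneg (hp l) (Real.rpow_nonneg (hφ l) e)
  have pA : ∀ T : Finset ι, ∏ l ∈ T, p l * φ l ^ γ ≤ A ^ T.card := by
    intro T
    rw [← Finset.prod_const]
    refine Finset.prod_le_prod (fun l _ => nn l γ) fun l _ => (hs l γ h1 h2).trans ?_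
    have : ω ^ (((L : ℝ) - n l) * (1 - γ)) ≤ 1 := by
      refine Real.rpow_le_one hω.le hω1 (mul_nonneg ?_ (by linarith))
      have : (n l : ℝ) ≤ L := by exact_mod_cast hn l
      linarith
    nlinarith
  have bn : ∀ (T : Finset ι) (j : ι), 0 ≤ β j ^ ε * ∏ l ∈ T, β l ^ γ := fun T j =>
    mul_nonneg (Real.rpow_nonneg (hβ j).le _)
      (Finset.prod_nonneg fun l _ => Real.rpow_nonneg (hβ l).le _)
  have R0 : 0 ≤ R := (bn S k).trans (hR S k hS hk)
  have w0 : 0 < ω ^ ((L : ℝ) * (1 - ε)) := Real.rpow_pos_of_pos hω _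
  rw [e1]
  rcases Finset.mem_insert.1 hl with rfl | hl
  · have a := hs l0 ε le_rfl (by linarith)
    rw [n0, Nat.cast_zero, sub_zero] at a
    have b := pA S
    rw [hS] at b
    calc (p l0 * φ l0 ^ ε) * (∏ l ∈ S, p l * φ l ^ γ) * (β l0 ^ ε * ∏ l ∈ S, β l ^ γ)
        ≤ (A * ω ^ ((L : ℝ) * (1 - ε))) * A ^ r * R :=
          mul_le_mul (mul_le_mul a b (Finset.prod_nonneg fun l _ => nn l γ) (by positivity))
            (hR S l0 hS hk) (bn S l0) (by positivity)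
      _ = A ^ (r + 1) * 1 * ω ^ ((L : ℝ) * (1 - ε)) * R := by ring
      _ ≤ _ := by gcongr
  · have hkl : l0 ≠ k := fun h => hk (h ▸ hl)
    have hk' : k ∉ S.erase l0 := fun h => hk (Finset.mem_of_mem_erase h)
    have cd : (S.erase l0).card + 1 = r := by rw [Finset.card_erase_add_one hl, hS]
    have a := hs k ε le_rfl (by linarith)
    have a' := hs l0 γ h1 h2
    rw [n0, Nat.cast_zero, sub_zero] at a'
    have b : ∏ l ∈ S, p l * φ l ^ γ ≤ ω ^ ((L : ℝ) * (1 - γ)) * A ^ r := by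
      rw [← Finset.mul_prod_erase S _ hl, ← cd]
      calc (p l0 * φ l0 ^ γ) * ∏ l ∈ S.erase l0, p l * φ l ^ γ
          ≤ (A * ω ^ ((L : ℝ) * (1 - γ))) * A ^ (S.erase l0).card :=
            mul_le_mul a' (pA _) (Finset.prod_nonneg fun l _ => nn l γ) (by positivity)
        _ = _ := by ring
    have c : β k ^ ε * ∏ l ∈ S, β l ^ γ ≤ C * ω ^ ((n k : ℝ) * (γ - ε)) * R := by
      have c1 := hR (insert k (S.erase l0)) l0
        (by rw [Finset.card_insert_of_notMem hk', cd]) (by simp [hkl])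
      rw [Finset.prod_insert hk'] at c1
      have c2 := swap ε γ ω C (β k) (β l0) (n k) h1 (by linarith) hω hC (hβ k) (hβ l0) hb
      rw [← Finset.mul_prod_erase S _ hl]
      have c3 : 0 ≤ ∏ l ∈ S.erase l0, β l ^ γ :=
        Finset.prod_nonneg fun l _ => Real.rpow_nonneg (hβ l).le _
      calc β k ^ ε * (β l0 ^ γ * ∏ l ∈ S.erase l0, β l ^ γ)
          = (β k ^ ε * β l0 ^ γ) * ∏ l ∈ S.erase l0, β l ^ γ := by ring
        _ ≤ (C * ω ^ ((n k : ℝ) * (γ - ε)) * (β l0 ^ ε * β k ^ γ)) *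
            ∏ l ∈ S.erase l0, β l ^ γ := mul_le_mul_of_nonneg_right c2 c3
        _ = C * ω ^ ((n k : ℝ) * (γ - ε)) *
            (β l0 ^ ε * (β k ^ γ * ∏ l ∈ S.erase l0, β l ^ γ)) := by ring
        _ ≤ _ := mul_le_mul_of_nonneg_left c1 (by positivity)
    have d : ω ^ (((L : ℝ) - n k) * (1 - ε)) * ω ^ ((L : ℝ) * (1 - γ)) *
        ω ^ ((n k : ℝ) * (γ - ε)) ≤ ω ^ ((L : ℝ) * (1 - ε)) := by
      rw [← Real.rpow_add hω, ← Real.rpow_add hω]
      refine Real.rpow_le_rpow_of_exponent_ge hω hω1 ?_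
      have : (n k : ℝ) ≤ L := by exact_mod_cast hn k
      nlinarith [mul_nonneg (sub_nonneg.2 this) (sub_nonneg.2 h2)]
    calc (p k * φ k ^ ε) * (∏ l ∈ S, p l * φ l ^ γ) * (β k ^ ε * ∏ l ∈ S, β l ^ γ)
        ≤ (A * ω ^ (((L : ℝ) - n k) * (1 - ε))) * (ω ^ ((L : ℝ) * (1 - γ)) * A ^ r) *
            (C * ω ^ ((n k : ℝ) * (γ - ε)) * R) :=
          mul_le_mul (mul_le_mul a b (Finset.prod_nonneg fun l _ => nn l γ) (by positivity))
            c (bn S k) (by positivity)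
      _ = A ^ (r + 1) * C * (ω ^ (((L : ℝ) - n k) * (1 - ε)) * ω ^ ((L : ℝ) * (1 - γ)) *
            ω ^ ((n k : ℝ) * (γ - ε))) * R := by ring
      _ ≤ _ := by gcongr

end PotX

theorem potS (hS : SmStmt) : PotStmt := by
  intro ι _ _ r L hr
  set d := Fintype.card ι with hd
  set A : ℝ := 10 * (L + 2) with hA
  set C : ℝ := 18 * (r + 2) with hC
  set D : ℝ := 2 ^ d with hD
  have hL : (0 : ℝ) ≤ L := Nat.cast_nonneg L
  have hr0 : (0 : ℝ) ≤ r := Nat.cast_nonneg r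
  have A1 : 1 ≤ A := by rw [hA]; linarith
  have C1 : 1 ≤ C := by rw [hC]; linarith
  have D1 : 1 ≤ D := one_le_pow₀ (by norm_num)
  set K0 : ℝ := 36 ^ 2 * (A ^ (r + 1) * C * (2 * D) ^ 2) with hK0
  have K00 : 0 ≤ K0 := by positivity
  refine ⟨D * d * K0 + 1, by linarith [show 0 ≤ D * d * K0 by positivity], ?_⟩
  intro ε γ ω τ b b' c Z he h1 h2 h3 hω hω1 hτ hτ1 hτε hb hb' hc hcs hbb
  obtain ⟨s0, s1, s2, -⟩ := (hS ι r hr).1 b hb
  set s := sm r b with hs
  have w1 : ω ≤ 1 / 20 := by nlinarith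
  have w2 : ω ≤ 1 := by linarith
  set p : ι → ℝ := fun l => ∏ z ∈ Z with z.1 = l, 10 * ω ^ (L - z.2) with hp
  set φ : ι → ℝ := fun l =>
    τ + c l L + ∑ n : Fin L, if (l, n) ∈ Z then c l n / ω ^ (L - n) else 0 with hφ
  have f0 : ∀ z : ι × Fin L, 0 ≤ 10 * ω ^ (L - z.2) := fun z => by positivity
  have f1 : ∀ z : ι × Fin L, 10 * ω ^ (L - z.2) ≤ 1 := fun z => by
    have : ω ^ (L - z.2) ≤ ω := pow_le_of_le_one hω.le w2 (by have := z.2.2; omega)
    linarith
  have p0 : ∀ l, 0 ≤ p l := fun l => Finset.prod_nonneg fun z _ => f0 z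
  have p1 : ∀ l, p l ≤ 1 := fun l => Finset.prod_le_one (fun z _ => f0 z) fun z _ => f1 z
  have p2 : ∀ l (m : Fin L), (l, m) ∈ Z → p l ≤ 10 * ω ^ (L - m) := fun l m h => by
    have := Finset.prod_le_prod_of_subset_of_le_one (s := {(l, m)})
      (t := Z.filter fun z => z.1 = l) (f := fun z : ι × Fin L => 10 * ω ^ (L - z.2))
      (by simpa using h) (fun z _ => f0 z) fun z _ _ => f1 z
    rwa [Finset.prod_singleton] at this
  have p3 : ∀ T : Finset ι, (∏ z ∈ Z, 10 * ω ^ (L - z.2)) ≤ ∏ l ∈ T, p l := fun T => by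
    rw [hp, Finset.prod_fiberwise_eq_prod_filter]
    exact Finset.prod_le_prod_of_subset_of_le_one (Finset.filter_subset _ _) (fun z _ => f0 z)
      fun z _ _ => f1 z
  have φ0 : ∀ l, 0 ≤ φ l := fun l => by
    have : 0 ≤ ∑ n : Fin L, if (l, n) ∈ Z then c l n / ω ^ (L - n) else 0 := by
      refine Finset.sum_nonneg fun m _ => ?_
      split_ifs
      · exact div_nonneg (hc l m).1 (pow_pos hω _).le
      · exact le_rfl
    have := (hc l L).1
    simp only [hφ]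
    linarith
  choose n n1 n2 n3 using fun l => PotX.slot L ε ω τ (p l) (c l) (fun m => (l, m) ∈ Z) he hω w2 hτ
    hτ1 hτε (hc l) (p1 l) (p2 l)
  have n4 : ∀ l, s ≤ 18 * ω ^ n l * (b l + s) := fun l => by
    by_cases h : n l = 0
    · rw [h]; linarith [hb l]
    · have := hcs l (n l) (by omega) ((n2 l).resolve_left h)
      have : 0 ≤ 18 * ω ^ n l * s := by positivity
      linarith
  have n5 : ∀ l, b l ≤ (r + 1) * s → n l = 0 := fun l hl => by
    by_contra h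
    have a := hcs l (n l) (by omega) ((n2 l).resolve_left h)
    have a1 : ω ^ n l ≤ ω := pow_le_of_le_one hω.le w2 h
    have a2 : 18 * ω ^ n l * b l ≤ 18 * ω * ((r + 1) * s) :=
      mul_le_mul (by linarith) hl (hb l).le (by linarith)
    nlinarith
  have P0 : 0 ≤ pot r ε γ b := by
    unfold pot
    exact Finset.sum_nonneg fun S _ => Finset.sum_nonneg fun k _ =>
      mul_nonneg (Real.rpow_nonneg (hb k).le _)
        (Finset.prod_nonneg fun l _ => Real.rpow_nonneg (hb l).le _)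
  have W0 : 0 < ω ^ ((L : ℝ) * (1 - ε) - 2) := Real.rpow_pos_of_pos hω _
  have main : ∀ (S : Finset ι) (k : ι), S.card = r → k ∉ S →
      (∏ z ∈ Z, 10 * ω ^ (L - z.2)) * (b' k ^ ε * ∏ l ∈ S, b' l ^ γ) ≤
        K0 * ω ^ ((L : ℝ) * (1 - ε) - 2) * pot r ε γ b := by
    intro S k cS hk
    obtain ⟨l0, m0, b0⟩ := s1 (insert k S) (by rw [Finset.card_insert_of_notMem hk, cS])
    have t1 := PotX.term r L ε γ ω A C ((2 * D) ^ 2 * pot r ε γ b) (fun l => b l + s) φ p n he h1 h2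
      hω w2 A1 C1 (fun l => by linarith [hb l]) φ0 p0 n1 n3
      (fun S k => PotX.rearr r ε γ s D b hb s0.le D1 he.le (by linarith) h3 s2 S k) S k cS hk l0 m0
      (n5 l0 b0) (by
        have := mul_le_mul_of_nonneg_left (n4 k) (show (0 : ℝ) ≤ r + 2 by linarith)
        calc b l0 + s ≤ (r + 2) * s := by linarith
          _ ≤ _ := this
          _ = _ := by rw [hC]; ring)
    have bb : ∀ l, b' l ≤ 36 / ω * ((b l + s) * φ l) := fun l => by
      refine (hbb l).trans ?_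
      have a : b l ≤ b l / ω := by
        rw [le_div_iff₀ hω]; nlinarith [hb l]
      calc 36 * (b l + s / ω) * φ l ≤ 36 * (b l / ω + s / ω) * φ l := by
            have := φ0 l
            gcongr
        _ = _ := by ring
    have t2 := PotX.scale r ε γ (36 / ω) b' (fun l => (b l + s) * φ l) S k cS he.le (by linarith) h3
      (by rw [le_div_iff₀ hω]; linarith) hb'
      (fun l => mul_nonneg (by linarith [hb l]) (φ0 l)) (bb k) fun l _ => bb l
    have t3 : ω ^ ((L : ℝ) * (1 - ε) - 2) = ω ^ ((L : ℝ) * (1 - ε)) / ω ^ 2 := by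
      rw [Real.rpow_sub hω, Real.rpow_two]
    calc (∏ z ∈ Z, 10 * ω ^ (L - z.2)) * (b' k ^ ε * ∏ l ∈ S, b' l ^ γ)
        ≤ (∏ l ∈ insert k S, p l) * ((36 / ω) ^ 2 *
            (((b k + s) * φ k) ^ ε * ∏ l ∈ S, ((b l + s) * φ l) ^ γ)) :=
          mul_le_mul (p3 _) t2 (mul_nonneg (Real.rpow_nonneg (hb' k) _)
            (Finset.prod_nonneg fun l _ => Real.rpow_nonneg (hb' l) _))
            (Finset.prod_nonneg fun l _ => p0 l)
      _ = (36 / ω) ^ 2 * ((∏ l ∈ insert k S, p l) *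
            (((b k + s) * φ k) ^ ε * ∏ l ∈ S, ((b l + s) * φ l) ^ γ)) := by ring
      _ ≤ (36 / ω) ^ 2 * (A ^ (r + 1) * C * ω ^ ((L : ℝ) * (1 - ε)) *
            ((2 * D) ^ 2 * pot r ε γ b)) := mul_le_mul_of_nonneg_left t1 (by positivity)
      _ = _ := by rw [t3, hK0]; field_simp
  set X := K0 * ω ^ ((L : ℝ) * (1 - ε) - 2) * pot r ε γ b with hX
  have X0 : 0 ≤ X := by positivity
  have fin : (∏ z ∈ Z, 10 * ω ^ (L - z.2)) * pot r ε γ b' ≤ D * (d * X) := by
    unfold pot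
    rw [Finset.mul_sum]
    refine (Finset.sum_le_card_nsmul _ _ (d * X) fun S hS => ?_).trans ?_
    · rw [Finset.mul_sum]
      have cS : S.card = r := (Finset.mem_powersetCard.1 hS).2
      refine (Finset.sum_le_card_nsmul _ _ X fun k hk => main S k cS (by simpa using hk)).trans ?_
      rw [nsmul_eq_mul]
      exact mul_le_mul_of_nonneg_right (by exact_mod_cast Finset.card_le_univ _) X0
    · rw [nsmul_eq_mul]
      refine mul_le_mul_of_nonneg_right ?_ (by positivity)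
      rw [Finset.card_powersetCard, Finset.card_univ, hD]
      exact_mod_cast Nat.choose_le_two_pow _ _
  refine fin.trans ?_
  have : 0 ≤ ω ^ ((L : ℝ) * (1 - ε) - 2) * pot r ε γ b := by positivity
  rw [hX]
  nlinarith

end SK

end

section

namespace SK
open SJ Set Filter Topology MeasureTheory Metric Function
open scoped ENNReal

namespace TMoveX

theorem gen (hE : ImpExStmt) (hB : ImpBStmt) (hS : SumProdStmt) {ι : Type} [Fintype ι] {E : Type}
    [NormedAddCommGroup E] [NormedSpace ℝ E] [FiniteDimensional ℝ E] (J : (ι → ℝ) →L[ℝ] E)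
    (Λ : E →L[ℝ] ι → ℝ) (jl : ∀ v, Λ (J v) = v) (jn : ‖J‖ ≤ 1) (ln : ‖Λ‖ ≤ 2) {L : ℕ}
    (Θ : ι → Fin L → E → ℝ) (u : ι → Fin L → ℝ → ℝ) {A1 A2 P W U2 τ : ℝ} (t0 : 0 < τ)
    (h0 : ∀ k n x, 0 ≤ Θ k n x) (h1 : ∀ k x, ∑ n, Θ k n x ≤ 1 - τ) (hΘ : ∀ k n, C2B (Θ k n) A1 A2)
    (hu : ∀ k n v, |u k n v| ≤ P) (huC : ∀ k n, C2B (u k n) W U2)
    (hd : ∀ k n v, -1 ≤ deriv (u k n) v) (hP : 0 ≤ P) (hW : 0 ≤ W)
    (hb : 0 ≤ A2 * P + 2 * A1 * W + U2) (hc : L * (P * A1) ≤ 1 / 2) :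
    ∃ b : E → E, Injective b ∧
      C2B b (2 + 4 * W) (2 * (L * (A2 * P + 2 * A1 * W + U2)) * (2 + 4 * W) ^ 2) ∧
      (∀ z, ImpEq J Λ (fun k => spF (Θ k) (u k)) z (b z)) ∧
      (∀ z y, ImpEq J Λ (fun k => spF (Θ k) (u k)) z y → y = b z) ∧ ∀ z, ‖b z - z‖ ≤ P := by
  have hs := fun k => hS (Fin L) E (Θ k) (u k) (fun n => (hΘ k n).cd) fun n => (huC k n).cd
  have h2 : ∀ k n x, |Θ k n x| ≤ 1 := fun k n x => by
    rw [abs_of_nonneg (h0 k n x)]
    have := Finset.single_le_sum (fun m _ => h0 k m x) (Finset.mem_univ n)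
    linarith [h1 k x]
  have hsum : ∀ k x (g : Fin L → ℝ) (C : ℝ), 0 ≤ C → (∀ n, |g n| ≤ C) →
      |∑ n, Θ k n x * g n| ≤ C := fun k x g C hC hg => by
    refine (Finset.abs_sum_le_sum_abs _ _).trans ?_
    refine (Finset.sum_le_sum fun n _ => (?_ : _ ≤ Θ k n x * C)).trans ?_
    · rw [abs_mul, abs_of_nonneg (h0 k n x)]
      exact mul_le_mul_of_nonneg_left (hg n) (h0 k n x)
    · rw [← Finset.sum_mul]
      exact mul_le_of_le_one_left hC (by linarith [h1 k x])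
  have hH : ImpH J Λ fun k => spF (Θ k) (u k) := by
    refine ⟨jl, jn, ln, fun k => (hs k).1, fun k p a => ?_⟩
    rw [((hs k).2 p a a).1]
    refine (Finset.abs_sum_le_sum_abs _ _).trans ?_
    refine (Finset.sum_le_sum fun n _ => (?_ : _ ≤ P * A1 * ‖a‖)).trans ?_
    · rw [abs_mul, mul_assoc]
      refine mul_le_mul (hu k n _) ?_ (abs_nonneg _) hP
      exact ((fderiv ℝ (Θ k n) p.1).le_opNorm a).trans
        (mul_le_mul_of_nonneg_right ((hΘ k n).d1 _) (norm_nonneg _))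
    · rw [Finset.sum_const, Finset.card_univ, Fintype.card_fin, nsmul_eq_mul, ← mul_assoc]
      exact mul_le_mul_of_nonneg_right hc (norm_nonneg _)
  have hF : ∀ k, C2B (spF (Θ k) (u k)) (L * (A1 * P + W)) (L * (A2 * P + 2 * A1 * W + U2)) := by
    intro k
    have := C2B.sum (Finset.univ : Finset (Fin L)) fun n _ =>
      C2B.mul (E := E × ℝ) (fun y => h2 k n y.1) ((hΘ k n).comp C2B.fst') (fun y => hu k n y.2)
        ((huC k n).comp C2B.snd')
    simp only [Finset.card_univ, Fintype.card_fin, mul_one, one_mul, one_pow, mul_zero,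
      add_zero] at this
    exact this
  have hsl : ∀ k p, slp (spF (Θ k) (u k)) p = 1 + ∑ n, Θ k n p.1 * deriv (u k n) p.2 :=
    fun k p => by rw [slp, ((hs k).2 p 0 0).2.1]
  obtain ⟨a, b, hl, -, -, hcb, hi, hq⟩ := hE ι E J Λ _ _ _ τ hH hF t0 fun k p => by
    rw [hsl]
    have : ∑ n, -Θ k n p.1 ≤ ∑ n, Θ k n p.1 * deriv (u k n) p.2 :=
      Finset.sum_le_sum fun n _ => by nlinarith [h0 k n p.1, hd k n p.2]
    rw [Finset.sum_neg_distrib] at this
    linarith [h1 k p.1]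
  have hz := fun z => hB ι E J Λ _ b hH hcb hi z W _ hW (mul_nonneg L.cast_nonneg hb)
    (fun k => by
      rw [hsl, add_sub_cancel_left]
      exact hsum k _ _ W hW fun n => (norm_fderiv_real _ _).symm.trans_le ((huC k n).d1 _))
    fun k => (hF k).d2 _
  refine ⟨b, hl.injective, ⟨hcb, fun z => (hz z).1, fun z => (hz z).2⟩, hi, hq, fun z => ?_⟩
  have e : b z - z = J fun k => spF (Θ k) (u k) (b z, Λ z k) := sub_eq_of_eq_add' (hi z)
  rw [e]
  refine (J.le_opNorm _).trans ((mul_le_of_le_one_left (norm_nonneg _) jn).trans ?_)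
  exact (pi_norm_le_iff_of_nonneg hP).2 fun k => hsum k _ _ P hP fun n => hu k n _

end TMoveX

theorem tMove (hE : ImpExStmt) (hB : ImpBStmt) (hS : SumProdStmt) : TMoveStmt := by
  intro ι _ _ r L M K η ω τ hT
  have hK := hT.K1
  have e0 := hT.e0
  have w0 := hT.w0
  have t0 := hT.t0
  have t1 := hT.t1
  have hLK : ((L : ℝ) + 1) * K * η ≤ 1 / 100 := by
    have h1 := hT.he
    have h2 : 0 ≤ (Fintype.card ι : ℝ) * (((L : ℝ) + 1) * K * η) := by positivity
    linarith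
  have he : η ≤ 1 / 100 := by
    have h1 : 0 ≤ (L : ℝ) * K * η := by positivity
    nlinarith
  have w1 : ω ≤ 1 := by
    have h1 := hT.hw
    have h2 : (1 : ℝ) ≤ ((Fintype.card ι : ℝ) + 1) * ((r : ℝ) + 1) * ((L : ℝ) + 1) * K :=
      one_le_mul_of_one_le_of_one_le (one_le_mul_of_one_le_of_one_le
        (one_le_mul_of_one_le_of_one_le (by simp) (by simp)) (by simp)) hK
    nlinarith
  have wL : ω ^ L ≤ 1 := pow_le_one₀ w0.le w1
  have wL0 : 0 < ω ^ L := pow_pos w0 L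
  refine ⟨1 + 2 * (L * (81 * K ^ 2 * η + 2 * (9 * K) * (1 / ω ^ L) + K / ((ω ^ L) ^ 2 * η))) *
    (2 + 4 * (1 / ω ^ L)) ^ 2, le_add_of_nonneg_right (by positivity), ?_⟩
  intro ℓ θ φ u f c hl h0 h1 hθ hP
  have hu : ∀ k n v, |u k n v| ≤ η * ℓ := fun k n v => ((hP k n).ub v).trans (by
    have : ω ^ (n : ℕ) ≤ 1 := pow_le_one₀ w0.le w1
    rw [mul_right_comm]
    exact mul_le_of_le_one_right (by positivity) this)
  have huC : ∀ k n, C2B (u k n) (1 / ω ^ L) (K / ((ω ^ L) ^ 2 * η) / ℓ) := fun k n => by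
    have a1 : ω ^ L ≤ ω ^ (L - n) := pow_le_pow_of_le_one w0.le w1 (Nat.sub_le _ _)
    refine (hP k n).uC.mono (one_div_le_one_div_of_le wL0 a1) ?_
    rw [div_div]
    refine div_le_div_of_nonneg_left (by linarith) (by positivity) ?_
    have a2 : ω ^ L = ω ^ (L - n) * ω ^ (n : ℕ) := by rw [← pow_add, Nat.sub_add_cancel n.2.le]
    have a3 : (ω ^ L) ^ 2 ≤ (ω ^ (L - n)) ^ 2 * ω ^ (n : ℕ) := by
      rw [pow_two, pow_two, mul_assoc, ← a2]
      exact mul_le_mul_of_nonneg_right a1 wL0.le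
    calc _ = (ω ^ L) ^ 2 * (η * ℓ) := by ring
      _ ≤ (ω ^ (L - n)) ^ 2 * ω ^ (n : ℕ) * (η * ℓ) := by gcongr
      _ = _ := by ring
  have hd : ∀ k n v, -1 ≤ deriv (u k n) v := fun k n v => by
    rw [(hP k n).du]
    have a1 := ((hP k n).f01 v).1
    have a2 : 0 ≤ c k n := by linarith [(hP k n).c1]
    have a3 : 0 ≤ c k n * f k n v ^ M := by positivity
    linarith
  have hc : L * (η * ℓ * (9 * K / ℓ)) ≤ 1 / 2 := by
    have a1 : η * ℓ * (9 * K / ℓ) = 9 * (K * η) := by field_simp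
    have a2 : 0 ≤ K * η := by positivity
    rw [a1]
    nlinarith
  have hA : 2 + 4 * (1 / ω ^ L) ≤ 6 / ω ^ L := by
    have : 1 ≤ 1 / ω ^ L := one_le_one_div wL0 wL
    rw [show 6 / ω ^ L = 6 * (1 / ω ^ L) by ring]
    linarith
  have hB2 : 2 * (L * (81 * K ^ 2 / ℓ ^ 2 * (η * ℓ) + 2 * (9 * K / ℓ) * (1 / ω ^ L) +
      K / ((ω ^ L) ^ 2 * η) / ℓ)) * (2 + 4 * (1 / ω ^ L)) ^ 2 ≤
      (1 + 2 * (L * (81 * K ^ 2 * η + 2 * (9 * K) * (1 / ω ^ L) + K / ((ω ^ L) ^ 2 * η))) *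
        (2 + 4 * (1 / ω ^ L)) ^ 2) / ℓ := by
    generalize 1 / ω ^ L = W
    generalize K / ((ω ^ L) ^ 2 * η) = U
    rw [add_div]
    refine le_add_of_nonneg_of_le (by positivity) (le_of_eq ?_)
    field_simp
  have g0 : ∀ k n x, 0 ≤ (1 - τ) * θ k n x := fun k n x => mul_nonneg (by linarith) (h0 k n x)
  have g1 : ∀ k x, ∑ n, (1 - τ) * θ k n x ≤ 1 - τ := fun k x => by
    rw [← Finset.mul_sum]
    exact mul_le_of_le_one_right (by linarith) (h1 k x)
  have g2 : ∀ k n, C2B (fun x => (1 - τ) * θ k n x) (K / ℓ) (K / ℓ ^ 2) := fun k n => by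
    have a1 : |1 - τ| ≤ 1 := abs_le.2 ⟨by linarith, by linarith⟩
    exact ((hθ k n).const_mul (1 - τ)).mono (mul_le_of_le_one_left (by positivity) a1)
      (mul_le_of_le_one_left (by positivity) a1)
  have g3 : ∀ k n x, |(1 - τ) * θ k n x| ≤ 1 := fun k n x => by
    rw [abs_of_nonneg (g0 k n x)]
    have := Finset.single_le_sum (fun m _ => g0 k m x) (Finset.mem_univ n)
    linarith [g1 k x]
  have hKK : K ≤ K ^ 2 := by nlinarith
  obtain ⟨h, -, hC, hi, hq, hdis⟩ := TMoveX.gen hE hB hS (ContinuousLinearMap.id ℝ (ι → ℝ))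
    (ContinuousLinearMap.id ℝ (ι → ℝ)) (fun _ => rfl) ContinuousLinearMap.norm_id_le
    (ContinuousLinearMap.norm_id_le.trans one_le_two) (fun k n x => (1 - τ) * θ k n x) u
    (A1 := 9 * K / ℓ) (A2 := 81 * K ^ 2 / ℓ ^ 2) t0 g0 g1
    (fun k n => (g2 k n).mono (by gcongr; linarith) (by gcongr; nlinarith)) hu huC hd
    (by positivity) (by positivity) (by positivity) hc
  have z1 : C2B (fun y : (ι → ℝ) × ℝ => zeta (8 * y.2 / ℓ)) (8 * K / ℓ) (64 * K / ℓ ^ 2) := by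
    refine (hT.hz.comp (((C2B.snd' (E := ι → ℝ)).const_mul 8).div_const hl)).mono
      (le_of_eq ?_) (le_of_eq ?_)
    · rw [abs_of_pos (by norm_num : (0 : ℝ) < 8)]; ring
    · rw [abs_of_pos (by norm_num : (0 : ℝ) < 8)]; ring
  obtain ⟨H, Hinj, HC, Hi, Hq, Hdis⟩ := TMoveX.gen hE hB hS (ContinuousLinearMap.inl ℝ (ι → ℝ) ℝ)
    (ContinuousLinearMap.fst ℝ (ι → ℝ) ℝ) (fun _ => rfl)
    (ContinuousLinearMap.opNorm_le_bound _ zero_le_one fun v => by simp)
    ((ContinuousLinearMap.norm_fst_le ..).trans one_le_two)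
    (fun k n y => zeta (8 * y.2 / ℓ) * ((1 - τ) * θ k n y.1)) u
    (A1 := 9 * K / ℓ) (A2 := 81 * K ^ 2 / ℓ ^ 2) t0
    (fun k n y => mul_nonneg (zeta_nonneg _) (g0 k n _))
    (fun k y => le_trans (Finset.sum_le_sum fun n _ =>
      mul_le_of_le_one_left (g0 k n _) (zeta_le_one _)) (g1 k y.1))
    (fun k n => by
      refine (C2B.mul (a0 := 1) (fun y => abs_le.2 ⟨by linarith [zeta_nonneg (8 * y.2 / ℓ)],
        zeta_le_one _⟩) z1 (fun y => g3 k n y.1) ((g2 k n).comp C2B.fst')).mono (le_of_eq ?_) ?_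
      · ring
      · rw [show 81 * K ^ 2 / ℓ ^ 2 = (64 * K ^ 2 + 16 * K ^ 2 + K ^ 2) / ℓ ^ 2 by ring]
        calc _ = (64 * K + 16 * K ^ 2 + K) / ℓ ^ 2 := by ring
          _ ≤ _ := by gcongr)
    hu huC hd (by positivity) (by positivity) (by positivity) hc
  have H2 : ∀ y, (H y).2 = y.2 := fun y => (congrArg Prod.snd (Hi y)).trans (add_zero _)
  have H1 : ∀ y k, (H y).1 k = y.1 k +
      ∑ n, zeta (8 * (H y).2 / ℓ) * ((1 - τ) * θ k n (H y).1) * u k n (y.1 k) :=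
    fun y k => congrFun (congrArg Prod.fst (Hi y)) k
  have hη : η * ℓ ≤ ℓ / 100 := by nlinarith
  refine ⟨H, h, HC.mono hA hB2, H2, Hinj, fun y => (Hdis y).trans hη, fun y hy => ?_,
    fun y hy => ?_, fun y k hk => ?_, hC.mono hA hB2, hi, fun x => (hdis x).trans hη⟩
  · have hz : zeta (8 * y.2 / ℓ) = 0 := zeta_zero (by
      rw [abs_div, abs_mul, abs_of_pos hl, le_div_iff₀ hl, abs_of_pos (by norm_num : (0 : ℝ) < 8)]
      linarith)
    refine (Hq y y (Prod.ext (funext fun k => ?_) (add_zero _).symm)).symm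
    change y.1 k = y.1 k + ∑ n, zeta (8 * y.2 / ℓ) * ((1 - τ) * θ k n y.1) * u k n (y.1 k)
    simp [hz]
  · have hz : zeta (8 * y.2 / ℓ) = 1 := zeta_one (by
      rw [abs_div, abs_mul, abs_of_pos hl, div_le_iff₀ hl, abs_of_pos (by norm_num : (0 : ℝ) < 8)]
      linarith)
    refine hq y.1 _ (funext fun k => (H1 y k).trans ?_)
    simp only [H2, hz, one_mul]
    rfl
  · rw [H1]
    simp [hk]

end SK

end

section

namespace SK
open SJ Set Filter Topology MeasureTheory Metric Function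
open scoped ENNReal

namespace CostX

theorem fin_step {D Cs u u' W q A r J : ℝ} (hq : 1 ≤ q) (hD : 0 ≤ D) (hCs : 0 ≤ Cs) (hu : 0 ≤ u)
    (hW : 0 ≤ W) (h1 : D ≤ 2 * (Cs * u * W)) (h2 : u ≤ 3 * u') (h3 : W ^ q ≤ A * r * J) :
    D ^ q ≤ (6 * Cs) ^ q * A * r * u' ^ q * J := by
  have hu' : 0 ≤ u' := by linarith
  have h4 : D ≤ 6 * Cs * u' * W := by
    have : Cs * u * W ≤ Cs * (3 * u') * W := by gcongr
    linarith
  calc D ^ q ≤ (6 * Cs * u' * W) ^ q := Real.rpow_le_rpow hD h4 (by linarith)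
    _ = (6 * Cs) ^ q * u' ^ q * W ^ q := by
        rw [Real.mul_rpow (by positivity) hW, Real.mul_rpow (by positivity) hu']
    _ ≤ (6 * Cs) ^ q * u' ^ q * (A * r * J) := by gcongr
    _ = _ := by ring

end CostX

theorem costS (hL : LocStmt) (hS : StripStmt) (hN : NIndStmt) (hE : StripEqStmt) : CostStmt := by
  intro ι _ _ q lam K C Bs B act H g U α ρ P c w hT hF
  have hL := hL ι q lam K C Bs B act H g U α ρ P c w hT hF
  have hS := hS ι q lam K C Bs B act H g U α ρ P c w hT hF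
  have hN := hN ι q lam K C Bs B act H g U α ρ P c w hT hF
  have hE := hE ι q lam K C Bs B act H g U α ρ P c w hT hF
  beta_reduce at hL hS hN hE ⊢
  have l0 := hF.l0
  have l1 := hF.l1
  have q1 := hF.q1
  have hB0 := hF.B1 0
  have hBs := hF.Bs1
  have hK : 1 ≤ K := by
    refine le_trans ?_ hF.K1
    rw [le_div_iff₀ l0]
    linarith
  have hK4 : 1 ≤ K ^ 4 := one_le_pow₀ hK
  have hfac : ∀ k z, 1 ≤ K ^ 3 * w k z := fun k z =>
    one_le_mul_of_one_le_of_one_le (one_le_pow₀ hK) (hF.w1 k z)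
  have hW1 : ∀ i j y, 1 ≤ Wp K w α i j y := fun i j y =>
    Finset.prod_induction _ (fun x : ℝ => 1 ≤ x) (fun _ _ => one_le_mul_of_one_le_of_one_le) le_rfl
      fun k _ => hfac k _
  set Cs : ℝ := 100 * (Fintype.card ι + 1) * K ^ 4 with hCs
  have hCs4 : 4 ≤ Cs := by
    have : (0 : ℝ) ≤ Fintype.card ι := Nat.cast_nonneg _
    nlinarith
  refine ⟨(6 * Cs) ^ q * ((Bs + B 0) * Bs), by positivity, fun j i y hij hy hy' => ?_⟩
  have ei := el_pos l0 i
  have hE' := (hE i 0 y (by linarith)).1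
  have hut : ∀ x, 0 ≤ Ut lam U i x / el lam i := fun x => by
    have := hT.u0 i x
    unfold Ut
    positivity
  have hu : Ut lam U i y.1 / el lam i ≤ 3 * (Ut lam U i (Gs α (j + 2) y).1 / el lam i) := by
    obtain ⟨k, hk⟩ : ∃ k, j + 2 = i + k := ⟨j + 2 - i, by omega⟩
    have h1 := (hE' k).2
    rw [← hk] at h1
    have h2 : ‖(Gs α (j + 2) y).1 - y.1‖ ≤ el lam i :=
      (norm_fst_le (Gs α (j + 2) y - y)).trans (by linarith)
    have h3 := hT.usv i _ _ h2
    rw [← mul_div_assoc]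
    gcongr
    unfold Ut
    nlinarith [sq_nonneg (el lam i)]
  have hWs : Wp K w α i (j + 1) y = Wp K w α i j y * (K ^ 3 * w (j + 1) (Gs α (j + 1) y)) :=
    Finset.prod_Icc_succ_top hij _
  have hJs : |(fderiv ℝ (Gs α (j + 2)) y).det| =
      |(fderiv ℝ (Gs α (j + 1)) y).det| * |(fderiv ℝ (α (j + 1)) (Gs α (j + 1) y)).det| := by
    rw [(hN i y hy).1 (j + 1), (hN i y hy).1 j]
    exact Finset.prod_Icc_succ_top hij _
  have hW0 : 0 ≤ Wp K w α i (j + 1) y := zero_le_one.trans (hW1 _ _ _)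
  have hS1 : ‖D2 (FF2 H P ρ α (j + 1)) y‖ ≤
      Cs * (Ut lam U i y.1 / el lam i) * Wp K w α i (j + 1) y := hS i (j + 1) y hij hy hy'
  rcases hij.eq_or_lt with e | hlt
  · subst e
    refine CostX.fin_step q1 (ContinuousLinearMap.opNorm_nonneg _) (by linarith) (hut _) hW0 ?_ hu ?_
    · have h1 := (hL j y).2.2 hy
      have h2 : 4 * (Ut lam U (j + 1) y.1 / el lam (j + 1)) ≤
          Cs * (Ut lam U (j + 1) y.1 / el lam (j + 1)) * Wp K w α (j + 1) (j + 1) y := by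
        calc _ = 4 * (Ut lam U (j + 1) y.1 / el lam (j + 1)) * 1 := (mul_one _).symm
          _ ≤ _ := by
            have := hut y.1
            gcongr
            exact hW1 _ _ _
      linarith [norm_sub_le (D2 (FF2 H P ρ α (j + 1)) y) (D2 (FF2 H P ρ α j) y)]
    · have h0 : Gs α (j + 1) y = y := (hE' 0).1
      have hc : c (j + 1) (Gs α (j + 1) y) = 0 := by
        by_contra hc
        have h1 := hF.ctop j _ hc
        rw [h0] at h1
        have h2 := el_lt l0 l1 (Nat.lt_succ_self j)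
        have h3 := (abs_le.1 hy).1
        have h4 := el_pos l0 j
        linarith
      have h1 := hF.wout (j + 1) _ hc
      have h2 : Wp K w α (j + 1) (j + 1) y = K ^ 3 * w (j + 1) (Gs α (j + 1) y) := by
        unfold Wp
        rw [Finset.Icc_self, Finset.prod_singleton]
      have h3 := (hN (j + 1) y hy).1 (j + 1)
      rw [Finset.Icc_self, Finset.prod_singleton] at h3
      rw [h2, show j + 2 = j + 1 + 1 from rfl, h3]
      refine h1.trans ?_
      gcongr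
      have h4 : (2 : ℝ) ^ (j + 1) / 2 ^ j = 2 := by
        rw [pow_succ]
        field_simp
      rw [h4]
      nlinarith
  · obtain ⟨n, rfl⟩ : ∃ n, j = i + n := ⟨j - i, by omega⟩
    have hy2 : y.2 ≤ -4 * el lam (i + 1) := hy'.resolve_left hlt.ne
    have hr : (2 : ℝ) ^ i / 2 ^ (i + n) = 1 / 2 ^ n := by
      rw [pow_add]
      field_simp
    have hD : ‖D2 (FF2 H P ρ α (i + n + 1)) y - D2 (FF2 H P ρ α (i + n)) y‖ ≤
        2 * (Cs * (Ut lam U i y.1 / el lam i) * Wp K w α i (i + n + 1) y) := by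
      have h1 : ‖D2 (FF2 H P ρ α (i + n)) y‖ ≤
          Cs * (Ut lam U i y.1 / el lam i) * Wp K w α i (i + n) y :=
        hS i (i + n) y (Nat.le_add_right _ _) hy (Or.inr hy2)
      have h2 : Wp K w α i (i + n) y ≤ Wp K w α i (i + n + 1) y := by
        rw [hWs]
        exact le_mul_of_one_le_right (zero_le_one.trans (hW1 _ _ _)) (hfac _ _)
      have h3 : Cs * (Ut lam U i y.1 / el lam i) * Wp K w α i (i + n) y ≤
          Cs * (Ut lam U i y.1 / el lam i) * Wp K w α i (i + n + 1) y := by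
        have := hut y.1
        gcongr
      linarith [norm_sub_le (D2 (FF2 H P ρ α (i + n + 1)) y) (D2 (FF2 H P ρ α (i + n)) y)]
    by_cases c1 : c (i + n + 1) (Gs α (i + n + 1) y) = 0
    · refine CostX.fin_step q1 (ContinuousLinearMap.opNorm_nonneg _) (by linarith) (hut _) hW0 hD hu ?_
      have h1 := (hN i y hy).2 n hy2 (by rw [c1]; norm_num)
      have h2 := hF.wout (i + n + 1) _ c1
      rw [hWs, hJs, hr, Real.mul_rpow (zero_le_one.trans (hW1 _ _ _))
        (zero_le_one.trans (hfac _ _))]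
      calc _ ≤ ((Bs + B 0) / 2 ^ n * |(fderiv ℝ (Gs α (i + n + 1)) y).det|) *
            (Bs * |(fderiv ℝ (α (i + n + 1)) (Gs α (i + n + 1) y)).det|) :=
            mul_le_mul h1 h2 (Real.rpow_nonneg (zero_le_one.trans (hfac _ _)) _) (by positivity)
        _ = _ := by ring
    by_cases c2 : c (i + n + 2) (Gs α (i + n + 2) y) = 0
    · refine CostX.fin_step q1 (ContinuousLinearMap.opNorm_nonneg _) (by linarith) (hut _) hW0 hD hu ?_
      have h1 : Wp K w α i (i + n + 1) y ^ q ≤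
          (Bs + B 0) / 2 ^ (n + 1) * |(fderiv ℝ (Gs α (i + n + 2)) y).det| :=
        (hN i y hy).2 (n + 1) hy2 (by
          show c (i + n + 2) (Gs α (i + n + 2) y) ≠ 1
          rw [c2]; norm_num)
      refine h1.trans ?_
      gcongr
      rw [hr, mul_one_div, pow_succ, div_le_div_iff₀ (by positivity) (by positivity)]
      have h2 : (0 : ℝ) < 2 ^ n := by positivity
      have h3 : 0 ≤ (Bs + B 0) * 2 ^ n := by positivity
      nlinarith
    · have h1 := (hL (i + n) y).1 (hy2.trans (by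
        have := el_anti l0 (by linarith) (show i + 1 ≤ i + n + 1 by omega)
        linarith)) c1 c2
      rw [D2_congr h1, sub_self, ContinuousLinearMap.opNorm_zero, Real.zero_rpow (by linarith)]
      have := hut (Gs α (i + n + 2) y).1
      positivity

end SK

end
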