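import Mathlib
import Pool.Agent.Mg.Xedaf86.G06b4b8
import Pool.Agent.Mg.Xedaf86.G910084
import Pool.Agent.Mg.Xedaf86.G39d375
import Pool.Agent.Mg.Xedaf86.G79f2d5
import Pool.Agent.Mg.Xedaf86.Gb2815a
import Pool.Agent.Mg.Xedaf86.Gf85b66
import Pool.Agent.Mg.Xedaf86.Gf0e898
import Pool.Agent.Mg.Xedaf86.G880b0a
import Pool.Agent.Mg.Xedaf86.G9f1c2b
import Pool.Agent.Mg.Xedaf86.G7aa336
import Pool.Agent.Mg.Xedaf86.G40e9cb
import Pool.Agent.Mg.Xedaf86.G93f3cb

section

namespace SK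
open SJ Set Filter Topology MeasureTheory Metric Function
open scoped ENNReal

namespace ProfX

theorem bump : ∃ K : ℝ, 1 ≤ K ∧ ∀ a p ω : ℝ, 0 < a → a ≤ 1 / 8 → 0 < p → ∃ f : ℝ → ℝ,
    C2B f (K / (a * p)) (K / (a * p) ^ 2) ∧ (∀ v, 0 ≤ f v ∧ f v ≤ 1) ∧ Periodic f p ∧
      (∀ v, |v + ω| ≤ a * p / 2 → f v = 1) ∧
      ∀ v, f v ≠ 0 → ∃ n : ℤ, |v + ω - p * n| ≤ a * p := by
  obtain ⟨K, hK, -, hz, -⟩ := exists_K0
  refine ⟨4 * K, by linarith, fun a p ω ha ha1 hp => ?_⟩
  have h2 : 0 < a / 2 := by positivity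
  have hi : C2B (fun x : ℝ => x) 1 0 := C2B.id'
  have h0 : ∀ v, a ≤ |v| → zeta (v / (a / 2)) = 0 := fun v hv => zeta_zero (by
    rw [abs_div, abs_of_pos h2, le_div_iff₀ h2]; linarith)
  have hg := OneD2X.per (hz.comp (hi.div_const h2)) (show a < 1 / 2 by linarith) h0
  refine ⟨fun v => zeta (((v + ω) / p - round ((v + ω) / p)) / (a / 2)),
    (hg.comp ((hi.add_const ω).div_const hp)).mono ?_ (le_of_eq ?_),
    fun v => ⟨zeta_nonneg _, zeta_le_one _⟩, fun v => ?_, fun v hv => ?_, fun v hv => ?_⟩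
  · rw [show K * (1 / (a / 2)) * (1 / p) = 2 * K / (a * p) by field_simp]
    gcongr
    norm_num
  · field_simp
    ring
  · beta_reduce
    rw [show (v + p + ω) / p = (v + ω) / p + 1 by field_simp; ring, round_add_one]
    push_cast
    rw [add_sub_add_right_eq_sub]
  · have h3 : |(v + ω) / p| ≤ a / 2 := by
      rw [abs_div, abs_of_pos hp, div_le_iff₀ hp]
      linarith
    have h4 : round ((v + ω) / p) = 0 := OneD2X.round_eq' (by
      rw [Int.cast_zero, sub_zero]; linarith)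
    beta_reduce
    rw [h4, Int.cast_zero, sub_zero]
    exact zeta_one (by rwa [abs_div, abs_of_pos h2, div_le_one h2])
  · refine ⟨round ((v + ω) / p), ?_⟩
    have h3 := not_le.1 fun h => hv (h0 _ h)
    rw [show v + ω - p * round ((v + ω) / p) = ((v + ω) / p - round ((v + ω) / p)) * p by
      field_simp, abs_mul, abs_of_pos hp]
    gcongr

theorem young {f ν : ℝ} (hf : 0 ≤ f) (hν : 0 < ν) (m : ℕ) :
    ν * f ^ m ≤ f ^ (m + 1) + ν ^ (m + 1) := by
  rcases le_total ν f with h | h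
  · have : ν * f ^ m ≤ f ^ (m + 1) := by rw [pow_succ']; gcongr
    linarith [pow_pos hν (m + 1)]
  · have : ν * f ^ m ≤ ν ^ (m + 1) := by rw [pow_succ']; gcongr
    linarith [pow_nonneg hf (m + 1)]

end ProfX

open ProfX

theorem prof : ProfStmt := by
  intro M hM
  obtain ⟨m, rfl⟩ : ∃ m, M = m + 1 := ⟨M - 1, by omega⟩
  obtain ⟨K, hK, hb⟩ := bump
  have hm : (1 : ℝ) ≤ (m + 1 : ℕ) := by exact_mod_cast Nat.succ_pos m
  have hK' : K ≤ (m + 1 : ℕ) * K := le_mul_of_one_le_left (by linarith) hm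
  refine ⟨(m + 1 : ℕ) * K, hK.trans hK', fun a p ω ha ha1 hp => ?_⟩
  obtain ⟨f, fC, f01, fp, f1, fs⟩ := hb a p ω ha ha1 hp
  have hap : 0 < a * p := by positivity
  have hap' : a * p ≤ p := by nlinarith
  have hc : Continuous fun s => f s ^ (m + 1) := fC.cont.pow _
  have hn : ∀ s, 0 ≤ f s ^ (m + 1) := fun s => pow_nonneg (f01 s).1 _
  have hl : ∀ s, f s ^ (m + 1) ≤ 1 := fun s => pow_le_one₀ (f01 s).1 (f01 s).2
  set t : ℝ := -ω - p / 2 with ht
  set J : ℝ := ∫ s in t..t + p, f s ^ (m + 1) with hJ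
  have J1 : J ≤ p := by
    have := intervalIntegral.integral_mono_on (a := t) (b := t + p) (μ := volume) (by linarith)
      (hc.intervalIntegrable _ _) (continuous_const.intervalIntegrable _ _) fun s _ => hl s
    simpa using this
  have J2 : a * p ≤ J := by
    have h1 : ∫ s in (-ω - a * p / 2)..(-ω + a * p / 2), f s ^ (m + 1) = a * p := by
      rw [intervalIntegral.integral_congr (g := fun _ => (1 : ℝ))]
      · simp
      · intro s hs
        rw [uIcc_of_le (by linarith)] at hs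
        beta_reduce
        rw [f1 s (abs_le.2 ⟨by linarith [hs.1], by linarith [hs.2]⟩), one_pow]
    rw [← h1]
    exact intervalIntegral.integral_mono_interval (by linarith) (by linarith) (by linarith)
      (Eventually.of_forall hn) (hc.intervalIntegrable _ _)
  have J0 : 0 < J := hap.trans_le J2
  set c : ℝ := p / J with hcd
  have c1 : 1 ≤ c := (one_le_div J0).2 J1
  have c2 : c ≤ 1 / a := by
    rw [div_le_div_iff₀ J0 ha]
    linarith
  have cJ : c * J = p := div_mul_cancel₀ _ J0.ne'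
  have hg : Continuous fun s => c * f s ^ (m + 1) - 1 := (hc.const_mul c).sub continuous_const
  have hu : ∀ v, HasDerivAt (fun v => ∫ s in t..v, (c * f s ^ (m + 1) - 1))
      (c * f v ^ (m + 1) - 1) v := fun v => (hg.integral_hasStrictDerivAt t v).hasDerivAt
  have du : deriv (fun v => ∫ s in t..v, (c * f s ^ (m + 1) - 1)) =
      fun v => c * f v ^ (m + 1) - 1 := funext fun v => (hu v).deriv
  have ddu : ∀ v, deriv (fun v => c * f v ^ (m + 1) - 1) v =
      c * ((m + 1 : ℕ) * f v ^ m * deriv f v) := fun v =>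
    ((((fC.diff v).hasDerivAt.fun_pow (m + 1)).const_mul c).sub_const 1).deriv
  have hf' : ∀ v, |deriv f v| ≤ K / (a * p) := fun v => by
    rw [← norm_fderiv_real]; exact fC.d1 v
  have hdd : ∀ v, |c * ((m + 1 : ℕ) * f v ^ m * deriv f v)| ≤
      (m + 1 : ℕ) * K / (a * p) * (c * f v ^ m) := fun v => by
    have h1 := pow_nonneg (f01 v).1 m
    rw [abs_mul, abs_mul, abs_of_nonneg (by linarith : 0 ≤ c),
      abs_of_nonneg (by positivity : 0 ≤ ((m + 1 : ℕ) : ℝ) * f v ^ m)]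
    calc _ ≤ c * ((m + 1 : ℕ) * f v ^ m * (K / (a * p))) := by gcongr; exact hf' v
      _ = _ := by ring
  have ex : ∀ v, ∫ s in t..v, (c * f s ^ (m + 1) - 1) =
      c * (∫ s in t..v, f s ^ (m + 1)) - (v - t) := fun v => by
    rw [intervalIntegral.integral_sub ((hc.const_mul c).intervalIntegrable _ _)
      (continuous_const.intervalIntegrable _ _), intervalIntegral.integral_const_mul]
    simp
  have up : Periodic (fun v => ∫ s in t..v, (c * f s ^ (m + 1) - 1)) p := fun v => by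
    have gp : Periodic (fun s => c * f s ^ (m + 1) - 1) p := fun s => by simp only [fp s]
    beta_reduce
    rw [← intervalIntegral.integral_add_adjacent_intervals (b := v) (hg.intervalIntegrable _ _)
      (hg.intervalIntegrable _ _), gp.intervalIntegral_add_eq v t, ex (t + p), ← hJ, cJ]
    ring
  have a1 : 1 ≤ 1 / a := c1.trans c2
  refine ⟨fun v => ∫ s in t..v, (c * f s ^ (m + 1) - 1), f, c, C2B.of_deriv ?_ (fun v => ?_)
    (fun v => ?_), fun v => ?_, c1, c2, fun v => (hu v).deriv, fun v ν hν => ?_, f01,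
    fC.mono (by gcongr) (by gcongr), fs⟩
  · rw [show (2 : WithTop ℕ∞) = 1 + 1 from rfl, contDiff_succ_iff_deriv, du]
    exact ⟨fun v => (hu v).differentiableAt, by simp,
      (contDiff_const.mul ((fC.cd.of_le (by norm_num)).pow _)).sub contDiff_const⟩
  · rw [du]
    have h1 : c * f v ^ (m + 1) ≤ c := mul_le_of_le_one_right (by linarith) (hl v)
    have h2 : 0 ≤ c * f v ^ (m + 1) := mul_nonneg (by linarith) (hn v)
    exact abs_le.2 ⟨by linarith, by linarith⟩
  · rw [du, ddu]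
    refine (hdd v).trans ?_
    have h1 : c * f v ^ m ≤ 1 / a :=
      (mul_le_of_le_one_right (by linarith) (pow_le_one₀ (f01 v).1 (f01 v).2)).trans c2
    calc _ ≤ (m + 1 : ℕ) * K / (a * p) * (1 / a) := by gcongr
      _ = _ := by field_simp
  · obtain ⟨y, hy, e⟩ := up.exists_mem_Ico hp v t
    rw [e, ex]
    have h1 : 0 ≤ ∫ s in t..y, f s ^ (m + 1) :=
      intervalIntegral.integral_nonneg hy.1 fun s _ => hn s
    have h2 : ∫ s in t..y, f s ^ (m + 1) ≤ J :=
      intervalIntegral.integral_mono_interval le_rfl hy.1 hy.2.le (Eventually.of_forall hn)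
        (hc.intervalIntegrable _ _)
    have h3 := mul_nonneg (by linarith : 0 ≤ c) h1
    have h4 := mul_le_mul_of_nonneg_left h2 (by linarith : 0 ≤ c)
    exact abs_le.2 ⟨by linarith [hy.2], by linarith [hy.1]⟩
  · rw [du, ddu]
    have h1 := young (f01 v).1 hν m
    have h2 : 0 ≤ c := by linarith
    calc _ ≤ ν * ((m + 1 : ℕ) * K / (a * p) * (c * f v ^ m)) := by gcongr; exact hdd v
      _ = (m + 1 : ℕ) * K / (a * p) * (c * (ν * f v ^ m)) := by ring
      _ ≤ (m + 1 : ℕ) * K / (a * p) * (c * (f v ^ (m + 1) + ν ^ (m + 1))) := by gcongr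
      _ = _ := by ring

end SK

end

section

namespace SJ
open Set Filter Topology MeasureTheory Metric Function
open scoped ENNReal

variable {ι : Type} [Fintype ι] [DecidableEq ι]

namespace ActX

omit [DecidableEq ι] in
theorem univ_ne (hN : 2 ≤ Fintype.card ι) : (Finset.univ : Finset ι).Nonempty :=
  Finset.card_pos.1 (by rw [Finset.card_univ]; omega)

theorem erase_ne (hN : 2 ≤ Fintype.card ι) (k : ι) : (Finset.univ.erase k).Nonempty :=
  Finset.card_pos.1 (by
    rw [Finset.card_erase_of_mem (Finset.mem_univ k), Finset.card_univ]; omega)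

/-- composition of the step with a logarithmically controlled function -/
theorem st_lg {E : Type*} [NormedAddCommGroup E] [NormedSpace ℝ E] {w : E → ℝ} {r K0 : ℝ}
    (hr : 0 < r) (hK : C2B st K0 K0) (hw : Lg w (r / 8)) :
    C2B (fun x => st (w x - 1)) (16 * K0 / r) (384 * K0 / r ^ 2) ∧
      ∀ x, 2 < w x → (fun x => st (w x - 1)) =ᶠ[𝓝 x] fun _ => 1 := by
  have hK0 := hK.nonneg1
  have hu : ContDiff ℝ 2 fun x => w x - 1 := hw.cd.sub contDiff_const
  have hev : ∀ x, 2 < w x → (fun x => st (w x - 1)) =ᶠ[𝓝 x] fun _ => 1 := by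
    intro x hx
    filter_upwards [(isOpen_lt continuous_const hw.cd.continuous).mem_nhds hx] with y hy
    exact st_one (by have : 2 < w y := hy; linarith)
  have e1 : fderiv ℝ (fun x => w x - 1) = fderiv ℝ w := funext fun x => fderiv_sub_const 1
  have e2 : ∀ x, D2 (fun x => w x - 1) x = D2 w x := fun x => by unfold D2; rw [e1]
  have b1 : ∀ x, w x ≤ 2 → ‖fderiv ℝ (fun x => w x - 1) x‖ ≤ 16 / r := by
    intro x hx
    rw [e1]
    refine (hw.d1 x).trans ?_
    rw [div_le_div_iff₀ (by positivity) hr]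
    nlinarith
  have b2 : ∀ x, w x ≤ 2 → ‖D2 (fun x => w x - 1) x‖ ≤ 128 / r ^ 2 := by
    intro x hx
    rw [e2]
    refine (hw.d2 x).trans ?_
    rw [div_le_div_iff₀ (by positivity) (by positivity)]
    nlinarith [sq_pos_of_pos hr]
  refine ⟨⟨hK.cd.comp hu, fun x => ?_, fun x => ?_⟩, hev⟩
  · rcases lt_or_ge 2 (w x) with h | h
    · rw [(hev x h).fderiv_eq, fderiv_fun_const, Pi.zero_apply, norm_zero]
      positivity
    · refine (norm_fderiv_comp_le' hK.cd hu x).trans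
        ((mul_le_mul (hK.d1 _) (b1 x h) (norm_nonneg _) hK0).trans_eq ?_)
      ring
  · rcases lt_or_ge 2 (w x) with h | h
    · rw [D2_congr (hev x h), D2_const, ContinuousLinearMap.opNorm_zero]
      positivity
    · refine (norm_D2_comp_le hK.cd hu x).trans ((add_le_add
        (mul_le_mul (hK.d2 _) (pow_le_pow_left₀ (norm_nonneg _) (b1 x h) 2) (by positivity) hK0)
        (mul_le_mul (hK.d1 _) (b2 x h) (ContinuousLinearMap.opNorm_nonneg _) hK0)).trans_eq ?_)
      field_simp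
      ring

end ActX

open ActX

theorem Pp_lg (hN : 2 ≤ Fintype.card ι) {b : ι → (ι → ℝ) → ℝ} {r : ℝ} (hr : 0 < r)
    (hb : ∀ k, Lg (b k) (2 * r)) : Lg (Pp b) r :=
  Lg.sum (univ_ne hN) (φ := fun k x => ∑ l ∈ Finset.univ.erase k, b k x * b l x) fun k _ =>
    Lg.sum (erase_ne hN k) (φ := fun l x => b k x * b l x) fun l _ => Lg.mul hr (hb k) (hb l)

theorem sg_lg (hN : 2 ≤ Fintype.card ι) {b : ι → (ι → ℝ) → ℝ} {r : ℝ} (hr : 0 < r)
    (hb : ∀ k, Lg (b k) (2 * r)) : Lg (sg b) (r / 2) := by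
  have h1 : Lg (fun x => (∑ k, b k x)⁻¹) r :=
    Lg.inv hr (Lg.sum (univ_ne hN) fun k _ => hb k)
  have h2 := Pp_lg hN hr hb
  have e : r = 2 * (r / 2) := by ring
  rw [e] at h1 h2
  have h3 := Lg.mul (half_pos hr) h2 h1
  have e2 : sg b = fun x => Pp b x * (∑ k, b k x)⁻¹ := funext fun x => div_eq_mul_inv _ _
  rw [e2]
  exact h3

theorem sg_facts (hN : 2 ≤ Fintype.card ι) {b : ι → (ι → ℝ) → ℝ} (hb : ∀ k x, 0 < b k x)
    (x : ι → ℝ) : 0 < sg b x ∧ sg b x ^ 2 ≤ Pp b x ∧ (∀ k, sg b x * b k x ≤ Pp b x) ∧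
      (∀ k l, k ≠ l → b k x * b l x ≤ Pp b x) ∧
      (∀ k l, vt b k x ≠ 0 → vt b l x ≠ 0 → k = l) ∧
      (∀ k, vt b k x ≠ 1 → b k x ≤ 2 * Fintype.card ι * sg b x) := by
  have hN0 : (0 : ℝ) < Fintype.card ι := by exact_mod_cast (by omega : 0 < Fintype.card ι)
  have hS : 0 < ∑ k, b k x := Finset.sum_pos (fun k _ => hb k x) (univ_ne hN)
  have hP : 0 < Pp b x := Finset.sum_pos (fun k _ =>
    Finset.sum_pos (fun l _ => mul_pos (hb k x) (hb l x)) (erase_ne hN k)) (univ_ne hN)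
  have hs : 0 < sg b x := div_pos hP hS
  have hsS : sg b x * ∑ k, b k x = Pp b x := div_mul_cancel₀ _ hS.ne'
  have hPS : Pp b x ≤ (∑ k, b k x) ^ 2 := by
    rw [pow_two, Finset.sum_mul_sum]
    exact Finset.sum_le_sum fun k _ => Finset.sum_le_sum_of_subset_of_nonneg
      (Finset.erase_subset _ _) fun l _ _ => (mul_pos (hb k x) (hb l x)).le
  have hk : ∀ k, b k x ≤ ∑ k, b k x := fun k =>
    Finset.single_le_sum (f := fun k => b k x) (fun l _ => (hb l x).le) (Finset.mem_univ k)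
  have hkl : ∀ k l, k ≠ l → b k x * b l x ≤ Pp b x := by
    intro k l h
    refine le_trans ?_ (Finset.single_le_sum
      (f := fun k => ∑ l ∈ Finset.univ.erase k, b k x * b l x) (fun k _ => Finset.sum_nonneg
        fun l _ => (mul_pos (hb k x) (hb l x)).le) (Finset.mem_univ k))
    exact Finset.single_le_sum (f := fun l => b k x * b l x)
      (fun l _ => (mul_pos (hb k x) (hb l x)).le)
      (Finset.mem_erase.2 ⟨h.symm, Finset.mem_univ l⟩)
  have hsle : sg b x ≤ ∑ k, b k x := by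
    refine le_of_mul_le_mul_right ?_ hS
    rw [hsS, ← pow_two]
    exact hPS
  have hbig : ∀ k, vt b k x ≠ 0 → Fintype.card ι * sg b x < b k x := by
    intro k h
    by_contra h'
    refine h (st_zero ?_)
    rw [sub_nonpos, div_le_one hN0, div_le_iff₀ hs]
    exact not_lt.1 h'
  refine ⟨hs, ?_, fun k => ?_, hkl, fun k l h1 h2 => ?_, fun k h => ?_⟩
  · rw [pow_two, ← hsS]
    exact mul_le_mul_of_nonneg_left hsle hs.le
  · rw [← hsS]
    exact mul_le_mul_of_nonneg_left (hk k) hs.le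
  · by_contra hne
    obtain ⟨k0, -, hk0⟩ := Finset.exists_max_image Finset.univ (fun k => b k x) (univ_ne hN)
    have hsum : ∑ k, b k x ≤ Fintype.card ι * b k0 x := by
      have := Finset.sum_le_card_nsmul Finset.univ (fun k => b k x) (b k0 x) hk0
      rwa [Finset.card_univ, nsmul_eq_mul] at this
    have key : ∀ l, vt b l x ≠ 0 → l = k0 := by
      intro l hl
      by_contra h
      have h3 := hkl l k0 h
      have h4 := mul_lt_mul_of_pos_right (hbig l hl) (hb k0 x)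
      have h5 := mul_le_mul_of_nonneg_left hsum hs.le
      nlinarith
    exact hne ((key k h1).trans (key l h2).symm)
  · by_contra h'
    refine h (st_one ?_)
    rw [le_sub_iff_add_le, le_div_iff₀ hN0, le_div_iff₀ hs]
    linarith [not_le.1 h']

theorem act_reg (hN : 2 ≤ Fintype.card ι) : ∃ K : ℝ, 1 ≤ K ∧
    ∀ (b : ι → (ι → ℝ) → ℝ) (r : ℝ), 0 < r → (∀ k, Lg (b k) (2 * r)) →
      Reg K r (act b) ∧ (∀ k, C2B (vt b k) (K / r) (K / r ^ 2)) ∧
      (∀ k x, 0 ≤ vt b k x ∧ vt b k x ≤ 1) ∧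
      (∀ k x, act b k x ≠ 0 → b k x ^ 2 ≤ K * Pp b x) ∧
      (∀ k x, act b k =ᶠ[𝓝 x] (fun _ => 0) ∨ b k x ≤ 2 * Fintype.card ι * sg b x) := by
  obtain ⟨K0, hK1, hK, -⟩ := exists_K0
  have hN0 : (0 : ℝ) < Fintype.card ι := by exact_mod_cast (by omega : 0 < Fintype.card ι)
  have hN2 : (0 : ℝ) ≤ (2 * (Fintype.card ι : ℝ)) ^ 2 := sq_nonneg _
  have hKK : K0 ≤ K0 ^ 2 := by nlinarith
  refine ⟨1280 * K0 ^ 2 + (2 * (Fintype.card ι : ℝ)) ^ 2, by nlinarith, fun b r hr hb => ?_⟩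
  have hpos : ∀ k x, 0 < b k x := fun k x => (hb k).pos x
  have hinv : Lg (fun x => (sg b x)⁻¹) (2 * (r / 8)) := by
    refine Lg.inv (by positivity) ?_
    rw [show 2 * (2 * (r / 8)) = r / 2 by ring]
    exact sg_lg hN hr hb
  have hw : ∀ k, Lg (fun x => b k x / sg b x / (Fintype.card ι : ℝ)) (r / 8) := by
    intro k
    have h1 := (Lg.mul (r := r / 8) (by positivity)
      ((hb k).mono (by positivity) (by linarith)) hinv).const_mul (inv_pos.2 hN0)
    have e : (fun x => b k x / sg b x / (Fintype.card ι : ℝ)) =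
        fun x => (Fintype.card ι : ℝ)⁻¹ * (b k x * (sg b x)⁻¹) := funext fun x => by ring
    rw [e]
    exact h1
  have hv : ∀ k, C2B (vt b k) (16 * K0 / r) (384 * K0 / r ^ 2) := fun k => (st_lg hr hK (hw k)).1
  have h01 : ∀ k x, 0 ≤ vt b k x ∧ vt b k x ≤ 1 := fun k x => ⟨st_nonneg _, st_le_one _⟩
  have habs : ∀ k x, |vt b k x| ≤ 1 := fun k x => by
    rw [abs_of_nonneg (h01 k x).1]; exact (h01 k x).2
  have hr2 : 0 < r ^ 2 := by positivity
  refine ⟨⟨fun k x => ?_, fun k => ?_, fun x k l h1 h2 => ?_⟩, fun k => (hv k).mono ?_ ?_, h01,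
    fun k x h => ?_, fun k x => ?_⟩
  · obtain ⟨h1, h2⟩ := h01 k x
    unfold act
    constructor <;> nlinarith
  · have h1 := ((hv k).mul (habs k) (habs k) (hv k)).const_sub 1
    have e : act b k = fun y => 1 - vt b k y * vt b k y := funext fun y => by unfold act; ring
    rw [e]
    refine h1.mono ?_ ?_
    · rw [show 16 * K0 / r * 1 + 1 * (16 * K0 / r) = 32 * K0 / r by ring]
      exact div_le_div_of_nonneg_right (by nlinarith) hr.le
    · rw [show 384 * K0 / r ^ 2 * 1 + 2 * (16 * K0 / r) * (16 * K0 / r) +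
        1 * (384 * K0 / r ^ 2) = (768 * K0 + 512 * K0 ^ 2) / r ^ 2 by field_simp; ring]
      exact div_le_div_of_nonneg_right (by nlinarith) hr2.le
  · refine (sg_facts hN hpos x).2.2.2.2.1 k l (fun h => h1 ?_) (fun h => h2 ?_)
    · unfold act; rw [h]; ring
    · unfold act; rw [h]; ring
  · exact div_le_div_of_nonneg_right (by nlinarith) hr.le
  · exact div_le_div_of_nonneg_right (by nlinarith) hr2.le
  · obtain ⟨f1, f2, -, -, -, f6⟩ := sg_facts hN hpos x
    have h1 := f6 k fun h' => h (by unfold act; rw [h']; ring)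
    have h2 := pow_le_pow_left₀ (hpos k x).le h1 2
    have h3 := mul_le_mul_of_nonneg_left f2 hN2
    have h4 : 0 ≤ Pp b x := (sq_nonneg _).trans f2
    have h5 : 0 ≤ 1280 * K0 ^ 2 * Pp b x := by positivity
    rw [mul_pow] at h2
    linarith [add_mul (1280 * K0 ^ 2) ((2 * (Fintype.card ι : ℝ)) ^ 2) (Pp b x)]
  · rcases lt_or_ge 2 (b k x / sg b x / (Fintype.card ι : ℝ)) with h | h
    · left
      filter_upwards [(st_lg hr hK (hw k)).2 x h] with y hy
      have : vt b k y = 1 := hy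
      unfold act
      rw [this]
      ring
    · right
      rwa [div_le_iff₀ hN0, div_le_iff₀ (sg_facts hN hpos x).1] at h

end SJ

end

section

namespace SK
open SJ Set Filter Topology MeasureTheory Metric Function
open scoped ENNReal

namespace LgToolsX

theorem der1 (τ B : ℝ) (m : ℕ) :
    deriv (fun s : ℝ => τ + B * s ^ (m + 2)) = fun s => B * ((m + 2 : ℝ) * s ^ (m + 1)) := by
  funext s
  have h := ((hasDerivAt_pow (m + 2) s).const_mul B).const_add τ
  rw [h.deriv]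
  push_cast
  rfl

theorem der2 (τ B : ℝ) (m : ℕ) (s : ℝ) :
    deriv (deriv (fun s : ℝ => τ + B * s ^ (m + 2))) s =
      B * ((m + 2 : ℝ) * ((m + 1 : ℝ) * s ^ m)) := by
  rw [der1]
  have h := ((hasDerivAt_pow (m + 1) s).const_mul (m + 2 : ℝ)).const_mul B
  rw [h.deriv]
  push_cast
  rfl

theorem key {B τ ν s : ℝ} (m i : ℕ) (hB : 0 ≤ B) (hτ : 0 < τ) (hν : 0 < ν) (hs : 0 ≤ s)
    (h : B * ν ^ (m + i) ≤ τ) : B * s ^ m * ν ^ i ≤ τ + B * s ^ (m + i) := by
  rcases le_total ν s with h1 | h1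
  · have a : ν ^ i ≤ s ^ i := pow_le_pow_left₀ hν.le h1 i
    have b : B * s ^ m * ν ^ i ≤ B * s ^ m * s ^ i :=
      mul_le_mul_of_nonneg_left a (by positivity)
    rw [pow_add]
    linarith
  · have a : s ^ m ≤ ν ^ m := pow_le_pow_left₀ hs h1 m
    have b : B * s ^ m * ν ^ i ≤ B * ν ^ m * ν ^ i :=
      mul_le_mul_of_nonneg_right (mul_le_mul_of_nonneg_left a hB) (by positivity)
    have c : 0 ≤ B * s ^ (m + i) := by positivity
    rw [pow_add] at h
    linarith

end LgToolsX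

open LgToolsX

theorem powLg : PowLgStmt := by
  intro E _ _ M f A r B τ r' ν hM h01 hf hA hr hB hτ hr' hν hν1 hBτ hsc
  obtain ⟨m, rfl⟩ : ∃ m, M = m + 2 := ⟨M - 2, by omega⟩
  have hg : ContDiff ℝ 2 fun s : ℝ => τ + B * s ^ (m + 2) :=
    contDiff_const.add (contDiff_const.mul (contDiff_id.pow _))
  push_cast at hsc
  have hm0 : (0 : ℝ) ≤ m := Nat.cast_nonneg m
  have hx : (m + 2 : ℝ) * A / (ν * r) ≤ 1 / (2 * r') := by
    rw [div_le_div_iff₀ (by positivity) (by positivity)]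
    linarith
  refine ⟨hg.comp hf.cd, fun x => ?_, fun x => ?_, fun x => ?_⟩
  · have := (h01 x).1
    positivity
  · have s0 := (h01 x).1
    have k1 := key (m + 1) 1 hB hτ hν s0 hBτ
    have G0 : 0 < τ + B * f x ^ (m + 2) := by positivity
    refine (norm_fderiv_comp_le' hg hf.cd x).trans ?_
    rw [norm_fderiv_real, der1, abs_of_nonneg (by positivity)]
    calc B * ((m + 2 : ℝ) * f x ^ (m + 1)) * ‖fderiv ℝ f x‖
        ≤ B * ((m + 2 : ℝ) * f x ^ (m + 1)) * (A / r) :=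
          mul_le_mul_of_nonneg_left (hf.d1 x) (by positivity)
      _ = B * f x ^ (m + 1) * ν ^ 1 * ((m + 2 : ℝ) * A / (ν * r)) := by field_simp
      _ ≤ (τ + B * f x ^ (m + 2)) * (1 / (2 * r')) :=
          mul_le_mul k1 hx (by positivity) G0.le
      _ ≤ (τ + B * f x ^ (m + 2)) / r' := by
          rw [mul_one_div]
          exact div_le_div_of_nonneg_left G0.le hr' (by linarith)
  · have s0 := (h01 x).1
    have k1 := key (m + 1) 1 hB hτ hν s0 hBτ
    have k2 := key m 2 hB hτ hν s0 hBτ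
    have G0 : 0 < τ + B * f x ^ (m + 2) := by positivity
    have hx2 : ((m + 2 : ℝ) * A / (ν * r)) ^ 2 ≤ (1 / (2 * r')) ^ 2 :=
      pow_le_pow_left₀ (by positivity) hx 2
    refine (norm_D2_comp_le hg hf.cd x).trans ?_
    rw [norm_fderiv_real, norm_D2_real hg, der2, der1, abs_of_nonneg (by positivity),
      abs_of_nonneg (by positivity)]
    have t1 : B * ((m + 2 : ℝ) * ((m + 1 : ℝ) * f x ^ m)) * ‖fderiv ℝ f x‖ ^ 2 ≤
        (τ + B * f x ^ (m + 2)) * (1 / (2 * r')) ^ 2 := by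
      calc B * ((m + 2 : ℝ) * ((m + 1 : ℝ) * f x ^ m)) * ‖fderiv ℝ f x‖ ^ 2
          ≤ B * ((m + 2 : ℝ) * ((m + 2 : ℝ) * f x ^ m)) * (A / r) ^ 2 := by
            refine mul_le_mul ?_ (pow_le_pow_left₀ (norm_nonneg _) (hf.d1 x) 2) (by positivity)
              (by positivity)
            gcongr
            linarith
        _ = B * f x ^ m * ν ^ 2 * ((m + 2 : ℝ) * A / (ν * r)) ^ 2 := by field_simp
        _ ≤ _ := mul_le_mul k2 hx2 (by positivity) G0.le
    have t2 : B * ((m + 2 : ℝ) * f x ^ (m + 1)) * ‖D2 f x‖ ≤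
        (τ + B * f x ^ (m + 2)) * (1 / (2 * r')) ^ 2 := by
      have hy : (m + 2 : ℝ) * A / (ν * r ^ 2) ≤ ((m + 2 : ℝ) * A / (ν * r)) ^ 2 := by
        have e : ((m + 2 : ℝ) * A / (ν * r)) ^ 2 =
            (m + 2 : ℝ) * A / (ν * r ^ 2) * ((m + 2 : ℝ) * A / ν) := by field_simp
        rw [e]
        refine le_mul_of_one_le_right (by positivity) ?_
        rw [one_le_div hν]
        nlinarith
      calc B * ((m + 2 : ℝ) * f x ^ (m + 1)) * ‖D2 f x‖
          ≤ B * ((m + 2 : ℝ) * f x ^ (m + 1)) * (A / r ^ 2) :=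
            mul_le_mul_of_nonneg_left (hf.d2 x) (by positivity)
        _ = B * f x ^ (m + 1) * ν ^ 1 * ((m + 2 : ℝ) * A / (ν * r ^ 2)) := by field_simp
        _ ≤ _ := mul_le_mul k1 (hy.trans hx2) (by positivity) G0.le
    have e : (τ + B * f x ^ (m + 2)) * (1 / (2 * r')) ^ 2 =
        (τ + B * f x ^ (m + 2)) / r' ^ 2 / 4 := by
      field_simp
      ring
    have e0 : 0 < (τ + B * f x ^ (m + 2)) / r' ^ 2 := by positivity
    show _ ≤ (τ + B * f x ^ (m + 2)) / r' ^ 2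
    linarith

theorem stLg : StLgStmt := by
  obtain ⟨K0, hK1, hK, -⟩ := exists_K0
  refine ⟨6 * K0, by linarith, fun E _ _ φ r c hr hc h => ?_⟩
  have h1 : Lg (fun x => c * φ x) (8 * r / 8) := by
    rw [show 8 * r / 8 = r by ring]
    exact h.const_mul hc
  have h2 := (ActX.st_lg (by positivity) hK h1).1
  refine h2.mono ?_ (le_of_eq ?_)
  · rw [div_le_div_iff₀ (by positivity) hr]
    nlinarith
  · field_simp
    ring

end SK

end

section

namespace SK
open SJ Set Filter Topology MeasureTheory Metric Function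
open scoped ENNReal

namespace TWX

theorem s0 {u : ℝ} (h : u ≤ 0) : st u = 0 := Real.smoothTransition.zero_of_nonpos h

theorem s1 {u : ℝ} (h : 1 ≤ u) : st u = 1 := Real.smoothTransition.one_of_one_le h

theorem s01 (u : ℝ) : 0 ≤ st u ∧ st u ≤ 1 :=
  ⟨Real.smoothTransition.nonneg u, Real.smoothTransition.le_one u⟩

theorem smono {u v : ℝ} (h : u ≤ v) : st u ≤ st v := Real.smoothTransition.monotone h

theorem n0 {u : ℝ} (h : st (u - 1) ≠ 0) : 1 < u := by
  by_contra hn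
  exact h (s0 (by linarith [not_lt.1 hn]))

theorem n1 {u : ℝ} (h : st (u - 1) ≠ 1) : u < 2 := by
  by_contra hn
  exact h (s1 (by linarith [not_lt.1 hn]))

end TWX

open TWX in
theorem twS (hS : SmStmt) (hL : StLgStmt) : TWStmt := by
  intro ι _ _ r hr
  obtain ⟨K, hK, hL⟩ := hL
  obtain ⟨hS1, hS2⟩ := hS ι r hr
  refine ⟨8 * K, by linarith, fun K' L ω ℓ b hK' hL1 hℓ hω hω1 hb => ?_⟩
  have hr0 : (0 : ℝ) ≤ r := Nat.cast_nonneg r
  have hω2 : ω ≤ 1 := by nlinarith
  have hs : Lg (smf r b) (2 * ℓ) :=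
    hS2 b (2 * ℓ) (by positivity) fun k => (hb k).mono (by positivity) (by linarith)
  have hρ : ∀ k, Lg (fun x => b k x / smf r b x) (ℓ / 2) := fun k => by
    simp only [div_eq_mul_inv (b k _)]
    exact Lg.mul (by positivity) ((hb k).mono (by positivity) (by linarith))
      ((hs.inv hℓ).mono (by positivity) (by linarith))
  have hst : ∀ k c, 0 < c → C2B (fun x => st (c * (b k x / smf r b x) - 1))
      (4 * K / ℓ) (4 * K / ℓ ^ 2) := fun k c hc =>
    (hL _ _ _ c (by positivity) hc (hρ k)).mono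
      (by rw [div_le_div_iff₀ (by positivity) hℓ]; nlinarith [mul_pos (by linarith : 0 < K) hℓ])
      (le_of_eq (by field_simp; norm_num))
  have e1 : 4 * K / ℓ + 4 * K / ℓ ≤ K' / ℓ := by
    rw [← add_div]; exact div_le_div_of_nonneg_right (by linarith) hℓ.le
  have e2 : 4 * K / ℓ ^ 2 + 4 * K / ℓ ^ 2 ≤ K' / ℓ ^ 2 := by
    rw [← add_div]; exact div_le_div_of_nonneg_right (by linarith) (by positivity)
  have p1 : 0 ≤ 4 * K / ℓ := by positivity
  have p2 : 0 ≤ 4 * K / ℓ ^ 2 := by positivity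
  have hcc : ∀ n k, C2B (cc r ω b n k) (4 * K / ℓ) (4 * K / ℓ ^ 2) := fun n k => by
    unfold cc
    split_ifs
    · exact (C2B.const 1).mono p1 p2
    · exact hst k _ (by positivity)
  have hct : ∀ n k, C2B (ct r ω b n k) (4 * K / ℓ) (4 * K / ℓ ^ 2) := fun n k => by
    unfold ct
    split_ifs
    · exact (C2B.const 1).mono p1 p2
    · exact hst k _ (by positivity)
  have hsv : ∀ k x x', ‖x - x'‖ ≤ ℓ → b k x' / smf r b x' ≤ 9 * (b k x / smf r b x) := by
    intro k x x' h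
    have h1 := (hb k).sv (by positivity) x x' (by linarith)
    have h2 := hs.sv (by positivity) x' x (by rw [norm_sub_rev]; linarith)
    have h3 := hs.pos x
    have h4 := hs.pos x'
    have h5 := (hb k).pos x
    rw [← mul_div_assoc, div_le_div_iff₀ h4 h3]
    calc b k x' * smf r b x ≤ (3 * b k x) * (3 * smf r b x') :=
          mul_le_mul h1 h2 h3.le (by positivity)
      _ = _ := by ring
  have cc01 : ∀ n k x, 0 ≤ cc r ω b n k x ∧ cc r ω b n k x ≤ 1 := fun n k x => by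
    unfold cc
    split_ifs
    · exact ⟨zero_le_one, le_rfl⟩
    · exact s01 _
  have anti : ∀ n k x, cc r ω b (n + 1) k x ≤ cc r ω b n k x := fun n k x => by
    by_cases h : n = 0
    · rw [show cc r ω b n k x = 1 from if_pos h]
      exact (cc01 _ k x).2
    · rw [cc, cc, if_neg h, if_neg (Nat.succ_ne_zero n)]
      refine smono (sub_le_sub_right (mul_le_mul_of_nonneg_right ?_ ((hρ k).pos x).le) 1)
      rw [pow_succ]
      exact mul_le_of_le_one_right (by positivity) hω2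
  have ccL : ∀ n k x x', ‖x - x'‖ ≤ ℓ → x' ∈ tsupport (cc r ω b n k) → ct r ω b n k x = 1 := by
    intro n k x x' h hx
    by_cases hn : n = 0
    · exact if_pos hn
    · have h1 : tsupport (cc r ω b n k) ⊆ {y | 1 ≤ ω ^ n * (b k y / smf r b y)} :=
        closure_minimal (fun y hy => by
          have : cc r ω b n k y ≠ 0 := hy
          rw [cc, if_neg hn] at this
          exact (n0 this).le)
          (isClosed_le continuous_const (continuous_const.mul (hρ k).cd.continuous))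
      have h2 : 1 ≤ ω ^ n * (b k x' / smf r b x') := h1 hx
      have h3 := mul_le_mul_of_nonneg_left (hsv k x x' h) (pow_pos hω n).le
      rw [ct, if_neg hn]
      exact s1 (by linarith)
  have hL0 : L ≠ 0 := by omega
  have hsub : ∀ n k, tsupport (th r ω b n k) ⊆ tsupport (cc r ω b n k) := fun n k =>
    closure_mono (support_subset_iff'.2 fun y hy => by
      have h0 : cc r ω b n k y = 0 := notMem_support.1 hy
      have := anti n k y
      have := (cc01 (n + 1) k y).1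
      rw [th]; linarith)
  refine ⟨hs, fun n k => (hcc n k).mono (by linarith) (by linarith),
    fun n k => (hct n k).mono (by linarith) (by linarith),
    fun n k => ((hcc n k).sub (hcc (n + 1) k)).mono e1 e2, cc01, fun n k x => ?_,
    fun n k x => sub_nonneg.2 (anti n k x), fun k x => ?_, fun n k x hx => ?_,
    fun n k x x' h hx => ccL n k x x' h (hsub n k hx), ccL,
    fun n k x hn h => ?_, fun k x x' h hx => ?_, fun k x => ?_, fun k x => ?_,
    fun k => ((C2B.const 1).sub (hcc L k)).mono (by linarith) (by linarith),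
    fun k => ((C2B.const 1).sub (hst k _ (by positivity))).mono (by linarith) (by linarith),
    fun k x x' h hx => ?_, fun x => ?_⟩
  · unfold ct
    split_ifs
    · exact ⟨zero_le_one, le_rfl⟩
    · exact s01 _
  · rw [Fin.sum_univ_eq_sum_range (fun n => th r ω b n k x) L]
    exact Finset.sum_range_sub' (fun n => cc r ω b n k x) L
  · have h1 : tsupport (th r ω b n k) ⊆ {y | ω ^ (n + 1) * b k y ≤ 2 * smf r b y} :=
      closure_minimal (fun y hy => by
        have h2 : cc r ω b (n + 1) k y ≠ 1 := fun e => hy (by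
          have := anti n k y
          have := (cc01 n k y).2
          rw [th]; linarith)
        rw [cc, if_neg (Nat.succ_ne_zero n)] at h2
        have h3 := n1 h2
        rw [← mul_div_assoc, div_lt_iff₀ (hs.pos y)] at h3
        exact h3.le)
        (isClosed_le (continuous_const.mul (hb k).cd.continuous)
          (continuous_const.mul hs.cd.continuous))
    exact h1 hx
  · rw [ct, if_neg (by omega)] at h
    have h3 := n0 h
    rw [← mul_div_assoc, lt_div_iff₀ (hs.pos x)] at h3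
    linarith
  · have h2 : cc r ω b L k x' ≠ 1 := fun e => hx (by rw [actT, e, sub_self])
    rw [cc, if_neg hL0] at h2
    have h3 := n1 h2
    have h4 := mul_le_mul_of_nonneg_left (hsv k x' x (by rwa [norm_sub_rev])) (pow_pos hω L).le
    have h5 : ω ^ L * (b k x / smf r b x) ≤ 18 := by linarith
    rwa [← mul_div_assoc, div_le_iff₀ (hs.pos x)] at h5
  · have := cc01 L k x
    rw [actT]
    constructor <;> linarith
  · have := s01 ((9 * ((r : ℝ) + 1))⁻¹ * (b k x / smf r b x) - 1)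
    rw [reqT]
    constructor <;> linarith
  · have h2 : st ((9 * ((r : ℝ) + 1))⁻¹ * (b k x' / smf r b x') - 1) ≠ 1 :=
      fun e => hx (by rw [reqT, e, sub_self])
    have h3 := n1 h2
    rw [inv_mul_lt_iff₀ (by positivity)] at h3
    have h4 := hsv k x' x (by rwa [norm_sub_rev])
    have h5 : ω ^ L ≤ ω := pow_le_of_le_one hω.le hω2 hL0
    have h6 : ω ^ L * (b k x / smf r b x) ≤ ω * (162 * ((r : ℝ) + 1)) :=
      mul_le_mul h5 (by linarith) ((hρ k).pos x).le hω.le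
    rw [actT, cc, if_neg hL0, s0 (by linarith), sub_zero]
  · obtain ⟨T, h1, h2⟩ := (hS1 (fun k => b k x) fun k => (hb k).pos x).2.2.2.1
    refine ⟨T, by omega, fun k hk x' h => ?_⟩
    have h3 : b k x / smf r b x ≤ r + 1 := (div_le_iff₀ (hs.pos x)).2 (h2 k hk)
    have h4 := hsv k x x' (by rwa [norm_sub_rev])
    have h5 : (9 * ((r : ℝ) + 1))⁻¹ * (b k x' / smf r b x') ≤ 1 := by
      rw [inv_mul_le_iff₀ (by positivity)]
      linarith
    rw [reqT, s0 (by linarith), sub_zero]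

end SK

end

section

namespace SK
open SJ Set Filter Topology MeasureTheory Metric Function
open scoped ENNReal

namespace LimX

variable {E : Type} [NormedAddCommGroup E] [NormedSpace ℝ E]

theorem yel {lam : ℝ} (l0 : 0 < lam) (j : ℕ) :
    (1 / (2 * lam)) ^ j * (el lam j / 100) = 1 / 400 * (1 / 2) ^ j := by
  have h : (1 / (2 * lam)) ^ j * lam ^ j = (1 / 2) ^ j := by
    rw [← mul_pow]
    congr 1
    field_simp
  unfold el
  rw [← h]
  ring

theorem el_le {lam : ℝ} (l0 : 0 < lam) (l1 : lam ≤ 1 / 100) (j : ℕ) :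
    el lam j / 100 ≤ 1 / 400 * (1 / 2) ^ j := by
  have : lam ^ j ≤ (1 / 2) ^ j := pow_le_pow_left₀ l0.le (by linarith) j
  unfold el
  linarith

theorem geo_sum : Summable fun j : ℕ => (1 / 400 : ℝ) * (1 / 2) ^ j :=
  summable_geometric_two.mul_left _

theorem sum_le {lam : ℝ} (l0 : 0 < lam) (l1 : lam ≤ 1 / 100) (n : ℕ) :
    ∑ i ∈ Finset.range n, el lam i / 100 ≤ 1 := by
  have h := el_sum l0 l1 0 n
  have h2 := el_pos l0 (0 + n)
  simp only [zero_add, el_zero] at h h2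
  rw [← Finset.sum_div]
  linarith

theorem lim_G [CompleteSpace E] {lam : ℝ} (l0 : 0 < lam) (l1 : lam ≤ 1 / 100) {a : ℕ → E → E}
    (hc : ∀ j, Continuous (a j)) (hd : ∀ j y, ‖a j y - y‖ ≤ el lam j / 100)
    (hal : ∀ j y y', ‖y - y'‖ ≤ 1 / (2 * lam) * ‖a j y - a j y'‖) :
    ∃ G : E → E, Continuous G ∧ Injective G ∧ TendstoUniformly (Gs a) G atTop := by
  have h := gs_antilip a (fun _ => 1 / (2 * lam)) (fun j => (1 / (2 * lam)) ^ j) (by simp)
    (fun _ => by positivity) (fun j => (pow_succ _ j).ge) hal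
  refine gs_limit a (fun j => el lam j / 100) (fun j => (1 / (2 * lam)) ^ j) hc hd (fun j => ?_)
    (fun j => by positivity) h ?_
  · have := el_pos l0 j
    simp only [el_succ]
    nlinarith
  · simp only [yel l0]
    exact geo_sum.tendsto_atTop_zero

theorem lim_F [ProperSpace E] {lam : ℝ} (l0 : 0 < lam) (l1 : lam ≤ 1 / 100) {P : ℕ → E → E}
    {B : ℕ → ℝ} (hc : ∀ j, C2B (P j) (1 / (2 * lam)) (B j)) (hi : ∀ j, Injective (P j))
    (hd : ∀ j y, ‖P j y - y‖ ≤ el lam j / 100) :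
    ∃ Ψ : E → E, Continuous Ψ ∧ Injective Ψ ∧ TendstoUniformly (Fw P) Ψ atTop := by
  have h := fw_lip P (fun _ => 1 / (2 * lam)) (fun j => (1 / (2 * lam)) ^ j) (by simp)
    (fun _ => by positivity) (fun j => (pow_succ _ j).ge) fun j => (hc j).lip
  refine fw_limit P (fun j => 1 / 400 * (1 / 2) ^ j) (fun j => 1 / 400 * (1 / 2) ^ j)
    (fun j => (hc j).cont) hi (fun j y => (hd j y).trans (el_le l0 l1 j)) geo_sum
    (fun j y => ?_) geo_sum
  calc ‖Fw P (j + 1) y - Fw P j y‖ = ‖Fw P j (P j y) - Fw P j y‖ := rfl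
    _ ≤ (1 / (2 * lam)) ^ j * ‖P j y - y‖ := h j _ _
    _ ≤ (1 / (2 * lam)) ^ j * (el lam j / 100) :=
        mul_le_mul_of_nonneg_left (hd j y) (by positivity)
    _ = _ := yel l0 j

theorem fw_cd {P : ℕ → E → E} (hc : ∀ j, ContDiff ℝ 2 (P j)) (j : ℕ) : ContDiff ℝ 2 (Fw P j) := by
  induction j with
  | zero => exact contDiff_id
  | succ j ih => exact ih.comp (hc j)

theorem gs_cd {P : ℕ → E → E} (hc : ∀ j, ContDiff ℝ 2 (P j)) (j : ℕ) : ContDiff ℝ 2 (Gs P j) := by
  induction j with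
  | zero => exact contDiff_id
  | succ j ih => exact (hc j).comp ih

theorem shift {X : Type*} [UniformSpace X] {F : ℕ → X → X} {f : X → X}
    (h : TendstoUniformly F f atTop) : TendstoUniformly (fun j => F (j + 1)) f atTop :=
  fun u hu => (tendsto_add_atTop_nat 1).eventually (h u hu)

omit [NormedSpace ℝ E] in
theorem norm_Phi_le (w : E × ℝ) : ‖Phi w‖ ≤ ‖w‖ + 1 := by
  have h1 := norm_fst_le w
  have h2 := norm_snd_le w
  have h3 := abs_phi_le w.2
  rw [Real.norm_eq_abs] at h2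
  rw [Prod.norm_def]
  refine max_le ?_ ?_
  · change ‖w.1‖ ≤ _
    linarith
  · change ‖phi w.2‖ ≤ _
    rw [Real.norm_eq_abs]
    linarith

end LimX

open LimX in
theorem limS : LimStmt := by
  intro ι _ _ q lam K C Bs B act H g U α ρ P c w hT hF
  have l0 := hF.l0
  have l1 := hF.l1
  obtain ⟨G, Gc, Gi, Gl⟩ := lim_G l0 l1 (fun j => (hF.aC j).continuous) hF.ad hF.aal
  obtain ⟨T, Tc, Ti, Tl⟩ := lim_F l0 l1 (fun j => (hT.hm j).hC) (fun j => (hT.hm j).hinj)
    fun j => (hT.hm j).hd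
  obtain ⟨Ψ, Pc, Pi, Pl⟩ := lim_F l0 l1 hF.pC hF.pinj hF.pd
  have hΦ : Continuous (Phi : (ι → ℝ) × ℝ → (ι → ℝ) × ℝ) := Phi_c2b.cont
  refine ⟨fun j => ?_, fun y => Phi (T (Ψ (G y))), hΦ.comp (Tc.comp (Pc.comp Gc)),
    Phi_inj.comp (Ti.comp (Pi.comp Gi)), fun y => ?_, fun j y hy => ?_⟩
  · exact Phi_c2b.cd.comp ((fw_cd (fun j => (hT.hm j).hC.cd) _).comp
      ((fw_cd (fun j => (hF.pC j).cd) _).comp ((hF.rC j).cd.comp (gs_cd hF.aC _))))
  · have h1 : Tendsto (fun j => Gs α (j + 1) y) atTop (𝓝 (G y)) := (shift Gl).tendsto_at y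
    have h2 : Tendsto (fun j => ρ j (Gs α (j + 1) y) - Gs α (j + 1) y) atTop (𝓝 0) :=
      squeeze_zero_norm (fun j => (hF.rd j _).trans (el_le l0 l1 j)) geo_sum.tendsto_atTop_zero
    have h3 : Tendsto (fun j => ρ j (Gs α (j + 1) y)) atTop (𝓝 (G y)) := by
      have := h2.add h1
      simpa using this
    have h4 := (shift Pl).tendsto_comp Pc.continuousAt h3
    have h5 := (shift Tl).tendsto_comp Tc.continuousAt h4
    exact (hΦ.tendsto _).comp h5
  · have hy1 : ‖y‖ < 1 := by simpa using hy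
    have hs := sum_le l0 l1
    have h1 := (gs_disp α (fun j => el lam j / 100) hF.ad (j + 1) y).trans (hs _)
    have h2 : ‖ρ j (Gs α (j + 1) y) - Gs α (j + 1) y‖ ≤ 1 := by
      refine (hF.rd j _).trans ?_
      have := el_anti l0 (by linarith) (Nat.zero_le j)
      rw [el_zero] at this
      linarith
    have h3 := (fw_disp P (fun j => el lam j / 100) hF.pd (j + 1)
      (ρ j (Gs α (j + 1) y))).trans (hs _)
    have h4 := (fw_disp H (fun j => el lam j / 100) (fun j => (hT.hm j).hd) (j + 1)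
      (Fw P (j + 1) (ρ j (Gs α (j + 1) y)))).trans (hs _)
    have h5 := norm_Phi_le (Fw H (j + 1) (Fw P (j + 1) (ρ j (Gs α (j + 1) y))))
    have e1 := norm_le_norm_add_norm_sub' (Gs α (j + 1) y) y
    have e2 := norm_le_norm_add_norm_sub' (ρ j (Gs α (j + 1) y)) (Gs α (j + 1) y)
    have e3 := norm_le_norm_add_norm_sub' (Fw P (j + 1) (ρ j (Gs α (j + 1) y)))
      (ρ j (Gs α (j + 1) y))
    have e4 := norm_le_norm_add_norm_sub' (Fw H (j + 1) (Fw P (j + 1) (ρ j (Gs α (j + 1) y))))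
      (Fw P (j + 1) (ρ j (Gs α (j + 1) y)))
    unfold FF2
    linarith

end SK

end

section

namespace SK
open SJ Set Filter Topology MeasureTheory Metric Function
open scoped ENNReal

namespace LocX

theorem fw_inv {E : Type*} {P : ℕ → E → E} {T : E → Prop} (n : ℕ)
    (h : ∀ i < n, ∀ z, T z → T (P i z)) : ∀ z, T z → T (Fw P n z) := by
  induction n with
  | zero => exact fun _ hz => hz
  | succ n ih =>
    exact fun z hz => ih (fun i hi => h i (by omega)) _ (h n (Nat.lt_succ_self n) z hz)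

theorem gs_inv {E : Type*} {P : ℕ → E → E} {T : E → Prop} (n : ℕ)
    (h : ∀ i < n, ∀ z, T z → T (P i z)) : ∀ z, T z → T (Gs P n z) := by
  induction n with
  | zero => exact fun _ hz => hz
  | succ n ih =>
    exact fun z hz => h n (Nat.lt_succ_self n) _ (ih (fun i hi => h i (by omega)) z hz)

theorem fw_fix {E : Type*} {P : ℕ → E → E} {z : E} (n : ℕ) (h : ∀ i < n, P i z = z) :
    Fw P n z = z := by
  induction n with
  | zero => rfl
  | succ n ih =>
    exact (congrArg (Fw P n) (h n (Nat.lt_succ_self n))).trans (ih fun i hi => h i (by omega))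

theorem gs_fix {E : Type*} {a : ℕ → E → E} {z : E} (n : ℕ) (h : ∀ i < n, a i z = z) :
    Gs a n z = z := by
  induction n with
  | zero => rfl
  | succ n ih =>
    exact (congrArg (a n) (ih fun i hi => h i (by omega))).trans (h n (Nat.lt_succ_self n))

theorem keep {X : Type} [NormedAddCommGroup X] {m : X × ℝ → X × ℝ} {l τ : ℝ} (hl : 0 < l)
    (hτ : τ ≤ l / 4) (hd : ∀ y, ‖m y - y‖ ≤ l / 100) (ht : ∀ y, -l / 3 ≤ y.2 → m y = y)
    (z : X × ℝ) (hz : z.2 ≤ -τ) : (m z).2 ≤ -τ := by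
  by_cases h : -l / 3 ≤ z.2
  · rwa [ht z h]
  · have := (le_abs_self _).trans ((norm_snd_le (m z - z)).trans (hd z))
    rw [Prod.snd_sub] at this
    linarith [not_le.1 h]

theorem d2_clm {E F G : Type*} [NormedAddCommGroup E] [NormedSpace ℝ E] [NormedAddCommGroup F]
    [NormedSpace ℝ F] [NormedAddCommGroup G] [NormedSpace ℝ G] {g : F → G} (hg : ContDiff ℝ 2 g)
    (L : E →L[ℝ] F) (y v w : E) : D2 (fun x => g (L x)) y v w = D2 g (L y) (L v) (L w) := by
  have h := D2_comp_apply (f := fun x => L x) hg L.contDiff y v w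
  have e : fderiv ℝ (fun z => L z) y = L := L.fderiv
  rw [h, D2_clm, e]
  simp

theorem d2_prod {X : Type} [NormedAddCommGroup X] [NormedSpace ℝ X] {g : X → X} {φ : ℝ → ℝ}
    (hg : ContDiff ℝ 2 g) (hφ : ContDiff ℝ 2 φ) (y : X × ℝ) {C : ℝ} (h1 : ‖D2 g y.1‖ ≤ C)
    (h2 : ‖D2 φ y.2‖ ≤ C) : ‖D2 (fun z : X × ℝ => (g z.1, φ z.2)) y‖ ≤ C := by
  have hC : 0 ≤ C := le_trans (ContinuousLinearMap.opNorm_nonneg _) h1
  have hc : ContDiff ℝ 2 fun z : X × ℝ => (g z.1, φ z.2) :=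
    (hg.comp contDiff_fst).prodMk (hφ.comp contDiff_snd)
  refine norm_D2_le_of_apply hC fun v w => ?_
  rw [Prod.norm_def]
  refine max_le ?_ ?_
  · have e := (D2_clm_comp (ContinuousLinearMap.fst ℝ X ℝ) hc y v w).symm.trans
      (d2_clm hg (ContinuousLinearMap.fst ℝ X ℝ) y v w)
    refine (congrArg norm e).trans_le ((norm_D2_apply_le g y.1 v.1 w.1).trans ?_)
    have := norm_fst_le v
    have := norm_fst_le w
    gcongr
  · have e := (D2_clm_comp (ContinuousLinearMap.snd ℝ X ℝ) hc y v w).symm.trans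
      (d2_clm hφ (ContinuousLinearMap.snd ℝ X ℝ) y v w)
    refine (congrArg norm e).trans_le ((norm_D2_apply_le φ y.2 v.2 w.2).trans ?_)
    have := norm_snd_le v
    have := norm_snd_le w
    gcongr

end LocX

open LocX in
theorem locS : LocStmt := by
  intro ι _ _ q lam K C Bs B act H g U α ρ P c w hT hF j y
  have p := el_pos hF.l0 (j + 1)
  have hs : ∀ i, i < j + 1 → el lam (j + 1) ≤ el lam i / 100 := fun i hi => el_lt hF.l0 hF.l1 hi
  have gc := LimsX.gs_cont α fun k => (hF.aC k).continuous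
  refine ⟨fun h h1 h2 => ?_, fun h => ?_, fun h => ?_⟩
  · have o₁ := ((hF.ccont (j + 1)).comp (gc (j + 1))).continuousAt.eventually_ne h1
    have o₂ := ((hF.ccont (j + 2)).comp (gc (j + 2))).continuousAt.eventually_ne h2
    have ho : ∀ᶠ y' in 𝓝 y, y'.2 < -(3 * el lam (j + 1)) :=
      continuous_snd.continuousAt.eventually (gt_mem_nhds (by linarith))
    filter_upwards [o₁, o₂, ho] with y' w₁ w₂ hy'
    have hi := hF.ident j _ w₁ w₂
    have t : ∀ i, i < j + 1 → 3 * el lam (j + 1) ≤ el lam i / 4 := fun i hi => by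
      linarith [hs i hi]
    have r₁ := gs_inv (P := α) (T := fun z => z.2 ≤ -(3 * el lam (j + 1))) (j + 1)
      (fun i hi => keep (el_pos hF.l0 i) (t i hi) (hF.ad i) (hF.atop i)) y' hy'.le
    have r₂ := keep (el_pos hF.l0 j) (t j (Nat.lt_succ_self j)) (hF.rd j) (hF.rtop j) _ r₁
    have r₃ := fw_inv (P := P) (T := fun z => z.2 ≤ -(3 * el lam (j + 1))) (j + 1)
      (fun i hi => keep (el_pos hF.l0 i) (t i hi) (hF.pd i) (hF.ptop i)) _ r₂
    have hh := (hT.hm (j + 1)).hoff _ (le_trans (by linarith) (neg_le_abs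
      (Fw P (j + 1) (ρ j (Gs α (j + 1) y'))).2))
    change Phi (Fw H (j + 1) (H (j + 1) (Fw P (j + 1)
      (P (j + 1) (ρ (j + 1) (α (j + 1) (Gs α (j + 1) y'))))))) = _
    rw [hi, hh]
    rfl
  · have ho : ∀ᶠ y' in 𝓝 y, 3 * el lam (j + 1) < y'.2 :=
      continuous_snd.continuousAt.eventually (lt_mem_nhds (by linarith))
    filter_upwards [ho] with y' hy'
    have t : ∀ i, -el lam i / 3 ≤ y'.2 := fun i => by linarith [el_pos hF.l0 i]
    have ha := fun n => gs_fix n fun i _ => hF.atop i y' (t i)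
    have hr := fun i => hF.rtop i y' (t i)
    have hp := fun n => fw_fix n fun i _ => hF.ptop i y' (t i)
    have hh := (hT.hm (j + 1)).hoff y' (le_trans (by linarith) (le_abs_self _))
    simp only [FF2, ha, hr, hp]
    exact congrArg (fun z => Phi (Fw H (j + 1) z)) hh
  · have fe : ∀ i, i ≤ j + 1 → ∀ v : (ι → ℝ) × ℝ, |v.2| ≤ 5 * el lam (j + 1) →
        Fw H i v = (g i v.1, v.2) := by
      intro i
      induction i with
      | zero => exact fun _ v _ => by rw [hT.g0]; rfl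
      | succ i ih =>
        intro hi v hv
        have a := (hT.hm i).h2 v
        have b := (hT.hm i).hon v (by linarith [hs i hi])
        change Fw H i (H i v) = _
        rw [ih (by omega) _ (by rwa [a]), a, b]
    have ho : ∀ᶠ y' in 𝓝 y, |y'.2| < 5 * el lam (j + 1) :=
      continuous_snd.abs.continuousAt.eventually (gt_mem_nhds (by linarith))
    have e : FF2 H P ρ α j =ᶠ[𝓝 y] fun z => (g (j + 1) z.1, phi z.2) := by
      filter_upwards [ho] with y' hy'
      have t : ∀ i, i < j + 1 → -el lam i / 3 ≤ y'.2 := fun i hi => by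
        linarith [hs i hi, neg_abs_le y'.2]
      have ha := gs_fix (j + 1) fun i hi => hF.atop i y' (t i hi)
      have hr := hF.rtop j y' (t j (Nat.lt_succ_self j))
      have hp := fw_fix (j + 1) fun i hi => hF.ptop i y' (t i hi)
      unfold FF2
      rw [ha, hr, hp, fe _ le_rfl y' hy'.le]
      rfl
    rw [D2_congr e]
    have u := hT.u0 (j + 1) y.1
    have s : Ut lam U (j + 1) y.1 / el lam (j + 1) =
        U (j + 1) y.1 / el lam (j + 1) + el lam (j + 1) := by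
      unfold Ut
      field_simp
    have u' : 0 ≤ U (j + 1) y.1 / el lam (j + 1) := by positivity
    refine d2_prod (hT.gcd _) phi_c2b.cd y ((hT.gd2 _ _).trans (by linarith)) ?_
    rw [norm_D2_real phi_c2b.cd]
    linarith [phi_deriv2_le y.2]

end SK

end

section

namespace SK
open SJ Set Filter Topology MeasureTheory Metric Function
open scoped ENNReal

namespace IntX

theorem cover (e : ℕ → ℝ) (t : ℝ) (h0 : |t| ≤ 4 * e 0) (ht : t ≤ 0) (n : ℕ) :
    ∃ i ≤ n, |t| ≤ 4 * e i ∧ (i = n ∨ t ≤ -4 * e (i + 1)) := by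
  induction n with
  | zero => exact ⟨0, le_rfl, h0, Or.inl rfl⟩
  | succ n ih =>
    obtain ⟨i, hi, h1, h2⟩ := ih
    by_cases h : t ≤ -4 * e (i + 1)
    · exact ⟨i, by omega, h1, Or.inr h⟩
    · obtain rfl : i = n := h2.resolve_right h
      refine ⟨i + 1, le_rfl, ?_, Or.inl rfl⟩
      rw [abs_of_nonpos ht]
      linarith [not_le.1 h]

theorem add_pow_le {a b q : ℝ} (ha : 0 ≤ a) (hb : 0 ≤ b) (hq : 0 ≤ q) :
    (a + b) ^ q ≤ 2 ^ q * (a ^ q + b ^ q) := by
  have h1 : 0 ≤ a ^ q := by positivity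
  have h2 : 0 ≤ b ^ q := by positivity
  have h3 : (0 : ℝ) ≤ 2 ^ q := by positivity
  rcases le_total a b with h | h
  · calc (a + b) ^ q ≤ (2 * b) ^ q := by gcongr; linarith
      _ = 2 ^ q * b ^ q := Real.mul_rpow (by norm_num) hb
      _ ≤ _ := by gcongr; linarith
  · calc (a + b) ^ q ≤ (2 * a) ^ q := by gcongr; linarith
      _ = 2 ^ q * a ^ q := Real.mul_rpow (by norm_num) ha
      _ ≤ _ := by gcongr; linarith

theorem geo (j : ℕ) : ((j : ℝ) + 2) / 2 ^ j ≤ 3 * (3 / 4) ^ j := by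
  have h : ∀ j : ℕ, ((j : ℝ) + 2) ≤ 3 * (3 / 2) ^ j := by
    intro j
    induction j with
    | zero => norm_num
    | succ j ih =>
      have : (1 : ℝ) ≤ (3 / 2) ^ j := one_le_pow₀ (by norm_num)
      push_cast
      rw [pow_succ]
      linarith
  rw [div_le_iff₀ (by positivity), mul_assoc, ← mul_pow]
  norm_num
  exact h j

theorem gs_cd {E : Type} [NormedAddCommGroup E] [NormedSpace ℝ E] (a : ℕ → E → E)
    (h : ∀ j, ContDiff ℝ 2 (a j)) (n : ℕ) : ContDiff ℝ 2 (Gs a n) := by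
  induction n with
  | zero => exact contDiff_id
  | succ n ih => exact (h n).comp ih

theorem gs_inj {E : Type} (a : ℕ → E → E) (h : ∀ j, Injective (a j)) (n : ℕ) :
    Injective (Gs a n) := by
  induction n with
  | zero => exact injective_id
  | succ n ih => exact (h n).comp ih

theorem num {C' C V q e : ℝ} (i j : ℕ) (hC' : 0 ≤ C') (_hC : 0 ≤ C) (hV : 0 ≤ V) (hq : 1 ≤ q)
    (he : 0 < e) (he1 : 2 ^ i * e ≤ 1) :
    C' * (2 ^ i / 2 ^ j) / e ^ q * (2 ^ q * (C * e ^ (q - 1) / 2 ^ i + (e ^ 2) ^ q * V) *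
      (10 * e)) ≤ 10 * C' * 2 ^ q * (C + V) / 2 ^ j := by
  have h2 : (1 : ℝ) ≤ 2 ^ i := one_le_pow₀ (by norm_num)
  have e1 : e ≤ 1 := by nlinarith
  have hp : 0 < e ^ q := by positivity
  have hp1 : e ^ q ≤ 1 := Real.rpow_le_one he.le e1 (by linarith)
  have h3 : e ^ (q - 1) = e ^ q / e := Real.rpow_sub_one he.ne' q
  have h4 : (e ^ 2) ^ q = e ^ q * e ^ q := by rw [pow_two, Real.mul_rpow he.le he.le]
  rw [h3, h4]
  have h5 : C' * (2 ^ i / 2 ^ j) / e ^ q *
      (2 ^ q * (C * (e ^ q / e) / 2 ^ i + e ^ q * e ^ q * V) * (10 * e)) =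
      10 * C' * 2 ^ q * (C + (2 ^ i * e) * e ^ q * V) / 2 ^ j := by
    field_simp
  rw [h5]
  have h6 : (2 ^ i * e) * e ^ q ≤ 1 := mul_le_one₀ he1 hp.le hp1
  have h7 : (2 ^ i * e) * e ^ q * V ≤ V := by nlinarith
  gcongr

theorem strip {ι : Type} [Fintype ι] (G : (ι → ℝ) × ℝ → (ι → ℝ) × ℝ) (hG : ContDiff ℝ 2 G)
    (hi : Injective G) (S : Set ((ι → ℝ) × ℝ)) (hS : MeasurableSet S) (U : (ι → ℝ) → ℝ)
    (hU : Continuous U) (hU0 : ∀ x, 0 ≤ U x) (q e A R : ℝ) (hq : 1 ≤ q) (he : 0 < e) (hA : 0 ≤ A)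
    (hR : 0 ≤ R) (F : (ι → ℝ) × ℝ → ℝ)
    (hF : ∀ y ∈ S, F y ≤ A * ((U (G y).1 + e ^ 2) / e) ^ q * |(fderiv ℝ G y).det|)
    (him : G '' S ⊆ ball 0 2 ×ˢ Icc (-(5 * e)) (5 * e))
    (hint : ∫⁻ x in ball (0 : ι → ℝ) 2, ENNReal.ofReal (U x ^ q) ≤ ENNReal.ofReal R) :
    ∫⁻ y in S, ENNReal.ofReal (F y) ≤ ENNReal.ofReal (A / e ^ q * (2 ^ q * (R + (e ^ 2) ^ q *
      (volume (ball (0 : ι → ℝ) 2)).toReal) * (10 * e))) := by
  have hq0 : 0 ≤ q := by linarith
  set V := (volume (ball (0 : ι → ℝ) 2)).toReal with hV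
  have hV0 : 0 ≤ V := ENNReal.toReal_nonneg
  have hV1 : volume (ball (0 : ι → ℝ) 2) = ENNReal.ofReal V :=
    (ENNReal.ofReal_toReal measure_ball_lt_top.ne).symm
  let f : (ι → ℝ) → ℝ≥0∞ := fun x => ENNReal.ofReal ((U x + e ^ 2) ^ q)
  have hfm : Measurable f := ENNReal.measurable_ofReal.comp
    ((hU.add continuous_const).rpow_const fun _ => Or.inr hq0).measurable
  have h1 : ∫⁻ x in ball (0 : ι → ℝ) 2, f x ≤ ENNReal.ofReal (2 ^ q * (R + (e ^ 2) ^ q * V)) := by
    calc ∫⁻ x in ball (0 : ι → ℝ) 2, f x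
        ≤ ∫⁻ x in ball (0 : ι → ℝ) 2, ENNReal.ofReal (2 ^ q) *
            (ENNReal.ofReal (U x ^ q) + ENNReal.ofReal ((e ^ 2) ^ q)) := by
          refine lintegral_mono fun x => ?_
          have := hU0 x
          rw [← ENNReal.ofReal_add (by positivity) (by positivity),
            ← ENNReal.ofReal_mul (by positivity)]
          exact ENNReal.ofReal_le_ofReal (add_pow_le this (by positivity) hq0)
      _ = ENNReal.ofReal (2 ^ q) * ((∫⁻ x in ball (0 : ι → ℝ) 2, ENNReal.ofReal (U x ^ q)) +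
            ENNReal.ofReal ((e ^ 2) ^ q) * ENNReal.ofReal V) := by
          rw [lintegral_const_mul' _ _ ENNReal.ofReal_ne_top,
            lintegral_add_right _ measurable_const, setLIntegral_const, hV1]
      _ ≤ ENNReal.ofReal (2 ^ q) * (ENNReal.ofReal R +
            ENNReal.ofReal ((e ^ 2) ^ q) * ENNReal.ofReal V) := by gcongr
      _ = _ := by
          rw [← ENNReal.ofReal_mul (by positivity),
            ← ENNReal.ofReal_add hR (by positivity), ← ENNReal.ofReal_mul (by positivity)]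
  have h2 : ∫⁻ z in ball (0 : ι → ℝ) 2 ×ˢ Icc (-(5 * e)) (5 * e), f z.1 =
      (∫⁻ x in ball (0 : ι → ℝ) 2, f x) * ENNReal.ofReal (10 * e) := by
    rw [Measure.volume_eq_prod, setLIntegral_prod (fun z : (ι → ℝ) × ℝ => f z.1)
      (hfm.comp measurable_fst).aemeasurable]
    simp only [setLIntegral_const, Real.volume_Icc]
    rw [lintegral_mul_const _ hfm]
    congr 2
    ring
  have : (volume : Measure ((ι → ℝ) × ℝ)).IsAddHaarMeasure :=
    Measure.prod.instIsAddHaarMeasure _ _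
  have h3 := lintegral_image_eq_lintegral_abs_det_fderiv_mul (volume : Measure ((ι → ℝ) × ℝ)) hS
    (fun y _ => ((hG.differentiable (by simp)) y).hasFDerivAt.hasFDerivWithinAt) hi.injOn
    (fun z => f z.1)
  have hp : 0 < e ^ q := by positivity
  calc ∫⁻ y in S, ENNReal.ofReal (F y)
      ≤ ∫⁻ y in S, ENNReal.ofReal (A / e ^ q) *
          (ENNReal.ofReal |(fderiv ℝ G y).det| * f (G y).1) := by
        refine setLIntegral_mono' hS fun y hy => ?_
        have := hU0 (G y).1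
        rw [← ENNReal.ofReal_mul (abs_nonneg _), ← ENNReal.ofReal_mul (by positivity)]
        refine ENNReal.ofReal_le_ofReal ((hF y hy).trans (le_of_eq ?_))
        rw [Real.div_rpow (by positivity) he.le]
        ring
    _ = ENNReal.ofReal (A / e ^ q) * ∫⁻ z in G '' S, f z.1 := by
        rw [lintegral_const_mul' _ _ ENNReal.ofReal_ne_top, h3]
    _ ≤ ENNReal.ofReal (A / e ^ q) * (ENNReal.ofReal (2 ^ q * (R + (e ^ 2) ^ q * V)) *
          ENNReal.ofReal (10 * e)) := by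
        gcongr
        refine (lintegral_mono_set him).trans ?_
        rw [h2]
        gcongr
    _ = _ := by
        rw [← ENNReal.ofReal_mul (by positivity), ← ENNReal.ofReal_mul (by positivity)]

end IntX

theorem intS (hC : CostStmt) (hL : LocStmt) (hE : StripEqStmt) : IntStmt := by
  intro ι _ _ q lam K C Bs B act H g U α ρ P c w hT hF
  obtain ⟨C', hC0, hC⟩ := hC ι q lam K C Bs B act H g U α ρ P c w hT hF
  have hL := hL ι q lam K C Bs B act H g U α ρ P c w hT hF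
  have hE := hE ι q lam K C Bs B act H g U α ρ P c w hT hF
  have l0 := hF.l0
  have l1 := hF.l1
  have q1 := hF.q1
  have C0 := hT.C0
  set V := (volume (ball (0 : ι → ℝ) 2)).toReal with hV
  have hV0 : 0 ≤ V := ENNReal.toReal_nonneg
  have hM : 0 ≤ 10 * C' * 2 ^ q * (C + V) := by positivity
  refine ⟨10 * C' * 2 ^ q * (C + V) * 3, fun j => ?_⟩
  have hinj : ∀ k, Injective (α k) := fun k y y' h => by
    have := hF.aal k y y'
    rw [h, sub_self, norm_zero, mul_zero] at this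
    exact sub_eq_zero.1 (norm_le_zero_iff.1 this)
  let S : ℕ → Set ((ι → ℝ) × ℝ) := fun i => ball 0 1 ∩
    ({y | |y.2| ≤ 4 * el lam i} ∩ {y | i = j + 1 ∨ y.2 ≤ -4 * el lam (i + 1)})
  have hS : ∀ i, MeasurableSet (S i) := fun i => by
    refine measurableSet_ball.inter (MeasurableSet.inter ?_ ?_)
    · exact measurableSet_le (by fun_prop) measurable_const
    · exact (MeasurableSet.const _).union (measurableSet_le measurable_snd measurable_const)
  let Z : Set ((ι → ℝ) × ℝ) := {y | 4 * el lam (j + 1) ≤ y.2}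
  have hZ : MeasurableSet Z := measurableSet_le measurable_const measurable_snd
  have hcov : ball (0 : (ι → ℝ) × ℝ) 1 ⊆ (⋃ i : Fin (j + 2), S i) ∪ Z := by
    intro y hy
    by_cases h : 4 * el lam (j + 1) ≤ y.2
    · exact Or.inr h
    left
    have hy1 : |y.2| ≤ 4 * el lam 0 := by
      rw [el_zero]
      have := norm_snd_le y
      rw [mem_ball_zero_iff] at hy
      rw [Real.norm_eq_abs] at this
      linarith
    rcases le_total y.2 0 with h0 | h0
    · obtain ⟨i, hi, h1, h2⟩ := IntX.cover (el lam) y.2 hy1 h0 (j + 1)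
      exact mem_iUnion.2 ⟨⟨i, by omega⟩, hy, h1, h2⟩
    · refine mem_iUnion.2 ⟨⟨j + 1, by omega⟩, hy, ?_, Or.inl rfl⟩
      show |y.2| ≤ 4 * el lam (j + 1)
      rw [abs_of_nonneg h0]
      exact (not_le.1 h).le
  have hz : ∫⁻ y in Z,
      ENNReal.ofReal (‖D2 (FF2 H P ρ α (j + 1)) y - D2 (FF2 H P ρ α j) y‖ ^ q) = 0 := by
    refine setLIntegral_eq_zero hZ fun y hy => ?_
    show ENNReal.ofReal _ = 0
    rw [D2_congr ((hL j y).2.1 hy), sub_self, ContinuousLinearMap.opNorm_zero,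
      Real.zero_rpow (by linarith), ENNReal.ofReal_zero]
  have hs : ∀ i : Fin (j + 2), ∫⁻ y in S i,
      ENNReal.ofReal (‖D2 (FF2 H P ρ α (j + 1)) y - D2 (FF2 H P ρ α j) y‖ ^ q) ≤
        ENNReal.ofReal (10 * C' * 2 ^ q * (C + V) / 2 ^ j) := by
    rintro ⟨i, hi⟩
    have he := el_pos l0 i
    have he1 : 2 ^ i * el lam i ≤ 1 := by
      unfold el
      rw [← mul_div_assoc, ← mul_pow]
      have : (2 * lam) ^ i ≤ 1 := pow_le_one₀ (by positivity) (by linarith)
      linarith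
    have he2 : el lam i ≤ 1 / 4 := by
      rw [← el_zero lam]
      exact el_anti l0 (by linarith) (Nat.zero_le i)
    refine (IntX.strip (Gs α (j + 2)) (IntX.gs_cd α hF.aC _) (IntX.gs_inj α hinj _) (S i) (hS i)
      (U i) (hT.uc i) (hT.u0 i) q (el lam i) (C' * (2 ^ i / 2 ^ j))
      (C * el lam i ^ (q - 1) / 2 ^ i) q1 he (by positivity) (by positivity) _
      (fun y hy => hC j i y (by omega) hy.2.1 hy.2.2) ?_ (hT.uint i)).trans
      (ENNReal.ofReal_le_ofReal (IntX.num i j hC0 C0 hV0 q1 he he1))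
    rintro _ ⟨y, ⟨hy, hy1, -⟩, rfl⟩
    have hy2 : |y.2| ≤ 4 * el lam i := hy1
    have hd := ((hE i 0 y (by linarith)).1 (j + 2 - i)).2
    rw [show i + (j + 2 - i) = j + 2 by omega] at hd
    rw [mem_ball_zero_iff] at hy
    constructor
    · rw [mem_ball_zero_iff]
      have h1 := norm_fst_le (Gs α (j + 2) y)
      have h2 := norm_le_insert' (Gs α (j + 2) y) y
      linarith
    · have h1 := norm_snd_le (Gs α (j + 2) y - y)
      rw [Real.norm_eq_abs, Prod.snd_sub] at h1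
      have h3 := abs_le.1 (h1.trans hd)
      have h4 := abs_le.1 hy2
      constructor <;> linarith [h3.1, h3.2, h4.1, h4.2]
  refine (lintegral_mono_set hcov).trans ((lintegral_union_le _ _ _).trans ?_)
  rw [hz, add_zero]
  refine (lintegral_iUnion_le _ _).trans ?_
  rw [tsum_fintype]
  refine (Finset.sum_le_sum fun i _ => hs i).trans ?_
  rw [Finset.sum_const, Finset.card_univ, Fintype.card_fin, nsmul_eq_mul,
    ← ENNReal.ofReal_natCast, ← ENNReal.ofReal_mul (by positivity)]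
  refine ENNReal.ofReal_le_ofReal ?_
  have := mul_le_mul_of_nonneg_left (IntX.geo j) hM
  push_cast
  calc ((j : ℝ) + 2) * (10 * C' * 2 ^ q * (C + V) / 2 ^ j)
      = 10 * C' * 2 ^ q * (C + V) * (((j : ℝ) + 2) / 2 ^ j) := by ring
    _ ≤ _ := this.trans (le_of_eq (by ring))

end SK

end

section

namespace SK
open SJ Set Filter Topology MeasureTheory Metric Function
open scoped ENNReal

namespace SignX

variable {ι : Type} [Fintype ι]

theorem det_Phi {y : (ι → ℝ) × ℝ} (h0 : y.2 ≠ 0) (h : |y.2| ≤ 2) :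
    0 < (fderiv ℝ (Phi : (ι → ℝ) × ℝ → (ι → ℝ) × ℝ) y).det := by
  have := det_vert (u := fun z : (ι → ℝ) × ℝ => phi z.2) (y := y)
    ((phi_c2b.diff _).comp y differentiableAt_snd)
  exact lt_of_lt_of_eq (phi_deriv_pos h0 h) this.symm

theorem mem_ball_of {s : ℝ} (h1 : -1 ≤ s) (h2 : s ≤ 1 / 2) {y : (ι → ℝ) × ℝ}
    (hy : y ∈ ball (0 : ι → ℝ) 1 ×ˢ Ioo s (s + 1 / 2)) : y ∈ ball (0 : (ι → ℝ) × ℝ) 1 := by
  rw [← Prod.mk_zero_zero, ← ball_prod_same]
  refine ⟨hy.1, ?_⟩
  rw [mem_ball_zero_iff, Real.norm_eq_abs, abs_lt]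
  exact ⟨by linarith [hy.2.1], by linarith [hy.2.2]⟩

theorem vol_box (s : ℝ) : volume (ball (0 : ι → ℝ) 1 ×ˢ Ioo s (s + 1 / 2)) =
    ENNReal.ofReal (2 ^ Fintype.card ι / 2) := by
  rw [Measure.volume_eq_prod, Measure.prod_prod, Real.volume_pi_ball _ one_pos, Real.volume_Ioo,
    add_sub_cancel_left, ← ENNReal.ofReal_mul (by positivity)]
  congr 1
  rw [mul_one]
  ring

theorem vol_ball : volume (ball (0 : (ι → ℝ) × ℝ) 2) =
    ENNReal.ofReal (4 ^ (Fintype.card ι + 1)) := by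
  rw [← Prod.mk_zero_zero, ← ball_prod_same, Measure.volume_eq_prod, Measure.prod_prod,
    Real.volume_pi_ball _ two_pos, Real.volume_ball, ← ENNReal.ofReal_mul (by positivity)]
  congr 1
  norm_num [pow_succ]

theorem cheb {f : (ι → ℝ) × ℝ → (ι → ℝ) × ℝ} (hf : Differentiable ℝ f) (hi : Injective f)
    (hd : ∀ y, ‖f y - y‖ ≤ 1) {δ : ℝ} (hδ : 0 ≤ δ) :
    volume {y | y ∈ ball (0 : (ι → ℝ) × ℝ) 1 ∧ 1 ≤ δ * |(fderiv ℝ f y).det|} ≤
      ENNReal.ofReal (δ * 4 ^ (Fintype.card ι + 1)) := by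
  have inst : Measure.IsAddHaarMeasure (volume : Measure ((ι → ℝ) × ℝ)) :=
    Measure.prod.instIsAddHaarMeasure _ _
  set S := {y | y ∈ ball (0 : (ι → ℝ) × ℝ) 1 ∧ 1 ≤ δ * |(fderiv ℝ f y).det|} with hS
  have m1 : Measurable fun y => (fderiv ℝ f y).det :=
    ContinuousLinearMap.continuous_det.measurable.comp (measurable_fderiv ℝ f)
  have m2 : MeasurableSet S :=
    measurableSet_ball.inter (measurableSet_le measurable_const
      (measurable_const.mul (continuous_abs.measurable.comp m1)))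
  have h1 := lintegral_abs_det_fderiv_le_addHaar_image volume m2
    (fun x _ => (hf x).hasFDerivAt.hasFDerivWithinAt) hi.injOn
  have h2 : f '' S ⊆ ball 0 2 := by
    rintro _ ⟨y, hy, rfl⟩
    have a := mem_ball_zero_iff.1 hy.1
    have b := norm_add_le (f y - y) y
    rw [sub_add_cancel] at b
    rw [mem_ball_zero_iff]
    linarith [hd y]
  calc volume S = ∫⁻ _ in S, 1 := by simp
    _ ≤ ∫⁻ y in S, ENNReal.ofReal δ * ENNReal.ofReal |(fderiv ℝ f y).det| := by
        refine setLIntegral_mono' m2 fun y hy => ?_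
        rw [← ENNReal.ofReal_mul hδ]
        exact ENNReal.one_le_ofReal.2 hy.2
    _ = ENNReal.ofReal δ * ∫⁻ y in S, ENNReal.ofReal |(fderiv ℝ f y).det| :=
        lintegral_const_mul' _ _ ENNReal.ofReal_ne_top
    _ ≤ ENNReal.ofReal δ * ENNReal.ofReal (4 ^ (Fintype.card ι + 1)) := by
        gcongr
        rw [← vol_ball]
        exact h1.trans (measure_mono h2)
    _ = _ := (ENNReal.ofReal_mul hδ).symm

theorem gs_diff {α : ℕ → (ι → ℝ) × ℝ → (ι → ℝ) × ℝ} (h : ∀ j, Differentiable ℝ (α j)) (j : ℕ) :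
    Differentiable ℝ (Gs α j) := by
  induction j with
  | zero => exact differentiable_id
  | succ j ih => exact (h j).comp ih

theorem gs_inj {α : ℕ → (ι → ℝ) × ℝ → (ι → ℝ) × ℝ} (h : ∀ j, Injective (α j)) (j : ℕ) :
    Injective (Gs α j) := by
  induction j with
  | zero => exact injective_id
  | succ j ih => exact (h j).comp ih

theorem gs_det {α : ℕ → (ι → ℝ) × ℝ → (ι → ℝ) × ℝ} (h : ∀ j, Differentiable ℝ (α j)) (j : ℕ)
    (y : (ι → ℝ) × ℝ) : |(fderiv ℝ (Gs α (j + 1)) y).det| =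
      |(fderiv ℝ (α j) (Gs α j y)).det| * |(fderiv ℝ (Gs α j) y).det| := by
  rw [← abs_mul, ← det_fderiv_comp (h j _) (gs_diff h j y)]
  rfl

theorem gs_low {α : ℕ → (ι → ℝ) × ℝ → (ι → ℝ) × ℝ} (h : ∀ j, Differentiable ℝ (α j))
    {B : ℕ → ℝ} (hB : ∀ j y, 1 ≤ B j * |(fderiv ℝ (α j) y).det|) (j : ℕ) (y : (ι → ℝ) × ℝ) :
    1 ≤ (∏ k ∈ Finset.range j, B k) * |(fderiv ℝ (Gs α j) y).det| := by
  induction j with
  | zero =>
    have : (Gs α 0 : (ι → ℝ) × ℝ → (ι → ℝ) × ℝ) = id := rfl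
    rw [this, fderiv_id]
    simp [ContinuousLinearMap.det]
  | succ j ih =>
    rw [gs_det h, Finset.prod_range_succ]
    have := one_le_mul_of_one_le_of_one_le ih (hB j (Gs α j y))
    linarith

end SignX

open SignX

theorem signS (hL : LocStmt) : SignStmt := by
  intro ι _ _ q lam K C Bs B act H g U α ρ P c w hT hF
  have hL := hL ι q lam K C Bs B act H g U α ρ P c w hT hF
  simp only at hL
  have l0 := hF.l0
  have l1 := hF.l1
  have e0 : el lam 0 = 1 / 4 := el_zero lam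
  have e1 : ∀ j, el lam (j + 1) ≤ 1 / 400 := fun j => by
    have := el_lt l0 l1 (Nat.succ_pos j)
    rw [e0] at this
    linarith
  have e2 : ∀ j, el lam j ≤ 1 / 4 := fun j => e0 ▸ el_anti l0 (by linarith) (Nat.zero_le j)
  have ad : ∀ j, Differentiable ℝ (α j) := fun j => (hF.aC j).differentiable (by norm_num)
  have ai : ∀ j, Injective (α j) := fun j y y' h => by
    have := hF.aal j y y'
    rw [h, sub_self, norm_zero, mul_zero] at this
    exact sub_eq_zero.1 (norm_le_zero_iff.1 this)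
  have hdisp : ∀ j y, ‖Gs α j y - y‖ ≤ (1 / 2 - 2 * el lam j) / 100 := fun j y => by
    have a := gs_disp α (fun j => el lam j / 100) hF.ad j y
    have b := el_sum l0 l1 0 j
    simp only [zero_add] at b
    rw [← Finset.sum_div] at a
    rw [e0] at b
    linarith
  have hK : 1 ≤ K := by
    refine le_trans ?_ hF.K1
    rw [le_div_iff₀ l0]
    linarith
  have hw : ∀ j y, 1 ≤ (K ^ 3 * w j y) ^ q := fun j y =>
    Real.one_le_rpow (one_le_mul_of_one_le_of_one_le (one_le_pow₀ hK) (hF.w1 j y))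
      (by linarith [hF.q1])
  have eF : ∀ z, FF2 H P ρ α 0 z = Phi (H 0 (P 0 (ρ 0 (α 0 z)))) := fun _ => rfl
  have hoff := (hT.hm 0).hoff
  rw [e0] at hoff
  refine ⟨ball (0 : ι → ℝ) 1 ×ˢ Ioo (1 / 2) (1 / 2 + 1 / 2),
    {y | y ∈ ball (0 : ι → ℝ) 1 ×ˢ Ioo (-1 : ℝ) (-1 + 1 / 2) ∧ ∀ j, c (j + 1) (Gs α (j + 1) y) = 1},
    fun y hy => mem_ball_of (by norm_num) le_rfl hy,
    fun y hy => mem_ball_of le_rfl (by norm_num) hy.1, ?_, ?_, fun y hy => ⟨?_, fun j => ?_⟩,
    fun y hy => ⟨?_, fun j => ?_⟩⟩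
  · rw [vol_box]
    exact ENNReal.ofReal_pos.2 (by positivity)
  · rw [pos_iff_ne_zero]
    intro h0
    set S : ℕ → Set ((ι → ℝ) × ℝ) := fun j => {y | y ∈ ball (0 : (ι → ℝ) × ℝ) 1 ∧
      1 ≤ 1 / 2 ^ (Fintype.card ι + 5) / 2 ^ j * |(fderiv ℝ (Gs α (j + 1)) y).det|} with hS
    have a0 : ∀ j, volume (S j) ≤ ENNReal.ofReal
        (1 / 2 ^ (Fintype.card ι + 5) / 2 ^ j * 4 ^ (Fintype.card ι + 1)) := fun j =>
      cheb (gs_diff ad _) (gs_inj ai _)
        (fun y => (hdisp _ y).trans (by linarith [el_pos l0 (j + 1)])) (by positivity)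
    have a1 : volume (⋃ j, S j) ≤ ENNReal.ofReal (2 ^ Fintype.card ι / 4) := by
      refine (measure_iUnion_le _).trans ((ENNReal.tsum_le_tsum a0).trans
        (ENNReal.tsum_le_of_sum_range_le fun n => ?_))
      rw [← ENNReal.ofReal_sum_of_nonneg fun j _ => by positivity]
      refine ENNReal.ofReal_le_ofReal ?_
      have : ∀ j : ℕ, (1 : ℝ) / 2 ^ (Fintype.card ι + 5) / 2 ^ j * 4 ^ (Fintype.card ι + 1) =
          2 ^ Fintype.card ι / 8 * (1 / 2) ^ j := fun j => by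
        have : (4 : ℝ) ^ (Fintype.card ι + 1) = 2 ^ Fintype.card ι * 2 ^ Fintype.card ι * 4 := by
          rw [pow_succ, ← mul_pow]; norm_num
        rw [this, one_div_pow]
        field_simp
        ring
      simp only [this]
      rw [← Finset.mul_sum]
      have b := sum_geometric_two_le n
      have : (0 : ℝ) < 2 ^ Fintype.card ι := by positivity
      nlinarith
    have a3 : ball (0 : ι → ℝ) 1 ×ˢ Ioo (-1 : ℝ) (-1 + 1 / 2) ⊆
        {y | y ∈ ball (0 : ι → ℝ) 1 ×ˢ Ioo (-1 : ℝ) (-1 + 1 / 2) ∧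
          ∀ j, c (j + 1) (Gs α (j + 1) y) = 1} ∪ ⋃ j, S j := by
      intro y hy
      by_cases h : ∀ j, c (j + 1) (Gs α (j + 1) y) = 1
      · exact Or.inl ⟨hy, h⟩
      classical
      have hex : ∃ j, c (j + 1) (Gs α (j + 1) y) ≠ 1 := not_forall.1 h
      have hj := Nat.find_spec hex
      have hmin : c (Nat.find hex) (Gs α (Nat.find hex) y) = 1 := by
        rcases hk : Nat.find hex with _ | k
        · exact hF.c0 _
        · exact not_not.1 (Nat.find_min hex (by omega))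
      generalize Nat.find hex = j at hj hmin
      refine Or.inr (mem_iUnion.2 ⟨j, mem_ball_of le_rfl (by norm_num) hy, ?_⟩)
      have d1 := abs_le.1 (show |(Gs α j y).2 - y.2| ≤ _ from
        (norm_snd_le (Gs α j y - y)).trans (hdisp j y))
      have h1 := hy.2.1
      have h2 := hy.2.2
      have h3 := hF.wnew j (Gs α j y) (by linarith [el_pos l0 j]) (by linarith [e2 j]) hj hmin
      have h4 := gs_low ad (fun j y => (hw j y).trans (hF.wall j y)) j y
      have h5 : 0 ≤ ∏ k ∈ Finset.range j, B k :=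
        Finset.prod_nonneg fun k _ => by linarith [hF.B1 k]
      have h6 := (le_mul_of_one_le_left h5 (hw j (Gs α j y))).trans h3
      rw [gs_det ad, ← mul_assoc]
      exact h4.trans (mul_le_mul_of_nonneg_right h6 (abs_nonneg _))
    have a4 := (measure_mono (μ := volume) a3).trans (measure_union_le _ _)
    rw [h0, zero_add, vol_box] at a4
    have := (ENNReal.ofReal_le_ofReal_iff (by positivity)).1 (a4.trans a1)
    have b : (0 : ℝ) < 2 ^ Fintype.card ι := by positivity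
    linarith
  · have h1 := hy.2.1
    have h2 := hy.2.2
    have : FF2 H P ρ α 0 =ᶠ[𝓝 y] Phi := by
      filter_upwards [(continuous_snd.tendsto y).eventually (lt_mem_nhds h1)] with z hz
      rw [eF, hF.p0, hF.atop 0 z (by linarith), hF.rtop 0 z (by linarith),
        hoff z (le_trans (by linarith) (le_abs_self _))]
    rw [this.fderiv_eq]
    exact det_Phi (by linarith) (abs_le.2 ⟨by linarith, by linarith⟩)
  · induction j with
    | zero => rfl
    | succ j ih =>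
      rw [← ih]
      exact ((hL j y).2.1 (by linarith [hy.2.1, e1 j])).fderiv_eq
  · have h1 := hy.1.2.1
    have h2 := hy.1.2.2
    have hd : ∀ z, |(ρ 0 (α 0 z)).2 - z.2| ≤ 1 / 8 := fun z => by
      have a := abs_le.1 (show |(ρ 0 (α 0 z)).2 - (α 0 z).2| ≤ _ from
        (norm_snd_le (ρ 0 (α 0 z) - α 0 z)).trans (hF.rd 0 _))
      have b := abs_le.1 (show |(α 0 z).2 - z.2| ≤ _ from
        (norm_snd_le (α 0 z - z)).trans (hF.ad 0 _))
      rw [abs_le]
      constructor <;> linarith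
    have : FF2 H P ρ α 0 =ᶠ[𝓝 y] fun z => Phi (ρ 0 (α 0 z)) := by
      filter_upwards [(continuous_snd.tendsto y).eventually (gt_mem_nhds h2)] with z hz
      rw [eF, hF.p0, hoff _ (le_trans (by linarith [(abs_le.1 (hd z)).2]) (neg_le_abs _))]
    have d1 := abs_le.1 (hd y)
    rw [this.fderiv_eq, det_fderiv_comp (f := fun z => ρ 0 (α 0 z)) (Phi_c2b.diff _)
      (((hF.rC 0).diff _).comp y (ad 0 _)), det_fderiv_comp ((hF.rC 0).diff _) (ad 0 _)]
    have hc : c (0 + 1) (α 0 y) ≠ 0 := by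
      have : c (0 + 1) (α 0 y) = 1 := hy.2 0
      rw [this]
      exact one_ne_zero
    refine mul_neg_of_pos_of_neg (det_Phi (by linarith) (abs_le.2 ⟨by linarith, by linarith⟩))
      (mul_neg_of_neg_of_pos (hF.rdet 0 _ hc)
        (det_pos_of_antilip (hF.aC 0) (hF.aal 0) (0, 1) ?_ y))
    filter_upwards [(continuous_snd.tendsto ((0, 1) : (ι → ℝ) × ℝ)).eventually
      (lt_mem_nhds (show (0 : ℝ) < 1 from one_pos))] with z hz
    exact hF.atop 0 z (by linarith)
  · induction j with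
    | zero => rfl
    | succ j ih =>
      rw [← ih]
      refine ((hL j y).1 (by linarith [hy.1.2.2, e1 j]) ?_ ?_).fderiv_eq
      · rw [hy.2 j]; exact one_ne_zero
      · rw [hy.2 (j + 1)]; exact one_ne_zero

end SK

end

section

namespace SK

theorem allT : TPackStmt :=
  tPack smS (tStep smS (twS smS stLg) prof (tMove impEx (impB impForm) sumProd) (tLg smS powLg)
    (tCol (tEst impForm) sumProd) (tU uEst) (tInt avg2 (potS smS)))

theorem allInt : IntStmt :=
  intS (costS locS (stripS chainS stripEq) nInd stripEq) locS stripEq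

theorem allSign : SignStmt := signS locS

theorem allWrap : Wrap2Stmt := wrap2 poinc

end SK

end

section

namespace SK
open SJ Set Filter Topology MeasureTheory Metric Function
open scoped ENNReal

namespace GlueX

variable {ι : Type} [Fintype ι]

/-- the glued weights -/
noncomputable def gl (a b lam : ℝ) (f : ℕ → ι → (ι → ℝ) → ℝ) : ℕ → ι → (ι → ℝ) × ℝ → ℝ
  | 0 => fun k y => f 0 k y.1
  | j + 1 => fun k y => 1 - (1 - st (8 * (-y.2 / el lam (j + 1) - a)) * gl a b lam f j k y) *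
      (1 - st (8 * (y.2 / el lam (j + 1) + b)) * f (j + 1) k y.1)

omit [Fintype ι] in
theorem gl_succ (a b lam : ℝ) (f : ℕ → ι → (ι → ℝ) → ℝ) (j : ℕ) (k : ι) (y : (ι → ℝ) × ℝ) :
    gl a b lam f (j + 1) k y =
      1 - (1 - st (8 * (-y.2 / el lam (j + 1) - a)) * gl a b lam f j k y) *
        (1 - st (8 * (y.2 / el lam (j + 1) + b)) * f (j + 1) k y.1) := rfl

theorem mul01 {a b : ℝ} (ha : 0 ≤ a ∧ a ≤ 1) (hb : 0 ≤ b ∧ b ≤ 1) : 0 ≤ a * b ∧ a * b ≤ 1 :=
  ⟨mul_nonneg ha.1 hb.1, mul_le_one₀ ha.2 hb.1 hb.2⟩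

theorem sub01 {a : ℝ} (ha : 0 ≤ a ∧ a ≤ 1) : 0 ≤ 1 - a ∧ 1 - a ≤ 1 :=
  ⟨by linarith [ha.2], by linarith [ha.1]⟩

theorem st01 (u : ℝ) : 0 ≤ st u ∧ st u ≤ 1 := ⟨st_nonneg u, st_le_one u⟩

theorem abs01 {a : ℝ} (ha : 0 ≤ a ∧ a ≤ 1) : |a| ≤ 1 := abs_le.2 ⟨by linarith [ha.1], ha.2⟩

theorem st_pos {u : ℝ} (h : st u ≠ 0) : 0 < u := by
  by_contra hu
  exact h (st_zero (not_lt.1 hu))

omit [Fintype ι] in
theorem gl01 (a b lam : ℝ) {f : ℕ → ι → (ι → ℝ) → ℝ} (hf : ∀ j k x, 0 ≤ f j k x ∧ f j k x ≤ 1)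
    (j : ℕ) (k : ι) (y : (ι → ℝ) × ℝ) : 0 ≤ gl a b lam f j k y ∧ gl a b lam f j k y ≤ 1 := by
  induction j with
  | zero => exact hf 0 k y.1
  | succ j ih =>
    rw [gl_succ]
    exact sub01 (mul01 (sub01 (mul01 (st01 _) ih)) (sub01 (mul01 (st01 _) (hf _ _ _))))

theorem step {E : Type} [NormedAddCommGroup E] [NormedSpace ℝ E] {K0 K1 Ka t : ℝ}
    {s1 s2 G f : E → ℝ} (h0 : 1 ≤ K0) (h1 : 1 ≤ K1) (hKa : Ka = 2 * (16 * K0 + K1)) (ht : 0 < t)
    (b1 : ∀ y, 0 ≤ s1 y ∧ s1 y ≤ 1) (b2 : ∀ y, 0 ≤ s2 y ∧ s2 y ≤ 1)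
    (b3 : ∀ y, 0 ≤ G y ∧ G y ≤ 1) (b4 : ∀ y, 0 ≤ f y ∧ f y ≤ 1)
    (c1 : C2B s1 (8 * K0 * t) (64 * K0 * t ^ 2)) (c2 : C2B s2 (8 * K0 * t) (64 * K0 * t ^ 2))
    (c3 : C2B G (Ka / 100 * t) (Ka ^ 2 / 1000 * t ^ 2)) (c4 : C2B f (K1 * t) (K1 * t ^ 2)) :
    C2B (fun y => 1 - (1 - s1 y * G y) * (1 - s2 y * f y)) (Ka * t) (10 * Ka ^ 2 * t ^ 2) := by
  have x1 := (C2B.mul (fun y => abs01 (b1 y)) c1 (fun y => abs01 (b3 y)) c3).const_sub 1
  have x2 := (C2B.mul (fun y => abs01 (b2 y)) c2 (fun y => abs01 (b4 y)) c4).const_sub 1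
  have x3 := (C2B.mul (fun y => abs01 (sub01 (mul01 (b1 y) (b3 y)))) x1
    (fun y => abs01 (sub01 (mul01 (b2 y) (b4 y)))) x2).const_sub 1
  refine x3.mono ?_ ?_
  · have : (8 * K0 + Ka / 100 + (8 * K0 + K1)) * t ≤ Ka * t :=
      mul_le_mul_of_nonneg_right (by linarith) ht.le
    linarith
  · have k0 : K0 ≤ Ka / 32 := by linarith
    have k1 : K1 ≤ Ka / 2 := by linarith
    have k2 : 1 ≤ Ka := by linarith
    have e1 : K0 * Ka ≤ Ka ^ 2 := by nlinarith
    have e2 : K0 * K1 ≤ Ka ^ 2 / 64 := by nlinarith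
    have e3 : K0 ^ 2 ≤ Ka ^ 2 / 1024 := by nlinarith
    have e4 : Ka * K1 ≤ Ka ^ 2 := by nlinarith
    have e5 : Ka ≤ Ka ^ 2 := by nlinarith
    have : (64 * K0 + 2 * (8 * K0) * (Ka / 100) + Ka ^ 2 / 1000 +
        2 * (8 * K0 + Ka / 100) * (8 * K0 + K1) + (64 * K0 + 2 * (8 * K0) * K1 + K1)) * t ^ 2 ≤
        10 * Ka ^ 2 * t ^ 2 :=
      mul_le_mul_of_nonneg_right (by nlinarith) (by positivity)
    linarith

theorem st_c {K0 ℓ : ℝ} (h : C2B st K0 K0) (hl : 0 < ℓ) (a : ℝ) :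
    C2B (fun y : (ι → ℝ) × ℝ => st (8 * (-y.2 / ℓ - a))) (8 * K0 * ℓ⁻¹) (64 * K0 * ℓ⁻¹ ^ 2) ∧
    C2B (fun y : (ι → ℝ) × ℝ => st (8 * (y.2 / ℓ + a))) (8 * K0 * ℓ⁻¹) (64 * K0 * ℓ⁻¹ ^ 2) := by
  have h8 : |(8 : ℝ)| = 8 := abs_of_pos (by norm_num)
  constructor
  · have := h.comp (C2B.const_mul 8
      (((C2B.snd' (E := ι → ℝ) (F := ℝ)).neg.div_const hl).sub_const a))
    rw [h8] at this
    refine this.mono (le_of_eq ?_) (le_of_eq ?_) <;> ring
  · have := h.comp (C2B.const_mul 8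
      (((C2B.snd' (E := ι → ℝ) (F := ℝ)).div_const hl).add_const a))
    rw [h8] at this
    refine this.mono (le_of_eq ?_) (le_of_eq ?_) <;> ring

theorem glC (a b : ℝ) {lam K0 K1 Ka : ℝ} {f : ℕ → ι → (ι → ℝ) → ℝ} (l0 : 0 < lam)
    (l1 : lam ≤ 1 / 100) (h0 : 1 ≤ K0) (h1 : 1 ≤ K1) (hKa : Ka = 2 * (16 * K0 + K1))
    (hst : C2B st K0 K0) (hf : ∀ j k x, 0 ≤ f j k x ∧ f j k x ≤ 1)
    (hc : ∀ j k, C2B (f j k) (K1 / el lam j) (K1 / el lam j ^ 2)) (j : ℕ) (k : ι) :
    C2B (gl a b lam f j k) (Ka * (el lam j)⁻¹) (10 * Ka ^ 2 * (el lam j)⁻¹ ^ 2) := by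
  have hc' : ∀ j, C2B (fun y : (ι → ℝ) × ℝ => f j k y.1) (K1 * (el lam j)⁻¹)
      (K1 * (el lam j)⁻¹ ^ 2) := fun j => by
    refine ((hc j k).comp (C2B.fst' (E := ι → ℝ) (F := ℝ))).mono (le_of_eq ?_) (le_of_eq ?_) <;>
      ring
  have k2 : 1 ≤ Ka := by linarith
  induction j with
  | zero =>
    have hp := inv_pos.2 (el_pos l0 0)
    refine (hc' 0).mono (mul_le_mul_of_nonneg_right (by linarith) hp.le)
      (mul_le_mul_of_nonneg_right (by nlinarith) (by positivity))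
  | succ j ih =>
    have hp := el_pos l0 (j + 1)
    have hq := el_pos l0 j
    have e : (el lam j)⁻¹ = lam * (el lam (j + 1))⁻¹ := by
      rw [el_succ]; field_simp
    have ht := inv_pos.2 hp
    have ih' : C2B (gl a b lam f j k) (Ka / 100 * (el lam (j + 1))⁻¹)
        (Ka ^ 2 / 1000 * (el lam (j + 1))⁻¹ ^ 2) := by
      rw [e] at ih
      refine ih.mono ?_ ?_
      · have : Ka * lam * (el lam (j + 1))⁻¹ ≤ Ka / 100 * (el lam (j + 1))⁻¹ :=
          mul_le_mul_of_nonneg_right (by nlinarith) ht.le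
        linarith
      · have l2 : lam ^ 2 ≤ 1 / 10000 := by nlinarith
        have : 10 * Ka ^ 2 * lam ^ 2 * (el lam (j + 1))⁻¹ ^ 2 ≤
            Ka ^ 2 / 1000 * (el lam (j + 1))⁻¹ ^ 2 :=
          mul_le_mul_of_nonneg_right (by nlinarith [sq_nonneg Ka]) (by positivity)
        linarith
    exact step h0 h1 hKa ht (fun _ => st01 _) (fun _ => st01 _) (gl01 a b lam hf j k)
      (fun y => hf _ _ _) (st_c hst hp a).1 (st_c hst hp b).2 ih' (hc' (j + 1))

theorem fst_le (y y' : (ι → ℝ) × ℝ) : ‖y.1 - y'.1‖ ≤ ‖y - y'‖ := norm_fst_le (y - y')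

theorem snd_le (y y' : (ι → ℝ) × ℝ) : |y.2 - y'.2| ≤ ‖y - y'‖ := norm_snd_le (y - y')

theorem el_le {lam : ℝ} (l0 : 0 < lam) (l1 : lam ≤ 1 / 100) (j : ℕ) :
    el lam (j + 1) ≤ el lam j := by
  have := el_pos l0 j
  rw [el_succ]; nlinarith

theorem gl_ra {lam : ℝ} {act req : ℕ → ι → (ι → ℝ) → ℝ} (l0 : 0 < lam) (l1 : lam ≤ 1 / 100)
    (h : ∀ j k x x', ‖x - x'‖ ≤ el lam j → req j k x' ≠ 0 → act j k x = 1) (j : ℕ) (k : ι)
    (y y' : (ι → ℝ) × ℝ) (hy : ‖y - y'‖ ≤ el lam j / 16)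
    (hr : gl (5 / 4) (11 / 4) lam req j k y' ≠ 0) : gl 1 3 lam act j k y = 1 := by
  induction j with
  | zero =>
    have := el_pos l0 0
    exact h 0 k y.1 y'.1 ((fst_le y y').trans (by linarith)) hr
  | succ j ih =>
    have hp := el_pos l0 (j + 1)
    have hle := el_le l0 l1 j
    have h2 := abs_le.1 ((snd_le y y').trans hy)
    rw [gl_succ] at hr ⊢
    by_cases c1 : st (8 * (-y'.2 / el lam (j + 1) - 5 / 4)) * gl (5 / 4) (11 / 4) lam req j k y' = 0
    · have c2 : st (8 * (y'.2 / el lam (j + 1) + 11 / 4)) * req (j + 1) k y'.1 ≠ 0 := by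
        intro c2
        rw [c1, c2] at hr
        norm_num at hr
      have d1 := st_pos (left_ne_zero_of_mul c2)
      have d2 := h (j + 1) k y.1 y'.1 ((fst_le y y').trans (by linarith)) (right_ne_zero_of_mul c2)
      have d3 : -(11 / 4) < y'.2 / el lam (j + 1) := by linarith
      rw [lt_div_iff₀ hp] at d3
      have d4 : -(23 / 8) ≤ y.2 / el lam (j + 1) := by
        rw [le_div_iff₀ hp]; linarith
      rw [d2, st_one (u := 8 * (y.2 / el lam (j + 1) + 3)) (by linarith)]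
      ring
    · have d1 := st_pos (left_ne_zero_of_mul c1)
      have d2 := ih (by linarith) (right_ne_zero_of_mul c1)
      have d3 : 5 / 4 < -y'.2 / el lam (j + 1) := by linarith
      rw [lt_div_iff₀ hp] at d3
      have d4 : 9 / 8 ≤ -y.2 / el lam (j + 1) := by
        rw [le_div_iff₀ hp]; linarith
      rw [d2, st_one (u := 8 * (-y.2 / el lam (j + 1) - 1)) (by linarith)]
      ring

theorem gl_many {lam : ℝ} {m2 : ℕ} {req : ℕ → ι → (ι → ℝ) → ℝ} (l0 : 0 < lam)
    (l1 : lam ≤ 1 / 100) (h : ∀ j x, ∃ T : Finset ι, m2 ≤ T.card ∧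
      ∀ k ∈ T, ∀ x', ‖x' - x‖ ≤ el lam j → req j k x' = 1) (j : ℕ) (y : (ι → ℝ) × ℝ) :
    ∃ T : Finset ι, m2 ≤ T.card ∧ ∀ k ∈ T, ∀ y', ‖y' - y‖ ≤ el lam j / 16 →
      gl (5 / 4) (11 / 4) lam req j k y' = 1 := by
  induction j with
  | zero =>
    have := el_pos l0 0
    obtain ⟨T, h1, h2⟩ := h 0 y.1
    exact ⟨T, h1, fun k hk y' hy => h2 k hk y'.1 ((fst_le y' y).trans (by linarith))⟩
  | succ j ih =>
    have hp := el_pos l0 (j + 1)
    have hle := el_le l0 l1 j
    rcases le_total y.2 (-2 * el lam (j + 1)) with c | c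
    · obtain ⟨T, h1, h2⟩ := ih
      refine ⟨T, h1, fun k hk y' hy => ?_⟩
      have h3 := abs_le.1 ((snd_le y' y).trans hy)
      have d4 : 11 / 8 ≤ -y'.2 / el lam (j + 1) := by
        rw [le_div_iff₀ hp]; linarith
      rw [gl_succ, h2 k hk y' (by linarith),
        st_one (u := 8 * (-y'.2 / el lam (j + 1) - 5 / 4)) (by linarith)]
      ring
    · obtain ⟨T, h1, h2⟩ := h (j + 1) y.1
      refine ⟨T, h1, fun k hk y' hy => ?_⟩
      have h3 := abs_le.1 ((snd_le y' y).trans hy)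
      have d4 : -(21 / 8) ≤ y'.2 / el lam (j + 1) := by
        rw [le_div_iff₀ hp]; linarith
      rw [gl_succ, h2 k hk y'.1 ((fst_le y' y).trans (by linarith)),
        st_one (u := 8 * (y'.2 / el lam (j + 1) + 11 / 4)) (by linarith)]
      ring

omit [Fintype ι] in
theorem gl_sil {lam : ℝ} {act : ℕ → ι → (ι → ℝ) → ℝ} (l0 : 0 < lam) (j : ℕ) (k : ι)
    (z : (ι → ℝ) × ℝ) (h : ∀ i ≤ j, (i = 0 ∨ -3 * el lam i < z.2) →
      (i = j ∨ z.2 < -el lam (i + 1)) → act i k z.1 = 0) : gl 1 3 lam act j k z = 0 := by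
  induction j with
  | zero => exact h 0 le_rfl (Or.inl rfl) (Or.inl rfl)
  | succ j ih =>
    have hp := el_pos l0 (j + 1)
    have c1 : st (8 * (-z.2 / el lam (j + 1) - 1)) * gl 1 3 lam act j k z = 0 := by
      by_cases c : st (8 * (-z.2 / el lam (j + 1) - 1)) = 0
      · rw [c, zero_mul]
      · have d1 := st_pos c
        have d3 : 1 < -z.2 / el lam (j + 1) := by linarith
        rw [lt_div_iff₀ hp] at d3
        rw [ih fun i hi h1 h2 => h i (by omega) h1 (Or.inr ?_), mul_zero]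
        rcases h2 with rfl | h2
        · linarith
        · exact h2
    have c2 : st (8 * (z.2 / el lam (j + 1) + 3)) * act (j + 1) k z.1 = 0 := by
      by_cases c : st (8 * (z.2 / el lam (j + 1) + 3)) = 0
      · rw [c, zero_mul]
      · have d1 := st_pos c
        have d3 : -3 < z.2 / el lam (j + 1) := by linarith
        rw [lt_div_iff₀ hp] at d3
        rw [h (j + 1) le_rfl (Or.inr d3) (Or.inl rfl), mul_zero]
    rw [gl_succ, c1, c2]
    ring

end GlueX

open GlueX in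
theorem glue : GlueStmt := by
  intro ι _ K1 h1
  obtain ⟨K0, h0, hst, -⟩ := exists_K0
  obtain ⟨Ka, hKa⟩ : ∃ Ka : ℝ, Ka = 2 * (16 * K0 + K1) := ⟨_, rfl⟩
  have k2 : 1 ≤ Ka := by linarith
  refine ⟨10 * Ka ^ 2, by nlinarith, fun lam m2 act req l0 l1 h =>
    ⟨gl 1 3 lam act, gl (5 / 4) (11 / 4) lam req, fun j => ⟨?_, gl_sil l0 j⟩⟩⟩
  have hp := inv_pos.2 (el_pos l0 j)
  have m1 : Ka * (el lam j)⁻¹ ≤ 10 * Ka ^ 2 / el lam j := by
    rw [div_eq_mul_inv]
    exact mul_le_mul_of_nonneg_right (by nlinarith) hp.le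
  have m2' : 10 * Ka ^ 2 * (el lam j)⁻¹ ^ 2 ≤ 10 * Ka ^ 2 / el lam j ^ 2 := le_of_eq (by ring)
  exact ⟨gl01 _ _ _ (fun j => (h j).a01) j, gl01 _ _ _ (fun j => (h j).r01) j,
    fun k => (glC _ _ l0 l1 h0 h1 hKa hst (fun j => (h j).a01) (fun j => (h j).aC) j k).mono m1 m2',
    fun k => (glC _ _ l0 l1 h0 h1 hKa hst (fun j => (h j).r01) (fun j => (h j).rC) j k).mono m1 m2',
    gl_ra l0 l1 (fun j => (h j).ra) j, gl_many l0 l1 (fun j => (h j).many) j⟩

end SK

end

section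

namespace SK
open SJ Set Filter Topology MeasureTheory Metric Function
open scoped ENNReal

namespace E2X

/-- a cut off identity -/
noncomputable def Zc (c v : ℝ) : ℝ := c * (zeta (v / c) * (v / c))

theorem Zc_abs {c : ℝ} (hc : 0 < c) (v : ℝ) : |Zc c v| ≤ 2 * c := by
  rw [Zc, abs_mul, abs_of_pos hc]
  have h1 := Cluster2X.abs_g_le (v / c)
  have h2 := zeta_le_one (v / c)
  nlinarith

theorem Zc_id {c v : ℝ} (hc : 0 < c) (hv : |v| ≤ c) : Zc c v = v := by
  rw [Zc, zeta_one (by rwa [abs_div, abs_of_pos hc, div_le_one hc])]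
  field_simp

theorem Zc_c2b {K0 c : ℝ} (hz : C2B zeta K0 K0) (hc : 0 < c) :
    C2B (Zc c) (2 * K0 + 1) (4 * K0 / c) := by
  have h1 : C2B (fun v : ℝ => v / c) (1 / c) (0 / c) := C2B.div_const hc C2B.id'
  have h2 := ((Cluster2X.g_c2b hz).comp h1).const_mul c
  rw [abs_of_pos hc] at h2
  exact h2.mono (le_of_eq (by field_simp)) (le_of_eq (by field_simp; ring))

end E2X

open E2X in
theorem e2S : E2Stmt := by
  intro X _ _ K1 Kr Kh hK1 hKr hKh
  obtain ⟨K0, hK0, hs, hz, -⟩ := exists_K0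
  obtain ⟨K', hK', hb⟩ := cluster_bounds (X := X) K1 hK1
  obtain ⟨c1, hc1⟩ : ∃ c : ℝ, c = 128 * (K0 * K') + (2 * K0 + 1) * (2 * K' * Kh) := ⟨_, rfl⟩
  obtain ⟨c2, hc2⟩ : ∃ c : ℝ, c = 128 * (K0 * K' ^ 2 + K0 * K') +
    2 * (K0 * K') * ((2 * K0 + 1) * (2 * K' * Kh)) +
    (K0 / 16 * (2 * K' * Kh) ^ 2 + (2 * K0 + 1) * (2 * K' * Kh)) := ⟨_, rfl⟩
  obtain ⟨c3, hc3⟩ : ∃ c : ℝ, c = (2 * K0 + 1) * (K' * Kr + 1) := ⟨_, rfl⟩
  have p1 : 0 ≤ c1 := by rw [hc1]; positivity
  have p2 : 0 ≤ c2 := by rw [hc2]; positivity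
  have p3 : 0 ≤ c3 := by rw [hc3]; positivity
  refine ⟨1 + c1 + c2 + c3, by linarith, ?_⟩
  intro I W s κ H κs cs h1 h2
  have hκ := cs.kpos
  have a1 : 16 * κ ≤ Kr * κ := by nlinarith
  have hκs : 0 < κs := by linarith
  have a2 : κs ≤ Kh * κs := by nlinarith
  have a3 : Kr * κ ≤ 2 * Kh * κs := by linarith
  have a4 : 10 * (2 * Kh * κs) ≤ H := by linarith
  have hc : 0 < 64 * κs := by linarith
  obtain ⟨bq, -, be⟩ := hb I W s κ H (2 * Kh * κs) cs (a1.trans a3) a4
  obtain ⟨bq0, -, be0⟩ := hb I W s κ H (Kr * κ) cs a1 (by linarith)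
  have hZ := Zc_c2b hz hc
  have s1 : ∀ y, |st (cq I W s (2 * Kh * κs) y - 1)| ≤ 1 := fun y => by
    rw [abs_of_nonneg (st_nonneg _)]; exact st_le_one _
  refine ⟨fun y => st (cq I W s (2 * Kh * κs) y - 1) * Zc (64 * κs) (ce I W s (2 * Kh * κs) y),
    fun y => ?_, ?_, fun y t g1 g2 g3 => ?_⟩
  · rw [abs_mul]
    have := mul_le_mul (s1 y) (Zc_abs hc (ce I W s (2 * Kh * κs) y)) (abs_nonneg _) zero_le_one
    linarith
  · have m := C2B.mul s1 (hs.comp (bq.sub_const 1)) (fun y => Zc_abs hc _) (hZ.comp be)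
    refine m.mono ?_ ?_
    · calc _ = c1 * κs / κ := by rw [hc1]; field_simp; ring
        _ ≤ _ := by gcongr; linarith
    · calc _ = c2 * κs / κ ^ 2 := by rw [hc2]; field_simp; ring
        _ ≤ _ := by gcongr; linarith
  · have hm : C2B (fun z : X × ℝ => (z.1, y.2)) 1 0 :=
      (C2B.fst' (E := X) (F := ℝ)).prodMk ((C2B.const y.2).mono zero_le_one le_rfl)
    have hq1 := (bq0.comp hm).cont
    have he1 := be0.comp hm
    have hf := he1.add ((C2B.snd' (E := X) (F := ℝ)).sub_const y.2)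
    have he2 := he1.cont
    have o1 : ∀ᶠ z : X × ℝ in 𝓝 (y.1, t), 2 < cq I W s (Kr * κ) (z.1, y.2) :=
      continuousAt_const.eventually_lt hq1.continuousAt g1
    have o2 : ∀ᶠ z : X × ℝ in 𝓝 (y.1, t), |ce I W s (Kr * κ) (z.1, y.2)| < Kr * κ :=
      he2.abs.continuousAt.eventually_lt continuousAt_const g2
    have o3 : ∀ᶠ z : X × ℝ in 𝓝 (y.1, t),
        |z.2 - (y.2 - ce I W s (Kr * κ) (z.1, y.2))| < 3 * Kh * κs :=
      (continuous_snd.sub (continuous_const.sub he2)).abs.continuousAt.eventually_lt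
        continuousAt_const g3
    have ev : (fun y => st (cq I W s (2 * Kh * κs) y - 1) *
        Zc (64 * κs) (ce I W s (2 * Kh * κs) y)) =ᶠ[𝓝 (y.1, t)]
        fun z : X × ℝ => Zc (64 * κs) (ce I W s (Kr * κ) (z.1, y.2) + (z.2 - y.2)) := by
      filter_upwards [o1, o2, o3] with z z1 z2 z3
      obtain ⟨k1, k2⟩ := cluster_cov cs a1 a3 a4 (z.1, y.2) z.2 (by linarith) z2.le
        (by simp only; linarith)
      simp only at k1 k2
      rw [k1, k2, st_one (by linarith), one_mul]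
    refine ⟨?_, fun g4 => ?_⟩
    · rw [ev.fderiv_eq]
      refine ((hZ.comp hf).d1 _).trans ?_
      calc _ = c3 := by rw [hc3]; field_simp
        _ ≤ _ := by linarith
    · exact ev.eq_of_nhds.trans (Zc_id hc g4)

end SK

end

section

namespace SK
open SJ Set Filter Topology MeasureTheory Metric Function
open scoped ENNReal

namespace ZsX

theorem resc {f : ℝ → ℝ} {A B c : ℝ} (h : C2B f A B) (hc : 0 < c) :
    C2B (fun v => f (v / c)) (A / c) (B / c ^ 2) :=
  (h.comp (C2B.id'.div_const hc)).mono (le_of_eq (by ring)) (le_of_eq (by ring))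

theorem scale {f : ℝ → ℝ} {A B c : ℝ} (h : C2B f A B) (hc : 0 < c) :
    C2B (fun v => c * f (v / c)) A (B / c) :=
  ((resc h hc).const_mul c).mono (le_of_eq (by rw [abs_of_pos hc]; field_simp))
    (le_of_eq (by rw [abs_of_pos hc]; field_simp))

theorem scale_has {f : ℝ → ℝ} {c v d : ℝ} (hc : 0 < c) (h : HasDerivAt f d (v / c)) :
    HasDerivAt (fun v => c * f (v / c)) d v := by
  have h1 := (h.comp v ((hasDerivAt_id v).div_const c)).const_mul c
  exact h1.congr_deriv (by field_simp)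

theorem zeta_sign (u : ℝ) : u * deriv zeta u ≤ 0 := by
  have hm : Monotone st := Real.smoothTransition.monotone
  rcases lt_trichotomy u 0 with h | h | h
  · have e : zeta =ᶠ[𝓝 u] fun x => st (2 + x) := by
      filter_upwards [gt_mem_nhds h] with x hx
      rw [zeta, st_one (by linarith), one_mul]
    have m : Monotone fun x => st (2 + x) := fun a b hab => hm (by linarith)
    rw [e.deriv_eq]
    exact mul_nonpos_of_nonpos_of_nonneg h.le m.deriv_nonneg
  · simp [h]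
  · have e : zeta =ᶠ[𝓝 u] fun x => st (2 - x) := by
      filter_upwards [lt_mem_nhds h] with x hx
      rw [zeta, st_one (u := 2 + x) (by linarith), mul_one]
    have m : Antitone fun x => st (2 - x) := fun a b hab => hm (by linarith)
    rw [e.deriv_eq]
    exact mul_nonpos_of_nonneg_of_nonpos h.le m.deriv_nonpos

theorem exists_w : ∃ (w : ℝ → ℝ) (K : ℝ), 1 ≤ K ∧ C2B w K K ∧ (∀ u, |w u| ≤ 2) ∧
    (∀ u, 2 ≤ |u| → w u = 0) ∧ (∀ u, deriv w u ≤ 1) ∧ ∀ u, |u| ≤ 1 → w u = u := by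
  have hc : ContDiff ℝ 2 fun u => u * zeta u := contDiff_id.mul OneD1X.zeta_cd
  obtain ⟨K, h1, h2⟩ := OneD1X.ends hc fun u hu => by
    have e : (fun u => u * zeta u) =ᶠ[𝓝 u] fun _ => 0 := by
      filter_upwards [continuous_abs.continuousAt.eventually (lt_mem_nhds hu)] with x hx
      rw [zeta_zero (by linarith), mul_zero]
    exact OneD1X.loc_const e
  refine ⟨_, K, h1, h2, fun u => ?_, fun u hu => by rw [zeta_zero hu, mul_zero], fun u => ?_,
    fun u hu => by rw [zeta_one hu, mul_one]⟩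
  · rcases le_total 2 |u| with h | h
    · rw [zeta_zero h]; simp
    · rw [abs_mul, abs_of_nonneg (zeta_nonneg u)]
      nlinarith [zeta_nonneg u, zeta_le_one u, abs_nonneg u]
  · have d := ((hasDerivAt_id u).mul
      ((OneD1X.zeta_cd.differentiable (by norm_num)) u).hasDerivAt).deriv
    have d' : deriv (fun u => u * zeta u) u = 1 * zeta u + u * deriv zeta u := d
    rw [d']
    linarith [zeta_sign u, zeta_le_one u]

theorem exists_m {K : ℝ} (hz : C2B zeta K K) : ∃ m : ℝ → ℝ, C2B m 1 K ∧ (∀ u, |m u| ≤ 2) ∧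
    (∀ u, HasDerivAt m (zeta u) u) ∧ ∀ u, |u| ≤ 1 → m u = u := by
  have hd : ∀ u, HasDerivAt (fun v => ∫ s in (0 : ℝ)..v, zeta s) (zeta u) u := fun u =>
    (hz.cont.integral_hasStrictDerivAt 0 u).hasDerivAt
  have he : deriv (fun v => ∫ s in (0 : ℝ)..v, zeta s) = zeta := funext fun u => (hd u).deriv
  have hc : ContDiff ℝ 2 fun v => ∫ s in (0 : ℝ)..v, zeta s := by
    rw [show (2 : WithTop ℕ∞) = 1 + 1 from rfl, contDiff_succ_iff_deriv, he]
    exact ⟨fun u => (hd u).differentiableAt, by simp, hz.cd.of_le (by norm_num)⟩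
  have z1 : ∀ u, |zeta u| ≤ 1 := fun u => by
    rw [abs_of_nonneg (zeta_nonneg u)]; exact zeta_le_one u
  have b1 : ∀ u, |∫ s in (0 : ℝ)..u, zeta s| ≤ |u| := fun u => by
    simpa using intervalIntegral.norm_integral_le_of_norm_le_const (a := 0) (b := u) (C := 1)
      (f := zeta) fun x _ => z1 x
  have b2 : ∀ a u : ℝ, (∀ x ∈ uIcc a u, 2 ≤ |x|) →
      ∫ s in (0 : ℝ)..u, zeta s = ∫ s in (0 : ℝ)..a, zeta s := fun a u h => by
    rw [← intervalIntegral.integral_add_adjacent_intervals (b := a)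
      (hz.cont.intervalIntegrable _ _) (hz.cont.intervalIntegrable _ _),
      intervalIntegral.integral_congr (g := fun _ => (0 : ℝ)) fun x hx => zeta_zero (h x hx)]
    simp
  refine ⟨_, C2B.of_deriv hc (fun u => by rw [he]; exact z1 u) fun u => ?_, fun u => ?_, hd,
    fun u hu => ?_⟩
  · rw [he, ← norm_fderiv_real]
    exact hz.d1 u
  · rcases le_total |u| 2 with h | h
    · exact (b1 u).trans h
    rcases le_abs.1 h with h | h
    · rw [b2 2 u fun x hx => ?_]
      · simpa using b1 2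
      · rw [uIcc_of_le h] at hx
        exact le_abs.2 (Or.inl hx.1)
    · rw [b2 (-2) u fun x hx => ?_]
      · simpa using b1 (-2)
      · rw [uIcc_of_ge (by linarith)] at hx
        exact le_abs.2 (Or.inr (by linarith [hx.2]))
  · rw [intervalIntegral.integral_congr (g := fun _ => (1 : ℝ)) fun x hx => zeta_one ?_]
    · simp
    · have := abs_sub_left_of_mem_uIcc hx
      simp only [sub_zero] at this
      exact this.trans hu

theorem abs_div_ge {v c a : ℝ} (hc : 0 < c) (h : a * c ≤ |v|) : a ≤ |v / c| := by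
  rwa [abs_div, abs_of_pos hc, le_div_iff₀ hc]

theorem abs_div_le {v c : ℝ} (hc : 0 < c) (h : |v| ≤ c) : |v / c| ≤ 1 := by
  rwa [abs_div, abs_of_pos hc, div_le_one hc]

end ZsX

open ZsX in
theorem zS : ZStmt := by
  obtain ⟨K0, k0, -, hz, -⟩ := exists_K0
  obtain ⟨w, K1, k1, w1, w2, w3, w4, w5⟩ := exists_w
  obtain ⟨m, m1, m2, m3, m4⟩ := exists_m hz
  refine ⟨64 * K0 + K1, by linarith, fun ε κ e0 e1 hκ => ⟨?_, ?_⟩⟩
  · have c0 : 0 < 8 * κ := by positivity
    have a1 : |ε - 1| ≤ 1 := abs_le.2 ⟨by linarith, by linarith⟩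
    refine ⟨fun v => (ε - 1) * (8 * κ * w (v / (8 * κ))),
      ((scale w1 c0).const_mul (ε - 1)).mono ?_ ?_, fun v => ?_, fun v hv => ?_, fun v => ?_,
      fun v hv => ?_⟩
    · nlinarith [abs_nonneg (ε - 1)]
    · calc |ε - 1| * (K1 / (8 * κ)) ≤ 1 * (K1 / κ) := by gcongr; linarith
        _ ≤ (64 * K0 + K1) / κ := by rw [one_mul]; gcongr; linarith
    · rw [abs_mul, abs_mul, abs_of_pos c0]
      calc _ ≤ 1 * (8 * κ * 2) := by gcongr; exact w2 _
        _ = _ := by ring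
    · rw [w3 _ (abs_div_ge c0 (by linarith))]
      simp
    · rw [((scale_has c0 (w1.diff _).hasDerivAt).const_mul (ε - 1)).deriv]
      nlinarith [w4 (v / (8 * κ))]
    · rw [w5 _ (abs_div_le c0 hv)]
      field_simp
  · have c0 : 0 < 8 * ε * κ := by positivity
    have c1 : 0 < 32 * K0 * κ := by positivity
    have a0 : 0 ≤ 1 / ε - 1 := by rw [sub_nonneg, le_div_iff₀ e0]; linarith
    have a1 : |1 / ε - 1| ≤ 1 / ε := by rw [abs_of_nonneg a0]; linarith
    have a2 : (1 / ε - 1) * ε ≤ 1 := by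
      rw [sub_mul, one_div_mul_cancel e0.ne']; linarith
    have b0 : ∀ v, |8 * ε * κ * m (v / (8 * ε * κ))| ≤ 16 * ε * κ := fun v => by
      rw [abs_mul, abs_of_pos c0]
      nlinarith [m2 (v / (8 * ε * κ))]
    have b1 : ∀ v, |zeta (v / (32 * K0 * κ))| ≤ 1 := fun v => by
      rw [abs_of_nonneg (zeta_nonneg _)]; exact zeta_le_one _
    have hx := resc hz c1
    have q1 : K0 / (32 * K0 * κ) = 1 / (32 * κ) := by field_simp
    rw [q1] at hx
    refine ⟨fun v => (1 / ε - 1) * (8 * ε * κ * m (v / (8 * ε * κ)) * zeta (v / (32 * K0 * κ))),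
      ((C2B.mul b0 (scale m1 c0) b1 hx).const_mul (1 / ε - 1)).mono ?_ ?_, fun v => ?_,
      fun v hv => ?_, fun v => ?_, fun v hv => ?_⟩
    · have : 1 * 1 + 16 * ε * κ * (1 / (32 * κ)) = 1 + ε / 2 := by field_simp; ring
      rw [this]
      calc _ ≤ 1 / ε * (64 * K0 + K1) := by gcongr <;> linarith
        _ = _ := by ring
    · have : K0 / (8 * ε * κ) * 1 + 2 * 1 * (1 / (32 * κ)) +
          16 * ε * κ * (K0 / (32 * K0 * κ) ^ 2) =
          (K0 / 8 + ε / 16 + ε ^ 2 / (64 * K0)) / (ε * κ) := by field_simp; ring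
      rw [this]
      have : ε ^ 2 / (64 * K0) ≤ 1 := by
        rw [div_le_one (by positivity)]; nlinarith
      calc _ ≤ 1 / ε * ((64 * K0 + K1) / (ε * κ)) := by gcongr <;> linarith
        _ = _ := by field_simp
    · rw [abs_mul, abs_mul, abs_of_nonneg a0]
      calc _ ≤ (1 / ε - 1) * (16 * ε * κ * 1) := by gcongr; exacts [b0 v, b1 v]
        _ = (1 / ε - 1) * ε * (16 * κ) := by ring
        _ ≤ 1 * (16 * κ) := by gcongr
        _ = _ := by ring
    · rw [zeta_zero (abs_div_ge c1 (by nlinarith))]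
      simp
    · have d := (((scale_has c0 (m3 (v / (8 * ε * κ)))).mul
        (hx.diff v).hasDerivAt).const_mul (1 / ε - 1)).deriv
      have d1 : |deriv (fun v => zeta (v / (32 * K0 * κ))) v| ≤ 1 / (32 * κ) := by
        rw [← norm_fderiv_real]; exact hx.d1 v
      have d2 : |8 * ε * κ * m (v / (8 * ε * κ)) * deriv (fun v => zeta (v / (32 * K0 * κ))) v| ≤
          ε / 2 := by
        rw [abs_mul]
        calc _ ≤ 16 * ε * κ * (1 / (32 * κ)) := by gcongr; exact b0 v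
          _ = _ := by field_simp; ring
      have d3 := mul_nonneg (zeta_nonneg (v / (8 * ε * κ))) (zeta_nonneg (v / (32 * K0 * κ)))
      refine le_of_le_of_eq ?_ (congrArg (1 + ·) d).symm
      have d4 := mul_le_mul_of_nonneg_left (le_trans (neg_le_of_abs_le d2)
        (le_add_of_nonneg_left d3)) a0
      linarith
    · rw [m4 _ (abs_div_le c0 hv), zeta_one (abs_div_le c1 (by nlinarith))]
      field_simp

end SK

end

section

namespace SK
open SJ Set Filter Topology MeasureTheory Metric Function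
open scoped ENNReal

namespace VertS2X
variable {X : Type*} [NormedAddCommGroup X] [NormedSpace ℝ X]

theorem norm_shift {f : X × ℝ → ℝ} {y : X × ℝ} {T : ℝ} (hf : DifferentiableAt ℝ f y)
    (hT : ‖fderiv ℝ f y‖ ≤ T) :
    ‖fderiv ℝ (fun z : X × ℝ => (z.1, z.2 + 2 * f z)) y‖ ≤ 1 + 2 * T := by
  have T0 : 0 ≤ T := (norm_nonneg _).trans hT
  have h1 : HasFDerivAt (fun z : X × ℝ => (z.1, z.2 + 2 * f z))
      ((ContinuousLinearMap.fst ℝ X ℝ).prod
        (ContinuousLinearMap.snd ℝ X ℝ + (2 : ℝ) • fderiv ℝ f y)) y :=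
    hasFDerivAt_fst.prodMk (hasFDerivAt_snd.add (hf.hasFDerivAt.const_mul 2))
  rw [h1.fderiv]
  refine ContinuousLinearMap.opNorm_le_bound _ (by linarith) fun v => ?_
  have h2 : ‖fderiv ℝ f y v‖ ≤ T * ‖v‖ :=
    ((fderiv ℝ f y).le_opNorm v).trans (mul_le_mul_of_nonneg_right hT (norm_nonneg _))
  have h3 : 0 ≤ T * ‖v‖ := (norm_nonneg _).trans h2
  have h4 := norm_fst_le v
  have h5 := norm_snd_le v
  have h6 := norm_add_le v.2 (2 * fderiv ℝ f y v)
  rw [norm_mul, Real.norm_two] at h6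
  show ‖(v.1, v.2 + 2 * fderiv ℝ f y v)‖ ≤ _
  rw [Prod.norm_mk]
  exact max_le (by linarith) (by linarith)

theorem sh_d1 {K0 K1 κ h A B : ℝ} (hκ : 0 < κ) (hh : 2 * κ ≤ h) (hst : C2B st K0 K0)
    (hz : C2B zeta K0 K0) {q e e2 : X × ℝ → ℝ} (hq : C2B q (K1 / κ) (K1 / κ ^ 2))
    (he : C2B e K1 (K1 / κ)) (hb : ∀ y, |e2 y| ≤ 256 * κ) (he2 : C2B e2 A B) (y : X × ℝ)
    (hy : 1 ≤ q y → |e y| ≤ h → ‖fderiv ℝ e2 (y.1, y.2 - e y)‖ ≤ K1) :
    ‖fderiv ℝ (VertSX.sh q e e2 h) y‖ ≤ 512 * K0 * K1 + K1 * (1 + K1) := by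
  have h0 := hst.nonneg1
  have h1 := he.nonneg1
  have hp : 0 < h / 2 := by linarith
  by_cases hA : 1 ≤ q y ∧ |e y| ≤ h
  · have b1 : ∀ y, |st (q y - 1)| ≤ 1 := fun y => by
      rw [abs_of_nonneg (st_nonneg _)]; exact st_le_one _
    have b2 : ∀ y, |zeta (e y / (h / 2))| ≤ 1 := fun y => by
      rw [abs_of_nonneg (zeta_nonneg _)]; exact zeta_le_one _
    have b3 : |st (q y - 1) * zeta (e y / (h / 2))| ≤ 1 := by
      rw [abs_mul]; exact mul_le_one₀ (b1 y) (abs_nonneg _) (b2 y)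
    have a4 := C2B.mul b1 (hst.comp (hq.sub_const 1)) b2 (hz.comp (he.div_const hp))
    have k0 : 0 ≤ K1 / κ := he.nonneg2
    have a5 : C2B (fun y : X × ℝ => (y.1, y.2 - e y)) (1 + K1) (K1 / κ) :=
      (C2B.fst'.mono (by linarith) k0).prodMk ((C2B.snd'.sub he).mono le_rfl (by linarith))
    have c1 : ‖fderiv ℝ (fun y : X × ℝ => e2 (y.1, y.2 - e y)) y‖ ≤ K1 * (1 + K1) :=
      (norm_fderiv_comp_le' he2.cd a5.cd y).trans
        (mul_le_mul (hy hA.1 hA.2) (a5.d1 y) (norm_nonneg _) h1)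
    have c2 : ‖fderiv ℝ (fun y => st (q y - 1) * zeta (e y / (h / 2))) y‖ ≤
        2 * (K0 * (K1 / κ)) := by
      refine (a4.d1 y).trans ?_
      have : K0 * (K1 / (h / 2)) ≤ K0 * (K1 / κ) :=
        mul_le_mul_of_nonneg_left (div_le_div_of_nonneg_left h1 hκ (by linarith)) h0
      linarith
    have c3 := norm_fderiv_smul_le' a4.cd (he2.comp a5).cd y
    refine le_trans c3 ?_
    have c4 : 2 * (K0 * (K1 / κ)) * (256 * κ) = 512 * K0 * K1 := by
      field_simp
      ring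
    rw [← c4]
    refine add_le_add (mul_le_mul c2 (hb _) (norm_nonneg _) (by positivity)) ?_
    exact (mul_le_of_le_one_left (norm_nonneg _) b3).trans c1
  · have hs : q y < 1 ∨ h < |e y| := by
      by_contra hn
      rw [not_or, not_lt, not_lt] at hn
      exact hA hn
    have ho : IsOpen {u : X × ℝ | q u < 1 ∨ h < |e u|} :=
      (isOpen_lt hq.cont continuous_const).union (isOpen_lt continuous_const he.cont.abs)
    have h2 : VertSX.sh q e e2 h =ᶠ[𝓝 y] fun _ => 0 := by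
      filter_upwards [ho.mem_nhds hs] with u hu
      rcases hu with hu | hu
      · simp only [VertSX.sh]; rw [st_zero (by linarith), zero_mul, zero_mul]
      · simp only [VertSX.sh]
        rw [zeta_zero, mul_zero, zero_mul]
        rw [abs_div, abs_of_pos hp, le_div_iff₀ hp]
        linarith
    rw [h2.fderiv_eq, fderiv_fun_const, Pi.zero_apply, norm_zero]
    positivity

end VertS2X

theorem vertS2 : VertS2Stmt := by
  intro X _ _
  obtain ⟨K0, h0, hst, hz, -⟩ := exists_K0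
  refine ⟨4096 * K0, by linarith, fun K1 h1 => ?_⟩
  obtain ⟨R, R0, hR⟩ := VertSX.sh_c2b (X := X) h0 h1 hst hz
  obtain ⟨T, hT⟩ : ∃ T, T = 512 * K0 * K1 + K1 * (1 + K1) := ⟨_, rfl⟩
  have T0 : 0 ≤ T := by rw [hT]; positivity
  refine ⟨1 + 2 * R + 2 * T, by linarith, fun q e e2 κ κ' k0 k1 ⟨hq, he, hc⟩ hb he2 => ?_⟩
  have hκ : 0 < κ := k0.trans_le k1
  have hw : 1 ≤ κ * κ'⁻¹ := by rw [← div_eq_mul_inv, le_div_iff₀ k0]; linarith
  have w0 : 0 < κ'⁻¹ := inv_pos.2 k0
  have hh : 32 * κ ≤ 4096 * K0 * κ := by nlinarith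
  have hs := hR q e e2 κ κ'⁻¹ (4096 * K0 * κ) hκ hw (by linarith)
    (hq.mono (by rw [← div_eq_mul_inv]; gcongr) (by rw [inv_pow, ← div_eq_mul_inv]; gcongr)) he hb
    (he2.mono (le_of_eq (by ring)) (le_of_eq (by ring)))
  have hl := VertSX.sh_lip h0 hκ hz hq.cont he.cont hs.diff hc hb
  have hd := VertS2X.sh_d1 hκ (show 2 * κ ≤ 4096 * K0 * κ by linarith) hst hz hq he hb he2
  rw [← hT] at hd
  set f := VertSX.sh q e e2 (4096 * K0 * κ) with hf
  refine ⟨fun y => (y.1, y.2 + 2 * f y), ?_, fun _ => rfl, ?_, fun y => ?_,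
    fun y hy => ?_, fun y hy hy' => ?_, fun y hy => ?_⟩
  · have p1 : 0 ≤ R * (κ * κ'⁻¹) := by positivity
    have p2 : 0 ≤ κ * κ'⁻¹ ^ 2 := by positivity
    have p3 : 0 ≤ R * (κ * κ'⁻¹ ^ 2) := by positivity
    have p4 : 0 ≤ T * (κ * κ'⁻¹) := by positivity
    have p5 : 0 ≤ T * (κ * κ'⁻¹ ^ 2) := by positivity
    have e1 : (1 + 2 * R + 2 * T) * κ / κ' =
        κ * κ'⁻¹ + 2 * (R * (κ * κ'⁻¹)) + 2 * (T * (κ * κ'⁻¹)) := by ring
    have e2 : (1 + 2 * R + 2 * T) * κ / κ' ^ 2 =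
        κ * κ'⁻¹ ^ 2 + 2 * (R * (κ * κ'⁻¹ ^ 2)) + 2 * (T * (κ * κ'⁻¹ ^ 2)) := by ring
    rw [e1, e2]
    refine (C2B.fst'.mono (by linarith) (by linarith)).prodMk
      ((C2B.snd'.add (hs.const_mul 2)).mono ?_ ?_) <;> rw [abs_two] <;> linarith
  · rintro ⟨z, t⟩ ⟨z', t'⟩ hy
    simp only [Prod.mk.injEq] at hy
    obtain ⟨rfl, hy⟩ := hy
    have a := hl z t t'
    rw [show f (z, t) - f (z, t') = -(1 / 2) * (t - t') by linarith, abs_mul, abs_neg,
      abs_of_pos (by norm_num : (0 : ℝ) < 1 / 2)] at a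
    have b : |t - t'| = 0 := by linarith [abs_nonneg (t - t')]
    rw [sub_eq_zero.1 (abs_eq_zero.1 b)]
  · have a : |f y| ≤ 1 * 1 * (256 * κ) := by
      simp only [hf, VertSX.sh]
      rw [abs_mul, abs_mul, abs_of_nonneg (st_nonneg _), abs_of_nonneg (zeta_nonneg _)]
      have := st_le_one (q y - 1)
      have := zeta_le_one (e y / (4096 * K0 * κ / 2))
      have := zeta_nonneg (e y / (4096 * K0 * κ / 2))
      have := hb (y.1, y.2 - e y)
      gcongr
    rw [Prod.norm_def]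
    simp only [Prod.fst_sub, Prod.snd_sub, sub_self, norm_zero, add_sub_cancel_left,
      Real.norm_eq_abs, abs_mul, abs_two]
    exact max_le (by positivity) (by linarith)
  · simp only [hf, VertSX.sh]
    rw [st_zero (by linarith)]
    simp
  · simp only [hf, VertSX.sh]
    rw [st_one (by linarith), zeta_one, one_mul, one_mul]
    rw [abs_div, abs_of_pos (by linarith : 0 < 4096 * K0 * κ / 2), div_le_one (by linarith)]
    linarith
  · exact (VertS2X.norm_shift (hs.diff y) (hd y hy)).trans (by linarith)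

end SK

end

section

namespace SK

theorem allF : FPack2Stmt :=
  fPack2 glue (clus2 grid3 e2S) zS (fSq2 impEx2 scal prof sumProd) thC (levA2 vMove)
    (levB2 vMove zS vertS2 conj2) nuS

theorem main2 (n : ℕ) (q : ℝ) (hq : 1 ≤ q) (h : (7 ≤ n ∧ q < 3 / 2) ∨ (10 ≤ n ∧ q < 2)) :
    SJ.SignChange n q := by
  obtain ⟨d, rfl⟩ : ∃ d, n = d + 1 := ⟨n - 1, by omega⟩
  rcases h with ⟨h1, h2⟩ | ⟨h1, h2⟩
  · obtain ⟨r, hr⟩ : ∃ r, d + 1 = r + 2 * 3 := ⟨d - 5, by omega⟩
    have h3 : (1 : ℝ) ≤ r := by exact_mod_cast (by omega : 1 ≤ r)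
    exact main_of2 allT allF limS locS allInt allSign allWrap r 3 d q (by omega) hq (by linarith)
      (by linarith) (by push_cast; linarith) hr
  · obtain ⟨r, hr⟩ : ∃ r, d + 1 = r + 2 * 4 := ⟨d - 7, by omega⟩
    have h3 : (2 : ℝ) ≤ r := by exact_mod_cast (by omega : 2 ≤ r)
    exact main_of2 allT allF limS locS allInt allSign allWrap r 4 d q (by omega) hq h2
      (by linarith) (by push_cast; linarith) hr

end SK

end
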